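import Pool.Graph.R_seed8.Y736.HG7

set_option autoImplicit false

/-! # Typical parameters are dense in the boundary of the Multibrot sets, for all degrees -/

namespace Pool.Agent.H206

open Complex Metric Set Filter Topology MeasureTheory Pool.Agent.H712R2 Pool.Agent.H713R2
open N62a1eb23 Pool.Agent.Y298.CA
open Real (posLog circleAverage)
open Pool.Agent.Y736.HD
open Pool.Agent.Y736.HG (mean_le avg_psi TT_step DD_limsup green_cont ae_land)

variable {d : ℕ} {ψ : ℂ → ℂ}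

/-- lower bound of the mean of the truncated potential by the iterates -/
theorem le_mean_it (hd : 2 ≤ d) {β : ℂ → ℂ} (hβ : IsBeta d β)
    (hψ : IsExteriorMap (multibrotSet d) ψ) {c₀ : ℂ}
    (hc₀ : c₀ ∈ multibrotSet d) {ρ s : ℝ} (hρ : 0 < ρ) (hs0 : 0 < s) (hs1 : s < 1) (m : ℕ) :
    circleAverage (fun z => posLog (‖P d (m + 1) z‖ / 2)) c₀ ρ / (d : ℝ) ^ m + Real.log s ≤
      circleAverage (UU β c₀ ρ) 0 s := by
  have hlogs : Real.log s < 0 := Real.log_neg hs0 hs1
  have hcont : Continuous (fun z => posLog (‖P d (m + 1) z‖ / 2)) := by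
    apply Real.continuous_posLog.comp
    exact (Pool.Agent.H713R2.differentiable_P d (m + 1)).continuous.norm.div_const 2
  have hci : CircleIntegrable (fun z => posLog (‖P d (m + 1) z‖ / 2)) c₀ ρ :=
    hcont.continuousOn.circleIntegrable hρ.le
  have hdR : (0 : ℝ) < d := by exact_mod_cast (by omega : 0 < d)
  have h2m : (0 : ℝ) < (d : ℝ) ^ m := by positivity
  have hli : CircleIntegrable (fun z => posLog (‖P d (m + 1) z‖ / 2) / (d : ℝ) ^ m + Real.log s)
      c₀ ρ := by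
    have h2 : CircleIntegrable (fun z => posLog (‖P d (m + 1) z‖ / 2) / (d : ℝ) ^ m) c₀ ρ :=
      IntervalIntegrable.div_const hci _
    exact h2.add (circleIntegrable_const _ _ _)
  have hkey := lower_II hβ hc₀ hρ hs0 hs1 hli (fun z hz => by
    by_cases hzM : z ∈ multibrotSet d
    · rw [avg_mem hβ hzM hs0 hs1]
      have h1 := (mem_multibrot_iff hd z).1 hzM (m + 1)
      have h3 : posLog (‖P d (m + 1) z‖ / 2) = 0 := by
        rw [Real.posLog_eq_zero_iff, abs_of_nonneg (by positivity), div_le_one (by norm_num)]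
        exact h1
      rw [h3, zero_div, zero_add]
      exact hlogs.le
    · have h1 : z ∈ (multibrotSet d)ᶜ := hzM
      rw [← hψ.image] at h1
      obtain ⟨w, hw, rfl⟩ := h1
      have hw' : 1 < ‖w‖ := hw
      have h3 := Pool.Agent.W677.MC.P_le_two hd hψ hw m
      have h8 : posLog (‖P d (m + 1) (ψ w)‖ / 2) / (d : ℝ) ^ m ≤ Real.log ‖w‖ := by
        rw [div_le_iff₀ h2m]
        have h4 : posLog (‖P d (m + 1) (ψ w)‖ / 2) ≤ posLog (‖w‖ ^ (d ^ m)) := by
          apply Real.posLog_le_posLog (by positivity)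
          linarith
        refine h4.trans (le_of_eq ?_)
        rw [Real.posLog_pow, Real.posLog_eq_log (by rw [abs_of_pos (by linarith)]; exact hw'.le)]
        push_cast
        ring
      have e1 := avg_ext hβ hw hs0 hs1
      rw [← exteriorMap_unique hβ hψ hw] at e1
      rw [e1]
      have h9 : Real.log (s * ‖w‖) ≤ posLog (s * ‖w‖) := le_max_right _ _
      rw [Real.log_mul hs0.ne' (by linarith)] at h9
      linarith)
  refine le_trans (le_of_eq ?_) hkey
  rw [avg_eq, avg_eq]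
  have hi := integrable_of hci
  rw [integral_add (hi.div_const _) (integrable_const _), integral_div]
  simp

/-- every disc around a boundary point has positive harmonic measure -/
theorem pos_vol (hd : 2 ≤ d) (hψ : IsExteriorMap (multibrotSet d) ψ) {c₀ : ℂ}
    (hc₀ : c₀ ∈ frontier (multibrotSet d)) {r : ℝ} (hr : 0 < r) :
    0 < (volume (Ang ψ c₀ r)).toReal := by
  have hpi := Real.pi_pos
  obtain ⟨β, hβ⟩ := exists_beta (d := d) hd
  have hcl : IsClosed (multibrotSet d) := (isCompact_multibrot hd).isClosed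
  have hM : c₀ ∈ multibrotSet d := hcl.frontier_subset hc₀
  have hdR : (0 : ℝ) < d := by exact_mod_cast (by omega : 0 < d)
  -- an exterior point
  obtain ⟨z₁, hz₁, hz₁r⟩ : ∃ z₁, z₁ ∉ multibrotSet d ∧ ‖z₁ - c₀‖ < r := by
    rw [frontier_eq_closure_inter_closure] at hc₀
    obtain ⟨z, hz, hd⟩ := Metric.mem_closure_iff.1 hc₀.2 r hr
    rw [dist_comm, dist_eq_norm] at hd
    exact ⟨z, hz, hd⟩
  obtain ⟨ρ, hρ⟩ : ∃ ρ, ρ = ‖z₁ - c₀‖ := ⟨_, rfl⟩
  have hρ0 : 0 < ρ := by
    rw [hρ]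
    apply norm_pos_iff.2
    intro h
    apply hz₁
    rw [sub_eq_zero.1 h]
    exact hM
  have hρr : ρ < r := by rw [hρ]; exact hz₁r
  obtain ⟨m, hm⟩ : ∃ m, 2 < ‖P d (m + 1) z₁‖ := by
    by_contra hcon
    push Not at hcon
    apply hz₁
    rw [mem_multibrot_iff hd]
    intro k
    rcases k with _ | k
    · simp [Pool.Agent.H712R2.P_zero]
    · exact hcon k
  -- the mean is positive
  obtain ⟨T, hT⟩ : ∃ T, T = circleAverage (fun z => posLog (‖P d (m + 1) z‖ / 2)) c₀ ρ /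
      (d : ℝ) ^ m := ⟨_, rfl⟩
  have hT0 : 0 < T := by
    rw [hT]
    apply div_pos _ (by positivity)
    rw [Real.circleAverage_def, smul_eq_mul]
    apply mul_pos (by positivity)
    have hcont : Continuous (fun θ : ℝ => posLog (‖P d (m + 1) (circleMap c₀ ρ θ)‖ / 2)) := by
      apply Real.continuous_posLog.comp
      exact ((Pool.Agent.H713R2.differentiable_P d (m + 1)).continuous.comp
        (continuous_circleMap c₀ ρ)).norm.div_const 2
    apply intervalIntegral.integral_pos (by positivity) hcont.continuousOn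
      (fun θ _ => Real.posLog_nonneg)
    have h1 : z₁ ∈ sphere c₀ |ρ| := by
      rw [mem_sphere, dist_eq_norm, abs_of_pos hρ0, hρ]
    rw [← image_circleMap_Ioc] at h1
    obtain ⟨θ, hθ, hθz⟩ := h1
    refine ⟨θ, Ioc_subset_Icc_self hθ, ?_⟩
    rw [hθz]
    have h2 : 1 < ‖P d (m + 1) z₁‖ / 2 := by linarith
    calc 0 < Real.log (‖P d (m + 1) z₁‖ / 2) := Real.log_pos h2
      _ ≤ _ := le_max_right _ _
  -- small scales
  obtain ⟨δ, hδ, hgc⟩ := green_cont hd hM (half_pos hT0)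
  obtain ⟨ρ', hρ'⟩ : ∃ ρ', ρ' = min δ (ρ / 2) := ⟨_, rfl⟩
  have hρ'0 : 0 < ρ' := by rw [hρ']; exact lt_min hδ (half_pos hρ0)
  have hρ'δ : ρ' ≤ δ := by rw [hρ']; exact min_le_left _ _
  have hρ'ρ : ρ' < ρ := by
    have : ρ' ≤ ρ / 2 := by rw [hρ']; exact min_le_right _ _
    linarith
  have hlog : 0 < Real.log (ρ / ρ') := by
    apply Real.log_pos
    rwa [lt_div_iff₀ hρ'0, one_mul]
  have hkey : ∀ ε : ℝ, 0 < ε → T / 2 ≤
      Real.log (ρ / ρ') * ((volume (Ang ψ c₀ r)).toReal / (2 * Real.pi) + ε) := by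
    intro ε hε
    have h1 : ∀ᶠ n in atTop, T + Real.log (sn n) ≤
        Real.log (ρ / ρ') * ((volume (Ang ψ c₀ r)).toReal / (2 * Real.pi) + ε) + T / 2 := by
      filter_upwards [DD_limsup hψ (ae_land hd hψ) c₀ hρr hε] with n hn
      have h2 := le_mean_it hd hβ hψ hM hρ0 (sn_pos n) (sn_lt n) m
      rw [← hT, avg_psi hβ hψ c₀ _ (sn_pos n) (sn_lt n)] at h2
      have h3 := mean_le hβ hψ hM hρ'0 (sn_pos n) (sn_lt n) (half_pos hT0).le
        (fun w hw hwr => hgc ψ hψ w hw (hwr.trans hρ'δ))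
      rw [avg_psi hβ hψ c₀ _ (sn_pos n) (sn_lt n)] at h3
      have h4 := TT_step hψ hM hρ'0 hρ'ρ n
      unfold TT at h4
      have h5 := mul_le_mul_of_nonneg_left hn hlog.le
      linarith
    have h3 : Tendsto (fun n => T + Real.log (sn n)) atTop (𝓝 (T + Real.log 1)) :=
      ((Real.continuousAt_log one_ne_zero).tendsto.comp sn_lim).const_add T
    rw [Real.log_one, add_zero] at h3
    have h4 := le_of_tendsto h3 h1
    linarith
  by_contra hcon
  have h0 : (volume (Ang ψ c₀ r)).toReal = 0 :=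
    le_antisymm (not_lt.1 hcon) ENNReal.toReal_nonneg
  have h1 := hkey (T / 4 / Real.log (ρ / ρ')) (by positivity)
  rw [h0, zero_div, zero_add, mul_div_cancel₀ _ hlog.ne'] at h1
  linarith

/-- the typical parameters are dense in the boundary -/
theorem typ_dense (hd : 2 ≤ d) : frontier (multibrotSet d) ⊆
    closure {t | t ∈ frontier (multibrotSet d) ∧ Lyap d (Real.log d) t} := by
  intro c hc
  rw [Metric.mem_closure_iff]
  intro ε hε
  obtain ⟨β, hβ⟩ := exists_beta (d := d) hd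
  obtain ⟨ψ, hψe⟩ : ∃ ψ : ℂ → ℂ, ψ = fun z => z * β z⁻¹ := ⟨_, rfl⟩
  have hψ : IsExteriorMap (multibrotSet d) ψ := by
    rw [hψe]
    exact exteriorMap_of_beta hβ
  have h1 := pos_vol hd hψ hc hε
  have h2 : volume (Ang ψ c ε) ≠ 0 := by
    intro h
    rw [h] at h1
    simp at h1
  have h3 : ∀ᵐ θ : ℝ, ∃ c₀ : ℂ, c₀ ∈ frontier (multibrotSet d) ∧ Lyap d (Real.log d) c₀ ∧
      Tendsto (fun ρ : ℝ => ψ (ρ * exp (θ * I))) (𝓝[>] 1) (𝓝 c₀) := by
    filter_upwards [Pool.Agent.Y272.TY.ae_neg' (Pool.Agent.Y272.TY.typical_all hd hβ)]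
      with θ hθ
    obtain ⟨c₀, A, R, h⟩ := hθ
    have h4 := lyap_of_typ hd hβ h
    exact ⟨c₀, h.frontier hd hβ, h4, h.tendsto_psi hβ hψ⟩
  have h4 : ∃ᵐ θ : ℝ, θ ∈ Ang ψ c ε := by
    rw [frequently_ae_mem_iff]
    exact h2
  obtain ⟨θ, h5, c₀, h6, h7, h8⟩ := (h4.and_eventually h3).exists
  obtain ⟨-, ζ, hζ, hlim⟩ := h5
  have h9 : ζ = c₀ := tendsto_nhds_unique hlim h8
  refine ⟨c₀, ⟨h6, h7⟩, ?_⟩
  rw [mem_ball, dist_comm, h9] at hζ
  exact hζ

end Pool.Agent.H206
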