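import Pool.Agent.H206.Tower

set_option autoImplicit false

/-! # Flatness at the limits of towers -/

namespace Pool.Agent.H206

open Complex Metric Set Filter Topology
open N62a1eb23
open Pool.Agent.Results.MP_af9036_an.PerfectZones
open Pool.Agent.H713R2 (IsExteriorMap)

theorem Limit.strictMono {d : ℕ} {ψ : ℂ → ℂ} {a x : ℂ} {u : ℕ → ℕ × ℂ × ℂ × ℂ}
    (h : Limit d ψ a x u) : StrictMono fun k => (u k).1 := strictMono_nat_of_lt_succ h.lt

theorem Limit.fineAt {d : ℕ} {ψ : ℂ → ℂ} {a x : ℂ} {u : ℕ → ℕ × ℂ × ℂ × ℂ}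
    (h : Limit d ψ a x u) : ∀ η : ℝ, 0 < η → Fine d ψ η {x} := by
  intro η hη
  obtain ⟨k, hk⟩ := exists_nat_gt (1 / η)
  have hk' : 1 / ((k : ℝ) + 1) ≤ η := by
    rw [div_le_iff₀ (by positivity)]
    rw [div_lt_iff₀ hη] at hk
    nlinarith
  obtain ⟨b, ρ, h1, h2, h3, h4, h5, δ, h6, h7⟩ := h.fine k
  refine ⟨b, ρ, h1, h2, h3.trans hk', fun y hy => h4 (by rw [mem_singleton_iff.1 hy]; exact h.mem k),
    fun ζ hζ hne y hy z hz => (h5 ζ hζ hne y hy z hz).trans hk', δ, h6,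
    fun y hy hyb z hz hzy => ?_⟩
  obtain ⟨S, g1, g2, g3, g4, g5, g6⟩ := h7 y hy hyb z hz hzy
  exact ⟨S, g1, g2, g3, g4, g5, g6.trans (closedBall_subset_closedBall hk')⟩

/-- the bound for the renormalised map -/
theorem ren_bound {d n : ℕ} {c l m x : ℂ} {S : ℝ} (hl : l ≠ 0) (hm : m ≠ 0)
    (hZ : Zone d n c l m S 1) (hS : 3 ^ d + 4 ^ d ≤ S) (hx : x ∈ KK d n c l m) {z : ℂ}
    (hz : ‖z‖ ≤ 4 * ‖m‖) : ‖(f d x)^[n] z‖ ≤ 2 * (3 ^ d + 4 ^ d) * ‖m‖ := by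
  have hmn : 0 < ‖m‖ := norm_pos_iff.2 hm
  obtain ⟨κ, hκ⟩ : ∃ κ, κ = (x - c) / l := ⟨_, rfl⟩
  obtain ⟨z₁, hz₁⟩ : ∃ z₁, z₁ = z / m := ⟨_, rfl⟩
  have hx' : c + l * κ = x := by rw [hκ]; field_simp; ring
  have hz' : m * z₁ = z := by rw [hz₁]; field_simp
  have hκn : ‖κ‖ ≤ 3 ^ d := by
    rw [hκ]
    exact hx.1
  have hzn : ‖z₁‖ ≤ 4 := by
    rw [hz₁, norm_div, div_le_iff₀ hmn]
    exact hz
  have hzd : ‖z₁‖ ^ d ≤ 4 ^ d := by gcongr
  have h3 : (0 : ℝ) < 3 ^ d := by positivity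
  have h4 : (0 : ℝ) < 4 ^ d := by positivity
  obtain ⟨g1, -, -⟩ := hZ κ z₁ (by linarith) (by linarith)
  have h2 : ‖ren d n c l m κ z₁‖ ≤ 2 * (3 ^ d + 4 ^ d) := by
    have e1 := norm_add_le (ren d n c l m κ z₁ - (z₁ ^ d + κ)) (z₁ ^ d + κ)
    rw [sub_add_cancel] at e1
    have e2 := norm_add_le (z₁ ^ d) κ
    rw [norm_pow] at e2
    linarith
  have h3 : (f d x)^[n] z = ren d n c l m κ z₁ * m := by
    unfold ren
    rw [hx', hz', div_mul_cancel₀ _ hm]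
  rw [h3, norm_mul]
  gcongr

/-- **Flatness.** -/
theorem Limit.notBig {d : ℕ} (hd : 2 ≤ d) {ψ : ℂ → ℂ} (hψ : IsExteriorMap (multibrotSet d) ψ)
    {a x : ℂ} {u : ℕ → ℕ × ℂ × ℂ × ℂ} (h : Limit d ψ a x u) :
    ∀ κ : ℝ, 0 < κ → ¬ Pool.Agent.Y736.RN.Big ψ κ x := by
  have hxM : x ∈ multibrotSet d := (Pool.Agent.H712R2.isCompact_multibrot hd).isClosed.frontier_subset
    (front_of_fine h.fineAt)
  apply Pool.Agent.Y736.RN.not_big_of_weak hd hψ hxM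
  intro ε hε
  have h34 : (0 : ℝ) < 3 ^ d + 4 ^ d := by positivity
  -- a large level
  obtain ⟨K₁, hK₁⟩ := exists_nat_gt ((3 : ℝ) ^ d + 4 ^ d)
  obtain ⟨K₂, hK₂⟩ := exists_nat_gt (Real.log (4 * (3 ^ d + 4 ^ d)) / ε)
  refine Set.infinite_of_injective_forall_mem (f := fun k => (u (K₁ + K₂ + k)).1)
    (fun i j hij => ?_) (fun k => ?_)
  · have := h.strictMono.injective hij
    omega
  · obtain ⟨N, hN⟩ : ∃ N, N = K₁ + K₂ + k := ⟨_, rfl⟩
    show (u (K₁ + K₂ + k)).1 ∈ _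
    rw [← hN]
    have hNR : (K₁ : ℝ) + K₂ ≤ N := by
      rw [hN]
      push_cast
      have : (0 : ℝ) ≤ k := k.cast_nonneg
      linarith
    have hNn : (N : ℝ) ≤ (u N).1 := by exact_mod_cast h.strictMono.id_le N
    have hP := h.perf N
    have hx := h.mem N
    generalize u N = s at hP hx hNn ⊢
    obtain ⟨n, c, l, m⟩ := s
    simp only at hP hx hNn ⊢
    have hl := hP.sc.1
    have hm := hP.sc.2.1
    have hmn : 0 < ‖m‖ := norm_pos_iff.2 hm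
    obtain ⟨S, hS, hZ⟩ := hP.zone
    have hK2 : (0 : ℝ) ≤ K₂ := K₂.cast_nonneg
    have hN1 : (1 : ℝ) / ((N : ℝ) + 1) ≤ 1 := by
      rw [div_le_one (by positivity)]
      have : (0 : ℝ) ≤ N := N.cast_nonneg
      linarith
    have hSN : 3 ^ d + 4 ^ d ≤ S := by
      refine le_trans ?_ hS
      rw [one_div_one_div]
      linarith
    have hbd : ∀ z : ℂ, z ∈ ball (0 : ℂ) (4 * ‖m‖) →
        ‖(f d x)^[n] z‖ ≤ 2 * (3 ^ d + 4 ^ d) * ‖m‖ := fun z hz =>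
      ren_bound hl hm (zone_mono hZ hN1) hSN hx (by
        rw [mem_ball_zero_iff] at hz
        exact hz.le)
    refine ⟨ball 0 (4 * ‖m‖), ‖m‖, hmn, fun j => ?_, fun z hz z' hz' => ?_⟩
    · intro y hy
      have h1 : ‖(f d x)^[n * j] 0‖ ≤ 3 * ‖m‖ := by
        have h2 := hx.2 j
        have hx' : c + l * ((x - c) / l) = x := by field_simp; ring
        rw [hx'] at h2
        exact h2
      have h2 : (f d x)^[n * j] 0 = Pool.Agent.H712R2.P d (j * n) x := by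
        rw [mul_comm n j]
        rfl
      rw [h2] at h1
      rw [mem_ball, dist_eq_norm] at hy
      rw [mem_ball_zero_iff]
      have h3 := norm_add_le (y - Pool.Agent.H712R2.P d (j * n) x) (Pool.Agent.H712R2.P d (j * n) x)
      rw [sub_add_cancel] at h3
      linarith
    · have h1 := hbd z hz
      have h2 := hbd z' hz'
      have h3 : ‖(f d x)^[n] z - (f d x)^[n] z'‖ ≤ 4 * (3 ^ d + 4 ^ d) * ‖m‖ :=
        (norm_sub_le _ _).trans (by linarith)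
      have h4 : 4 * (3 ^ d + 4 ^ d) ≤ Real.exp (ε * n) := by
        rw [← Real.log_le_iff_le_exp (by positivity)]
        rw [div_lt_iff₀ hε] at hK₂
        have h5 : (K₂ : ℝ) ≤ n := by linarith
        nlinarith
      refine le_trans h3 ?_
      gcongr

end Pool.Agent.H206
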