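import Pool.Agent.H206.HairF

set_option autoImplicit false

/-! # The iterates of a perfect copy, and the passage after them -/

namespace Pool.Agent.H206.Gre

open Filter Topology Set Metric
open N62a1eb23
open Pool.Agent.H712R2 (P fc P_zero P_succ mem_multibrot_iff P_one)
open Pool.Agent.H713R2 (IsBeta differentiable_P)
open Pool.Agent.TH279.MD Pool.Agent.Y298.SH.CD Pool.Agent.Y298.CA Pool.Agent.N772.ST
open Pool.Agent.N772.PC (Un re re_iter re_iter')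
open Pool.Agent.H206.Hair

/-- the iterates of the renormalised map -/
theorem it_eq {d n : ℕ} {c l m κ : ℂ} (hm : m ≠ 0) (j : ℕ) :
    (re d n c l m κ)^[j] 0 = P d (n * j) (c + l * κ) / m := by
  rw [re_iter' hm, mul_zero]
  rfl

theorem un_re {d n : ℕ} {c l m : ℂ} {τ : ℝ} (hU : Un d n c l m τ) {R : ℝ} (h1 : 1 ≤ R)
    (h2 : R ≤ Real.exp τ) {κ z : ℂ} (hκ : ‖κ‖ ≤ R) (hz : ‖z‖ ^ d ≤ R) :
    ‖re d n c l m κ z - (z ^ d + κ)‖ ≤ R ^ 2 * Real.exp (-τ) := (hU R h1 h2 κ z hκ hz).1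

/-- **Upper bound of the iterates.** -/
theorem it_up {d : ℕ} (hd : 2 ≤ d) {n : ℕ} {c l m : ℂ} {τ : ℝ} (hm : m ≠ 0) (hU : Un d n c l m τ)
    {T : ℝ} (hT : 1 ≤ T) {κ : ℂ} (hκ : ‖κ‖ ≤ T) (i : ℕ) (hi : (4 * T) ^ (d ^ i) ≤ Real.exp τ) :
    ‖P d (n * (i + 1)) (c + l * κ) / m‖ ≤ (4 * T) ^ (d ^ i) / 2 := by
  rw [← it_eq hm]
  have h4 : 1 ≤ 4 * T := by linarith
  induction i with
  | zero =>
    rw [pow_zero, pow_one] at hi ⊢
    rw [zero_add, Function.iterate_one]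
    have h1 := un_re hU hT (by linarith) (κ := κ) (z := 0) hκ (by
      rw [norm_zero, zero_pow (by omega)]
      linarith)
    rw [zero_pow (by omega), zero_add] at h1
    have h2 : T ^ 2 * Real.exp (-τ) ≤ T := by
      rw [Real.exp_neg, ← div_eq_mul_inv, div_le_iff₀ (Real.exp_pos _)]
      nlinarith
    have h3 := norm_add_le (re d n c l m κ 0 - κ) κ
    rw [sub_add_cancel] at h3
    linarith
  | succ i ih =>
    have hle : (4 * T) ^ (d ^ i) ≤ (4 * T) ^ (d ^ (i + 1)) :=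
      pow_le_pow_right₀ h4 (Nat.pow_le_pow_right (by omega) (by omega))
    have h1 := ih (hle.trans hi)
    obtain ⟨W, hW⟩ : ∃ W : ℝ, W = (4 * T) ^ (d ^ (i + 1)) := ⟨_, rfl⟩
    rw [← hW] at hi ⊢
    obtain ⟨z, hz⟩ : ∃ z : ℂ, z = (re d n c l m κ)^[i + 1] 0 := ⟨_, rfl⟩
    rw [← hz] at h1
    have hzd : ‖z‖ ^ d ≤ W / 4 := by
      calc ‖z‖ ^ d ≤ ((4 * T) ^ (d ^ i) / 2) ^ d := by gcongr
        _ = W / 2 ^ d := by
            rw [div_pow, ← pow_mul, hW, pow_succ]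
        _ ≤ W / 4 := by
            have h5 : (4 : ℝ) ≤ 2 ^ d := by
              calc (4 : ℝ) = 2 ^ 2 := by norm_num
                _ ≤ 2 ^ d := pow_le_pow_right₀ (by norm_num) hd
            have h6 : 0 ≤ W := by rw [hW]; positivity
            gcongr
    have hW4 : (4 * T) ^ 2 ≤ W := by
      rw [hW]
      apply pow_le_pow_right₀ h4
      calc 2 ≤ d := hd
        _ = d ^ 1 := (pow_one d).symm
        _ ≤ d ^ (i + 1) := Nat.pow_le_pow_right (by omega) (by omega)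
    have hTW : 4 * T ≤ W := by nlinarith
    have hR1 : 1 ≤ W / 4 := by linarith
    have h2 := un_re hU hR1 (by
      have := Real.exp_pos τ
      linarith) (κ := κ) (z := z) (by linarith) hzd
    have h3 : (W / 4) ^ 2 * Real.exp (-τ) ≤ W / 16 := by
      rw [Real.exp_neg, ← div_eq_mul_inv, div_le_iff₀ (Real.exp_pos _)]
      nlinarith
    rw [Function.iterate_succ_apply', ← hz]
    have h5 := norm_add_le (re d n c l m κ z - (z ^ d + κ)) (z ^ d + κ)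
    rw [sub_add_cancel] at h5
    have h6 := norm_add_le (z ^ d) κ
    rw [norm_pow] at h6
    have h7 : T ≤ W / 16 := by nlinarith
    linarith

/-- **Lower bound of the iterates.** -/
theorem it_low {d : ℕ} (hd : 2 ≤ d) {n : ℕ} {c l m : ℂ} {τ : ℝ} (hm : m ≠ 0) (hU : Un d n c l m τ)
    {T : ℝ} (hT : 16 ≤ T) {κ : ℂ} (hκ : ‖κ‖ = T) (i : ℕ) (hi : (4 * T) ^ (d ^ i) ≤ Real.exp τ) :
    2 * (T / 4) ^ (d ^ i) ≤ ‖P d (n * (i + 1)) (c + l * κ) / m‖ := by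
  have hup := fun i hi => it_up (d := d) (c := c) (l := l) hd hm hU (by linarith : 1 ≤ T) hκ.le i hi
  simp only [← it_eq hm] at hup ⊢
  have h4 : 1 ≤ 4 * T := by linarith
  induction i with
  | zero =>
    rw [pow_zero, pow_one] at hi ⊢
    rw [zero_add, Function.iterate_one]
    have h1 := un_re hU (R := T) (by linarith) (by linarith) (κ := κ) (z := 0) hκ.le (by
      rw [norm_zero, zero_pow (by omega)]
      linarith)
    rw [zero_pow (by omega), zero_add] at h1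
    have h2 : T ^ 2 * Real.exp (-τ) ≤ T / 4 := by
      rw [Real.exp_neg, ← div_eq_mul_inv, div_le_iff₀ (Real.exp_pos _)]
      nlinarith
    have h3 := norm_sub_norm_le κ (re d n c l m κ 0)
    rw [norm_sub_rev] at h3
    linarith
  | succ i ih =>
    have hle : (4 * T) ^ (d ^ i) ≤ (4 * T) ^ (d ^ (i + 1)) :=
      pow_le_pow_right₀ h4 (Nat.pow_le_pow_right (by omega) (by omega))
    have h1 := ih (hle.trans hi)
    have h1' := hup i (hle.trans hi)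
    obtain ⟨z, hz⟩ : ∃ z : ℂ, z = (re d n c l m κ)^[i + 1] 0 := ⟨_, rfl⟩
    rw [← hz] at h1 h1'
    obtain ⟨w, hw⟩ : ∃ w : ℝ, w = ‖z‖ ^ d := ⟨_, rfl⟩
    have hw1 : 4 * (T / 4) ^ (d ^ (i + 1)) ≤ w := by
      rw [hw]
      calc 4 * (T / 4) ^ (d ^ (i + 1)) ≤ 2 ^ d * (T / 4) ^ (d ^ (i + 1)) := by
            have h5 : (4 : ℝ) ≤ 2 ^ d := by
              calc (4 : ℝ) = 2 ^ 2 := by norm_num
                _ ≤ 2 ^ d := pow_le_pow_right₀ (by norm_num) hd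
            gcongr
        _ = (2 * (T / 4) ^ (d ^ i)) ^ d := by
            rw [mul_pow, ← pow_mul, pow_succ]
        _ ≤ _ := by gcongr
    have hw2 : w ≤ Real.exp τ / 4 := by
      have h5 : w ≤ (4 * T) ^ (d ^ (i + 1)) / 4 := by
        rw [hw]
        calc ‖z‖ ^ d ≤ ((4 * T) ^ (d ^ i) / 2) ^ d := by gcongr
          _ = (4 * T) ^ (d ^ (i + 1)) / 2 ^ d := by
              rw [div_pow, ← pow_mul, pow_succ]
          _ ≤ _ := by
              have h5 : (4 : ℝ) ≤ 2 ^ d := by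
                calc (4 : ℝ) = 2 ^ 2 := by norm_num
                  _ ≤ 2 ^ d := pow_le_pow_right₀ (by norm_num) hd
              gcongr
      linarith
    have hT4 : (T / 4) ^ 2 ≤ (T / 4) ^ (d ^ (i + 1)) := by
      apply pow_le_pow_right₀ (by linarith)
      calc 2 ≤ d := hd
        _ = d ^ 1 := (pow_one d).symm
        _ ≤ d ^ (i + 1) := Nat.pow_le_pow_right (by omega) (by omega)
    have hTw : 4 * T ≤ w := by nlinarith
    have hw0 : 0 < w := by linarith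
    have h2 := un_re hU (R := w) (by linarith) (by
      have := Real.exp_pos τ
      linarith) (κ := κ) (z := z) (by linarith) hw.symm.le
    have h3 : w ^ 2 * Real.exp (-τ) ≤ w / 4 := by
      rw [Real.exp_neg, ← div_eq_mul_inv, div_le_iff₀ (Real.exp_pos _)]
      nlinarith
    rw [Function.iterate_succ_apply', ← hz]
    have h5 := norm_sub_norm_le (z ^ d + κ) (re d n c l m κ z)
    rw [norm_sub_rev] at h5
    have h6 := norm_sub_norm_le (z ^ d) (-κ)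
    rw [norm_pow, norm_neg, sub_neg_eq_add, ← hw] at h6
    linarith

/-- the orbit is bounded during the passage -/
theorem after {d : ℕ} (hd : 2 ≤ d) {c₀ : ℂ} {C₂ : ℝ} (hC₂ : 1 ≤ C₂)
    (hP : ∀ j, 0 < Pd d c₀ j) (hz : ∀ j, zz d c₀ j ≠ 0) (hz2 : ∀ j, ‖zz d c₀ j‖ ≤ 2)
    (hW : ∀ N : ℕ, ∑ j ∈ Finset.range (N + 1), ‖Wp d c₀ N j‖ ≤ C₂ * Pd d c₀ N) {t : ℝ} (ht : 0 < t)
    {k : ℕ} (hk : 64 * d * C₂ * (t * ∑ i ∈ Finset.range (k + 1), Pd d c₀ i / ‖zz d c₀ i‖) ≤ 1)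
    {M : ℕ} {x : ℂ} (hx : ‖x - c₀‖ ≤ t) (hu : ‖P d M x‖ ^ d ≤ t) :
    ‖P d (M + k + 1) x‖ ≤ 3 := by
  have hdR : (2 : ℝ) ≤ d := by exact_mod_cast hd
  have hz0 : ∀ i, 0 < ‖zz d c₀ i‖ := fun i => norm_pos_iff.2 (hz i)
  have ha0 : ∀ i, 0 < Pd d c₀ i / ‖zz d c₀ i‖ := fun i => div_pos (hP i) (hz0 i)
  have h0 : 0 ≤ ∑ i ∈ Finset.range k, Pd d c₀ i / ‖zz d c₀ i‖ :=
    Finset.sum_nonneg fun i _ => (ha0 i).le
  rw [Finset.sum_range_succ] at hk
  have h1 : 64 * d * C₂ * (t * ∑ i ∈ Finset.range k, Pd d c₀ i / ‖zz d c₀ i‖) ≤ 1 := by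
    refine le_trans ?_ hk
    gcongr
    linarith [ha0 k]
  have h2 : 64 * d * C₂ * (t * (Pd d c₀ k / ‖zz d c₀ k‖)) ≤ 1 := by
    refine le_trans ?_ hk
    gcongr
    linarith
  obtain ⟨p1, -⟩ := passage hd hC₂ hP hz hW ht h1
  have h3 := p1 x (P d M x ^ d) hx (by rw [norm_pow]; exact hu)
  rw [← P_zo] at h3
  have h4 : Pd d c₀ k = (Pd d c₀ k / ‖zz d c₀ k‖) * ‖zz d c₀ k‖ := by
    have := (hz0 k).ne'
    field_simp
  have h5 : 4 * C₂ * t * Pd d c₀ k ≤ 1 := by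
    rw [h4]
    have h6 : 0 ≤ C₂ * (t * (Pd d c₀ k / ‖zz d c₀ k‖)) := by
      have := (ha0 k).le
      positivity
    have h7 : 64 * 2 * (C₂ * (t * (Pd d c₀ k / ‖zz d c₀ k‖))) ≤ 1 := by
      refine le_trans ?_ h2
      have : 64 * d * C₂ * (t * (Pd d c₀ k / ‖zz d c₀ k‖)) =
        64 * d * (C₂ * (t * (Pd d c₀ k / ‖zz d c₀ k‖))) := by ring
      rw [this]
      gcongr
    calc 4 * C₂ * t * (Pd d c₀ k / ‖zz d c₀ k‖ * ‖zz d c₀ k‖) =
          4 * (C₂ * (t * (Pd d c₀ k / ‖zz d c₀ k‖))) * ‖zz d c₀ k‖ := by ring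
      _ ≤ 4 * (C₂ * (t * (Pd d c₀ k / ‖zz d c₀ k‖))) * 2 := by
          gcongr
          exact hz2 k
      _ ≤ 1 := by linarith
  have h6 := norm_add_le (P d (M + 1 + k) x - zz d c₀ k) (zz d c₀ k)
  rw [sub_add_cancel] at h6
  rw [show M + k + 1 = M + 1 + k by ring]
  linarith [hz2 k]

end Pool.Agent.H206.Gre
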