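import Pool.Agent.H206.HairA

set_option autoImplicit false

/-! # Macroscopic times -/

namespace Pool.Agent.H206.Mac

open Filter Topology Finset
open Pool.Agent.H206.Hair (Gr)

theorem log_one_add_le {x : ℝ} (hx : 0 ≤ x) : Real.log (1 + x) ≤ x := by
  have := Real.log_le_sub_one_of_pos (show 0 < 1 + x by linarith)
  linarith

/-- the sum grows like its terms -/
theorem sum_le {χ : ℝ} {a : ℕ → ℝ} (h : Gr χ a) {ε : ℝ} (hε : 0 < ε) (hχε : 0 ≤ χ) :
    ∃ C : ℝ, 1 ≤ C ∧ ∀ k : ℕ, ∑ i ∈ range k, a i ≤ C * Real.exp ((χ + ε) * k) := by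
  obtain ⟨C, hC, H⟩ := h.2 (ε / 2) (half_pos hε)
  have hC0 : 0 < C := by linarith
  refine ⟨max 1 (C * (2 / ε)), le_max_left _ _, fun k => ?_⟩
  have hlin : (k : ℝ) ≤ 2 / ε * Real.exp (ε / 2 * k) := by
    have h1 := Real.add_one_le_exp (ε / 2 * k)
    rw [div_mul_eq_mul_div, le_div_iff₀ hε]
    linarith
  calc ∑ i ∈ range k, a i ≤ ∑ i ∈ range k, C * Real.exp ((χ + ε / 2) * k) := by
        refine Finset.sum_le_sum fun i hi => ?_
        rw [Finset.mem_range] at hi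
        refine (H i).2.trans ?_
        have : (i : ℝ) ≤ k := by exact_mod_cast hi.le
        gcongr
    _ = k * (C * Real.exp ((χ + ε / 2) * k)) := by
        rw [Finset.sum_const, Finset.card_range, nsmul_eq_mul]
    _ ≤ (2 / ε * Real.exp (ε / 2 * k)) * (C * Real.exp ((χ + ε / 2) * k)) := by
        gcongr
    _ = C * (2 / ε) * (Real.exp (ε / 2 * k) * Real.exp ((χ + ε / 2) * k)) := by ring
    _ = C * (2 / ε) * Real.exp ((χ + ε) * k) := by
        rw [← Real.exp_add]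
        congr 2
        ring
    _ ≤ _ := by
        gcongr
        exact le_max_right _ _


/-- existence of the end of the bound period -/
theorem ex_end {a S : ℕ → ℝ} {χ' C₃ b z : ℝ} (hχ : 0 < χ') (hC₃ : 0 < C₃) (hz : 0 < z)
    (HA : ∀ m : ℕ, Real.exp (χ' * m) ≤ C₃ * a m) (hSa : ∀ m, a m ≤ S (m + 1)) :
    ∃ m : ℕ, b < z * S (m + 1) := by
  obtain ⟨m, hm⟩ := (tendsto_natCast_atTop_atTop (R := ℝ)).eventually_ge_atTop
    (b / z * C₃ / χ' + 1) |>.exists
  refine ⟨m, ?_⟩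
  have h3 : χ' * m + 1 ≤ Real.exp (χ' * m) := Real.add_one_le_exp _
  have h5 : b / z * C₃ < χ' * m := by
    have h6 : b / z * C₃ / χ' < m := by linarith
    rw [div_lt_iff₀ hχ] at h6
    linarith
  have h7 : C₃ * (b / z) < C₃ * S (m + 1) := by
    have h8 := HA m
    have h9 := mul_le_mul_of_nonneg_left (hSa m) hC₃.le
    linarith
  have h8 := lt_of_mul_lt_mul_left h7 hC₃.le
  rw [div_lt_iff₀ hz] at h8
  linarith

/-- the length of the bound period -/
theorem long_bound {χ d h h₀ b₀ C₁ m : ℝ} (hd : 2 ≤ d) (hb₀ : 0 < b₀) (hC₁ : 0 < C₁)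
    (hh0 : 0 < h) (hh₀ : h₀ = 1 + 3 * (4 * d + Real.log C₁ - Real.log b₀)) (hh : h₀ < h)
    (hlb : Real.log b₀ ≤ 0) (hlC : 0 ≤ Real.log C₁)
    (g2 : b₀ < Real.exp (-(d * h)) * (C₁ * Real.exp ((χ + χ / 8) * m))) :
    h + 4 * d ≤ 3 / 4 * χ * m := by
  have g3 := Real.log_lt_log hb₀ g2
  rw [Real.log_mul (Real.exp_pos _).ne' (by positivity), Real.log_exp,
    Real.log_mul hC₁.ne' (Real.exp_pos _).ne', Real.log_exp] at g3
  have g4 : 2 * h ≤ d * h := by gcongr
  have g5 : 2 * h - Real.log C₁ + Real.log b₀ < 9 / 8 * χ * m := by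
    have : (χ + χ / 8) * m = 9 / 8 * χ * m := by ring
    linarith
  have g6 : 3 / 4 * χ * m = 2 / 3 * (9 / 8 * χ * m) := by ring
  rw [g6]
  linarith

/-- the sum over a window without macroscopic times -/
theorem win_main {χ : ℝ} (hχ : 0 < χ) {d : ℕ} (hd : 2 ≤ d) {p ζ a S : ℕ → ℝ} (hζ : ∀ k, 0 < ζ k)
    (ha : ∀ k, 0 < a k) (hap : ∀ k, a k * ζ k = p k) (hS0 : S 0 = 0)
    (hS1 : ∀ k, S (k + 1) = S k + a k) (hSm : Monotone S)
    {b₀ : ℝ} (hb₀ : 0 < b₀) (hb₁ : b₀ ≤ 1)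
    (hbd : ∀ k m : ℕ, ζ k ^ d * S m ≤ b₀ → ∀ i < m, a (k + 1 + i) ≤ 4 * d * ζ k ^ d * a k * a i)
    (hend : ∀ z : ℝ, 0 < z → ∃ m : ℕ, b₀ < z * S (m + 1))
    {C₁ : ℝ} (hC₁ : 1 ≤ C₁) (HS : ∀ k : ℕ, S k ≤ C₁ * Real.exp ((χ + χ / 8) * k)) {h₀ q : ℝ}
    (hh₀ : h₀ = 1 + 3 * (4 * d + Real.log C₁ - Real.log b₀)) (hqh : h₀ ≤ q)
    (hqχ : Real.exp (-q) ≤ χ / 8) {k₁ k₂ : ℕ} (hk₁ : 0 < k₁)
    (hbig : ∀ k, k₁ ≤ k → k < k₂ → Real.exp (2 * q) * p k < S k) {E : ℝ}
    (hE : ∀ k ≤ k₂, -Real.log (ζ k) + 4 * d ≤ E) (hE0 : 0 ≤ E) :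
    ∀ n k : ℕ, k + n = k₂ → k₁ ≤ k → Real.log (S k₂) - Real.log (S k) ≤ 3 / 4 * χ * n + E := by
  have hdR : (2 : ℝ) ≤ d := by exact_mod_cast hd
  have hC₁0 : 0 < C₁ := by linarith
  have hlb : Real.log b₀ ≤ 0 := Real.log_nonpos hb₀.le hb₁
  have hlC₁ : 0 ≤ Real.log C₁ := Real.log_nonneg hC₁
  have hh1 : 1 ≤ h₀ := by rw [hh₀]; linarith
  have hSa : ∀ i k, i < k → a i ≤ S k := by
    intro i k hik
    have h1 := hSm (show i + 1 ≤ k by omega)
    have h2 : 0 ≤ S i := by rw [← hS0]; exact hSm (Nat.zero_le i)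
    rw [hS1] at h1
    linarith
  have hSpos : ∀ k, 0 < k → 0 < S k := fun k hk => (ha 0).trans_le (hSa 0 k hk)
  have hstep : ∀ k, 0 < k → Real.log (S (k + 1)) - Real.log (S k) = Real.log (1 + a k / S k) := by
    intro k hk0
    have h1 := hSpos k hk0
    rw [← Real.log_div (hSpos (k + 1) (by omega)).ne' h1.ne', hS1, add_div, div_self h1.ne']
  intro n
  induction n using Nat.strong_induction_on with
  | _ n ih =>
    intro k hkn hkk₁
    rcases Nat.eq_zero_or_pos n with hn0 | hn0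
    · have hkk2 : k = k₂ := by omega
      rw [hkk2, sub_self, hn0, Nat.cast_zero, mul_zero, zero_add]
      exact hE0
    have hk0 : 0 < k := by omega
    have hSk0 := hSpos k hk0
    have hbigk := hbig k hkk₁ (by omega)
    have hterm : a k / S k ≤ Real.exp (-(2 * q)) / ζ k := by
      rw [div_le_div_iff₀ hSk0 (hζ k), hap]
      calc p k = Real.exp (-(2 * q)) * (Real.exp (2 * q) * p k) := by
            rw [← mul_assoc, ← Real.exp_add]
            simp
        _ ≤ Real.exp (-(2 * q)) * S k := by gcongr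
    have hak := div_pos (ha k) hSk0
    have hstepk := hstep k hk0
    rcases le_or_gt (Real.exp (-q)) (ζ k) with hz | hz
    · -- not deep
      have h1 := ih (n - 1) (by omega) (k + 1) (by omega) (by omega)
      have h2 : Real.log (1 + a k / S k) ≤ χ / 8 := by
        refine (log_one_add_le hak.le).trans (hterm.trans ?_)
        refine le_trans ?_ hqχ
        rw [div_le_iff₀ (hζ k)]
        calc Real.exp (-(2 * q)) = Real.exp (-q) * Real.exp (-q) := by
              rw [← Real.exp_add]; congr 1; ring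
          _ ≤ _ := by gcongr
      have h4 : ((n - 1 : ℕ) : ℝ) = n - 1 := by
        rw [Nat.cast_sub (by omega)]
        simp
      rw [h4] at h1
      have h5 : 3 / 4 * χ * ((n : ℝ) - 1) = 3 / 4 * χ * n - 3 / 4 * χ := by ring
      linarith
    · -- deep
      obtain ⟨h, hh⟩ : ∃ h : ℝ, h = -Real.log (ζ k) := ⟨_, rfl⟩
      have hζh : ζ k = Real.exp (-h) := by rw [hh, neg_neg, Real.exp_log (hζ k)]
      have hqh' : q < h := by
        rw [hζh, Real.exp_lt_exp] at hz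
        linarith
      have hhh : h₀ < h := lt_of_le_of_lt hqh hqh'
      have h1 : Real.log (1 + a k / S k) ≤ h := by
        rw [Real.log_le_iff_le_exp (by linarith)]
        have h2 : a k / S k ≤ Real.exp (-1) * Real.exp h := by
          refine hterm.trans ?_
          rw [hζh, div_le_iff₀ (Real.exp_pos _), ← Real.exp_add, ← Real.exp_add]
          apply Real.exp_le_exp.2
          linarith
        have h3 : Real.exp (-1) ≤ 1 / 2 := by
          rw [Real.exp_neg, one_div]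
          apply inv_anti₀ (by norm_num)
          have := Real.add_one_le_exp 1
          linarith
        have h4 : 2 ≤ Real.exp h := by
          have := Real.add_one_le_exp h
          linarith
        have h5 : Real.exp (-1) * Real.exp h ≤ 1 / 2 * Real.exp h := by gcongr
        linarith
      -- the bound period
      have hz0 : 0 < ζ k ^ d := pow_pos (hζ k) d
      have hex := hend _ hz0
      classical
      obtain ⟨m, hm⟩ : ∃ m, m = Nat.find hex := ⟨_, rfl⟩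
      have hm1 : b₀ < ζ k ^ d * S (m + 1) := by rw [hm]; exact Nat.find_spec hex
      have hm2 : ζ k ^ d * S m ≤ b₀ := by
        rcases Nat.eq_zero_or_pos m with h0 | h0
        · rw [h0, hS0, mul_zero]
          exact hb₀.le
        · have := Nat.find_min hex (m := m - 1) (by omega)
          rw [Nat.sub_add_cancel h0] at this
          exact not_lt.1 this
      -- the bound for the nested part
      have hnest : ∀ i, i ≤ m → k + 1 + i ≤ k₂ →
          Real.log (S (k + 1 + i)) - Real.log (S (k + 1)) ≤ 4 * d * (ζ k ^ d * S i) := by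
        intro i
        induction i with
        | zero =>
          intro _ _
          rw [hS0, mul_zero, mul_zero, add_zero, sub_self]
        | succ i ihi =>
          intro hi1 hi2
          have g1 := ihi (by omega) (by omega)
          have g2 := hstep (k + 1 + i) (by omega)
          have g3 : a (k + 1 + i) / S (k + 1 + i) ≤ 4 * d * (ζ k ^ d * a i) := by
            have g4 := hSa k (k + 1 + i) (by omega)
            rw [div_le_iff₀ (hSpos _ (by omega))]
            calc a (k + 1 + i) ≤ 4 * d * ζ k ^ d * a k * a i := hbd k m hm2 i (by omega)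
              _ = 4 * d * (ζ k ^ d * a i) * a k := by ring
              _ ≤ 4 * d * (ζ k ^ d * a i) * S (k + 1 + i) := by
                  have := (ha i).le
                  gcongr
          have g4 := log_one_add_le (div_pos (ha (k + 1 + i)) (hSpos (k + 1 + i) (by omega))).le
          have g5 : 4 * d * (ζ k ^ d * (S i + a i)) =
              4 * d * (ζ k ^ d * S i) + 4 * d * (ζ k ^ d * a i) := by ring
          rw [show k + 1 + (i + 1) = k + 1 + i + 1 by ring, hS1 i, g5]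
          linarith
      have hlong : h + 4 * d ≤ 3 / 4 * χ * (m + 1) := by
        apply long_bound hdR hb₀ hC₁0 (by linarith) hh₀ hhh hlb hlC₁
        have g3 : ζ k ^ d = Real.exp (-(d * h)) := by
          rw [hζh, ← Real.exp_nat_mul]
          congr 1
          ring
        rw [← g3]
        have g1 := HS (m + 1)
        push_cast at g1
        exact hm1.trans_le (mul_le_mul_of_nonneg_left g1 hz0.le)
      rcases le_or_gt (k + 1 + m) k₂ with hcase | hcase
      · -- the bound period ends in the window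
        have g1 := ih (k₂ - (k + 1 + m)) (by omega) (k + 1 + m) (by omega) (by omega)
        have g2 := hnest m le_rfl hcase
        have g3 : 4 * d * (ζ k ^ d * S m) ≤ 4 * d * 1 := by
          have : ζ k ^ d * S m ≤ 1 := hm2.trans hb₁
          gcongr
        have g4 : ((k₂ - (k + 1 + m) : ℕ) : ℝ) = n - (m + 1) := by
          rw [Nat.cast_sub hcase, ← hkn]
          push_cast
          ring
        rw [g4] at g1
        have g5 : 3 / 4 * χ * ((n : ℝ) - (m + 1)) = 3 / 4 * χ * n - 3 / 4 * χ * (m + 1) := by ring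
        linarith
      · have g2 := hnest (k₂ - (k + 1)) (by omega) (by omega)
        rw [show k + 1 + (k₂ - (k + 1)) = k₂ by omega] at g2
        have g3 : 4 * d * (ζ k ^ d * S (k₂ - (k + 1))) ≤ 4 * d * 1 := by
          have : ζ k ^ d * S (k₂ - (k + 1)) ≤ 1 := by
            refine le_trans ?_ (hm2.trans hb₁)
            exact mul_le_mul_of_nonneg_left (hSm (by omega)) hz0.le
          gcongr
        have g4 := hE k (by omega)
        rw [← hh] at g4
        have g7 : 0 ≤ 3 / 4 * χ * (n : ℝ) := by positivity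
        linarith

/-- **Macroscopic times.** -/
theorem macroTimes {χ : ℝ} (hχ : 0 < χ) {d : ℕ} (hd : 2 ≤ d) {p ζ : ℕ → ℝ} (hζ : ∀ k, 0 < ζ k)
    (hP : Gr χ p) (hA : Gr χ (fun k => p k / ζ k)) {b₀ : ℝ} (hb₀ : 0 < b₀) (hb₁ : b₀ ≤ 1)
    (hbd : ∀ k m : ℕ, ζ k ^ d * ∑ i ∈ range m, p i / ζ i ≤ b₀ → ∀ i < m,
      p (k + 1 + i) / ζ (k + 1 + i) ≤ 4 * d * ζ k ^ d * (p k / ζ k) * (p i / ζ i)) :
    ∃ C : ℝ, 1 ≤ C ∧ ∀ η : ℝ, 0 < η → ∃ K : ℕ, ∀ k₁ k₂ : ℕ, K ≤ k₁ → (1 + η) * k₁ ≤ k₂ →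
      ∃ j, k₁ ≤ j ∧ j < k₂ ∧ ∑ i ∈ range j, p i / ζ i ≤ C * p j := by
  have hdR : (2 : ℝ) ≤ d := by exact_mod_cast hd
  have hp := hP.1
  have ha := hA.1
  obtain ⟨a, hadef⟩ : ∃ a : ℕ → ℝ, a = fun k => p k / ζ k := ⟨_, rfl⟩
  have hak : ∀ k, a k = p k / ζ k := fun k => by rw [hadef]
  have hap : ∀ k, a k * ζ k = p k := fun k => by rw [hak, div_mul_cancel₀ _ (hζ k).ne']
  simp only [← hak] at hbd ⊢
  rw [← hadef] at hA ha
  obtain ⟨S, hSdef⟩ : ∃ S : ℕ → ℝ, S = fun k => ∑ i ∈ range k, a i := ⟨_, rfl⟩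
  have hSk : ∀ k, S k = ∑ i ∈ range k, a i := fun k => by rw [hSdef]
  simp only [← hSk] at hbd ⊢
  have hS1 : ∀ k, S (k + 1) = S k + a k := by
    intro k
    rw [hSk, hSk, Finset.sum_range_succ]
  have hS0 : S 0 = 0 := by rw [hSk]; simp
  have hSm : Monotone S := by
    apply monotone_nat_of_le_succ
    intro k
    rw [hS1]
    linarith [ha k]
  have hSa : ∀ i k, i < k → a i ≤ S k := by
    intro i k hik
    rw [hSk]
    exact Finset.single_le_sum (f := a) (fun j _ => (ha j).le) (Finset.mem_range.2 hik)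
  have hSpos : ∀ k, 0 < k → 0 < S k := fun k hk => (ha 0).trans_le (hSa 0 k hk)
  -- the constant
  obtain ⟨C₁, hC₁, HS⟩ := sum_le hA (ε := χ / 8) (by positivity) hχ.le
  simp only [← hSk] at HS
  have hC₁0 : 0 < C₁ := by linarith
  obtain ⟨h₀, hh₀⟩ : ∃ h₀ : ℝ, h₀ = 1 + 3 * (4 * d + Real.log C₁ - Real.log b₀) := ⟨_, rfl⟩
  have hlb : Real.log b₀ ≤ 0 := Real.log_nonpos hb₀.le hb₁
  have hlC₁ : 0 ≤ Real.log C₁ := Real.log_nonneg hC₁
  have hh1 : 1 ≤ h₀ := by rw [hh₀]; linarith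
  obtain ⟨q, hq⟩ : ∃ q : ℝ, q = max h₀ (Real.log (8 / χ)) := ⟨_, rfl⟩
  have hqh : h₀ ≤ q := by rw [hq]; exact le_max_left _ _
  have hqχ : Real.exp (-q) ≤ χ / 8 := by
    have h1 : Real.log (8 / χ) ≤ q := by rw [hq]; exact le_max_right _ _
    have h2 : 8 / χ ≤ Real.exp q := (Real.log_le_iff_le_exp (by positivity)).1 h1
    rw [Real.exp_neg, inv_le_comm₀ (Real.exp_pos _) (by positivity), inv_div]
    exact h2
  refine ⟨Real.exp (2 * q), Real.one_le_exp (by linarith), fun η hη => ?_⟩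
  -- the small exponent
  obtain ⟨ε, hε⟩ : ∃ ε : ℝ, ε = χ * η / (64 * (1 + η)) := ⟨_, rfl⟩
  have hε0 : 0 < ε := by rw [hε]; positivity
  have hεη : 64 * (1 + η) * ε = χ * η := by rw [hε]; field_simp
  obtain ⟨C₂, hC₂, HP⟩ := hP.2 ε hε0
  obtain ⟨C₃, hC₃, HA⟩ := hA.2 ε hε0
  obtain ⟨C₄, hC₄, HS'⟩ := sum_le hA (ε := ε) hε0 hχ.le
  simp only [← hSk] at HS'
  have hC₂0 : 0 < C₂ := by linarith
  have hC₃0 : 0 < C₃ := by linarith
  have hC₄0 : 0 < C₄ := by linarith
  have hχε : 0 < χ - ε := by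
    have : ε ≤ χ / 64 := by
      rw [hε, div_le_div_iff₀ (by positivity) (by norm_num)]
      nlinarith
    linarith
  -- slow recurrence
  have hslow : ∀ k : ℕ, -Real.log (ζ k) ≤ 2 * ε * k + Real.log (C₂ * C₃) := by
    intro k
    have h1 := (HP k).1
    have h2 := (HA k).2
    have h4 : 1 ≤ C₂ * C₃ * Real.exp (2 * ε * k) * ζ k := by
      have h5 : a k ≤ C₂ * C₃ * Real.exp (2 * ε * k) * ζ k * a k := by
        calc a k ≤ C₃ * Real.exp ((χ + ε) * k) := h2
          _ = C₃ * Real.exp (2 * ε * k) * Real.exp ((χ - ε) * k) := by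
              rw [mul_assoc, ← Real.exp_add]
              congr 2
              ring
          _ ≤ C₃ * Real.exp (2 * ε * k) * (C₂ * p k) := by gcongr
          _ = C₂ * C₃ * Real.exp (2 * ε * k) * (a k * ζ k) := by rw [hap]; ring
          _ = _ := by ring
      exact (le_mul_iff_one_le_left (ha k)).1 h5
    have h5 := Real.log_le_log one_pos h4
    rw [Real.log_one, Real.log_mul (by positivity) (hζ k).ne',
      Real.log_mul (by positivity) (Real.exp_pos _).ne', Real.log_exp] at h5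
    linarith
  obtain ⟨Q, hQ⟩ : ∃ Q : ℝ, Q = Real.log (C₂ * C₃) + 4 * d + Real.log C₃ + Real.log C₄ + χ :=
    ⟨_, rfl⟩
  obtain ⟨K, hK⟩ := exists_nat_ge ((Q + 5 * ε) / (χ * η / 16))
  refine ⟨max K 1, fun k₁ k₂' hk hkk => ?_⟩
  have hk1 : 1 ≤ k₁ := (le_max_right _ _).trans hk
  have hkK : (K : ℝ) ≤ k₁ := by exact_mod_cast (le_max_left _ _).trans hk
  by_contra hcon
  push Not at hcon
  obtain ⟨k₂, hkdef⟩ : ∃ k : ℕ, k = ⌈(1 + η) * k₁⌉₊ := ⟨_, rfl⟩
  have hk2 : k₂ ≤ k₂' := by rw [hkdef]; exact Nat.ceil_le.2 hkk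
  have hk3 : (1 + η) * k₁ ≤ k₂ := by rw [hkdef]; exact Nat.le_ceil _
  have hk4 : (k₂ : ℝ) < (1 + η) * k₁ + 1 := by
    rw [hkdef]; exact Nat.ceil_lt_add_one (by positivity)
  have hk1R : (1 : ℝ) ≤ k₁ := by exact_mod_cast hk1
  have hk5 : k₁ < k₂ := by
    have h1 : 0 < η * k₁ := by positivity
    have : (k₁ : ℝ) < k₂ := by linarith
    exact_mod_cast this
  have hlogC : 0 ≤ Real.log (C₂ * C₃) := Real.log_nonneg (by nlinarith)
  obtain ⟨E, hE⟩ : ∃ E : ℝ, E = 2 * ε * k₂ + Real.log (C₂ * C₃) + 4 * d := ⟨_, rfl⟩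
  have hVk1 := win_main hχ hd hζ ha hap hS0 hS1 hSm hb₀ hb₁ hbd
    (fun z hz => ex_end hχε hC₃0 hz (fun m => (HA m).1) (fun m => hSa m (m + 1) (by omega)))
    hC₁ HS hh₀ hqh hqχ (k₁ := k₁) (k₂ := k₂) (by omega)
    (fun k h1 h2 => hcon k h1 (by omega)) (E := E) (fun k hk => by
      have h1 := hslow k
      have h2 : (k : ℝ) ≤ k₂ := by exact_mod_cast hk
      have h3 : 2 * ε * k ≤ 2 * ε * k₂ := by gcongr
      rw [hE]
      linarith) (by rw [hE]; positivity) (k₂ - k₁) k₁ (by omega) le_rfl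
  -- the lower bound
  have e1 : (χ - ε) * (k₂ - 1) - Real.log C₃ ≤ Real.log (S k₂) := by
    have g1 := (HA (k₂ - 1)).1
    have g2 : a (k₂ - 1) ≤ S k₂ := hSa _ _ (by omega)
    have g3 : Real.exp ((χ - ε) * ((k₂ - 1 : ℕ) : ℝ)) ≤ C₃ * S k₂ := g1.trans (by gcongr)
    have g5 := hSpos k₂ (by omega)
    have g4 := (Real.le_log_iff_exp_le (by positivity)).2 g3
    rw [Real.log_mul hC₃0.ne' g5.ne', Nat.cast_sub (by omega)] at g4
    push_cast at g4
    linarith
  have e2 : Real.log (S k₁) ≤ Real.log C₄ + (χ + ε) * k₁ := by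
    have g1 := Real.log_le_log (hSpos k₁ (by omega)) (HS' k₁)
    rwa [Real.log_mul hC₄0.ne' (Real.exp_pos _).ne', Real.log_exp] at g1
  rw [Nat.cast_sub hk5.le] at hVk1
  -- contradiction
  have h7 : (Q + 5 * ε) ≤ χ * η / 16 * k₁ := by
    have h8 := hK.trans hkK
    rw [div_le_iff₀ (by positivity)] at h8
    linarith
  have hlogC₃ : 0 ≤ Real.log C₃ := Real.log_nonneg hC₃
  have hlogC₄ : 0 ≤ Real.log C₄ := Real.log_nonneg hC₄
  have m1 : χ * η * k₁ = 64 * (1 + η) * ε * k₁ := by rw [hεη]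
  have m2 : χ / 4 * (k₂ - k₁) ≤ 3 * ε * k₂ + ε * k₁ + Q := by
    rw [hE] at hVk1
    rw [hQ]
    have n1 : (χ - ε) * ((k₂ : ℝ) - 1) = χ * k₂ - ε * k₂ - χ + ε := by ring
    have n2 : (χ + ε) * (k₁ : ℝ) = χ * k₁ + ε * k₁ := by ring
    have n3 : 3 / 4 * χ * ((k₂ : ℝ) - k₁) = 3 / 4 * (χ * k₂) - 3 / 4 * (χ * k₁) := by ring
    have n4 : χ / 4 * ((k₂ : ℝ) - k₁) = 1 / 4 * (χ * k₂) - 1 / 4 * (χ * k₁) := by ring
    rw [n1] at e1
    rw [n2] at e2
    rw [n3] at hVk1
    rw [n4]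
    linarith
  have m3 : χ / 4 * (η * k₁) ≤ χ / 4 * (k₂ - k₁) := by
    gcongr
    linarith
  have m4 : 3 * ε * k₂ ≤ 3 * ε * ((1 + η) * k₁ + 1) := by gcongr
  have m5 : 3 * ε * ((1 + η) * k₁ + 1) = 3 / 64 * (64 * (1 + η) * ε * k₁) + 3 * ε := by ring
  have m6 : 64 * ε * (k₁ : ℝ) ≤ 64 * (1 + η) * ε * k₁ := by
    have : 0 ≤ η * (ε * k₁) := by positivity
    have e : 64 * (1 + η) * ε * (k₁ : ℝ) = 64 * ε * k₁ + 64 * (η * (ε * k₁)) := by ring
    rw [e]
    linarith
  have m7 : χ / 4 * (η * (k₁ : ℝ)) = 1 / 4 * (χ * η * k₁) := by ring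
  have m8 : χ * η / 16 * (k₁ : ℝ) = 1 / 16 * (χ * η * k₁) := by ring
  rw [m8] at h7
  rw [m7] at m3
  rw [m5] at m4
  rw [← m1] at m4 m6
  have m9 : 0 < χ * η * (k₁ : ℝ) := by positivity
  linarith

end Pool.Agent.H206.Mac
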