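import Pool.Agent.H206.GreA
import Pool.Agent.H206.MacA

set_option autoImplicit false

/-! # Upper bounds: the critical orbits stay bounded for a long time -/

namespace Pool.Agent.H206.Gre

open Filter Topology Set Metric
open N62a1eb23
open Pool.Agent.H712R2 (P fc P_zero P_succ mem_multibrot_iff P_one)
open Pool.Agent.H713R2 (IsBeta differentiable_P)
open Pool.Agent.TH279.MD Pool.Agent.Y298.SH.CD Pool.Agent.Y298.CA Pool.Agent.N772.ST
open Pool.Agent.N772.PC (Un re re_iter re_iter')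
open Pool.Agent.N253.MS (ev_lin)
open Pool.Agent.H206.Hair Pool.Agent.H206.Mac

/-- the exponent of the radius -/
noncomputable def lam (d : ℕ) (χ : ℝ) (j : ℕ) (s : ℝ) : ℝ :=
  χ / (d - 1) * (d - (d - s * (d - 1)) / d ^ j)

/-- the choice of the time -/
theorem choose_k {χ : ℝ} (hχ : 0 < χ) {a : ℕ → ℝ} (h : Gr χ a) {K ε : ℝ} (hK : 0 < K) (hε : 0 < ε) :
    ∀ᶠ n : ℕ in atTop, ∀ ω : ℝ, χ * ε / 2 ≤ ω → ω ≤ 2 * χ → ∃ k : ℕ, (ω / χ - ε) * n ≤ k ∧
      (k : ℝ) ≤ ω / χ * n ∧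
      K * (Real.exp (-(ω * n)) * ∑ i ∈ Finset.range (k + 1), a i) ≤ 1 := by
  obtain ⟨C, hC, H⟩ := sum_le h (ε := χ * ε / 8) (by positivity) hχ.le
  have hC0 : 0 < C := by linarith
  filter_upwards [ev_lin (show 0 < χ * ε / 4 by positivity)
    (Real.log (K * C) + (χ + χ * ε / 8)), ev_lin (show 0 < ε / 2 by positivity) 1,
    eventually_ge_atTop 1] with n hn hn2 hn1 ω hω1 hω2
  have hnR : (1 : ℝ) ≤ n := by exact_mod_cast hn1
  have h0 : 0 ≤ (ω / χ - ε / 2) * n := by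
    apply mul_nonneg _ (by linarith)
    rw [sub_nonneg, le_div_iff₀ hχ]
    linarith
  refine ⟨⌊(ω / χ - ε / 2) * n⌋₊, ?_, ?_, ?_⟩
  · have h1 := Nat.lt_floor_add_one ((ω / χ - ε / 2) * n)
    have h2 : (ω / χ - ε) * n = (ω / χ - ε / 2) * n - ε / 2 * n := by ring
    linarith
  · refine (Nat.floor_le h0).trans ?_
    gcongr
    linarith
  · obtain ⟨k, hk⟩ : ∃ k, k = ⌊(ω / χ - ε / 2) * n⌋₊ := ⟨_, rfl⟩
    rw [← hk]
    have h1 : (k : ℝ) ≤ (ω / χ - ε / 2) * n := by rw [hk]; exact Nat.floor_le h0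
    have h2 := H (k + 1)
    have h3 : (χ + χ * ε / 8) * ((k + 1 : ℕ) : ℝ) ≤ ω * n - χ * ε / 4 * n + (χ + χ * ε / 8) := by
      push_cast
      have h4 : (χ + χ * ε / 8) * (k : ℝ) ≤ (χ + χ * ε / 8) * ((ω / χ - ε / 2) * n) := by gcongr
      have h5 : (χ + χ * ε / 8) * ((ω / χ - ε / 2) * n) =
          ω * n - χ * ε / 2 * n + ε / 8 * ω * n - χ * ε ^ 2 / 16 * n := by
        field_simp
        ring
      have h6 : ε / 8 * ω * n ≤ ε / 8 * (2 * χ) * n := by gcongr
      have h7 : 0 ≤ χ * ε ^ 2 / 16 * n := by positivity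
      have h8 : (χ + χ * ε / 8) * ((k : ℝ) + 1) = (χ + χ * ε / 8) * k + (χ + χ * ε / 8) := by ring
      rw [h8]
      linarith
    have h4 : K * C = Real.exp (Real.log (K * C)) := (Real.exp_log (by positivity)).symm
    calc K * (Real.exp (-(ω * n)) * ∑ i ∈ Finset.range (k + 1), a i)
        ≤ K * (Real.exp (-(ω * n)) * (C * Real.exp ((χ + χ * ε / 8) * ((k + 1 : ℕ) : ℝ)))) := by
          gcongr
      _ = K * C * (Real.exp (-(ω * n)) * Real.exp ((χ + χ * ε / 8) * ((k + 1 : ℕ) : ℝ))) := by ring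
      _ = Real.exp (Real.log (K * C) + (-(ω * n) + (χ + χ * ε / 8) * ((k + 1 : ℕ) : ℝ))) := by
          rw [Real.exp_add, Real.exp_add, ← h4]
      _ ≤ 1 := Real.exp_le_one_iff.2 (by linarith)

/-- **The upper bound, main case.** -/
theorem upper_core {d : ℕ} (hd : 2 ≤ d) {χ : ℝ} {c₀ : ℂ} (h : Lyap d χ c₀) (j : ℕ) {s ε : ℝ}
    (hε : 0 < ε) (hs0 : ε ≤ s) (hs1 : s ≤ 1) : ∃ δ : ℝ, 0 < δ ∧ ∀ᶠ n : ℕ in atTop,
      ∀ c l m : ℂ, l ≠ 0 → m ≠ 0 → ‖c - c₀‖ ≤ Real.exp (-((χ - δ) * n)) →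
        Real.exp (-((χ * d / (d - 1) + δ / 4) * n)) ≤ ‖l‖ →
        ‖m‖ ≤ Real.exp (-((χ / (d - 1) - δ / 4) * n)) →
        Un d n c l m ((χ / (d - 1) - δ / 4) * n) →
        ∃ M : ℕ, (j + s - ε) * n ≤ M ∧
          ∀ x : ℂ, ‖x - c‖ ≤ Real.exp (-(lam d χ j s * n)) → ‖P d (M + 1) x‖ ≤ 3 := by
  have hχ : 0 < χ := h.1
  have hdR : (2 : ℝ) ≤ d := by exact_mod_cast hd
  have hd1 : (0 : ℝ) < (d : ℝ) - 1 := by linarith
  obtain ⟨hP, hz, hz2, hGr, hslow, C₂, hC₂, hW⟩ := lyap_data hd h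
  obtain ⟨Y, hY⟩ : ∃ Y : ℝ, Y = χ / (d - 1) := ⟨_, rfl⟩
  have hY0 : 0 < Y := by rw [hY]; positivity
  have hYχ : Y * (d - 1) = χ := by rw [hY]; field_simp
  have hYd : χ * d / (d - 1) = Y * d := by rw [hY]; field_simp
  obtain ⟨D, hD⟩ : ∃ D : ℝ, D = (d : ℝ) ^ j := ⟨_, rfl⟩
  have hD1 : 1 ≤ D := by rw [hD]; exact one_le_pow₀ (by linarith)
  have hD0 : 0 < D := by linarith
  obtain ⟨ε₂, hε₂⟩ : ∃ ε₂ : ℝ, ε₂ = χ * ε / 4 := ⟨_, rfl⟩
  have hε₂0 : 0 < ε₂ := by rw [hε₂]; positivity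
  obtain ⟨δ, hδ⟩ : ∃ δ : ℝ, δ = min (ε₂ / (4 * d * (1 + D))) (Y * ε / (8 * (1 + D))) := ⟨_, rfl⟩
  have hδ0 : 0 < δ := by rw [hδ]; positivity
  have hδ1 : δ * (4 * d * (1 + D)) ≤ ε₂ := by
    have : δ ≤ ε₂ / (4 * d * (1 + D)) := by rw [hδ]; exact min_le_left _ _
    rwa [le_div_iff₀ (by positivity)] at this
  have hδ2 : δ * (8 * (1 + D)) ≤ Y * ε := by
    have : δ ≤ Y * ε / (8 * (1 + D)) := by rw [hδ]; exact min_le_right _ _
    rwa [le_div_iff₀ (by positivity)] at this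
  refine ⟨δ, hδ0, ?_⟩
  filter_upwards [eventually_ge_atTop 1, choose_k hχ hGr (K := 64 * d * C₂) (by positivity)
    (half_pos hε), ev_lin (show 0 < ε₂ / 2 by positivity) (Real.log 2),
    ev_lin (show 0 < ε₂ / 2 by positivity) (D * Real.log 4 * d),
    ev_lin (show 0 < Y * ε / 8 by positivity) (D * Real.log 4)]
    with n hn1 Hk hn2 hn3 hn4 c l m hl hm hc hl1 hm1 hU
  have hnR : (1 : ℝ) ≤ n := by exact_mod_cast hn1
  have hn0 : (0 : ℝ) < n := by linarith
  rw [hYd] at hl1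
  rw [← hY] at hm1 hU
  have hlog4 : 0 < Real.log 4 := Real.log_pos (by norm_num)
  have hlog2 : 0 < Real.log 2 := Real.log_pos (by norm_num)
  -- the time
  have hω1 : χ * (ε / 2) / 2 ≤ s * χ - ε₂ := by
    rw [hε₂]
    have : ε * χ ≤ s * χ := by gcongr
    linarith
  have hω2 : s * χ - ε₂ ≤ 2 * χ := by
    have : s * χ ≤ 1 * χ := by gcongr
    linarith
  obtain ⟨k, hk1, -, hk2⟩ := Hk (s * χ - ε₂) hω1 hω2
  have hkn : (s - ε) * n ≤ k := by
    refine le_trans ?_ hk1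
    have e : (s * χ - ε₂) / χ - ε / 2 = s - ε * (3 / 4) := by
      rw [hε₂]
      field_simp
      ring
    rw [e]
    gcongr
    linarith
  -- the distance to `c₀`
  have hlam : s * χ ≤ Y * (d - (d - s * (d - 1)) / D) := by
    have h1 : (d - s * (d - 1)) / D ≤ d - s * (d - 1) := by
      apply div_le_self _ hD1
      have : s * (d - 1) ≤ 1 * (d - 1) := by gcongr
      linarith
    calc s * χ = Y * (d - (d - s * (d - 1))) := by rw [← hYχ]; ring
      _ ≤ _ := by gcongr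
  have hlam' : lam d χ j s = Y * (d - (d - s * (d - 1)) / D) := by
    unfold lam
    rw [← hY, ← hD]
  have hdist : ∀ x : ℂ, ‖x - c‖ ≤ Real.exp (-(lam d χ j s * n)) →
      ‖x - c₀‖ ≤ Real.exp (-((s * χ - ε₂) * n)) := by
    intro x hx
    have h1 : ‖x - c₀‖ ≤ ‖x - c‖ + ‖c - c₀‖ := by
      have := norm_add_le (x - c) (c - c₀)
      rwa [sub_add_sub_cancel] at this
    have h2 : ‖x - c‖ ≤ Real.exp (-((s * χ - ε₂ / 2) * n)) := by
      refine hx.trans (Real.exp_le_exp.2 ?_)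
      rw [hlam']
      have : s * χ * n ≤ Y * (d - (d - s * (d - 1)) / D) * n := by gcongr
      have h3 : 0 ≤ ε₂ / 2 * n := by positivity
      linarith
    have h3 : ‖c - c₀‖ ≤ Real.exp (-((s * χ - ε₂ / 2) * n)) := by
      refine hc.trans (Real.exp_le_exp.2 ?_)
      have h4 : δ ≤ ε₂ / 2 := by
        have : δ * (4 * 1 * (1 + 1)) ≤ δ * (4 * d * (1 + D)) := by
          gcongr
          linarith
        linarith
      have h5 : (s * χ - ε₂ / 2) * n ≤ (χ - δ) * n := by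
        have : s * χ ≤ 1 * χ := by gcongr
        gcongr
        linarith
      linarith
    have h4 : 2 * Real.exp (-((s * χ - ε₂ / 2) * n)) ≤ Real.exp (-((s * χ - ε₂) * n)) := by
      calc 2 * Real.exp (-((s * χ - ε₂ / 2) * n)) =
            Real.exp (Real.log 2 + -((s * χ - ε₂ / 2) * n)) := by
            rw [Real.exp_add, Real.exp_log (by norm_num)]
        _ ≤ _ := Real.exp_le_exp.2 (by linarith)
    linarith
  rcases Nat.eq_zero_or_pos j with hj | hj
  · subst hj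
    refine ⟨k, by push_cast; linarith, fun x hx => ?_⟩
    have := after hd hC₂ hP hz hz2 hW (Real.exp_pos _) hk2 (M := 0) (hdist x hx) (by
      rw [P_zero, norm_zero, zero_pow (by omega)]
      exact (Real.exp_pos _).le)
    rwa [zero_add] at this
  · obtain ⟨i, rfl⟩ : ∃ i, j = i + 1 := ⟨j - 1, by omega⟩
    obtain ⟨E, hE⟩ : ∃ E : ℝ, E = (d : ℝ) ^ i := ⟨_, rfl⟩
    have hE1 : 1 ≤ E := by rw [hE]; exact one_le_pow₀ (by linarith)
    have hDE : D = d * E := by rw [hD, hE, pow_succ]; ring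
    have hED : E ≤ D := by rw [hDE]; nlinarith
    refine ⟨n * (i + 1) + k, ?_, fun x hx => ?_⟩
    · push_cast
      nlinarith
    apply after hd hC₂ hP hz hz2 hW (Real.exp_pos _) hk2 (hdist x hx)
    -- the value at the time `n (i + 1)`
    have hln : 0 < ‖l‖ := norm_pos_iff.2 hl
    have hmn : 0 < ‖m‖ := norm_pos_iff.2 hm
    obtain ⟨κ, hκ⟩ : ∃ κ : ℂ, κ = (x - c) / l := ⟨_, rfl⟩
    have hxκ : x = c + l * κ := by
      rw [hκ]
      field_simp
      ring
    obtain ⟨v, hv⟩ : ∃ v : ℝ, v = Y * (1 - s * (d - 1) / d) / E + δ / 4 := ⟨_, rfl⟩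
    have hs2 : s * (d - 1) / d ≤ 1 := by
      rw [div_le_one (by positivity)]
      have : s * (d - 1) ≤ 1 * (d - 1) := by gcongr
      linarith
    have hv0 : 0 ≤ v := by
      rw [hv]
      have : 0 ≤ 1 - s * (d - 1) / d := by linarith
      positivity
    have hvE : E * v = Y * (1 - s * (d - 1) / d) + E * (δ / 4) := by
      rw [hv]
      have : E ≠ 0 := by linarith
      field_simp
    have hκT : ‖κ‖ ≤ Real.exp (v * n) := by
      rw [hκ, norm_div, div_le_iff₀ hln]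
      refine hx.trans ?_
      calc Real.exp (-(lam d χ (i + 1) s * n)) ≤
            Real.exp (v * n) * Real.exp (-((Y * d + δ / 4) * n)) := by
            rw [← Real.exp_add]
            apply Real.exp_le_exp.2
            rw [hlam', hv, hDE]
            have hE0 : E ≠ 0 := by linarith
            have hd0 : (d : ℝ) ≠ 0 := by linarith
            apply le_of_eq
            field_simp
            ring
        _ ≤ _ := by gcongr
    have hT1 : 1 ≤ Real.exp (v * n) := Real.one_le_exp (by positivity)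
    have h4T : (4 * Real.exp (v * n)) ^ (d ^ i) =
        Real.exp (E * Real.log 4 + (Y * (1 - s * (d - 1) / d) + E * (δ / 4)) * n) := by
      have : (4 : ℝ) * Real.exp (v * n) = Real.exp (Real.log 4 + v * n) := by
        rw [Real.exp_add, Real.exp_log (by norm_num)]
      rw [this, ← Real.exp_nat_mul, ← hvE, hE]
      congr 1
      push_cast
      ring
    have hδE : δ / 4 * (1 + E) ≤ Y * ε / 16 := by
      have : δ / 4 * (1 + E) ≤ δ / 4 * (1 + D) := by gcongr
      have h2 : δ / 4 * (1 + D) = δ * (8 * (1 + D)) / 32 := by ring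
      have h3 : 0 < Y * ε := by positivity
      linarith
    have hs3 : ε / 2 ≤ s * (d - 1) / d := by
      rw [le_div_iff₀ (by positivity)]
      have : ε * (d - 1) ≤ s * (d - 1) := by gcongr
      nlinarith
    have hcond : (4 * Real.exp (v * n)) ^ (d ^ i) ≤ Real.exp ((Y - δ / 4) * n) := by
      rw [h4T]
      apply Real.exp_le_exp.2
      have h1 : E * Real.log 4 ≤ D * Real.log 4 := by gcongr
      have h2 : Y * (ε / 2) ≤ Y * (s * (d - 1) / d) := by gcongr
      have h3 : (Y * (1 - s * (d - 1) / d) + E * (δ / 4)) * n + Y * ε / 8 * n ≤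
          (Y - δ / 4) * n := by
        rw [← add_mul]
        gcongr
        have h5 : 0 < Y * ε := by positivity
        linarith
      linarith
    have hup := it_up (c := c) (l := l) hd hm hU hT1 hκT i hcond
    rw [← hxκ, norm_div, div_le_iff₀ hmn, h4T] at hup
    have hPx : ‖P d (n * (i + 1)) x‖ ≤ Real.exp (E * Real.log 4 +
        (Y * (1 - s * (d - 1) / d) + E * (δ / 4)) * n - (Y - δ / 4) * n) := by
      refine hup.trans ?_
      have e0 : Real.exp (E * Real.log 4 + (Y * (1 - s * (d - 1) / d) + E * (δ / 4)) * n -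
          (Y - δ / 4) * n) = Real.exp (E * Real.log 4 +
          (Y * (1 - s * (d - 1) / d) + E * (δ / 4)) * n) * Real.exp (-((Y - δ / 4) * n)) := by
        rw [← Real.exp_add, ← sub_eq_add_neg]
      rw [e0]
      calc Real.exp (E * Real.log 4 + (Y * (1 - s * (d - 1) / d) + E * (δ / 4)) * n) / 2 * ‖m‖ ≤
            Real.exp (E * Real.log 4 + (Y * (1 - s * (d - 1) / d) + E * (δ / 4)) * n) / 1 *
              Real.exp (-((Y - δ / 4) * n)) := by
            gcongr
            norm_num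
        _ = _ := by rw [div_one]
    calc ‖P d (n * (i + 1)) x‖ ^ d ≤ Real.exp (E * Real.log 4 +
        (Y * (1 - s * (d - 1) / d) + E * (δ / 4)) * n - (Y - δ / 4) * n) ^ d := by gcongr
      _ = Real.exp (d * (E * Real.log 4 +
        (Y * (1 - s * (d - 1) / d) + E * (δ / 4)) * n - (Y - δ / 4) * n)) := by
          rw [← Real.exp_nat_mul]
      _ ≤ Real.exp (-((s * χ - ε₂) * n)) := by
          apply Real.exp_le_exp.2
          have e1 : d * (E * Real.log 4 +
            (Y * (1 - s * (d - 1) / d) + E * (δ / 4)) * n - (Y - δ / 4) * n) =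
            d * E * Real.log 4 - s * (Y * (d - 1)) * n + d * (1 + E) * (δ / 4) * n := by
            field_simp
            ring
          rw [e1, hYχ]
          have h1 : d * E * Real.log 4 ≤ D * Real.log 4 * d := by
            rw [hDE]
            have : 0 ≤ d * E * Real.log 4 := by positivity
            nlinarith
          have h2 : d * (1 + E) * (δ / 4) ≤ ε₂ / 2 := by
            calc d * (1 + E) * (δ / 4) ≤ d * (1 + D) * (δ / 4) := by gcongr
              _ = δ * (4 * d * (1 + D)) / 16 := by ring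
              _ ≤ ε₂ / 2 := by linarith
          have h3 : d * (1 + E) * (δ / 4) * n ≤ ε₂ / 2 * n := by gcongr
          linarith

theorem lam_step {d : ℕ} (hd : 2 ≤ d) (χ : ℝ) (j : ℕ) : lam d χ (j + 1) 0 = lam d χ j 1 := by
  have hdR : (2 : ℝ) ≤ d := by exact_mod_cast hd
  have h0 : (d : ℝ) ≠ 0 := by linarith
  unfold lam
  congr 1
  rw [pow_succ, zero_mul, sub_zero, one_mul, sub_sub_cancel]
  field_simp

theorem lam_mono {d : ℕ} (hd : 2 ≤ d) {χ : ℝ} (hχ : 0 < χ) (j : ℕ) {s s' : ℝ} (h : s ≤ s') :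
    lam d χ j s ≤ lam d χ j s' := by
  have hdR : (2 : ℝ) ≤ d := by exact_mod_cast hd
  have hd1 : (0 : ℝ) < (d : ℝ) - 1 := by linarith
  unfold lam
  gcongr

/-- **The upper bound.** -/
theorem upper_law {d : ℕ} (hd : 2 ≤ d) {χ : ℝ} {c₀ : ℂ} (h : Lyap d χ c₀) (j : ℕ) {s ε : ℝ}
    (hε : 0 < ε) (hs0 : 0 ≤ s) (hs1 : s ≤ 1) : ∃ δ : ℝ, 0 < δ ∧ ∀ᶠ n : ℕ in atTop,
      ∀ c l m : ℂ, l ≠ 0 → m ≠ 0 → ‖c - c₀‖ ≤ Real.exp (-((χ - δ) * n)) →
        Real.exp (-((χ * d / (d - 1) + δ / 4) * n)) ≤ ‖l‖ →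
        ‖m‖ ≤ Real.exp (-((χ / (d - 1) - δ / 4) * n)) →
        Un d n c l m ((χ / (d - 1) - δ / 4) * n) →
        ∃ M : ℕ, (j + s - ε) * n ≤ M ∧
          ∀ x : ℂ, ‖x - c‖ ≤ Real.exp (-(lam d χ j s * n)) → ‖x‖ ≤ 3 → ‖P d (M + 1) x‖ ≤ 3 := by
  rcases le_or_gt (min 1 (ε / 2)) s with h1 | h1
  · obtain ⟨δ, hδ, H⟩ := upper_core hd h j (ε := min 1 (ε / 2)) (by positivity) h1 hs1
    refine ⟨δ, hδ, ?_⟩
    filter_upwards [H] with n hn c l m hl hm hc hl1 hm1 hU
    obtain ⟨M, hM, hx⟩ := hn c l m hl hm hc hl1 hm1 hU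
    refine ⟨M, le_trans ?_ hM, fun x h2 _ => hx x h2⟩
    have := min_le_right 1 (ε / 2)
    gcongr
    linarith
  · have h2 := h1.trans_le (min_le_right _ _)
    rcases Nat.eq_zero_or_pos j with hj | hj
    · subst hj
      refine ⟨1, one_pos, Eventually.of_forall fun n c l m _ _ _ _ _ _ => ⟨0, ?_, fun x _ hx => ?_⟩⟩
      · push_cast
        apply mul_nonpos_of_nonpos_of_nonneg
        · linarith
        · positivity
      · rw [zero_add, P_one hd]
        exact hx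
    · obtain ⟨i, rfl⟩ : ∃ i, j = i + 1 := ⟨j - 1, by omega⟩
      obtain ⟨δ, hδ, H⟩ := upper_core hd h i (ε := min 1 (ε / 2)) (s := 1) (by positivity)
        (min_le_left _ _) le_rfl
      refine ⟨δ, hδ, ?_⟩
      filter_upwards [H] with n hn c l m hl hm hc hl1 hm1 hU
      obtain ⟨M, hM, hx⟩ := hn c l m hl hm hc hl1 hm1 hU
      refine ⟨M, le_trans ?_ hM, fun x h3 _ => hx x (h3.trans ?_)⟩
      · have := min_le_right 1 (ε / 2)
        push_cast
        apply mul_le_mul_of_nonneg_right _ (Nat.cast_nonneg n)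
        linarith
      · apply Real.exp_le_exp.2
        rw [← lam_step hd]
        have := lam_mono hd h.1 (i + 1) hs0
        have h4 : lam d χ (i + 1) 0 * n ≤ lam d χ (i + 1) s * n := by gcongr
        linarith

/-- **The upper bound at the scale of the copy.** -/
theorem upper_copy {d : ℕ} (hd : 2 ≤ d) {χ : ℝ} (hχ : 0 < χ) {R ε : ℝ} (hR : 1 ≤ R) (hε : 0 < ε) :
    ∀ᶠ n : ℕ in atTop, ∀ (c l m : ℂ) (δ : ℝ), l ≠ 0 → m ≠ 0 → 0 < δ → δ ≤ χ / (d - 1) →
        ‖m‖ ≤ Real.exp (-((χ / (d - 1) - δ / 4) * n)) →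
        Un d n c l m ((χ / (d - 1) - δ / 4) * n) →
        ∃ M : ℕ, (1 - ε) * (n * Real.log n) / Real.log d ≤ M ∧
          ∀ x : ℂ, ‖x - c‖ ≤ R * ‖l‖ → ‖P d (M + 1) x‖ ≤ 3 := by
  have hdR : (2 : ℝ) ≤ d := by exact_mod_cast hd
  have hd1 : (0 : ℝ) < (d : ℝ) - 1 := by linarith
  obtain ⟨Y, hY⟩ : ∃ Y : ℝ, Y = χ / (d - 1) := ⟨_, rfl⟩
  have hY0 : 0 < Y := by rw [hY]; positivity
  have hlogd : 0 < Real.log d := Real.log_pos (by linarith)
  have hlogR : 0 < Real.log (4 * R) := Real.log_pos (by linarith)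
  obtain ⟨g, hg⟩ : ∃ g : ℝ, g = (Y / 2) / Real.log (4 * R) := ⟨_, rfl⟩
  have hg0 : 0 < g := by rw [hg]; positivity
  have hgR : g * Real.log (4 * R) = Y / 2 := by rw [hg]; field_simp
  have hlin : ∀ᶠ n : ℕ in atTop, -Real.log g + Real.log d ≤ ε * Real.log n := by
    have h1 : Tendsto (fun n : ℕ => ε * Real.log n) atTop atTop :=
      (Real.tendsto_log_atTop.comp tendsto_natCast_atTop_atTop).const_mul_atTop hε
    exact h1.eventually_ge_atTop _
  filter_upwards [eventually_ge_atTop 1, ev_lin hg0 1, hlin] with n hn1 hn2 hn3 c l m δ hl hm hδ0 hδ1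
    hm1 hU
  have hnR : (1 : ℝ) ≤ n := by exact_mod_cast hn1
  have hn0 : (0 : ℝ) < n := by linarith
  rw [← hY] at hm1 hU hδ1
  obtain ⟨J, hJ1, hJ2⟩ := exists_nat_pow_near (x := g * n) (y := (d : ℝ)) hn2.le (by linarith)
  have hln : 0 < ‖l‖ := norm_pos_iff.2 hl
  have hmn : 0 < ‖m‖ := norm_pos_iff.2 hm
  have hpos : 0 < n * (J + 1) := by positivity
  refine ⟨n * (J + 1) - 1, ?_, fun x hx => ?_⟩
  · rw [Nat.cast_sub (by omega)]
    push_cast
    rw [div_le_iff₀ hlogd]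
    have h1 := Real.log_lt_log (by positivity) hJ2
    rw [Real.log_mul hg0.ne' hn0.ne', Real.log_pow] at h1
    push_cast at h1
    have h2 : (1 - ε) * (n * Real.log n) ≤ n * (Real.log g + Real.log n - Real.log d) := by
      have h3 : (1 - ε) * (n * Real.log n) = n * (Real.log n - ε * Real.log n) := by ring
      rw [h3]
      apply mul_le_mul_of_nonneg_left _ hn0.le
      linarith
    have h3 : n * (Real.log g + Real.log n - Real.log d) ≤ n * ((J : ℝ) * Real.log d) := by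
      apply mul_le_mul_of_nonneg_left _ hn0.le
      linarith
    have h4 : ((n : ℝ) * (J + 1) - 1) * Real.log d = n * (J * Real.log d) +
        (n - 1) * Real.log d := by ring
    have h5 : 0 ≤ ((n : ℝ) - 1) * Real.log d := by
      apply mul_nonneg _ hlogd.le
      linarith
    linarith
  · obtain ⟨κ, hκ⟩ : ∃ κ : ℂ, κ = (x - c) / l := ⟨_, rfl⟩
    have hxκ : x = c + l * κ := by
      rw [hκ]
      field_simp
      ring
    have hκR : ‖κ‖ ≤ R := by
      rw [hκ, norm_div, div_le_iff₀ hln]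
      exact hx
    have hcond : (4 * R) ^ (d ^ J) ≤ Real.exp ((Y - δ / 4) * n) := by
      rw [← Real.log_le_iff_le_exp (by positivity), Real.log_pow]
      push_cast
      calc (d : ℝ) ^ J * Real.log (4 * R) ≤ g * n * Real.log (4 * R) := by gcongr
        _ = (g * Real.log (4 * R)) * n := by ring
        _ ≤ (Y - δ / 4) * n := by
            rw [hgR]
            gcongr
            linarith
    have hup := it_up (c := c) (l := l) hd hm hU hR hκR J hcond
    rw [← hxκ, norm_div, div_le_iff₀ hmn] at hup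
    rw [Nat.sub_add_cancel hpos]
    refine hup.trans ?_
    calc (4 * R) ^ (d ^ J) / 2 * ‖m‖ ≤ Real.exp ((Y - δ / 4) * n) / 2 *
          Real.exp (-((Y - δ / 4) * n)) := by gcongr
      _ = 1 / 2 * (Real.exp ((Y - δ / 4) * n) * Real.exp (-((Y - δ / 4) * n))) := by ring
      _ = 1 / 2 := by rw [← Real.exp_add]; simp
      _ ≤ 3 := by norm_num

end Pool.Agent.H206.Gre
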