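import Mathlib

set_option autoImplicit false

/-! # Good times of sequences which grow exponentially -/

namespace Pool.Agent.H206.Hair

open Filter Topology Finset

/-- the sequence grows like `exp (χ n)`, up to subexponential factors -/
def Gr (χ : ℝ) (a : ℕ → ℝ) : Prop :=
  (∀ n, 0 < a n) ∧ ∀ ε : ℝ, 0 < ε → ∃ C : ℝ, 1 ≤ C ∧ ∀ n : ℕ,
    Real.exp ((χ - ε) * n) ≤ C * a n ∧ a n ≤ C * Real.exp ((χ + ε) * n)

theorem Gr.log {χ : ℝ} {a : ℕ → ℝ} (h : Gr χ a) {ε : ℝ} (hε : 0 < ε) :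
    ∃ C : ℝ, 0 ≤ C ∧ ∀ n : ℕ, |Real.log (a n) - χ * n| ≤ ε * n + C := by
  obtain ⟨C, hC, H⟩ := h.2 ε hε
  have hC0 : 0 < C := by linarith
  refine ⟨Real.log C, Real.log_nonneg hC, fun n => ?_⟩
  obtain ⟨h1, h2⟩ := H n
  have ha := h.1 n
  have h3 := (Real.le_log_iff_exp_le (mul_pos hC0 ha)).2 h1
  rw [Real.log_mul hC0.ne' ha.ne'] at h3
  have h4 := Real.log_le_log ha h2
  rw [Real.log_mul hC0.ne' (Real.exp_pos _).ne', Real.log_exp] at h4
  rw [abs_le]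
  constructor <;> nlinarith

/-- **Good times.** -/
theorem good {χ : ℝ} (hχ : 0 < χ) {a : ℕ → ℝ} (h : Gr χ a) {η : ℝ} (hη : 0 < η) :
    ∃ K : ℕ, ∀ k₁ k₂ : ℕ, K ≤ k₁ → (1 + η) * k₁ ≤ k₂ →
      ∃ j, k₁ ≤ j ∧ j < k₂ ∧ ∑ i ∈ range j, a i ≤ (2 / χ) * a j := by
  obtain ⟨ε, hε⟩ : ∃ ε : ℝ, ε = min (χ / 2) (χ * η / (4 * (5 + η))) := ⟨_, rfl⟩
  have hε0 : 0 < ε := by rw [hε]; positivity
  have hε1 : ε ≤ χ / 2 := by rw [hε]; exact min_le_left _ _
  have hε2 : 4 * (5 + η) * ε ≤ χ * η := by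
    have h1 : ε ≤ χ * η / (4 * (5 + η)) := by rw [hε]; exact min_le_right _ _
    rw [le_div_iff₀ (by positivity)] at h1
    linarith
  obtain ⟨C, hC, H⟩ := h.2 ε hε0
  have hC0 : 0 < C := by linarith
  -- `k ≤ C₃ * exp (ε k)`
  have hlin : ∀ k : ℕ, (k : ℝ) ≤ 1 / ε * Real.exp (ε * k) := by
    intro k
    have h1 := Real.add_one_le_exp (ε * k)
    rw [div_mul_eq_mul_div, le_div_iff₀ hε0]
    linarith
  obtain ⟨Q, hQ⟩ : ∃ Q : ℝ, Q = Real.log C + Real.log (C * (1 / ε)) + 2 * χ + 2 := ⟨_, rfl⟩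
  obtain ⟨K, hK⟩ := exists_nat_ge ((Q + 5 * ε) / (χ * η / 4))
  refine ⟨max K 1, fun k₁ k₂ hk hkk => ?_⟩
  have hk1 : 1 ≤ k₁ := (le_max_right _ _).trans hk
  have hkK : (K : ℝ) ≤ k₁ := by exact_mod_cast (le_max_left _ _).trans hk
  by_contra hcon
  push Not at hcon
  -- the window
  obtain ⟨k, hkdef⟩ : ∃ k : ℕ, k = ⌈(1 + η) * k₁⌉₊ := ⟨_, rfl⟩
  have hk2 : k ≤ k₂ := by rw [hkdef]; exact Nat.ceil_le.2 hkk
  have hk3 : (1 + η) * k₁ ≤ k := by rw [hkdef]; exact Nat.le_ceil _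
  have hk4 : (k : ℝ) < (1 + η) * k₁ + 1 := by
    rw [hkdef]; exact Nat.ceil_lt_add_one (by positivity)
  have hk1R : (1 : ℝ) ≤ k₁ := by exact_mod_cast hk1
  have hk5 : k₁ < k := by
    have : (k₁ : ℝ) < k := by nlinarith
    exact_mod_cast this
  have hA : ∀ i : ℕ, k₁ + i ≤ k → ∑ i ∈ range (k₁ + i), a i ≤
      Real.exp (χ / 2 * i) * ∑ i ∈ range k₁, a i := by
    intro i
    induction i with
    | zero => intro _; simp
    | succ i ih =>
      intro hi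
      have h1 := ih (by omega)
      have h2 := hcon (k₁ + i) (by omega) (by omega)
      have h3 : a (k₁ + i) ≤ χ / 2 * ∑ i ∈ range (k₁ + i), a i := by
        have h4 : 2 / χ * a (k₁ + i) * (χ / 2) ≤ (∑ i ∈ range (k₁ + i), a i) * (χ / 2) :=
          mul_le_mul_of_nonneg_right h2.le (by positivity)
        have h5 : 2 / χ * a (k₁ + i) * (χ / 2) = a (k₁ + i) := by field_simp
        linarith
      have h6 : 0 ≤ ∑ i ∈ range (k₁ + i), a i := Finset.sum_nonneg fun j _ => (h.1 j).le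
      have h7 := Real.add_one_le_exp (χ / 2)
      rw [← add_assoc, Finset.sum_range_succ]
      calc ∑ i ∈ range (k₁ + i), a i + a (k₁ + i)
          ≤ (1 + χ / 2) * ∑ i ∈ range (k₁ + i), a i := by linarith
        _ ≤ Real.exp (χ / 2) * ∑ i ∈ range (k₁ + i), a i := by
            apply mul_le_mul_of_nonneg_right _ h6
            linarith
        _ ≤ Real.exp (χ / 2) * (Real.exp (χ / 2 * i) * ∑ i ∈ range k₁, a i) := by gcongr
        _ = _ := by
            rw [← mul_assoc, ← Real.exp_add]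
            congr 2
            push_cast
            ring
  have h1 := hA (k - k₁) (by omega)
  rw [show k₁ + (k - k₁) = k by omega] at h1
  have hcast : ((k - k₁ : ℕ) : ℝ) = k - k₁ := by
    rw [Nat.cast_sub hk5.le]
  rw [hcast] at h1
  -- lower bound
  have h2 : a (k - 1) ≤ ∑ i ∈ range k, a i :=
    Finset.single_le_sum (f := a) (fun j _ => (h.1 j).le) (Finset.mem_range.2 (by omega))
  have h3 := (H (k - 1)).1
  have hcast1 : ((k - 1 : ℕ) : ℝ) = k - 1 := by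
    rw [Nat.cast_sub (by omega)]
    simp
  rw [hcast1] at h3
  -- upper bound
  have h4 : ∑ i ∈ range k₁, a i ≤ C * (1 / ε) * Real.exp ((χ + 2 * ε) * k₁) := by
    calc ∑ i ∈ range k₁, a i ≤ ∑ i ∈ range k₁, C * Real.exp ((χ + ε) * k₁) := by
          refine Finset.sum_le_sum fun i hi => ?_
          rw [Finset.mem_range] at hi
          refine (H i).2.trans ?_
          have : (i : ℝ) ≤ k₁ := by exact_mod_cast hi.le
          gcongr
      _ = k₁ * (C * Real.exp ((χ + ε) * k₁)) := by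
          rw [Finset.sum_const, Finset.card_range, nsmul_eq_mul]
      _ ≤ (1 / ε * Real.exp (ε * k₁)) * (C * Real.exp ((χ + ε) * k₁)) := by
          gcongr
          exact hlin k₁
      _ = C * (1 / ε) * (Real.exp (ε * k₁) * Real.exp ((χ + ε) * k₁)) := by ring
      _ = _ := by
          rw [← Real.exp_add]
          congr 2
          ring
  have h5 : Real.exp ((χ - ε) * (k - 1)) ≤ C * (Real.exp (χ / 2 * (k - k₁)) *
      (C * (1 / ε) * Real.exp ((χ + 2 * ε) * k₁))) := by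
    calc Real.exp ((χ - ε) * (k - 1)) ≤ C * a (k - 1) := h3
      _ ≤ C * ∑ i ∈ range k, a i := by gcongr
      _ ≤ C * (Real.exp (χ / 2 * (k - k₁)) * ∑ i ∈ range k₁, a i) := by gcongr
      _ ≤ _ := by gcongr
  have hCε : 0 < C * (1 / ε) := by positivity
  have h6 := (Real.le_log_iff_exp_le (by positivity)).2 h5
  rw [Real.log_mul hC0.ne' (by positivity), Real.log_mul (Real.exp_pos _).ne' (by positivity),
    Real.log_mul hCε.ne' (Real.exp_pos _).ne', Real.log_exp, Real.log_exp] at h6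
  -- contradiction
  have h7 : (Q + 5 * ε) ≤ χ * η / 4 * k₁ := by
    have h8 := hK.trans hkK
    rw [div_le_iff₀ (by positivity)] at h8
    linarith
  have hk0 : (0 : ℝ) ≤ k₁ := by positivity
  nlinarith [mul_nonneg hε0.le hk0, mul_nonneg hη.le hk0, mul_nonneg (mul_nonneg hε0.le hη.le) hk0]

/-- **Good times in a window.** -/
theorem window {χ : ℝ} (hχ : 0 < χ) {a : ℕ → ℝ} (h : Gr χ a) {σ B : ℝ} (hσ : 0 < σ)
    (hB : σ ≤ B) : ∀ᶠ n : ℕ in atTop, ∀ A₁ A₂ : ℝ, σ * n ≤ A₁ → A₁ + σ * n ≤ A₂ → A₂ ≤ B * n →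
      ∃ j : ℕ, (j : ℝ) ≤ B / χ * n ∧ A₁ ≤ Real.log (a j) ∧ Real.log (a j) ≤ A₂ ∧
        ∑ i ∈ range j, a i ≤ (2 / χ) * a j := by
  have hB0 : 0 < B := by linarith
  obtain ⟨K, hK⟩ := good hχ h (η := σ / (8 * B)) (by positivity)
  obtain ⟨C, hC, H⟩ := h.log (ε := σ * χ / (8 * B)) (by positivity)
  obtain ⟨N, hN⟩ := exists_nat_ge (max (8 * C / σ) (max ((K * χ) / σ) ((16 * χ + 1) / σ)))
  filter_upwards [eventually_ge_atTop (max N 1)] with n hn A₁ A₂ h1 h2 h3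
  have hnN : (N : ℝ) ≤ n := by exact_mod_cast (le_max_left _ _).trans hn
  have hn1 : (1 : ℝ) ≤ n := by exact_mod_cast (le_max_right _ _).trans hn
  have e1 : 8 * C ≤ σ * n := by
    have := ((le_max_left _ _).trans hN).trans hnN
    rw [div_le_iff₀ hσ] at this
    linarith
  have e2 : K * χ ≤ σ * n := by
    have := (((le_max_left _ _).trans (le_max_right _ _)).trans hN).trans hnN
    rw [div_le_iff₀ hσ] at this
    linarith
  have e3 : 16 * χ + 1 ≤ σ * n := by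
    have := (((le_max_right _ _).trans (le_max_right _ _)).trans hN).trans hnN
    rw [div_le_iff₀ hσ] at this
    linarith
  -- the window
  obtain ⟨k₁, hk₁⟩ : ∃ k₁ : ℕ, k₁ = ⌈(A₁ + σ / 4 * n) / χ⌉₊ := ⟨_, rfl⟩
  obtain ⟨k₂, hk₂⟩ : ∃ k₂ : ℕ, k₂ = ⌊(A₂ - σ / 4 * n) / χ⌋₊ := ⟨_, rfl⟩
  have hA1 : 0 ≤ A₁ := le_trans (by positivity) h1
  have a1 : (A₁ + σ / 4 * n) / χ ≤ k₁ := by rw [hk₁]; exact Nat.le_ceil _
  have a2 : (k₁ : ℝ) < (A₁ + σ / 4 * n) / χ + 1 := by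
    rw [hk₁]; exact Nat.ceil_lt_add_one (by positivity)
  have a3 : (k₂ : ℝ) ≤ (A₂ - σ / 4 * n) / χ := by
    rw [hk₂]
    apply Nat.floor_le
    apply div_nonneg _ hχ.le
    nlinarith
  have a4 : (A₂ - σ / 4 * n) / χ < k₂ + 1 := by rw [hk₂]; exact Nat.lt_floor_add_one _
  rw [div_le_iff₀ hχ] at a1
  rw [← sub_lt_iff_lt_add, lt_div_iff₀ hχ] at a2
  rw [le_div_iff₀ hχ] at a3
  rw [div_lt_iff₀ hχ] at a4
  have b1 : K ≤ k₁ := by
    have : (K : ℝ) * χ ≤ k₁ * χ := by nlinarith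
    have := le_of_mul_le_mul_right this hχ
    exact_mod_cast this
  have b2 : (1 + σ / (8 * B)) * k₁ ≤ k₂ := by
    have h5 : (k₁ : ℝ) * χ ≤ B * n + χ := by nlinarith
    have h6 : σ / (8 * B) * (k₁ * χ) ≤ σ * n / 8 + χ := by
      have h7 : σ / (8 * B) * (k₁ * χ) ≤ σ / (8 * B) * (B * n + χ) := by gcongr
      have h8 : σ / (8 * B) * (B * n + χ) = σ * n / 8 + σ / (8 * B) * χ := by field_simp
      have h9 : σ / (8 * B) ≤ 1 := by
        rw [div_le_one (by positivity)]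
        linarith
      have h10 : σ / (8 * B) * χ ≤ χ := by nlinarith
      linarith
    have h7 : (1 + σ / (8 * B)) * k₁ * χ ≤ k₂ * χ := by nlinarith
    exact le_of_mul_le_mul_right h7 hχ
  obtain ⟨j, hj1, hj2, hj3⟩ := hK k₁ k₂ b1 b2
  have c1 : (j : ℝ) ≤ k₂ := by exact_mod_cast hj2.le
  have c2 : (k₁ : ℝ) ≤ j := by exact_mod_cast hj1
  have c3 : (j : ℝ) * χ ≤ B * n := by nlinarith
  have c4 : (j : ℝ) ≤ B / χ * n := by
    rw [div_mul_eq_mul_div, le_div_iff₀ hχ]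
    exact c3
  have c5 : σ * χ / (8 * B) * j + C ≤ σ / 4 * n := by
    have h5 : σ * χ / (8 * B) * j = σ / (8 * B) * (j * χ) := by ring
    have h6 : σ / (8 * B) * (j * χ) ≤ σ / (8 * B) * (B * n) := by gcongr
    have h7 : σ / (8 * B) * (B * n) = σ * n / 8 := by field_simp
    linarith
  have c6 := abs_le.1 (H j)
  refine ⟨j, c4, ?_, ?_, hj3⟩ <;> nlinarith

end Pool.Agent.H206.Hair
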