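import Pool.Graph.R_pool_sql_team_seeded_63374d34.N772.ST.Est
import Pool.Graph.R_seed8.Y674.CA.Lya
import Pool.Agent.H206.HairA

set_option autoImplicit false

/-! # The passage near the critical value at good times -/

namespace Pool.Agent.H206.Hair

open Filter Topology Finset
open Pool.Agent.TH279.MD Pool.Agent.Y298.SH.CD Pool.Agent.Y298.CA Pool.Agent.N772.ST

theorem Wp_zero_norm (d : ℕ) (b : ℂ) (N : ℕ) : ‖Wp d b N 0‖ = Pd d b N := by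
  rw [Wp_deriv]
  rfl

theorem Wp_mul_Pd (d : ℕ) (b : ℂ) {N j : ℕ} (hj : j ≤ N) :
    ‖Wp d b N j‖ * Pd d b j = Pd d b N := by
  rw [← Wp_zero_norm, ← Wp_zero_norm, ← norm_mul]
  congr 1
  unfold Wp
  rw [mul_comm]
  exact Finset.prod_Ico_consecutive _ (Nat.zero_le j) hj

/-- the constants of a Lyapunov parameter -/
theorem lyap_data {d : ℕ} (hd : 2 ≤ d) {χ : ℝ} {c₀ : ℂ} (h : Lyap d χ c₀) :
    (∀ j, 0 < Pd d c₀ j) ∧ (∀ j, zz d c₀ j ≠ 0) ∧ (∀ j, ‖zz d c₀ j‖ ≤ 2) ∧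
    Gr χ (fun j => Pd d c₀ j / ‖zz d c₀ j‖) ∧
    (∀ ε : ℝ, 0 < ε → ∃ C : ℝ, 0 ≤ C ∧ ∀ j : ℕ, |Real.log ‖zz d c₀ j‖| ≤ ε * j + C) ∧
    ∃ C₂ : ℝ, 1 ≤ C₂ ∧ ∀ N : ℕ, ∑ j ∈ range (N + 1), ‖Wp d c₀ N j‖ ≤ C₂ * Pd d c₀ N := by
  obtain ⟨⟨C₁, lam, hCE⟩, hL⟩ := Pool.Agent.Y674.CA.lya d χ c₀ hd h
  have hP : ∀ j, 0 < Pd d c₀ j := hCE.Pd_pos
  have hz : ∀ j, zz d c₀ j ≠ 0 := by
    obtain ⟨C, hC, H⟩ := hL 1 one_pos
    intro j h0
    have := (H j).2.2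
    rw [h0, norm_zero, mul_zero] at this
    linarith
  have hz0 : ∀ j, 0 < ‖zz d c₀ j‖ := fun j => norm_pos_iff.2 (hz j)
  have hb := hCE.bd
  have hlog2 : 0 ≤ Real.log 2 := Real.log_nonneg (by norm_num)
  refine ⟨hP, hz, hb, ⟨fun j => div_pos (hP j) (hz0 j), fun ε hε => ?_⟩, fun ε hε => ?_, ?_⟩
  · obtain ⟨C, hC, H⟩ := hL (ε / 2) (half_pos hε)
    have hC0 : 0 < C := by linarith
    refine ⟨2 * C ^ 2, by nlinarith, fun n => ?_⟩
    obtain ⟨h1, h2, h3⟩ := H n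
    constructor
    · calc Real.exp ((χ - ε) * n) ≤ Real.exp ((χ - ε / 2) * n) := by
            apply Real.exp_le_exp.2
            have : (0 : ℝ) ≤ n := by positivity
            nlinarith
        _ ≤ C * Pd d c₀ n := h1
        _ ≤ (C * Pd d c₀ n) * (2 / ‖zz d c₀ n‖) := by
            apply le_mul_of_one_le_right (by have := hP n; positivity)
            rw [le_div_iff₀ (hz0 n)]
            linarith [hb n]
        _ = 2 * C * (Pd d c₀ n / ‖zz d c₀ n‖) := by ring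
        _ ≤ 2 * C ^ 2 * (Pd d c₀ n / ‖zz d c₀ n‖) := by
            have : 0 ≤ Pd d c₀ n / ‖zz d c₀ n‖ := (div_pos (hP n) (hz0 n)).le
            gcongr
            nlinarith
    · have hm : Real.exp ((χ + ε) * n) = Real.exp ((χ + ε / 2) * n) * Real.exp (ε / 2 * n) := by
        rw [← Real.exp_add]
        congr 1
        ring
      rw [div_le_iff₀ (hz0 n), hm]
      calc Pd d c₀ n ≤ C * Real.exp ((χ + ε / 2) * n) := h2
        _ ≤ (C * Real.exp ((χ + ε / 2) * n)) * (C * Real.exp (ε / 2 * n) * ‖zz d c₀ n‖) := by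
            apply le_mul_of_one_le_right (by positivity) h3
        _ = C ^ 2 * (Real.exp ((χ + ε / 2) * n) * Real.exp (ε / 2 * n)) * ‖zz d c₀ n‖ := by ring
        _ ≤ 2 * C ^ 2 * (Real.exp ((χ + ε / 2) * n) * Real.exp (ε / 2 * n)) * ‖zz d c₀ n‖ := by
            have := (hz0 n).le
            gcongr
            nlinarith
  · obtain ⟨C, hC, H⟩ := hL ε hε
    have hC0 : 0 < C := by linarith
    refine ⟨Real.log C + Real.log 2, by
      have := Real.log_nonneg hC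
      linarith, fun j => ?_⟩
    obtain ⟨-, -, h3⟩ := H j
    have h4 := Real.log_le_log one_pos h3
    rw [Real.log_one, Real.log_mul (by positivity) (hz0 j).ne', Real.log_mul hC0.ne'
      (Real.exp_pos _).ne', Real.log_exp] at h4
    have h5 := Real.log_le_log (hz0 j) (hb j)
    have h6 := Real.log_nonneg hC
    have h7 : 0 ≤ ε * j := by positivity
    rw [abs_le]
    constructor <;> linarith
  · -- the sum
    have hlam := hCE.lam1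
    have hlam0 : 0 < lam := by linarith
    have hC1 := hCE.C1
    have hgeo : ∀ N : ℕ, ∑ j ∈ range (N + 1), (lam⁻¹) ^ j ≤ (1 - lam⁻¹)⁻¹ := by
      intro N
      have h1 : lam⁻¹ < 1 := inv_lt_one_of_one_lt₀ hlam
      have h2 : 0 ≤ lam⁻¹ := by positivity
      exact (summable_geometric_of_lt_one h2 h1).sum_le_tsum (range (N + 1))
        (fun j _ => by positivity) |>.trans (tsum_geometric_of_lt_one h2 h1).le
    refine ⟨max 1 (C₁ * (1 - lam⁻¹)⁻¹), le_max_left _ _, fun N => ?_⟩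
    have h1 : ∀ j ∈ range (N + 1), ‖Wp d c₀ N j‖ ≤ C₁ * (lam⁻¹) ^ j * Pd d c₀ N := by
      intro j hj
      rw [Finset.mem_range] at hj
      have h2 := Wp_mul_Pd d c₀ (show j ≤ N by omega)
      have h3 := hCE.exp j
      have h4 : (lam⁻¹) ^ j * lam ^ j = 1 := by
        rw [← mul_pow, inv_mul_cancel₀ hlam0.ne', one_pow]
      have h5 : 0 ≤ ‖Wp d c₀ N j‖ := norm_nonneg _
      calc ‖Wp d c₀ N j‖ = ‖Wp d c₀ N j‖ * ((lam⁻¹) ^ j * lam ^ j) := by rw [h4, mul_one]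
        _ ≤ ‖Wp d c₀ N j‖ * ((lam⁻¹) ^ j * (C₁ * Pd d c₀ j)) := by gcongr
        _ = C₁ * (lam⁻¹) ^ j * (‖Wp d c₀ N j‖ * Pd d c₀ j) := by ring
        _ = _ := by rw [h2]
    calc ∑ j ∈ range (N + 1), ‖Wp d c₀ N j‖ ≤ ∑ j ∈ range (N + 1), C₁ * (lam⁻¹) ^ j * Pd d c₀ N :=
          Finset.sum_le_sum h1
      _ = C₁ * (∑ j ∈ range (N + 1), (lam⁻¹) ^ j) * Pd d c₀ N := by
          rw [Finset.mul_sum, Finset.sum_mul]
      _ ≤ C₁ * (1 - lam⁻¹)⁻¹ * Pd d c₀ N := by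
          have := (hP N).le
          have := hgeo N
          gcongr
      _ ≤ _ := by
          have := (hP N).le
          gcongr
          exact le_max_right _ _

/-- **The passage.** -/
theorem passage {d : ℕ} (hd : 2 ≤ d) {c₀ : ℂ} {C₂ : ℝ} (hC₂ : 1 ≤ C₂)
    (hP : ∀ j, 0 < Pd d c₀ j) (hz : ∀ j, zz d c₀ j ≠ 0)
    (hW : ∀ N : ℕ, ∑ j ∈ range (N + 1), ‖Wp d c₀ N j‖ ≤ C₂ * Pd d c₀ N) {t : ℝ} (ht : 0 < t) {j : ℕ}
    (hj : 64 * d * C₂ * (t * ∑ i ∈ range j, Pd d c₀ i / ‖zz d c₀ i‖) ≤ 1) :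
    (∀ κ u : ℂ, ‖κ - c₀‖ ≤ t → ‖u‖ ≤ t → ‖zo d κ u j - zz d c₀ j‖ ≤ 4 * C₂ * t * Pd d c₀ j) ∧
    ∀ κ u κ' u' : ℂ, ‖κ - c₀‖ ≤ t → ‖u‖ ≤ t → ‖κ' - c₀‖ ≤ t → ‖u'‖ ≤ t →
      3 / 4 * Pd d c₀ j * ‖u - u'‖ - 2 * C₂ * Pd d c₀ j * ‖κ - κ'‖ ≤
        ‖zo d κ u j - zo d κ' u' j‖ := by
  have hdR : (2 : ℝ) ≤ d := by exact_mod_cast hd
  have hC0 : 0 < C₂ := by linarith
  have hzz : ∀ i, zo d c₀ 0 i = zz d c₀ i := by
    intro i
    unfold zo zz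
    rw [add_zero]
  have hz0 : ∀ i, 0 < ‖zz d c₀ i‖ := fun i => norm_pos_iff.2 (hz i)
  obtain ⟨ξ, hξ⟩ : ∃ ξ : ℕ → ℝ, ξ = fun i => 4 * C₂ * t * (Pd d c₀ i / ‖zz d c₀ i‖) := ⟨_, rfl⟩
  have hξ0 : ∀ i, 0 ≤ ξ i := by
    intro i
    rw [hξ]
    have := hP i
    have := hz0 i
    positivity
  have hξm : ∀ i, ξ i * ‖zz d c₀ i‖ = 4 * C₂ * t * Pd d c₀ i := by
    intro i
    rw [hξ]
    have := (hz0 i).ne'
    field_simp
  have hsum : ∀ N ≤ j, 2 * d * ∑ i ∈ range N, ξ i ≤ 1 / 8 := by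
    intro N hN
    have h1 : ∑ i ∈ range N, ξ i ≤ ∑ i ∈ range j, ξ i :=
      Finset.sum_le_sum_of_subset_of_nonneg (Finset.range_subset_range.2 hN) fun i _ _ => hξ0 i
    have h2 : ∑ i ∈ range j, ξ i = 4 * C₂ * t * ∑ i ∈ range j, Pd d c₀ i / ‖zz d c₀ i‖ := by
      rw [hξ, Finset.mul_sum]
    calc 2 * d * ∑ i ∈ range N, ξ i ≤ 2 * d * ∑ i ∈ range j, ξ i := by gcongr
      _ = (64 * d * C₂ * (t * ∑ i ∈ range j, Pd d c₀ i / ‖zz d c₀ i‖)) / 8 := by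
          rw [h2]; ring
      _ ≤ 1 / 8 := by linarith
  -- closeness of the orbits
  have hcl : ∀ N ≤ j, ∀ κ u : ℂ, ‖κ - c₀‖ ≤ t → ‖u‖ ≤ t →
      ‖zo d κ u N - zz d c₀ N‖ ≤ 4 * C₂ * t * Pd d c₀ N := by
    intro N
    induction N using Nat.strong_induction_on with
    | _ N ih =>
      intro hN κ u hκ hu
      have h1 := two_point (N := N) hd (b := c₀) (κ := κ) (κ' := c₀) (u := u) (u' := 0) (ξ := ξ)
        (Θ := 1 / 8) (fun i _ => hξ0 i) (fun i hi => by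
          rw [hzz, hξm]
          exact ih i hi (by omega) κ u hκ hu) (fun i hi => by
          rw [sub_self, norm_zero]
          exact mul_nonneg (hξ0 i) (norm_nonneg _)) (hsum N hN) (by norm_num)
      rw [hzz, sub_zero] at h1
      have h2 : ‖(∑ j ∈ range (N + 1), Wp d c₀ N j) * (κ - c₀)‖ ≤ C₂ * Pd d c₀ N * t := by
        rw [norm_mul]
        have := hP N
        gcongr
        exact (norm_sum_le _ _).trans (hW N)
      have h3 : ‖Wp d c₀ N 0 * u‖ ≤ Pd d c₀ N * t := by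
        rw [norm_mul, Wp_zero_norm]
        have := hP N
        gcongr
      have h4 : 2 * (1 / 8 : ℝ) * ((∑ j ∈ range (N + 1), ‖Wp d c₀ N j‖) * ‖κ - c₀‖ +
          ‖Wp d c₀ N 0‖ * ‖u‖) ≤ 2 * (1 / 8) * (C₂ * Pd d c₀ N * t + Pd d c₀ N * t) := by
        rw [Wp_zero_norm]
        have := hP N
        have := hW N
        gcongr
      have h5 : zo d κ u N - zz d c₀ N = (zo d κ u N - zz d c₀ N -
          (∑ j ∈ range (N + 1), Wp d c₀ N j) * (κ - c₀) - Wp d c₀ N 0 * u) +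
          (∑ j ∈ range (N + 1), Wp d c₀ N j) * (κ - c₀) + Wp d c₀ N 0 * u := by ring
      rw [h5]
      have h6 : Pd d c₀ N * t ≤ C₂ * Pd d c₀ N * t := by
        have := hP N
        have : 0 ≤ Pd d c₀ N * t := by positivity
        nlinarith
      calc _ ≤ ‖zo d κ u N - zz d c₀ N - (∑ j ∈ range (N + 1), Wp d c₀ N j) * (κ - c₀) -
              Wp d c₀ N 0 * u‖ + ‖(∑ j ∈ range (N + 1), Wp d c₀ N j) * (κ - c₀)‖ +
              ‖Wp d c₀ N 0 * u‖ := (norm_add_le _ _).trans (by gcongr; exact norm_add_le _ _)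
        _ ≤ 2 * (1 / 8) * (C₂ * Pd d c₀ N * t + Pd d c₀ N * t) + C₂ * Pd d c₀ N * t +
              Pd d c₀ N * t := add_le_add (add_le_add (h1.trans h4) h2) h3
        _ ≤ 4 * C₂ * t * Pd d c₀ N := by
          have h7 : 0 ≤ Pd d c₀ N * t := by have := hP N; positivity
          nlinarith
  refine ⟨fun κ u hκ hu => hcl j le_rfl κ u hκ hu, fun κ u κ' u' hκ hu hκ' hu' => ?_⟩
  have h1 := two_point (N := j) hd (b := c₀) (κ := κ) (κ' := κ') (u := u) (u' := u') (ξ := ξ)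
    (Θ := 1 / 8) (fun i _ => hξ0 i) (fun i hi => by
      rw [hzz, hξm]
      exact hcl i hi.le κ u hκ hu) (fun i hi => by
      rw [hzz, hξm]
      exact hcl i hi.le κ' u' hκ' hu') (hsum j le_rfl) (by norm_num)
  have h2 : ‖(∑ i ∈ range (j + 1), Wp d c₀ j i) * (κ - κ')‖ ≤ C₂ * Pd d c₀ j * ‖κ - κ'‖ := by
    rw [norm_mul]
    gcongr
    exact (norm_sum_le _ _).trans (hW j)
  have h3 : ‖Wp d c₀ j 0 * (u - u')‖ = Pd d c₀ j * ‖u - u'‖ := by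
    rw [norm_mul, Wp_zero_norm]
  have h4 : 2 * (1 / 8 : ℝ) * ((∑ i ∈ range (j + 1), ‖Wp d c₀ j i‖) * ‖κ - κ'‖ +
      ‖Wp d c₀ j 0‖ * ‖u - u'‖) ≤
      2 * (1 / 8) * (C₂ * Pd d c₀ j * ‖κ - κ'‖ + Pd d c₀ j * ‖u - u'‖) := by
    rw [Wp_zero_norm]
    have := hW j
    gcongr
  have h5 : Wp d c₀ j 0 * (u - u') = (zo d κ u j - zo d κ' u' j) -
      (∑ i ∈ range (j + 1), Wp d c₀ j i) * (κ - κ') - (zo d κ u j - zo d κ' u' j -
      (∑ i ∈ range (j + 1), Wp d c₀ j i) * (κ - κ') - Wp d c₀ j 0 * (u - u')) := by ring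
  have h6 : Pd d c₀ j * ‖u - u'‖ ≤ ‖zo d κ u j - zo d κ' u' j‖ + C₂ * Pd d c₀ j * ‖κ - κ'‖ +
      2 * (1 / 8) * (C₂ * Pd d c₀ j * ‖κ - κ'‖ + Pd d c₀ j * ‖u - u'‖) := by
    refine (h3.symm.trans (congrArg norm h5)).le.trans ?_
    refine (norm_sub_le _ _).trans (add_le_add ((norm_sub_le _ _).trans
      (add_le_add le_rfl h2)) ?_)
    exact h1.trans h4
  have h7 : 0 ≤ C₂ * Pd d c₀ j * ‖κ - κ'‖ := by
    have := hP j
    positivity
  nlinarith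

end Pool.Agent.H206.Hair
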