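import Pool.Graph.R_pool_sql_team_seeded_63374d34.N772.PC.Near
import Pool.Graph.R_pool_sql_team_seeded_63374d34.N772.ST.Alg
import Pool.Graph.R_seed8.W677.MB4
import Pool.Graph.R_seed8.H713R2.AR.PR
import Pool.Graph.R_seed8.W746.LD.Final

set_option autoImplicit false

/-! # The escape of the critical orbit of a perfect small copy -/

namespace Pool.Agent.H206.Hair

open Filter Topology Set Metric
open Pool.Agent.H712R2 (P fc P_zero P_succ mem_multibrot_iff)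
open Pool.Agent.H713R2 (IsBeta BB BB_eq)
open Pool.Agent.N772.PC (Un re re_iter re_iter')

theorem pow_rel {d : ℕ} (hd : 2 ≤ d) {z y : ℂ} {δ : ℝ} (hδ : 0 ≤ δ) (hδ1 : 2 * d * δ ≤ 1)
    (h : ‖z - y‖ ≤ δ * ‖y‖) : ‖z ^ d - y ^ d‖ ≤ 2 * d * δ * ‖y‖ ^ d := by
  have hdR : (2 : ℝ) ≤ d := by exact_mod_cast hd
  have h1 := Pool.Agent.N772.ST.pow_close hδ h d
  have h2 : (1 + δ) ^ d ≤ Real.exp (d * δ) := by
    rw [Real.exp_nat_mul]
    gcongr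
    linarith [Real.add_one_le_exp δ]
  have h3 : Real.exp (d * δ) - 1 ≤ 2 * d * δ := by
    have h4 : |(d : ℝ) * δ| ≤ 1 := by
      rw [abs_of_nonneg (by positivity)]
      linarith
    have h5 := Real.abs_exp_sub_one_le h4
    rw [abs_of_nonneg (by positivity : (0 : ℝ) ≤ d * δ)] at h5
    have := le_abs_self (Real.exp (d * δ) - 1)
    linarith
  refine h1.trans ?_
  gcongr
  linarith

/-- bounds for the critical orbit outside of the Multibrot set -/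
theorem P_bounds {d : ℕ} (hd : 2 ≤ d) {β : ℂ → ℂ} (hβ : IsBeta d β) {ρ₂ : ℝ} (hρ₂ : ρ₂ < 1) :
    ∃ p₀ : ℝ, 0 < p₀ ∧ p₀ ≤ 1 ∧ ∀ x : ℂ, x ≠ 0 → ‖x‖ ≤ ρ₂ → ∀ j : ℕ,
      p₀ * (‖x‖⁻¹) ^ (d ^ j) ≤ ‖P d (j + 1) (x⁻¹ * β x)‖ ∧
      ‖P d (j + 1) (x⁻¹ * β x)‖ ≤ 2 * (‖x‖⁻¹) ^ (d ^ j) := by
  refine ⟨Real.exp (-(2 * Real.log 2 * |ρ₂| / (1 - ρ₂))), Real.exp_pos _, ?_, ?_⟩
  · rw [Real.exp_le_one_iff]
    have h1 : 0 ≤ Real.log 2 := Real.log_nonneg (by norm_num)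
    have h2 : 0 < 1 - ρ₂ := by linarith
    have : 0 ≤ 2 * Real.log 2 * |ρ₂| / (1 - ρ₂) := by positivity
    linarith
  intro x hx0 hx j
  have hxn : 0 < ‖x‖ := norm_pos_iff.2 hx0
  have hx1 : x ∈ ball (0 : ℂ) 1 := by
    rw [mem_ball_zero_iff]
    linarith
  have h1 := BB_eq hd β j x hx0
  have h2 := Pool.Agent.W677.MB.BB_lower hd hβ j hx1
  have h3 := Pool.Agent.H713R2.AR.BB_le_two hd hβ j hx1
  have h4 : ‖P d (j + 1) (x⁻¹ * β x)‖ = (‖x‖⁻¹) ^ (d ^ j) * ‖BB d β j x‖ := by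
    rw [h1, norm_mul, norm_pow, ← mul_assoc, ← mul_pow, inv_mul_cancel₀ hxn.ne', one_pow, one_mul]
  have h5 : Real.exp (-(2 * Real.log 2 * |ρ₂| / (1 - ρ₂))) ≤ ‖BB d β j x‖ := by
    refine le_trans (Real.exp_le_exp.2 ?_) h2
    have h6 : 0 ≤ Real.log 2 := Real.log_nonneg (by norm_num)
    have h7 : 0 < 1 - ρ₂ := by linarith
    have h8 : 2 * Real.log 2 * ‖x‖ / (1 - ‖x‖) ≤ 2 * Real.log 2 * |ρ₂| / (1 - ρ₂) := by
      have : ‖x‖ ≤ |ρ₂| := hx.trans (le_abs_self _)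
      gcongr
    linarith
  have h9 : 0 < (‖x‖⁻¹) ^ (d ^ j) := by positivity
  rw [h4]
  constructor
  · rw [mul_comm]
    gcongr
  · rw [mul_comm]
    gcongr

/-- **The escape of the critical orbit.** -/
theorem esc {d : ℕ} (hd : 2 ≤ d) {β : ℂ → ℂ} (hβ : IsBeta d β) {ρ₁ ρ₂ : ℝ} (hρ₁ : 0 < ρ₁)
    (hρ₂ : ρ₂ < 1) : ∃ A : ℝ, 1 ≤ A ∧ ∀ (n : ℕ) (c l m : ℂ) (τ : ℝ), m ≠ 0 → Un d n c l m τ →
      ∀ x : ℂ, ρ₁ ≤ ‖x‖ → ‖x‖ ≤ ρ₂ → ∀ J : ℕ, A ^ (J + 1) * (‖x‖⁻¹) ^ (d ^ J) ≤ Real.exp τ →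
        ‖P d (n * (J + 1)) (c + l * (x⁻¹ * β x)) / m - P d (J + 1) (x⁻¹ * β x)‖ ≤
          1 / 2 * ‖P d (J + 1) (x⁻¹ * β x)‖ := by
  have hdR : (2 : ℝ) ≤ d := by exact_mod_cast hd
  obtain ⟨p₀, hp₀, hp₁, HP⟩ := P_bounds hd hβ hρ₂
  obtain ⟨K, hK⟩ : ∃ K : ℝ, K = 2 / ρ₁ := ⟨_, rfl⟩
  have hK0 : 0 < K := by rw [hK]; positivity
  obtain ⟨A₁, hA₁⟩ : ∃ A₁ : ℝ, A₁ = 1 + K / p₀ := ⟨_, rfl⟩
  have hA₁1 : 1 ≤ A₁ := by
    rw [hA₁]
    have : 0 < K / p₀ := by positivity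
    linarith
  obtain ⟨B, hB⟩ : ∃ B : ℝ, B = 3 * A₁ + (K + 1) / p₀ := ⟨_, rfl⟩
  have hB1 : 1 ≤ B := by
    rw [hB]
    have : 0 < (K + 1) / p₀ := by positivity
    linarith
  obtain ⟨D, hD⟩ : ∃ D : ℝ, D = 2 * d * A₁ + 1 := ⟨_, rfl⟩
  have hD1 : 1 ≤ D := by
    rw [hD]
    have : 0 ≤ 2 * d * A₁ := by positivity
    linarith
  obtain ⟨E, hE⟩ : ∃ E : ℝ, E = 2 * B ^ 2 := ⟨_, rfl⟩
  have hE0 : 0 < E := by rw [hE]; positivity
  obtain ⟨A, hA⟩ : ∃ A : ℝ, A = D + 2 * d * E + 2 * B := ⟨_, rfl⟩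
  have hAD : D ≤ A := by
    rw [hA]
    have : 0 ≤ 2 * d * E := by positivity
    linarith
  have hAE : 2 * d * E ≤ A := by rw [hA]; linarith
  have hAB : 2 * B ≤ A := by
    rw [hA]
    have : 0 ≤ 2 * d * E := by positivity
    linarith
  have hA1 : 1 ≤ A := hD1.trans hAD
  refine ⟨A, hA1, ?_⟩
  intro n c l m τ hm hU x hx1 hx2 J hJ
  have hxn : 0 < ‖x‖ := lt_of_lt_of_le hρ₁ hx1
  have hx0 : x ≠ 0 := norm_pos_iff.1 hxn
  have hxb : x ∈ ball (0 : ℂ) 1 := by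
    rw [mem_ball_zero_iff]
    linarith
  obtain ⟨κ, hκ⟩ : ∃ κ : ℂ, κ = x⁻¹ * β x := ⟨_, rfl⟩
  rw [← hκ]
  have hκK : ‖κ‖ ≤ K := by
    rw [hκ, norm_mul, norm_inv, hK, div_eq_mul_inv, mul_comm]
    have h1 := hβ.bound x hxb
    gcongr
  have hx1' : 1 ≤ ‖x‖⁻¹ := (one_le_inv₀ hxn).2 (by linarith)
  obtain ⟨Y, hY⟩ : ∃ Y : ℝ, Y = (‖x‖⁻¹) ^ (d ^ J) := ⟨_, rfl⟩
  rw [← hY] at hJ
  have hY1 : 1 ≤ Y := by rw [hY]; exact one_le_pow₀ hx1'
  have hPlo : ∀ j, p₀ ≤ ‖P d (j + 1) κ‖ := by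
    intro j
    have h := (HP x hx0 hx2 j).1
    rw [← hκ] at h
    exact (le_mul_of_one_le_right hp₀.le (one_le_pow₀ hx1')).trans h
  have hPhi : ∀ j ≤ J, ‖P d (j + 1) κ‖ ≤ 2 * Y := by
    intro j hj
    rw [hκ]
    refine (HP x hx0 hx2 j).2.trans ?_
    rw [hY]
    exact mul_le_mul_of_nonneg_left (pow_le_pow_right₀ hx1'
      (Nat.pow_le_pow_right (by omega) hj)) (by norm_num)
  have hpd : ∀ j, ‖P d j κ‖ ^ d ≤ A₁ * ‖P d (j + 1) κ‖ := by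
    intro j
    have h1 : P d j κ ^ d = P d (j + 1) κ - κ := by rw [P_succ]; ring
    rw [← norm_pow, h1, hA₁, add_mul, one_mul]
    refine (norm_sub_le _ _).trans (add_le_add le_rfl ?_)
    calc ‖κ‖ ≤ K := hκK
      _ = K / p₀ * p₀ := by field_simp
      _ ≤ K / p₀ * ‖P d (j + 1) κ‖ := by
          gcongr
          exact hPlo j
  -- the iterates of the renormalised map
  obtain ⟨z, hz⟩ : ∃ z : ℕ → ℂ, z = fun j => (re d n c l m κ)^[j] 0 := ⟨_, rfl⟩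
  have hz0 : z 0 = 0 := by rw [hz]; rfl
  have hzs : ∀ j, z (j + 1) = re d n c l m κ (z j) := by
    intro j
    rw [hz]
    exact Function.iterate_succ_apply' _ _ _
  have hzP : ∀ j, z j = P d (n * j) (c + l * κ) / m := by
    intro j
    rw [hz]
    show (re d n c l m κ)^[j] 0 = _
    rw [re_iter' hm, mul_zero]
    rfl
  rw [← hzP]
  -- induction
  obtain ⟨q, hq⟩ : ∃ q : ℝ, q = Y * Real.exp (-τ) := ⟨_, rfl⟩
  have hq0 : 0 < q := by rw [hq]; have := Real.exp_pos (-τ); positivity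
  have hAq : A ^ (J + 1) * q ≤ 1 := by
    rw [hq, ← mul_assoc, Real.exp_neg, mul_inv_le_iff₀ (Real.exp_pos _), one_mul]
    exact hJ
  have hsmall : ∀ j ≤ J, D ^ j * E * q * (2 * d) ≤ 1 := by
    intro j hj
    calc D ^ j * E * q * (2 * d) = D ^ j * (2 * d * E) * q := by ring
      _ ≤ A ^ J * A * q := by
          gcongr
          calc D ^ j ≤ D ^ J := pow_le_pow_right₀ hD1 hj
            _ ≤ A ^ J := by gcongr
      _ = A ^ (J + 1) * q := by ring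
      _ ≤ 1 := hAq
  have hmain : ∀ j ≤ J, ‖z (j + 1) - P d (j + 1) κ‖ ≤ D ^ j * E * q * ‖P d (j + 1) κ‖ := by
    intro j
    induction j with
    | zero =>
      intro _
      have hR1 : 1 ≤ B * ‖P d (0 + 1) κ‖ := by
        have h1 := hPlo 0
        have h2 : (K + 1) / p₀ * p₀ = K + 1 := by field_simp
        have h3 : (K + 1) / p₀ ≤ B := by
          rw [hB]
          linarith
        calc (1 : ℝ) ≤ (K + 1) / p₀ * p₀ := by rw [h2]; linarith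
          _ ≤ _ := by gcongr
      have hR2 : B * ‖P d (0 + 1) κ‖ ≤ Real.exp τ := by
        calc B * ‖P d (0 + 1) κ‖ ≤ B * (2 * Y) := by
              gcongr
              exact hPhi 0 (Nat.zero_le _)
          _ = (2 * B) * Y := by ring
          _ ≤ A ^ (J + 1) * Y := by
              gcongr
              exact hAB.trans (le_self_pow₀ hA1 (by omega))
          _ ≤ _ := hJ
      have hRκ : ‖κ‖ ≤ B * ‖P d (0 + 1) κ‖ := by
        have h1 := hPlo 0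
        have h2 : (K + 1) / p₀ * p₀ = K + 1 := by field_simp
        have h3 : (K + 1) / p₀ ≤ B := by
          rw [hB]
          linarith
        calc ‖κ‖ ≤ (K + 1) / p₀ * p₀ := by rw [h2]; linarith
          _ ≤ _ := by gcongr
      obtain ⟨h4, -⟩ := hU _ hR1 hR2 κ 0 hRκ (by
        rw [norm_zero, zero_pow (by omega)]
        linarith)
      rw [hzs, hz0]
      have h5 : P d (0 + 1) κ = 0 ^ d + κ := by rw [P_succ, P_zero]
      rw [h5]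
      rw [h5] at h4
      have h6 : ‖(0 : ℂ) ^ d + κ‖ ≤ 2 * Y := by rw [← h5]; exact hPhi 0 (Nat.zero_le _)
      calc ‖re d n c l m κ 0 - (0 ^ d + κ)‖ ≤ (B * ‖(0 : ℂ) ^ d + κ‖) ^ 2 * Real.exp (-τ) := h4
        _ = B ^ 2 * ‖(0 : ℂ) ^ d + κ‖ * Real.exp (-τ) * ‖(0 : ℂ) ^ d + κ‖ := by ring
        _ ≤ B ^ 2 * (2 * Y) * Real.exp (-τ) * ‖(0 : ℂ) ^ d + κ‖ := by gcongr
        _ = D ^ 0 * E * q * ‖(0 : ℂ) ^ d + κ‖ := by rw [hE, hq]; ring
    | succ j ih =>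
      intro hj
      have h0 := ih (by omega)
      have hδ1 : 2 * d * (D ^ j * E * q) ≤ 1 := by
        have := hsmall j (by omega)
        linarith
      have hδ0 : 0 ≤ D ^ j * E * q := by positivity
      have h1 := pow_rel hd hδ0 hδ1 h0
      have h2 : ‖z (j + 1) ^ d‖ ≤ 3 * A₁ * ‖P d (j + 1 + 1) κ‖ := by
        have h3 : z (j + 1) ^ d = (z (j + 1) ^ d - P d (j + 1) κ ^ d) + P d (j + 1) κ ^ d := by ring
        rw [h3]
        refine (norm_add_le _ _).trans ?_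
        rw [norm_pow (P d (j + 1) κ)]
        have h4 := hpd (j + 1)
        have h5 : 2 * d * (D ^ j * E * q) * ‖P d (j + 1) κ‖ ^ d ≤ 1 * ‖P d (j + 1) κ‖ ^ d := by
          gcongr
        nlinarith [norm_nonneg (P d (j + 1 + 1) κ)]
      have hlo := hPlo (j + 1)
      have h2' : (K + 1) / p₀ * p₀ = K + 1 := by field_simp
      have hKp : (K + 1) ≤ (K + 1) / p₀ * ‖P d (j + 1 + 1) κ‖ := by
        calc K + 1 = (K + 1) / p₀ * p₀ := h2'.symm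
          _ ≤ _ := by gcongr
      have hBsplit : B * ‖P d (j + 1 + 1) κ‖ = 3 * A₁ * ‖P d (j + 1 + 1) κ‖ +
          (K + 1) / p₀ * ‖P d (j + 1 + 1) κ‖ := by rw [hB]; ring
      have hnn : 0 ≤ 3 * A₁ * ‖P d (j + 1 + 1) κ‖ := by positivity
      have hR1 : 1 ≤ B * ‖P d (j + 1 + 1) κ‖ := by rw [hBsplit]; linarith
      have hRκ : ‖κ‖ ≤ B * ‖P d (j + 1 + 1) κ‖ := by rw [hBsplit]; linarith
      have hR2 : B * ‖P d (j + 1 + 1) κ‖ ≤ Real.exp τ := by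
        calc B * ‖P d (j + 1 + 1) κ‖ ≤ B * (2 * Y) := by
              gcongr
              exact hPhi (j + 1) hj
          _ = (2 * B) * Y := by ring
          _ ≤ A ^ (J + 1) * Y := by
              gcongr
              exact hAB.trans (le_self_pow₀ hA1 (by omega))
          _ ≤ _ := hJ
      obtain ⟨h4, -⟩ := hU _ hR1 hR2 κ (z (j + 1)) hRκ (by
        rw [← norm_pow, hBsplit]
        linarith)
      have h6 := hPhi (j + 1) hj
      have e1 : z (j + 1 + 1) - P d (j + 1 + 1) κ = (re d n c l m κ (z (j + 1)) -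
          (z (j + 1) ^ d + κ)) + (z (j + 1) ^ d - P d (j + 1) κ ^ d) := by
        rw [hzs (j + 1), P_succ d (j + 1)]
        ring
      rw [e1]
      refine (norm_add_le _ _).trans ?_
      have h7 : ‖re d n c l m κ (z (j + 1)) - (z (j + 1) ^ d + κ)‖ ≤
          E * q * ‖P d (j + 1 + 1) κ‖ := by
        calc ‖re d n c l m κ (z (j + 1)) - (z (j + 1) ^ d + κ)‖
            ≤ (B * ‖P d (j + 1 + 1) κ‖) ^ 2 * Real.exp (-τ) := h4
          _ = B ^ 2 * ‖P d (j + 1 + 1) κ‖ * Real.exp (-τ) * ‖P d (j + 1 + 1) κ‖ := by ring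
          _ ≤ B ^ 2 * (2 * Y) * Real.exp (-τ) * ‖P d (j + 1 + 1) κ‖ := by gcongr
          _ = E * q * ‖P d (j + 1 + 1) κ‖ := by rw [hE, hq]; ring
      have h8 : ‖z (j + 1) ^ d - P d (j + 1) κ ^ d‖ ≤
          2 * d * (D ^ j * E * q) * (A₁ * ‖P d (j + 1 + 1) κ‖) := by
        refine h1.trans ?_
        gcongr
        exact hpd (j + 1)
      have h9 : E * q ≤ D ^ j * E * q := by
        have : 1 ≤ D ^ j := one_le_pow₀ hD1
        have h10 : 0 ≤ E * q := by positivity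
        nlinarith
      calc _ ≤ E * q * ‖P d (j + 1 + 1) κ‖ +
            2 * d * (D ^ j * E * q) * (A₁ * ‖P d (j + 1 + 1) κ‖) := add_le_add h7 h8
        _ ≤ (D ^ j * E * q) * ‖P d (j + 1 + 1) κ‖ +
            2 * d * (D ^ j * E * q) * (A₁ * ‖P d (j + 1 + 1) κ‖) := by gcongr
        _ = D ^ (j + 1) * E * q * ‖P d (j + 1 + 1) κ‖ := by rw [pow_succ, hD]; ring
  refine (hmain J le_rfl).trans ?_
  gcongr
  have h1 := hsmall J le_rfl
  have h2 : 0 ≤ D ^ J * E * q := by positivity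
  nlinarith

end Pool.Agent.H206.Hair
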