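import Pool.Graph.R_seed8.R240.Newton
import Pool.Graph.R_seed8.H548R3.MB.Eff2
import Pool.Agent.H206.HairB
import Pool.Agent.H206.HairC

set_option autoImplicit false

/-! # Newton steps and the logarithmic derivative -/

namespace Pool.Agent.H206.Hair

open Filter Topology Set Metric
open Pool.Agent.H712R2 (P fc P_zero P_succ mem_multibrot_iff P_one)
open Pool.Agent.H713R2 (IsBeta differentiable_P)
open Pool.Agent.R240 (P_at_zero SH SH_one disc_step)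

/-- the constant -/
noncomputable def KN : ℝ := 8 * (Real.log ((2 + SH 25) * (5 / 4)) + 4 * Real.log 2 + 1)

theorem one_le_SH : 1 ≤ SH 25 := SH_one (by norm_num)

theorem KN_pos : 0 < KN := by
  have h1 := one_le_SH
  have h2 : 0 ≤ Real.log ((2 + SH 25) * (5 / 4)) := Real.log_nonneg (by linarith)
  have h3 : 0 < Real.log 2 := Real.log_pos (by norm_num)
  unfold KN
  positivity

variable {d N : ℕ}

/-- the nearest superattracting parameter and the Newton step -/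
theorem newton (hd : 2 ≤ d) {c : ℂ} (hc : ‖P d (N + 1) c‖ ≤ 3) (hc2 : ‖c‖ ≤ 3) :
    ∃ c' : ℂ, P d (N + 1) c' = 0 ∧ ‖c' - c‖ * ‖deriv (P d (N + 1)) c‖ ≤
      KN * ‖P d (N + 1) c‖ * (1 + |Real.log ‖P d (N + 1) c‖|) := by
  have hKN := KN_pos
  by_cases h0 : P d (N + 1) c = 0
  · refine ⟨c, h0, ?_⟩
    rw [h0]
    simp
  -- the nearest zero
  obtain ⟨Z, hZ⟩ : ∃ Z : Set ℂ, Z = {x | P d (N + 1) x = 0} := ⟨_, rfl⟩
  have hZc : IsClosed Z := by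
    rw [hZ]
    exact isClosed_eq (differentiable_P d (N + 1)).continuous continuous_const
  have hZ0 : (0 : ℂ) ∈ Z := by
    rw [hZ]
    exact P_at_zero hd _
  obtain ⟨c', hc', hdist⟩ := hZc.exists_infDist_eq_dist ⟨0, hZ0⟩ c
  obtain ⟨ρ, hρ⟩ : ∃ ρ, ρ = ‖c' - c‖ := ⟨_, rfl⟩
  have hρd : infDist c Z = ρ := by
    rw [hdist, hρ, dist_comm, dist_eq_norm]
  have hρ0 : 0 < ρ := by
    rw [hρ, norm_pos_iff, sub_ne_zero]
    rintro rfl
    rw [hZ] at hc'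
    exact h0 hc'
  have hρc : ρ ≤ ‖c‖ := by
    rw [← hρd]
    refine (infDist_le_dist_of_mem hZ0).trans ?_
    rw [dist_zero_right]
  have hfree : ∀ x ∈ ball c ρ, P d (N + 1) x ≠ 0 := by
    intro x hx h
    rw [mem_ball, dist_comm] at hx
    have h1 : x ∈ Z := by rw [hZ]; exact h
    have h2 := infDist_le_dist_of_mem (x := c) h1
    rw [hρd] at h2
    linarith
  have hc0 : 0 < ‖c‖ := hρ0.trans_le hρc
  refine ⟨c', by rw [hZ] at hc'; exact hc', ?_⟩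
  rw [← hρ]
  -- the initial bound
  have hA : ‖P d N c‖ ^ d ≤ 25 * ‖c‖ := by
    rcases le_total ‖c‖ (1 / 8) with h | h
    · have h1 := Pool.Agent.R240.P_small hd h N
      have h2 : ‖P d N c‖ ^ d ≤ ‖P d N c‖ ^ 2 :=
        pow_le_pow_of_le_one (norm_nonneg _) (by linarith) hd
      nlinarith [norm_nonneg (P d N c)]
    · have h1 : P d N c ^ d = P d (N + 1) c - c := by
        rw [P_succ]; ring
      rw [← norm_pow, h1]
      refine (norm_sub_le _ _).trans ?_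
      linarith
  have hlow : ‖c‖ ≤ 16 * ‖P d (N + 1) c‖ ∨ 1 / 8 ≤ ‖c‖ := by
    rcases le_total ‖c‖ (1 / 8) with h | h
    · left
      have h1 := Pool.Agent.R240.P_small hd h N
      have h2 : ‖P d N c‖ ^ d ≤ ‖P d N c‖ ^ 2 :=
        pow_le_pow_of_le_one (norm_nonneg _) (by linarith) hd
      have h3 : c = P d (N + 1) c - P d N c ^ d := by
        rw [P_succ]; ring
      have h4 := norm_sub_le (P d (N + 1) c) (P d N c ^ d)
      rw [← h3, norm_pow] at h4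
      nlinarith [norm_nonneg (P d N c), norm_nonneg (P d (N + 1) c)]
    · right; exact h
  -- Schottky
  have hstep : ∀ x ∈ ball c (ρ / 4), ‖P d (N + 1) x‖ < (2 + SH 25) * (5 / 4) * ‖c‖ := by
    intro x hx
    rw [mem_ball, dist_eq_norm] at hx
    have hρC : (ρ : ℂ) ≠ 0 := by exact_mod_cast hρ0.ne'
    have h1 := disc_step (N := N) hd (γ := fun t => c + ρ * t) (by fun_prop) (fun t ht => by
      rw [mem_ball_zero_iff] at ht
      apply hfree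
      rw [mem_ball, dist_eq_norm, add_sub_cancel_left, norm_mul, Complex.norm_real,
        Real.norm_eq_abs, abs_of_pos hρ0]
      nlinarith) (A := 25) (by norm_num) (by simpa using hA) (t := (x - c) / ρ) (by
      rw [norm_div, Complex.norm_real, Real.norm_eq_abs, abs_of_pos hρ0, div_le_iff₀ hρ0]
      linarith)
    have h2 : c + ρ * ((x - c) / ρ) = x := by
      field_simp
      ring
    simp only [h2] at h1
    have h3 : ‖x‖ ≤ 5 / 4 * ‖c‖ := by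
      have h4 := norm_add_le (x - c) c
      rw [sub_add_cancel] at h4
      linarith
    have h4 : ‖P d (N + 1) x‖ ≤ ‖P d N x‖ ^ d + ‖x‖ := by
      rw [P_succ]
      refine (norm_add_le _ _).trans ?_
      rw [norm_pow]
    have h5 := one_le_SH
    have h6 : SH 25 * ‖x‖ ≤ SH 25 * (5 / 4 * ‖c‖) := by gcongr
    nlinarith
  have hS := Pool.Agent.W746.LD.schwarz_log (F := P d (N + 1)) (a := c) (r := ρ / 4) (by positivity)
    (differentiable_P d (N + 1)).differentiableOn (fun t ht => hfree t (ball_subset_ball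
      (by linarith) ht)) hstep
  have hP0 : 0 < ‖P d (N + 1) c‖ := norm_pos_iff.2 h0
  have hS1 := one_le_SH
  have hlog : Real.log ((2 + SH 25) * (5 / 4) * ‖c‖ / ‖P d (N + 1) c‖) ≤
      Real.log ((2 + SH 25) * (5 / 4)) + (4 * Real.log 2 + |Real.log ‖P d (N + 1) c‖|) := by
    rw [mul_div_assoc, Real.log_mul (by positivity) (by positivity)]
    apply add_le_add_right
    rw [Real.log_div hc0.ne' hP0.ne']
    have h2 : Real.log 16 = 4 * Real.log 2 := by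
      rw [show (16 : ℝ) = 2 ^ 4 by norm_num, Real.log_pow]
      norm_num
    have h3 : 0 < Real.log 2 := Real.log_pos (by norm_num)
    rcases hlow with h | h
    · have h1 := Real.log_le_log hc0 h
      rw [Real.log_mul (by norm_num) hP0.ne', h2] at h1
      linarith [abs_nonneg (Real.log ‖P d (N + 1) c‖)]
    · have h1 := Real.log_le_log hc0 (hc2.trans (by norm_num : (3 : ℝ) ≤ 2 ^ 2))
      rw [Real.log_pow] at h1
      have h4 := neg_abs_le (Real.log ‖P d (N + 1) c‖)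
      push_cast at h1
      linarith
  have hfin : ρ * ‖deriv (P d (N + 1)) c‖ ≤ 8 * ‖P d (N + 1) c‖ *
      (Real.log ((2 + SH 25) * (5 / 4)) + (4 * Real.log 2 + |Real.log ‖P d (N + 1) c‖|)) := by
    have h1 := mul_le_mul_of_nonneg_left hlog (show 0 ≤ 2 * ‖P d (N + 1) c‖ by positivity)
    nlinarith
  refine hfin.trans ?_
  have h2 : 0 ≤ Real.log ((2 + SH 25) * (5 / 4)) := Real.log_nonneg (by linarith)
  have h3 : 0 < Real.log 2 := Real.log_pos (by norm_num)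
  have h4 := abs_nonneg (Real.log ‖P d (N + 1) c‖)
  unfold KN
  obtain ⟨L, hL⟩ : ∃ L, L = Real.log ((2 + SH 25) * (5 / 4)) + 4 * Real.log 2 := ⟨_, rfl⟩
  have hL0 : 0 ≤ L := by rw [hL]; positivity
  obtain ⟨X, hX⟩ : ∃ X, X = |Real.log ‖P d (N + 1) c‖| := ⟨_, rfl⟩
  rw [← hX] at h4 ⊢
  rw [← hL]
  have h5 : Real.log ((2 + SH 25) * (5 / 4)) + (4 * Real.log 2 + X) ≤ (L + 1) * (1 + X) := by
    rw [← add_assoc, ← hL]
    nlinarith
  calc 8 * ‖P d (N + 1) c‖ * (Real.log ((2 + SH 25) * (5 / 4)) + (4 * Real.log 2 + X))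
      ≤ 8 * ‖P d (N + 1) c‖ * ((L + 1) * (1 + X)) := by gcongr
    _ = _ := by ring

/-- **The logarithmic derivative of the escaping orbit.** -/
theorem logder (hd : 2 ≤ d) {β : ℂ → ℂ} {ρ₁ ρ₂ : ℝ} (hρ₁ : 0 < ρ₁)
    (hρ₂ : ρ₂ < 1) {p₀ : ℝ} (hp₀ : 0 < p₀)
    (HP : ∀ x : ℂ, x ≠ 0 → ‖x‖ ≤ ρ₂ → ∀ j : ℕ,
      p₀ * (‖x‖⁻¹) ^ (d ^ j) ≤ ‖P d (j + 1) (x⁻¹ * β x)‖ ∧
      ‖P d (j + 1) (x⁻¹ * β x)‖ ≤ 2 * (‖x‖⁻¹) ^ (d ^ j)) {J : ℕ} {Z : ℂ → ℂ} {X : ℂ} {r : ℝ}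
    (hr : 0 < r) (hb : ∀ x ∈ ball X r, ρ₁ ≤ ‖x‖ ∧ ‖x‖ ≤ ρ₂) (hZ : DifferentiableOn ℂ Z (ball X r))
    (hcl : ∀ x ∈ ball X r, ‖Z x - P d (J + 1) (x⁻¹ * β x)‖ ≤ 1 / 2 * ‖P d (J + 1) (x⁻¹ * β x)‖) :
    (∀ x ∈ ball X r, p₀ / 2 * (‖x‖⁻¹) ^ (d ^ J) ≤ ‖Z x‖ ∧ ‖Z x‖ ≤ 3 * (‖x‖⁻¹) ^ (d ^ J)) ∧
    ((d : ℝ) ^ J - 2 / r * Real.log (8 / p₀)) * ‖Z X‖ ≤ ‖deriv Z X‖ := by
  have hx0 : ∀ x ∈ ball X r, x ≠ 0 := by
    intro x hx h
    have := (hb x hx).1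
    rw [h, norm_zero] at this
    linarith
  have hfst : ∀ x ∈ ball X r, p₀ / 2 * (‖x‖⁻¹) ^ (d ^ J) ≤ ‖Z x‖ ∧
      ‖Z x‖ ≤ 3 * (‖x‖⁻¹) ^ (d ^ J) := by
    intro x hx
    obtain ⟨h1, h2⟩ := HP x (hx0 x hx) (hb x hx).2 J
    have h3 := hcl x hx
    have h4 := norm_sub_norm_le (P d (J + 1) (x⁻¹ * β x)) (Z x)
    have h5 := norm_sub_norm_le (Z x) (P d (J + 1) (x⁻¹ * β x))
    rw [norm_sub_rev] at h4
    constructor <;> linarith
  refine ⟨hfst, ?_⟩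
  have hX : X ∈ ball X r := mem_ball_self hr
  have hXn : 0 < ‖X‖ := norm_pos_iff.2 (hx0 X hX)
  have hX1 : ‖X‖ ≤ 1 := (hb X hX).2.trans hρ₂.le
  obtain ⟨H, hH⟩ : ∃ H : ℂ → ℂ, H = fun x => x ^ (d ^ J) * Z x := ⟨_, rfl⟩
  have hHn : ∀ x ∈ ball X r, p₀ / 2 ≤ ‖H x‖ ∧ ‖H x‖ ≤ 3 := by
    intro x hx
    obtain ⟨h1, h2⟩ := hfst x hx
    have hxn : 0 < ‖x‖ := norm_pos_iff.2 (hx0 x hx)
    have h3 : ‖H x‖ = ‖x‖ ^ (d ^ J) * ‖Z x‖ := by rw [hH]; simp only; rw [norm_mul, norm_pow]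
    have h4 : ‖x‖ ^ (d ^ J) * (‖x‖⁻¹) ^ (d ^ J) = 1 := by
      rw [← mul_pow, mul_inv_cancel₀ hxn.ne', one_pow]
    have h5 : 0 < ‖x‖ ^ (d ^ J) := by positivity
    rw [h3]
    constructor
    · calc p₀ / 2 = ‖x‖ ^ (d ^ J) * (p₀ / 2 * (‖x‖⁻¹) ^ (d ^ J)) := by
            rw [mul_left_comm, h4, mul_one]
        _ ≤ _ := by gcongr
    · calc ‖x‖ ^ (d ^ J) * ‖Z x‖ ≤ ‖x‖ ^ (d ^ J) * (3 * (‖x‖⁻¹) ^ (d ^ J)) := by gcongr
        _ = 3 := by rw [mul_left_comm, h4, mul_one]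
  have hHd : DifferentiableOn ℂ H (ball X r) := by
    rw [hH]
    exact (differentiableOn_id.pow _).mul hZ
  have hS := Pool.Agent.W746.LD.schwarz_log (F := H) (a := X) (r := r) (B := 4) hr hHd
    (fun t ht h => by
      have := (hHn t ht).1
      rw [h, norm_zero] at this
      linarith) (fun t ht => by linarith [(hHn t ht).2])
  have hHX : 0 < ‖H X‖ := lt_of_lt_of_le (by positivity) (hHn X hX).1
  have hlog : Real.log (4 / ‖H X‖) ≤ Real.log (8 / p₀) := by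
    apply Real.log_le_log (by positivity)
    rw [div_le_div_iff₀ hHX hp₀]
    linarith [(hHn X hX).1]
  have hS' : ‖deriv H X‖ ≤ 2 / r * Real.log (8 / p₀) * ‖H X‖ := by
    have h1 : ‖deriv H X‖ * r ≤ 2 * ‖H X‖ * Real.log (8 / p₀) := hS.trans (by gcongr)
    rw [← le_div_iff₀ hr] at h1
    refine h1.trans (le_of_eq ?_)
    ring
  have hZX : DifferentiableAt ℂ Z X := hZ.differentiableAt (isOpen_ball.mem_nhds hX)
  have hderiv : deriv H X = (d ^ J : ℕ) * X ^ (d ^ J - 1) * Z X + X ^ (d ^ J) * deriv Z X := by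
    have h1 : HasDerivAt H ((d ^ J : ℕ) * X ^ (d ^ J - 1) * Z X + X ^ (d ^ J) * deriv Z X) X := by
      rw [hH]
      exact (hasDerivAt_pow _ X).mul hZX.hasDerivAt
    exact h1.deriv
  have hHX' : ‖H X‖ = ‖X‖ ^ (d ^ J) * ‖Z X‖ := by rw [hH]; simp only; rw [norm_mul, norm_pow]
  have h1 : ‖((d ^ J : ℕ) : ℂ) * X ^ (d ^ J - 1) * Z X‖ ≤ ‖deriv H X‖ +
      ‖X‖ ^ (d ^ J) * ‖deriv Z X‖ := by
    have h2 : ((d ^ J : ℕ) : ℂ) * X ^ (d ^ J - 1) * Z X = deriv H X - X ^ (d ^ J) * deriv Z X := by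
      rw [hderiv]; ring
    rw [h2]
    refine (norm_sub_le _ _).trans ?_
    rw [norm_mul, norm_pow]
  have h2 : (d : ℝ) ^ J * ‖X‖ ^ (d ^ J) * ‖Z X‖ ≤ ‖((d ^ J : ℕ) : ℂ) * X ^ (d ^ J - 1) * Z X‖ := by
    rw [norm_mul, norm_mul, norm_pow, Complex.norm_natCast, Nat.cast_pow]
    have h3 : ‖X‖ ^ (d ^ J) ≤ ‖X‖ ^ (d ^ J - 1) :=
      pow_le_pow_of_le_one (norm_nonneg _) hX1 (Nat.sub_le _ _)
    gcongr
  rw [hHX'] at hS'
  have h5 : 0 < ‖X‖ ^ (d ^ J) := by positivity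
  have h6 : ‖X‖ ^ (d ^ J) * (((d : ℝ) ^ J - 2 / r * Real.log (8 / p₀)) * ‖Z X‖) ≤
      ‖X‖ ^ (d ^ J) * ‖deriv Z X‖ := by
    nlinarith
  exact le_of_mul_le_mul_left h6 h5

/-- comparison of derivatives -/
theorem deriv_low {F u k : ℂ → ℂ} {X : ℂ} {a b r : ℝ} (hr : 0 < r) (hF : DifferentiableAt ℂ F X)
    (hu : DifferentiableAt ℂ u X) (hk : DifferentiableAt ℂ k X)
    (h : ∀ x ∈ ball X r, a * ‖u x - u X‖ - b * ‖k x - k X‖ ≤ ‖F x - F X‖) :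
    a * ‖deriv u X‖ - b * ‖deriv k X‖ ≤ ‖deriv F X‖ := by
  have hs : ∀ {g : ℂ → ℂ}, DifferentiableAt ℂ g X →
      Tendsto (fun x => ‖slope g X x‖) (𝓝[≠] X) (𝓝 ‖deriv g X‖) := fun hg =>
    (hasDerivAt_iff_tendsto_slope.1 hg.hasDerivAt).norm
  refine le_of_tendsto_of_tendsto (((hs hu).const_mul a).sub ((hs hk).const_mul b)) (hs hF) ?_
  have h1 : ball X r ∈ 𝓝[≠] X := mem_nhdsWithin_of_mem_nhds (ball_mem_nhds _ hr)
  filter_upwards [h1, self_mem_nhdsWithin] with x hx hxX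
  have hx0 : 0 < ‖x - X‖ := norm_pos_iff.2 (sub_ne_zero.2 hxX)
  have h2 := h x hx
  have e : ∀ g : ℂ → ℂ, ‖slope g X x‖ = ‖g x - g X‖ / ‖x - X‖ := by
    intro g
    rw [slope_def_field, norm_div]
  rw [e, e, e]
  rw [← mul_div_assoc, ← mul_div_assoc, ← sub_div]
  gcongr

end Pool.Agent.H206.Hair
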