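import Pool.Agent.H206.HairD

set_option autoImplicit false

/-! # A superattracting parameter near a parameter which escapes slowly -/

namespace Pool.Agent.H206.Hair

open Filter Topology Set Metric
open Pool.Agent.H712R2 (P fc P_zero P_succ mem_multibrot_iff P_one)
open Pool.Agent.H713R2 (IsBeta differentiable_P)
open Pool.Agent.TH279.MD Pool.Agent.Y298.SH.CD Pool.Agent.Y298.CA Pool.Agent.N772.ST

theorem P_zo (d M j : ℕ) (c : ℂ) : P d (M + 1 + j) c = zo d c (P d M c ^ d) j := by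
  induction j with
  | zero => rw [zo_zero, add_zero, P_succ, add_comm]
  | succ j ih => rw [zo_succ, ← ih, ← add_assoc, P_succ]

/-- **One step.** -/
theorem step {d : ℕ} (hd : 2 ≤ d) {c₀ : ℂ} {C₂ : ℝ} (hC₂ : 1 ≤ C₂)
    (hP : ∀ j, 0 < Pd d c₀ j) (hz : ∀ j, zz d c₀ j ≠ 0) (hz2 : ∀ j, ‖zz d c₀ j‖ ≤ 2)
    (hW : ∀ N : ℕ, ∑ j ∈ Finset.range (N + 1), ‖Wp d c₀ N j‖ ≤ C₂ * Pd d c₀ N)
    {χ : ℝ} (hχ : 0 < χ) {b : ℝ} (hb0 : 0 < b) (hb1 : 256 * d * C₂ * b ≤ χ)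
    (hb2 : 16 * C₂ * b ≤ 1) {j : ℕ} {a : ℝ} (ha : a = Pd d c₀ j / ‖zz d c₀ j‖)
    (hj : ∑ i ∈ Finset.range j, Pd d c₀ i / ‖zz d c₀ i‖ ≤ (2 / χ) * a) {M : ℕ} {k : ℂ → ℂ}
    {X : ℂ} (hk : ∀ᶠ x in 𝓝 X, DifferentiableAt ℂ k x) (hkX : ‖k X - c₀‖ < 2 * b / a)
    (hu : ‖P d M (k X)‖ ^ d = b / a) {E : ℝ} (hE : 0 < E)
    (hD : E * ‖P d M (k X)‖ ≤ ‖deriv (fun x => P d M (k x)) X‖) (h3 : ‖k X‖ ≤ 3)
    (hk' : 4 * C₂ * a * ‖deriv k X‖ ≤ E * b) :
    ∃ c' : ℂ, P d (M + j + 1) c' = 0 ∧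
      ‖c' - k X‖ * (E * b) ≤ 2 * KN * (2 + |Real.log ‖zz d c₀ j‖|) * ‖deriv k X‖ := by
  have hdR : (2 : ℝ) ≤ d := by exact_mod_cast hd
  have hPj := hP j
  have hzj : 0 < ‖zz d c₀ j‖ := norm_pos_iff.2 (hz j)
  have ha0 : 0 < a := by rw [ha]; positivity
  have haz : a * ‖zz d c₀ j‖ = Pd d c₀ j := by rw [ha]; field_simp
  obtain ⟨t, ht⟩ : ∃ t, t = 2 * b / a := ⟨_, rfl⟩
  have ht0 : 0 < t := by rw [ht]; positivity
  have hta : t * a = 2 * b := by rw [ht]; field_simp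
  have hpas : 64 * d * C₂ * (t * ∑ i ∈ Finset.range j, Pd d c₀ i / ‖zz d c₀ i‖) ≤ 1 := by
    calc 64 * d * C₂ * (t * ∑ i ∈ Finset.range j, Pd d c₀ i / ‖zz d c₀ i‖)
        ≤ 64 * d * C₂ * (t * ((2 / χ) * a)) := by gcongr
      _ = 256 * d * C₂ * b / χ := by
          rw [show t * (2 / χ * a) = 2 / χ * (t * a) by ring, hta]
          ring
      _ ≤ 1 := by
          rw [div_le_one hχ]
          exact hb1
  obtain ⟨p1, p2⟩ := passage hd hC₂ hP hz hW ht0 hpas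
  have hkdX : DifferentiableAt ℂ k X := hk.self_of_nhds
  have hG : ∀ N : ℕ, DifferentiableAt ℂ (fun x => P d N (k x)) X := fun N =>
    (differentiable_P d N (k X)).comp X hkdX
  obtain ⟨u, hu'⟩ : ∃ u : ℂ → ℂ, u = fun x => P d M (k x) ^ d := ⟨_, rfl⟩
  obtain ⟨F, hF⟩ : ∃ F : ℂ → ℂ, F = fun x => P d (M + j + 1) (k x) := ⟨_, rfl⟩
  have hFz : ∀ x, F x = zo d (k x) (u x) j := by
    intro x
    rw [hF, hu']
    simp only
    rw [← P_zo, add_right_comm]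
  have huX : ‖u X‖ = b / a := by rw [hu']; simp only; rw [norm_pow, hu]
  have hba : b / a < t := by
    rw [ht]
    apply div_lt_div_of_pos_right _ ha0
    linarith
  have hud : DifferentiableAt ℂ u X := by rw [hu']; exact (hG M).pow d
  have hFd : DifferentiableAt ℂ F X := by rw [hF]; exact hG _
  -- near `X`
  have hnear : ∀ᶠ x in 𝓝 X, ‖k x - c₀‖ < t ∧ ‖u x‖ < t := by
    have h1 : Tendsto (fun x => ‖k x - c₀‖) (𝓝 X) (𝓝 ‖k X - c₀‖) :=
      (hkdX.continuousAt.sub continuousAt_const).norm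
    have h2 : Tendsto (fun x => ‖u x‖) (𝓝 X) (𝓝 ‖u X‖) := hud.continuousAt.norm
    exact (h1.eventually (gt_mem_nhds (by rw [ht]; exact hkX))).and
      (h2.eventually (gt_mem_nhds (by rw [huX]; exact hba)))
  obtain ⟨r, hr, hball⟩ := Metric.eventually_nhds_iff_ball.1 hnear
  have hX := hball X (mem_ball_self hr)
  have hlow := deriv_low (F := F) (u := u) (k := k) (X := X) (a := 3 / 4 * Pd d c₀ j)
    (b := 2 * C₂ * Pd d c₀ j) hr hFd hud hkdX (fun x hx => by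
      have h1 := hball x hx
      have h2 := p2 (k x) (u x) (k X) (u X) h1.1.le h1.2.le hX.1.le hX.2.le
      rw [hFz, hFz]
      exact h2)
  -- the derivative of `u`
  have hud' : deriv u X = d * P d M (k X) ^ (d - 1) * deriv (fun x => P d M (k x)) X := by
    rw [hu']
    exact (hG M).hasDerivAt.pow d |>.deriv
  have hun : 2 * E * (b / a) ≤ ‖deriv u X‖ := by
    rw [hud', norm_mul, norm_mul, norm_pow, Complex.norm_natCast]
    calc 2 * E * (b / a) = 2 * ‖P d M (k X)‖ ^ (d - 1) * (E * ‖P d M (k X)‖) := by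
          rw [← hu]
          have : ‖P d M (k X)‖ ^ d = ‖P d M (k X)‖ ^ (d - 1) * ‖P d M (k X)‖ := by
            rw [← pow_succ, Nat.sub_add_cancel (by omega)]
          rw [this]
          ring
      _ ≤ d * ‖P d M (k X)‖ ^ (d - 1) * ‖deriv (fun x => P d M (k x)) X‖ := by gcongr
  have hFn : E * b * ‖zz d c₀ j‖ ≤ ‖deriv F X‖ := by
    refine le_trans ?_ hlow
    have h1 : 3 / 4 * Pd d c₀ j * (2 * E * (b / a)) ≤ 3 / 4 * Pd d c₀ j * ‖deriv u X‖ := by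
      gcongr
    have h2 : 3 / 4 * Pd d c₀ j * (2 * E * (b / a)) = 3 / 2 * (E * b * ‖zz d c₀ j‖) := by
      rw [← haz]
      field_simp
      ring
    have h3 : 2 * C₂ * Pd d c₀ j * ‖deriv k X‖ ≤ 1 / 2 * (E * b * ‖zz d c₀ j‖) := by
      rw [← haz]
      calc 2 * C₂ * (a * ‖zz d c₀ j‖) * ‖deriv k X‖ =
            1 / 2 * (4 * C₂ * a * ‖deriv k X‖) * ‖zz d c₀ j‖ := by ring
        _ ≤ 1 / 2 * (E * b) * ‖zz d c₀ j‖ := by gcongr
        _ = _ := by ring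
    linarith
  have hFc : deriv F X = deriv (P d (M + j + 1)) (k X) * deriv k X := by
    rw [hF]
    exact ((differentiable_P d (M + j + 1) (k X)).hasDerivAt.comp X hkdX.hasDerivAt).deriv
  rw [hFc, norm_mul] at hFn
  -- the value
  have hval := p1 (k X) (u X) hX.1.le hX.2.le
  rw [← hFz] at hval
  have hval2 : ‖F X - zz d c₀ j‖ ≤ 1 / 2 * ‖zz d c₀ j‖ := by
    refine hval.trans ?_
    rw [← haz]
    calc 4 * C₂ * t * (a * ‖zz d c₀ j‖) = 4 * C₂ * (t * a) * ‖zz d c₀ j‖ := by ring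
      _ = 1 / 2 * (16 * C₂ * b) * ‖zz d c₀ j‖ := by rw [hta]; ring
      _ ≤ 1 / 2 * 1 * ‖zz d c₀ j‖ := by gcongr
      _ = _ := by ring
  have hF1 : ‖F X‖ ≤ 3 / 2 * ‖zz d c₀ j‖ := by
    have h1 := norm_add_le (F X - zz d c₀ j) (zz d c₀ j)
    rw [sub_add_cancel] at h1
    linarith
  have hF2 : 1 / 2 * ‖zz d c₀ j‖ ≤ ‖F X‖ := by
    have h1 := norm_sub_norm_le (zz d c₀ j) (F X)
    rw [norm_sub_rev] at h1
    linarith
  have hFX : F X = P d (M + j + 1) (k X) := by rw [hF]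
  have hlog : |Real.log ‖F X‖| ≤ 1 + |Real.log ‖zz d c₀ j‖| := by
    have hF0 : 0 < ‖F X‖ := by linarith [hzj]
    have h1 := Real.log_le_log hF0 hF1
    have h2 := Real.log_le_log (by positivity) hF2
    rw [Real.log_mul (by norm_num) hzj.ne'] at h1 h2
    have h3 : Real.log (3 / 2) ≤ 1 := by
      have := Real.log_le_sub_one_of_pos (show (0 : ℝ) < 3 / 2 by norm_num)
      linarith
    have h4 : -1 ≤ Real.log (1 / 2) := by
      rw [one_div, Real.log_inv]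
      have := Real.log_le_sub_one_of_pos (show (0 : ℝ) < 2 by norm_num)
      linarith
    rw [abs_le]
    have h5 := neg_abs_le (Real.log ‖zz d c₀ j‖)
    have h6 := le_abs_self (Real.log ‖zz d c₀ j‖)
    constructor <;> linarith
  obtain ⟨c', hc', hnew⟩ := newton (N := M + j) hd (c := k X) (by
    rw [← hFX]
    linarith [hz2 j]) h3
  refine ⟨c', hc', ?_⟩
  rw [← hFX] at hnew
  have hKN := KN_pos
  have h5 : ‖c' - k X‖ * ‖deriv (P d (M + j + 1)) (k X)‖ ≤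
      2 * KN * (2 + |Real.log ‖zz d c₀ j‖|) * ‖zz d c₀ j‖ := by
    refine hnew.trans ?_
    calc KN * ‖F X‖ * (1 + |Real.log ‖F X‖|) ≤
          KN * (2 * ‖zz d c₀ j‖) * (1 + (1 + |Real.log ‖zz d c₀ j‖|)) := by
            gcongr
            linarith
      _ = _ := by ring
  have h6 : ‖c' - k X‖ * (E * b) * ‖zz d c₀ j‖ ≤
      2 * KN * (2 + |Real.log ‖zz d c₀ j‖|) * ‖deriv k X‖ * ‖zz d c₀ j‖ := by
    calc ‖c' - k X‖ * (E * b) * ‖zz d c₀ j‖ = ‖c' - k X‖ * (E * b * ‖zz d c₀ j‖) := by ring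
      _ ≤ ‖c' - k X‖ * (‖deriv (P d (M + j + 1)) (k X)‖ * ‖deriv k X‖) := by gcongr
      _ = ‖c' - k X‖ * ‖deriv (P d (M + j + 1)) (k X)‖ * ‖deriv k X‖ := by ring
      _ ≤ 2 * KN * (2 + |Real.log ‖zz d c₀ j‖|) * ‖zz d c₀ j‖ * ‖deriv k X‖ := by gcongr
      _ = _ := by ring
  exact le_of_mul_le_mul_right h6 hzj

/-- **The choice of the times.** -/
theorem times {d : ℕ} (hd : 2 ≤ d) {Y g₀ q δ₃ : ℝ} (hY : 0 < Y) (hg₀ : 0 < g₀) (hq1 : 1 < q)
    (hq2 : q ^ 2 ≤ 2) (hδ₃ : 0 < δ₃) (hδq : δ₃ * (q * (1 + d)) ≤ (q - 1) * Y) {n : ℝ} (hn : 0 < n)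
    (hn1 : q * g₀ ≤ (Y - δ₃) * n) :
    ∃ J : ℕ, ∃ v₁ v₂ : ℝ, d ^ J * g₀ ≤ v₁ ∧ (Y / d + δ₃) * n ≤ v₁ ∧ v₂ ≤ d ^ J * (q ^ 3 * g₀) ∧
      v₂ ≤ (Y - δ₃) * n ∧ q * v₁ ≤ v₂ ∧ (Y - δ₃) * n ≤ q * (d * d ^ J * g₀) := by
  have hdR : (2 : ℝ) ≤ d := by exact_mod_cast hd
  have hq0 : 0 < q := by linarith
  have hσ : 0 < Y - δ₃ := by
    by_contra h
    push Not at h
    nlinarith
  have h1 : (1 : ℝ) ≤ (Y - δ₃) * n / (q * g₀) := by
    rw [le_div_iff₀ (by positivity)]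
    linarith
  obtain ⟨J, hJ1, hJ2⟩ := exists_nat_pow_near h1 (show (1 : ℝ) < d by linarith)
  rw [le_div_iff₀ (by positivity)] at hJ1
  rw [div_lt_iff₀ (by positivity)] at hJ2
  have hJ0 : (0 : ℝ) < d ^ J := by positivity
  have hb : d * (Y / d + δ₃) ≤ q * (Y - δ₃) := by
    have h2 : d * (Y / d + δ₃) = Y + d * δ₃ := by field_simp
    rw [h2]
    have h3 : δ₃ * (d + q) ≤ δ₃ * (q * (1 + d)) := by
      apply mul_le_mul_of_nonneg_left _ hδ₃.le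
      nlinarith
    linarith
  have hσ1 : 0 < Y / d + δ₃ := by positivity
  refine ⟨J, max (d ^ J * g₀) ((Y / d + δ₃) * n), min (d ^ J * (q ^ 3 * g₀)) ((Y - δ₃) * n),
    le_max_left _ _, le_max_right _ _, min_le_left _ _, min_le_right _ _, ?_, ?_⟩
  · rw [mul_max_of_nonneg _ _ hq0.le]
    apply max_le <;> apply le_min
    · have h3 : q ≤ q ^ 3 := le_self_pow₀ hq1.le (by norm_num)
      calc q * (d ^ J * g₀) = d ^ J * (q * g₀) := by ring
        _ ≤ d ^ J * (q ^ 3 * g₀) := by gcongr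
    · calc q * (d ^ J * g₀) = d ^ J * (q * g₀) := by ring
        _ ≤ _ := hJ1
    · have h4 : d * ((Y / d + δ₃) * n) ≤ q * (d ^ (J + 1) * (q * g₀)) := by
        calc d * ((Y / d + δ₃) * n) = (d * (Y / d + δ₃)) * n := by ring
          _ ≤ (q * (Y - δ₃)) * n := by gcongr
          _ = q * ((Y - δ₃) * n) := by ring
          _ ≤ _ := by gcongr
      have h5 : d * (q * ((Y / d + δ₃) * n)) ≤ d * (d ^ J * (q ^ 3 * g₀)) := by
        calc d * (q * ((Y / d + δ₃) * n)) = q * (d * ((Y / d + δ₃) * n)) := by ring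
          _ ≤ q * (q * (d ^ (J + 1) * (q * g₀))) := by gcongr
          _ = _ := by ring
      exact le_of_mul_le_mul_left h5 (by linarith)
    · have h6 : q * q ≤ d := by nlinarith
      have h7 : q * (q * (Y / d + δ₃)) ≤ q * (Y - δ₃) := by
        calc q * (q * (Y / d + δ₃)) = (q * q) * (Y / d + δ₃) := by ring
          _ ≤ d * (Y / d + δ₃) := by gcongr
          _ ≤ _ := hb
      have h8 := le_of_mul_le_mul_left h7 hq0
      calc q * ((Y / d + δ₃) * n) = q * (Y / d + δ₃) * n := by ring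
        _ ≤ _ := by gcongr
  · have : (d : ℝ) ^ (J + 1) * (q * g₀) = q * (d * d ^ J * g₀) := by ring
    linarith

end Pool.Agent.H206.Hair
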