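import Pool.Graph.R_seed8.R240.LL2
import Pool.Graph.R_seed8.R240.ExtLog
import Pool.Graph.R_seed8.Y736.HG7
import Pool.Agent.H206.HairD
import Pool.Agent.H206.HairE

set_option autoImplicit false

/-! # Zeros, means and harmonic measure -/

namespace Pool.Agent.H206.Gre

open Filter Topology Set Metric MeasureTheory
open N62a1eb23
open Pool.Agent.H712R2 (P fc P_zero P_succ mem_multibrot_iff P_one)
open Pool.Agent.H713R2 (IsBeta differentiable_P exists_beta IsExteriorMap)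
open Pool.Agent.R240 (P_at_zero SH SH_one disc_step)
open Pool.Agent.R240.LL
open Pool.Agent.Y736.HD Pool.Agent.Y736.HG
open Pool.Agent.H206.Hair
open Real (posLog circleAverage)

/-- the constant -/
noncomputable def KS : ℝ := (2 + SH 25) * (5 / 4) * 3

theorem KS_pos : 0 < KS := by
  have h1 := one_le_SH
  unfold KS
  positivity

/-- **Schottky's theorem near a parameter.** -/
theorem schott {d N : ℕ} (hd : 2 ≤ d) {c : ℂ} (hc : ‖P d (N + 1) c‖ ≤ 3) (hc2 : ‖c‖ ≤ 3) {ρ : ℝ}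
    (hρ0 : 0 < ρ) (hfree : ∀ x ∈ ball c ρ, P d (N + 1) x ≠ 0) :
    ∀ x ∈ ball c (ρ / 4), ‖P d (N + 1) x‖ < KS := by
  have hρc : ρ ≤ ‖c‖ := by
    by_contra hcon
    push Not at hcon
    refine hfree 0 ?_ (P_at_zero hd _)
    rw [mem_ball, dist_comm, dist_zero_right]
    exact hcon
  have hc0 : 0 < ‖c‖ := hρ0.trans_le hρc
  -- the initial bound
  have hA : ‖P d N c‖ ^ d ≤ 25 * ‖c‖ := by
    rcases le_total ‖c‖ (1 / 8) with h | h
    · have h1 := Pool.Agent.R240.P_small hd h N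
      have h2 : ‖P d N c‖ ^ d ≤ ‖P d N c‖ ^ 2 :=
        pow_le_pow_of_le_one (norm_nonneg _) (by linarith) hd
      nlinarith [norm_nonneg (P d N c)]
    · have h1 : P d N c ^ d = P d (N + 1) c - c := by
        rw [P_succ]; ring
      rw [← norm_pow, h1]
      refine (norm_sub_le _ _).trans ?_
      linarith
  intro x hx
  rw [mem_ball, dist_eq_norm] at hx
  have hρC : (ρ : ℂ) ≠ 0 := by exact_mod_cast hρ0.ne'
  have h1 := disc_step (N := N) hd (γ := fun t => c + ρ * t) (by fun_prop) (fun t ht => by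
    rw [mem_ball_zero_iff] at ht
    apply hfree
    rw [mem_ball, dist_eq_norm, add_sub_cancel_left, norm_mul, Complex.norm_real,
      Real.norm_eq_abs, abs_of_pos hρ0]
    nlinarith) (A := 25) (by norm_num) (by simpa using hA) (t := (x - c) / ρ) (by
    rw [norm_div, Complex.norm_real, Real.norm_eq_abs, abs_of_pos hρ0, div_le_iff₀ hρ0]
    linarith)
  have h2 : c + ρ * ((x - c) / ρ) = x := by
    field_simp
    ring
  simp only [h2] at h1
  have h3 : ‖x‖ ≤ 5 / 4 * ‖c‖ := by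
    have h4 := norm_add_le (x - c) c
    rw [sub_add_cancel] at h4
    linarith
  have h4 : ‖P d (N + 1) x‖ ≤ ‖P d N x‖ ^ d + ‖x‖ := by
    rw [P_succ]
    refine (norm_add_le _ _).trans ?_
    rw [norm_pow]
  have h5 := one_le_SH
  have h6 : SH 25 * ‖x‖ ≤ SH 25 * (5 / 4 * ‖c‖) := by gcongr
  have h7 : (2 + SH 25) * (5 / 4) * ‖c‖ ≤ KS := by
    unfold KS
    gcongr
  nlinarith

/-- **A superattracting parameter nearby.** -/
theorem zero_near {d N : ℕ} (hd : 2 ≤ d) {c x : ℂ} (hc : ‖P d (N + 1) c‖ ≤ 3) (hc2 : ‖c‖ ≤ 3)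
    {ρ : ℝ} (hρ0 : 0 < ρ) (hx : ‖x - c‖ < ρ / 4)
    (h : 8 * KS * ‖x - c‖ < ρ * ‖P d (N + 1) x - P d (N + 1) c‖) :
    ∃ a, ‖a - c‖ < ρ ∧ P d (N + 1) a = 0 := by
  by_contra hcon
  push Not at hcon
  have hb := schott hd hc hc2 hρ0 (fun x hx => hcon x (by rwa [mem_ball, dist_eq_norm] at hx))
  have h1 := Complex.dist_le_div_mul_dist_of_mapsTo_ball (f := P d (N + 1)) (c := c) (z := x)
    (R₁ := ρ / 4) (R₂ := 2 * KS) (differentiable_P d (N + 1)).differentiableOn (fun z hz => by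
      rw [mem_closedBall, dist_eq_norm]
      refine (norm_sub_le _ _).trans ?_
      have h2 := hb z hz
      have h3 := hb c (mem_ball_self (by positivity))
      linarith) (by rw [mem_ball, dist_eq_norm]; exact hx)
  rw [dist_eq_norm, dist_eq_norm] at h1
  have h2 : 2 * KS / (ρ / 4) * ‖x - c‖ = 8 * KS * ‖x - c‖ / ρ := by field_simp; ring
  rw [h2, le_div_iff₀ hρ0] at h1
  linarith

/-- the mean is at least the value at the centre -/
theorem avg_center {d : ℕ} (hd : 2 ≤ d) (N : ℕ) {c : ℂ} {ρ : ℝ} (hρ : 0 < ρ)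
    (hne : ∀ a ∈ ZZ d N, ‖a - c‖ ≠ ρ) (h0 : P d (N + 1) c ≠ 0) :
    Real.log ‖P d (N + 1) c‖ ≤ circleAverage (fun z => Real.log ‖P d (N + 1) z‖) c ρ := by
  rw [jensen hd N hρ hne, P_prod hd N c, norm_mul, norm_prod]
  have hl : ‖(Pool.Agent.H712R2.PP d (N + 1)).leadingCoeff‖ ≠ 0 := by
    rw [norm_ne_zero_iff, Polynomial.leadingCoeff_ne_zero]
    exact PP_ne hd N
  have hac : ∀ a ∈ ZZ d N, ‖c - a‖ ≠ 0 := by
    intro a ha h
    rw [norm_eq_zero, sub_eq_zero] at h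
    exact h0 (h ▸ (mem_ZZ hd).1 ha)
  rw [Real.log_mul hl (Finset.prod_ne_zero_iff.2 hac), Real.log_prod hac]
  apply add_le_add_right
  apply Finset.sum_le_sum
  intro a ha
  have h1 : 0 < ‖a - c‖ := by
    rw [norm_sub_rev]
    exact (norm_nonneg _).lt_of_ne (hac a ha).symm
  rw [tl hρ h1, norm_sub_rev]
  exact le_max_right _ _

/-- **Jensen's inequality with one zero.** -/
theorem avg_low {d : ℕ} (hd : 2 ≤ d) (N : ℕ) {c a : ℂ} {ρ₁ ρ₂ : ℝ} (hρ₁ : 0 < ρ₁)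
    (h12 : 4 * ρ₁ ≤ ρ₂) (h0 : P d (N + 1) c ≠ 0) (ha : P d (N + 1) a = 0) (hac : ‖a - c‖ < ρ₁) :
    ∃ ρ, ρ₂ / 2 < ρ ∧ ρ < ρ₂ ∧ Real.log ‖P d (N + 1) c‖ + Real.log (ρ₂ / (4 * ρ₁)) ≤
      circleAverage (fun z => Real.log ‖P d (N + 1) z‖) c ρ := by
  have hρ₂ : 0 < ρ₂ := by linarith
  obtain ⟨r₁, h1, h2, h3⟩ := good (ZZ d N) c (α := ρ₁) hρ₁
  obtain ⟨r₂, h4, h5, h6⟩ := good (ZZ d N) c (α := ρ₂ / 2) (half_pos hρ₂)
  have hne1 : ∀ a ∈ ZZ d N, ‖a - c‖ ≠ r₁ := by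
    intro a ha h
    have := h3 a ha
    rw [h, sub_self, abs_zero] at this
    have h7 : 0 < ρ₁ / (2 * ((ZZ d N).card + 1)) := by positivity
    linarith
  have hne2 : ∀ a ∈ ZZ d N, ‖a - c‖ ≠ r₂ := by
    intro a ha h
    have := h6 a ha
    rw [h, sub_self, abs_zero] at this
    have h7 : 0 < ρ₂ / 2 / (2 * ((ZZ d N).card + 1)) := by positivity
    linarith
  have hr1 : 0 < r₁ := by linarith
  have hr12 : r₁ < r₂ := by linarith
  have h7 := (jen_diff hd N hr1 hr12 hne1 hne2).1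
  have h8 := avg_center hd N hr1 hne1 h0
  have h9 : (1 : ℝ) ≤ ((ZZ d N).filter (fun a => ‖a - c‖ < r₁)).card := by
    have : 0 < ((ZZ d N).filter (fun a => ‖a - c‖ < r₁)).card :=
      Finset.card_pos.2 ⟨a, Finset.mem_filter.2 ⟨(mem_ZZ hd).2 ha, by linarith⟩⟩
    exact_mod_cast this
  have h10 : Real.log (ρ₂ / (4 * ρ₁)) ≤ Real.log (r₂ / r₁) := by
    apply Real.log_le_log (by positivity)
    rw [div_le_div_iff₀ (by positivity) hr1]
    nlinarith
  have h11 : 0 ≤ Real.log (r₂ / r₁) := Real.log_nonneg (by rw [le_div_iff₀ hr1]; linarith)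
  refine ⟨r₂, h4, by linarith, ?_⟩
  nlinarith

/-- **Green's function from below.** -/
theorem green_of_avg {d : ℕ} (hd : 2 ≤ d) {ψ : ℂ → ℂ} (hψ : IsExteriorMap (multibrotSet d) ψ) {c : ℂ}
    {ρ K : ℝ} (hρ : 0 < ρ) {N : ℕ} (hK : Real.log 2 / (d - 1) + 2 ≤ K)
    (h : K ≤ circleAverage (fun z => Real.log ‖P d (N + 1) z‖) c ρ) :
    ∃ w : ℂ, 1 < ‖w‖ ∧ ‖ψ w - c‖ = ρ ∧ 1 / (d : ℝ) ^ N ≤ Real.log ‖w‖ := by
  have hdR : (2 : ℝ) ≤ d := by exact_mod_cast hd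
  have hd1 : (1 : ℝ) ≤ (d : ℝ) - 1 := by linarith
  have hl2 : 0 < Real.log 2 := Real.log_pos (by norm_num)
  have hl0 : 0 ≤ Real.log 2 / ((d : ℝ) - 1) := by positivity
  obtain ⟨z, hz, hz2⟩ : ∃ z, ‖z - c‖ = ρ ∧ K - 1 < Real.log ‖P d (N + 1) z‖ := by
    by_contra hcon
    push Not at hcon
    have h1 := Real.circleAverage_mono_on_of_le_circle (a := K - 1) (ci_P (d := d) N c ρ)
      (fun z hz => hcon z (by rwa [abs_of_pos hρ, mem_sphere, dist_eq_norm] at hz))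
    linarith
  have hP : Real.exp 1 < ‖P d (N + 1) z‖ := by
    have hpos : 0 < ‖P d (N + 1) z‖ := by
      rw [norm_pos_iff]
      intro h0
      rw [h0, norm_zero, Real.log_zero] at hz2
      linarith
    rw [← Real.lt_log_iff_exp_lt hpos]
    linarith
  have hzM : z ∉ multibrotSet d := by
    intro hzM
    have h1 := (mem_multibrot_iff hd z).1 hzM (N + 1)
    have h2 := Real.exp_one_gt_d9
    linarith
  have hzi : z ∈ ψ '' {w | 1 < ‖w‖} := by
    rw [hψ.image]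
    exact hzM
  obtain ⟨w, hw, rfl⟩ := hzi
  refine ⟨w, hw, hz, ?_⟩
  have h1 := Pool.Agent.R240.Ext.green_up hd hψ N hw
  rw [div_le_iff₀ (by positivity)]
  linarith

/-- **Harmonic measure from below.** -/
theorem vol_of_avg {d : ℕ} (hd : 2 ≤ d) {ψ : ℂ → ℂ} (hψ : IsExteriorMap (multibrotSet d) ψ) {c : ℂ}
    (hc : c ∈ multibrotSet d) {ρ' ρ r S K : ℝ} (hρ' : 0 < ρ') (hρ : ρ' < ρ) (hr : ρ < r)
    (hS0 : 0 ≤ S) (hS : ∀ w : ℂ, 1 < ‖w‖ → ‖ψ w - c‖ ≤ ρ' → Real.log ‖w‖ ≤ S) {N : ℕ}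
    (h : K ≤ circleAverage (fun z => Real.log ‖P d (N + 1) z‖) c ρ) :
    (K - Real.log 2) / (d : ℝ) ^ N ≤
      Real.log (ρ / ρ') * ((volume (Ang ψ c r)).toReal / (2 * Real.pi)) + S := by
  obtain ⟨β, hβ⟩ := exists_beta (d := d) hd
  have hdR : (2 : ℝ) ≤ d := by exact_mod_cast hd
  have hD : (0 : ℝ) < (d : ℝ) ^ N := by positivity
  have hρ0 : 0 < ρ := hρ'.trans hρ
  obtain ⟨A, hA⟩ : ∃ A, A = Real.log (ρ / ρ') := ⟨_, rfl⟩
  have hA0 : 0 ≤ A := by
    rw [hA]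
    apply Real.log_nonneg
    rw [le_div_iff₀ hρ']
    linarith
  obtain ⟨V, hV⟩ : ∃ V, V = (volume (Ang ψ c r)).toReal / (2 * Real.pi) := ⟨_, rfl⟩
  rw [← hA, ← hV]
  have hlev : ∀ n, (K - Real.log 2) / (d : ℝ) ^ N + Real.log (sn n) ≤
      A * cm.real (DD ψ c ρ n) + S := by
    intro n
    have h1 := h.trans (pot_low hd hψ hc hρ0 N n)
    have h2 := TT_step hψ hc hρ' hρ n
    have h3 : TT ψ c ρ' n ≤ S := by
      rw [TT_eq hβ hψ]
      exact mean_le hβ hψ hc hρ' (sn_pos n) (sn_lt n) hS0 hS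
    rw [← hA] at h2
    have h4 : (K - Real.log 2) / (d : ℝ) ^ N + Real.log (sn n) ≤ TT ψ c ρ n := by
      rw [div_add' _ _ _ hD.ne', div_le_iff₀ hD]
      linarith
    linarith
  apply le_of_forall_pos_le_add
  intro η hη
  have h1 := DD_limsup hψ (ae_land hd hψ) c (ε := η / (2 * (A + 1))) hr (by positivity)
  have h2 : Tendsto (fun n => Real.log (sn n)) atTop (𝓝 0) := by
    have h3 := (Real.continuousAt_log one_ne_zero).tendsto.comp sn_lim
    rwa [Real.log_one] at h3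
  obtain ⟨n, h3, h4⟩ := (h1.and (h2.eventually (lt_mem_nhds
    (show -(η / 2) < 0 by linarith)))).exists
  have h5 := hlev n
  rw [← hV] at h3
  have h6 : A * cm.real (DD ψ c ρ n) ≤ A * V + η / 2 := by
    calc A * cm.real (DD ψ c ρ n) ≤ A * (V + η / (2 * (A + 1))) := by gcongr
      _ = A * V + A / (A + 1) * (η / 2) := by field_simp
      _ ≤ A * V + 1 * (η / 2) := by
          gcongr
          rw [div_le_one (by linarith)]
          linarith
      _ = _ := by rw [one_mul]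
  linarith

end Pool.Agent.H206.Gre
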