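import Pool.Agent.H206.MacA
import Pool.Agent.H206.HairB

set_option autoImplicit false

/-! # Macroscopic times of a parameter with a Lyapunov exponent -/

namespace Pool.Agent.H206.Mac

open Filter Topology Finset
open Pool.Agent.TH279.MD Pool.Agent.Y298.SH.CD Pool.Agent.Y298.CA Pool.Agent.N772.ST
open Pool.Agent.H206.Hair

/-- subexponential factors -/
theorem Gr_P {d : ℕ} {χ : ℝ} {c₀ : ℂ} (hP : ∀ j, 0 < Pd d c₀ j) (hz : ∀ j, 0 < ‖zz d c₀ j‖)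
    (hA : Gr χ (fun j => Pd d c₀ j / ‖zz d c₀ j‖))
    (hs : ∀ ε : ℝ, 0 < ε → ∃ C : ℝ, 0 ≤ C ∧ ∀ j : ℕ, |Real.log ‖zz d c₀ j‖| ≤ ε * j + C) :
    Gr χ (fun j => Pd d c₀ j) := by
  refine ⟨hP, fun ε hε => ?_⟩
  obtain ⟨C, hC, H⟩ := hA.2 (ε / 2) (half_pos hε)
  obtain ⟨C', hC', H'⟩ := hs (ε / 2) (half_pos hε)
  have hC0 : 0 < C := by linarith
  refine ⟨C * Real.exp C', by
    have := Real.one_le_exp hC'
    nlinarith, fun n => ?_⟩
  obtain ⟨h1, h2⟩ := H n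
  obtain ⟨h3, h4⟩ := abs_le.1 (H' n)
  have hzn := hz n
  have hPn := hP n
  have h5 : Real.exp (-(ε / 2 * n) - C') ≤ ‖zz d c₀ n‖ := by
    rw [← Real.le_log_iff_exp_le hzn]
    linarith
  have h6 : ‖zz d c₀ n‖ ≤ Real.exp (ε / 2 * n + C') := by
    rw [← Real.log_le_iff_le_exp hzn]
    linarith
  have e1 : Pd d c₀ n = Pd d c₀ n / ‖zz d c₀ n‖ * ‖zz d c₀ n‖ := by field_simp
  have h0 : 0 < Pd d c₀ n / ‖zz d c₀ n‖ := div_pos hPn hzn
  constructor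
  · calc Real.exp ((χ - ε) * n) = Real.exp ((χ - ε / 2) * n) * Real.exp (-(ε / 2 * n) - C') *
          Real.exp C' := by
          rw [← Real.exp_add, ← Real.exp_add]
          congr 1
          ring
      _ ≤ (C * (Pd d c₀ n / ‖zz d c₀ n‖)) * ‖zz d c₀ n‖ * Real.exp C' := by gcongr
      _ = C * Real.exp C' * Pd d c₀ n := by field_simp
  · calc Pd d c₀ n = Pd d c₀ n / ‖zz d c₀ n‖ * ‖zz d c₀ n‖ := e1
      _ ≤ (C * Real.exp ((χ + ε / 2) * n)) * Real.exp (ε / 2 * n + C') := by gcongr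
      _ = C * Real.exp C' * Real.exp ((χ + ε) * n) := by
          have : Real.exp ((χ + ε) * n) = Real.exp ((χ + ε / 2) * n) * Real.exp (ε / 2 * n) := by
            rw [← Real.exp_add]
            congr 1
            ring
          rw [this, Real.exp_add]
          ring

/-- the bound periods of the critical orbit -/
theorem bound_period {d : ℕ} (hd : 2 ≤ d) {c₀ : ℂ} {C₂ : ℝ} (hC₂ : 1 ≤ C₂)
    (hP : ∀ j, 0 < Pd d c₀ j) (hz : ∀ j, zz d c₀ j ≠ 0)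
    (hW : ∀ N : ℕ, ∑ j ∈ range (N + 1), ‖Wp d c₀ N j‖ ≤ C₂ * Pd d c₀ N) {k m : ℕ}
    (hm : ‖zz d c₀ k‖ ^ d * ∑ i ∈ range m, Pd d c₀ i / ‖zz d c₀ i‖ ≤ 1 / (64 * d * C₂)) :
    ∀ i < m, Pd d c₀ (k + 1 + i) / ‖zz d c₀ (k + 1 + i)‖ ≤
      4 * d * ‖zz d c₀ k‖ ^ d * (Pd d c₀ k / ‖zz d c₀ k‖) * (Pd d c₀ i / ‖zz d c₀ i‖) := by
  have hdR : (2 : ℝ) ≤ d := by exact_mod_cast hd
  have hC0 : 0 < C₂ := by linarith
  have hz0 : ∀ i, 0 < ‖zz d c₀ i‖ := fun i => norm_pos_iff.2 (hz i)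
  obtain ⟨t, ht⟩ : ∃ t, t = ‖zz d c₀ k‖ ^ d := ⟨_, rfl⟩
  have ht0 : 0 < t := by rw [ht]; exact pow_pos (hz0 k) d
  rw [← ht] at hm
  rw [le_div_iff₀ (by positivity)] at hm
  have ha0 : ∀ i, 0 < Pd d c₀ i / ‖zz d c₀ i‖ := fun i => div_pos (hP i) (hz0 i)
  have hpart : ∀ i ≤ m, 64 * d * C₂ * (t * ∑ l ∈ range i, Pd d c₀ l / ‖zz d c₀ l‖) ≤ 1 := by
    intro i hi
    have h1 : ∑ l ∈ range i, Pd d c₀ l / ‖zz d c₀ l‖ ≤ ∑ l ∈ range m, Pd d c₀ l / ‖zz d c₀ l‖ :=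
      Finset.sum_le_sum_of_subset_of_nonneg (Finset.range_subset_range.2 hi) fun i _ _ => (ha0 i).le
    calc _ ≤ 64 * d * C₂ * (t * ∑ l ∈ range m, Pd d c₀ l / ‖zz d c₀ l‖) := by gcongr
      _ = t * (∑ l ∈ range m, Pd d c₀ l / ‖zz d c₀ l‖) * (64 * d * C₂) := by ring
      _ ≤ 1 := hm
  have hzo : ∀ i, zo d c₀ (zz d c₀ k ^ d) i = zz d c₀ (k + 1 + i) := by
    intro i
    unfold zo
    rw [add_comm c₀, ← zz_succ, zz_add, add_comm i]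
  have hclose : ∀ i < m, ‖zz d c₀ (k + 1 + i) - zz d c₀ i‖ ≤
      4 * C₂ * t * (Pd d c₀ i / ‖zz d c₀ i‖) * ‖zz d c₀ i‖ := by
    intro i hi
    have h1 := (passage hd hC₂ hP hz hW ht0 (hpart i hi.le)).1 c₀ (zz d c₀ k ^ d)
      (by rw [sub_self, norm_zero]; exact ht0.le) (by rw [norm_pow, ← ht])
    rw [hzo] at h1
    refine h1.trans (le_of_eq ?_)
    have := (hz0 i).ne'
    field_simp
  have hsmall : ∀ i < m, 4 * C₂ * t * (Pd d c₀ i / ‖zz d c₀ i‖) ≤ 1 / 32 := by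
    intro i hi
    have h1 := hpart (i + 1) (by omega)
    rw [Finset.sum_range_succ] at h1
    have h2 : 0 ≤ ∑ l ∈ range i, Pd d c₀ l / ‖zz d c₀ l‖ := Finset.sum_nonneg fun l _ => (ha0 l).le
    have h3 : 64 * d * C₂ * (t * (Pd d c₀ i / ‖zz d c₀ i‖)) ≤ 1 := by
      refine le_trans ?_ h1
      gcongr
      linarith
    have h4 : 64 * 2 * C₂ * (t * (Pd d c₀ i / ‖zz d c₀ i‖)) ≤ 1 := by
      refine le_trans ?_ h3
      have := (ha0 i).le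
      gcongr
    linarith
  -- the derivatives
  have hder : ∀ i ≤ m, Pd d c₀ (k + 1 + i) ≤
      Real.exp ((d - 1) * (4 * C₂ * t * ∑ l ∈ range i, Pd d c₀ l / ‖zz d c₀ l‖)) *
        (Pd d c₀ (k + 1) * Pd d c₀ i) := by
    intro i
    induction i with
    | zero =>
      intro _
      rw [add_zero, Finset.range_zero, Finset.sum_empty, Pd_zero]
      simp
    | succ i ih =>
      intro hi
      have h1 := ih (by omega)
      obtain ⟨x, hx⟩ : ∃ x, x = 4 * C₂ * t * (Pd d c₀ i / ‖zz d c₀ i‖) := ⟨_, rfl⟩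
      have hx0 : 0 ≤ x := by
        rw [hx]
        have := (ha0 i).le
        positivity
      have h2 : ‖zz d c₀ (k + 1 + i)‖ ≤ Real.exp x * ‖zz d c₀ i‖ := by
        have h3 := hclose i (by omega)
        rw [← hx] at h3
        have h4 := norm_add_le (zz d c₀ (k + 1 + i) - zz d c₀ i) (zz d c₀ i)
        rw [sub_add_cancel] at h4
        have h5 : (x + 1) * ‖zz d c₀ i‖ ≤ Real.exp x * ‖zz d c₀ i‖ := by
          have := Real.add_one_le_exp x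
          gcongr
        linarith
      have hdc : ((d - 1 : ℕ) : ℝ) = (d : ℝ) - 1 := by
        rw [Nat.cast_sub (by omega)]
        simp
      have h3 : ‖zz d c₀ (k + 1 + i)‖ ^ (d - 1) ≤
          Real.exp ((d - 1) * x) * ‖zz d c₀ i‖ ^ (d - 1) := by
        calc ‖zz d c₀ (k + 1 + i)‖ ^ (d - 1) ≤ (Real.exp x * ‖zz d c₀ i‖) ^ (d - 1) := by gcongr
          _ = _ := by rw [mul_pow, ← Real.exp_nat_mul, hdc]
      have hPk := (hP (k + 1)).le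
      have hPi := (hP i).le
      have hPki := (hP (k + 1 + i)).le
      rw [show k + 1 + (i + 1) = (k + 1 + i) + 1 by ring, Pd_succ, Pd_succ d c₀ i,
        Finset.sum_range_succ]
      have e : Real.exp ((d - 1) * (4 * C₂ * t * (∑ l ∈ range i, Pd d c₀ l / ‖zz d c₀ l‖ +
          Pd d c₀ i / ‖zz d c₀ i‖))) = Real.exp ((d - 1) * (4 * C₂ * t *
          ∑ l ∈ range i, Pd d c₀ l / ‖zz d c₀ l‖)) * Real.exp ((d - 1) * x) := by
        rw [← Real.exp_add, hx]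
        congr 1
        ring
      rw [e]
      calc d * ‖zz d c₀ (k + 1 + i)‖ ^ (d - 1) * Pd d c₀ (k + 1 + i) ≤
            d * (Real.exp ((d - 1) * x) * ‖zz d c₀ i‖ ^ (d - 1)) *
            (Real.exp ((d - 1) * (4 * C₂ * t * ∑ l ∈ range i, Pd d c₀ l / ‖zz d c₀ l‖)) *
              (Pd d c₀ (k + 1) * Pd d c₀ i)) := by gcongr
        _ = _ := by ring
  intro i hi
  have h1 := hder i hi.le
  have h2 : Real.exp ((d - 1) * (4 * C₂ * t * ∑ l ∈ range i, Pd d c₀ l / ‖zz d c₀ l‖)) ≤ 2 := by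
    have h3 : (d - 1) * (4 * C₂ * t * ∑ l ∈ range i, Pd d c₀ l / ‖zz d c₀ l‖) ≤ 1 / 16 := by
      have h4 := hpart i hi.le
      have h5 : 0 ≤ ∑ l ∈ range i, Pd d c₀ l / ‖zz d c₀ l‖ := Finset.sum_nonneg fun l _ => (ha0 l).le
      have h6 : (d - 1) * (4 * C₂ * t * ∑ l ∈ range i, Pd d c₀ l / ‖zz d c₀ l‖) ≤
          d * (4 * C₂ * t * ∑ l ∈ range i, Pd d c₀ l / ‖zz d c₀ l‖) := by
        gcongr
        linarith
      linarith
    calc _ ≤ Real.exp (1 / 16) := Real.exp_le_exp.2 h3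
      _ ≤ 2 := by
        have h4 := Real.abs_exp_sub_one_le (x := 1 / 16) (by rw [abs_of_pos (by norm_num)]; norm_num)
        have h5 := le_abs_self (Real.exp (1 / 16) - 1)
        rw [abs_of_pos (by norm_num : (0 : ℝ) < 1 / 16)] at h4
        linarith
  have h3 : 1 / 2 * ‖zz d c₀ i‖ ≤ ‖zz d c₀ (k + 1 + i)‖ := by
    have h4 := hclose i hi
    have h5 := hsmall i hi
    have h6 := norm_sub_norm_le (zz d c₀ i) (zz d c₀ (k + 1 + i))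
    rw [norm_sub_rev] at h6
    have h7 : 4 * C₂ * t * (Pd d c₀ i / ‖zz d c₀ i‖) * ‖zz d c₀ i‖ ≤ 1 / 32 * ‖zz d c₀ i‖ := by
      gcongr
    have := hz0 i
    linarith
  have hPk1 : Pd d c₀ (k + 1) = d * t * (Pd d c₀ k / ‖zz d c₀ k‖) := by
    rw [Pd_succ, ht]
    have h4 : ‖zz d c₀ k‖ ^ d = ‖zz d c₀ k‖ ^ (d - 1) * ‖zz d c₀ k‖ := by
      rw [← pow_succ, Nat.sub_add_cancel (by omega)]
    rw [h4]
    have := (hz0 k).ne'
    field_simp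
  rw [← ht]
  rw [div_le_iff₀ (hz0 _)]
  calc Pd d c₀ (k + 1 + i) ≤ 2 * (Pd d c₀ (k + 1) * Pd d c₀ i) := by
        refine h1.trans ?_
        have := (hP (k + 1)).le
        have := (hP i).le
        gcongr
    _ = 4 * d * t * (Pd d c₀ k / ‖zz d c₀ k‖) * (Pd d c₀ i / ‖zz d c₀ i‖) *
          (1 / 2 * ‖zz d c₀ i‖) := by
        rw [hPk1]
        have := (hz0 i).ne'
        field_simp
        ring
    _ ≤ _ := by
        have := (ha0 k).le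
        have := (ha0 i).le
        gcongr

/-- **Windows.** -/
theorem window_gen {χ : ℝ} (hχ : 0 < χ) {a : ℕ → ℝ} (h : Gr χ a) {G : ℕ → Prop}
    (hG : ∀ η : ℝ, 0 < η → ∃ K : ℕ, ∀ k₁ k₂ : ℕ, K ≤ k₁ → (1 + η) * k₁ ≤ k₂ →
      ∃ j, k₁ ≤ j ∧ j < k₂ ∧ G j) {σ B : ℝ} (hσ : 0 < σ)
    (hB : σ ≤ B) : ∀ᶠ n : ℕ in atTop, ∀ A₁ A₂ : ℝ, σ * n ≤ A₁ → A₁ + σ * n ≤ A₂ → A₂ ≤ B * n →
      ∃ j : ℕ, (j : ℝ) ≤ B / χ * n ∧ A₁ ≤ Real.log (a j) ∧ Real.log (a j) ≤ A₂ ∧ G j := by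
  have hB0 : 0 < B := by linarith
  obtain ⟨K, hK⟩ := hG (σ / (8 * B)) (by positivity)
  obtain ⟨C, hC, H⟩ := h.log (ε := σ * χ / (8 * B)) (by positivity)
  obtain ⟨N, hN⟩ := exists_nat_ge (max (8 * C / σ) (max ((K * χ) / σ) ((16 * χ + 1) / σ)))
  filter_upwards [eventually_ge_atTop (max N 1)] with n hn A₁ A₂ h1 h2 h3
  have hnN : (N : ℝ) ≤ n := by exact_mod_cast (le_max_left _ _).trans hn
  have hn1 : (1 : ℝ) ≤ n := by exact_mod_cast (le_max_right _ _).trans hn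
  have e1 : 8 * C ≤ σ * n := by
    have := ((le_max_left _ _).trans hN).trans hnN
    rw [div_le_iff₀ hσ] at this
    linarith
  have e2 : K * χ ≤ σ * n := by
    have := (((le_max_left _ _).trans (le_max_right _ _)).trans hN).trans hnN
    rw [div_le_iff₀ hσ] at this
    linarith
  have e3 : 16 * χ + 1 ≤ σ * n := by
    have := (((le_max_right _ _).trans (le_max_right _ _)).trans hN).trans hnN
    rw [div_le_iff₀ hσ] at this
    linarith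
  -- the window
  obtain ⟨k₁, hk₁⟩ : ∃ k₁ : ℕ, k₁ = ⌈(A₁ + σ / 4 * n) / χ⌉₊ := ⟨_, rfl⟩
  obtain ⟨k₂, hk₂⟩ : ∃ k₂ : ℕ, k₂ = ⌊(A₂ - σ / 4 * n) / χ⌋₊ := ⟨_, rfl⟩
  have hA1 : 0 ≤ A₁ := le_trans (by positivity) h1
  have a1 : (A₁ + σ / 4 * n) / χ ≤ k₁ := by rw [hk₁]; exact Nat.le_ceil _
  have a2 : (k₁ : ℝ) < (A₁ + σ / 4 * n) / χ + 1 := by
    rw [hk₁]; exact Nat.ceil_lt_add_one (by positivity)
  have a3 : (k₂ : ℝ) ≤ (A₂ - σ / 4 * n) / χ := by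
    rw [hk₂]
    apply Nat.floor_le
    apply div_nonneg _ hχ.le
    nlinarith
  have a4 : (A₂ - σ / 4 * n) / χ < k₂ + 1 := by rw [hk₂]; exact Nat.lt_floor_add_one _
  rw [div_le_iff₀ hχ] at a1
  rw [← sub_lt_iff_lt_add, lt_div_iff₀ hχ] at a2
  rw [le_div_iff₀ hχ] at a3
  rw [div_lt_iff₀ hχ] at a4
  have b1 : K ≤ k₁ := by
    have : (K : ℝ) * χ ≤ k₁ * χ := by nlinarith
    have := le_of_mul_le_mul_right this hχ
    exact_mod_cast this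
  have b2 : (1 + σ / (8 * B)) * k₁ ≤ k₂ := by
    have h5 : (k₁ : ℝ) * χ ≤ B * n + χ := by nlinarith
    have h6 : σ / (8 * B) * (k₁ * χ) ≤ σ * n / 8 + χ := by
      have h7 : σ / (8 * B) * (k₁ * χ) ≤ σ / (8 * B) * (B * n + χ) := by gcongr
      have h8 : σ / (8 * B) * (B * n + χ) = σ * n / 8 + σ / (8 * B) * χ := by field_simp
      have h9 : σ / (8 * B) ≤ 1 := by
        rw [div_le_one (by positivity)]
        linarith
      have h10 : σ / (8 * B) * χ ≤ χ := by nlinarith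
      linarith
    have h7 : (1 + σ / (8 * B)) * k₁ * χ ≤ k₂ * χ := by nlinarith
    exact le_of_mul_le_mul_right h7 hχ
  obtain ⟨j, hj1, hj2, hj3⟩ := hK k₁ k₂ b1 b2
  have c1 : (j : ℝ) ≤ k₂ := by exact_mod_cast hj2.le
  have c2 : (k₁ : ℝ) ≤ j := by exact_mod_cast hj1
  have c3 : (j : ℝ) * χ ≤ B * n := by nlinarith
  have c4 : (j : ℝ) ≤ B / χ * n := by
    rw [div_mul_eq_mul_div, le_div_iff₀ hχ]
    exact c3
  have c5 : σ * χ / (8 * B) * j + C ≤ σ / 4 * n := by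
    have h5 : σ * χ / (8 * B) * j = σ / (8 * B) * (j * χ) := by ring
    have h6 : σ / (8 * B) * (j * χ) ≤ σ / (8 * B) * (B * n) := by gcongr
    have h7 : σ / (8 * B) * (B * n) = σ * n / 8 := by field_simp
    linarith
  have c6 := abs_le.1 (H j)
  refine ⟨j, c4, ?_, ?_, hj3⟩ <;> nlinarith

/-- **Macroscopic times in all windows.** -/
theorem mac_window {d : ℕ} (hd : 2 ≤ d) {χ : ℝ} {c₀ : ℂ} (h : Lyap d χ c₀) :
    ∃ C : ℝ, 1 ≤ C ∧ ∀ σ B : ℝ, 0 < σ → σ ≤ B → ∀ᶠ n : ℕ in atTop, ∀ A₁ A₂ : ℝ,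
      σ * n ≤ A₁ → A₁ + σ * n ≤ A₂ → A₂ ≤ B * n →
      ∃ j : ℕ, (j : ℝ) ≤ B / χ * n ∧ A₁ ≤ Real.log (Pd d c₀ j) ∧ Real.log (Pd d c₀ j) ≤ A₂ ∧
        ∑ i ∈ range j, Pd d c₀ i / ‖zz d c₀ i‖ ≤ C * Pd d c₀ j := by
  obtain ⟨hP, hz, hz2, hGr, hslow, C₂, hC₂, hW⟩ := lyap_data hd h
  have hdR : (2 : ℝ) ≤ d := by exact_mod_cast hd
  have hz0 : ∀ i, 0 < ‖zz d c₀ i‖ := fun i => norm_pos_iff.2 (hz i)
  have hGP := Gr_P hP hz0 hGr hslow
  obtain ⟨C, hC, H⟩ := macroTimes h.1 hd (p := fun j => Pd d c₀ j) (ζ := fun j => ‖zz d c₀ j‖) hz0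
    hGP hGr (b₀ := 1 / (64 * d * C₂)) (by positivity) (by
      rw [div_le_one (by positivity)]
      nlinarith) (fun k m hm => bound_period hd hC₂ hP hz hW hm)
  exact ⟨C, hC, fun σ B hσ hB => window_gen h.1 hGP H hσ hB⟩

end Pool.Agent.H206.Mac
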