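import Pool.Agent.H206.GreB
import Pool.Agent.H206.GreC
import Pool.Agent.H206.MacB

set_option autoImplicit false

/-! # Lower bounds: superattracting parameters around a perfect copy -/

namespace Pool.Agent.H206.Gre

open Filter Topology Set Metric
open N62a1eb23
open Pool.Agent.H712R2 (P fc P_zero P_succ mem_multibrot_iff P_one)
open Pool.Agent.H713R2 (IsBeta differentiable_P)
open Pool.Agent.TH279.MD Pool.Agent.Y298.SH.CD Pool.Agent.Y298.CA Pool.Agent.N772.ST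
open Pool.Agent.N772.PC (Un re re_iter re_iter')
open Pool.Agent.N253.MS (ev_lin)
open Pool.Agent.H206.Hair Pool.Agent.H206.Mac
open Real (circleAverage)

/-- the size of the critical orbit at the end of the copy -/
theorem u_bounds {d : ℕ} (hd : 2 ≤ d) {i n : ℕ} {c l m : ℂ} {E Y δ t : ℝ} (hm : m ≠ 0)
    (hE : E = (d : ℝ) ^ i) (hm0 : Real.exp (-((Y + δ / 4) * n)) ≤ ‖m‖)
    (hm1 : ‖m‖ ≤ Real.exp (-((Y - δ / 4) * n))) (hU : Un d n c l m ((Y - δ / 4) * n))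
    (h16 : Real.log 16 ≤ t * n) (hc : E * Real.log 4 + E * t * n ≤ (Y - δ / 4) * n) :
    Real.exp (d * (E * t * n - E * Real.log 4 - (Y + δ / 4) * n)) ≤
      ‖P d (n * (i + 1)) (c + l * ((Real.exp (t * n) : ℝ) : ℂ))‖ ^ d ∧
    ‖P d (n * (i + 1)) (c + l * ((Real.exp (t * n) : ℝ) : ℂ))‖ ^ d ≤
      Real.exp (d * (E * Real.log 4 + E * t * n - (Y - δ / 4) * n)) := by
  have hmn : 0 < ‖m‖ := norm_pos_iff.2 hm
  obtain ⟨T, hT⟩ : ∃ T : ℝ, T = Real.exp (t * n) := ⟨_, rfl⟩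
  rw [← hT]
  have hT16 : 16 ≤ T := by
    rw [hT, ← Real.log_le_iff_le_exp (by norm_num)]
    exact h16
  obtain ⟨κ, hκ⟩ : ∃ κ : ℂ, κ = ((T : ℝ) : ℂ) := ⟨_, rfl⟩
  rw [← hκ]
  have hκT : ‖κ‖ = T := by
    rw [hκ, Complex.norm_real, Real.norm_eq_abs, abs_of_pos (by linarith)]
  have hdE : ((d ^ i : ℕ) : ℝ) = E := by rw [hE]; push_cast; rfl
  have h4T : (4 * T) ^ (d ^ i) = Real.exp (E * Real.log 4 + E * t * n) := by
    have h1 : 4 * T = Real.exp (Real.log 4 + t * n) := by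
      rw [Real.exp_add, Real.exp_log (by norm_num), hT]
    rw [h1, ← Real.exp_nat_mul, hdE]
    congr 1
    ring
  have hT4 : (T / 4) ^ (d ^ i) = Real.exp (E * t * n - E * Real.log 4) := by
    have h1 : T / 4 = Real.exp (t * n - Real.log 4) := by
      rw [Real.exp_sub, Real.exp_log (by norm_num), hT]
    rw [h1, ← Real.exp_nat_mul, hdE]
    congr 1
    ring
  have hcond : (4 * T) ^ (d ^ i) ≤ Real.exp ((Y - δ / 4) * n) := by
    rw [h4T]
    exact Real.exp_le_exp.2 hc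
  have hup := it_up (c := c) (l := l) hd hm hU (by linarith : 1 ≤ T) hκT.le i hcond
  have hlo := it_low (c := c) (l := l) hd hm hU hT16 hκT i hcond
  rw [norm_div] at hup hlo
  rw [div_le_iff₀ hmn] at hup
  rw [le_div_iff₀ hmn] at hlo
  rw [Real.exp_nat_mul, Real.exp_nat_mul]
  constructor
  · gcongr
    refine le_trans ?_ hlo
    rw [hT4]
    calc Real.exp (E * t * n - E * Real.log 4 - (Y + δ / 4) * n) =
          1 * Real.exp (E * t * n - E * Real.log 4) * Real.exp (-((Y + δ / 4) * n)) := by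
          rw [one_mul, ← Real.exp_add, ← sub_eq_add_neg]
      _ ≤ _ := by
          gcongr
          norm_num
  · gcongr
    refine hup.trans ?_
    rw [h4T]
    calc Real.exp (E * Real.log 4 + E * t * n) / 2 * ‖m‖ ≤
          Real.exp (E * Real.log 4 + E * t * n) / 1 * Real.exp (-((Y - δ / 4) * n)) := by
          gcongr
          norm_num
      _ = _ := by rw [div_one, ← Real.exp_add, ← sub_eq_add_neg]

/-- the passage, with both points -/
theorem pass_two {d : ℕ} (hd : 2 ≤ d) {c₀ : ℂ} {C₂ : ℝ} (hC₂ : 1 ≤ C₂)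
    (hP : ∀ j, 0 < Pd d c₀ j) (hz : ∀ j, zz d c₀ j ≠ 0)
    (hW : ∀ N : ℕ, ∑ j ∈ Finset.range (N + 1), ‖Wp d c₀ N j‖ ≤ C₂ * Pd d c₀ N) {τ : ℝ} (hτ : 0 < τ)
    {k : ℕ} (hk : 64 * d * C₂ * (τ * ∑ i ∈ Finset.range (k + 1), Pd d c₀ i / ‖zz d c₀ i‖) ≤ 1)
    {M : ℕ} {c x u : ℂ} (hM : P d M c = 0) (hu : u = P d M x ^ d) (hu1 : ‖u‖ ≤ τ)
    (hx1 : ‖x - c₀‖ ≤ τ) (hc1 : ‖c - c₀‖ ≤ τ) (hxc : ‖x - c‖ ≤ ‖u‖ / (8 * C₂)) :
    Pd d c₀ k * ‖u‖ / 2 ≤ ‖P d (M + k + 1) x - P d (M + k + 1) c‖ ∧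
    ‖zz d c₀ k‖ / 2 ≤ ‖P d (M + k + 1) c‖ := by
  have hC₂0 : 0 < C₂ := by linarith
  have hdR : (2 : ℝ) ≤ d := by exact_mod_cast hd
  have hz0 : ∀ i, 0 < ‖zz d c₀ i‖ := fun i => norm_pos_iff.2 (hz i)
  have ha0 : ∀ i, 0 < Pd d c₀ i / ‖zz d c₀ i‖ := fun i => div_pos (hP i) (hz0 i)
  have hsum0 : 0 ≤ ∑ i ∈ Finset.range k, Pd d c₀ i / ‖zz d c₀ i‖ :=
    Finset.sum_nonneg fun i _ => (ha0 i).le
  rw [Finset.sum_range_succ] at hk
  have hk4 : 64 * d * C₂ * (τ * ∑ i ∈ Finset.range k, Pd d c₀ i / ‖zz d c₀ i‖) ≤ 1 := by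
    refine le_trans ?_ hk
    gcongr
    linarith [ha0 k]
  have hk5 : 64 * d * C₂ * (τ * (Pd d c₀ k / ‖zz d c₀ k‖)) ≤ 1 := by
    refine le_trans ?_ hk
    gcongr
    linarith
  obtain ⟨p1, p2⟩ := passage hd hC₂ hP hz hW hτ hk4
  have hFx : P d (M + k + 1) x = zo d x u k := by
    rw [show M + k + 1 = M + 1 + k by ring, P_zo, hu]
  have hFc : P d (M + k + 1) c = zo d c 0 k := by
    rw [show M + k + 1 = M + 1 + k by ring, P_zo, hM, zero_pow (by omega)]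
  have hPk0 := hP k
  constructor
  · have hdiff := p2 x u c 0 hx1 hu1 hc1 (by rw [norm_zero]; exact hτ.le)
    rw [← hFx, ← hFc, sub_zero] at hdiff
    have h1 : 2 * C₂ * Pd d c₀ k * ‖x - c‖ ≤ Pd d c₀ k * ‖u‖ / 4 := by
      rw [le_div_iff₀ (by positivity)] at hxc
      nlinarith
    linarith
  · have h1 := p1 c 0 hc1 (by rw [norm_zero]; exact hτ.le)
    rw [← hFc] at h1
    have h2 : 4 * C₂ * τ * Pd d c₀ k ≤ ‖zz d c₀ k‖ / 2 := by
      have h3 : Pd d c₀ k = (Pd d c₀ k / ‖zz d c₀ k‖) * ‖zz d c₀ k‖ := by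
        have := (hz0 k).ne'
        field_simp
      have h4 : 64 * 2 * (C₂ * (τ * (Pd d c₀ k / ‖zz d c₀ k‖))) ≤ 1 := by
        refine le_trans ?_ hk5
        have h5 : 64 * d * C₂ * (τ * (Pd d c₀ k / ‖zz d c₀ k‖)) =
          64 * d * (C₂ * (τ * (Pd d c₀ k / ‖zz d c₀ k‖))) := by ring
        rw [h5]
        have h6 : 0 ≤ C₂ * (τ * (Pd d c₀ k / ‖zz d c₀ k‖)) := by
          have := (ha0 k).le
          positivity
        gcongr
      rw [h3]
      calc 4 * C₂ * τ * (Pd d c₀ k / ‖zz d c₀ k‖ * ‖zz d c₀ k‖) =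
            4 * (C₂ * (τ * (Pd d c₀ k / ‖zz d c₀ k‖))) * ‖zz d c₀ k‖ := by ring
        _ ≤ 1 / 2 * ‖zz d c₀ k‖ := by
            gcongr
            linarith
        _ = _ := by ring
    have h3 := norm_sub_norm_le (zz d c₀ k) (P d (M + k + 1) c)
    rw [norm_sub_rev] at h3
    linarith

/-- the end of the argument -/
theorem finish {d : ℕ} (hd : 2 ≤ d) {c x : ℂ} {N n : ℕ} (hcM : c ∈ multibrotSet d) {L e δ z K : ℝ}
    (hδe : δ ≤ e / 16) (he : 0 < e) (hz0 : 0 < z)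
    (hxc : ‖x - c‖ ≤ Real.exp (-((L + e - δ / 4) * n)))
    (hF : Real.exp (-(e / 4 * n)) / 2 ≤ ‖P d (N + 1) x - P d (N + 1) c‖)
    (hval : z / 2 ≤ ‖P d (N + 1) c‖) (v7 : Real.log 4 < e / 4 * n)
    (v8 : Real.log (16 * KS) < e / 4 * n) (v9 : K ≤ Real.log z - Real.log 2 + e / 4 * n - Real.log 4) :
    ∃ ρ : ℝ, Real.exp (-(L * n)) / 2 < ρ ∧ ρ < Real.exp (-(L * n)) ∧
      K ≤ circleAverage (fun z => Real.log ‖P d (N + 1) z‖) c ρ := by
  have hKS := KS_pos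
  have hn0 : (0 : ℝ) ≤ n := Nat.cast_nonneg n
  have hFc3 : ‖P d (N + 1) c‖ ≤ 3 := by
    have := (mem_multibrot_iff hd c).1 hcM (N + 1)
    linarith
  have hc3 : ‖c‖ ≤ 3 := by
    have := (mem_multibrot_iff hd c).1 hcM 1
    rw [P_one hd] at this
    linarith
  obtain ⟨ρ₁, hρ₁⟩ : ∃ ρ₁ : ℝ, ρ₁ = Real.exp (-((L + e / 4) * n)) := ⟨_, rfl⟩
  have hρ₁0 : 0 < ρ₁ := by rw [hρ₁]; exact Real.exp_pos _
  have hxρ : ‖x - c‖ * (16 * KS) < ρ₁ * Real.exp (-(e / 4 * n)) := by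
    have h1 : 16 * KS < Real.exp (e / 4 * n) := by
      rw [← Real.log_lt_iff_lt_exp (by positivity)]
      exact v8
    calc ‖x - c‖ * (16 * KS) ≤ Real.exp (-((L + e - δ / 4) * n)) * (16 * KS) := by gcongr
      _ < Real.exp (-((L + e - δ / 4) * n)) * Real.exp (e / 4 * n) := by gcongr
      _ ≤ ρ₁ * Real.exp (-(e / 4 * n)) := by
          rw [hρ₁, ← Real.exp_add, ← Real.exp_add]
          apply Real.exp_le_exp.2
          have h2 : 0 ≤ (e / 4 - δ / 4) * n := mul_nonneg (by linarith) hn0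
          linarith
  have hxρ4 : ‖x - c‖ < ρ₁ / 4 := by
    have h1 : 4 < Real.exp (e / 4 * n) := by
      rw [← Real.log_lt_iff_lt_exp (by norm_num)]
      exact v7
    rw [lt_div_iff₀ (by norm_num)]
    calc ‖x - c‖ * 4 ≤ Real.exp (-((L + e - δ / 4) * n)) * 4 := by gcongr
      _ < Real.exp (-((L + e - δ / 4) * n)) * Real.exp (e / 4 * n) := by gcongr
      _ ≤ ρ₁ := by
          rw [hρ₁, ← Real.exp_add]
          apply Real.exp_le_exp.2
          have h2 : 0 ≤ (e / 2 - δ / 4) * n := mul_nonneg (by linarith) hn0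
          linarith
  obtain ⟨a, ha1, ha2⟩ := zero_near (N := N) hd hFc3 hc3 hρ₁0 hxρ4 (by
    have h1 : ρ₁ * (Real.exp (-(e / 4 * n)) / 2) ≤ ρ₁ * ‖P d (N + 1) x - P d (N + 1) c‖ := by
      gcongr
    linarith)
  have hne : P d (N + 1) c ≠ 0 := by
    rw [← norm_pos_iff]
    linarith
  have h4ρ : 4 * ρ₁ ≤ Real.exp (-(L * n)) := by
    rw [hρ₁]
    calc 4 * Real.exp (-((L + e / 4) * n)) ≤ Real.exp (e / 4 * n) *
          Real.exp (-((L + e / 4) * n)) := by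
          gcongr
          rw [← Real.log_le_iff_le_exp (by norm_num)]
          exact v7.le
      _ = _ := by
          rw [← Real.exp_add]
          congr 1
          ring
  obtain ⟨ρ, hρa, hρb, hρc⟩ := avg_low hd N hρ₁0 h4ρ hne ha2 ha1
  refine ⟨ρ, hρa, hρb, le_trans ?_ hρc⟩
  have h1 : Real.log (Real.exp (-(L * n)) / (4 * ρ₁)) = e / 4 * n - Real.log 4 := by
    rw [Real.log_div (Real.exp_pos _).ne' (by positivity), Real.log_exp,
      Real.log_mul (by norm_num) hρ₁0.ne', hρ₁, Real.log_exp]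
    ring
  rw [h1]
  have h2 : Real.log (z / 2) ≤ Real.log ‖P d (N + 1) c‖ := Real.log_le_log (by positivity) hval
  rw [Real.log_div hz0.ne' (by norm_num)] at h2
  linarith

/-- **The lower bound, main case.** -/
theorem lower_core {d : ℕ} (hd : 2 ≤ d) {χ : ℝ} {c₀ : ℂ} (h : Lyap d χ c₀) (i : ℕ) {s ε : ℝ} (K : ℝ)
    (hε : 0 < ε) (hs0 : 0 ≤ s) (hs1 : s < 1) : ∃ δ : ℝ, 0 < δ ∧ ∀ᶠ n : ℕ in atTop,
      ∀ c l m : ℂ, c ∈ multibrotSet d → P d n c = 0 → l ≠ 0 → m ≠ 0 →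
        ‖c - c₀‖ ≤ Real.exp (-((χ - δ) * n)) →
        ‖l‖ ≤ Real.exp (-((χ * d / (d - 1) - δ / 4) * n)) →
        Real.exp (-((χ / (d - 1) + δ / 4) * n)) ≤ ‖m‖ →
        ‖m‖ ≤ Real.exp (-((χ / (d - 1) - δ / 4) * n)) →
        Un d n c l m ((χ / (d - 1) - δ / 4) * n) →
        ∃ (N : ℕ) (ρ : ℝ), (N : ℝ) ≤ ((i + 1 : ℕ) + s + ε) * n ∧
          Real.exp (-(lam d χ (i + 1) s * n)) / 2 < ρ ∧
          ρ < Real.exp (-(lam d χ (i + 1) s * n)) ∧
          K ≤ circleAverage (fun z => Real.log ‖P d (N + 1) z‖) c ρ := by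
  have hχ : 0 < χ := h.1
  have hdR : (2 : ℝ) ≤ d := by exact_mod_cast hd
  have hd0 : (0 : ℝ) < d := by linarith
  have hd1 : (0 : ℝ) < (d : ℝ) - 1 := by linarith
  obtain ⟨hP, hz, hz2, hGr, hslow, C₂, hC₂, hW⟩ := lyap_data hd h
  have hz0 : ∀ i, 0 < ‖zz d c₀ i‖ := fun i => norm_pos_iff.2 (hz i)
  have hGP := Gr_P hP hz0 hGr hslow
  obtain ⟨Y, hY⟩ : ∃ Y : ℝ, Y = χ / (d - 1) := ⟨_, rfl⟩
  have hY0 : 0 < Y := by rw [hY]; positivity
  have hYχ : Y * (d - 1) = χ := by rw [hY]; field_simp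
  have hYd : χ * d / (d - 1) = Y * d := by rw [hY]; field_simp
  obtain ⟨E, hE⟩ : ∃ E : ℝ, E = (d : ℝ) ^ i := ⟨_, rfl⟩
  have hE1 : 1 ≤ E := by rw [hE]; exact one_le_pow₀ (by linarith)
  have hE0 : 0 < E := by linarith
  obtain ⟨D, hD⟩ : ∃ D : ℝ, D = d * E := ⟨_, rfl⟩
  have hD2 : 2 ≤ D := by rw [hD]; nlinarith
  have hD0 : 0 < D := by linarith
  have hDp : (d : ℝ) ^ (i + 1) = D := by rw [hD, hE, pow_succ, mul_comm]
  obtain ⟨g, hg⟩ : ∃ g : ℝ, g = d - s * (d - 1) := ⟨_, rfl⟩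
  have hg1 : 1 ≤ g := by rw [hg]; nlinarith
  have hgχ : Y * g = Y * d - s * χ := by rw [hg, ← hYχ]; ring
  obtain ⟨L, hL⟩ : ∃ L : ℝ, L = lam d χ (i + 1) s := ⟨_, rfl⟩
  have hL' : L = Y * d - Y * g / D := by
    rw [hL, lam, hDp, hg, hY]
    ring
  -- the constants
  obtain ⟨e₃, he₃⟩ : ∃ e₃ : ℝ, e₃ = min (χ * (1 - s) / 2) (min (χ * ε / 4) (Y / 16)) / D := ⟨_, rfl⟩
  have h1s : 0 < 1 - s := by linarith
  have he0 : 0 < e₃ := by rw [he₃]; positivity
  have hDe : D * e₃ = min (χ * (1 - s) / 2) (min (χ * ε / 4) (Y / 16)) := by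
    rw [he₃]; field_simp
  have hDe1 : D * e₃ ≤ χ * (1 - s) / 2 := by rw [hDe]; exact min_le_left _ _
  have hDe2 : D * e₃ ≤ χ * ε / 4 := by
    rw [hDe]; exact (min_le_right _ _).trans (min_le_left _ _)
  have hDe3 : D * e₃ ≤ Y / 16 := by
    rw [hDe]; exact (min_le_right _ _).trans (min_le_right _ _)
  have hDe4 : 2 * e₃ ≤ D * e₃ := by gcongr
  obtain ⟨δ, hδ⟩ : ∃ δ : ℝ, δ = e₃ / (8 * d) := ⟨_, rfl⟩
  have hδ0 : 0 < δ := by rw [hδ]; positivity
  have hdδ : d * δ = e₃ / 8 := by rw [hδ]; field_simp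
  have hδe : δ ≤ e₃ / 16 := by nlinarith
  obtain ⟨ω, hω⟩ : ∃ ω : ℝ, ω = s * χ + D * e₃ - e₃ / 16 := ⟨_, rfl⟩
  obtain ⟨t, ht⟩ : ∃ t : ℝ, t = Y * g / D - e₃ := ⟨_, rfl⟩
  have hDt : D * t = Y * d - s * χ - D * e₃ := by
    rw [ht, ← hgχ]
    field_simp
  have ht0 : 0 < t := by
    have h1 : Y * 1 ≤ Y * g := by gcongr
    have h2 : 0 < D * t := by
      have h3 : D * t = Y * g - D * e₃ := by rw [hDt, hgχ]
      rw [h3]
      linarith
    exact (mul_pos_iff_of_pos_left hD0).1 h2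
  have hEt : E * t ≤ Y - e₃ := by
    have h1 : d * (E * t) = D * t := by rw [hD]; ring
    have h2 : d * (E * t) ≤ d * (Y - e₃) := by
      rw [h1, hDt]
      have h3 : d * e₃ ≤ D * e₃ := by
        rw [hD]
        have : d * 1 ≤ d * E := by gcongr
        nlinarith
      have h4 : 0 ≤ s * χ := by positivity
      linarith
    exact le_of_mul_le_mul_left h2 hd0
  obtain ⟨Cp, hCp, HP⟩ := hGP.2 (e₃ / 32) (by positivity)
  have hCp0 : 0 < Cp := by linarith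
  obtain ⟨Cz, hCz, Hz⟩ := hslow (e₃ / 32) (by positivity)
  have hKS := KS_pos
  have hlog4 : 0 < Real.log 4 := Real.log_pos (by norm_num)
  have hlog2 : 0 < Real.log 2 := Real.log_pos (by norm_num)
  have hC₂0 : 0 < C₂ := by linarith
  refine ⟨δ, hδ0, ?_⟩
  filter_upwards [eventually_ge_atTop 1,
    choose_k hχ hGr (K := 64 * d * C₂) (ε := e₃ / (16 * χ)) (by positivity) (by positivity),
    ev_lin ht0 (Real.log 16), ev_lin (show 0 < e₃ / 2 by positivity) (E * Real.log 4),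
    ev_lin (show 0 < e₃ / 32 by positivity) (D * Real.log 4),
    ev_lin (show 0 < e₃ / 32 by positivity) (Real.log Cp),
    ev_lin (show 0 < Y / 4 by positivity) (Real.log (8 * C₂)),
    ev_lin (show 0 < e₃ / 16 by positivity) (Real.log 2),
    ev_lin (show 0 < e₃ / 4 by positivity) (Real.log 4),
    ev_lin (show 0 < e₃ / 4 by positivity) (Real.log (16 * KS)),
    ev_lin (show 0 < e₃ / 8 by positivity) (K + Cz + Real.log 2 + Real.log 4)]
    with n hn1 Hk v1 v2 v3 v4 v5 v6 v7 v8 v9 c l m hcM hPn hl hm hc hl1 hm0 hm1 hU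
  have hnR : (1 : ℝ) ≤ n := by exact_mod_cast hn1
  have hn0 : (0 : ℝ) < n := by linarith
  rw [hYd] at hl1
  rw [← hY] at hm0 hm1 hU
  have hmn : 0 < ‖m‖ := norm_pos_iff.2 hm
  have hln : 0 < ‖l‖ := norm_pos_iff.2 hl
  rw [← hL]
  -- `ω`
  have hω0 : e₃ ≤ ω := by
    rw [hω]
    have : 0 ≤ s * χ := by positivity
    linarith
  have hωχ : ω + e₃ / 16 ≤ χ - δ := by
    rw [hω]
    have h1 : s * χ + χ * (1 - s) / 2 = χ - χ * (1 - s) / 2 := by ring
    linarith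
  have hω1 : ω ≤ χ := by linarith
  obtain ⟨k, hk1, hk2, hk3⟩ := Hk ω (by
    have : χ * (e₃ / (16 * χ)) / 2 = e₃ / 32 := by
      field_simp
      norm_num
    rw [this]
    linarith) (by linarith)
  have hkn : (k : ℝ) ≤ n := by
    refine hk2.trans ?_
    have : ω / χ ≤ 1 := by rwa [div_le_one hχ]
    nlinarith
  have hωn : ω * n - e₃ / 16 * n ≤ χ * k := by
    have h1 : χ * ((ω / χ - e₃ / (16 * χ)) * n) ≤ χ * k := by gcongr
    have h2 : χ * ((ω / χ - e₃ / (16 * χ)) * n) = ω * n - e₃ / 16 * n := by field_simp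
    linarith
  have hPk : Real.exp ((ω - e₃ / 8) * n) ≤ Pd d c₀ k := by
    have h1 := (HP k).1
    have h2 : Real.exp (Real.log Cp) * Real.exp ((ω - e₃ / 8) * n) ≤ Cp * Pd d c₀ k := by
      rw [← Real.exp_add]
      refine le_trans (Real.exp_le_exp.2 ?_) h1
      have h3 : e₃ / 32 * k ≤ e₃ / 32 * n := by gcongr
      have h4 : (χ - e₃ / 32) * k = χ * k - e₃ / 32 * k := by ring
      have h5 : (ω - e₃ / 8) * n = ω * n - e₃ / 16 * n - e₃ / 32 * n - e₃ / 32 * n := by ring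
      rw [h4, h5]
      linarith
    rw [Real.exp_log hCp0] at h2
    exact le_of_mul_le_mul_left h2 hCp0
  -- the second point
  obtain ⟨x, hx⟩ : ∃ x : ℂ, x = c + l * ((Real.exp (t * n) : ℝ) : ℂ) := ⟨_, rfl⟩
  have hxc : ‖x - c‖ ≤ Real.exp (-((L + e₃ - δ / 4) * n)) := by
    rw [hx, add_sub_cancel_left, norm_mul, Complex.norm_real, Real.norm_eq_abs,
      abs_of_pos (Real.exp_pos _)]
    calc ‖l‖ * Real.exp (t * n) ≤ Real.exp (-((Y * d - δ / 4) * n)) * Real.exp (t * n) := by gcongr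
      _ = Real.exp (-((L + e₃ - δ / 4) * n)) := by
          rw [← Real.exp_add]
          congr 1
          rw [hL', ht]
          ring
  obtain ⟨hlo, hup⟩ := u_bounds (c := c) (l := l) hd hm hE hm0 hm1 hU v1.le (by
    have h1 : E * t * n ≤ (Y - e₃) * n := by gcongr
    have h2 : (Y - δ / 4) * n = (Y - e₃) * n + (e₃ - δ / 4) * n := by ring
    have h3 : e₃ / 2 * n ≤ (e₃ - δ / 4) * n := by gcongr; linarith
    linarith)
  rw [← hx] at hup hlo
  obtain ⟨M, hM⟩ : ∃ M : ℕ, M = n * (i + 1) := ⟨_, rfl⟩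
  rw [← hM] at hup hlo
  obtain ⟨u, hu⟩ : ∃ u : ℂ, u = P d M x ^ d := ⟨_, rfl⟩
  rw [← norm_pow, ← hu] at hup hlo
  have hu1 : ‖u‖ ≤ Real.exp (-(ω * n)) := by
    refine hup.trans (Real.exp_le_exp.2 ?_)
    have h2 : d * (E * Real.log 4 + E * t * n - (Y - δ / 4) * n) =
        D * Real.log 4 + D * t * n - Y * d * n + d * δ / 4 * n := by rw [hD]; ring
    rw [h2, hDt, hdδ, hω]
    have h3 : D * Real.log 4 + (Y * d - s * χ - D * e₃) * n - Y * d * n + e₃ / 8 / 4 * n =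
        D * Real.log 4 - (s * χ + D * e₃ - e₃ / 16) * n - e₃ / 32 * n := by ring
    rw [h3]
    linarith
  have hu2 : Real.exp (-((ω + e₃ / 8) * n)) ≤ ‖u‖ := by
    refine le_trans (Real.exp_le_exp.2 ?_) hlo
    have h2 : d * (E * t * n - E * Real.log 4 - (Y + δ / 4) * n) =
        D * t * n - D * Real.log 4 - Y * d * n - d * δ / 4 * n := by rw [hD]; ring
    rw [h2, hDt, hdδ, hω]
    have h3 : (Y * d - s * χ - D * e₃) * n - D * Real.log 4 - Y * d * n - e₃ / 8 / 4 * n =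
        -((s * χ + D * e₃ - e₃ / 16 + e₃ / 8) * n) + e₃ / 32 * n - D * Real.log 4 := by ring
    rw [h3]
    linarith
  -- comparison of the exponents
  have hLω : ω + e₃ / 8 + Y / 4 ≤ L + e₃ - δ / 4 := by
    have h1 : L - s * χ = Y * g * (1 - 1 / D) := by
      rw [hL']
      have : Y * g * (1 - 1 / D) = Y * g - Y * g / D := by ring
      rw [this, hgχ]
      ring
    have h2 : Y * 1 * (1 / 2) ≤ Y * g * (1 - 1 / D) := by
      have h3 : 1 / D ≤ 1 / 2 := one_div_le_one_div_of_le (by norm_num) hD2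
      gcongr
      linarith
    rw [hω]
    linarith
  have hxcω : ‖x - c‖ ≤ Real.exp (-((ω + e₃ / 8) * n)) / (8 * C₂) := by
    rw [le_div_iff₀ (by positivity)]
    calc ‖x - c‖ * (8 * C₂) ≤ Real.exp (-((L + e₃ - δ / 4) * n)) * Real.exp (Y / 4 * n) := by
          gcongr
          rw [← Real.log_le_iff_le_exp (by positivity)]
          exact v5.le
      _ ≤ _ := by
          rw [← Real.exp_add]
          apply Real.exp_le_exp.2
          have h1 : (ω + e₃ / 8 + Y / 4) * n ≤ (L + e₃ - δ / 4) * n := by gcongr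
          linarith
  have hxc8 : ‖x - c‖ ≤ Real.exp (-(ω * n)) / 2 := by
    refine hxcω.trans ?_
    have h1 : Real.exp (-((ω + e₃ / 8) * n)) ≤ Real.exp (-(ω * n)) := by
      apply Real.exp_le_exp.2
      have : 0 < e₃ / 8 * n := by positivity
      linarith
    have h8C : 2 ≤ 8 * C₂ := by linarith
    gcongr
  have hcω : ‖c - c₀‖ ≤ Real.exp (-(ω * n)) / 2 := by
    refine hc.trans ?_
    rw [le_div_iff₀ (by norm_num)]
    calc Real.exp (-((χ - δ) * n)) * 2 = Real.exp (-((χ - δ) * n)) * Real.exp (Real.log 2) := by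
          rw [Real.exp_log (by norm_num)]
      _ ≤ _ := by
          rw [← Real.exp_add]
          apply Real.exp_le_exp.2
          have h1 : (ω + e₃ / 16) * n ≤ (χ - δ) * n := by gcongr
          linarith
  have hexp0 := Real.exp_pos (-(ω * n))
  have hc1 : ‖c - c₀‖ ≤ Real.exp (-(ω * n)) := by linarith
  have hx1 : ‖x - c₀‖ ≤ Real.exp (-(ω * n)) := by
    have h1 := norm_add_le (x - c) (c - c₀)
    rw [sub_add_sub_cancel] at h1
    linarith
  -- the passage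
  have hPM : P d M c = 0 := by
    rw [hM]
    show (fc d c)^[n * (i + 1)] 0 = 0
    rw [Function.iterate_mul]
    exact Function.iterate_fixed hPn _
  obtain ⟨hdiff, hval⟩ := pass_two hd hC₂ hP hz hW hexp0 hk3 hPM hu hu1 hx1 hc1
    (hxcω.trans (by gcongr))
  have hF : Real.exp (-(e₃ / 4 * n)) / 2 ≤ ‖P d (M + k + 1) x - P d (M + k + 1) c‖ := by
    refine le_trans ?_ hdiff
    gcongr
    calc Real.exp (-(e₃ / 4 * n)) = Real.exp ((ω - e₃ / 8) * n) *
          Real.exp (-((ω + e₃ / 8) * n)) := by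
          rw [← Real.exp_add]
          congr 1
          ring
      _ ≤ _ := by
          have := (hP k).le
          gcongr
  obtain ⟨ρ, hρa, hρb, hρc⟩ := finish (K := K) hd hcM hδe he0 (hz0 k) hxc hF hval v7 v8 (by
    have h3 := (abs_le.1 (Hz k)).1
    have h4 : e₃ / 32 * k ≤ e₃ / 32 * n := by gcongr
    linarith)
  refine ⟨M + k, ρ, ?_, hρa, hρb, hρc⟩
  rw [hM]
  push_cast
  have h1 : ω / χ * n ≤ (s + ε / 4) * n := by
    gcongr
    rw [div_le_iff₀ hχ]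
    have : (s + ε / 4) * χ = s * χ + χ * ε / 4 := by ring
    rw [this, hω]
    linarith
  have h2 : 0 ≤ ε * n := by positivity
  linarith

end Pool.Agent.H206.Gre
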