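import Pool.Agent.H206.GreD
import Pool.Graph.R_seed8.Y736.HG9

set_option autoImplicit false

/-! # The law of Green's function and of the harmonic measure around a perfect copy -/

namespace Pool.Agent.H206.Gre

open Filter Topology Set Metric MeasureTheory
open N62a1eb23
open Pool.Agent.H712R2 (P fc P_zero P_succ mem_multibrot_iff P_one)
open Pool.Agent.H713R2 (IsBeta differentiable_P IsExteriorMap)
open Pool.Agent.TH279.MD Pool.Agent.Y298.SH.CD Pool.Agent.Y298.CA Pool.Agent.N772.ST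
open Pool.Agent.N772.PC (Un re re_iter re_iter')
open Pool.Agent.N253.MS (ev_lin)
open Pool.Agent.H206.Hair Pool.Agent.H206.Mac
open Pool.Agent.Y736.HD (Ang vol_Ang_ne Ang_sub GS)
open Real (circleAverage)

/-- the exponent of the radius, as a function of the exponent of Green's function -/
noncomputable def Lx (d : ℕ) (χ x : ℝ) : ℝ := lam d χ ⌊x⌋₊ (x - ⌊x⌋₊)

theorem lam_sub {d : ℕ} (hd : 2 ≤ d) (χ : ℝ) (j : ℕ) (s s' : ℝ) :
    lam d χ j s' - lam d χ j s = χ * (s' - s) / d ^ j := by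
  have hdR : (2 : ℝ) ≤ d := by exact_mod_cast hd
  have hd1 : (d : ℝ) - 1 ≠ 0 := by linarith
  have hd0 : (d : ℝ) ≠ 0 := by linarith
  unfold lam
  field_simp
  ring

theorem lam_bd {d : ℕ} (hd : 2 ≤ d) {χ : ℝ} (hχ : 0 < χ) (j : ℕ) {s : ℝ} (h0 : 0 ≤ s) (h1 : s ≤ 1) :
    0 ≤ lam d χ j s ∧ lam d χ j s ≤ χ * d / (d - 1) := by
  have hdR : (2 : ℝ) ≤ d := by exact_mod_cast hd
  have hd1 : (0 : ℝ) < (d : ℝ) - 1 := by linarith
  have hD : (1 : ℝ) ≤ (d : ℝ) ^ j := one_le_pow₀ (by linarith)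
  have hY : 0 < χ / ((d : ℝ) - 1) := by positivity
  have h3 : s * ((d : ℝ) - 1) ≤ 1 * (d - 1) := by gcongr
  have h4 : 0 ≤ s * ((d : ℝ) - 1) := by positivity
  have h5 : ((d : ℝ) - s * (d - 1)) / d ^ j ≤ d := by
    rw [div_le_iff₀ (by positivity)]
    nlinarith
  have h6 : 0 ≤ ((d : ℝ) - s * (d - 1)) / d ^ j := by
    apply div_nonneg
    · linarith
    · positivity
  unfold lam
  constructor
  · apply mul_nonneg hY.le
    linarith
  · have : χ * d / ((d : ℝ) - 1) = χ / (d - 1) * d := by ring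
    rw [this]
    gcongr
    linarith

theorem fl_bd {x : ℝ} (hx : 0 ≤ x) : 0 ≤ x - ⌊x⌋₊ ∧ x - ⌊x⌋₊ < 1 := by
  have h1 := Nat.floor_le hx
  have h2 := Nat.lt_floor_add_one x
  constructor <;> linarith

theorem Lx_bd {d : ℕ} (hd : 2 ≤ d) {χ : ℝ} (hχ : 0 < χ) {x : ℝ} (hx : 0 ≤ x) :
    0 ≤ Lx d χ x ∧ Lx d χ x ≤ χ * d / (d - 1) :=
  lam_bd hd hχ _ (fl_bd hx).1 (fl_bd hx).2.le

/-- **The gap.** -/
theorem Lx_gap {d : ℕ} (hd : 2 ≤ d) {χ : ℝ} (hχ : 0 < χ) {J : ℕ} {x η : ℝ} (hx : 0 ≤ x)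
    (hxJ : x ≤ J) (hη : 0 ≤ η) (hη1 : η ≤ 1) :
    Lx d χ x + χ * η / d ^ (J + 1) ≤ Lx d χ (x + η) := by
  have hdR : (2 : ℝ) ≤ d := by exact_mod_cast hd
  obtain ⟨j, hj⟩ : ∃ j, j = ⌊x⌋₊ := ⟨_, rfl⟩
  obtain ⟨h1, h2⟩ := fl_bd hx
  have hjJ : j ≤ J := by
    rw [hj]
    exact Nat.floor_le_of_le hxJ
  rw [← hj] at h1 h2
  have hpow : (d : ℝ) ^ (j + 1) ≤ (d : ℝ) ^ (J + 1) :=
    pow_le_pow_right₀ (by linarith) (by omega)
  unfold Lx
  rw [← hj]
  rcases lt_or_ge (x - j + η) 1 with h3 | h3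
  · have h4 : ⌊x + η⌋₊ = j := by
      rw [Nat.floor_eq_iff (by linarith)]
      constructor <;> linarith
    rw [h4]
    have h5 := lam_sub hd χ j (x - j) (x + η - j)
    have h6 : χ * η / (d : ℝ) ^ (J + 1) ≤ χ * η / d ^ j := by
      apply div_le_div_of_nonneg_left (by positivity) (by positivity)
      exact pow_le_pow_right₀ (by linarith) (by omega)
    have h7 : χ * (x + η - j - (x - j)) / (d : ℝ) ^ j = χ * η / d ^ j := by
      congr 1
      ring
    linarith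
  · have h4 : ⌊x + η⌋₊ = j + 1 := by
      rw [Nat.floor_eq_iff (by linarith)]
      push_cast
      constructor <;> linarith
    rw [h4]
    push_cast
    have h5 := lam_sub hd χ j (x - j) 1
    have h6 := lam_sub hd χ (j + 1) 0 (x + η - (j + 1))
    rw [lam_step hd] at h6
    have h7 : χ * η / (d : ℝ) ^ (J + 1) ≤ χ * η / d ^ (j + 1) :=
      div_le_div_of_nonneg_left (by positivity) (by positivity) hpow
    have h8 : χ * (1 - (x - j)) / (d : ℝ) ^ (j + 1) ≤ χ * (1 - (x - j)) / d ^ j := by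
      apply div_le_div_of_nonneg_left _ (by positivity)
      · exact pow_le_pow_right₀ (by linarith) (by omega)
      · apply mul_nonneg hχ.le
        linarith
    have h9 : χ * (1 - (x - j)) / (d : ℝ) ^ (j + 1) + χ * (x + η - (j + 1) - 0) / d ^ (j + 1) =
        χ * η / d ^ (j + 1) := by
      rw [← add_div]
      congr 1
      ring
    linarith

/-- the data of a perfect copy -/
def Cp (d n : ℕ) (χ δ : ℝ) (c₀ c l m : ℂ) : Prop :=
  c ∈ multibrotSet d ∧ P d n c = 0 ∧ l ≠ 0 ∧ m ≠ 0 ∧ ‖c - c₀‖ ≤ Real.exp (-((χ - δ) * n)) ∧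
  Real.exp (-((χ * d / (d - 1) + δ / 4) * n)) ≤ ‖l‖ ∧
  ‖l‖ ≤ Real.exp (-((χ * d / (d - 1) - δ / 4) * n)) ∧
  Real.exp (-((χ / (d - 1) + δ / 4) * n)) ≤ ‖m‖ ∧
  ‖m‖ ≤ Real.exp (-((χ / (d - 1) - δ / 4) * n)) ∧
  Un d n c l m ((χ / (d - 1) - δ / 4) * n)

theorem Cp_mono {d n : ℕ} {χ δ δ' : ℝ} {c₀ c l m : ℂ} (hδ : δ ≤ δ') (h : Cp d n χ δ c₀ c l m) :
    Cp d n χ δ' c₀ c l m := by
  obtain ⟨h1, h2, h3, h4, h5, h6, h7, h8, h9, h10⟩ := h
  have hn : (0 : ℝ) ≤ n := Nat.cast_nonneg n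
  have hexp : ∀ {a b : ℝ}, b ≤ a → Real.exp (-(a * n)) ≤ Real.exp (-(b * n)) := by
    intro a b hab
    gcongr
  refine ⟨h1, h2, h3, h4, h5.trans (hexp (by linarith)), le_trans (hexp (by linarith)) h6,
    h7.trans (hexp (by linarith)), le_trans (hexp (by linarith)) h8,
    h9.trans (hexp (by linarith)), Un_mono h10 ?_⟩
  gcongr

/-- finitely many conditions -/
theorem fin_all {d : ℕ} {χ : ℝ} {c₀ : ℂ} {R : ℕ → ℕ → ℂ → ℂ → ℂ → Prop}
    (h : ∀ q : ℕ, ∃ δ : ℝ, 0 < δ ∧ ∀ᶠ n : ℕ in atTop, ∀ c l m : ℂ, Cp d n χ δ c₀ c l m →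
      R q n c l m) (Q : ℕ) : ∃ δ : ℝ, 0 < δ ∧ ∀ᶠ n : ℕ in atTop, ∀ c l m : ℂ,
      Cp d n χ δ c₀ c l m → ∀ q < Q, R q n c l m := by
  induction Q with
  | zero => exact ⟨1, one_pos, Eventually.of_forall fun n c l m _ q hq => by omega⟩
  | succ Q ih =>
    obtain ⟨δ₁, h1, H1⟩ := ih
    obtain ⟨δ₂, h2, H2⟩ := h Q
    refine ⟨min δ₁ δ₂, lt_min h1 h2, ?_⟩
    filter_upwards [H1, H2] with n hn1 hn2 c l m hc q hq
    rcases Nat.lt_succ_iff_lt_or_eq.1 hq with h3 | rfl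
    · exact hn1 c l m (Cp_mono (min_le_left _ _) hc) q h3
    · exact hn2 c l m (Cp_mono (min_le_right _ _) hc)

/-- **Upper bound of Green's function.** -/
theorem up_x {d : ℕ} (hd : 2 ≤ d) {χ : ℝ} {c₀ : ℂ} (h : Lyap d χ c₀) {ψ : ℂ → ℂ}
    (hψ : IsExteriorMap (multibrotSet d) ψ) {x ε : ℝ} (hx : 0 ≤ x) (hε : 0 < ε) :
    ∃ δ : ℝ, 0 < δ ∧ ∀ᶠ n : ℕ in atTop, ∀ c l m : ℂ, Cp d n χ δ c₀ c l m →
      ∀ w : ℂ, 1 < ‖w‖ → ‖ψ w - c‖ ≤ Real.exp (-(Lx d χ x * n)) →
        Real.log ‖w‖ ≤ Real.exp (-((x - ε) * (n * Real.log d))) := by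
  have hdR : (2 : ℝ) ≤ d := by exact_mod_cast hd
  have hlogd : 0 < Real.log d := Real.log_pos (by linarith)
  obtain ⟨h1, h2⟩ := fl_bd hx
  obtain ⟨δ, hδ, H⟩ := upper_law hd h ⌊x⌋₊ (half_pos hε) h1 h2.le
  refine ⟨δ, hδ, ?_⟩
  filter_upwards [H, ev_lin (show 0 < ε / 2 * Real.log d by positivity) (Real.log 4)]
    with n hn hn2 c l m hc w hw hwc
  obtain ⟨a1, a2, a3, a4, a5, a6, a7, a8, a9, a10⟩ := hc
  obtain ⟨M, hM, hMx⟩ := hn c l m a3 a4 a5 a6 a9 a10
  have hLn : 0 ≤ Lx d χ x * n := mul_nonneg (Lx_bd hd h.1 hx).1 (Nat.cast_nonneg n)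
  have hc2 : ‖c‖ ≤ 2 := by
    have := (mem_multibrot_iff hd c).1 a1 1
    rwa [P_one hd] at this
  have hψ3 : ‖ψ w‖ ≤ 3 := by
    have h3 := norm_add_le (ψ w - c) c
    rw [sub_add_cancel] at h3
    have h4 : Real.exp (-(Lx d χ x * n)) ≤ 1 := Real.exp_le_one_iff.2 (by linarith)
    linarith
  have h3 := Pool.Agent.Y736.HG.green_lower hd hψ hw hψ3 (hMx _ hwc hψ3)
  have hw0 : 0 < ‖w‖ := by linarith
  have h4 := Real.log_le_log (by positivity) h3
  rw [Real.log_pow] at h4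
  push_cast at h4
  have hlog4 : Real.log 4 ≤ Real.exp (ε / 2 * Real.log d * n) := by
    have h5 : Real.log 4 ≤ 4 := by
      have := Real.log_le_sub_one_of_pos (show (0 : ℝ) < 4 by norm_num)
      linarith
    have h6 : (4 : ℝ) ≤ Real.exp (ε / 2 * Real.log d * n) := by
      rw [← Real.log_le_iff_le_exp (by norm_num)]
      exact hn2.le
    linarith
  have h5 : Real.exp ((x - ε / 2) * (n * Real.log d)) ≤ (d : ℝ) ^ M := by
    have h6 : (d : ℝ) ^ M = Real.exp (M * Real.log d) := by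
      rw [Real.exp_nat_mul, Real.exp_log (by linarith)]
    rw [h6]
    apply Real.exp_le_exp.2
    have h7 : (x - ε / 2) * n ≤ M := by
      have : (⌊x⌋₊ : ℝ) + (x - ⌊x⌋₊) - ε / 2 = x - ε / 2 := by ring
      rwa [this] at hM
    calc (x - ε / 2) * (n * Real.log d) = (x - ε / 2) * n * Real.log d := by ring
      _ ≤ _ := by gcongr
  have hlw : 0 < Real.log ‖w‖ := Real.log_pos hw
  have h6 : Real.exp ((x - ε / 2) * (n * Real.log d)) * Real.log ‖w‖ ≤
      Real.exp (ε / 2 * Real.log d * n) := by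
    refine le_trans ?_ (h4.trans hlog4)
    gcongr
  have h7 : Real.exp (-((x - ε) * (n * Real.log d))) = Real.exp (ε / 2 * Real.log d * n) /
      Real.exp ((x - ε / 2) * (n * Real.log d)) := by
    rw [← Real.exp_sub]
    congr 1
    ring
  rw [h7, le_div_iff₀ (Real.exp_pos _), mul_comm]
  exact h6

/-- a linear factor -/
theorem ev_factor {a b : ℝ} (ha : 0 < a) (hb : 0 < b) :
    ∀ᶠ n : ℕ in atTop, a * n ≤ Real.exp (b * n) := by
  filter_upwards [ev_lin (show 0 < b / 2 by positivity) (Real.log (2 * a / b)),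
    eventually_ge_atTop 1] with n hn hn1
  have hn0 : (0 : ℝ) < n := by exact_mod_cast hn1
  have h1 : b / 2 * n ≤ Real.exp (b / 2 * n) := by
    have := Real.add_one_le_exp (b / 2 * n)
    linarith
  have h2 : 2 * a / b ≤ Real.exp (b / 2 * n) := by
    rw [← Real.log_le_iff_le_exp (by positivity)]
    exact hn.le
  calc a * n = 2 * a / b * (b / 2 * n) := by field_simp
    _ ≤ Real.exp (b / 2 * n) * Real.exp (b / 2 * n) := by gcongr
    _ = _ := by
      rw [← Real.exp_add]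
      congr 1
      ring

theorem Ang_mono {ψ : ℂ → ℂ} {c c' : ℂ} {r r' : ℝ} (h : ball c r ⊆ ball c' r') :
    (volume (Ang ψ c r)).toReal ≤ (volume (Ang ψ c' r')).toReal := by
  apply ENNReal.toReal_mono (vol_Ang_ne ψ c' r')
  apply measure_mono
  rintro θ ⟨h1, ζ, h2, h3⟩
  exact ⟨h1, ζ, h h2, h3⟩

/-- **Lower bounds, outer range.** -/
theorem low_0 {d : ℕ} (hd : 2 ≤ d) {χ : ℝ} {c₀ : ℂ} (h : Lyap d χ c₀) {ψ : ℂ → ℂ}
    (hψ : IsExteriorMap (multibrotSet d) ψ) {x ε : ℝ} (hx : 0 < x) (hx1 : x < 1) (hε : 0 < ε) :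
    ∃ δ : ℝ, 0 < δ ∧ ∀ᶠ n : ℕ in atTop, ∀ c l m : ℂ, Cp d n χ δ c₀ c l m →
      (∃ w : ℂ, 1 < ‖w‖ ∧ ‖ψ w - c‖ ≤ Real.exp (-(Lx d χ x * n)) ∧
        Real.exp (-((x + ε) * (n * Real.log d))) ≤ Real.log ‖w‖) ∧
      Real.exp (-((x + ε) * (n * Real.log d))) ≤
        (volume (Ang ψ c (Real.exp (-(Lx d χ x * n))))).toReal := by
  have hχ := h.1
  have hdR : (2 : ℝ) ≤ d := by exact_mod_cast hd
  have hlogd : 0 < Real.log d := Real.log_pos (by linarith)
  have hlog2 : 0 < Real.log 2 := Real.log_pos (by norm_num)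
  have hd1 : (0 : ℝ) < (d : ℝ) - 1 := by linarith
  have hL : Lx d χ x = χ * x := by
    have h1 : ⌊x⌋₊ = 0 := by
      rw [Nat.floor_eq_zero]
      exact hx1
    unfold Lx lam
    rw [h1]
    push_cast
    field_simp
    ring
  rw [hL]
  obtain ⟨e, he⟩ : ∃ e : ℝ, e = ε * Real.log d / (2 * χ) := ⟨_, rfl⟩
  have he0 : 0 < e := by rw [he]; positivity
  have hlim : Tendsto (fun n : ℕ => Real.exp (-(χ * x * n)) / 2) atTop (𝓝[>] 0) := by
    rw [tendsto_nhdsWithin_iff]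
    refine ⟨?_, Eventually.of_forall fun n => by
      show 0 < Real.exp (-(χ * x * n)) / 2
      positivity⟩
    have h1 : Tendsto (fun n : ℕ => χ * x * (n : ℝ)) atTop atTop :=
      tendsto_natCast_atTop_atTop.const_mul_atTop (by positivity)
    have h2 := (Real.tendsto_exp_neg_atTop_nhds_zero.comp h1).div_const 2
    rw [zero_div] at h2
    exact h2
  refine ⟨χ * (1 - x) / 2, by
    have : 0 < 1 - x := by linarith
    positivity, ?_⟩
  filter_upwards [hlim.eventually (Pool.Agent.Y736.HG.sup_lower hd h hψ he0),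
    hlim.eventually (Pool.Agent.Y736.HG.vol_lower hd h hψ he0),
    ev_lin (show 0 < χ * (1 - x) / 2 by
      have : 0 < 1 - x := by linarith
      positivity) (Real.log 2),
    ev_lin (show 0 < ε / 2 * Real.log d by positivity) (Real.log 2 * (Real.log d / χ + e) +
      Real.log 2)] with n hn1 hn2 hn3 hn4 c l m hc
  obtain ⟨a1, a2, a3, a4, a5, a6, a7, a8, a9, a10⟩ := hc
  have hn0 : (0 : ℝ) ≤ n := Nat.cast_nonneg n
  obtain ⟨r, hr⟩ : ∃ r : ℝ, r = Real.exp (-(χ * x * n)) := ⟨_, rfl⟩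
  have hr0 : 0 < r := by rw [hr]; exact Real.exp_pos _
  rw [← hr] at hn1 hn2 ⊢
  have hcc : ‖c - c₀‖ ≤ r / 2 := by
    refine a5.trans ?_
    rw [le_div_iff₀ (by norm_num), hr]
    calc Real.exp (-((χ - χ * (1 - x) / 2) * n)) * 2 =
          Real.exp (-((χ - χ * (1 - x) / 2) * n)) * Real.exp (Real.log 2) := by
          rw [Real.exp_log (by norm_num)]
      _ ≤ _ := by
          rw [← Real.exp_add]
          apply Real.exp_le_exp.2
          have : (χ - χ * (1 - x) / 2) * n = χ * x * n + χ * (1 - x) / 2 * n := by ring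
          rw [this]
          linarith
  have hpow : 2 * Real.exp (-((x + ε) * (n * Real.log d))) ≤ (r / 2) ^ (Real.log d / χ + e) := by
    have h1 : (r / 2) = Real.exp (-(χ * x * n) - Real.log 2) := by
      rw [Real.exp_sub, Real.exp_log (by norm_num), hr]
    rw [h1, ← Real.exp_mul]
    calc 2 * Real.exp (-((x + ε) * (n * Real.log d))) =
          Real.exp (Real.log 2) * Real.exp (-((x + ε) * (n * Real.log d))) := by
          rw [Real.exp_log (by norm_num)]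
      _ ≤ _ := by
          rw [← Real.exp_add]
          apply Real.exp_le_exp.2
          have h2 : (-(χ * x * n) - Real.log 2) * (Real.log d / χ + e) =
              -(x * (n * Real.log d)) - x * (χ * e) * n - Real.log 2 * (Real.log d / χ + e) := by
            field_simp
            ring
          have h3 : χ * e = ε / 2 * Real.log d := by
            rw [he]
            field_simp
          rw [h2, h3]
          have h4 : x * (ε / 2 * Real.log d) * n ≤ 1 * (ε / 2 * Real.log d) * n := by gcongr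
          have h5 : (x + ε) * (n * Real.log d) = x * (n * Real.log d) + ε / 2 * Real.log d * n +
            ε / 2 * Real.log d * n := by ring
          rw [h5]
          linarith
  have hpos := Real.exp_pos (-((x + ε) * (n * Real.log d)))
  constructor
  · have h1 : Real.exp (-((x + ε) * (n * Real.log d))) < sSup (GS ψ c₀ (r / 2)) := by linarith
    have hne : (GS ψ c₀ (r / 2)).Nonempty := by
      by_contra h2
      rw [not_nonempty_iff_eq_empty] at h2
      rw [h2, Real.sSup_empty] at h1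
      linarith
    obtain ⟨y, ⟨w, hw, hwc, rfl⟩, hy⟩ := exists_lt_of_lt_csSup hne h1
    refine ⟨w, hw, ?_, hy.le⟩
    have h2 := norm_sub_le (ψ w - c₀) (c - c₀)
    rw [sub_sub_sub_cancel_right] at h2
    linarith
  · have h1 := Ang_mono (ψ := ψ) (show ball c₀ (r / 2) ⊆ ball c r by
      apply ball_subset_ball'
      rw [dist_comm, dist_eq_norm]
      linarith)
    linarith

/-- **Lower bounds, inner range.** -/
theorem low_1 {d : ℕ} (hd : 2 ≤ d) {χ : ℝ} {c₀ : ℂ} (h : Lyap d χ c₀) {ψ : ℂ → ℂ}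
    (hψ : IsExteriorMap (multibrotSet d) ψ) {x ε : ℝ} (hx : 1 ≤ x) (hε : 0 < ε) (hε1 : ε ≤ 1) :
    ∃ δ : ℝ, 0 < δ ∧ ∀ᶠ n : ℕ in atTop, ∀ c l m : ℂ, Cp d n χ δ c₀ c l m →
      (∃ w : ℂ, 1 < ‖w‖ ∧ ‖ψ w - c‖ ≤ Real.exp (-(Lx d χ x * n)) ∧
        Real.exp (-((x + ε) * (n * Real.log d))) ≤ Real.log ‖w‖) ∧
      Real.exp (-((x + ε) * (n * Real.log d))) ≤
        (volume (Ang ψ c (Real.exp (-(Lx d χ x * n))))).toReal := by
  have hχ := h.1
  have hdR : (2 : ℝ) ≤ d := by exact_mod_cast hd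
  have hlogd : 0 < Real.log d := Real.log_pos (by linarith)
  have hlog2 : 0 < Real.log 2 := Real.log_pos (by norm_num)
  have hd1 : (0 : ℝ) < (d : ℝ) - 1 := by linarith
  have hx0 : 0 ≤ x := by linarith
  obtain ⟨h1, h2⟩ := fl_bd hx0
  have hfl : 1 ≤ ⌊x⌋₊ := by
    rw [Nat.one_le_floor_iff]
    exact hx
  obtain ⟨i, hi⟩ : ∃ i, ⌊x⌋₊ = i + 1 := ⟨⌊x⌋₊ - 1, by omega⟩
  obtain ⟨J, hJ⟩ := exists_nat_ge x
  rw [hi] at h1 h2
  obtain ⟨δ₁, hδ₁, H1⟩ := lower_core hd h i (s := x - (i + 1 : ℕ)) (ε := ε / 4)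
    (Real.log 2 / (d - 1) + 2 + Real.log 2) (by positivity) h1 h2
  obtain ⟨δ₂, hδ₂, H2⟩ := up_x hd h hψ (x := x + 1) (ε := 1 / 2) (by linarith) (by norm_num)
  obtain ⟨g, hg⟩ : ∃ g : ℝ, g = χ * 1 / d ^ (J + 1) := ⟨_, rfl⟩
  have hg0 : 0 < g := by rw [hg]; positivity
  have hgap : Lx d χ x + g ≤ Lx d χ (x + 1) := by
    rw [hg]
    exact Lx_gap hd hχ hx0 hJ (by norm_num) le_rfl
  have hLx : Lx d χ x = lam d χ (i + 1) (x - (i + 1 : ℕ)) := by unfold Lx; rw [hi]
  refine ⟨min δ₁ δ₂, lt_min hδ₁ hδ₂, ?_⟩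
  filter_upwards [H1, H2, eventually_ge_atTop 1, ev_lin hg0 (Real.log 2),
    ev_lin (show 0 < 1 / 4 * Real.log d by positivity) (Real.log 2),
    ev_factor (show 0 < 2 * (χ * d / (d - 1)) by positivity)
      (show 0 < ε / 2 * Real.log d by positivity)]
    with n hn1 hn2 hn3 hn4 hn5 hn6 c l m hc
  have hn0 : (0 : ℝ) < n := by exact_mod_cast hn3
  have hup := hn2 c l m (Cp_mono (min_le_right _ _) hc)
  obtain ⟨a1, a2, a3, a4, a5, a6, a7, a8, a9, a10⟩ := Cp_mono (min_le_left δ₁ δ₂) hc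
  obtain ⟨N, ρ, hN, hρ1, hρ2, hK⟩ := hn1 c l m a1 a2 a3 a4 a5 a7 a8 a9 a10
  rw [← hLx] at hρ1 hρ2
  have hNx : (N : ℝ) ≤ (x + ε / 4) * n := by
    refine hN.trans (le_of_eq ?_)
    ring
  have hρ0 : 0 < ρ := lt_trans (by positivity) hρ1
  have hdN : Real.exp (-((x + ε / 4) * (n * Real.log d))) ≤ 1 / (d : ℝ) ^ N := by
    have h6 : (d : ℝ) ^ N = Real.exp (N * Real.log d) := by
      rw [Real.exp_nat_mul, Real.exp_log (by linarith)]
    rw [h6, one_div, ← Real.exp_neg]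
    apply Real.exp_le_exp.2
    have h7 : N * Real.log d ≤ (x + ε / 4) * n * Real.log d := by gcongr
    linarith
  have hl0 : 0 ≤ Real.log 2 / ((d : ℝ) - 1) := by positivity
  have hnl : 0 < n * Real.log d := by positivity
  constructor
  · obtain ⟨w, hw, hw2, hw3⟩ := green_of_avg hd hψ hρ0 (by linarith) hK
    refine ⟨w, hw, hw2.le.trans hρ2.le, le_trans ?_ (hdN.trans hw3)⟩
    apply Real.exp_le_exp.2
    have : (x + ε / 4) * (n * Real.log d) ≤ (x + ε) * (n * Real.log d) := by gcongr; linarith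
    linarith
  · obtain ⟨ρ', hρ'⟩ : ∃ ρ' : ℝ, ρ' = Real.exp (-(Lx d χ (x + 1) * n)) := ⟨_, rfl⟩
    have hρ'0 : 0 < ρ' := by rw [hρ']; exact Real.exp_pos _
    have hρ'ρ : ρ' < ρ := by
      refine lt_of_le_of_lt ?_ hρ1
      rw [le_div_iff₀ (by norm_num), hρ']
      calc Real.exp (-(Lx d χ (x + 1) * n)) * 2 =
            Real.exp (-(Lx d χ (x + 1) * n)) * Real.exp (Real.log 2) := by
            rw [Real.exp_log (by norm_num)]
        _ ≤ _ := by
            rw [← Real.exp_add]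
            apply Real.exp_le_exp.2
            have : (Lx d χ x + g) * n ≤ Lx d χ (x + 1) * n := by gcongr
            linarith
    have h3 := vol_of_avg hd hψ a1 hρ'0 hρ'ρ hρ2 (Real.exp_pos _).le
      (fun w hw hwc => hup w hw (hwc.trans hρ'.le)) hK
    obtain ⟨V, hV⟩ : ∃ V : ℝ, V = (volume (Ang ψ c (Real.exp (-(Lx d χ x * n))))).toReal :=
      ⟨_, rfl⟩
    rw [← hV] at h3 ⊢
    have hV0 : 0 ≤ V := by rw [hV]; exact ENNReal.toReal_nonneg
    have hA : Real.log (ρ / ρ') ≤ χ * d / (d - 1) * n := by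
      rw [Real.log_div hρ0.ne' hρ'0.ne', hρ', Real.log_exp]
      have h4 := Real.log_le_log hρ0 hρ2.le
      rw [Real.log_exp] at h4
      have h5 := (Lx_bd hd hχ hx0).1
      have h6 := (Lx_bd hd hχ (show 0 ≤ x + 1 by linarith)).2
      have h7 : Lx d χ (x + 1) * n ≤ χ * d / (d - 1) * n := by gcongr
      have h8 : 0 ≤ Lx d χ x * n := by positivity
      linarith
    have hpi := Real.pi_gt_three
    have hT : Real.exp (-((x + ε / 4) * (n * Real.log d))) ≤
        (Real.log 2 / (d - 1) + 2 + Real.log 2 - Real.log 2) / (d : ℝ) ^ N := by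
      refine hdN.trans ?_
      gcongr
      linarith
    have hS : 2 * Real.exp (-((x + 1 - 1 / 2) * (n * Real.log d))) ≤
        Real.exp (-((x + ε / 4) * (n * Real.log d))) := by
      calc 2 * Real.exp (-((x + 1 - 1 / 2) * (n * Real.log d))) =
            Real.exp (Real.log 2) * Real.exp (-((x + 1 - 1 / 2) * (n * Real.log d))) := by
            rw [Real.exp_log (by norm_num)]
        _ ≤ _ := by
            rw [← Real.exp_add]
            apply Real.exp_le_exp.2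
            have h4 : (x + 1 - 1 / 2) * (n * Real.log d) = (x + 1 / 4) * (n * Real.log d) +
              1 / 4 * Real.log d * n := by ring
            have h5 : (x + ε / 4) * (n * Real.log d) ≤ (x + 1 / 4) * (n * Real.log d) := by
              gcongr
            rw [h4]
            linarith
    have h4 : Real.exp (-((x + ε / 4) * (n * Real.log d))) ≤ 2 * (χ * d / (d - 1)) * n * V := by
      have h5 : Real.log (ρ / ρ') * (V / (2 * Real.pi)) ≤ χ * d / (d - 1) * n * V := by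
        have h6 : V / (2 * Real.pi) ≤ V := by
          apply div_le_self hV0
          linarith
        have h7 : 0 ≤ V / (2 * Real.pi) := by positivity
        calc Real.log (ρ / ρ') * (V / (2 * Real.pi)) ≤ χ * d / (d - 1) * n * (V / (2 * Real.pi)) := by
              gcongr
          _ ≤ _ := by gcongr
      linarith
    have h5 : Real.exp (-((x + ε / 4) * (n * Real.log d))) ≤
        Real.exp (ε / 2 * Real.log d * n) * V := by
      refine h4.trans ?_
      gcongr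
    have h6 : Real.exp (-((x + ε) * (n * Real.log d))) ≤
        Real.exp (-((x + ε / 4) * (n * Real.log d))) / Real.exp (ε / 2 * Real.log d * n) := by
      rw [← Real.exp_sub]
      apply Real.exp_le_exp.2
      have : (x + ε) * (n * Real.log d) = (x + ε / 4) * (n * Real.log d) +
        ε / 2 * Real.log d * n + ε / 4 * (n * Real.log d) := by ring
      have h7 : 0 ≤ ε / 4 * (n * Real.log d) := by positivity
      linarith
    refine h6.trans ?_
    rw [div_le_iff₀ (Real.exp_pos _)]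
    linarith

end Pool.Agent.H206.Gre
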