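import Pool.Agent.H206.GreE

set_option autoImplicit false

/-! # The law at all radii -/

namespace Pool.Agent.H206.Gre

open Filter Topology Set Metric MeasureTheory
open N62a1eb23
open Pool.Agent.H712R2 (P fc P_zero P_succ mem_multibrot_iff P_one)
open Pool.Agent.H713R2 (IsBeta differentiable_P IsExteriorMap)
open Pool.Agent.Y298.CA
open Pool.Agent.N253.MS (ev_lin)
open Pool.Agent.Y736.HD (Ang vol_Ang_ne Ang_sub)

/-- **The law.** -/
theorem law_x {d : ℕ} (hd : 2 ≤ d) {χ : ℝ} {c₀ : ℂ} (h : Lyap d χ c₀) {ψ : ℂ → ℂ}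
    (hψ : IsExteriorMap (multibrotSet d) ψ) (J : ℕ) {ε : ℝ} (hε : 0 < ε) (hε1 : ε ≤ 1) :
    ∃ ε₁ : ℝ, 0 < ε₁ ∧ ∃ δ : ℝ, 0 < δ ∧ ∀ᶠ n : ℕ in atTop, ∀ c l m : ℂ,
      Cp d n χ δ c₀ c l m → ∀ x : ℝ, 0 ≤ x → x ≤ J → ∀ r : ℝ,
        Real.exp (-((Lx d χ x + ε₁) * n)) ≤ r → r ≤ Real.exp (-((Lx d χ x - ε₁) * n)) → r ≤ 1 →
        (∀ w : ℂ, 1 < ‖w‖ → ‖ψ w - c‖ ≤ r →
          Real.log ‖w‖ ≤ Real.exp (-((x - ε) * (n * Real.log d)))) ∧
        (∃ w : ℂ, 1 < ‖w‖ ∧ ‖ψ w - c‖ ≤ r ∧
          Real.exp (-((x + ε) * (n * Real.log d))) ≤ Real.log ‖w‖) ∧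
        (volume (Ang ψ c r)).toReal ≤ Real.exp (-((x - ε) * (n * Real.log d))) ∧
        Real.exp (-((x + ε) * (n * Real.log d))) ≤ (volume (Ang ψ c r)).toReal := by
  have hχ := h.1
  have hdR : (2 : ℝ) ≤ d := by exact_mod_cast hd
  have hlogd : 0 < Real.log d := Real.log_pos (by linarith)
  have hlog2 : 0 < Real.log 2 := Real.log_pos (by norm_num)
  have hpi := Real.pi_pos
  obtain ⟨Q, hQ⟩ := exists_nat_ge (8 / ε)
  have hQ8 : (8 : ℝ) ≤ Q := by
    refine le_trans ?_ hQ
    rw [le_div_iff₀ hε]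
    linarith
  have hQ0 : (0 : ℝ) < Q := by linarith
  have hQε : 1 / (Q : ℝ) ≤ ε / 8 := by
    rw [div_le_div_iff₀ hQ0 (by norm_num)]
    rw [div_le_iff₀ hε] at hQ
    linarith
  have hQ1 : 2 / (Q : ℝ) ≤ 1 := by
    rw [div_le_one hQ0]
    linarith
  have h2Q : 2 / (Q : ℝ) = 1 / Q + 1 / Q := by ring
  obtain ⟨g, hg⟩ : ∃ g : ℝ, g = χ * (1 / Q) / d ^ (J + 1) := ⟨_, rfl⟩
  have hg0 : 0 < g := by rw [hg]; positivity
  obtain ⟨δ₁, hδ₁, H1⟩ := fin_all (d := d) (χ := χ) (c₀ := c₀) (R := fun q n c _ _ =>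
    ∀ w : ℂ, 1 < ‖w‖ → ‖ψ w - c‖ ≤ Real.exp (-(Lx d χ ((q : ℝ) / Q) * n)) →
      Real.log ‖w‖ ≤ Real.exp (-(((q : ℝ) / Q - ε / 8) * (n * Real.log d))))
    (fun q => up_x hd h hψ (by positivity) (by positivity)) (J * Q + 1)
  obtain ⟨δ₂, hδ₂, H2⟩ := fin_all (d := d) (χ := χ) (c₀ := c₀) (R := fun q n c _ _ =>
    (∃ w : ℂ, 1 < ‖w‖ ∧ ‖ψ w - c‖ ≤ Real.exp (-(Lx d χ (((q : ℝ) + 1) / Q) * n)) ∧
      Real.exp (-((((q : ℝ) + 1) / Q + ε / 8) * (n * Real.log d))) ≤ Real.log ‖w‖) ∧
    Real.exp (-((((q : ℝ) + 1) / Q + ε / 8) * (n * Real.log d))) ≤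
      (volume (Ang ψ c (Real.exp (-(Lx d χ (((q : ℝ) + 1) / Q) * n))))).toReal)
    (fun q => by
      rcases lt_or_ge (((q : ℝ) + 1) / Q) 1 with h1 | h1
      · exact low_0 hd h hψ (by positivity) h1 (by positivity)
      · exact low_1 hd h hψ h1 (by positivity) (by linarith)) (J * Q + 2)
  refine ⟨g / 2, by positivity, min δ₁ δ₂, lt_min hδ₁ hδ₂, ?_⟩
  filter_upwards [H1, H2, eventually_ge_atTop 1, ev_lin (show 0 < g / 2 by positivity) (Real.log 2),
    ev_lin (show 0 < ε / 8 * Real.log d by positivity) (Real.log (2 * Real.pi)),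
    ev_lin (show 0 < ε / 8 * Real.log d by positivity) (Real.log (2 * Real.pi / Real.log 2))]
    with n hn1 hn2 hn3 hn4 hn5 hn6 c l m hc x hx0 hxJ r hr1 hr2 hr3
  have hn0 : (0 : ℝ) < n := by exact_mod_cast hn3
  have hnl : 0 < n * Real.log d := by positivity
  have hup := hn1 c l m (Cp_mono (min_le_left _ _) hc)
  have hlo := hn2 c l m (Cp_mono (min_le_right _ _) hc)
  have hcM := hc.1
  have hr0 : 0 < r := lt_of_lt_of_le (Real.exp_pos _) hr1
  obtain ⟨q, hq⟩ : ∃ q, q = ⌊x * Q⌋₊ := ⟨_, rfl⟩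
  have hq1 : (q : ℝ) ≤ x * Q := by rw [hq]; exact Nat.floor_le (by positivity)
  have hq2 : x * Q < q + 1 := by rw [hq]; exact Nat.lt_floor_add_one _
  have hqJ : q < J * Q + 1 := by
    have h1 : (q : ℝ) ≤ J * Q := hq1.trans (by gcongr)
    have h2 : q ≤ J * Q := by exact_mod_cast h1
    omega
  have hxq : x < ((q : ℝ) + 1) / Q := by rwa [lt_div_iff₀ hQ0]
  have hxq1 : (q : ℝ) / Q ≤ x := by rwa [div_le_iff₀ hQ0]
  have hexp : ∀ {a b : ℝ}, b ≤ a → Real.exp (-(a * (n * Real.log d))) ≤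
      Real.exp (-(b * (n * Real.log d))) := by
    intro a b hab
    gcongr
  have hAll : (∀ w : ℂ, 1 < ‖w‖ → ‖ψ w - c‖ ≤ r →
      Real.log ‖w‖ ≤ Real.exp (-((x - ε) * (n * Real.log d)))) ∧
      (volume (Ang ψ c r)).toReal ≤ Real.exp (-((x - ε) * (n * Real.log d))) := by
    rcases Nat.eq_zero_or_pos q with hq0 | hq0
    · rw [hq0] at hxq
      push_cast at hxq
      rw [zero_add] at hxq
      constructor
      · intro w hw hwc
        have h1 := hup 0 (by omega) w hw (by
          have h2 : Lx d χ (((0 : ℕ) : ℝ) / Q) = 0 := by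
            push_cast
            rw [zero_div]
            unfold Lx lam
            simp
          rw [h2, zero_mul, neg_zero, Real.exp_zero]
          exact hwc.trans hr3)
        refine h1.trans (hexp ?_)
        push_cast
        rw [zero_div]
        linarith
      · have h1 : (volume (Ang ψ c r)).toReal ≤ 2 * Real.pi := by
          have h2 := ENNReal.toReal_mono (measure_Ioc_lt_top (a := (0 : ℝ)) (b := 2 * Real.pi)).ne
            (measure_mono (μ := volume) (Ang_sub ψ c r))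
          rw [Real.volume_Ioc, sub_zero, ENNReal.toReal_ofReal (by positivity)] at h2
          exact h2
        refine h1.trans ?_
        rw [← Real.log_le_iff_le_exp (by positivity)]
        have h2 : ε / 8 * (n * Real.log d) ≤ (ε - x) * (n * Real.log d) :=
          mul_le_mul_of_nonneg_right (by linarith) hnl.le
        have h3 : ε / 8 * Real.log d * n = ε / 8 * (n * Real.log d) := by ring
        rw [h3] at hn5
        have h4 : -((x - ε) * (n * Real.log d)) = (ε - x) * (n * Real.log d) := by ring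
        rw [h4]
        linarith
    · obtain ⟨q', rfl⟩ : ∃ q', q = q' + 1 := ⟨q - 1, by omega⟩
      push_cast at hxq hxq1
      rw [add_div] at hxq1
      rw [add_div, add_div] at hxq
      obtain ⟨y, hy⟩ : ∃ y : ℝ, y = (q' : ℝ) / Q := ⟨_, rfl⟩
      rw [← hy] at hxq hxq1
      have hy0 : 0 ≤ y := by rw [hy]; positivity
      have h1Q : 0 < 1 / (Q : ℝ) := by positivity
      have hgap := Lx_gap (J := J) hd hχ (x := y) (η := x - y) hy0 (by linarith) (by linarith)
        (by linarith)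
      rw [add_sub_cancel] at hgap
      have hg2 : g ≤ χ * (x - y) / d ^ (J + 1) := by
        rw [hg]
        gcongr
        linarith
      have h2r : 2 * r ≤ Real.exp (-(Lx d χ y * n)) := by
        calc 2 * r ≤ Real.exp (Real.log 2) * Real.exp (-((Lx d χ x - g / 2) * n)) := by
              rw [Real.exp_log (by norm_num)]
              gcongr
          _ ≤ _ := by
              rw [← Real.exp_add]
              apply Real.exp_le_exp.2
              have h3 : (Lx d χ y + g) * n ≤ Lx d χ x * n := by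
                gcongr
                linarith
              linarith
      have hS : ∀ w : ℂ, 1 < ‖w‖ → ‖ψ w - c‖ ≤ 2 * r →
          Real.log ‖w‖ ≤ Real.exp (-((y - ε / 8) * (n * Real.log d))) := by
        intro w hw hwc
        have h3 := hup q' (by omega) w hw (by
          rw [← hy]
          exact hwc.trans h2r)
        rwa [← hy] at h3
      constructor
      · intro w hw hwc
        refine (hS w hw (by linarith)).trans (hexp ?_)
        linarith
      · have h3 := Pool.Agent.Y736.HG.vol_le hd hψ hcM hr0 (Real.exp_pos _).le hS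
        refine h3.trans ?_
        have h4 : 2 * Real.pi * Real.exp (-((y - ε / 8) * (n * Real.log d))) / Real.log 2 =
            (2 * Real.pi / Real.log 2) * Real.exp (-((y - ε / 8) * (n * Real.log d))) := by ring
        rw [h4]
        calc (2 * Real.pi / Real.log 2) * Real.exp (-((y - ε / 8) * (n * Real.log d))) ≤
              Real.exp (ε / 8 * Real.log d * n) *
                Real.exp (-((y - ε / 8) * (n * Real.log d))) := by
              gcongr
              rw [← Real.log_le_iff_le_exp (by positivity)]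
              exact hn6.le
          _ ≤ _ := by
              rw [← Real.exp_add]
              apply Real.exp_le_exp.2
              have h5 : (x - ε) * (n * Real.log d) ≤ (y - ε / 8 - ε / 8) * (n * Real.log d) :=
                mul_le_mul_of_nonneg_right (by linarith) hnl.le
              have h6 : (y - ε / 8 - ε / 8) * (n * Real.log d) =
                (y - ε / 8) * (n * Real.log d) - ε / 8 * Real.log d * n := by ring
              linarith
  have hAll2 : (∃ w : ℂ, 1 < ‖w‖ ∧ ‖ψ w - c‖ ≤ r ∧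
      Real.exp (-((x + ε) * (n * Real.log d))) ≤ Real.log ‖w‖) ∧
      Real.exp (-((x + ε) * (n * Real.log d))) ≤ (volume (Ang ψ c r)).toReal := by
    obtain ⟨⟨w, hw, hw2, hw3⟩, hv⟩ := hlo (q + 1) (by omega)
    push_cast at hw2 hw3 hv
    obtain ⟨y, hy⟩ : ∃ y : ℝ, y = ((q : ℝ) + 1 + 1) / Q := ⟨_, rfl⟩
    rw [← hy] at hw2 hw3 hv
    have hyx : y = ((q : ℝ) + 1) / Q + 1 / Q := by rw [hy, add_div]
    have h1Q : 0 < 1 / (Q : ℝ) := by positivity
    have hyx2 : y ≤ x + 2 / Q := by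
      rw [hyx, h2Q, add_div]
      linarith
    have hgap := Lx_gap (J := J) hd hχ (x := x) (η := y - x) hx0 hxJ (by linarith)
      (by linarith)
    rw [add_sub_cancel] at hgap
    have hg2 : g ≤ χ * (y - x) / d ^ (J + 1) := by
      rw [hg]
      gcongr
      linarith
    have hrr : Real.exp (-(Lx d χ y * n)) ≤ r := by
      refine le_trans (Real.exp_le_exp.2 ?_) hr1
      have h3 : (Lx d χ x + g / 2) * n ≤ Lx d χ y * n := by
        gcongr
        linarith
      linarith
    have hfin : Real.exp (-((x + ε) * (n * Real.log d))) ≤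
        Real.exp (-((y + ε / 8) * (n * Real.log d))) := hexp (by linarith)
    refine ⟨⟨w, hw, hw2.trans hrr, hfin.trans hw3⟩, hfin.trans (hv.trans ?_)⟩
    exact Ang_mono (ball_subset_ball hrr)
  exact ⟨hAll.1, hAll2.1, hAll.2, hAll2.2⟩

end Pool.Agent.H206.Gre
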