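import Pool.Agent.H206.HairF

set_option autoImplicit false

/-! # Superattracting parameters near the points outside of a perfect copy: the result -/

namespace Pool.Agent.H206.Hair

open Filter Topology Set Metric
open N62a1eb23
open Pool.Agent.H712R2 (P fc P_zero P_succ mem_multibrot_iff P_one)
open Pool.Agent.H713R2 (IsBeta differentiable_P)
open Pool.Agent.TH279.MD Pool.Agent.Y298.SH.CD Pool.Agent.Y298.CA Pool.Agent.N772.ST
open Pool.Agent.N772.PC (Un)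
open Pool.Agent.N253.MS (ev_lin)

/-- sizes at the target -/
theorem sizes {χ Y δ b a C₂ Ck D K cc ll n : ℝ} (hn : 0 < n) (hδ : 0 < δ) (hb0 : 0 < b)
    (ha0 : 0 < a) (hD1 : 1 ≤ D) (hC₂ : 0 < C₂) (hCk : 0 < Ck)
    (hla : Real.log a ≤ Real.log b + (χ - 3 / 2 * δ) * n)
    (hc : cc ≤ Real.exp (-((χ - δ) * n))) (hl0 : 0 ≤ ll)
    (hl : ll ≤ Real.exp (-((χ + Y - δ / 4) * n))) (hY : 0 < Y)
    (hn6 : Real.log (8 * C₂ * Ck) < Y * n) (hn7 : Real.log K < Y * n) (hK : 0 < K) :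
    cc + ll * K < 2 * b / a ∧ 4 * C₂ * a * (ll * Ck) ≤ D / 2 * b := by
  have hba : b / a = Real.exp (Real.log b - Real.log a) := by
    rw [Real.exp_sub, Real.exp_log hb0, Real.exp_log ha0]
  have hba2 : Real.exp (-((χ - 3 / 2 * δ) * n)) ≤ b / a := by
    rw [hba]
    apply Real.exp_le_exp.2
    linarith
  have hδn : 0 < δ * n := by positivity
  have hYn : 0 < Y * n := by positivity
  constructor
  · have h1 : cc ≤ b / a := hc.trans ((Real.exp_le_exp.2 (by linarith)).trans hba2)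
    have h2 : ll * K < b / a := by
      have h3 : K < Real.exp (Y * n) := (Real.log_lt_iff_lt_exp hK).1 hn7
      calc ll * K ≤ Real.exp (-((χ + Y - δ / 4) * n)) * K := by gcongr
        _ < Real.exp (-((χ + Y - δ / 4) * n)) * Real.exp (Y * n) := by gcongr
        _ = Real.exp (-((χ - δ / 4) * n)) := by rw [← Real.exp_add]; congr 1; ring
        _ ≤ Real.exp (-((χ - 3 / 2 * δ) * n)) := Real.exp_le_exp.2 (by linarith)
        _ ≤ _ := hba2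
    have h3 : 2 * b / a = b / a + b / a := by ring
    rw [h3]
    linarith
  · have h1 : a ≤ b * Real.exp ((χ - 3 / 2 * δ) * n) := by
      have h2 := (Real.log_le_iff_le_exp ha0).1 hla
      rwa [Real.exp_add, Real.exp_log hb0] at h2
    have h2 : 8 * C₂ * Ck ≤ Real.exp (Y * n) :=
      ((Real.log_lt_iff_lt_exp (by positivity)).1 hn6).le
    have h3 : a * ll ≤ b * Real.exp (-(Y * n)) := by
      calc a * ll ≤ (b * Real.exp ((χ - 3 / 2 * δ) * n)) *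
            Real.exp (-((χ + Y - δ / 4) * n)) := by gcongr
        _ = b * Real.exp (-(Y * n) - 5 / 4 * (δ * n)) := by
            rw [mul_assoc, ← Real.exp_add]; congr 2; ring
        _ ≤ _ := by
            have : Real.exp (-(Y * n) - 5 / 4 * (δ * n)) ≤ Real.exp (-(Y * n)) :=
              Real.exp_le_exp.2 (by linarith)
            gcongr
    calc 4 * C₂ * a * (ll * Ck) = 1 / 2 * (8 * C₂ * Ck) * (a * ll) := by ring
      _ ≤ 1 / 2 * Real.exp (Y * n) * (b * Real.exp (-(Y * n))) := by gcongr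
      _ = 1 / 2 * b * (Real.exp (Y * n) * Real.exp (-(Y * n))) := by ring
      _ = 1 / 2 * b := by rw [← Real.exp_add, add_neg_cancel, Real.exp_zero, mul_one]
      _ ≤ D / 2 * b := by nlinarith

/-- the conclusion of one step -/
theorem conclude {d Y δ q g₀ b D KK Ck W C ε₂ ρ n L ll e : ℝ} (hd : 0 < d) (hq : 0 < q)
    (hg₀ : 0 < g₀) (hYδ : 0 < Y - δ) (hb0 : 0 < b) (hD : 0 < D) (hKN : 0 < KK) (hCk : 0 < Ck)
    (hW : W = 4 * KK * Ck * (q * d * g₀) / (b * (Y - δ))) (hρ : 0 < ρ) (hn : 0 < n)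
    (hWε : W * ε₂ = ρ / 8) (hn8 : W * (2 + C) < ρ / 8 * n)
    (j6 : (Y - δ) * n ≤ q * (d * D * g₀)) (hL : L ≤ ε₂ * n + C) (hll : 0 < ll)
    (he : e * (D / 2 * b) ≤ 2 * KK * (2 + L) * (ll * Ck)) : e / ll ≤ ρ / 4 := by
  rw [div_le_iff₀ hll]
  have h1 : e * (D / 2 * b) ≤ 2 * KK * (2 + (ε₂ * n + C)) * (ll * Ck) := by
    refine he.trans ?_
    gcongr
  have h2 : W * (2 + (ε₂ * n + C)) ≤ ρ / 4 * n := by
    have : W * (2 + (ε₂ * n + C)) = W * (2 + C) + (W * ε₂) * n := by ring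
    rw [this, hWε]
    linarith
  have h3 : W * (b * (Y - δ)) = 4 * KK * Ck * (q * d * g₀) := by
    rw [hW]
    field_simp
  have h4 : 4 * KK * Ck * (2 + (ε₂ * n + C)) * (q * d * g₀) ≤ ρ / 4 * (b * D) * (q * d * g₀) := by
    calc 4 * KK * Ck * (2 + (ε₂ * n + C)) * (q * d * g₀) =
          (4 * KK * Ck * (q * d * g₀)) * (2 + (ε₂ * n + C)) := by ring
      _ = (W * (2 + (ε₂ * n + C))) * (b * (Y - δ)) := by rw [← h3]; ring
      _ ≤ (ρ / 4 * n) * (b * (Y - δ)) := by gcongr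
      _ = ρ / 4 * b * ((Y - δ) * n) := by ring
      _ ≤ ρ / 4 * b * (q * (d * D * g₀)) := by gcongr
      _ = _ := by ring
  have h5 := le_of_mul_le_mul_right h4 (by positivity)
  have h6 : e * (D / 2 * b) ≤ ρ / 4 * ll * (D / 2 * b) := by
    calc e * (D / 2 * b) ≤ 2 * KK * (2 + (ε₂ * n + C)) * (ll * Ck) := h1
      _ = 1 / 2 * ll * (4 * KK * Ck * (2 + (ε₂ * n + C))) := by ring
      _ ≤ 1 / 2 * ll * (ρ / 4 * (b * D)) := by gcongr
      _ = _ := by ring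
  exact le_of_mul_le_mul_right h6 (by positivity)

/-- **Superattracting parameters near the points outside of a perfect copy.** -/
theorem hair_local {d : ℕ} (hd : 2 ≤ d) {χ : ℝ} {c₀ : ℂ} (h : Lyap d χ c₀) {y : ℂ}
    (hy : y ∉ multibrotSet d) {ρ : ℝ} (hρ : 0 < ρ) : ∃ δ : ℝ, 0 < δ ∧ ∀ᶠ n : ℕ in atTop,
      ∀ c l m : ℂ, l ≠ 0 → m ≠ 0 → ‖c - c₀‖ ≤ Real.exp (-((χ - δ) * n)) →
        ‖l‖ ≤ Real.exp (-((χ * d / (d - 1) - δ / 4) * n)) →
        Real.exp (-((χ / (d - 1) + δ / 4) * n)) ≤ ‖m‖ →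
        ‖m‖ ≤ Real.exp (-((χ / (d - 1) - δ / 4) * n)) →
        Un d n c l m ((χ / (d - 1) - δ / 4) * n) →
        ∃ κ : ℂ, ‖κ - y‖ < ρ ∧ ∃ N : ℕ, P d (N + 1) (c + l * κ) = 0 := by
  have hχ : 0 < χ := h.1
  have hdR : (2 : ℝ) ≤ d := by exact_mod_cast hd
  have hd1 : (0 : ℝ) < (d : ℝ) - 1 := by linarith
  have hc₀ : ‖c₀‖ ≤ 2 := by
    have h1 := (mem_multibrot_iff hd c₀).1 h.2.1 1
    rwa [P_one hd] at h1
  obtain ⟨β, hβ⟩ := Pool.Agent.H713R2.exists_beta (d := d) hd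
  obtain ⟨hP, hz, hz2, hGr, hslow, C₂, hC₂, hW⟩ := lyap_data hd h
  obtain ⟨x₀, hx₀, hx0, hxy⟩ := hβ.surj y hy
  obtain ⟨g₀, r₂, hg₀, hr₂, ζ, hζ, hgeo, hX⟩ := geom hβ hx₀ hx0 hρ
  have hx₀n : 0 < ‖x₀‖ := norm_pos_iff.2 hx0
  have hx₀1 : ‖x₀‖ < 1 := by rwa [mem_ball_zero_iff] at hx₀
  rw [hxy] at hgeo
  -- the constants
  obtain ⟨Y, hY⟩ : ∃ Y : ℝ, Y = χ / (d - 1) := ⟨_, rfl⟩
  have hY0 : 0 < Y := by rw [hY]; positivity
  have hYχ : Y * (d - 1) = χ := by rw [hY]; field_simp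
  obtain ⟨θ, hθ⟩ : ∃ θ : ℝ, θ = min (1 / 4) (r₂ / (8 * g₀)) := ⟨_, rfl⟩
  have hθ0 : 0 < θ := by rw [hθ]; positivity
  have hθ1 : θ ≤ 1 / 4 := by rw [hθ]; exact min_le_left _ _
  have hθ2 : 8 * (θ * g₀) ≤ r₂ := by
    have h1 : θ ≤ r₂ / (8 * g₀) := by rw [hθ]; exact min_le_right _ _
    rw [le_div_iff₀ (by positivity)] at h1
    linarith
  obtain ⟨q, hq⟩ : ∃ q : ℝ, q = 1 + θ := ⟨_, rfl⟩
  have hq1 : 1 < q := by rw [hq]; linarith
  have hq2 : q ^ 2 ≤ 2 := by rw [hq]; nlinarith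
  have hq3 : q ^ 3 * g₀ < g₀ + r₂ := by
    have h1 : q ^ 3 ≤ 1 + 4 * θ := by
      have : q ^ 3 = 1 + 3 * θ + 3 * θ ^ 2 + θ ^ 3 := by rw [hq]; ring
      rw [this]
      have h2 : θ ^ 2 ≤ 1 / 4 * θ := by rw [sq]; gcongr
      have h3 : θ ^ 3 ≤ 1 / 4 * (1 / 4 * θ) := by
        calc θ ^ 3 = θ * θ ^ 2 := by ring
          _ ≤ 1 / 4 * (1 / 4 * θ) := by gcongr
      linarith
    have h2 : q ^ 3 * g₀ ≤ (1 + 4 * θ) * g₀ := by gcongr
    have h3 : 0 < θ * g₀ := mul_pos hθ0 hg₀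
    linarith
  obtain ⟨δ, hδ⟩ : ∃ δ : ℝ, δ = (q - 1) * Y / (q * (1 + d)) := ⟨_, rfl⟩
  have hq0 : 0 < q := by linarith
  have hq10 : 0 < q - 1 := by linarith
  have hδ0 : 0 < δ := by rw [hδ]; positivity
  have hδq : δ * (q * (1 + d)) ≤ (q - 1) * Y := by
    rw [hδ, div_mul_cancel₀]
    positivity
  have hδY : 3 * δ ≤ Y := by
    have h1 : δ * (1 * (1 + 2)) ≤ δ * (q * (1 + d)) := by gcongr
    have h2 : (q - 1) * Y ≤ 1 * Y := by
      gcongr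
      rw [hq]
      linarith
    linarith
  obtain ⟨η, hη⟩ : ∃ η : ℝ, η = δ * g₀ / (4 * Y) := ⟨_, rfl⟩
  have hη0 : 0 < η := by rw [hη]; positivity
  obtain ⟨ρ₁, hρ₁⟩ : ∃ ρ₁ : ℝ, ρ₁ = ‖x₀‖ / 2 := ⟨_, rfl⟩
  obtain ⟨ρ₂, hρ₂⟩ : ∃ ρ₂ : ℝ, ρ₂ = (1 + ‖x₀‖) / 2 := ⟨_, rfl⟩
  have hρ₁0 : 0 < ρ₁ := by rw [hρ₁]; positivity
  have hρ₂1 : ρ₂ < 1 := by rw [hρ₂]; linarith
  obtain ⟨r₁, hr₁⟩ : ∃ r₁ : ℝ, r₁ = min r₂ (ρ₁ * (1 - Real.exp (-η))) := ⟨_, rfl⟩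
  have hη1 : Real.exp (-η) < 1 := Real.exp_lt_one_iff.2 (by linarith)
  have hr₁0 : 0 < r₁ := by
    rw [hr₁]
    have : 0 < 1 - Real.exp (-η) := by linarith
    positivity
  have hr₁2 : r₁ ≤ r₂ := by rw [hr₁]; exact min_le_left _ _
  have hr₁3 : r₁ ≤ ρ₁ * (1 - Real.exp (-η)) := by rw [hr₁]; exact min_le_right _ _
  obtain ⟨p₀, hp₀, hp₁, HP⟩ := P_bounds hd hβ hρ₂1
  obtain ⟨A, hA, Hesc⟩ := esc hd hβ hρ₁0 hρ₂1
  obtain ⟨b, hb⟩ : ∃ b : ℝ, b = min (χ / (256 * d * C₂)) (1 / (16 * C₂)) := ⟨_, rfl⟩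
  have hb0 : 0 < b := by rw [hb]; positivity
  have hb1 : 256 * d * C₂ * b ≤ χ := by
    have h1 : b ≤ χ / (256 * d * C₂) := by rw [hb]; exact min_le_left _ _
    rw [le_div_iff₀ (by positivity)] at h1
    linarith
  have hb2 : 16 * C₂ * b ≤ 1 := by
    have h1 : b ≤ 1 / (16 * C₂) := by rw [hb]; exact min_le_right _ _
    rw [le_div_iff₀ (by positivity)] at h1
    linarith
  have hb3 : 16 * b ≤ 1 := by nlinarith
  obtain ⟨Ck, hCk⟩ : ∃ Ck : ℝ, Ck = ρ / 2 / (r₂ / 2) := ⟨_, rfl⟩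
  have hCk0 : 0 < Ck := by rw [hCk]; positivity
  have hKN := KN_pos
  have hYδ : 0 < Y - δ := by linarith
  obtain ⟨W, hWdef⟩ : ∃ W : ℝ, W = 4 * KN * Ck * (q * d * g₀) / (b * (Y - δ)) := ⟨_, rfl⟩
  have hW0 : 0 < W := by rw [hWdef]; positivity
  obtain ⟨ε₂, hε₂⟩ : ∃ ε₂ : ℝ, ε₂ = ρ / (8 * W) := ⟨_, rfl⟩
  have hε₂0 : 0 < ε₂ := by rw [hε₂]; positivity
  have hWε : W * ε₂ = ρ / 8 := by rw [hε₂]; field_simp
  obtain ⟨C, hC, Hslow⟩ := hslow ε₂ hε₂0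
  obtain ⟨σ, hσ⟩ : ∃ σ : ℝ, σ = min (δ / 2) ((q - 1) * Y / 2) := ⟨_, rfl⟩
  have hσ0 : 0 < σ := by rw [hσ]; positivity
  have hσ1 : σ ≤ δ / 2 := by rw [hσ]; exact min_le_left _ _
  have hσ2 : σ ≤ (q - 1) * Y / 2 := by rw [hσ]; exact min_le_right _ _
  have hYleχ : Y ≤ χ := by
    rw [← hYχ]
    exact le_mul_of_one_le_right hY0.le (by linarith)
  refine ⟨δ, hδ0, ?_⟩
  filter_upwards [eventually_ge_atTop 1, window hχ hGr hσ0 (show σ ≤ χ by linarith),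
    J_small (G := Y / g₀) (L := Real.log A) (e := δ / 4) (by positivity) (by positivity),
    ev_lin hYδ (q * g₀), ev_lin hδ0 (-Real.log b),
    ev_lin (show 0 < (q - 1) * Y / 2 by positivity) (d * (Real.log 3 - Real.log (p₀ / 2))),
    ev_lin hYδ (4 / r₁ * Real.log (8 / p₀) * (q * d * g₀)),
    ev_lin hY0 (Real.log (8 * C₂ * Ck)), ev_lin hY0 (Real.log (‖y‖ + ρ)),
    ev_lin (show 0 < ρ / 8 by positivity) (W * (2 + C))]
    with n hn1 Hwin HJ hn2 hn3 hn4 hn5 hn6 hn7 hn8 c l m hl hm hc hln hm1 hm2 hU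
  have hnR : (1 : ℝ) ≤ n := by exact_mod_cast hn1
  have hn0 : (0 : ℝ) < n := by linarith
  rw [← hY] at hm1 hm2 hU
  obtain ⟨J, v₁, v₂, j1, j2, j3, j4, j5, j6⟩ := times hd hY0 hg₀ hq1 hq2 hδ0 hδq hn0 hn2.le
  obtain ⟨D, hDdef⟩ : ∃ D : ℝ, D = (d : ℝ) ^ J := ⟨_, rfl⟩
  rw [← hDdef] at j1 j3 j6
  have hD1 : 1 ≤ D := by rw [hDdef]; exact one_le_pow₀ (by linarith)
  have hD0 : 0 < D := by linarith
  have hv10 : 0 < v₁ := lt_of_lt_of_le (mul_pos hD0 hg₀) j1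
  have hv12 : v₁ ≤ v₂ := le_trans (le_mul_of_one_le_left hv10.le hq1.le) j5
  have hDY : D * g₀ ≤ Y * n := by
    have : 0 < δ * n := by positivity
    calc D * g₀ ≤ v₁ := j1
      _ ≤ v₂ := hv12
      _ ≤ (Y - δ) * n := j4
      _ ≤ Y * n := by
        gcongr
        linarith only [hδ0]
  have hJA : ((J : ℝ) + 1) * Real.log A ≤ δ / 4 * n := by
    apply HJ J d hd
    rw [← hDdef, div_mul_eq_mul_div, le_div_iff₀ hg₀]
    exact hDY
  have hmn : 0 < ‖m‖ := norm_pos_iff.2 hm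
  have hlnn : 0 < ‖l‖ := norm_pos_iff.2 hl
  obtain ⟨Λ, hΛ⟩ : ∃ Λ : ℝ, Λ = -Real.log ‖m‖ := ⟨_, rfl⟩
  have hmΛ : ‖m‖ = Real.exp (-Λ) := by rw [hΛ, neg_neg, Real.exp_log hmn]
  have hΛ1 : (Y - δ / 4) * n ≤ Λ := by
    have := (Real.log_le_iff_le_exp hmn).2 hm2
    linarith only [this, hΛ]
  have hΛ2 : Λ ≤ (Y + δ / 4) * n := by
    have := (Real.le_log_iff_exp_le hmn).2 hm1
    linarith only [this, hΛ]
  have hb1' : b ≤ 1 := by linarith only [hb3, hb0]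
  obtain ⟨w1, w2, w3'⟩ := arith (χ := χ) (p₀ := p₀) hdR hYχ hδ0 hq1 hσ1 hσ2 hb0 hb1' hp₀ hp₁ hn0
    hΛ1 hΛ2 j2 j4 j5 hn3 hn4
  have hlogb : Real.log b ≤ 0 := Real.log_nonpos hb0.le hb1'
  obtain ⟨A₁, hA₁⟩ : ∃ A₁ : ℝ, A₁ = Real.log b + d * (Λ - v₂ - Real.log (p₀ / 2)) := ⟨_, rfl⟩
  obtain ⟨A₂, hA₂⟩ : ∃ A₂ : ℝ, A₂ = Real.log b + d * (Λ - v₁ - Real.log 3) := ⟨_, rfl⟩
  rw [← hA₁] at w1 w2
  rw [← hA₂] at w2 w3'
  have w3 : A₂ ≤ χ * n := by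
    have : 0 ≤ 3 / 2 * δ * n := by positivity
    linarith only [this, w3', hlogb]
  obtain ⟨j, k1, k2, k3, k4⟩ := Hwin A₁ A₂ w1 w2 w3
  obtain ⟨a, ha⟩ : ∃ a : ℝ, a = Pd d c₀ j / ‖zz d c₀ j‖ := ⟨_, rfl⟩
  simp only [← ha] at k2 k3 k4
  have ha0 : 0 < a := by
    rw [ha]
    exact div_pos (hP j) (norm_pos_iff.2 (hz j))
  have hjn : (j : ℝ) ≤ n := by rwa [div_self hχ.ne', one_mul] at k1
  have ha1 : 1 ≤ a := by
    rw [← Real.log_nonneg_iff ha0]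
    have : 0 ≤ σ * n := by positivity
    linarith only [this, w1, k2]
  have hla : Real.log a ≤ Real.log b + (χ - 3 / 2 * δ) * n := k3.trans w3'
  obtain ⟨T, hTe, hT1, hT2⟩ := target (d := d) (by positivity) hb0 ha0 (by rw [← hA₁]; exact k2)
    (by rw [← hA₂]; exact k3)
  -- the path
  obtain ⟨X, hXd⟩ : ∃ X : ℝ → ℂ, X = fun s => (Real.exp (-s) : ℂ) * ζ := ⟨_, rfl⟩
  have hXn : ∀ s, ‖X s‖ = Real.exp (-s) := by
    intro s
    rw [hXd]
    simp only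
    rw [norm_mul, hζ, mul_one, Complex.norm_real, Real.norm_eq_abs, abs_of_pos (Real.exp_pos _)]
  have hXc : Continuous X := by
    rw [hXd]
    fun_prop
  have hXb : ∀ s, g₀ ≤ s → s ≤ q ^ 3 * g₀ → X s ∈ ball x₀ r₂ := by
    intro s h1 h2
    rw [hXd]
    exact hX s h1 (h2.trans_lt hq3)
  have hsub : ∀ s, g₀ ≤ s → s ≤ q ^ 3 * g₀ → ∀ x, dist x (X s) < r₂ → x ∈ ball x₀ (2 * r₂) := by
    intro s h1 h2 x hx
    have h3 := hXb s h1 h2
    rw [mem_ball] at h3 ⊢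
    have := dist_triangle x (X s) x₀
    linarith only [this, h3, hx]
  have hDη : D * η ≤ δ / 4 * n := by
    rw [hη]
    calc D * (δ * g₀ / (4 * Y)) = δ / (4 * Y) * (D * g₀) := by ring
      _ ≤ δ / (4 * Y) * (Y * n) := by gcongr
      _ = δ / 4 * n := by field_simp
  obtain ⟨s, hs1, hs2, hsT, hsd⟩ := path (l := l) (c := c) (T := T) hd hρ₁0 hρ₂1 hp₀ hA HP Hesc hm
    hU hDdef hXc hr₁0 hXn (fun s h1 h2 x hx => by
      obtain ⟨g1, g2, g3, -⟩ := hgeo x (hsub s h1 h2 x (lt_of_lt_of_le hx hr₁2))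
      rw [hρ₁, hρ₂]
      exact ⟨g1, g2, g3⟩) hr₁3 hη1 hv12 j1 j3 (by
      have : 0 < δ * n := by positivity
      linarith only [this, hJA, j4, hDη]) hT1 hT2
  -- the point
  have hXs := hXb s hs1 hs2
  obtain ⟨x, hx⟩ : ∃ x : ℂ, x = X s := ⟨_, rfl⟩
  rw [← hx] at hsT hsd hXs
  obtain ⟨M, hM⟩ : ∃ M : ℕ, M = n * (J + 1) := ⟨_, rfl⟩
  rw [← hM] at hsT hsd
  obtain ⟨k, hk⟩ : ∃ k : ℂ → ℂ, k = fun x => c + l * (x⁻¹ * β x) := ⟨_, rfl⟩
  have hkx : ∀ x, k x = c + l * (x⁻¹ * β x) := fun x => by rw [hk]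
  simp only [← hkx] at hsT hsd
  have hkd : ∀ x ∈ ball x₀ (2 * r₂), DifferentiableAt ℂ k x := by
    intro x hx
    rw [hk]
    exact ((hgeo x hx).2.2.1.const_mul l).const_add c
  have hx2 : x ∈ ball x₀ (2 * r₂) := by
    rw [mem_ball] at hXs ⊢
    linarith only [hXs, hr₂]
  have hkap := (hgeo x hx2).2.2.2
  have hkapn : ‖x⁻¹ * β x‖ < ‖y‖ + ρ := by
    have := norm_sub_norm_le (x⁻¹ * β x) y
    linarith only [this, hkap, hρ]
  -- the derivative of `k`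
  have hkder : ‖deriv k x‖ ≤ ‖l‖ * Ck := by
    have h1 : DifferentiableAt ℂ (fun x => x⁻¹ * β x) x := (hgeo x hx2).2.2.1
    have h2 : deriv k x = l * deriv (fun x => x⁻¹ * β x - y) x := by
      rw [hk, deriv_const_add, deriv_const_mul _ h1, deriv_sub_const]
    have hsub2 : closedBall x (r₂ / 2) ⊆ ball x₀ (2 * r₂) := by
      intro z hz
      rw [mem_closedBall] at hz
      rw [mem_ball] at hXs ⊢
      have := dist_triangle z x x₀
      linarith only [this, hz, hXs, hr₂]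
    have h3 : ‖deriv (fun x => x⁻¹ * β x - y) x‖ ≤ Ck := by
      rw [hCk]
      apply Complex.norm_deriv_le_of_forall_mem_sphere_norm_le (half_pos hr₂)
      · apply DifferentiableOn.diffContOnCl
        intro z hz
        have hz' : z ∈ closedBall x (r₂ / 2) := by
          rwa [closure_ball x (half_pos hr₂).ne'] at hz
        exact ((hgeo z (hsub2 hz')).2.2.1.sub_const y).differentiableWithinAt
      · intro z hz
        exact (hgeo z (hsub2 (sphere_subset_closedBall hz))).2.2.2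
    rw [h2, norm_mul]
    gcongr
  have hln' : ‖l‖ ≤ Real.exp (-((χ + Y - δ / 4) * n)) := by
    refine hln.trans (le_of_eq ?_)
    congr 2
    rw [← hYχ]
    field_simp
    ring
  obtain ⟨s1, s2⟩ := sizes (C₂ := C₂) (Ck := Ck) (D := D) hn0 hδ0 hb0 ha0 hD1 (by linarith) hCk0
    hla hc hlnn.le hln' hY0 hn6 hn7 (by positivity)
  have hkX : ‖k x - c₀‖ < 2 * b / a := by
    refine lt_of_le_of_lt ?_ s1
    rw [hkx, add_sub_right_comm]
    refine (norm_add_le _ _).trans ?_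
    rw [norm_mul]
    gcongr
  have h3 : ‖k x‖ ≤ 3 := by
    have h4 : 2 * b / a ≤ 1 := by
      rw [div_le_one ha0]
      linarith only [hb3, ha1, hb0]
    have h5 := norm_sub_norm_le (k x) c₀
    linarith only [h4, h5, hkX, hc₀]
  have hPM : ‖P d M (k x)‖ = Real.exp (T - Λ) := by
    rw [norm_div, div_eq_iff hmn.ne', hmΛ, ← Real.exp_add] at hsT
    rw [hsT]
    congr 1
  have hu : ‖P d M (k x)‖ ^ d = b / a := by
    rw [hPM, ← Real.exp_nat_mul, hTe]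
  have hE : D / 2 * ‖P d M (k x)‖ ≤ ‖deriv (fun x => P d M (k x)) x‖ := by
    have h4 : 4 / r₁ * Real.log (8 / p₀) ≤ D := by
      have h5 : 4 / r₁ * Real.log (8 / p₀) * (q * d * g₀) ≤ D * (q * d * g₀) := by
        calc _ ≤ (Y - δ) * n := hn5.le
          _ ≤ q * (d * D * g₀) := j6
          _ = _ := by ring
      exact le_of_mul_le_mul_right h5 (by positivity)
    have h5 : D / 2 ≤ D - 2 / r₁ * Real.log (8 / p₀) := by
      have : 4 / r₁ * Real.log (8 / p₀) = 2 * (2 / r₁ * Real.log (8 / p₀)) := by ring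
      linarith only [h4, this]
    have h6 : DifferentiableAt ℂ (fun x => P d M (k x)) x :=
      (differentiable_P d M (k x)).comp x (hkd x hx2)
    rw [deriv_div_const, norm_div, norm_div, ← mul_div_assoc, div_le_div_iff_of_pos_right hmn] at hsd
    refine le_trans ?_ hsd
    gcongr
  obtain ⟨c', hc', hst⟩ := step (C₂ := C₂) (χ := χ) (b := b) (j := j) (a := a) (M := M) (k := k)
    (X := x) (E := D / 2) hd hC₂ hP hz hz2 hW hχ hb0 hb1 hb2 ha k4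
    (by
      filter_upwards [isOpen_ball.mem_nhds hx2] with z hz
      exact hkd z hz) hkX hu (by positivity) hE h3 (le_trans (by gcongr) s2)
  refine ⟨(c' - c) / l, ?_, M + j, ?_⟩
  · have h4 : (c' - c) / l - y = (c' - k x) / l + (x⁻¹ * β x - y) := by
      rw [hkx]
      field_simp
      ring
    have h5 : ‖c' - k x‖ / ‖l‖ ≤ ρ / 4 := by
      refine conclude (L := |Real.log ‖zz d c₀ j‖|) (show (0 : ℝ) < d by positivity) hq0 hg₀ hYδ hb0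
        hD0 hKN hCk0 hWdef hρ hn0 hWε hn8 j6 ?_ hlnn ?_
      · refine (Hslow j).trans ?_
        gcongr
      · refine hst.trans ?_
        gcongr
    rw [h4]
    refine (norm_add_le _ _).trans_lt ?_
    rw [norm_div]
    linarith only [h5, hkap, hρ]
  · rw [mul_div_cancel₀ _ hl, add_sub_cancel]
    exact hc'

end Pool.Agent.H206.Hair
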