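import Pool.Agent.H206.GreG

set_option autoImplicit false

/-! # The law at the scale of the copy -/

namespace Pool.Agent.H206.Gre

open Filter Topology Set Metric MeasureTheory
open N62a1eb23
open Pool.Agent.H712R2 (P fc P_zero P_succ mem_multibrot_iff P_one)
open Pool.Agent.H713R2 (IsBeta differentiable_P IsExteriorMap)
open Pool.Agent.Y298.CA
open Pool.Agent.N253.MS (ev_lin)
open Pool.Agent.Y736.HD (Ang vol_Ang_ne Ang_sub)

theorem ev_nlog {a : ℝ} (ha : 0 < a) (b : ℝ) : ∀ᶠ n : ℕ in atTop, b < a * (n * Real.log n) := by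
  filter_upwards [ev_lin ha b, ev_lin ha 0, eventually_ge_atTop 3] with n hn hn0 hn3
  have h3 : (3 : ℝ) ≤ n := by exact_mod_cast hn3
  have h1 : 1 ≤ Real.log n := by
    rw [Real.le_log_iff_exp_le (by linarith)]
    have := Real.exp_one_lt_d9
    linarith
  have h2 : a * n ≤ a * (n * Real.log n) := by
    gcongr
    nlinarith
  linarith

/-- **Upper bounds at the scale of the copy.** -/
theorem copy_up {d : ℕ} (hd : 2 ≤ d) {χ : ℝ} {c₀ : ℂ} (h : Lyap d χ c₀) {ψ : ℂ → ℂ}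
    (hψ : IsExteriorMap (multibrotSet d) ψ) {R ε : ℝ} (hR : 1 ≤ R) (hε : 0 < ε) :
    ∃ δ : ℝ, 0 < δ ∧ ∀ᶠ n : ℕ in atTop, ∀ c l m : ℂ, Cp d n χ δ c₀ c l m →
      (∀ w : ℂ, 1 < ‖w‖ → ‖ψ w - c‖ ≤ R * ‖l‖ →
        Real.log ‖w‖ ≤ Real.exp (-((1 - ε) * (n * Real.log n)))) ∧
      (volume (Ang ψ c (R * ‖l‖))).toReal ≤ Real.exp (-((1 - ε) * (n * Real.log n))) := by
  have hχ := h.1
  have hdR : (2 : ℝ) ≤ d := by exact_mod_cast hd
  have hd1 : (0 : ℝ) < (d : ℝ) - 1 := by linarith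
  have hlogd : 0 < Real.log d := Real.log_pos (by linarith)
  have hlog2 : 0 < Real.log 2 := Real.log_pos (by norm_num)
  have hlog4 : 0 < Real.log 4 := Real.log_pos (by norm_num)
  have hpi := Real.pi_pos
  have hY : 0 < χ / ((d : ℝ) - 1) := by positivity
  have hYd : 0 < χ * d / ((d : ℝ) - 1) - χ / (d - 1) / 4 := by
    have h1 : χ * d / ((d : ℝ) - 1) = χ / (d - 1) * d := by ring
    rw [h1]
    nlinarith
  refine ⟨χ / (d - 1), hY, ?_⟩
  filter_upwards [upper_copy hd hχ (R := 2 * R) (ε := ε / 2) (by linarith) (by positivity),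
    ev_nlog (show 0 < ε / 2 by positivity) (Real.log (Real.log 4)),
    ev_nlog (show 0 < ε / 2 by positivity) (Real.log (2 * Real.pi * Real.log 4 / Real.log 2)),
    ev_lin hYd (Real.log (2 * R))] with n hn hn1 hn2 hn3 c l m hc
  obtain ⟨a1, a2, a3, a4, a5, a6, a7, a8, a9, a10⟩ := hc
  obtain ⟨M, hM, hMx⟩ := hn c l m (χ / (d - 1)) a3 a4 hY le_rfl a9 a10
  have hl : 2 * R * ‖l‖ ≤ 1 := by
    calc 2 * R * ‖l‖ ≤ Real.exp ((χ * d / (d - 1) - χ / (d - 1) / 4) * n) *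
          Real.exp (-((χ * d / (d - 1) - χ / (d - 1) / 4) * n)) := by
          gcongr
          rw [← Real.log_le_iff_le_exp (by positivity)]
          exact hn3.le
      _ = 1 := by rw [← Real.exp_add, add_neg_cancel, Real.exp_zero]
  have hc2 : ‖c‖ ≤ 2 := by
    have := (mem_multibrot_iff hd c).1 a1 1
    rwa [P_one hd] at this
  have hln : 0 < ‖l‖ := norm_pos_iff.2 a3
  have hdM : Real.exp ((1 - ε / 2) * (n * Real.log n)) ≤ (d : ℝ) ^ M := by
    have h6 : (d : ℝ) ^ M = Real.exp (M * Real.log d) := by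
      rw [Real.exp_nat_mul, Real.exp_log (by linarith)]
    rw [h6]
    apply Real.exp_le_exp.2
    rwa [div_le_iff₀ hlogd] at hM
  have hS : ∀ w : ℂ, 1 < ‖w‖ → ‖ψ w - c‖ ≤ 2 * (R * ‖l‖) →
      Real.log ‖w‖ ≤ Real.log 4 * Real.exp (-((1 - ε / 2) * (n * Real.log n))) := by
    intro w hw hwc
    have hψ3 : ‖ψ w‖ ≤ 3 := by
      have h3 := norm_add_le (ψ w - c) c
      rw [sub_add_cancel] at h3
      linarith
    have h3 := Pool.Agent.Y736.HG.green_lower hd hψ hw hψ3 (hMx _ (by linarith))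
    have hw0 : 0 < ‖w‖ := by linarith
    have h4 := Real.log_le_log (by positivity) h3
    rw [Real.log_pow] at h4
    push_cast at h4
    have hlw : 0 < Real.log ‖w‖ := Real.log_pos hw
    rw [Real.exp_neg, ← div_eq_mul_inv, le_div_iff₀ (Real.exp_pos _), mul_comm]
    refine le_trans ?_ h4
    gcongr
  constructor
  · intro w hw hwc
    refine (hS w hw (by nlinarith [mul_nonneg (by linarith : (0:ℝ) ≤ R) hln.le])).trans ?_
    calc Real.log 4 * Real.exp (-((1 - ε / 2) * (n * Real.log n))) ≤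
          Real.exp (ε / 2 * (n * Real.log n)) *
            Real.exp (-((1 - ε / 2) * (n * Real.log n))) := by
          gcongr
          rw [← Real.log_le_iff_le_exp hlog4]
          exact hn1.le
      _ = _ := by
          rw [← Real.exp_add]
          congr 1
          ring
  · have h3 := Pool.Agent.Y736.HG.vol_le hd hψ a1 (r := R * ‖l‖) (by positivity)
      (by positivity) hS
    refine h3.trans ?_
    calc 2 * Real.pi * (Real.log 4 * Real.exp (-((1 - ε / 2) * (n * Real.log n)))) / Real.log 2 =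
          (2 * Real.pi * Real.log 4 / Real.log 2) *
            Real.exp (-((1 - ε / 2) * (n * Real.log n))) := by ring
      _ ≤ Real.exp (ε / 2 * (n * Real.log n)) *
            Real.exp (-((1 - ε / 2) * (n * Real.log n))) := by
          gcongr
          rw [← Real.log_le_iff_le_exp (by positivity)]
          exact hn2.le
      _ = _ := by
          rw [← Real.exp_add]
          congr 1
          ring

/-- **Lower bound at the scale of the copy, near one point.** -/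
theorem copy_low {d : ℕ} (hd : 2 ≤ d) {χ : ℝ} {c₀ : ℂ} (h : Lyap d χ c₀) {ψ : ℂ → ℂ}
    (hψ : IsExteriorMap (multibrotSet d) ψ) {y : ℂ} (hy : y ∉ multibrotSet d) {ρ ε : ℝ}
    (hρ : 0 < ρ) (hε : 0 < ε) :
    ∃ δ : ℝ, 0 < δ ∧ ∀ᶠ n : ℕ in atTop, ∀ c l m : ℂ, Cp d n χ δ c₀ c l m →
      ∃ w : ℂ, 1 < ‖w‖ ∧ ‖ψ w - (c + l * y)‖ < ρ * ‖l‖ ∧
        Real.exp (-((1 + ε) * (n * Real.log n))) ≤ Real.log ‖w‖ := by
  have hdR : (2 : ℝ) ≤ d := by exact_mod_cast hd
  have hd1 : (0 : ℝ) < (d : ℝ) - 1 := by linarith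
  have hlog2 : 0 < Real.log 2 := Real.log_pos (by norm_num)
  obtain ⟨δ, hδ, C, H⟩ := green_local hd h hy hρ (B := Real.exp (Real.log 2 / (d - 1) + 1))
    (Real.exp_pos _)
  refine ⟨δ, hδ, ?_⟩
  have hlim : ∀ᶠ n : ℕ in atTop, C ≤ ε * Real.log n := by
    have h1 : Tendsto (fun n : ℕ => ε * Real.log n) atTop atTop :=
      (Real.tendsto_log_atTop.comp tendsto_natCast_atTop_atTop).const_mul_atTop hε
    exact h1.eventually_ge_atTop _
  filter_upwards [H, hlim] with n hn hnC c l m hc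
  obtain ⟨a1, a2, a3, a4, a5, a6, a7, a8, a9, a10⟩ := hc
  obtain ⟨κ, hκ, N, hN, hB⟩ := hn c l m a3 a4 a5 a7 a8 a9 a10
  obtain ⟨z, hz⟩ : ∃ z, z = c + l * κ := ⟨_, rfl⟩
  rw [← hz] at hB
  have hl0 : 0 ≤ Real.log 2 / ((d : ℝ) - 1) := by positivity
  have hzM : z ∉ multibrotSet d := by
    intro hzM
    have h1 := (mem_multibrot_iff hd z).1 hzM (N + 1)
    have h2 := Real.exp_one_gt_d9
    have h3 : Real.exp 1 ≤ Real.exp (Real.log 2 / (d - 1) + 1) :=
      Real.exp_le_exp.2 (by linarith)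
    linarith
  have hzi : z ∈ ψ '' {w | 1 < ‖w‖} := by
    rw [hψ.image]
    exact hzM
  obtain ⟨w, hw, hwz⟩ := hzi
  have hln : 0 < ‖l‖ := norm_pos_iff.2 a3
  refine ⟨w, hw, ?_, ?_⟩
  · rw [hwz, hz, add_sub_add_left_eq_sub, ← mul_sub, norm_mul, mul_comm]
    gcongr
  · have h1 := Pool.Agent.R240.Ext.green_up hd hψ N hw
    rw [hwz] at h1
    have hpos : 0 < ‖P d (N + 1) z‖ := (Real.exp_pos _).trans hB
    have h2 := (Real.lt_log_iff_exp_lt hpos).2 hB
    have h3 : 1 ≤ (d : ℝ) ^ N * Real.log ‖w‖ := by linarith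
    have h6 : (d : ℝ) ^ N = Real.exp (N * Real.log d) := by
      rw [Real.exp_nat_mul, Real.exp_log (by linarith)]
    have hlw : 0 < Real.log ‖w‖ := Real.log_pos hw
    have hn0 : (0 : ℝ) ≤ n := Nat.cast_nonneg n
    have h7 : (d : ℝ) ^ N ≤ Real.exp ((1 + ε) * (n * Real.log n)) := by
      rw [h6]
      apply Real.exp_le_exp.2
      refine hN.trans ?_
      have : (1 + ε) * (n * Real.log n) = n * Real.log n + ε * Real.log n * n := by ring
      rw [this]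
      gcongr
    rw [Real.exp_neg, inv_le_iff_one_le_mul₀ (Real.exp_pos _), mul_comm]
    exact h3.trans (by gcongr)

/-- finitely many conditions -/
theorem fin_set {ι : Type*} {t : Set ι} (ht : t.Finite) {d : ℕ} {χ : ℝ} {c₀ : ℂ}
    {R : ι → ℕ → ℂ → ℂ → ℂ → Prop}
    (h : ∀ y ∈ t, ∃ δ : ℝ, 0 < δ ∧ ∀ᶠ n : ℕ in atTop, ∀ c l m : ℂ, Cp d n χ δ c₀ c l m →
      R y n c l m) : ∃ δ : ℝ, 0 < δ ∧ ∀ᶠ n : ℕ in atTop, ∀ c l m : ℂ,
      Cp d n χ δ c₀ c l m → ∀ y ∈ t, R y n c l m := by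
  refine Set.Finite.induction_on_subset (motive := fun s _ => ∃ δ : ℝ, 0 < δ ∧
    ∀ᶠ n : ℕ in atTop, ∀ c l m : ℂ, Cp d n χ δ c₀ c l m → ∀ y ∈ s, R y n c l m) t ht ?_ ?_
  · exact ⟨1, one_pos, Eventually.of_forall fun n c l m _ y hy => hy.elim⟩
  · rintro a s ha hs - ⟨δ₁, h1, H1⟩
    obtain ⟨δ₂, h2, H2⟩ := h a ha
    refine ⟨min δ₁ δ₂, lt_min h1 h2, ?_⟩
    filter_upwards [H1, H2] with n hn1 hn2 c l m hc y hy
    rcases hy with rfl | hy
    · exact hn2 c l m (Cp_mono (min_le_right _ _) hc)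
    · exact hn1 c l m (Cp_mono (min_le_left _ _) hc) y hy

/-- **Lower bound at the scale of the copy.** -/
theorem copy_low_all {d : ℕ} (hd : 2 ≤ d) {χ : ℝ} {c₀ : ℂ} (h : Lyap d χ c₀) {ψ : ℂ → ℂ}
    (hψ : IsExteriorMap (multibrotSet d) ψ) {ε : ℝ} (hε : 0 < ε) :
    ∃ δ : ℝ, 0 < δ ∧ ∀ᶠ n : ℕ in atTop, ∀ c l m : ℂ, Cp d n χ δ c₀ c l m →
      ∀ κ₀ : ℂ, ‖κ₀‖ ≤ 1 / ε → κ₀ ∉ multibrotSet d →
      ∃ w : ℂ, 1 < ‖w‖ ∧ ‖ψ w - (c + l * κ₀)‖ < ε * ‖l‖ ∧
        Real.exp (-((1 + ε) * (n * Real.log n))) ≤ Real.log ‖w‖ := by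
  obtain ⟨t, htS, htf, htc⟩ : ∃ t : Set ℂ, t ⊆ closedBall 0 (1 / ε) ∩ (multibrotSet d)ᶜ ∧
      t.Finite ∧ closedBall 0 (1 / ε) ∩ (multibrotSet d)ᶜ ⊆ ⋃ y ∈ t, ball y (ε / 2) := by
    have h1 : TotallyBounded (closedBall (0 : ℂ) (1 / ε) ∩ (multibrotSet d)ᶜ) :=
      (isCompact_closedBall 0 (1 / ε)).totallyBounded.subset inter_subset_left
    obtain ⟨t, h2, h3, h4⟩ := h1.exists_subset (Metric.dist_mem_uniformity (half_pos hε))
    exact ⟨t, h2, h3, h4⟩
  obtain ⟨δ, hδ, H⟩ := fin_set (d := d) (χ := χ) (c₀ := c₀) htf (R := fun y n c l _ =>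
    ∃ w : ℂ, 1 < ‖w‖ ∧ ‖ψ w - (c + l * y)‖ < ε / 2 * ‖l‖ ∧
      Real.exp (-((1 + ε) * (n * Real.log n))) ≤ Real.log ‖w‖)
    (fun y hy => copy_low hd h hψ (htS hy).2 (half_pos hε) hε)
  refine ⟨δ, hδ, ?_⟩
  filter_upwards [H] with n hn c l m hc κ₀ hκ₀ hκM
  obtain ⟨y, hy, hyκ⟩ := mem_iUnion₂.1 (htc ⟨by rwa [mem_closedBall_zero_iff], hκM⟩)
  obtain ⟨w, hw, hw2, hw3⟩ := hn c l m hc y hy
  refine ⟨w, hw, ?_, hw3⟩
  rw [mem_ball, dist_eq_norm] at hyκ
  have hln : 0 < ‖l‖ := norm_pos_iff.2 hc.2.2.1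
  have h8 : ψ w - (c + l * κ₀) = (ψ w - (c + l * y)) - l * (κ₀ - y) := by ring
  rw [h8]
  refine (norm_sub_le _ _).trans_lt ?_
  rw [norm_mul]
  have h9 : ‖l‖ * ‖κ₀ - y‖ < ‖l‖ * (ε / 2) := by gcongr
  linarith

/-- **Small arcs leave the disc.** -/
theorem arc_exit {ψ F : ℂ → ℂ} (hF : ContinuousOn F {w | 1 ≤ ‖w‖}) (hE : ∀ w, 1 < ‖w‖ → F w = ψ w)
    {ζ : ℂ} (hζ : ‖ζ‖ = 1) {c : ℂ} {r η : ℝ} (hη0 : 0 < η) (hη1 : η ≤ 1)
    (hv : (volume (Ang ψ c r)).toReal < η) : ∃ ξ : ℂ, ‖ξ‖ = 1 ∧ ‖ξ - ζ‖ ≤ η ∧ r ≤ ‖F ξ - c‖ := by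
  have hpi := Real.pi_gt_three
  by_contra hcon
  push Not at hcon
  -- the angle of `ζ`
  obtain ⟨θ₀, hθ₀, hθζ⟩ : ∃ θ₀ : ℝ, θ₀ ∈ Ioc 0 (2 * Real.pi) ∧
      Complex.exp (θ₀ * Complex.I) = ζ := by
    have h1 : Complex.exp ((Complex.arg ζ : ℝ) * Complex.I) = ζ := by
      have := Complex.norm_mul_exp_arg_mul_I ζ
      rwa [hζ, Complex.ofReal_one, one_mul] at this
    rcases le_or_gt (Complex.arg ζ) 0 with h2 | h2
    · refine ⟨Complex.arg ζ + 2 * Real.pi, ⟨?_, by linarith⟩, ?_⟩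
      · have := Complex.neg_pi_lt_arg ζ
        linarith
      · push_cast
        rw [add_mul, Complex.exp_add, Complex.exp_two_pi_mul_I, mul_one]
        exact h1
    · exact ⟨Complex.arg ζ, ⟨h2, by linarith [Complex.arg_le_pi ζ]⟩, h1⟩
  have hkey : ∀ θ ∈ Ioc 0 (2 * Real.pi), |θ - θ₀| ≤ η → θ ∈ Ang ψ c r := by
    intro θ hθ hθη
    refine ⟨hθ, F (Complex.exp (θ * Complex.I)), ?_, ?_⟩
    · rw [mem_ball, dist_eq_norm]
      apply hcon
      · exact Complex.norm_exp_ofReal_mul_I θ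
      · rw [← hθζ]
        have h1 : Complex.exp (θ * Complex.I) - Complex.exp (θ₀ * Complex.I) =
            Complex.exp (θ₀ * Complex.I) *
              (Complex.exp (Complex.I * ((θ - θ₀ : ℝ) : ℂ)) - 1) := by
          rw [mul_sub, ← Complex.exp_add, mul_one]
          congr 2
          push_cast
          ring
        rw [h1, norm_mul, Complex.norm_exp_ofReal_mul_I, one_mul]
        exact (Real.norm_exp_I_mul_ofReal_sub_one_le).trans hθη
    · have h1 : ContinuousWithinAt F {w | 1 ≤ ‖w‖} (Complex.exp (θ * Complex.I)) :=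
        hF _ (by
          show 1 ≤ ‖Complex.exp (θ * Complex.I)‖
          rw [Complex.norm_exp_ofReal_mul_I])
      have h2 : Tendsto (fun ρ : ℝ => (ρ : ℂ) * Complex.exp (θ * Complex.I)) (𝓝[>] 1)
          (𝓝[{w | 1 ≤ ‖w‖}] (Complex.exp (θ * Complex.I))) := by
        rw [tendsto_nhdsWithin_iff]
        refine ⟨?_, ?_⟩
        · have h3 : Continuous fun ρ : ℝ => (ρ : ℂ) * Complex.exp (θ * Complex.I) := by fun_prop
          have h4 := (h3.tendsto 1).mono_left (nhdsWithin_le_nhds (s := Ioi (1 : ℝ)))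
          simpa using h4
        · filter_upwards [self_mem_nhdsWithin] with ρ hρ
          have hρ' : 1 < ρ := hρ
          show 1 ≤ ‖(ρ : ℂ) * Complex.exp (θ * Complex.I)‖
          rw [norm_mul, Complex.norm_exp_ofReal_mul_I, mul_one, Complex.norm_real,
            Real.norm_of_nonneg (by linarith)]
          exact hρ'.le
      refine (h1.tendsto.comp h2).congr' ?_
      filter_upwards [self_mem_nhdsWithin] with ρ hρ
      have hρ' : 1 < ρ := hρ
      apply hE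
      rw [norm_mul, Complex.norm_exp_ofReal_mul_I, mul_one, Complex.norm_real,
        Real.norm_of_nonneg (by linarith)]
      exact hρ'
  have hfin : η ≤ (volume (Ang ψ c r)).toReal := by
    rcases lt_or_ge η θ₀ with h1 | h1
    · have hsub : Ioc (θ₀ - η) θ₀ ⊆ Ang ψ c r := by
        intro θ hθ
        refine hkey θ ⟨by linarith [hθ.1], hθ.2.trans hθ₀.2⟩ ?_
        rw [abs_le]
        constructor <;> linarith [hθ.1, hθ.2]
      have h2 := ENNReal.toReal_mono (vol_Ang_ne ψ c r) (measure_mono hsub)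
      rw [Real.volume_Ioc, ENNReal.toReal_ofReal (by linarith)] at h2
      linarith
    · have hsub : Ico θ₀ (θ₀ + η) ⊆ Ang ψ c r := by
        intro θ hθ
        refine hkey θ ⟨lt_of_lt_of_le hθ₀.1 hθ.1, by linarith [hθ.2]⟩ ?_
        rw [abs_le]
        constructor <;> linarith [hθ.1, hθ.2]
      have h2 := ENNReal.toReal_mono (vol_Ang_ne ψ c r) (measure_mono hsub)
      rw [Real.volume_Ico, ENNReal.toReal_ofReal (by linarith)] at h2
      linarith
  linarith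

end Pool.Agent.H206.Gre
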