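import Pool.Agent.H206.HairE

set_option autoImplicit false

/-! # Superattracting parameters near the points outside of a perfect copy -/

namespace Pool.Agent.H206.Hair

open Filter Topology Set Metric
open N62a1eb23
open Pool.Agent.H712R2 (P fc P_zero P_succ mem_multibrot_iff P_one)
open Pool.Agent.H713R2 (IsBeta differentiable_P)
open Pool.Agent.TH279.MD Pool.Agent.Y298.SH.CD Pool.Agent.Y298.CA Pool.Agent.N772.ST
open Pool.Agent.N772.PC (Un)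
open Pool.Agent.N253.MS (ev_lin)

/-- the geometry near a parameter outside of the Multibrot set -/
theorem geom {d : ℕ} {β : ℂ → ℂ} (hβ : IsBeta d β) {x₀ : ℂ} (hx₀ : x₀ ∈ ball (0 : ℂ) 1)
    (hx0 : x₀ ≠ 0) {ρ : ℝ} (hρ : 0 < ρ) :
    ∃ g₀ r₂ : ℝ, 0 < g₀ ∧ 0 < r₂ ∧ ∃ ζ : ℂ, ‖ζ‖ = 1 ∧
      (∀ x ∈ ball x₀ (2 * r₂), ‖x₀‖ / 2 ≤ ‖x‖ ∧ ‖x‖ ≤ (1 + ‖x₀‖) / 2 ∧
        DifferentiableAt ℂ (fun x => x⁻¹ * β x) x ∧ ‖x⁻¹ * β x - x₀⁻¹ * β x₀‖ ≤ ρ / 2) ∧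
      ∀ s : ℝ, g₀ ≤ s → s < g₀ + r₂ → (Real.exp (-s) : ℂ) * ζ ∈ ball x₀ r₂ := by
  have hn : 0 < ‖x₀‖ := norm_pos_iff.2 hx0
  have hn1 : ‖x₀‖ < 1 := by rwa [mem_ball_zero_iff] at hx₀
  have hdiff : ∀ x ∈ ball (0 : ℂ) 1, x ≠ 0 → DifferentiableAt ℂ (fun x => x⁻¹ * β x) x := by
    intro x hx hx0
    exact (differentiableAt_inv hx0).mul (hβ.diff.differentiableAt (isOpen_ball.mem_nhds hx))
  have hcont := (hdiff x₀ hx₀ hx0).continuousAt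
  obtain ⟨r', hr', hr⟩ := Metric.continuousAt_iff.1 hcont (ρ / 2) (by positivity)
  obtain ⟨r₂, hr₂⟩ : ∃ r₂, r₂ = min (r' / 2) (min (‖x₀‖ / 4) ((1 - ‖x₀‖) / 4)) := ⟨_, rfl⟩
  have e0 : 0 < r₂ := by
    rw [hr₂]
    have : 0 < 1 - ‖x₀‖ := by linarith
    positivity
  have e1 : r₂ ≤ r' / 2 := by rw [hr₂]; exact min_le_left _ _
  have e2 : r₂ ≤ ‖x₀‖ / 4 := by rw [hr₂]; exact (min_le_right _ _).trans (min_le_left _ _)
  have e3 : r₂ ≤ (1 - ‖x₀‖) / 4 := by rw [hr₂]; exact (min_le_right _ _).trans (min_le_right _ _)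
  refine ⟨-Real.log ‖x₀‖, r₂, by
    have := Real.log_neg hn hn1
    linarith, e0, x₀ / ‖x₀‖, ?_, ?_, ?_⟩
  · rw [norm_div, Complex.norm_real, norm_norm, div_self hn.ne']
  · intro x hx
    rw [mem_ball, dist_eq_norm] at hx
    have h1 := norm_sub_norm_le x x₀
    have h2 := norm_sub_norm_le x₀ x
    rw [norm_sub_rev] at h2
    have h3 : ‖x₀‖ / 2 ≤ ‖x‖ := by linarith
    have h4 : ‖x‖ ≤ (1 + ‖x₀‖) / 2 := by linarith
    refine ⟨h3, h4, hdiff x ?_ ?_, ?_⟩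
    · rw [mem_ball_zero_iff]; linarith
    · rintro rfl
      rw [norm_zero] at h3
      linarith
    · have h5 := hr (x := x) (by rw [dist_eq_norm]; linarith)
      rw [dist_eq_norm] at h5
      exact h5.le
  · intro s hs1 hs2
    obtain ⟨ζ, hζ⟩ : ∃ ζ : ℂ, ζ = x₀ / ‖x₀‖ := ⟨_, rfl⟩
    obtain ⟨g, hg⟩ : ∃ g, g = -Real.log ‖x₀‖ := ⟨_, rfl⟩
    have hζ1 : ‖ζ‖ = 1 := by
      rw [hζ, norm_div, Complex.norm_real, norm_norm, div_self hn.ne']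
    have h1 : x₀ = (Real.exp (-g) : ℂ) * ζ := by
      have h0 : ((‖x₀‖ : ℝ) : ℂ) ≠ 0 := by exact_mod_cast hn.ne'
      rw [hg, neg_neg, Real.exp_log hn, hζ]
      field_simp
    rw [← hζ]
    rw [← hg] at hs1 hs2
    rw [mem_ball, dist_eq_norm]
    have h2 : (Real.exp (-s) : ℂ) * ζ - x₀ = ((Real.exp (-s) - Real.exp (-g) : ℝ) : ℂ) * ζ := by
      conv_lhs => rw [h1]
      push_cast
      ring
    rw [h2, norm_mul, hζ1, mul_one, Complex.norm_real, Real.norm_eq_abs, abs_sub_comm,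
      abs_of_nonneg (sub_nonneg.2 (Real.exp_le_exp.2 (by linarith)))]
    have hg0 : 0 < g := by
      rw [hg]
      have := Real.log_neg hn hn1
      linarith
    have h3 : Real.exp (-g) ≤ 1 := Real.exp_le_one_iff.2 (by linarith)
    have h4 : Real.exp (-s) = Real.exp (-g) * Real.exp (-(s - g)) := by
      rw [← Real.exp_add]; congr 1; ring
    have h5 : -(s - g) + 1 ≤ Real.exp (-(s - g)) := Real.add_one_le_exp _
    have h6 : 0 < Real.exp (-g) := Real.exp_pos _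
    have h7 : Real.exp (-g) - Real.exp (-s) ≤ Real.exp (-g) * (s - g) := by
      rw [h4]
      nlinarith
    nlinarith

theorem Un_mono {d n : ℕ} {c l m : ℂ} {τ τ' : ℝ} (h : Un d n c l m τ') (hτ : τ ≤ τ') :
    Un d n c l m τ := by
  intro R hR1 hR κ z hκ hz
  obtain ⟨u1, u2⟩ := h R hR1 (hR.trans (Real.exp_le_exp.2 hτ)) κ z hκ hz
  have : Real.exp (-τ') ≤ Real.exp (-τ) := Real.exp_le_exp.2 (by linarith)
  exact ⟨u1.trans (by gcongr), u2.trans (by gcongr)⟩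

theorem sq_le_pow (J : ℕ) : ((J : ℝ) + 1) ^ 2 ≤ 4 * 2 ^ J := by
  induction J with
  | zero => norm_num
  | succ J ih =>
    rcases Nat.lt_or_ge J 2 with h | h
    · interval_cases J <;> norm_num
    · have h2 : (2 : ℝ) ≤ J := by exact_mod_cast h
      have h3 : (2 : ℝ) ^ (J + 1) = 2 * 2 ^ J := by ring
      rw [h3]
      push_cast
      nlinarith

theorem J_small {G L e : ℝ} (hG : 0 < G) (he : 0 < e) :
    ∀ᶠ n : ℕ in atTop, ∀ J d : ℕ, 2 ≤ d → (d : ℝ) ^ J ≤ G * n → (J + 1) * L ≤ e * n := by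
  filter_upwards [ev_lin (half_pos he) (L ^ 2 * (2 * G) / e)] with n hn J d hd hJ
  have h1 := sq_le_pow J
  have h2 : (2 : ℝ) ^ J ≤ d ^ J := by
    have : (2 : ℝ) ≤ d := by exact_mod_cast hd
    gcongr
  have h3 : ((J : ℝ) + 1) ^ 2 ≤ 4 * (G * n) := by linarith
  have h4 : ((J : ℝ) + 1) * L ≤ ((J : ℝ) + 1) ^ 2 * (e / (8 * G)) + L ^ 2 * (2 * G) / e := by
    have h5 : 0 ≤ (((J : ℝ) + 1) * (e / (4 * G)) - L) ^ 2 * (2 * G / e) := by positivity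
    have h6 : (((J : ℝ) + 1) * (e / (4 * G)) - L) ^ 2 * (2 * G / e) =
        ((J : ℝ) + 1) ^ 2 * (e / (8 * G)) + L ^ 2 * (2 * G) / e - ((J : ℝ) + 1) * L := by
      field_simp
      ring
    linarith
  have h7 : ((J : ℝ) + 1) ^ 2 * (e / (8 * G)) ≤ e / 2 * n := by
    calc ((J : ℝ) + 1) ^ 2 * (e / (8 * G)) ≤ 4 * (G * n) * (e / (8 * G)) := by gcongr
      _ = e / 2 * n := by field_simp; ring
  linarith

/-- the windows -/
theorem arith {d χ Y δ q σ b p₀ n Λ v₁ v₂ : ℝ} (hdR : 2 ≤ d) (hYχ : Y * (d - 1) = χ)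
    (hδ0 : 0 < δ) (hq1 : 1 < q) (hσ1 : σ ≤ δ / 2) (hσ2 : σ ≤ (q - 1) * Y / 2)
    (hb0 : 0 < b) (hb1 : b ≤ 1) (hp₀ : 0 < p₀) (hp₁ : p₀ ≤ 1) (hn : 0 < n)
    (hΛ1 : (Y - δ / 4) * n ≤ Λ) (hΛ2 : Λ ≤ (Y + δ / 4) * n) (j2 : (Y / d + δ) * n ≤ v₁)
    (j4 : v₂ ≤ (Y - δ) * n) (j5 : q * v₁ ≤ v₂) (hn3 : -Real.log b < δ * n)
    (hn4 : d * (Real.log 3 - Real.log (p₀ / 2)) < (q - 1) * Y / 2 * n) :
    σ * n ≤ Real.log b + d * (Λ - v₂ - Real.log (p₀ / 2)) ∧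
    Real.log b + d * (Λ - v₂ - Real.log (p₀ / 2)) + σ * n ≤
      Real.log b + d * (Λ - v₁ - Real.log 3) ∧
    Real.log b + d * (Λ - v₁ - Real.log 3) ≤ Real.log b + (χ - 3 / 2 * δ) * n := by
  have hp2 : Real.log (p₀ / 2) ≤ 0 := Real.log_nonpos (by positivity) (by linarith)
  have hlog3 : 0 ≤ Real.log 3 := Real.log_nonneg (by norm_num)
  have hlogb : Real.log b ≤ 0 := Real.log_nonpos hb0.le (by linarith)
  have hq10 : 0 < q - 1 := by linarith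
  have hd0 : 0 < d := by linarith
  refine ⟨?_, ?_, ?_⟩
  · have h1 : 3 / 4 * δ * n ≤ Λ - v₂ - Real.log (p₀ / 2) := by linarith
    have h2 : 2 * (3 / 4 * δ * n) ≤ d * (Λ - v₂ - Real.log (p₀ / 2)) := by gcongr
    have h3 : σ * n ≤ δ / 2 * n := by gcongr
    linarith
  · have h1 : (q - 1) * v₁ ≤ v₂ - v₁ := by linarith
    have h2 : d * ((q - 1) * ((Y / d + δ) * n)) ≤ d * (v₂ - v₁) := by
      have h3 : (q - 1) * ((Y / d + δ) * n) ≤ (q - 1) * v₁ := by gcongr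
      gcongr
      linarith
    have h3 : d * ((q - 1) * ((Y / d + δ) * n)) = (q - 1) * Y * n + d * ((q - 1) * (δ * n)) := by
      field_simp
    have h4 : 0 ≤ d * ((q - 1) * (δ * n)) := by positivity
    have h5 : σ * n ≤ (q - 1) * Y / 2 * n := by gcongr
    linarith
  · have h1 : Λ - v₁ - Real.log 3 ≤ (Y + δ / 4 - Y / d - δ) * n := by linarith
    have h2 : d * (Λ - v₁ - Real.log 3) ≤ d * ((Y + δ / 4 - Y / d - δ) * n) := by gcongr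
    have h3 : d * ((Y + δ / 4 - Y / d - δ) * n) = (Y * (d - 1)) * n - 3 / 4 * d * δ * n := by
      field_simp
      ring
    have h4 : 3 / 4 * 2 * δ * n ≤ 3 / 4 * d * δ * n := by gcongr
    rw [hYχ] at h3
    linarith

/-- the target -/
theorem target {d b a Λ v₁ v₂ p₀ : ℝ} (hd0 : 0 < d) (hb0 : 0 < b) (ha0 : 0 < a)
    (k2 : Real.log b + d * (Λ - v₂ - Real.log (p₀ / 2)) ≤ Real.log a)
    (k3 : Real.log a ≤ Real.log b + d * (Λ - v₁ - Real.log 3)) :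
    ∃ T : ℝ, Real.exp (d * (T - Λ)) = b / a ∧ v₁ + Real.log 3 ≤ T ∧
      T ≤ v₂ + Real.log (p₀ / 2) := by
  obtain ⟨T, hT⟩ : ∃ T : ℝ, T = Λ + (Real.log b - Real.log a) / d := ⟨_, rfl⟩
  have hTΛ : d * (T - Λ) = Real.log b - Real.log a := by
    rw [hT]
    field_simp
    ring
  refine ⟨T, ?_, ?_, ?_⟩
  · rw [hTΛ, Real.exp_sub, Real.exp_log hb0, Real.exp_log ha0]
  · by_contra hcon
    push Not at hcon
    have h1 : d * (T - Λ) < d * (v₁ + Real.log 3 - Λ) := by gcongr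
    rw [hTΛ] at h1
    linarith
  · by_contra hcon
    push Not at hcon
    have h1 : d * (v₂ + Real.log (p₀ / 2) - Λ) < d * (T - Λ) := by gcongr
    rw [hTΛ] at h1
    linarith

/-- the escaping orbit at a point -/
theorem at_point {d : ℕ} (hd : 2 ≤ d) {β : ℂ → ℂ} {ρ₁ ρ₂ p₀ A : ℝ} (hρ₁ : 0 < ρ₁) (hρ₂ : ρ₂ < 1)
    (hp₀ : 0 < p₀) (hA : 1 ≤ A) (HP : ∀ x : ℂ, x ≠ 0 → ‖x‖ ≤ ρ₂ → ∀ j : ℕ,
      p₀ * (‖x‖⁻¹) ^ (d ^ j) ≤ ‖P d (j + 1) (x⁻¹ * β x)‖ ∧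
      ‖P d (j + 1) (x⁻¹ * β x)‖ ≤ 2 * (‖x‖⁻¹) ^ (d ^ j))
    (Hesc : ∀ (n : ℕ) (c l m : ℂ) (τ : ℝ), m ≠ 0 → Un d n c l m τ →
      ∀ x : ℂ, ρ₁ ≤ ‖x‖ → ‖x‖ ≤ ρ₂ → ∀ J : ℕ, A ^ (J + 1) * (‖x‖⁻¹) ^ (d ^ J) ≤ Real.exp τ →
        ‖P d (n * (J + 1)) (c + l * (x⁻¹ * β x)) / m - P d (J + 1) (x⁻¹ * β x)‖ ≤
          1 / 2 * ‖P d (J + 1) (x⁻¹ * β x)‖)
    {n : ℕ} {c l m : ℂ} {τ : ℝ} (hm : m ≠ 0) (hU : Un d n c l m τ) {J : ℕ} {X : ℂ} {s r₁ η : ℝ}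
    (hr₁ : 0 < r₁) (hX : ‖X‖ = Real.exp (-s))
    (hb : ∀ x ∈ ball X r₁, ρ₁ ≤ ‖x‖ ∧ ‖x‖ ≤ ρ₂ ∧ DifferentiableAt ℂ (fun x => x⁻¹ * β x) x)
    (hr₁3 : r₁ ≤ ρ₁ * (1 - Real.exp (-η))) (hη : Real.exp (-η) < 1)
    (hcond : ((J : ℝ) + 1) * Real.log A + d ^ J * (s + η) ≤ τ) :
    (p₀ / 2 * Real.exp (d ^ J * s) ≤ ‖P d (n * (J + 1)) (c + l * (X⁻¹ * β X)) / m‖ ∧
      ‖P d (n * (J + 1)) (c + l * (X⁻¹ * β X)) / m‖ ≤ 3 * Real.exp (d ^ J * s)) ∧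
      ((d : ℝ) ^ J - 2 / r₁ * Real.log (8 / p₀)) *
          ‖P d (n * (J + 1)) (c + l * (X⁻¹ * β X)) / m‖ ≤
        ‖deriv (fun x => P d (n * (J + 1)) (c + l * (x⁻¹ * β x)) / m) X‖ := by
  have hexpD : (‖X‖⁻¹) ^ (d ^ J) = Real.exp (d ^ J * s) := by
    rw [hX, ← Real.exp_neg, neg_neg, ← Real.exp_nat_mul]
    congr 1
    push_cast
    ring
  have hZdiff : ∀ x ∈ ball X r₁, DifferentiableAt ℂ
      (fun x => P d (n * (J + 1)) (c + l * (x⁻¹ * β x)) / m) x := by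
    intro x hx
    have h1 : DifferentiableAt ℂ (fun x => c + l * (x⁻¹ * β x)) x :=
      ((hb x hx).2.2.const_mul l).const_add c
    exact ((differentiable_P d (n * (J + 1)) _).comp x h1).div_const m
  have hXρ : ρ₁ ≤ Real.exp (-s) := by
    rw [← hX]
    exact (hb _ (mem_ball_self hr₁)).1
  have hld := logder (d := d) hd (β := β) hρ₁ hρ₂ hp₀ HP (J := J)
    (Z := fun x => P d (n * (J + 1)) (c + l * (x⁻¹ * β x)) / m) (X := X) (r := r₁)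
    hr₁ (fun x hx => ⟨(hb x hx).1, (hb x hx).2.1⟩)
    (fun x hx => (hZdiff x hx).differentiableWithinAt) (by
      intro x hx
      refine Hesc n c l m _ hm hU x (hb x hx).1 (hb x hx).2.1 J ?_
      have hxn : Real.exp (-(s + η)) ≤ ‖x‖ := by
        rw [mem_ball, dist_eq_norm] at hx
        have h4 := norm_sub_norm_le X x
        rw [norm_sub_rev, hX] at h4
        have h5 : Real.exp (-(s + η)) = Real.exp (-s) * Real.exp (-η) := by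
          rw [← Real.exp_add]; congr 1; ring
        have h6 : ρ₁ * (1 - Real.exp (-η)) ≤ Real.exp (-s) * (1 - Real.exp (-η)) := by
          apply mul_le_mul_of_nonneg_right hXρ
          linarith
        rw [h5]
        linarith
      have hxi : ‖x‖⁻¹ ≤ Real.exp (s + η) := by
        rw [← neg_neg (s + η), Real.exp_neg (-(s + η))]
        exact inv_anti₀ (Real.exp_pos _) hxn
      have hxi0 : 0 ≤ ‖x‖⁻¹ := by positivity
      calc A ^ (J + 1) * (‖x‖⁻¹) ^ (d ^ J) ≤ A ^ (J + 1) * (Real.exp (s + η)) ^ (d ^ J) := by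
            gcongr
        _ = Real.exp ((J + 1) * Real.log A) * Real.exp (d ^ J * (s + η)) := by
            rw [← Real.exp_nat_mul (s + η)]
            congr 1
            · rw [← Real.exp_log (show 0 < A ^ (J + 1) by positivity), Real.log_pow]
              push_cast
              rfl
            · congr 1
              push_cast
              ring
        _ ≤ _ := by
            rw [← Real.exp_add]
            exact Real.exp_le_exp.2 hcond)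
  obtain ⟨q1, q2⟩ := hld
  have q3 := q1 X (mem_ball_self hr₁)
  simp only [hexpD] at q3
  exact ⟨q3, q2⟩

/-- the point of the path -/
theorem path {d : ℕ} (hd : 2 ≤ d) {β : ℂ → ℂ} {ρ₁ ρ₂ p₀ A : ℝ} (hρ₁ : 0 < ρ₁) (hρ₂ : ρ₂ < 1)
    (hp₀ : 0 < p₀) (hA : 1 ≤ A) (HP : ∀ x : ℂ, x ≠ 0 → ‖x‖ ≤ ρ₂ → ∀ j : ℕ,
      p₀ * (‖x‖⁻¹) ^ (d ^ j) ≤ ‖P d (j + 1) (x⁻¹ * β x)‖ ∧
      ‖P d (j + 1) (x⁻¹ * β x)‖ ≤ 2 * (‖x‖⁻¹) ^ (d ^ j))
    (Hesc : ∀ (n : ℕ) (c l m : ℂ) (τ : ℝ), m ≠ 0 → Un d n c l m τ →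
      ∀ x : ℂ, ρ₁ ≤ ‖x‖ → ‖x‖ ≤ ρ₂ → ∀ J : ℕ, A ^ (J + 1) * (‖x‖⁻¹) ^ (d ^ J) ≤ Real.exp τ →
        ‖P d (n * (J + 1)) (c + l * (x⁻¹ * β x)) / m - P d (J + 1) (x⁻¹ * β x)‖ ≤
          1 / 2 * ‖P d (J + 1) (x⁻¹ * β x)‖)
    {n : ℕ} {c l m : ℂ} {τ : ℝ} (hm : m ≠ 0) (hU : Un d n c l m τ) {J : ℕ} {X : ℝ → ℂ}
    {D v₁ v₂ g₀ g₁ r₁ η T : ℝ} (hD : D = (d : ℝ) ^ J) (hXc : Continuous X)
    (hr₁ : 0 < r₁) (hX : ∀ s, ‖X s‖ = Real.exp (-s))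
    (hb : ∀ s, g₀ ≤ s → s ≤ g₁ → ∀ x ∈ ball (X s) r₁,
      ρ₁ ≤ ‖x‖ ∧ ‖x‖ ≤ ρ₂ ∧ DifferentiableAt ℂ (fun x => x⁻¹ * β x) x)
    (hr₁3 : r₁ ≤ ρ₁ * (1 - Real.exp (-η))) (hη : Real.exp (-η) < 1)
    (hv : v₁ ≤ v₂) (hv1 : D * g₀ ≤ v₁) (hv2 : v₂ ≤ D * g₁)
    (hcond : ((J : ℝ) + 1) * Real.log A + v₂ + D * η ≤ τ) (hT1 : v₁ + Real.log 3 ≤ T)
    (hT2 : T ≤ v₂ + Real.log (p₀ / 2)) :
    ∃ s, g₀ ≤ s ∧ s ≤ g₁ ∧
      ‖P d (n * (J + 1)) (c + l * ((X s)⁻¹ * β (X s))) / m‖ = Real.exp T ∧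
      (D - 2 / r₁ * Real.log (8 / p₀)) *
          ‖P d (n * (J + 1)) (c + l * ((X s)⁻¹ * β (X s))) / m‖ ≤
        ‖deriv (fun x => P d (n * (J + 1)) (c + l * (x⁻¹ * β x)) / m) (X s)‖ := by
  have hD0 : 0 < D := by
    rw [hD]
    have : (0 : ℝ) < d := by exact_mod_cast (by omega : 0 < d)
    positivity
  have hs1 : g₀ ≤ v₁ / D := by rw [le_div_iff₀ hD0]; linarith
  have hs2 : v₂ / D ≤ g₁ := by rw [div_le_iff₀ hD0]; linarith
  have hs12 : v₁ / D ≤ v₂ / D := by gcongr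
  have key : ∀ s, v₁ / D ≤ s → s ≤ v₂ / D → _ := fun s h1 h2 =>
    at_point hd hρ₁ hρ₂ hp₀ hA HP Hesc hm hU (J := J) (l := l) (c := c) (s := s) hr₁ (hX s)
      (hb s (hs1.trans h1) (h2.trans hs2)) hr₁3 hη (by
        rw [← hD]
        rw [le_div_iff₀ hD0] at h2
        linarith)
  rw [← hD] at key
  have hcont : ContinuousOn (fun s => ‖P d (n * (J + 1)) (c + l * ((X s)⁻¹ * β (X s))) / m‖)
      (Icc (v₁ / D) (v₂ / D)) := by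
    intro s hs
    have h1 := (hb s (hs1.trans hs.1) (hs.2.trans hs2) (X s) (mem_ball_self hr₁)).2.2.continuousAt
    have h2 : ContinuousAt (fun s => (X s)⁻¹ * β (X s)) s :=
      ContinuousAt.comp (f := X) (g := fun x => x⁻¹ * β x) h1 hXc.continuousAt
    have h3 : ContinuousAt (fun s => c + l * ((X s)⁻¹ * β (X s))) s :=
      (h2.const_mul l).const_add c
    have h4 : ContinuousAt (fun s => P d (n * (J + 1)) (c + l * ((X s)⁻¹ * β (X s)))) s :=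
      ContinuousAt.comp (f := fun s => c + l * ((X s)⁻¹ * β (X s))) (g := P d (n * (J + 1)))
        (differentiable_P d (n * (J + 1))).continuous.continuousAt h3
    exact (h4.div_const m).norm.continuousWithinAt
  have hmem : Real.exp T ∈ Icc ‖P d (n * (J + 1)) (c + l * ((X (v₁ / D))⁻¹ * β (X (v₁ / D)))) / m‖
      ‖P d (n * (J + 1)) (c + l * ((X (v₂ / D))⁻¹ * β (X (v₂ / D)))) / m‖ := by
    constructor
    · refine (key _ le_rfl hs12).1.2.trans ?_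
      rw [mul_div_cancel₀ _ hD0.ne']
      calc 3 * Real.exp v₁ = Real.exp (v₁ + Real.log 3) := by
            rw [Real.exp_add, Real.exp_log (by norm_num)]; ring
        _ ≤ _ := Real.exp_le_exp.2 hT1
    · refine le_trans ?_ (key _ hs12 le_rfl).1.1
      rw [mul_div_cancel₀ _ hD0.ne']
      calc Real.exp T ≤ Real.exp (v₂ + Real.log (p₀ / 2)) := Real.exp_le_exp.2 hT2
        _ = _ := by rw [Real.exp_add, Real.exp_log (by positivity)]; ring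
  obtain ⟨s, hs, hsT⟩ := intermediate_value_Icc hs12 hcont hmem
  exact ⟨s, hs1.trans hs.1, hs.2.trans hs2, hsT, (key s hs.1 hs.2).2⟩

end Pool.Agent.H206.Hair
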