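import Pool.Agent.H206.Step
import Pool.Agent.H206.Dns
import Pool.Graph.R_pool_sql_team_seeded_63374d34.Results.MP_c6f924_an.SmallImpressions
import Pool.Graph.R_seed8.Y736.RN.L
import Pool.Graph.R_seed8.Y736.RN.M

set_option autoImplicit false

/-! # Small impressions and local connectivity at small scales -/

namespace Pool.Agent.H206

open Complex Metric Set Filter Topology
open N62a1eb23
open Pool.Agent.Results.MP_af9036_an.PerfectZones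
open Pool.Agent.H713R2 (IsExteriorMap)

/-- the impression of `ζ` -/
def imp (ψ : ℂ → ℂ) (ζ : ℂ) : Set ℂ := {c | MapClusterPt c (𝓝[{w | 1 < ‖w‖}] ζ) ψ}

/-- every boundary point is in an impression -/
theorem exists_imp {M : Set ℂ} {ψ : ℂ → ℂ} (hψ : IsExteriorMap M ψ) {x : ℂ} (hx : x ∈ frontier M)
    (hM : IsClosed M) : ∃ ζ : ℂ, ‖ζ‖ = 1 ∧ x ∈ imp ψ ζ := by
  have hxM : x ∈ M := hM.frontier_subset hx
  have hxc : x ∈ closure Mᶜ := by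
    rw [frontier_eq_closure_inter_closure] at hx
    exact hx.2
  rw [mem_closure_iff_seq_limit] at hxc
  obtain ⟨u, hu, hlim⟩ := hxc
  have h1 : ∀ n, ∃ w : ℂ, 1 < ‖w‖ ∧ ψ w = u n := by
    intro n
    have := hu n
    rw [← hψ.image] at this
    obtain ⟨w, hw, hw2⟩ := this
    exact ⟨w, hw, hw2⟩
  choose w hw hwu using h1
  have hopen : IsOpen {z : ℂ | 1 < ‖z‖} := isOpen_lt continuous_const continuous_norm
  -- bounded
  have h2 : ∀ᶠ z in Bornology.cobounded ℂ, 1 / 2 < ‖ψ z / z‖ := by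
    have h3 := hψ.infinity.norm
    rw [norm_one] at h3
    exact h3.eventually (lt_mem_nhds (by norm_num))
  obtain ⟨A, hA⟩ : ∃ A : ℝ, ∀ z : ℂ, A < ‖z‖ → 1 / 2 < ‖ψ z / z‖ := by
    rw [← comap_norm_atTop, Filter.eventually_comap] at h2
    obtain ⟨A, hA⟩ := Filter.eventually_atTop.1 h2
    exact ⟨A, fun z hz => hA _ hz.le z rfl⟩
  obtain ⟨B, hB⟩ : ∃ B : ℝ, ∀ n, ‖u n‖ ≤ B := by
    obtain ⟨B, hB⟩ := (hlim.norm.bddAbove_range)
    exact ⟨B, fun n => hB ⟨n, rfl⟩⟩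
  have hwB : ∀ n, w n ∈ closedBall (0 : ℂ) (max A (2 * B)) := by
    intro n
    rw [mem_closedBall_zero_iff]
    by_contra hcon
    push Not at hcon
    have h3 := hA (w n) (lt_of_le_of_lt (le_max_left _ _) hcon)
    have h4 : 2 * B < ‖w n‖ := lt_of_le_of_lt (le_max_right _ _) hcon
    have h5 : 0 < ‖w n‖ := by have := hw n; linarith
    rw [norm_div, lt_div_iff₀ h5, hwu n] at h3
    have := hB n
    linarith
  obtain ⟨ζ, -, φ, hφ, hζ⟩ := (isCompact_closedBall (0 : ℂ) (max A (2 * B))).tendsto_subseq hwB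
  have hζ1 : 1 ≤ ‖ζ‖ := by
    have h3 : Tendsto (fun n => ‖w (φ n)‖) atTop (𝓝 ‖ζ‖) := hζ.norm
    exact ge_of_tendsto' h3 fun n => (hw (φ n)).le
  have hψu : Tendsto (fun n => ψ (w (φ n))) atTop (𝓝 x) := by
    have : (fun n => ψ (w (φ n))) = fun n => u (φ n) := by
      funext n
      exact hwu (φ n)
    rw [this]
    exact hlim.comp hφ.tendsto_atTop
  have hζ2 : ‖ζ‖ = 1 := by
    refine le_antisymm ?_ hζ1
    by_contra hcon
    push Not at hcon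
    have h3 : ContinuousAt ψ ζ := (hψ.diff.differentiableAt (hopen.mem_nhds hcon)).continuousAt
    have h4 : Tendsto (fun n => ψ (w (φ n))) atTop (𝓝 (ψ ζ)) := h3.tendsto.comp hζ
    have h5 := tendsto_nhds_unique hψu h4
    have h6 : ψ ζ ∈ ψ '' {z | 1 < ‖z‖} := ⟨ζ, hcon, rfl⟩
    rw [hψ.image, ← h5] at h6
    exact h6 hxM
  refine ⟨ζ, hζ2, ?_⟩
  have h3 : Tendsto (fun n => w (φ n)) atTop (𝓝[{w | 1 < ‖w‖}] ζ) :=
    tendsto_nhdsWithin_iff.2 ⟨hζ, Eventually.of_forall fun n => hw (φ n)⟩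
  exact MapClusterPt.of_comp h3 hψu.mapClusterPt

/-- at the scale `η` all impressions near `K` are small and `M` is locally connected -/
def Fine (d : ℕ) (ψ : ℂ → ℂ) (η : ℝ) (K : Set ℂ) : Prop :=
  ∃ (b : ℂ) (ρ : ℝ), b ∈ frontier (multibrotSet d) ∧ 0 < ρ ∧ ρ ≤ η ∧ K ⊆ ball b ρ ∧
    (∀ ζ : ℂ, ‖ζ‖ = 1 → (imp ψ ζ ∩ closedBall b ρ).Nonempty →
      ∀ x ∈ imp ψ ζ, ∀ y ∈ imp ψ ζ, ‖x - y‖ ≤ η) ∧
    ∃ δ : ℝ, 0 < δ ∧ ∀ x ∈ multibrotSet d, ‖x - b‖ ≤ ρ → ∀ y ∈ multibrotSet d, ‖y - x‖ ≤ δ →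
      ∃ S : Set ℂ, S ⊆ multibrotSet d ∧ IsCompact S ∧ IsConnected S ∧ x ∈ S ∧ y ∈ S ∧
        S ⊆ closedBall x η

theorem fine_mono {d : ℕ} {ψ : ℂ → ℂ} {η : ℝ} {K K' : Set ℂ} (h : Fine d ψ η K) (hK : K' ⊆ K) :
    Fine d ψ η K' := by
  obtain ⟨b, ρ, h1, h2, h3, h4, h5⟩ := h
  exact ⟨b, ρ, h1, h2, h3, hK.trans h4, h5⟩

theorem fine_of_lyap {d : ℕ} (hd : 2 ≤ d) {ψ : ℂ → ℂ} (hψ : IsExteriorMap (multibrotSet d) ψ)
    {χ : ℝ} {b : ℂ} (hb : HasLyapunov d χ b) {η : ℝ} (hη : 0 < η) :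
    ∃ ρ : ℝ, 0 < ρ ∧ ρ ≤ η ∧ ∀ K : Set ℂ, K ⊆ ball b ρ → Fine d ψ η K := by
  have hdR : (2 : ℝ) ≤ d := by exact_mod_cast hd
  have hε : 0 < 1 / ((d : ℝ) - 1) := by
    have : (0 : ℝ) < d - 1 := by linarith
    positivity
  have hb' : Pool.Agent.Results.MP_c6f924_an.SmallImpressions.HasLyapunov d χ b := hb
  obtain ⟨R₀, hR₀, H⟩ :=
    ((Pool.Agent.Results.MP_c6f924_an.SmallImpressions.result d hd).2 ψ hψ).1 χ b hb' _ hε
  obtain ⟨ρ, hρ⟩ : ∃ ρ, ρ = min R₀ η := ⟨_, rfl⟩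
  have hρ0 : 0 < ρ := by rw [hρ]; positivity
  have hρη : ρ ≤ η := by rw [hρ]; exact min_le_right _ _
  obtain ⟨H1, δ, hδ, H2⟩ := H ρ hρ0 (by rw [hρ]; exact min_le_left _ _)
  have hexp : ρ ^ ((d : ℝ) / (d - 1) - 1 / (d - 1)) = ρ := by
    have : (d : ℝ) / (d - 1) - 1 / (d - 1) = 1 := by
      have : (d : ℝ) - 1 ≠ 0 := by linarith
      field_simp
    rw [this, Real.rpow_one]
  rw [hexp] at H1 H2
  have hMc : IsClosed (multibrotSet d) := (Pool.Agent.H712R2.isCompact_multibrot hd).isClosed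
  have hfr : b ∈ frontier (multibrotSet d) := by
    rw [frontier_eq_closure_inter_closure]
    exact ⟨subset_closure hb.2.1, Pool.Agent.N253.LC.mem_closure_compl hd (χ := χ) hb⟩
  refine ⟨ρ, hρ0, hρη, fun K hK => ⟨b, ρ, hfr, hρ0, hρη, hK, ?_, δ, hδ, ?_⟩⟩
  · intro ζ hζ hne x hx y hy
    exact (H1 ζ hζ hne x hx y hy).trans hρη
  · intro x hx hxb y hy hyx
    obtain ⟨S, h1, h2, h3, h4, h5, h6⟩ := H2 x hx hxb y hy hyx
    exact ⟨S, h1, h2, h3, h4, h5, h6.trans (closedBall_subset_closedBall hρη)⟩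

/-- local connectivity at a point which is fine at all scales -/
theorem lc_of_fine {d : ℕ} {ψ : ℂ → ℂ} {x : ℂ} (hx : x ∈ multibrotSet d)
    (h : ∀ η : ℝ, 0 < η → Fine d ψ η {x}) {η : ℝ} (hη : 0 < η) :
    ∃ δ : ℝ, 0 < δ ∧ ∀ y ∈ multibrotSet d, ∀ z ∈ multibrotSet d, ‖y - x‖ < δ → ‖z - x‖ < δ →
      ∃ S : Set ℂ, S ⊆ multibrotSet d ∧ IsCompact S ∧ IsConnected S ∧ y ∈ S ∧ z ∈ S ∧
        S ⊆ ball x η := by
  obtain ⟨b, ρ, -, -, -, hK, -, δ, hδ, H⟩ := h (η / 2) (half_pos hη)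
  have hxb : ‖x - b‖ ≤ ρ := by
    have := hK (mem_singleton x)
    rw [mem_ball, dist_eq_norm] at this
    exact this.le
  refine ⟨δ, hδ, fun y hy z hz hyx hzx => ?_⟩
  obtain ⟨S, a1, a2, a3, a4, a5, a6⟩ := H x hx hxb y hy hyx.le
  obtain ⟨T, b1, b2, b3, b4, b5, b6⟩ := H x hx hxb z hz hzx.le
  have hlt : closedBall x (η / 2) ⊆ ball x η := closedBall_subset_ball (by linarith)
  exact ⟨S ∪ T, union_subset a1 b1, a2.union b2, a3.union ⟨x, a4, b4⟩ b3, Or.inl a5, Or.inr b5,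
    union_subset (a6.trans hlt) (b6.trans hlt)⟩

theorem front_of_fine {d : ℕ} {ψ : ℂ → ℂ} {x : ℂ} (h : ∀ η : ℝ, 0 < η → Fine d ψ η {x}) :
    x ∈ frontier (multibrotSet d) := by
  rw [← isClosed_frontier.closure_eq, Metric.mem_closure_iff]
  intro ε hε
  obtain ⟨b, ρ, hb, -, hρ, hK, -⟩ := h ε hε
  exact ⟨b, hb, lt_of_lt_of_le (hK (mem_singleton x)) hρ⟩

theorem imp_of_fine {d : ℕ} {ψ : ℂ → ℂ} {x : ℂ} (h : ∀ η : ℝ, 0 < η → Fine d ψ η {x}) {ζ : ℂ}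
    (hζ : ‖ζ‖ = 1) (hx : x ∈ imp ψ ζ) : imp ψ ζ = {x} := by
  refine Set.eq_singleton_iff_unique_mem.2 ⟨hx, fun y hy => ?_⟩
  by_contra hne
  have h0 : 0 < ‖y - x‖ := norm_pos_iff.2 (sub_ne_zero.2 hne)
  obtain ⟨b, ρ, -, -, -, hK, H, -⟩ := h (‖y - x‖ / 2) (half_pos h0)
  have := H ζ hζ ⟨x, hx, ball_subset_closedBall (hK (mem_singleton x))⟩ y hy x hx
  linarith

end Pool.Agent.H206
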