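import Pool.Agent.H206.Step

set_option autoImplicit false

/-! # Iterates of perturbed families -/

namespace Pool.Agent.H206

open Complex Metric Set Filter Topology
open N62a1eb23
open Pool.Agent.Results.MP_af9036_an.PerfectZones

/-- an orbit which ends in a small disc stays in it -/
theorem stay_small {d N : ℕ} (hd : 2 ≤ d) {k w : ℂ} (hk : ‖k‖ ≤ 9 / 4)
    (hN : ‖(f d k)^[N] w‖ ≤ 5 / 2) : ∀ j ≤ N, ‖(f d k)^[j] w‖ ≤ 5 / 2 := by
  intro j hj
  by_contra hcon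
  push Not at hcon
  have h1 : ∀ i, 5 / 2 < ‖(f d k)^[j + i] w‖ := by
    intro i
    induction i with
    | zero => exact hcon
    | succ i ih =>
      have e1 : (f d k)^[j + (i + 1)] w = ((f d k)^[j + i] w) ^ d + k := by
        rw [← add_assoc, Function.iterate_succ_apply']
        rfl
      have e2 := norm_sub_norm_le (((f d k)^[j + i] w) ^ d) (-k)
      rw [sub_neg_eq_add, ← e1, norm_neg, norm_pow] at e2
      have e3 : ‖(f d k)^[j + i] w‖ ^ 2 ≤ ‖(f d k)^[j + i] w‖ ^ d :=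
        pow_le_pow_right₀ (by linarith) hd
      nlinarith
  have h2 := h1 (N - j)
  rw [Nat.add_sub_cancel' hj] at h2
  linarith

theorem shadow {d N : ℕ} (hd : 2 ≤ d) {e : ℂ → ℂ → ℂ} {δ : ℝ} (hδ0 : 0 ≤ δ) {k w : ℂ}
    (he : ∀ z : ℂ, ‖z‖ ≤ 4 → ‖e k z‖ ≤ δ) (hk : ‖k‖ ≤ 9 / 4) (hN : ‖(f d k)^[N] w‖ ≤ 5 / 2)
    (hδ : δ * (d * 4 ^ (d - 1) + 1) ^ N ≤ 1 / 2) :
    ∀ j ≤ N, ‖(HH d e k)^[j] w‖ ≤ 3 ∧
      ‖(HH d e k)^[j] w - (f d k)^[j] w‖ ≤ δ * (d * 4 ^ (d - 1) + 1) ^ j := by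
  have hst := stay_small hd hk hN
  obtain ⟨A, hA⟩ : ∃ A : ℝ, A = d * 4 ^ (d - 1) + 1 := ⟨_, rfl⟩
  have hA1 : 1 ≤ A := by
    rw [hA]
    have : (0 : ℝ) ≤ d * 4 ^ (d - 1) := by positivity
    linarith
  rw [← hA] at hδ ⊢
  have hle : ∀ j ≤ N, δ * A ^ j ≤ 1 / 2 := fun j hj => by
    refine le_trans ?_ hδ
    gcongr
  intro j
  induction j with
  | zero =>
    intro _
    have h0 := hst 0 (Nat.zero_le _)
    refine ⟨?_, ?_⟩
    · rw [Function.iterate_zero_apply] at h0 ⊢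
      linarith
    · simp only [Function.iterate_zero, id_eq, sub_self, norm_zero]
      positivity
  | succ j ih =>
    intro hj
    obtain ⟨h1, h2⟩ := ih (by omega)
    have h3 := hst j (by omega)
    have h4 := hst (j + 1) hj
    obtain ⟨x, hx⟩ : ∃ x, x = (HH d e k)^[j] w := ⟨_, rfl⟩
    obtain ⟨y, hy⟩ : ∃ y, y = (f d k)^[j] w := ⟨_, rfl⟩
    rw [← hx, ← hy] at h2
    rw [← hx] at h1
    rw [← hy] at h3
    have e1 : (HH d e k)^[j + 1] w = x ^ d + k + e k x := by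
      rw [Function.iterate_succ_apply', ← hx]
      rfl
    have e2 : (f d k)^[j + 1] w = y ^ d + k := by
      rw [Function.iterate_succ_apply', ← hy]
      rfl
    have e3 : ‖(HH d e k)^[j + 1] w - (f d k)^[j + 1] w‖ ≤ δ * A ^ (j + 1) := by
      rw [e1, e2]
      have g1 : x ^ d + k + e k x - (y ^ d + k) = (x ^ d - y ^ d) + e k x := by ring
      rw [g1]
      have g2 : ‖x ^ d - y ^ d‖ ≤ d * 4 ^ (d - 1) * ‖x - y‖ :=
        pow_diff_le (by linarith) (by linarith) d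
      have g3 := he x (by linarith)
      calc ‖x ^ d - y ^ d + e k x‖ ≤ ‖x ^ d - y ^ d‖ + ‖e k x‖ := norm_add_le _ _
        _ ≤ d * 4 ^ (d - 1) * (δ * A ^ j) + δ * A ^ j := by
            refine add_le_add (g2.trans (by gcongr)) (g3.trans ?_)
            calc δ = δ * 1 := (mul_one _).symm
              _ ≤ δ * A ^ j := by
                  gcongr
                  exact one_le_pow₀ hA1
        _ = δ * A ^ (j + 1) := by rw [hA]; ring
    refine ⟨?_, e3⟩
    have e4 := hle (j + 1) hj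
    have e5 := norm_add_le ((HH d e k)^[j + 1] w - (f d k)^[j + 1] w) ((f d k)^[j + 1] w)
    rw [sub_add_cancel] at e5
    linarith

end Pool.Agent.H206
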