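import Pool.Agent.H206.Imp

set_option autoImplicit false

/-! # Towers of perfect small copies -/

namespace Pool.Agent.H206

open Complex Metric Set Filter Topology
open N62a1eb23
open Pool.Agent.Results.MP_af9036_an.PerfectZones
open Pool.Agent.H713R2 (IsExteriorMap)

theorem bool_seq_not_countable : ¬ Countable (ℕ → Bool) := by
  intro h
  obtain ⟨g, hg⟩ := exists_surjective_nat (ℕ → Bool)
  obtain ⟨k, hk⟩ := hg fun i => !(g i i)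
  have := congrFun hk k
  simp at this

/-- the path in a binary tree -/
def path {S : Type*} (ch : ℕ → S → Bool → S) (s : S) (α : ℕ → Bool) : ℕ → S
  | 0 => s
  | k + 1 => ch k (path ch s α k) (α k)

theorem path_eq {S : Type*} (ch : ℕ → S → Bool → S) (s : S) {α β : ℕ → Bool} {k : ℕ}
    (h : ∀ i < k, α i = β i) : path ch s α k = path ch s β k := by
  induction k with
  | zero => rfl
  | succ k ih =>
    show ch k (path ch s α k) (α k) = ch k (path ch s β k) (β k)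
    rw [ih fun i hi => h i (Nat.lt_succ_of_lt hi), h k (Nat.lt_succ_self k)]

/-- the limit points of a binary tree of compact sets are not countable -/
theorem tree {S X : Type*} [TopologicalSpace X] [T2Space X] (Good : ℕ → S → Prop)
    (Rel : ℕ → S → S → Prop) (K : S → Set X)
    (hK : ∀ k s, Good k s → IsCompact (K s) ∧ (K s).Nonempty)
    (hstep : ∀ k s, Good k s → ∃ s₀ s₁ : S, (Good (k + 1) s₀ ∧ Rel k s s₀ ∧ K s₀ ⊆ K s) ∧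
      (Good (k + 1) s₁ ∧ Rel k s s₁ ∧ K s₁ ⊆ K s) ∧ Disjoint (K s₀) (K s₁))
    (s : S) (hs : Good 0 s) :
    ¬ {x : X | ∃ u : ℕ → S, u 0 = s ∧ (∀ k, Good k (u k)) ∧ (∀ k, Rel k (u k) (u (k + 1))) ∧
      (∀ k, K (u (k + 1)) ⊆ K (u k)) ∧ ∀ k, x ∈ K (u k)}.Countable := by
  classical
  have hex : ∃ ch : ℕ → S → Bool → S, ∀ k s, Good k s →
      (∀ e, Good (k + 1) (ch k s e) ∧ Rel k s (ch k s e) ∧ K (ch k s e) ⊆ K s) ∧
      Disjoint (K (ch k s true)) (K (ch k s false)) := by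
    have h1 : ∀ k s, ∃ c : Bool → S, Good k s →
        (∀ e, Good (k + 1) (c e) ∧ Rel k s (c e) ∧ K (c e) ⊆ K s) ∧
        Disjoint (K (c true)) (K (c false)) := by
      intro k s
      by_cases h : Good k s
      · obtain ⟨s₀, s₁, h0, h1, h2⟩ := hstep k s h
        refine ⟨fun e => if e then s₀ else s₁, fun _ => ⟨fun e => ?_, ?_⟩⟩
        · cases e with
          | true => simpa using h0
          | false => simpa using h1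
        · simpa using h2
      · exact ⟨fun _ => s, fun h' => absurd h' h⟩
    choose ch hch using h1
    exact ⟨ch, hch⟩
  obtain ⟨ch, hch⟩ := hex
  have hgood : ∀ α k, Good k (path ch s α k) := by
    intro α k
    induction k with
    | zero => exact hs
    | succ k ih => exact ((hch k _ ih).1 (α k)).1
  have hsub : ∀ α k, K (path ch s α (k + 1)) ⊆ K (path ch s α k) := fun α k =>
    ((hch k _ (hgood α k)).1 (α k)).2.2
  have hne : ∀ α, (⋂ k, K (path ch s α k)).Nonempty := by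
    intro α
    exact IsCompact.nonempty_iInter_of_sequence_nonempty_isCompact_isClosed _ (hsub α)
      (fun k => (hK k _ (hgood α k)).2) (hK 0 _ (hgood α 0)).1
      (fun k => (hK k _ (hgood α k)).1.isClosed)
  choose x hx using hne
  have hxK : ∀ α k, x α ∈ K (path ch s α k) := fun α k => mem_iInter.1 (hx α) k
  have hinj : Function.Injective x := by
    intro α β hαβ
    by_contra hne
    have h1 : ∃ k, α k ≠ β k := Function.ne_iff.1 hne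
    obtain ⟨k, hk, hmin⟩ : ∃ k, α k ≠ β k ∧ ∀ i < k, α i = β i :=
      ⟨Nat.find h1, Nat.find_spec h1, fun i hi => not_not.1 (Nat.find_min h1 hi)⟩
    have h2 := path_eq ch s hmin
    have h3 : x α ∈ K (ch k (path ch s α k) (α k)) := hxK α (k + 1)
    have h4 : x β ∈ K (ch k (path ch s β k) (β k)) := hxK β (k + 1)
    rw [← h2, ← hαβ] at h4
    have h5 := (hch k _ (hgood α k)).2
    rcases ha : α k with _ | _ <;> rcases hb : β k with _ | _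
    · exact hk (by rw [ha, hb])
    · rw [ha] at h3
      rw [hb] at h4
      exact Set.disjoint_left.1 h5 h4 h3
    · rw [ha] at h3
      rw [hb] at h4
      exact Set.disjoint_left.1 h5 h3 h4
    · exact hk (by rw [ha, hb])
  intro hcount
  have hmem : ∀ α, x α ∈ {x : X | ∃ u : ℕ → S, u 0 = s ∧ (∀ k, Good k (u k)) ∧
      (∀ k, Rel k (u k) (u (k + 1))) ∧ (∀ k, K (u (k + 1)) ⊆ K (u k)) ∧ ∀ k, x ∈ K (u k)} :=
    fun α => ⟨path ch s α, rfl, hgood α, fun k => ((hch k _ (hgood α k)).1 (α k)).2.1, hsub α,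
      hxK α⟩
  have : Countable (ℕ → Bool) := by
    haveI := hcount.to_subtype
    exact Function.Injective.countable (f := fun α => (⟨x α, hmem α⟩ : {x : X | _}))
      (fun α β h => hinj (congrArg Subtype.val h))
  exact bool_seq_not_countable this

theorem perf_mono {d n : ℕ} {c l m : ℂ} {ε ε' : ℝ} (h : Perf d ε n c l m) (hε : 0 < ε)
    (hεε : ε ≤ ε') : Perf d ε' n c l m := by
  obtain ⟨h1, h2, h3, ⟨S, h4, h5⟩, τ, h6, h7, h8, h9, h10⟩ := h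
  have h0 : 1 / ε' ≤ 1 / ε := one_div_le_one_div_of_le hε hεε
  exact ⟨h1, h2, h3, ⟨S, h0.trans h4, zone_mono h5 hεε⟩, τ, h0.trans h6, h7, copies_mono h8 hεε,
    h9, h10⟩

theorem KK_compact {d n : ℕ} {c l m : ℂ} (hl : l ≠ 0) : IsCompact (KK d n c l m) := by
  have h1 : IsClosed (KK d n c l m) := by
    have e : KK d n c l m = {x | ‖(x - c) / l‖ ≤ 3 ^ d} ∩
        ⋂ j : ℕ, {x | ‖(f d (c + l * ((x - c) / l)))^[n * j] 0‖ ≤ 3 * ‖m‖} := by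
      ext x
      simp only [KK, copy, mem_setOf_eq, mem_inter_iff, mem_iInter]
    rw [e]
    refine IsClosed.inter (isClosed_le (by fun_prop) continuous_const) (isClosed_iInter fun j =>
      isClosed_le ?_ continuous_const)
    have : Continuous fun x : ℂ => c + l * ((x - c) / l) := by fun_prop
    exact ((cont_x d (n * j) 0).comp this).norm
  refine Metric.isCompact_of_isClosed_isBounded h1 (isBounded_closedBall (x := c)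
    (r := 3 ^ d * ‖l‖) |>.subset fun x hx => ?_)
  have h2 : ‖(x - c) / l‖ ≤ 3 ^ d := hx.1
  rw [norm_div, div_le_iff₀ (norm_pos_iff.2 hl)] at h2
  rw [mem_closedBall, dist_eq_norm]
  exact h2

theorem mem_KK {d n : ℕ} (c l m : ℂ) (hc : (f d c)^[n] 0 = 0) :
    c ∈ KK d n c l m := by
  refine ⟨by simp, fun j => ?_⟩
  have h1 : ∀ j, (f d c)^[n * j] 0 = 0 := by
    intro j
    induction j with
    | zero => simp
    | succ j ih => rw [Nat.mul_succ, Function.iterate_add_apply, hc, ih]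
  rw [sub_self, zero_div, mul_zero, add_zero, h1, norm_zero]
  positivity

theorem Perf.zero {d n : ℕ} {c l m : ℂ} {ε : ℝ} (h : Perf d ε n c l m) : (f d c)^[n] 0 = 0 := by
  have h1 := Function.iterate_minimalPeriod (f := f d c) (x := 0)
  rwa [h.per] at h1

/-- **Two disjoint children.** -/
theorem children {d : ℕ} (hd : 2 ≤ d) {a : ℂ} (ha : a ^ (d - 1) = om d - 1) {ψ : ℂ → ℂ}
    (hψ : IsExteriorMap (multibrotSet d) ψ) {r : ℝ} (hr : 0 < r) :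
    ∃ ε₁ : ℝ, 0 < ε₁ ∧ ∀ (n : ℕ) (c l m : ℂ), Perf d ε₁ n c l m → ∀ η : ℝ, 0 < η →
      ∃ s₀ s₁ : ℕ × ℂ × ℂ × ℂ,
        (Perf d η s₀.1 s₀.2.1 s₀.2.2.1 s₀.2.2.2 ∧ Fine d ψ η (KK d s₀.1 s₀.2.1 s₀.2.2.1 s₀.2.2.2) ∧
          n ∣ s₀.1 ∧ n < s₀.1 ∧ (∀ x ∈ KK d s₀.1 s₀.2.1 s₀.2.2.1 s₀.2.2.2, ‖(x - c) / l - a‖ ≤ r) ∧
          KK d s₀.1 s₀.2.1 s₀.2.2.1 s₀.2.2.2 ⊆ KK d n c l m) ∧
        (Perf d η s₁.1 s₁.2.1 s₁.2.2.1 s₁.2.2.2 ∧ Fine d ψ η (KK d s₁.1 s₁.2.1 s₁.2.2.1 s₁.2.2.2) ∧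
          n ∣ s₁.1 ∧ n < s₁.1 ∧ (∀ x ∈ KK d s₁.1 s₁.2.1 s₁.2.2.1 s₁.2.2.2, ‖(x - c) / l - a‖ ≤ r) ∧
          KK d s₁.1 s₁.2.1 s₁.2.2.1 s₁.2.2.2 ⊆ KK d n c l m) ∧
        Disjoint (KK d s₀.1 s₀.2.1 s₀.2.2.1 s₀.2.2.2) (KK d s₁.1 s₁.2.1 s₁.2.2.1 s₁.2.2.2) := by
  obtain ⟨ε₁, hε₁, H⟩ := step hd ha hr
  refine ⟨ε₁, hε₁, fun n c l m hP η hη => ?_⟩
  obtain ⟨χ, b, hb, H2⟩ := H n c l m hP
  obtain ⟨ρ, hρ, -, hfine⟩ := fine_of_lyap hd hψ hb hη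
  obtain ⟨n₀, c₀, l₀, m₀, a1, a2, a3, a4, a5, a6, a7⟩ := H2 η ρ hη hρ
  have hK := (KK_compact (d := d) (n := n₀) (c := c₀) (m := m₀) a1.sc.1).isClosed
  obtain ⟨ρ', hρ', hsub⟩ := Metric.isOpen_iff.1 hK.isOpen_compl b a6
  obtain ⟨n₁, c₁, l₁, m₁, b1, b2, b3, b4, b5, b6, b7⟩ := H2 η (min ρ ρ') hη (by positivity)
  refine ⟨(n₀, c₀, l₀, m₀), (n₁, c₁, l₁, m₁), ⟨a1, hfine _ a5, a2, a3, a7, a4⟩,
    ⟨b1, hfine _ (b5.trans (ball_subset_ball (min_le_left _ _))), b2, b3, b7, b4⟩, ?_⟩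
  rw [Set.disjoint_left]
  intro x hx0 hx1
  exact hsub (ball_subset_ball (min_le_right _ _) (b5 hx1)) hx0

/-- the limit points -/
structure Limit (d : ℕ) (ψ : ℂ → ℂ) (a x : ℂ) (u : ℕ → ℕ × ℂ × ℂ × ℂ) : Prop where
  perf : ∀ k : ℕ, Perf d (1 / ((k : ℝ) + 1)) (u k).1 (u k).2.1 (u k).2.2.1 (u k).2.2.2
  fine : ∀ k : ℕ, Fine d ψ (1 / ((k : ℝ) + 1)) (KK d (u k).1 (u k).2.1 (u k).2.2.1 (u k).2.2.2)
  dvd : ∀ k, (u k).1 ∣ (u (k + 1)).1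
  lt : ∀ k, (u k).1 < (u (k + 1)).1
  mem : ∀ k, x ∈ KK d (u k).1 (u k).2.1 (u k).2.2.1 (u k).2.2.2
  tip : ∀ k : ℕ, ‖(x - (u k).2.1) / (u k).2.2.1 - a‖ ≤ 1 / ((k : ℝ) + 1)
  sub : ∀ k, KK d (u (k + 1)).1 (u (k + 1)).2.1 (u (k + 1)).2.2.1 (u (k + 1)).2.2.2 ⊆
    KK d (u k).1 (u k).2.1 (u k).2.2.1 (u k).2.2.2

/-- **Uncountably many limit points in every disc about a boundary point.** -/
theorem limits {d : ℕ} (hd : 2 ≤ d) {a : ℂ} (ha : a ^ (d - 1) = om d - 1) {ψ : ℂ → ℂ}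
    (hψ : IsExteriorMap (multibrotSet d) ψ) {p : ℂ} (hp : p ∈ frontier (multibrotSet d)) {r : ℝ}
    (hr : 0 < r) : ¬ {x : ℂ | ‖x - p‖ < r ∧ ∃ u, Limit d ψ a x u}.Countable := by
  have hex : ∀ k : ℕ, ∃ ε₁ : ℝ, 0 < ε₁ ∧ ∀ (n : ℕ) (c l m : ℂ), Perf d ε₁ n c l m →
      ∀ η : ℝ, 0 < η → ∃ s₀ s₁ : ℕ × ℂ × ℂ × ℂ,
        (Perf d η s₀.1 s₀.2.1 s₀.2.2.1 s₀.2.2.2 ∧ Fine d ψ η (KK d s₀.1 s₀.2.1 s₀.2.2.1 s₀.2.2.2) ∧
          n ∣ s₀.1 ∧ n < s₀.1 ∧ (∀ x ∈ KK d s₀.1 s₀.2.1 s₀.2.2.1 s₀.2.2.2,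
            ‖(x - c) / l - a‖ ≤ 1 / ((k : ℝ) + 1)) ∧
          KK d s₀.1 s₀.2.1 s₀.2.2.1 s₀.2.2.2 ⊆ KK d n c l m) ∧
        (Perf d η s₁.1 s₁.2.1 s₁.2.2.1 s₁.2.2.2 ∧ Fine d ψ η (KK d s₁.1 s₁.2.1 s₁.2.2.1 s₁.2.2.2) ∧
          n ∣ s₁.1 ∧ n < s₁.1 ∧ (∀ x ∈ KK d s₁.1 s₁.2.1 s₁.2.2.1 s₁.2.2.2,
            ‖(x - c) / l - a‖ ≤ 1 / ((k : ℝ) + 1)) ∧
          KK d s₁.1 s₁.2.1 s₁.2.2.1 s₁.2.2.2 ⊆ KK d n c l m) ∧
        Disjoint (KK d s₀.1 s₀.2.1 s₀.2.2.1 s₀.2.2.2)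
          (KK d s₁.1 s₁.2.1 s₁.2.2.1 s₁.2.2.2) := fun k =>
    children hd ha hψ (r := 1 / ((k : ℝ) + 1)) (by positivity)
  choose E hE0 hE using hex
  obtain ⟨e, he⟩ : ∃ e : ℕ → ℝ, e = fun k => min (E k) (1 / ((k : ℝ) + 1)) := ⟨_, rfl⟩
  have he0 : ∀ k, 0 < e k := by
    intro k
    rw [he]
    exact lt_min (hE0 k) (by positivity)
  have he1 : ∀ k, e k ≤ E k := fun k => by rw [he]; exact min_le_left _ _
  have he2 : ∀ k, e k ≤ 1 / ((k : ℝ) + 1) := fun k => by rw [he]; exact min_le_right _ _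
  -- the first copy
  obtain ⟨c₀, ⟨hc₀, hL⟩, hc₀p⟩ := Metric.mem_closure_iff.1 (typ_dense hd hp) (r / 2) (half_pos hr)
  obtain ⟨η₀, hη₀⟩ : ∃ η₀, η₀ = min 1 (r / 2) := ⟨_, rfl⟩
  have hη₀0 : 0 < η₀ := by rw [hη₀]; positivity
  obtain ⟨ρ, hρ, hρη, hfine⟩ := fine_of_lyap hd hψ (b := c₀) hL hη₀0
  obtain ⟨R, t, hR, hRρ, -, -, H⟩ := zone_at hd (b := c₀) hL (he0 0) one_pos hρ
  obtain ⟨c', hc', hcc'⟩ := Metric.mem_closure_iff.1
    (Pool.Agent.N772.PC.frontier_sub hd hc₀) (R / 2) (half_pos hR)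
  have hint := Pool.Agent.R240.Alm.att_interior hd hc'
  obtain ⟨V, n, c, l, m, -, -, hVR, -, hP, -, -, hKV⟩ := H c' ⟨interior_subset hint, Or.inl hint⟩ (by
    rw [dist_eq_norm, norm_sub_rev] at hcc'
    exact hcc'.le)
  have hKR : KK d n c l m ⊆ ball c₀ ρ := hKV.trans (hVR.trans (ball_subset_ball hRρ))
  have hfine0 : Fine d ψ (1 / (((0 : ℕ) : ℝ) + 1)) (KK d n c l m) := by
    obtain ⟨b, ρ', h1, h2, h3, h4, h5, δ, h6, h7⟩ := hfine _ hKR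
    have hη1 : η₀ ≤ 1 / (((0 : ℕ) : ℝ) + 1) := by
      rw [hη₀]
      simp
    refine ⟨b, ρ', h1, h2, h3.trans hη1, h4, fun ζ hζ hne x hx y hy => (h5 ζ hζ hne x hx y hy).trans
      hη1, δ, h6, fun x hx hxb y hy hyx => ?_⟩
    obtain ⟨S, g1, g2, g3, g4, g5, g6⟩ := h7 x hx hxb y hy hyx
    exact ⟨S, g1, g2, g3, g4, g5, g6.trans (closedBall_subset_closedBall hη1)⟩
  have htree := tree (S := ℕ × ℂ × ℂ × ℂ) (X := ℂ)
    (fun k s => Perf d (e k) s.1 s.2.1 s.2.2.1 s.2.2.2 ∧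
      Fine d ψ (1 / ((k : ℝ) + 1)) (KK d s.1 s.2.1 s.2.2.1 s.2.2.2))
    (fun k s s' => s.1 ∣ s'.1 ∧ s.1 < s'.1 ∧ ∀ x ∈ KK d s'.1 s'.2.1 s'.2.2.1 s'.2.2.2,
      ‖(x - s.2.1) / s.2.2.1 - a‖ ≤ 1 / ((k : ℝ) + 1))
    (fun s => KK d s.1 s.2.1 s.2.2.1 s.2.2.2)
    (by
      rintro k s ⟨h1, -⟩
      exact ⟨KK_compact h1.sc.1, ⟨s.2.1, mem_KK _ _ _ h1.zero⟩⟩)
    (by
      rintro k s ⟨h1, -⟩
      obtain ⟨s₀, s₁, ⟨a1, a2, a3, a4, a5, a6⟩, ⟨b1, b2, b3, b4, b5, b6⟩, hdis⟩ :=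
        hE k s.1 s.2.1 s.2.2.1 s.2.2.2 (perf_mono h1 (he0 k) (he1 k)) (e (k + 1)) (he0 _)
      have hmono : ∀ s' : ℕ × ℂ × ℂ × ℂ,
          Fine d ψ (e (k + 1)) (KK d s'.1 s'.2.1 s'.2.2.1 s'.2.2.2) →
          Fine d ψ (1 / (((k + 1 : ℕ) : ℝ) + 1)) (KK d s'.1 s'.2.1 s'.2.2.1 s'.2.2.2) := by
        rintro s' ⟨b, ρ', h1, h2, h3, h4, h5, δ, h6, h7⟩
        have hη1 := he2 (k + 1)
        refine ⟨b, ρ', h1, h2, h3.trans hη1, h4, fun ζ hζ hne x hx y hy =>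
          (h5 ζ hζ hne x hx y hy).trans hη1, δ, h6, fun x hx hxb y hy hyx => ?_⟩
        obtain ⟨S, g1, g2, g3, g4, g5, g6⟩ := h7 x hx hxb y hy hyx
        exact ⟨S, g1, g2, g3, g4, g5, g6.trans (closedBall_subset_closedBall hη1)⟩
      exact ⟨s₀, s₁, ⟨⟨a1, hmono _ a2⟩, ⟨a3, a4, a5⟩, a6⟩, ⟨⟨b1, hmono _ b2⟩, ⟨b3, b4, b5⟩, b6⟩,
        hdis⟩)
    (n, c, l, m) ⟨hP, hfine0⟩
  intro hcount
  apply htree
  refine hcount.mono ?_
  rintro x ⟨u, hu0, hu1, hu2, hu3, hu4⟩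
  refine ⟨?_, u, fun k => perf_mono (hu1 k).1 (he0 k) (he2 k), fun k => (hu1 k).2,
    fun k => (hu2 k).1, fun k => (hu2 k).2.1, hu4, fun k => (hu2 k).2.2 x (hu4 (k + 1)), hu3⟩
  have h1 := hu4 0
  rw [hu0] at h1
  have h2 := hKR h1
  rw [mem_ball, dist_eq_norm] at h2
  have h3 : ρ ≤ r / 2 := hρη.trans (by rw [hη₀]; exact min_le_right _ _)
  rw [dist_comm, dist_eq_norm] at hc₀p
  have h4 : ‖x - p‖ ≤ ‖x - c₀‖ + ‖c₀ - p‖ := by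
    have e1 : x - p = (x - c₀) + (c₀ - p) := by ring
    rw [e1]
    exact norm_add_le _ _
  linarith

end Pool.Agent.H206
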