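import Pool.Agent.H206.LimA
import Pool.Agent.H206.Tower

set_option autoImplicit false

/-! # Small perfect copies near every boundary point -/

namespace Pool.Agent.H206

open Complex Metric Set Filter Topology
open N62a1eb23
open Pool.Agent.Results.MP_af9036_an.PerfectZones

/-- **Perfect zones close to a Lyapunov parameter.** -/
theorem zone_at2 {d : ℕ} (hd : 2 ≤ d) {χ : ℝ} {b : ℂ} (hb : HasLyapunov d χ b) {η s ρ : ℝ}
    (hη : 0 < η) (hs : 0 < s) (hρ : 0 < ρ) :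
    ∃ R t : ℝ, 0 < R ∧ R ≤ ρ ∧ 0 < t ∧ t ≤ s ∧ ∀ c' ∈ Rest d, ‖c' - b‖ ≤ R / 2 →
      ∃ (V : Set ℂ) (n : ℕ) (c l m : ℂ), IsPreconnected V ∧ c' ∈ V ∧ V ⊆ ball b R ∧
        V ⊆ entering d b R t ∧ Perf d η n c l m ∧
        (∀ x ∈ V, ∀ z : ℂ, ‖z‖ ≤ 3 * ‖m‖ → ‖(f d x)^[n] z‖ ≤ 2 * t) ∧ 3 * ‖m‖ ≤ t ∧
        KK d n c l m ⊆ V ∧ ‖l‖ ≤ R := by
  have hdR : (2 : ℝ) ≤ d := by exact_mod_cast hd
  have hd1 : (0 : ℝ) < (d : ℝ) - 1 := by linarith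
  obtain ⟨ε, hε⟩ : ∃ ε, ε = min η (1 / (2 * ((d : ℝ) - 1))) := ⟨_, rfl⟩
  have hε0 : 0 < ε := by rw [hε]; positivity
  have hεη : ε ≤ η := by rw [hε]; exact min_le_left _ _
  have hεd : ε ≤ 1 / (2 * ((d : ℝ) - 1)) := by rw [hε]; exact min_le_right _ _
  have hhalf : 1 / (2 * ((d : ℝ) - 1)) = 1 / ((d : ℝ) - 1) / 2 := by field_simp
  have hposd : 0 < 1 / ((d : ℝ) - 1) := by positivity
  obtain ⟨τ, α, R₀, hτ1, hτ2, hα, hR₀, H⟩ := near hd hb ε hε0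
  have hτ0 : 0 < τ := by linarith
  have hE : (d : ℝ) / (d - 1) = 1 + 1 / (d - 1) := by field_simp; ring
  obtain ⟨g, hg⟩ : ∃ g : ℝ, g = (d : ℝ) / (d - 1) - ε - 1 := ⟨_, rfl⟩
  have hg0 : 0 < g := by rw [hg, hE]; linarith
  obtain ⟨θ, hθ⟩ : ∃ θ : ℝ, θ = min η (1 / (12 * 3 ^ d)) := ⟨_, rfl⟩
  have hθ0 : 0 < θ := by rw [hθ]; positivity
  have hev : ∀ᶠ R : ℝ in 𝓝[>] 0, R ^ τ ≤ s ∧ R ^ α ≤ θ ∧ R ^ g ≤ 1 / 8 ∧
      1 / η ≤ α * Real.log (1 / R) ∧ R ≤ R₀ ∧ R ≤ ρ ∧ 0 < R := by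
    filter_upwards [ev_rpow hτ0 hs, ev_rpow hα hθ0, ev_rpow hg0 (by norm_num : (0 : ℝ) < 1 / 8),
      ev_log (e := 1 / η) hα, Ioo_mem_nhdsGT hR₀, Ioo_mem_nhdsGT hρ] with R h1 h2 h3 h4 h5 h6
    exact ⟨h1, h2, h3, h4, h5.2.le, h6.2.le, h5.1⟩
  obtain ⟨R, hR1, hR2, hR3, hR4, hR5, hR6, hR⟩ := hev.exists
  have ht : 0 < R ^ τ := Real.rpow_pos_of_pos hR _
  have hα0 : 0 < R ^ α := Real.rpow_pos_of_pos hR _
  have hαη : R ^ α ≤ η := hR2.trans (by rw [hθ]; exact min_le_left _ _)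
  have hα3 : R ^ α ≤ 1 / (12 * 3 ^ d) := hR2.trans (by rw [hθ]; exact min_le_right _ _)
  have h3d : (9 : ℝ) ≤ 3 ^ d := by
    calc (9 : ℝ) = 3 ^ 2 := by norm_num
      _ ≤ 3 ^ d := pow_le_pow_right₀ (by norm_num) hd
  have hα3' : 12 * 3 ^ d * R ^ α ≤ 1 := by
    rw [le_div_iff₀ (by positivity)] at hα3
    linarith
  have hα4 : R ^ α ≤ 1 / 100 := by
    have e1 : 12 * 9 * R ^ α ≤ 12 * 3 ^ d * R ^ α := by gcongr
    linarith
  have hαinv : R ^ (-α) * R ^ α = 1 := by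
    rw [← Real.rpow_add hR, neg_add_cancel, Real.rpow_zero]
  refine ⟨R, R ^ τ, hR, hR6, ht, hR1, fun c' hc' hcb => ?_⟩
  obtain ⟨-, H2, H3⟩ := H R hR hR5
  obtain ⟨hcW, -⟩ := H3 {c'} (by simpa using hc') isPreconnected_singleton c' rfl hcb
  obtain ⟨n, c, l, m, S, hn0, hfar, hent, hper, hcc, hsc, hSm, hSR, hlS, hV1, hV2, hZ, hSh, hCo, hRe,
    hRo⟩ := H2 c' hcW
  have hl0 : l ≠ 0 := hsc.1
  have hm0 : m ≠ 0 := hsc.2.1
  have hln : 0 < ‖l‖ := norm_pos_iff.2 hl0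
  have hmn : 0 < ‖m‖ := norm_pos_iff.2 hm0
  have hS12 : 12 * 3 ^ d ≤ S := by
    refine le_trans ?_ hSR
    have h1 : 0 < R ^ (-α) := Real.rpow_pos_of_pos hR _
    calc (12 : ℝ) * 3 ^ d = (12 * 3 ^ d * R ^ α) * R ^ (-α) := by
          rw [mul_assoc, mul_comm (R ^ α), hαinv, mul_one]
      _ ≤ 1 * R ^ (-α) := by gcongr
      _ = R ^ (-α) := one_mul _
  have hS0 : 0 < S := lt_of_lt_of_le (by positivity) hS12
  have hm1 : ‖m‖ * (12 * 3 ^ d) ≤ 3 * R ^ τ := by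
    rw [← hSm, mul_comm S]
    gcongr
  have hm36 : 36 * ‖m‖ ≤ R ^ τ := by
    have e1 : ‖m‖ * (12 * 9) ≤ ‖m‖ * (12 * 3 ^ d) := by gcongr
    linarith
  have hlS8 : ‖l‖ * S ≤ R / 8 := by
    refine hlS.trans ?_
    have h1 : R ^ ((d : ℝ) / (d - 1) - ε) = R ^ g * R := by
      conv_rhs => rw [← Real.rpow_one R, ← Real.rpow_mul hR.le, one_mul]
      rw [← Real.rpow_add hR, hg]
      congr 1
      ring
    rw [h1]
    calc R ^ g * R ≤ 1 / 8 * R := by gcongr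
      _ = R / 8 := by ring
  have hVW : connectedComponentIn (entering d b R (R ^ τ)) c' ⊆ entering d b R (R ^ τ) :=
    connectedComponentIn_subset _ _
  have hc'V : c' ∈ connectedComponentIn (entering d b R (R ^ τ)) c' := mem_connectedComponentIn hcW
  have hlR : ‖l‖ ≤ R := by
    have e1 : ‖l‖ * 1 ≤ ‖l‖ * S := by
      gcongr
      linarith
    linarith
  refine ⟨connectedComponentIn (entering d b R (R ^ τ)) c', n, c, l, m,
    isPreconnected_connectedComponentIn, hc'V, ?_, hVW, ⟨hn0, hper, hsc, ⟨S, ?_, zone_mono hZ hαη⟩,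
      ⟨α * Real.log (1 / R), hR4, hSh, copies_mono hCo hεη, hRe, hRo⟩⟩, ?_, by linarith, ?_, hlR⟩
  · intro x hx
    rw [mem_ball, dist_eq_norm]
    exact (hVW hx).1
  · refine le_trans ?_ hSR
    rw [div_le_iff₀ hη, ← hαinv]
    gcongr
  · intro x hx z hz
    obtain ⟨κ, hκ⟩ : ∃ κ, κ = (x - c) / l := ⟨_, rfl⟩
    obtain ⟨z₁, hz₁⟩ : ∃ z₁, z₁ = z / m := ⟨_, rfl⟩
    have hx' : c + l * κ = x := by rw [hκ]; field_simp; ring
    have hz' : m * z₁ = z := by rw [hz₁]; field_simp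
    have h1 := hV1 hx
    rw [mem_closedBall, dist_eq_norm] at h1
    have hκn : ‖κ‖ ≤ (1 + R ^ α) * (S / 3) := by
      rw [hκ, norm_div, div_le_iff₀ hln]
      linarith
    have hκS : ‖κ‖ ≤ S := by
      have e1 : (1 + R ^ α) * (S / 3) ≤ (1 + 1 / 100) * (S / 3) := by gcongr
      linarith
    have hzn : ‖z₁‖ ≤ 3 := by
      rw [hz₁, norm_div, div_le_iff₀ hmn]
      exact hz
    have hzd : ‖z₁‖ ^ d ≤ 3 ^ d := by gcongr
    obtain ⟨g1, -, -⟩ := hZ κ z₁ hκS (by linarith)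
    have h2 : ‖ren d n c l m κ z₁‖ ≤ (1 + R ^ α) * (‖κ‖ + ‖z₁‖ ^ d) := by
      have e1 := norm_add_le (ren d n c l m κ z₁ - (z₁ ^ d + κ)) (z₁ ^ d + κ)
      rw [sub_add_cancel] at e1
      have e2 := norm_add_le (z₁ ^ d) κ
      rw [norm_pow] at e2
      linarith
    have h3 : (f d x)^[n] z = ren d n c l m κ z₁ * m := by
      unfold ren
      rw [hx', hz', div_mul_cancel₀ _ hm0]
    rw [h3, norm_mul]
    have h4 : ‖m‖ * S = 3 * R ^ τ := by linarith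
    calc ‖ren d n c l m κ z₁‖ * ‖m‖ ≤ ((1 + R ^ α) * ((1 + R ^ α) * (S / 3) + 3 ^ d)) * ‖m‖ := by
          gcongr
          refine h2.trans ?_
          gcongr
      _ = (1 + R ^ α) * ((1 + R ^ α) * R ^ τ + ‖m‖ * 3 ^ d) := by
          linear_combination (1 + R ^ α) * (1 + R ^ α) / 3 * h4
      _ ≤ (1 + 1 / 100) * ((1 + 1 / 100) * R ^ τ + R ^ τ / 4) := by
          gcongr
          linarith
      _ ≤ 2 * R ^ τ := by linarith
  · rintro x ⟨hx1, hx2⟩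
    have h1 : ‖x - c‖ ≤ 3 ^ d * ‖l‖ := by
      rw [norm_div, div_le_iff₀ hln] at hx1
      exact hx1
    have h2 := hV1 hc'V
    rw [mem_closedBall, dist_eq_norm] at h2
    have h3 : 3 ^ d * ‖l‖ ≤ ‖l‖ * S / 12 := by
      have e1 : ‖l‖ * (12 * 3 ^ d) ≤ ‖l‖ * S := by gcongr
      linarith
    have hlS0 : 0 ≤ ‖l‖ * S := by positivity
    apply hV2
    constructor
    · rw [mem_closedBall, dist_eq_norm]
      have e1 : (1 - 1 / 100) * (‖l‖ * S / 3) ≤ (1 - R ^ α) * (‖l‖ * S / 3) := by gcongr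
      linarith
    · rw [mem_ball, dist_eq_norm]
      have h4 : ‖x - b‖ ≤ ‖x - c‖ + ‖c' - c‖ + ‖c' - b‖ := by
        have e1 : x - b = (x - c) - (c' - c) + (c' - b) := by ring
        rw [e1]
        exact (norm_add_le _ _).trans (add_le_add (norm_sub_le _ _) le_rfl)
      have e1 : (1 + R ^ α) * (‖l‖ * S / 3) ≤ (1 + 1 / 100) * (‖l‖ * S / 3) := by gcongr
      linarith

/-- **Perfect copies near every boundary point.** -/
theorem copy_near {d : ℕ} (hd : 2 ≤ d) {p : ℂ} (hp : p ∈ frontier (multibrotSet d)) {r η : ℝ}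
    (hr : 0 < r) (hη : 0 < η) : ∃ (n : ℕ) (c l m : ℂ), Perf d η n c l m ∧ ‖c - p‖ ≤ r ∧ ‖l‖ ≤ r ∧
      ‖m‖ ≤ r := by
  obtain ⟨c₀, ⟨hc₀, hL⟩, hc₀p⟩ := Metric.mem_closure_iff.1 (typ_dense hd hp) (r / 2) (half_pos hr)
  obtain ⟨R, t, hR, hRρ, ht, htr, H⟩ := zone_at2 hd (b := c₀) hL hη hr (half_pos hr)
  obtain ⟨c', hc', hcc'⟩ := Metric.mem_closure_iff.1
    (Pool.Agent.N772.PC.frontier_sub hd hc₀) (R / 2) (half_pos hR)
  have hint := Pool.Agent.R240.Alm.att_interior hd hc'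
  obtain ⟨V, n, c, l, m, -, -, hVR, -, hP, -, hm, hKV, hl⟩ := H c' ⟨interior_subset hint, Or.inl hint⟩
    (by
      rw [dist_eq_norm, norm_sub_rev] at hcc'
      exact hcc'.le)
  have h1 := hVR (hKV (mem_KK c l m hP.zero))
  rw [mem_ball, dist_eq_norm] at h1
  rw [dist_comm, dist_eq_norm] at hc₀p
  have h2 : ‖c - p‖ ≤ ‖c - c₀‖ + ‖c₀ - p‖ := by
    have e1 : c - p = (c - c₀) + (c₀ - p) := by ring
    rw [e1]
    exact norm_add_le _ _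
  have h3 := norm_nonneg m
  exact ⟨n, c, l, m, hP, by linarith, by linarith, by linarith⟩

end Pool.Agent.H206
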