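import Pool.Agent.H206.LimB

set_option autoImplicit false

/-! # The next level of a tower, near a prescribed boundary point -/

namespace Pool.Agent.H206

open Complex Metric Set Filter Topology
open N62a1eb23
open Pool.Agent.Results.MP_af9036_an.PerfectZones

theorem ne_of_frontier {d : ℕ} (hd : 2 ≤ d) {p : ℂ} (hp : p ∈ frontier (multibrotSet d)) : p ≠ 0 := by
  rintro rfl
  have h1 : (f d 0)^[1] 0 = 0 := by
    simp only [Function.iterate_one, f]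
    rw [zero_pow (by omega), add_zero]
  have hint : (0 : ℂ) ∈ interior (multibrotSet d) := Pool.Agent.R240.Alm.att_interior hd
    ⟨1, 0, Pool.Agent.H548R3.MB.att_of_centre hd le_rfl h1⟩
  exact hp.2 hint

theorem norm_le_of_frontier {d : ℕ} (hd : 2 ≤ d) {p : ℂ} (hp : p ∈ frontier (multibrotSet d)) :
    ‖p‖ ≤ 2 := by
  have h1 : p ∈ multibrotSet d :=
    (Pool.Agent.H712R2.isCompact_multibrot hd).isClosed.frontier_subset hp
  have h2 := (Pool.Agent.H712R2.mem_multibrot_iff hd p).1 h1 1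
  have h3 : Pool.Agent.H712R2.P d 1 p = p := by
    show (fun z : ℂ => z ^ d + p)^[1] 0 = p
    simp [zero_pow (by omega : d ≠ 0)]
  rwa [h3] at h2

/-- renormalisation of a renormalised family -/
theorem ren_ren {d n N : ℕ} {c l m c' l' m' κ : ℂ} (hm : m ≠ 0) (z : ℂ) :
    ren d (n * N) (c + l * c') (l * l') (m * m') κ z =
      (ren d n c l m (c' + l' * κ))^[N] (m' * z) / m' := by
  rw [ren_iter hm]
  unfold ren
  have e1 : c + l * c' + l * l' * κ = c + l * (c' + l' * κ) := by ring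
  rw [e1, mul_assoc m m' z, div_div]

theorem step2 {d : ℕ} (hd : 2 ≤ d) {p : ℂ} (hp : p ∈ frontier (multibrotSet d)) {r : ℝ}
    (hr : 0 < r) :
    ∃ ε₁ : ℝ, 0 < ε₁ ∧ ∀ (n : ℕ) (c l m : ℂ), Perf d ε₁ n c l m →
      ∃ (χ : ℝ) (b : ℂ), HasLyapunov d χ b ∧ ∀ η ρ : ℝ, 0 < η → 0 < ρ →
        ∃ (n₁ : ℕ) (c₁ l₁ m₁ : ℂ), Perf d η n₁ c₁ l₁ m₁ ∧ n ∣ n₁ ∧ n < n₁ ∧
          KK d n₁ c₁ l₁ m₁ ⊆ KK d n c l m ∧ KK d n₁ c₁ l₁ m₁ ⊆ ball b ρ ∧
          b ∉ KK d n₁ c₁ l₁ m₁ ∧ ∀ x ∈ KK d n₁ c₁ l₁ m₁, ‖(x - c) / l - p‖ ≤ r := by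
  obtain ⟨a, ha⟩ := IsAlgClosed.exists_pow_nat_eq (om d - 1) (by omega : 0 < d - 1)
  have hp0 : 0 < ‖p‖ := norm_pos_iff.2 (ne_of_frontier hd hp)
  have hp2 : ‖p‖ ≤ 2 := norm_le_of_frontier hd hp
  have ha0 := a_ne hd ha
  have han : 0 < ‖a‖ := norm_pos_iff.2 ha0
  have ha2 := norm_a_le hd ha
  obtain ⟨δ₀, hδ₀, hδ₀a, T⟩ := tip hd ha (r := 1 / 2) (by norm_num)
  have h4d : (0 : ℝ) < 3 + 4 ^ d := by positivity
  have h4d9 : (19 : ℝ) ≤ 3 + 4 ^ d := by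
    have : (4 : ℝ) ^ 2 ≤ 4 ^ d := pow_le_pow_right₀ (by norm_num) hd
    linarith
  obtain ⟨r', hr'⟩ : ∃ r' : ℝ, r' = min r (min (1 / 16) (‖p‖ / 8)) := ⟨_, rfl⟩
  have hr'0 : 0 < r' := by rw [hr']; positivity
  have hr'r : r' ≤ r := by rw [hr']; exact min_le_left _ _
  have hr'16 : r' ≤ 1 / 16 := by rw [hr']; exact (min_le_right _ _).trans (min_le_left _ _)
  have hr'p : r' ≤ ‖p‖ / 8 := by rw [hr']; exact (min_le_right _ _).trans (min_le_right _ _)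
  obtain ⟨r₀, hr₀⟩ : ∃ r₀ : ℝ, r₀ = min (r' / 8) (1 / (3 + 4 ^ d)) := ⟨_, rfl⟩
  have hr₀0 : 0 < r₀ := by rw [hr₀]; positivity
  have hr₀1 : r₀ ≤ r' / 8 := by rw [hr₀]; exact min_le_left _ _
  have hr₀2 : r₀ * (3 + 4 ^ d) ≤ 1 := by
    rw [← le_div_iff₀ h4d, hr₀]
    exact min_le_right _ _
  obtain ⟨η', hη'⟩ : ∃ η' : ℝ, η' = min (δ₀ / (2 * (3 + 4 ^ d))) (1 / (3 + 4 ^ d)) := ⟨_, rfl⟩
  have hη'0 : 0 < η' := by rw [hη']; positivity
  have hη'1 : η' * (3 + 4 ^ d) ≤ δ₀ / 2 := by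
    have h1 : η' ≤ δ₀ / (2 * (3 + 4 ^ d)) := by rw [hη']; exact min_le_left _ _
    calc η' * (3 + 4 ^ d) ≤ δ₀ / (2 * (3 + 4 ^ d)) * (3 + 4 ^ d) := by gcongr
      _ = δ₀ / 2 := by field_simp
  have hη'2 : 3 + 4 ^ d ≤ 1 / η' := by
    rw [le_div_iff₀ hη'0, mul_comm, ← le_div_iff₀ h4d, hη']
    exact min_le_right _ _
  have hη'3 : η' ≤ 1 := by
    have : η' * 1 ≤ η' * (3 + 4 ^ d) := by gcongr; linarith
    have h2 : η' * (3 + 4 ^ d) ≤ 1 := by
      rw [← le_div_iff₀ h4d, hη']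
      exact min_le_right _ _
    linarith
  obtain ⟨N, c', l', m', hP', hc'p, hl'r, hm'r⟩ := copy_near hd hp hr₀0 hη'0
  have hN0 := hP'.n0
  have hl'0 : l' ≠ 0 := hP'.sc.1
  have hm'0 : m' ≠ 0 := hP'.sc.2.1
  have hl'n : 0 < ‖l'‖ := norm_pos_iff.2 hl'0
  have hm'n : 0 < ‖m'‖ := norm_pos_iff.2 hm'0
  obtain ⟨S', hS', hZ'⟩ := hP'.zone
  have hS'4 : 3 + 4 ^ d ≤ S' := hη'2.trans hS'
  -- the parameters of the second copy
  have hk2 : ∀ κ : ℂ, ‖κ‖ ≤ 3 → ‖c' + l' * κ - p‖ ≤ r' / 2 ∧ ‖c' + l' * κ‖ ≤ 9 / 4 := by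
    intro κ hκ
    have e1 : c' + l' * κ - p = (c' - p) + l' * κ := by ring
    have e2 : ‖l' * κ‖ ≤ r₀ * 3 := by
      rw [norm_mul]
      gcongr
    have e3 : ‖c' + l' * κ - p‖ ≤ r' / 2 := by
      rw [e1]
      refine (norm_add_le _ _).trans ?_
      linarith
    have e4 := norm_add_le (c' + l' * κ - p) p
    rw [sub_add_cancel] at e4
    exact ⟨e3, by linarith⟩
  -- the model at the second copy
  have hmod : ∀ κ z : ℂ, ‖κ‖ ≤ 3 → ‖z‖ ≤ 4 →
      ‖(f d (c' + l' * κ))^[N] (m' * z) / m' - (z ^ d + κ)‖ ≤ δ₀ / 2 ∧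
      ‖(f d (c' + l' * κ))^[N] (m' * z)‖ ≤ 5 / 2 := by
    intro κ z hκ hz
    have h2 : ‖z‖ ^ d ≤ 4 ^ d := by gcongr
    have h3 : (0 : ℝ) < 4 ^ d := by positivity
    obtain ⟨g1, -, -⟩ := hZ' κ z (by linarith) (by linarith)
    have g2 : ‖ren d N c' l' m' κ z - (z ^ d + κ)‖ ≤ δ₀ / 2 := by
      refine g1.trans (le_trans ?_ hη'1)
      gcongr
    refine ⟨g2, ?_⟩
    have g3 : ‖ren d N c' l' m' κ z‖ ≤ 2 * (3 + 4 ^ d) := by
      have e1 := norm_add_le (ren d N c' l' m' κ z - (z ^ d + κ)) (z ^ d + κ)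
      rw [sub_add_cancel] at e1
      have e2 := norm_add_le (z ^ d) κ
      rw [norm_pow] at e2
      have e3 : η' * (‖κ‖ + ‖z‖ ^ d) ≤ 1 * (3 + 4 ^ d) := by gcongr
      linarith
    have g4 : (f d (c' + l' * κ))^[N] (m' * z) = ren d N c' l' m' κ z * m' := by
      unfold ren
      rw [div_mul_cancel₀ _ hm'0]
    rw [g4, norm_mul]
    calc ‖ren d N c' l' m' κ z‖ * ‖m'‖ ≤ 2 * (3 + 4 ^ d) * r₀ := by gcongr
      _ ≤ 5 / 2 := by linarith
  -- the tolerance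
  obtain ⟨A, hA⟩ : ∃ A : ℝ, A = d * 4 ^ (d - 1) + 1 := ⟨_, rfl⟩
  have hA1 : 1 ≤ A := by
    rw [hA]
    have : (0 : ℝ) ≤ d * 4 ^ (d - 1) := by positivity
    linarith
  have hAN : 0 < A ^ N := by positivity
  obtain ⟨δ', hδ'⟩ : ∃ δ' : ℝ, δ' = min (min (1 / 2) (‖p‖ / 16))
      (min (1 / (2 * A ^ N)) (‖m'‖ * δ₀ / 2 / A ^ N)) := ⟨_, rfl⟩
  have hδ'0 : 0 < δ' := by rw [hδ']; positivity
  have hδ'1 : δ' ≤ 1 / 2 := by
    rw [hδ']; exact (min_le_left _ _).trans (min_le_left _ _)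
  have hδ'2 : δ' ≤ ‖p‖ / 16 := by
    rw [hδ']; exact (min_le_left _ _).trans (min_le_right _ _)
  have hδ'3 : δ' * A ^ N ≤ 1 / 2 := by
    have h1 : δ' ≤ 1 / (2 * A ^ N) := by
      rw [hδ']; exact (min_le_right _ _).trans (min_le_left _ _)
    calc δ' * A ^ N ≤ 1 / (2 * A ^ N) * A ^ N := by gcongr
      _ = 1 / 2 := by field_simp
  have hδ'4 : δ' * A ^ N ≤ ‖m'‖ * (δ₀ / 2) := by
    have h1 : δ' ≤ ‖m'‖ * δ₀ / 2 / A ^ N := by
      rw [hδ']; exact (min_le_right _ _).trans (min_le_right _ _)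
    calc δ' * A ^ N ≤ ‖m'‖ * δ₀ / 2 / A ^ N * A ^ N := by gcongr
      _ = ‖m'‖ * (δ₀ / 2) := by field_simp
  obtain ⟨ε₁, hε₁⟩ : ∃ ε₁, ε₁ = min (δ' / (3 + 4 ^ d)) (1 / (3 + 4 ^ d)) := ⟨_, rfl⟩
  have hε₁0 : 0 < ε₁ := by rw [hε₁]; positivity
  have he1 : ε₁ * (3 + 4 ^ d) ≤ δ' := by
    rw [← le_div_iff₀ h4d, hε₁]
    exact min_le_left _ _
  have he2 : 3 + 4 ^ d ≤ 1 / ε₁ := by
    rw [le_div_iff₀ hε₁0, mul_comm, ← le_div_iff₀ h4d, hε₁]
    exact min_le_right _ _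
  refine ⟨ε₁, hε₁0, fun n c l m hP => ?_⟩
  obtain ⟨hn0, hper, hsc, ⟨S, hS, hZ⟩, -⟩ := hP
  have hl0 : l ≠ 0 := hsc.1
  have hm0 : m ≠ 0 := hsc.2.1
  have hln : 0 < ‖l‖ := norm_pos_iff.2 hl0
  have hmn : 0 < ‖m‖ := norm_pos_iff.2 hm0
  have hS4 : 3 + 4 ^ d ≤ S := he2.trans hS
  -- the first family
  have herr : ∀ k z : ℂ, ‖k‖ ≤ 3 → ‖z‖ ≤ 4 → ‖er d n c l m k z‖ ≤ δ' := by
    intro k z hk hz
    have h2 : ‖z‖ ^ d ≤ 4 ^ d := by gcongr
    have h3 : (0 : ℝ) < 4 ^ d := by positivity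
    obtain ⟨g1, -, -⟩ := hZ k z (by linarith) (by linarith)
    unfold er
    refine g1.trans (le_trans ?_ he1)
    gcongr
  have hsh : ∀ κ z : ℂ, ‖κ‖ ≤ 3 → ‖z‖ ≤ 4 → ∀ j ≤ N,
      ‖(ren d n c l m (c' + l' * κ))^[j] (m' * z)‖ ≤ 3 ∧
      ‖(ren d n c l m (c' + l' * κ))^[j] (m' * z) - (f d (c' + l' * κ))^[j] (m' * z)‖ ≤
        δ' * A ^ j := by
    intro κ z hκ hz
    have h1 := (hk2 κ hκ).2
    have h2 := shadow hd (N := N) hδ'0.le (e := er d n c l m) (k := c' + l' * κ) (w := m' * z)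
      (fun w hw => herr _ w (by linarith) hw) h1 (hmod κ z hκ hz).2 (by rw [← hA]; exact hδ'3)
    rw [HH_er, ← hA] at h2
    exact h2
  -- the second family
  have hPert : Pert d a (er d (n * N) (c + l * c') (l * l') (m * m')) δ₀ := by
    refine ⟨?_, fun κ z hκ hz => ?_, hδ₀a⟩
    · unfold er ren
      have h1 := (diff_it2 d (c + l * c') (l * l') (m * m') (n * N)).mul_const (m * m')⁻¹
      simp_rw [div_eq_mul_inv]
      exact h1.sub (by fun_prop)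
    · have hκ3 : ‖κ‖ ≤ 3 := by
        have e1 := norm_add_le (κ - a) a
        rw [sub_add_cancel] at e1
        linarith
      have h1 := ((hsh κ z hκ3 hz) N le_rfl).2
      have h2 := (hmod κ z hκ3 hz).1
      unfold er
      rw [ren_ren hm0]
      have e1 : (ren d n c l m (c' + l' * κ))^[N] (m' * z) / m' - (z ^ d + κ) =
          ((ren d n c l m (c' + l' * κ))^[N] (m' * z) - (f d (c' + l' * κ))^[N] (m' * z)) / m' +
          ((f d (c' + l' * κ))^[N] (m' * z) / m' - (z ^ d + κ)) := by ring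
      rw [e1]
      refine (norm_add_le _ _).trans ?_
      have e2 : ‖((ren d n c l m (c' + l' * κ))^[N] (m' * z) -
          (f d (c' + l' * κ))^[N] (m' * z)) / m'‖ ≤ δ₀ / 2 := by
        rw [norm_div, div_le_iff₀ hm'n]
        linarith
      linarith
  obtain ⟨κb, b₀, hκb1, -, hb₀, hfix, htwo, hmul, hnear⟩ := T _ _ hPert le_rfl
  have hκb3 : ‖κb‖ ≤ 5 / 2 := by
    have e1 := norm_add_le (κb - a) a
    rw [sub_add_cancel] at e1
    linarith
  rw [HH_er] at hfix htwo hmul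
  obtain ⟨M, hM⟩ : ∃ M, M = n * N := ⟨_, rfl⟩
  obtain ⟨cc, hcc⟩ : ∃ cc, cc = c + l * c' := ⟨_, rfl⟩
  obtain ⟨ll, hll⟩ : ∃ ll, ll = l * l' := ⟨_, rfl⟩
  obtain ⟨mm, hmm⟩ : ∃ mm, mm = m * m' := ⟨_, rfl⟩
  have hM0 : 0 < M := by rw [hM]; positivity
  have hll0 : ll ≠ 0 := by rw [hll]; exact mul_ne_zero hl0 hl'0
  have hmm0 : mm ≠ 0 := by rw [hmm]; exact mul_ne_zero hm0 hm'0
  have hlln : 0 < ‖ll‖ := norm_pos_iff.2 hll0
  have hmmn : 0 < ‖mm‖ := norm_pos_iff.2 hmm0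
  rw [← hM, ← hcc, ← hll, ← hmm] at hfix htwo hmul
  simp only [← hM, ← hcc, ← hll, ← hmm] at hnear
  obtain ⟨kb, hkb⟩ : ∃ kb, kb = c' + l' * κb := ⟨_, rfl⟩
  obtain ⟨b, hb⟩ : ∃ b, b = cc + ll * κb := ⟨_, rfl⟩
  have hbk : b = c + l * kb := by
    rw [hb, hcc, hll, hkb]
    ring
  have hkbp : ‖kb - p‖ ≤ r' / 2 := by
    rw [hkb]
    exact (hk2 κb (by linarith)).1
  -- the preperiodic critical orbit
  have hpp : (f d b)^[M] (mm * b₀) = mm * b₀ := by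
    have h1 : (f d b)^[M] (mm * b₀) / mm = b₀ := by rw [hb]; exact hfix
    rw [div_eq_iff hmm0] at h1
    rw [h1, mul_comm]
  have hpp2 : (f d b)^[2 * M - 1] b = mm * b₀ := by
    have h1 : (ren d M cc ll mm κb)^[2] 0 = b₀ := htwo
    rw [ren_iter hmm0, mul_zero, ← hb, div_eq_iff hmm0] at h1
    have h2 : (f d b)^[2 * M - 1 + 1] 0 = (f d b)^[2 * M - 1] b := by
      rw [Function.iterate_succ_apply]
      have : f d b 0 = b := by
        unfold f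
        rw [zero_pow (by omega), zero_add]
      rw [this]
    rw [← h2, show 2 * M - 1 + 1 = M * 2 by omega, h1, mul_comm]
  have hlam : 3 / 2 ≤ ‖deriv ((f d b)^[M]) (mm * b₀)‖ := by
    rw [hb, ← deriv_ren hmm0]
    exact hmul
  have hlam' : 1 < ‖deriv ((Pool.Agent.TH279.MD.f d b)^[M]) (mm * b₀)‖ :=
    lt_of_lt_of_le (by norm_num) hlam
  have hLy := lyap_preper hd hM0 hpp2 hpp hlam'
  obtain ⟨s₀, hs₀, hfar⟩ := preper_far hd hM0 hpp2 hpp hlam'
  refine ⟨_, b, hLy, fun η ρ hη hρ => ?_⟩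
  -- the next zone
  obtain ⟨R, t, hR, hRρ, ht, hts, H⟩ := zone_at hd (χ := _) (b := b) hLy hη
    (s := min (min s₀ (‖m‖ / 4)) (‖m‖ * ‖p‖ / 8))
    (ρ := min ρ (min (‖l‖ * (r' / 2)) (‖ll‖ / 2))) (by positivity) (by positivity)
  have ht1 : t ≤ s₀ := hts.trans ((min_le_left _ _).trans (min_le_left _ _))
  have ht2 : t ≤ ‖m‖ / 4 := hts.trans ((min_le_left _ _).trans (min_le_right _ _))
  have ht3 : t ≤ ‖m‖ * ‖p‖ / 8 := hts.trans (min_le_right _ _)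
  have hR1 : R ≤ ρ := hRρ.trans (min_le_left _ _)
  have hR2 : R ≤ ‖l‖ * (r' / 2) := hRρ.trans ((min_le_right _ _).trans (min_le_left _ _))
  have hR3 : R ≤ ‖ll‖ / 2 := hRρ.trans ((min_le_right _ _).trans (min_le_right _ _))
  have hκa : ∀ x : ℂ, ‖x - b‖ ≤ R → ‖(x - c) / l - p‖ ≤ r' ∧ ‖(x - c) / l‖ ≤ 17 / 8 := by
    intro x hx
    have h1 : (x - c) / l - kb = (x - b) / l := by
      rw [hbk]
      field_simp
      ring
    have h2 : ‖(x - c) / l - kb‖ ≤ r' / 2 := by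
      rw [h1, norm_div, div_le_iff₀ hln]
      linarith
    have h3 : ‖(x - c) / l - p‖ ≤ r' := by
      have e : (x - c) / l - p = ((x - c) / l - kb) + (kb - p) := by ring
      rw [e]
      refine (norm_add_le _ _).trans ?_
      linarith
    have h4 := norm_add_le ((x - c) / l - p) p
    rw [sub_add_cancel] at h4
    exact ⟨h3, by linarith⟩
  -- points on the circle are mapped outside
  have hjump : ∀ x : ℂ, ‖x - b‖ ≤ R → ∀ w : ℂ, ‖w‖ = 3 * ‖m‖ → 3 * ‖m‖ < ‖(f d x)^[n] w‖ := by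
    intro x hx w hw
    obtain ⟨h1, h2⟩ := hκa x hx
    obtain ⟨κ, hκ⟩ : ∃ κ, κ = (x - c) / l := ⟨_, rfl⟩
    obtain ⟨z, hz⟩ : ∃ z, z = w / m := ⟨_, rfl⟩
    rw [← hκ] at h1 h2
    have hx' : c + l * κ = x := by rw [hκ]; field_simp; ring
    have hw' : m * z = w := by rw [hz]; field_simp
    have hzn : ‖z‖ = 3 := by
      rw [hz, norm_div, hw]
      field_simp
    have h3 := herr κ z (by linarith) (by linarith)
    have h4 : (f d x)^[n] w = ren d n c l m κ z * m := by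
      unfold ren
      rw [hx', hw', div_mul_cancel₀ _ hm0]
    rw [h4, norm_mul]
    have h5 : 3 < ‖ren d n c l m κ z‖ := by
      have e1 : ren d n c l m κ z = z ^ d - (-κ - er d n c l m κ z) := by
        unfold er
        ring
      have e2 := norm_sub_norm_le (z ^ d) (-κ - er d n c l m κ z)
      rw [← e1, norm_pow, hzn] at e2
      have e3 := norm_sub_le (-κ) (er d n c l m κ z)
      rw [norm_neg] at e3
      have e4 : (9 : ℝ) ≤ 3 ^ d := by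
        calc (9 : ℝ) = 3 ^ 2 := by norm_num
          _ ≤ 3 ^ d := pow_le_pow_right₀ (by norm_num) hd
      linarith
    gcongr
  -- a superattracting parameter
  obtain ⟨κ', hκ', i, hi, hzero, hbd⟩ := hnear (R / (2 * ‖ll‖)) (by positivity)
  rw [HH_er] at hzero hbd
  have hκ'2 : ‖κ' - κb‖ < 1 / 4 := by
    refine hκ'.trans_le ?_
    rw [div_le_iff₀ (by positivity)]
    linarith
  have hκ'3 : ‖κ'‖ ≤ 3 := by
    have e1 := norm_add_le (κ' - κb) κb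
    rw [sub_add_cancel] at e1
    linarith
  obtain ⟨cs, hcs⟩ : ∃ cs, cs = cc + ll * κ' := ⟨_, rfl⟩
  obtain ⟨ks, hks⟩ : ∃ ks, ks = c' + l' * κ' := ⟨_, rfl⟩
  have hcsk : cs = c + l * ks := by
    rw [hcs, hcc, hll, hks]
    ring
  have hcsκ : (cs - c) / l = ks := by
    rw [hcsk]
    field_simp
    ring
  have hcsb : ‖cs - b‖ ≤ R / 2 := by
    have h1 : cs - b = ll * (κ' - κb) := by rw [hcs, hb]; ring
    rw [h1, norm_mul]
    rw [lt_div_iff₀ (by positivity)] at hκ'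
    linarith
  have hall0 : ∀ q, ‖(ren d M cc ll mm κ')^[q] 0‖ ≤ 3 := by
    intro q
    have h1 : ∀ j, (ren d M cc ll mm κ')^[i * j] 0 = 0 := by
      intro j
      induction j with
      | zero => simp
      | succ j ih => rw [Nat.mul_succ, Function.iterate_add_apply, hzero, ih]
    have h2 := Nat.mod_add_div q i
    rw [← h2, Function.iterate_add_apply, h1]
    exact hbd _ (Nat.mod_lt _ hi).le
  have hrel : ∀ u, (ren d n c l m ks)^[N * u] 0 = m' * (ren d M cc ll mm κ')^[u] 0 := by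
    intro u
    rw [ren_iter hm0, ren_iter hmm0, mul_zero, mul_zero, ← hcs, ← hcsk,
      show n * (N * u) = M * u by rw [hM]; ring, hmm]
    field_simp
  have hall : ∀ q, ‖(ren d n c l m ks)^[q] 0‖ ≤ 3 := by
    intro q
    have h2 := Nat.mod_add_div q N
    rw [← h2, Function.iterate_add_apply, hrel, hks]
    exact ((hsh κ' _ hκ'3 ((hall0 (q / N)).trans (by norm_num))) _ (Nat.mod_lt _ hN0).le).1
  have horb : ∀ q, ‖(f d cs)^[n * q] 0‖ ≤ 3 * ‖m‖ := by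
    intro q
    have h1 := hall q
    rw [ren_iter hm0, mul_zero, ← hcsk, norm_div, div_le_iff₀ hmn] at h1
    exact h1
  have hcen : (f d cs)^[M * i] 0 = 0 := by
    have h1 := hzero
    rw [ren_iter hmm0, mul_zero, ← hcs, div_eq_iff hmm0, zero_mul] at h1
    exact h1
  have hRest : cs ∈ Rest d := by
    have h1 : cs ∈ interior (multibrotSet d) := Pool.Agent.R240.Alm.att_interior hd
      ⟨M * i, 0, Pool.Agent.H548R3.MB.att_of_centre hd (Nat.mul_pos hM0 hi) hcen⟩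
    exact ⟨interior_subset h1, Or.inl h1⟩
  obtain ⟨V, n₁, c₁, l₁, m₁, hVpre, hcsV, hVb, hVW, hPerf, hV2, hm1, hKV⟩ := H cs hRest hcsb
  have hVn : ∀ x ∈ V, ‖x - b‖ ≤ R := fun x hx => by
    have := hVb hx
    rw [mem_ball, dist_eq_norm] at this
    exact this.le
  have hm₁0 : 0 < ‖m₁‖ := norm_pos_iff.2 hPerf.sc.2.1
  have hV0 : ∀ x ∈ V, ‖(f d x)^[n₁] 0‖ ≤ 2 * t := fun x hx => hV2 x hx 0 (by simp)
  -- the period is a multiple of `n`
  obtain ⟨hksp, hksn⟩ := hκa cs (by linarith)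
  rw [hcsκ] at hksp hksn
  have hdvd : n ∣ n₁ := by
    by_contra hcon
    have h1 : 0 < n₁ % n := Nat.pos_of_ne_zero fun h => hcon (Nat.dvd_of_mod_eq_zero h)
    have h2 : n₁ % n < n := Nat.mod_lt _ hn0
    have h3 := hall (n₁ / n)
    have h5 : ‖(ren d n c l m ks)^[n₁ / n] 0‖ ^ d ≤ 3 ^ d := by gcongr
    have h6 : (3 : ℝ) ^ d ≤ 4 ^ d := by gcongr; norm_num
    have h7 : (4 : ℝ) ^ 2 ≤ 4 ^ d := pow_le_pow_right₀ (by norm_num) hd
    obtain ⟨-, -, g3⟩ := hZ ks ((ren d n c l m ks)^[n₁ / n] 0) (by linarith) (by linarith)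
    have g4 := g3 (n₁ % n) h1 h2
    rw [ren_iter hm0, mul_zero, ← hcsk, mul_div_cancel₀ _ hm0, ← Function.iterate_add_apply,
      Nat.mod_add_div] at g4
    have g5 := hV0 cs hcsV
    have h8 : 12 * ‖m‖ ≤ S * ‖m‖ := by
      gcongr
      linarith
    linarith
  obtain ⟨j₁, hj₁⟩ := hdvd
  have hj₁0 : j₁ ≠ 0 := by
    rintro rfl
    rw [mul_zero] at hj₁
    exact hPerf.n0.ne' hj₁
  have hj₁1 : j₁ ≠ 1 := by
    rintro rfl
    rw [mul_one] at hj₁
    have h1 := hV0 cs hcsV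
    rw [hj₁] at h1
    have h2 : (f d cs)^[n] 0 = ren d n c l m ks 0 * m := by
      unfold ren
      rw [mul_zero, ← hcsk, div_mul_cancel₀ _ hm0]
    rw [h2, norm_mul] at h1
    have h3 : ‖p‖ / 2 ≤ ‖ren d n c l m ks 0‖ := by
      have e1 : ren d n c l m ks 0 = p - ((p - ks) - er d n c l m ks 0) := by
        unfold er
        rw [zero_pow (by omega)]
        ring
      have e2 := norm_sub_norm_le p ((p - ks) - er d n c l m ks 0)
      rw [← e1] at e2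
      have e3 := norm_sub_le (p - ks) (er d n c l m ks 0)
      rw [norm_sub_rev p ks] at e3
      have e4 := herr ks 0 (by linarith) (by simp)
      linarith
    have h4 : ‖p‖ / 2 * ‖m‖ ≤ 2 * (‖m‖ * ‖p‖ / 8) := by
      calc ‖p‖ / 2 * ‖m‖ ≤ ‖ren d n c l m ks 0‖ * ‖m‖ := by gcongr
        _ ≤ 2 * t := h1
        _ ≤ _ := by gcongr
    have h5 : 0 < ‖p‖ * ‖m‖ := by positivity
    nlinarith
  -- the orbits in the zone
  have hstay : ∀ x ∈ V, ∀ q ≤ j₁, ‖(f d x)^[n * q] 0‖ ≤ 3 * ‖m‖ := by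
    apply clopen hVpre (g := fun q x => ‖(f d x)^[n * q] 0‖) (fun q _ => (cont_x d _ _).norm) ?_
      hcsV (fun q _ => horb q)
    intro x hx hle q hq
    refine lt_of_le_of_ne (hle q hq) fun heq => ?_
    rcases hq.lt_or_eq with h | h
    · have h1 := hle (q + 1) h
      have h2 := hjump x (hVn x hx) _ heq
      rw [← Function.iterate_add_apply, show n + n * q = n * (q + 1) by ring] at h2
      linarith
    · rw [h, ← hj₁] at heq
      have := hV0 x hx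
      linarith
  have hstay2 : ∀ x ∈ V, ∀ z : ℂ, ‖z‖ ≤ 3 * ‖m₁‖ → ∀ q ≤ j₁, ‖(f d x)^[n * q] z‖ ≤ 3 * ‖m‖ := by
    intro x hx
    have h1 := clopen (convex_closedBall (0 : ℂ) (3 * ‖m₁‖)).isPreconnected
      (g := fun q z => ‖(f d x)^[n * q] z‖) (j := j₁) (M := 3 * ‖m‖)
      (fun q _ => (cont_z d _ _).norm) (by
        intro z hz hle q hq
        rw [mem_closedBall_zero_iff] at hz
        refine lt_of_le_of_ne (hle q hq) fun heq => ?_
        rcases hq.lt_or_eq with h | h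
        · have h1 := hle (q + 1) h
          have h2 := hjump x (hVn x hx) _ heq
          rw [← Function.iterate_add_apply, show n + n * q = n * (q + 1) by ring] at h2
          linarith
        · rw [h, ← hj₁] at heq
          have := hV2 x hx z hz
          linarith) (mem_closedBall_self (by positivity)) (fun q hq => hstay x hx q hq)
    intro z hz
    exact h1 z (by rwa [mem_closedBall_zero_iff])
  refine ⟨n₁, c₁, l₁, m₁, hPerf, ⟨j₁, hj₁⟩, ?_, ?_, ?_, ?_, ?_⟩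
  · rw [hj₁]
    have : n * 2 ≤ n * j₁ := Nat.mul_le_mul_left n (by omega)
    omega
  · -- the small copy is in the previous one
    intro x hx
    have hxV := hKV hx
    obtain ⟨hx1, hx2⟩ := hx
    have hl₁0 : l₁ ≠ 0 := hPerf.sc.1
    have hx' : c₁ + l₁ * ((x - c₁) / l₁) = x := by
      field_simp
      ring
    have hx'' : c + l * ((x - c) / l) = x := by
      field_simp
      ring
    rw [hx'] at hx2
    refine ⟨?_, fun T => ?_⟩
    · have h1 := (hκa x (hVn x hxV)).2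
      have e4 : (9 : ℝ) ≤ 3 ^ d := by
        calc (9 : ℝ) = 3 ^ 2 := by norm_num
          _ ≤ 3 ^ d := pow_le_pow_right₀ (by norm_num) hd
      linarith
    · rw [hx'']
      have h1 := Nat.mod_add_div T j₁
      have h2 : n * T = n * (T % j₁) + n₁ * (T / j₁) := by
        conv_lhs => rw [← h1]
        rw [hj₁]
        ring
      rw [h2, Function.iterate_add_apply]
      exact hstay2 x hxV _ (hx2 (T / j₁)) _ (Nat.mod_lt _ (by omega)).le
  · intro x hx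
    have h1 := hVb (hKV hx)
    exact ball_subset_ball hR1 h1
  · intro hbK
    obtain ⟨-, j, hj, hj2⟩ := hVW (hKV hbK)
    have := hfar j hj
    have h3 : ‖(f d b)^[j] 0‖ < s₀ := lt_of_lt_of_le hj2 ht1
    exact absurd this (not_le.2 h3)
  · intro x hx
    exact ((hκa x (hVn x (hKV hx))).1).trans hr'r

end Pool.Agent.H206
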