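import Pool.Agent.H206.LimC
import Pool.Graph.R_pool_sql_team_seeded_63374d34.N253.UX.Fin
import Pool.Graph.R_seed8.Y298.CA.ScaAll

set_option autoImplicit false

/-! # Towers of perfect small copies with prescribed coordinates -/

namespace Pool.Agent.H206

open Complex Metric Set Filter Topology MeasureTheory
open N62a1eb23
open Pool.Agent.Results.MP_af9036_an.PerfectZones
open Pool.Agent.H713R2 (IsExteriorMap)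

/-- the parameters which are renormalizable of arbitrarily large periods -/
def BigRen (d : ℕ) : Set ℂ :=
  {t | t ∈ multibrotSet d ∧ ∀ N : ℕ, ∃ p : ℕ, N ≤ p ∧ Pool.Agent.N253.NR.RenC d t p}

/-- at the scale `η` the set `K` is as it should be -/
structure Fine3 (d : ℕ) (ψ : ℂ → ℂ) (η : ℝ) (K : Set ℂ) : Prop where
  fine : Fine d ψ η K
  area : ∀ x ∈ K, ∃ ρ : ℝ, 0 < ρ ∧ ρ ≤ η ∧
    volume (multibrotSet d ∩ ball x ρ) ≤ ENNReal.ofReal (η * ρ ^ 2)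
  conn : ∀ Γ : Set ℂ, IsPreconnected Γ → Γ ⊆ BigRen d → (Γ ∩ K).Nonempty →
    ∀ s ∈ Γ, ∀ t ∈ Γ, ‖s - t‖ ≤ η

theorem fine_le {d : ℕ} {ψ : ℂ → ℂ} {η η' : ℝ} {K : Set ℂ} (h : Fine d ψ η K) (hη : η ≤ η') :
    Fine d ψ η' K := by
  obtain ⟨b, ρ', h1, h2, h3, h4, h5, δ, h6, h7⟩ := h
  refine ⟨b, ρ', h1, h2, h3.trans hη, h4, fun ζ hζ hne x hx y hy =>
    (h5 ζ hζ hne x hx y hy).trans hη, δ, h6, fun x hx hxb y hy hyx => ?_⟩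
  obtain ⟨S, g1, g2, g3, g4, g5, g6⟩ := h7 x hx hxb y hy hyx
  exact ⟨S, g1, g2, g3, g4, g5, g6.trans (closedBall_subset_closedBall hη)⟩

theorem Fine3.le {d : ℕ} {ψ : ℂ → ℂ} {η η' : ℝ} {K : Set ℂ} (h : Fine3 d ψ η K) (hη : η ≤ η') :
    Fine3 d ψ η' K := by
  refine ⟨fine_le h.fine hη, fun x hx => ?_, fun Γ h1 h2 h3 s hs t ht =>
    (h.conn Γ h1 h2 h3 s hs t ht).trans hη⟩
  obtain ⟨ρ, h1, h2, h3⟩ := h.area x hx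
  refine ⟨ρ, h1, h2.trans hη, h3.trans (ENNReal.ofReal_le_ofReal ?_)⟩
  gcongr

theorem Fine3.mono {d : ℕ} {ψ : ℂ → ℂ} {η : ℝ} {K K' : Set ℂ} (h : Fine3 d ψ η K) (hK : K' ⊆ K) :
    Fine3 d ψ η K' :=
  ⟨fine_mono h.fine hK, fun x hx => h.area x (hK hx),
    fun Γ h1 h2 h3 => h.conn Γ h1 h2 (h3.mono (inter_subset_inter_right _ hK))⟩

/-- the area near a Lyapunov parameter -/
theorem area_of_lyap {d : ℕ} (hd : 2 ≤ d) {χ : ℝ} {b : ℂ} (hb : HasLyapunov d χ b) {η : ℝ}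
    (hη : 0 < η) : ∀ᶠ ρ : ℝ in 𝓝[>] 0, ∀ x ∈ ball b ρ,
      volume (multibrotSet d ∩ ball x ρ) ≤ ENNReal.ofReal (η * ρ ^ 2) := by
  have hdR : (2 : ℝ) ≤ d := by exact_mod_cast hd
  have hd1 : (0 : ℝ) < (d : ℝ) - 1 := by linarith
  obtain ⟨g, hg⟩ : ∃ g : ℝ, g = 1 / ((d : ℝ) - 1) := ⟨_, rfl⟩
  have hg0 : 0 < g := by rw [hg]; positivity
  have hE : 2 * (d : ℝ) / (d - 1) = 2 + 2 * g := by rw [hg]; field_simp; ring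
  have hsc := (Pool.Agent.Y298.CA.scal_all hd (χ := χ) (c₀ := b) ⟨hb.1, hb.2.1, hb.2.2⟩).areaM
  rw [hE] at hsc
  have h1 : ∀ᶠ r : ℝ in 𝓝[>] 0, 2 + g <
      Real.log (volume (multibrotSet d ∩ ball b r)).toReal / Real.log r :=
    hsc.eventually (lt_mem_nhds (by linarith))
  have hfin : ∀ r : ℝ, volume (multibrotSet d ∩ ball b r) ≠ ⊤ := fun r =>
    ((measure_mono inter_subset_right).trans_lt measure_ball_lt_top).ne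
  have h2 : ∀ᶠ r : ℝ in 𝓝[>] 0, volume (multibrotSet d ∩ ball b r) ≤ ENNReal.ofReal (r ^ (2 + g)) := by
    filter_upwards [h1, Ioo_mem_nhdsGT (show (0 : ℝ) < 1 by norm_num)] with r hr hr1
    have hlog : Real.log r < 0 := Real.log_neg hr1.1 hr1.2
    rw [lt_div_iff_of_neg hlog] at hr
    rw [← ENNReal.ofReal_toReal (hfin r)]
    apply ENNReal.ofReal_le_ofReal
    rcases (ENNReal.toReal_nonneg (a := volume (multibrotSet d ∩ ball b r))).eq_or_lt with h0 | h0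
    · rw [← h0]
      exact Real.rpow_nonneg hr1.1.le _
    · rw [← Real.log_le_log_iff h0 (Real.rpow_pos_of_pos hr1.1 _), Real.log_rpow hr1.1]
      exact hr.le
  have h3 : Tendsto (fun ρ : ℝ => 2 * ρ) (𝓝[>] 0) (𝓝[>] 0) := by
    apply tendsto_nhdsWithin_of_tendsto_nhds_of_eventually_within
    · have : Tendsto (fun ρ : ℝ => 2 * ρ) (𝓝 0) (𝓝 (2 * 0)) := tendsto_id.const_mul 2
      rw [mul_zero] at this
      exact this.mono_left nhdsWithin_le_nhds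
    · filter_upwards [self_mem_nhdsWithin] with ρ hρ
      have : (0 : ℝ) < ρ := hρ
      show 0 < 2 * ρ
      linarith
  have h4 : ∀ᶠ ρ : ℝ in 𝓝[>] 0, (2 * ρ) ^ g ≤ η / 4 := by
    have := ev_rpow hg0 (show (0 : ℝ) < η / 4 by positivity)
    exact h3.eventually this
  filter_upwards [h3.eventually h2, h4, self_mem_nhdsWithin] with ρ hρ hρ4 hρ0 x hx
  have hρ0' : (0 : ℝ) < ρ := hρ0
  have hsub : multibrotSet d ∩ ball x ρ ⊆ multibrotSet d ∩ ball b (2 * ρ) := by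
    apply inter_subset_inter_right
    apply ball_subset_ball'
    rw [mem_ball] at hx
    linarith
  refine (measure_mono hsub).trans (hρ.trans (ENNReal.ofReal_le_ofReal ?_))
  rw [Real.rpow_add (by positivity)]
  have e1 : (2 * ρ) ^ (2 : ℝ) = 4 * ρ ^ 2 := by
    rw [Real.rpow_two]
    ring
  rw [e1]
  calc 4 * ρ ^ 2 * (2 * ρ) ^ g ≤ 4 * ρ ^ 2 * (η / 4) := by gcongr
    _ = η * ρ ^ 2 := by ring

/-- connected sets of infinitely renormalizable parameters near a Lyapunov parameter -/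
theorem conn_of_lyap {d : ℕ} (hd : 2 ≤ d) {χ : ℝ} {b : ℂ} (hb : HasLyapunov d χ b) {η : ℝ}
    (hη : 0 < η) : ∀ᶠ ρ : ℝ in 𝓝[>] 0, ∀ Γ : Set ℂ, IsPreconnected Γ → Γ ⊆ BigRen d →
      (Γ ∩ ball b ρ).Nonempty → ∀ s ∈ Γ, ∀ t ∈ Γ, ‖s - t‖ ≤ η := by
  have hdR : (2 : ℝ) ≤ d := by exact_mod_cast hd
  have hd1 : (0 : ℝ) < (d : ℝ) - 1 := by linarith
  obtain ⟨g, hg⟩ : ∃ g : ℝ, g = 1 / ((d : ℝ) - 1) := ⟨_, rfl⟩
  have hg0 : 0 < g := by rw [hg]; positivity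
  have hE : (d : ℝ) / (d - 1) - g = 1 := by rw [hg]; field_simp
  obtain ⟨N₀, R₀, -, hR₀, H⟩ := Pool.Agent.N253.UX.ren_sets hd (χ := χ) (c₀ := b)
    ⟨hb.1, hb.2.1, hb.2.2⟩ hg0
  rw [hE] at H
  filter_upwards [Ioo_mem_nhdsGT hR₀, Ioo_mem_nhdsGT hη] with ρ hρ hρη Γ hΓ hsub hne s hs t ht
  obtain ⟨c₁, hc₁, hc₁b⟩ := hne
  rw [mem_ball, dist_eq_norm] at hc₁b
  have H1 := (H ρ hρ.1 hρ.2.le).1 Γ hΓ (fun t ht => ⟨(hsub ht).1, (hsub ht).2 N₀⟩) c₁ hc₁ hc₁b.le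
  have h1 := H1 s hs
  have h2 := H1 t ht
  rw [Real.rpow_one] at h1 h2
  have h3 : ‖s - t‖ ≤ ‖s - c₁‖ + ‖t - c₁‖ := by
    have e : s - t = (s - c₁) - (t - c₁) := by ring
    rw [e]
    exact norm_sub_le _ _
  linarith [hρη.2]

theorem fine3_of_lyap {d : ℕ} (hd : 2 ≤ d) {ψ : ℂ → ℂ} (hψ : IsExteriorMap (multibrotSet d) ψ)
    {χ : ℝ} {b : ℂ} (hb : HasLyapunov d χ b) {η : ℝ} (hη : 0 < η) :
    ∃ ρ : ℝ, 0 < ρ ∧ ρ ≤ η ∧ ∀ K : Set ℂ, K ⊆ ball b ρ → Fine3 d ψ η K := by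
  obtain ⟨ρ₁, hρ₁, hρ₁η, H1⟩ := fine_of_lyap hd hψ hb hη
  obtain ⟨ρ, ⟨h1, h2⟩, h3, h4⟩ := ((area_of_lyap hd hb hη).and (conn_of_lyap hd hb hη)).and
    ((Ioo_mem_nhdsGT hρ₁ : Ioo 0 ρ₁ ∈ 𝓝[>] (0 : ℝ))) |>.exists
  refine ⟨ρ, h3, h4.le.trans hρ₁η, fun K hK => ⟨H1 K (hK.trans (ball_subset_ball h4.le)),
    fun x hx => ⟨ρ, h3, h4.le.trans hρ₁η, h1 x (hK hx)⟩, fun Γ g1 g2 g3 => h2 Γ g1 g2
      (g3.mono (inter_subset_inter_right _ hK))⟩⟩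

/-- the data of a small copy, level `k` of a tower -/
def Lev (d : ℕ) (ψ : ℂ → ℂ) (e η : ℝ) (s : ℕ × ℂ × ℂ × ℂ) : Prop :=
  Perf d e s.1 s.2.1 s.2.2.1 s.2.2.2 ∧ Fine3 d ψ η (KK d s.1 s.2.1 s.2.2.1 s.2.2.2)

/-- the small copy -/
def KS (d : ℕ) (s : ℕ × ℂ × ℂ × ℂ) : Set ℂ := KK d s.1 s.2.1 s.2.2.1 s.2.2.2

/-- the child `s'` of `s`, with coordinates near `p` -/
def Chi (d : ℕ) (p : ℂ) (r : ℝ) (s s' : ℕ × ℂ × ℂ × ℂ) : Prop :=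
  s.1 ∣ s'.1 ∧ s.1 < s'.1 ∧ ∀ x ∈ KS d s', ‖(x - s.2.1) / s.2.2.1 - p‖ ≤ r

/-- **Two disjoint children.** -/
theorem children2 {d : ℕ} (hd : 2 ≤ d) {p : ℂ} (hp : p ∈ frontier (multibrotSet d)) {ψ : ℂ → ℂ}
    (hψ : IsExteriorMap (multibrotSet d) ψ) {r : ℝ} (hr : 0 < r) :
    ∃ ε₁ : ℝ, 0 < ε₁ ∧ ∀ s : ℕ × ℂ × ℂ × ℂ, Perf d ε₁ s.1 s.2.1 s.2.2.1 s.2.2.2 → ∀ η : ℝ, 0 < η →
      ∃ s₀ s₁ : ℕ × ℂ × ℂ × ℂ, (Lev d ψ η η s₀ ∧ Chi d p r s s₀ ∧ KS d s₀ ⊆ KS d s) ∧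
        (Lev d ψ η η s₁ ∧ Chi d p r s s₁ ∧ KS d s₁ ⊆ KS d s) ∧ Disjoint (KS d s₀) (KS d s₁) := by
  obtain ⟨ε₁, hε₁, H⟩ := step2 hd hp hr
  refine ⟨ε₁, hε₁, fun s hP η hη => ?_⟩
  obtain ⟨χ, b, hb, H2⟩ := H s.1 s.2.1 s.2.2.1 s.2.2.2 hP
  obtain ⟨ρ, hρ, -, hfine⟩ := fine3_of_lyap hd hψ hb hη
  obtain ⟨n₀, c₀, l₀, m₀, a1, a2, a3, a4, a5, a6, a7⟩ := H2 η ρ hη hρ
  have hK := (KK_compact (d := d) (n := n₀) (c := c₀) (m := m₀) a1.sc.1).isClosed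
  obtain ⟨ρ', hρ', hsub⟩ := Metric.isOpen_iff.1 hK.isOpen_compl b a6
  obtain ⟨n₁, c₁, l₁, m₁, b1, b2, b3, b4, b5, b6, b7⟩ := H2 η (min ρ ρ') hη (by positivity)
  refine ⟨(n₀, c₀, l₀, m₀), (n₁, c₁, l₁, m₁), ⟨⟨a1, hfine _ a5⟩, ⟨a2, a3, a7⟩, a4⟩,
    ⟨⟨b1, hfine _ (b5.trans (ball_subset_ball (min_le_left _ _)))⟩, ⟨b2, b3, b7⟩, b4⟩, ?_⟩
  rw [Set.disjoint_left]
  intro x hx0 hx1
  exact hsub (ball_subset_ball (min_le_right _ _) (b5 hx1)) hx0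

/-- the limit points -/
structure Limit2 (d : ℕ) (ψ : ℂ → ℂ) (a : ℕ → ℂ) (x : ℂ) (u : ℕ → ℕ × ℂ × ℂ × ℂ) : Prop where
  perf : ∀ k : ℕ, Perf d (1 / ((k : ℝ) + 1)) (u k).1 (u k).2.1 (u k).2.2.1 (u k).2.2.2
  fine : ∀ k : ℕ, Fine3 d ψ (1 / ((k : ℝ) + 1)) (KK d (u k).1 (u k).2.1 (u k).2.2.1 (u k).2.2.2)
  dvd : ∀ k, (u k).1 ∣ (u (k + 1)).1
  lt : ∀ k, (u k).1 < (u (k + 1)).1
  mem : ∀ k, x ∈ KK d (u k).1 (u k).2.1 (u k).2.2.1 (u k).2.2.2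
  tip : ∀ k : ℕ, ‖(x - (u k).2.1) / (u k).2.2.1 - a k‖ ≤ 1 / ((k : ℝ) + 1)
  sub : ∀ k, KK d (u (k + 1)).1 (u (k + 1)).2.1 (u (k + 1)).2.2.1 (u (k + 1)).2.2.2 ⊆
    KK d (u k).1 (u k).2.1 (u k).2.2.1 (u k).2.2.2

/-- **Uncountably many limit points in every disc about a boundary point.** -/
theorem limits2 {d : ℕ} (hd : 2 ≤ d) {a : ℕ → ℂ} (ha : ∀ k, a k ∈ frontier (multibrotSet d))
    {ψ : ℂ → ℂ} (hψ : IsExteriorMap (multibrotSet d) ψ) {p : ℂ} (hp : p ∈ frontier (multibrotSet d))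
    {r : ℝ} (hr : 0 < r) : ¬ {x : ℂ | ‖x - p‖ < r ∧ ∃ u, Limit2 d ψ a x u}.Countable := by
  have hex := fun k : ℕ => children2 hd (ha k) hψ (r := 1 / ((k : ℝ) + 1)) (by positivity)
  choose E hE0 hE using hex
  obtain ⟨e, he⟩ : ∃ e : ℕ → ℝ, e = fun k => min (E k) (1 / ((k : ℝ) + 1)) := ⟨_, rfl⟩
  have he0 : ∀ k, 0 < e k := by
    intro k
    rw [he]
    exact lt_min (hE0 k) (by positivity)
  have he1 : ∀ k, e k ≤ E k := fun k => by rw [he]; exact min_le_left _ _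
  have he2 : ∀ k, e k ≤ 1 / ((k : ℝ) + 1) := fun k => by rw [he]; exact min_le_right _ _
  -- the first copy
  obtain ⟨c₀, ⟨hc₀, hL⟩, hc₀p⟩ := Metric.mem_closure_iff.1 (typ_dense hd hp) (r / 2) (half_pos hr)
  obtain ⟨η₀, hη₀⟩ : ∃ η₀, η₀ = min 1 (r / 2) := ⟨_, rfl⟩
  have hη₀0 : 0 < η₀ := by rw [hη₀]; positivity
  obtain ⟨ρ, hρ, hρη, hfine⟩ := fine3_of_lyap hd hψ (b := c₀) hL hη₀0
  obtain ⟨R, t, hR, hRρ, -, -, H⟩ := zone_at hd (b := c₀) hL (he0 0) one_pos hρ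
  obtain ⟨c', hc', hcc'⟩ := Metric.mem_closure_iff.1
    (Pool.Agent.N772.PC.frontier_sub hd hc₀) (R / 2) (half_pos hR)
  have hint := Pool.Agent.R240.Alm.att_interior hd hc'
  obtain ⟨V, n, c, l, m, -, -, hVR, -, hP, -, -, hKV⟩ := H c' ⟨interior_subset hint, Or.inl hint⟩ (by
    rw [dist_eq_norm, norm_sub_rev] at hcc'
    exact hcc'.le)
  have hKR : KK d n c l m ⊆ ball c₀ ρ := hKV.trans (hVR.trans (ball_subset_ball hRρ))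
  have hfine0 : Fine3 d ψ (1 / (((0 : ℕ) : ℝ) + 1)) (KK d n c l m) := (hfine _ hKR).le (by
    rw [hη₀]
    simp)
  have htree := tree (S := ℕ × ℂ × ℂ × ℂ) (X := ℂ)
    (fun k s => Lev d ψ (e k) (1 / ((k : ℝ) + 1)) s)
    (fun k s s' => Chi d (a k) (1 / ((k : ℝ) + 1)) s s')
    (fun s => KS d s)
    (by
      rintro k s ⟨h1, -⟩
      exact ⟨KK_compact h1.sc.1, ⟨s.2.1, mem_KK _ _ _ h1.zero⟩⟩)
    (by
      rintro k s ⟨h1, -⟩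
      obtain ⟨s₀, s₁, ⟨a1, a2, a3⟩, ⟨b1, b2, b3⟩, hdis⟩ :=
        hE k s (perf_mono h1 (he0 k) (he1 k)) (e (k + 1)) (he0 _)
      exact ⟨s₀, s₁, ⟨⟨a1.1, a1.2.le (he2 (k + 1))⟩, a2, a3⟩,
        ⟨⟨b1.1, b1.2.le (he2 (k + 1))⟩, b2, b3⟩, hdis⟩)
    (n, c, l, m) ⟨hP, hfine0⟩
  intro hcount
  apply htree
  refine hcount.mono ?_
  rintro x ⟨u, hu0, hu1, hu2, hu3, hu4⟩
  refine ⟨?_, u, fun k => perf_mono (hu1 k).1 (he0 k) (he2 k), fun k => (hu1 k).2,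
    fun k => (hu2 k).1, fun k => (hu2 k).2.1, hu4, fun k => (hu2 k).2.2 x (hu4 (k + 1)), hu3⟩
  have h1 := hu4 0
  rw [hu0] at h1
  have h2 := hKR h1
  rw [mem_ball, dist_eq_norm] at h2
  have h3 : ρ ≤ r / 2 := hρη.trans (by rw [hη₀]; exact min_le_right _ _)
  rw [dist_comm, dist_eq_norm] at hc₀p
  have h4 : ‖x - p‖ ≤ ‖x - c₀‖ + ‖c₀ - p‖ := by
    have e1 : x - p = (x - c₀) + (c₀ - p) := by ring
    rw [e1]
    exact norm_add_le _ _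
  linarith

end Pool.Agent.H206
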