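import Pool.Graph.R_pool_sql_team_seeded_63374d34.N772.PC.Pol

set_option autoImplicit false

/-! # Polynomial-like maps with connected filled Julia sets -/

namespace Pool.Agent.H206

open Complex Metric Set Filter Topology

/-- nested compact connected sets -/
theorem nested_pre {F : ℕ → Set ℂ} (hc : ∀ n, IsCompact (F n)) (hp : ∀ n, IsPreconnected (F n))
    (ha : Antitone F) : IsPreconnected (⋂ n, F n) := by
  rw [isPreconnected_closed_iff]
  intro t t' ht ht' hsub h1 h2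
  by_contra hcon
  rw [not_nonempty_iff_eq_empty] at hcon
  have hIc : IsClosed (⋂ n, F n) := isClosed_iInter fun n => (hc n).isClosed
  obtain ⟨U, V, hU, hV, hAU, hBV, hUV⟩ := normal_separation (hIc.inter ht) (hIc.inter ht') (by
    rw [Set.disjoint_iff_inter_eq_empty, ← hcon]
    ext x
    simp only [mem_inter_iff]
    tauto)
  obtain ⟨n, hn⟩ := exists_subset_nhds_of_isCompact' (V := F) (U := U ∪ V)
    (directed_of_isDirected_le fun i j hij => ha hij) hc (fun n => (hc n).isClosed) (by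
      intro x hx
      refine (hU.union hV).mem_nhds ?_
      rcases hsub hx with h3 | h3
      · exact Or.inl (hAU ⟨hx, h3⟩)
      · exact Or.inr (hBV ⟨hx, h3⟩))
  obtain ⟨x, hx⟩ := h1
  obtain ⟨y, hy⟩ := h2
  obtain ⟨z, hz, hzU, hzV⟩ := hp n U V hU hV hn ⟨x, mem_iInter.1 hx.1 n, hAU hx⟩
    ⟨y, mem_iInter.1 hy.1 n, hBV hy⟩
  exact hUV.le_bot ⟨hzU, hzV⟩

/-- `h` is a proper map of degree at most `d` of `U` onto the larger connected set `V`, with the only
critical point `0`, and `0` is the only preimage of the critical value. -/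
structure PL (d : ℕ) (h : ℂ → ℂ) (U V : Set ℂ) : Prop where
  oU : IsOpen U
  bU : Bornology.IsBounded U
  oV : IsOpen V
  pV : IsPreconnected V
  cl : closure U ⊆ V
  im : h '' U = V
  prop : ∀ K ⊆ V, IsCompact K → IsCompact {z | z ∈ U ∧ h z ∈ K}
  deg : ∀ w ∈ V, {z | z ∈ U ∧ h z = w}.encard ≤ d
  crit : ∀ z ∈ closure U, deriv h z = 0 → z = 0
  tot : ∀ z ∈ U, h z = h 0 → z = 0

section

variable {d : ℕ} {h : ℂ → ℂ} {U V : Set ℂ}

/-- a set which contains the critical value has no clopen part without the critical point -/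
theorem PL.aux (H : PL d h U V) (hop : ∀ O : Set ℂ, IsOpen O → IsOpen (h '' O))
    (hc : Continuous h) {W : Set ℂ} (hW : IsOpen W) (hWp : IsPreconnected W) (hWV : W ⊆ V)
    (h0W : h 0 ∈ W) {A B : Set ℂ} (hA : IsOpen A) (hB : IsOpen B)
    (hAB : U ∩ h ⁻¹' W ⊆ A ∪ B) (hdis : ∀ z ∈ U ∩ h ⁻¹' W, ¬ (z ∈ A ∧ z ∈ B)) (h0A : (0 : ℂ) ∈ A)
    (hne : (U ∩ h ⁻¹' W ∩ B).Nonempty) (h0U : (0 : ℂ) ∈ U) : False := by
  have hXo : IsOpen (U ∩ h ⁻¹' W) := H.oU.inter (hW.preimage hc)
  have hBo : IsOpen (h '' (U ∩ h ⁻¹' W ∩ B)) := hop _ (hXo.inter hB)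
  -- the image of the part in `B` is everything
  have hall : W ⊆ h '' (U ∩ h ⁻¹' W ∩ B) := by
    by_contra hcon
    rw [not_subset] at hcon
    obtain ⟨w₀, hw₀, hw₀n⟩ := hcon
    have hco : IsOpen (W \ h '' (U ∩ h ⁻¹' W ∩ B)) := by
      rw [Metric.isOpen_iff]
      rintro w ⟨hw, hwn⟩
      obtain ⟨ε, hε, hεW⟩ := Metric.nhds_basis_closedBall.mem_iff.1 (hW.mem_nhds hw)
      have hC := H.prop _ (hεW.trans hWV) (isCompact_closedBall w ε)
      have hC2 : IsCompact (h '' ({z | z ∈ U ∧ h z ∈ closedBall w ε} \ A)) :=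
        (hC.diff hA).image hc
      have hwn2 : w ∉ h '' ({z | z ∈ U ∧ h z ∈ closedBall w ε} \ A) := by
        rintro ⟨z, ⟨⟨hz1, hz2⟩, hz3⟩, rfl⟩
        have hzX : z ∈ U ∩ h ⁻¹' W := ⟨hz1, hεW hz2⟩
        rcases hAB hzX with h5 | h5
        · exact hz3 h5
        · exact hwn ⟨z, ⟨hzX, h5⟩, rfl⟩
      obtain ⟨ε', hε', hsub⟩ := Metric.isOpen_iff.1 hC2.isClosed.isOpen_compl w hwn2
      refine ⟨min ε ε', lt_min hε hε', fun y hy => ⟨?_, ?_⟩⟩
      · exact hεW (ball_subset_closedBall (ball_subset_ball (min_le_left _ _) hy))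
      · rintro ⟨z, ⟨hzX, hzB⟩, rfl⟩
        refine hsub (ball_subset_ball (min_le_right _ _) hy) ⟨z, ⟨⟨hzX.1, ?_⟩, ?_⟩, rfl⟩
        · exact ball_subset_closedBall (ball_subset_ball (min_le_left _ _) hy)
        · exact fun h6 => hdis z hzX ⟨h6, hzB⟩
    obtain ⟨z, hz⟩ := hne
    obtain ⟨y, -, hy1, hy2⟩ := hWp _ _ hBo hco (fun y hy => by
      by_cases h7 : y ∈ h '' (U ∩ h ⁻¹' W ∩ B)
      · exact Or.inl h7
      · exact Or.inr ⟨hy, h7⟩) ⟨h z, hz.1.2, z, hz, rfl⟩ ⟨w₀, hw₀, hw₀, hw₀n⟩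
    exact hy2.2 hy1
  obtain ⟨z, ⟨hzX, hzB⟩, hz0⟩ := hall h0W
  have := H.tot z hzX.1 hz0
  rw [this] at hzX hzB
  exact hdis 0 hzX ⟨h0A, hzB⟩

theorem PL.pre (H : PL d h U V) (hop : ∀ O : Set ℂ, IsOpen O → IsOpen (h '' O))
    (hc : Continuous h) {W : Set ℂ} (hW : IsOpen W) (hWp : IsPreconnected W) (hWV : W ⊆ V)
    (h0W : h 0 ∈ W) (h0U : (0 : ℂ) ∈ U) : IsPreconnected (U ∩ h ⁻¹' W) := by
  intro A B hA hB hAB hneA hneB
  by_contra hcon
  have hdis : ∀ z ∈ U ∩ h ⁻¹' W, ¬ (z ∈ A ∧ z ∈ B) := fun z hz hzz => hcon ⟨z, hz, hzz⟩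
  rcases hAB ⟨h0U, h0W⟩ with h1 | h1
  · exact H.aux hop hc hW hWp hWV h0W hA hB hAB hdis h1 hneB h0U
  · refine H.aux hop hc hW hWp hWV h0W hB hA (by rwa [union_comm]) (fun z hz hzz =>
      hdis z hz ⟨hzz.2, hzz.1⟩) h1 hneA h0U

/-- the preimages of `V` -/
def XX (h : ℂ → ℂ) (U V : Set ℂ) : ℕ → Set ℂ
  | 0 => V
  | j + 1 => U ∩ h ⁻¹' (XX h U V j)

theorem PL.mono (H : PL d h U V) (j : ℕ) : XX h U V (j + 1) ⊆ XX h U V j := by
  induction j with
  | zero => exact fun z hz => H.cl (subset_closure hz.1)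
  | succ j ih => exact fun z hz => ⟨hz.1, ih hz.2⟩

theorem PL.anti (H : PL d h U V) : Antitone (XX h U V) := antitone_nat_of_succ_le H.mono

theorem PL.open (H : PL d h U V) (hc : Continuous h) (j : ℕ) : IsOpen (XX h U V j) := by
  induction j with
  | zero => exact H.oV
  | succ j ih => exact H.oU.inter (ih.preimage hc)

theorem XX_mem {z : ℂ} (hz : ∀ i : ℕ, h^[i] z ∈ U) (hUV : U ⊆ V) (j : ℕ) : z ∈ XX h U V j := by
  induction j generalizing z with
  | zero => exact hUV (hz 0)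
  | succ j ih =>
    refine ⟨hz 0, ih (z := h z) fun i => ?_⟩
    rw [← Function.iterate_succ_apply]
    exact hz (i + 1)

theorem of_XX {z : ℂ} (i : ℕ) (hz : z ∈ XX h U V (i + 1)) : h^[i] z ∈ U := by
  induction i generalizing z with
  | zero => exact hz.1
  | succ i ih =>
    rw [Function.iterate_succ_apply]
    exact ih hz.2

theorem PL.closure_sub (H : PL d h U V) (hc : Continuous h) (j : ℕ) :
    closure (XX h U V (j + 1)) ⊆ XX h U V j := by
  induction j with
  | zero => exact (closure_mono inter_subset_left).trans H.cl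
  | succ j ih =>
    have hb : Bornology.IsBounded (XX h U V (j + 1)) := H.bU.subset inter_subset_left
    have hK : IsCompact (closure (XX h U V (j + 1))) := hb.isCompact_closure
    have hKV : closure (XX h U V (j + 1)) ⊆ V := ih.trans (H.anti (Nat.zero_le j))
    have hC := H.prop _ hKV hK
    have h1 : closure (XX h U V (j + 1 + 1)) ⊆ {z | z ∈ U ∧ h z ∈ closure (XX h U V (j + 1))} :=
      closure_minimal (fun z hz => ⟨hz.1, subset_closure hz.2⟩) hC.isClosed
    exact fun z hz => ⟨(h1 hz).1, ih (h1 hz).2⟩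

/-- **The filled Julia set is connected** if the critical point does not escape. -/
theorem PL.filled (H : PL d h U V) (hop : ∀ O : Set ℂ, IsOpen O → IsOpen (h '' O))
    (hc : Continuous h) (h0 : ∀ i : ℕ, h^[i] 0 ∈ U) :
    IsPreconnected {z : ℂ | ∀ i : ℕ, h^[i] z ∈ U} := by
  have hUV : U ⊆ V := subset_closure.trans H.cl
  have hpre : ∀ j, IsPreconnected (XX h U V j) := by
    intro j
    induction j with
    | zero => exact H.pV
    | succ j ih =>
      refine H.pre hop hc (H.open hc j) ih (H.anti (Nat.zero_le j)) ?_ (h0 0)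
      apply XX_mem (fun i => ?_) hUV
      rw [← Function.iterate_succ_apply]
      exact h0 (i + 1)
  have h1 : {z : ℂ | ∀ i : ℕ, h^[i] z ∈ U} = ⋂ j, closure (XX h U V (j + 1)) := by
    ext z
    rw [mem_iInter]
    constructor
    · intro hz j
      exact subset_closure (XX_mem hz hUV _)
    · intro hz i
      exact of_XX i (H.closure_sub hc (i + 1) (hz (i + 1)))
  rw [h1]
  apply nested_pre
  · intro j
    exact (H.bU.subset (inter_subset_left : XX h U V (j + 1) ⊆ U)).isCompact_closure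
  · exact fun j => (hpre (j + 1)).closure
  · exact fun i j hij => closure_mono (H.anti (by omega))

end

end Pool.Agent.H206
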