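import Pool.Agent.H206.LimE
import Pool.Agent.H206.LimD

set_option autoImplicit false

/-! # The renormalizations of the limits of towers -/

namespace Pool.Agent.H206

open Complex Metric Set Filter Topology
open N62a1eb23
open Pool.Agent.N772.PC (re re_HH re_HH_deriv HH_close HH_inj re_diff)

section

variable {d n : ℕ} {c l m κ : ℂ}

/-- **The renormalised map is polynomial-like.** -/
theorem polylike2 (hd : 2 ≤ d) (hn : 1 ≤ n) {ρ η : ℝ} (hρ : 4 ≤ ρ) (hη : η ≤ 1 / 4)
    (hκ : ‖κ‖ ≤ ρ - 1) (h0 : ∀ z : ℂ, ‖z‖ ≤ ρ → ‖re d n c l m κ z - (z ^ d + κ)‖ ≤ η)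
    (h1 : ∀ z : ℂ, ‖z‖ ≤ ρ → ‖deriv (re d n c l m κ) z - d * z ^ (d - 1)‖ ≤ η) (hm : m ≠ 0) :
    PL d (re d n c l m κ) {z | ‖z‖ < ρ ∧ ‖re d n c l m κ z‖ < ρ} (ball 0 ρ) := by
  obtain ⟨h, hh⟩ : ∃ h, h = re d n c l m κ := ⟨_, rfl⟩
  rw [← hh] at h0 h1 ⊢
  have hhd : Differentiable ℂ h := by rw [hh]; exact re_diff hm
  have hhc : Continuous h := hhd.continuous
  have hη0 : 0 ≤ η := (norm_nonneg _).trans (h0 0 (by simp; linarith))
  have hρ2 : 2 * ρ < ρ ^ d := by
    have : ρ ^ 2 ≤ ρ ^ d := pow_le_pow_right₀ (by linarith) hd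
    nlinarith
  have hsmall : ∀ z : ℂ, ‖z‖ ≤ ρ → ‖h z‖ ≤ ρ → ‖z‖ ^ d ≤ 2 * ρ := by
    intro z hz hz2
    have h2 := h0 z hz
    have h3 : ‖z ^ d‖ ≤ ‖h z‖ + ‖h z - (z ^ d + κ)‖ + ‖κ‖ := by
      have e : z ^ d = h z - (h z - (z ^ d + κ)) - κ := by ring
      calc ‖z ^ d‖ = ‖h z - (h z - (z ^ d + κ)) - κ‖ := by rw [← e]
        _ ≤ ‖h z - (h z - (z ^ d + κ))‖ + ‖κ‖ := norm_sub_le _ _
        _ ≤ _ := by gcongr; exact norm_sub_le _ _
    rw [norm_pow] at h3
    linarith
  have hlt : ∀ z : ℂ, ‖z‖ ^ d ≤ 2 * ρ → ‖z‖ < ρ := by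
    intro z hz
    rw [← pow_lt_pow_iff_left₀ (norm_nonneg _) (by linarith) (by omega : d ≠ 0)]
    linarith
  obtain ⟨U, hU⟩ : ∃ U : Set ℂ, U = {z | ‖z‖ < ρ ∧ ‖h z‖ < ρ} := ⟨_, rfl⟩
  rw [← hU]
  have hUo : IsOpen U := by
    rw [hU]
    exact (isOpen_lt continuous_norm continuous_const).inter
      (isOpen_lt hhc.norm continuous_const)
  have hUcl : closure U ⊆ {z | ‖z‖ ≤ ρ ∧ ‖h z‖ ≤ ρ} := by
    apply closure_minimal
    · rw [hU]
      rintro z ⟨h2, h3⟩
      exact ⟨h2.le, h3.le⟩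
    · exact (isClosed_le continuous_norm continuous_const).inter
        (isClosed_le hhc.norm continuous_const)
  have hUV : closure U ⊆ ball 0 ρ := by
    intro z hz
    obtain ⟨h2, h3⟩ := hUcl hz
    rw [mem_ball_zero_iff]
    exact hlt z (hsmall z h2 h3)
  have h00 : (0 : ℂ) ∈ U := by
    rw [hU]
    refine ⟨by rw [norm_zero]; linarith, ?_⟩
    have h2 := h0 0 (by rw [norm_zero]; linarith)
    rw [zero_pow (by omega), zero_add] at h2
    have := norm_le_norm_add_norm_sub' (h 0) κ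
    linarith
  -- properness
  have hprop : ∀ K ⊆ ball (0 : ℂ) ρ, IsCompact K → IsCompact {z | z ∈ U ∧ h z ∈ K} := by
    intro K hK hKc
    have h2 : {z | z ∈ U ∧ h z ∈ K} = closedBall 0 ρ ∩ h ⁻¹' K := by
      ext z
      constructor
      · rintro ⟨h3, h4⟩
        rw [hU] at h3
        exact ⟨by rw [mem_closedBall_zero_iff]; exact h3.1.le, h4⟩
      · rintro ⟨h3, h4⟩
        rw [mem_closedBall_zero_iff] at h3
        have h5 := hK h4
        rw [mem_ball_zero_iff] at h5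
        refine ⟨?_, h4⟩
        rw [hU]
        exact ⟨hlt z (hsmall z h3 h5.le), h5⟩
    rw [h2]
    exact (isCompact_closedBall (0 : ℂ) ρ).inter_right (hKc.isClosed.preimage hhc)
  -- the critical points
  have hclose : ∀ y : ℂ, ‖y‖ ≤ ρ ^ d → ‖deriv (Pool.Agent.N772.PC.HH d n (c + l * κ) m) y - 1‖ ≤ η := fun y hy =>
    HH_close hd hn (by linarith) (by rw [← hh]; exact h1) hy
  have hcrit : ∀ z ∈ closure U, deriv h z = 0 → z = 0 := by
    intro z hz h2
    replace hz := hUcl hz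
    rw [hh, re_HH_deriv hn] at h2
    rcases mul_eq_zero.1 h2 with h3 | h3
    · have h4 := hclose (z ^ d) (by rw [norm_pow]; exact pow_le_pow_left₀ (norm_nonneg _) hz.1 d)
      rw [h3, zero_sub, norm_neg, norm_one] at h4
      linarith
    · rcases mul_eq_zero.1 h3 with h4 | h4
      · have : d = 0 := by exact_mod_cast h4
        omega
      · exact eq_zero_of_pow_eq_zero h4
  -- surjectivity
  have hsurj : h '' U = ball 0 ρ := by
    apply Subset.antisymm
    · rintro _ ⟨z, hz, rfl⟩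
      rw [hU] at hz
      rw [mem_ball_zero_iff]
      exact hz.2
    · have hopen : IsOpen (h '' U) := by
        have han : AnalyticOnNhd ℂ h univ := hhd.differentiableOn.analyticOnNhd isOpen_univ
        rcases han.is_constant_or_isOpen isPreconnected_univ with ⟨w, hw⟩ | hop
        · exfalso
          have h2 := h0 (ρ : ℂ) (by
            rw [Complex.norm_real, Real.norm_eq_abs, abs_of_nonneg (by linarith)])
          have h3 := h0 0 (by rw [norm_zero]; linarith)
          rw [hw _ (mem_univ _)] at h2 h3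
          rw [zero_pow (by omega), zero_add] at h3
          have h4 : ‖(ρ : ℂ) ^ d‖ ≤ η + η := by
            have e : (ρ : ℂ) ^ d = (w - κ) - (w - ((ρ : ℂ) ^ d + κ)) := by ring
            rw [e]
            exact (norm_sub_le _ _).trans (add_le_add h3 h2)
          rw [norm_pow, Complex.norm_real, Real.norm_eq_abs, abs_of_nonneg (by linarith)] at h4
          linarith
        · exact hop U (subset_univ _) hUo
      have hclosed : closure (h '' U) ∩ ball 0 ρ ⊆ h '' U := by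
        rintro w ⟨hw, hwρ⟩
        have hUb : IsCompact (closure U) :=
          (isCompact_closedBall (0 : ℂ) ρ).of_isClosed_subset isClosed_closure
            (hUV.trans ball_subset_closedBall)
        have h2 : closure (h '' U) ⊆ h '' closure U := by
          apply closure_minimal (image_mono subset_closure)
          exact (hUb.image hhc).isClosed
        obtain ⟨z, hz, rfl⟩ := h2 hw
        obtain ⟨h3, h4⟩ := hUcl hz
        refine ⟨z, ?_, rfl⟩
        rw [hU]
        rw [mem_ball_zero_iff] at hwρ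
        exact ⟨hlt z (hsmall z h3 h4), hwρ⟩
      have hpre : IsPreconnected (ball (0 : ℂ) ρ) := (convex_ball _ _).isPreconnected
      have hne : (ball (0 : ℂ) ρ ∩ h '' U).Nonempty := by
        refine ⟨h 0, ?_, 0, h00, rfl⟩
        rw [hU] at h00
        rw [mem_ball_zero_iff]
        exact h00.2
      by_contra hcon
      rw [not_subset] at hcon
      obtain ⟨w, hw1, hw2⟩ := hcon
      have h5 := hpre (h '' U) (closure (h '' U))ᶜ hopen isClosed_closure.isOpen_compl (by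
        intro x hx
        by_cases hx2 : x ∈ closure (h '' U)
        · exact Or.inl (hclosed ⟨hx2, hx⟩)
        · exact Or.inr hx2) hne ⟨w, hw1, fun h6 => hw2 (hclosed ⟨h6, hw1⟩)⟩
      obtain ⟨x, -, hx1, hx2⟩ := h5
      exact hx2 (subset_closure hx1)
  refine ⟨hUo, ?_, isOpen_ball, (convex_ball _ _).isPreconnected, hUV, hsurj, hprop, ?_, hcrit, ?_⟩
  · exact (isBounded_ball (x := (0 : ℂ)) (r := ρ)).subset (subset_closure.trans hUV)
  · -- the degree
    intro w hw
    rw [← hsurj] at hw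
    obtain ⟨z₀, hz₀, rfl⟩ := hw
    have hsub : {z | z ∈ U ∧ h z = h z₀} ⊆ ((Polynomial.nthRoots d (z₀ ^ d)).toFinset : Set ℂ) := by
      rintro z ⟨hz, hzz⟩
      rw [hU] at hz hz₀
      rw [Finset.mem_coe, Multiset.mem_toFinset, Polynomial.mem_nthRoots (by omega)]
      rw [hh, re_HH hn, re_HH hn] at hzz
      exact HH_inj (ρ := ρ ^ d) (by linarith) hclose
        (by rw [norm_pow]; exact pow_le_pow_left₀ (norm_nonneg _) hz.1.le d)
        (by rw [norm_pow]; exact pow_le_pow_left₀ (norm_nonneg _) hz₀.1.le d) hzz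
    refine (Set.encard_le_encard hsub).trans ?_
    rw [Set.encard_coe_eq_coe_finsetCard]
    have h6 := (Multiset.toFinset_card_le (Polynomial.nthRoots d (z₀ ^ d))).trans
      (Polynomial.card_nthRoots d (z₀ ^ d))
    exact_mod_cast h6
  · intro z hz hz0
    rw [hU] at hz
    rw [hh, re_HH hn, re_HH hn] at hz0
    have h7 := HH_inj (ρ := ρ ^ d) (by linarith) hclose
      (by rw [norm_pow]; exact pow_le_pow_left₀ (norm_nonneg _) hz.1.le d)
      (by rw [zero_pow (by omega), norm_zero]; positivity) hz0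
    rw [zero_pow (by omega)] at h7
    exact eq_zero_of_pow_eq_zero h7

/-- change of the coordinate -/
theorem PL.scale {g h : ℂ → ℂ} {U V : Set ℂ} (H : PL d g U V) (hm : m ≠ 0)
    (hrel : ∀ z, h (m * z) = m * g z) (hg : Differentiable ℂ g) :
    PL d h ((fun z => m * z) '' U) ((fun z => m * z) '' V) := by
  obtain ⟨e, he⟩ : ∃ e : ℂ ≃ₜ ℂ, e = Homeomorph.mulLeft₀ m hm := ⟨_, rfl⟩
  have hev : ∀ z, e z = m * z := fun z => by rw [he]; rfl
  have hbij : ∀ z, m * (z / m) = z := fun z => by field_simp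
  have hes : ∀ z, e.symm z = z / m := fun z => by
    rw [Homeomorph.symm_apply_eq, hev, hbij]
  have hfun : (fun z => m * z) = e := by
    funext z
    rw [hev]
  rw [hfun]
  have hh0 : h 0 = m * g 0 := by
    have := hrel 0
    rwa [mul_zero] at this
  refine ⟨e.isOpenMap U H.oU, ?_, e.isOpenMap V H.oV, H.pV.image _ e.continuous.continuousOn, ?_, ?_,
    ?_, ?_, ?_, ?_⟩
  · exact (H.bU.isCompact_closure.image e.continuous).isBounded.subset (image_mono subset_closure)
  · rw [← e.image_closure]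
    exact image_mono H.cl
  · rw [← H.im, image_image, image_image]
    apply image_congr
    intro z _
    rw [hev, hrel, hev]
  · intro K hK hKc
    have h2 : {z | z ∈ e '' U ∧ h z ∈ K} = e '' {z | z ∈ U ∧ g z ∈ e.symm '' K} := by
      ext w
      constructor
      · rintro ⟨⟨z, hz, rfl⟩, hw⟩
        refine ⟨z, ⟨hz, h (e z), hw, ?_⟩, rfl⟩
        rw [hev, hrel, hes]
        field_simp
      · rintro ⟨z, ⟨hz, x, hx, hxz⟩, rfl⟩
        refine ⟨⟨z, hz, rfl⟩, ?_⟩
        rw [hev, hrel, ← hxz, hes, hbij]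
        exact hx
    rw [h2]
    apply IsCompact.image _ e.continuous
    apply H.prop
    · rintro _ ⟨x, hx, rfl⟩
      obtain ⟨y, hy, rfl⟩ := hK hx
      rw [e.symm_apply_apply]
      exact hy
    · exact hKc.image e.symm.continuous
  · rintro w ⟨y, hy, rfl⟩
    have h2 : {z | z ∈ e '' U ∧ h z = e y} = e '' {z | z ∈ U ∧ g z = y} := by
      ext w
      constructor
      · rintro ⟨⟨z, hz, rfl⟩, hw⟩
        refine ⟨z, ⟨hz, ?_⟩, rfl⟩
        rw [hev, hrel, hev] at hw
        exact mul_left_cancel₀ hm hw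
      · rintro ⟨z, ⟨hz, hx⟩, rfl⟩
        refine ⟨⟨z, hz, rfl⟩, ?_⟩
        rw [hev, hrel, hx, hev]
    rw [h2, e.injective.encard_image]
    exact H.deg y hy
  · intro w hw hder
    rw [← e.image_closure] at hw
    obtain ⟨z, hz, rfl⟩ := hw
    have h3 : h = fun w => m * g (w / m) := by
      funext w
      rw [← hrel, hbij]
    have h4 : HasDerivAt h (m * (deriv g (e z / m) * (1 / m))) (e z) := by
      rw [h3]
      have h5 : HasDerivAt (fun w : ℂ => w / m) (1 / m) (e z) := (hasDerivAt_id (e z)).div_const m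
      exact ((hg (e z / m)).hasDerivAt.comp (e z) h5).const_mul m
    rw [h4.deriv] at hder
    have h6 : deriv g z = 0 := by
      have h7 : e z / m = z := by rw [hev]; field_simp
      rw [h7] at hder
      have h8 : m * (deriv g z * (1 / m)) = deriv g z := by field_simp
      rw [← h8, hder]
    rw [H.crit z hz h6, hev, mul_zero]
  · rintro w ⟨z, hz, rfl⟩ h0
    rw [hev, hrel, hh0] at h0
    rw [H.tot z hz (mul_left_cancel₀ hm h0), hev, mul_zero]

open Pool.Agent.Results.MP_af9036_an.PerfectZones (f ren Zone)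

/-- open mapping -/
theorem PL.hop {h : ℂ → ℂ} {U V : Set ℂ} (H : PL d h U V) (hh : Differentiable ℂ h)
    (h0 : (0 : ℂ) ∈ U) (O : Set ℂ) (hO : IsOpen O) : IsOpen (h '' O) := by
  have han : AnalyticOnNhd ℂ h univ := hh.differentiableOn.analyticOnNhd isOpen_univ
  rcases han.is_constant_or_isOpen isPreconnected_univ with ⟨w, hw⟩ | hop
  · exfalso
    obtain ⟨ε, hε, hsub⟩ := Metric.isOpen_iff.1 H.oU 0 h0
    have h1 : ((ε / 2 : ℝ) : ℂ) ∈ U := hsub (by
      rw [mem_ball_zero_iff, Complex.norm_real, Real.norm_eq_abs, abs_of_pos (half_pos hε)]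
      linarith)
    have h2 := H.tot _ h1 (by rw [hw _ (mem_univ _), hw _ (mem_univ _)])
    have h3 : ε / 2 = 0 := by exact_mod_cast h2
    linarith
  · exact hop O (subset_univ _) hO

/-- polynomial-like restrictions have connected filled Julia sets -/
theorem PL.renC {c : ℂ} {p : ℕ} (hp : 1 ≤ p) {U V : Set ℂ} (H : PL d ((f d c)^[p]) U V)
    (h0 : ∀ j : ℕ, (f d c)^[p * j] 0 ∈ U) :
    Pool.Agent.N253.NR.RenC d c p ∧ c ∈ multibrotSet d := by
  have h1 : (0 : ℂ) ∈ Pool.Agent.N253.NR.TR d c p U := h0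
  have hdiff : Differentiable ℂ ((f d c)^[p]) := Pool.Agent.N772.PC.diff_fc d p c
  have h00 : (0 : ℂ) ∈ U := h0 0
  have h2 : IsPreconnected (Pool.Agent.N253.NR.TR d c p U) := by
    have h3 := H.filled (H.hop hdiff h00) hdiff.continuous (fun i => by
      rw [← Function.iterate_mul]
      exact h0 i)
    have h4 : Pool.Agent.N253.NR.TR d c p U = {z : ℂ | ∀ i : ℕ, ((f d c)^[p])^[i] z ∈ U} := by
      ext z
      simp only [mem_ofPred_eq, ← Function.iterate_mul]
      exact Iff.rfl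
    rw [h4]
    exact h3
  have h5 : Pool.Agent.Y736.RN.PolyLike d ((f d c)^[p]) U := by
    refine ⟨H.oU, H.bU, ?_, ?_, ?_⟩
    · rw [H.im]
      exact H.cl
    · rw [H.im]
      exact H.prop
    · rw [H.im]
      exact H.deg
  exact ⟨⟨U, h5, h1, h2⟩, Pool.Agent.N253.NR.TR_KK hp H.bU h1⟩

/-- the points of a perfect copy are renormalizable -/
theorem PL_of_perf (hd : 2 ≤ d) : ∀ (n : ℕ) (c l m : ℂ),
    Perf d (1 / (4 * (4 + 3 ^ d + d * 5 ^ d))) n c l m → ∀ x ∈ KK d n c l m,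
      PL d ((f d x)^[n]) {z | ‖z‖ < 5 * ‖m‖ ∧ ‖(f d x)^[n] z‖ < 5 * ‖m‖} (ball 0 (5 * ‖m‖)) ∧
      ∀ j : ℕ, (f d x)^[n * j] 0 ∈ {z | ‖z‖ < 5 * ‖m‖ ∧ ‖(f d x)^[n] z‖ < 5 * ‖m‖} := by
  have h3 : (0 : ℝ) < 3 ^ d := by positivity
  have h5 : (0 : ℝ) < 5 ^ d := by positivity
  have hdR : (2 : ℝ) ≤ d := by exact_mod_cast hd
  obtain ⟨C, hC⟩ : ∃ C : ℝ, C = 4 * (4 + 3 ^ d + d * 5 ^ d) := ⟨_, rfl⟩
  have hd5 : (5 : ℝ) ^ d ≤ d * 5 ^ d := by nlinarith
  have hC0 : 0 < C := by rw [hC]; positivity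
  intro n c l m hP x hx
  rw [← hC] at hP
  obtain ⟨hn0, hper, hsc, ⟨S, hS, hZ⟩, -⟩ := hP
  rw [one_div_one_div] at hS
  have hl : l ≠ 0 := hsc.1
  have hm : m ≠ 0 := hsc.2.1
  have hmn : 0 < ‖m‖ := norm_pos_iff.2 hm
  obtain ⟨hx1, hx2⟩ := hx
  obtain ⟨κ, hκ⟩ : ∃ κ, κ = (x - c) / l := ⟨_, rfl⟩
  have hx' : c + l * κ = x := by rw [hκ]; field_simp; ring
  rw [← hκ] at hx1
  rw [← hκ, hx'] at hx2
  have hC1 : 1 / C * (4 + 5 ^ d) ≤ 1 / 4 := by
    rw [div_mul_eq_mul_div, div_le_iff₀ hC0, hC]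
    linarith
  have hC2 : 1 / C * (d * 5 ^ d) ≤ 1 / 4 := by
    rw [div_mul_eq_mul_div, div_le_iff₀ hC0, hC]
    linarith
  have hC3 : 1 / C * 3 ^ d ≤ 1 := by
    rw [div_mul_eq_mul_div, div_le_iff₀ hC0, hC]
    have : (0 : ℝ) < d * 5 ^ d := by positivity
    linarith
  have hS2 : 4 + 3 ^ d + 5 ^ d ≤ S := by
    have : 4 + 3 ^ d + (d : ℝ) * 5 ^ d ≤ C := by
      rw [hC]
      have : (0 : ℝ) < d * 5 ^ d := by positivity
      linarith
    linarith
  have hκ4 : ‖κ‖ ≤ 4 := by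
    obtain ⟨g1, -, -⟩ := hZ κ 0 (by linarith) (by
      rw [norm_zero, zero_pow (by omega)]
      linarith)
    rw [zero_pow (by omega), zero_add, norm_zero, zero_pow (by omega), add_zero] at g1
    have g2 : ‖ren d n c l m κ 0‖ ≤ 3 := by
      have g3 := hx2 1
      unfold ren
      rw [hx', mul_zero, norm_div, div_le_iff₀ hmn]
      rwa [mul_one] at g3
    have g4 : 1 / C * ‖κ‖ ≤ 1 := le_trans (by gcongr) hC3
    have g5 := norm_sub_norm_le κ (ren d n c l m κ 0)
    rw [norm_sub_rev] at g5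
    linarith
  have hP2 := polylike2 (d := d) (n := n) (c := c) (l := l) (m := m) (κ := κ) hd hn0 (ρ := 5)
    (η := 1 / 4) (by norm_num) le_rfl (by linarith) (fun z hz => by
      have g0 : ‖z‖ ^ d ≤ 5 ^ d := by gcongr
      obtain ⟨g1, -, -⟩ := hZ κ z (by linarith) (by linarith)
      refine g1.trans (le_trans ?_ hC1)
      gcongr) (fun z hz => by
      have g0 : ‖z‖ ^ d ≤ 5 ^ d := by gcongr
      obtain ⟨-, g1, -⟩ := hZ κ z (by linarith) (by linarith)
      refine g1.trans (le_trans ?_ hC2)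
      have g2 : ‖z‖ ^ (d - 1) ≤ 5 ^ d := by
        calc ‖z‖ ^ (d - 1) ≤ 5 ^ (d - 1) := by gcongr
          _ ≤ 5 ^ d := pow_le_pow_right₀ (by norm_num) (by omega)
      gcongr) hm
  have hrel : ∀ z, (f d x)^[n] (m * z) = m * Pool.Agent.N772.PC.re d n c l m κ z := by
    intro z
    unfold Pool.Agent.N772.PC.re
    rw [hx']
    have : ∀ w : ℂ, m * (w / m) = w := fun w => by field_simp
    rw [this]
    rfl
  have hS3 := hP2.scale hm hrel (re_diff hm)
  have e1 : (fun z => m * z) '' ball (0 : ℂ) 5 = ball 0 (5 * ‖m‖) := by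
    ext w
    constructor
    · rintro ⟨z, hz, rfl⟩
      rw [mem_ball_zero_iff] at hz ⊢
      rw [norm_mul, mul_comm]
      gcongr
    · intro hw
      rw [mem_ball_zero_iff] at hw
      refine ⟨w / m, ?_, ?_⟩
      · rw [mem_ball_zero_iff, norm_div, div_lt_iff₀ hmn]
        exact hw
      · show m * (w / m) = w
        field_simp
  have e2 : (fun z => m * z) '' {z | ‖z‖ < 5 ∧ ‖re d n c l m κ z‖ < 5} =
      {z | ‖z‖ < 5 * ‖m‖ ∧ ‖(f d x)^[n] z‖ < 5 * ‖m‖} := by
    ext w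
    constructor
    · rintro ⟨z, ⟨hz1, hz2⟩, rfl⟩
      refine ⟨?_, ?_⟩
      · show ‖m * z‖ < 5 * ‖m‖
        rw [norm_mul, mul_comm]
        gcongr
      · show ‖(f d x)^[n] (m * z)‖ < 5 * ‖m‖
        rw [hrel, norm_mul, mul_comm]
        gcongr
    · rintro ⟨hw1, hw2⟩
      have hw3 : m * (w / m) = w := by field_simp
      refine ⟨w / m, ⟨?_, ?_⟩, hw3⟩
      · rw [norm_div, div_lt_iff₀ hmn]
        exact hw1
      · have h6 := hrel (w / m)
        rw [hw3] at h6
        rw [h6, norm_mul, mul_comm] at hw2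
        exact lt_of_mul_lt_mul_right hw2 hmn.le
  rw [e1, e2] at hS3
  refine ⟨hS3, fun j => ⟨?_, ?_⟩⟩
  · have := hx2 j
    linarith
  · have := hx2 (j + 1)
    rw [mul_add, mul_one, add_comm, Function.iterate_add_apply] at this
    linarith

end

end Pool.Agent.H206
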