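import Pool.Agent.H206.ThinH
import Pool.Graph.R_pool_sql_team_seeded_63374d34.Results.MP_fcb70f_an.PerfectCopies

set_option autoImplicit false

/-! # Areas of rescaled sets -/

namespace Pool.Agent.H206.Thin

open Filter Topology Set Metric MeasureTheory
open N62a1eb23

/-- the area of an affine image -/
theorem vol_aff {l : ℂ} (hl : l ≠ 0) (c : ℂ) {S : Set ℂ} (hS : MeasurableSet S) :
    volume ((fun κ => c + l * κ) '' S) = ENNReal.ofReal (‖l‖ ^ 2) * volume S := by
  have hd : ∀ z : ℂ, HasDerivAt (fun κ => c + l * κ) l z := by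
    intro z
    simpa using ((hasDerivAt_id z).const_mul l).const_add c
  have h3 := lintegral_abs_det_fderiv_eq_addHaar_image (volume : Measure ℂ) hS
    (f := fun κ => c + l * κ)
    (f' := fun z => (ContinuousLinearMap.toSpanSingleton ℂ l).restrictScalars ℝ)
    (fun z _ => ((hd z).hasFDerivAt.restrictScalars ℝ).hasFDerivWithinAt)
    (fun x _ y _ hxy => by
      have h4 : l * x = l * y := add_left_cancel hxy
      exact mul_left_cancel₀ hl h4)
  rw [← h3, ← setLIntegral_const]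
  refine setLIntegral_congr_fun hS fun x _ => ?_
  rw [Pool.Agent.H713R2.det_mul_real, abs_of_nonneg (by positivity)]

/-- the part of a set in a disc, rescaled -/
theorem part_eq {l : ℂ} (hl : l ≠ 0) (c : ℂ) (A : Set ℂ) (R : ℝ) :
    (fun κ => c + l * κ) '' {κ | ‖κ‖ ≤ R ∧ c + l * κ ∈ A} = A ∩ closedBall c (‖l‖ * R) := by
  have hln : 0 < ‖l‖ := norm_pos_iff.2 hl
  ext z
  simp only [mem_image, mem_inter_iff, mem_closedBall, dist_eq_norm, mem_ofPred_eq]
  constructor
  · rintro ⟨κ, ⟨h1, h2⟩, rfl⟩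
    refine ⟨h2, ?_⟩
    rw [add_sub_cancel_left, norm_mul]
    gcongr
  · rintro ⟨h1, h2⟩
    have h3 : c + l * ((z - c) / l) = z := by
      rw [mul_div_cancel₀ _ hl, add_sub_cancel]
    refine ⟨(z - c) / l, ⟨?_, by rwa [h3]⟩, h3⟩
    rw [norm_div, div_le_iff₀ hln, mul_comm]
    exact h2

/-- the neighbourhoods of a compact set -/
theorem thick_vol {K : Set ℂ} (hK : IsCompact K) {η : ℝ} (hη : 0 < η) :
    ∃ ε₀ : ℝ, 0 < ε₀ ∧ volume (thickening ε₀ K) ≤ volume K + ENNReal.ofReal η := by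
  have h1 : Tendsto (fun r => volume (thickening r K)) (𝓝[>] 0) (𝓝 (volume K)) := by
    apply tendsto_measure_thickening_of_isClosed _ hK.isClosed
    exact ⟨1, one_pos, (hK.isBounded.thickening.measure_lt_top).ne⟩
  have h2 : volume K < volume K + ENNReal.ofReal η :=
    ENNReal.lt_add_right hK.measure_lt_top.ne (by simpa using hη)
  have h3 := h1.eventually (gt_mem_nhds h2)
  have h4 : ∀ᶠ r : ℝ in 𝓝[>] 0, 0 < r := self_mem_nhdsWithin
  obtain ⟨r, hr1, hr2⟩ := (h3.and h4).exists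
  exact ⟨r, hr2, hr1.le⟩

/-- the interior approximation of a bounded open set -/
theorem inner_vol {H : Set ℂ} (hH : IsOpen H) (hb : H ⊆ closedBall 0 2) {η : ℝ} (hη : 0 < η) :
    ∃ ε₀ : ℝ, 0 < ε₀ ∧ ∀ ε' ≤ ε₀, volume H ≤ volume {κ | ball κ ε' ⊆ H} + ENNReal.ofReal η := by
  obtain ⟨K, hK⟩ : ∃ K, K = closedBall (0 : ℂ) 3 \ H := ⟨_, rfl⟩
  have hKc : IsCompact K := by
    rw [hK]
    exact (isCompact_closedBall (0 : ℂ) 3).diff hH
  obtain ⟨ε₀, hε₀, h1⟩ := thick_vol hKc hη
  refine ⟨min ε₀ 1, lt_min hε₀ one_pos, fun ε' hε' => ?_⟩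
  have h2 : H ⊆ {κ | ball κ ε' ⊆ H} ∪ (thickening ε₀ K \ K) := by
    intro κ hκ
    by_cases h3 : ball κ ε' ⊆ H
    · left
      exact h3
    · right
      refine ⟨?_, fun h4 => ?_⟩
      · rw [not_subset] at h3
        obtain ⟨y, hy, hyH⟩ := h3
        rw [mem_thickening_iff]
        rw [mem_ball, dist_comm] at hy
        have h5 := hb hκ
        rw [mem_closedBall, dist_zero_right] at h5
        refine ⟨y, ?_, hy.trans_le (hε'.trans (min_le_left _ _))⟩
        rw [hK]
        refine ⟨?_, hyH⟩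
        rw [mem_closedBall, dist_zero_right]
        have h6 : ‖y‖ ≤ ‖y - κ‖ + ‖κ‖ := by
          have := norm_add_le (y - κ) κ
          rwa [sub_add_cancel] at this
        rw [dist_comm, dist_eq_norm] at hy
        have h7 : ε' ≤ 1 := hε'.trans (min_le_right _ _)
        linarith
      · rw [hK] at h4
        exact h4.2 hκ
  refine (measure_mono h2).trans ((measure_union_le _ _).trans ?_)
  gcongr
  rw [measure_sdiff (self_subset_thickening hε₀ K) hKc.measurableSet.nullMeasurableSet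
    hKc.measure_lt_top.ne, tsub_le_iff_left]
  exact h1

end Pool.Agent.H206.Thin
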