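import Pool.Agent.H206.LimF
import Pool.Agent.H206.Flt
import Pool.Agent.H206.ThinI

set_option autoImplicit false

/-! # Parameters in infinitely many perfect copies -/

namespace Pool.Agent.H206

open Complex Metric Set Filter Topology MeasureTheory
open N62a1eb23
open Pool.Agent.Results.MP_af9036_an.PerfectZones
open Pool.Agent.H713R2 (IsExteriorMap)

theorem KK_dist {d n : ℕ} {c l m x : ℂ} (hl : l ≠ 0) (hx : x ∈ KK d n c l m) :
    ‖x - c‖ ≤ 3 ^ d * ‖l‖ := by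
  have h2 : ‖(x - c) / l‖ ≤ 3 ^ d := hx.1
  rwa [norm_div, div_le_iff₀ (norm_pos_iff.2 hl)] at h2

/-- the scales decrease -/
theorem scale_le {d : ℕ} (hd : 2 ≤ d) {ε : ℝ} (hε : 0 < ε) (hε3 : 3 * 3 ^ d ≤ 1 / ε) {n n' : ℕ}
    {c l m c' l' m' x : ℂ} (h : Perf d ε n c l m) (h' : Perf d ε n' c' l' m') (hnn : n < n')
    (hx : x ∈ KK d n c l m) (hx' : x ∈ KK d n' c' l' m') : ‖l'‖ ≤ ‖l‖ / 2 := by
  have hl := h.sc.1
  have hl' := h'.sc.1
  have hm' := h'.sc.2.1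
  have hln : 0 < ‖l‖ := norm_pos_iff.2 hl
  have hln' : 0 < ‖l'‖ := norm_pos_iff.2 hl'
  have hmn' : 0 < ‖m'‖ := norm_pos_iff.2 hm'
  have h3 : (0 : ℝ) < 3 ^ d := by positivity
  obtain ⟨S, hS, hZ⟩ := h'.zone
  have hS3 : 3 * 3 ^ d ≤ S := hε3.trans hS
  have d1 := KK_dist hl hx
  have d2 := KK_dist hl' hx'
  have d3 : ‖c - c'‖ ≤ 3 ^ d * ‖l‖ + 3 ^ d * ‖l'‖ := by
    have e : c - c' = (x - c') - (x - c) := by ring
    rw [e]
    exact (norm_sub_le _ _).trans (by linarith)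
  by_contra hcon
  push Not at hcon
  have d4 : ‖(c - c') / l'‖ ≤ S := by
    rw [norm_div, div_le_iff₀ hln']
    calc ‖c - c'‖ ≤ 3 ^ d * ‖l‖ + 3 ^ d * ‖l'‖ := d3
      _ ≤ 3 ^ d * (2 * ‖l'‖) + 3 ^ d * ‖l'‖ := by gcongr; linarith
      _ = 3 * 3 ^ d * ‖l'‖ := by ring
      _ ≤ S * ‖l'‖ := by gcongr
  obtain ⟨-, -, g⟩ := hZ ((c - c') / l') 0 d4 (by
    rw [norm_zero, zero_pow (by omega)]
    linarith)
  have g1 := g n h.n0 hnn
  have e1 : c' + l' * ((c - c') / l') = c := by field_simp; ring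
  rw [e1, mul_zero, h.zero, norm_zero] at g1
  have : 0 < S * ‖m'‖ / 6 := by
    have : 0 < S := by linarith
    positivity
  linarith

/-- the parameters in `ε`-perfect copies of infinitely many periods -/
def PR (d : ℕ) (ε : ℝ) : Set ℂ :=
  {x | {n : ℕ | ∃ c l m : ℂ, Perf d ε n c l m ∧ x ∈ KK d n c l m}.Infinite}

/-- there are small copies -/
theorem PR_small {d : ℕ} (hd : 2 ≤ d) {ε : ℝ} (hε : 0 < ε) (hε3 : 3 * 3 ^ d ≤ 1 / ε) {x : ℂ}
    (hx : x ∈ PR d ε) {η : ℝ} (hη : 0 < η) (N : ℕ) :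
    ∃ (n : ℕ) (c l m : ℂ), N ≤ n ∧ Perf d ε n c l m ∧ x ∈ KK d n c l m ∧ ‖l‖ < η := by
  have key : ∀ k : ℕ, ∃ (n : ℕ) (c l m : ℂ), k ≤ n ∧ Perf d ε n c l m ∧ x ∈ KK d n c l m := by
    intro k
    obtain ⟨n, ⟨c, l, m, h1, h2⟩, hn⟩ := hx.exists_gt k
    exact ⟨n, c, l, m, hn.le, h1, h2⟩
  obtain ⟨n₀, c₀, l₀, m₀, -, hP₀, hx₀⟩ := key 0
  have hind : ∀ k : ℕ, ∃ (n : ℕ) (c l m : ℂ), k ≤ n ∧ Perf d ε n c l m ∧ x ∈ KK d n c l m ∧
      ‖l‖ ≤ ‖l₀‖ * (1 / 2) ^ k := by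
    intro k
    induction k with
    | zero => exact ⟨n₀, c₀, l₀, m₀, Nat.zero_le _, hP₀, hx₀, by simp⟩
    | succ k ih =>
      obtain ⟨n, c, l, m, h1, h2, h3, h4⟩ := ih
      obtain ⟨n', c', l', m', g1, g2, g3⟩ := key (n + 1)
      refine ⟨n', c', l', m', by omega, g2, g3, ?_⟩
      have := scale_le hd hε hε3 h2 g2 (by omega) h3 g3
      calc ‖l'‖ ≤ ‖l‖ / 2 := this
        _ ≤ ‖l₀‖ * (1 / 2) ^ k / 2 := by gcongr
        _ = ‖l₀‖ * (1 / 2) ^ (k + 1) := by rw [pow_succ]; ring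
  have hlim : Tendsto (fun k : ℕ => ‖l₀‖ * (1 / 2 : ℝ) ^ k) atTop (𝓝 0) := by
    have := (tendsto_pow_atTop_nhds_zero_of_lt_one (r := (1 / 2 : ℝ)) (by norm_num)
      (by norm_num)).const_mul ‖l₀‖
    simpa using this
  obtain ⟨k, hk, hkN⟩ := ((hlim.eventually (gt_mem_nhds hη)).and (eventually_ge_atTop N)).exists
  obtain ⟨n, c, l, m, h1, h2, h3, h4⟩ := hind k
  exact ⟨n, c, l, m, hkN.trans h1, h2, h3, lt_of_le_of_lt h4 hk⟩

/-- the component is small -/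
theorem comp_small {d n : ℕ} (hd : 2 ≤ d) {c l m : ℂ} {ε : ℝ} (h : Perf d ε n c l m) (hε : 0 < ε)
    {b : ℂ} (hb : b ∈ component d c) : ‖b - c‖ ≤ 3 * ‖l‖ := by
  obtain ⟨τ, hτ, hSh, -⟩ := h.fine
  obtain ⟨w, hw, hbw⟩ := hSh.2 b hb
  have hdR : (2 : ℝ) ≤ d := by exact_mod_cast hd
  have hτ0 : 0 < τ := lt_of_lt_of_le (by positivity) hτ
  have hw1 : ‖w‖ ≤ 1 := by
    by_contra hcon
    push Not at hcon
    have : 1 ≤ ‖w‖ ^ (d - 1) := one_le_pow₀ hcon.le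
    nlinarith
  have h1 : ‖w - w ^ d‖ ≤ 2 := by
    refine (norm_sub_le _ _).trans ?_
    rw [norm_pow]
    have : ‖w‖ ^ d ≤ 1 := pow_le_one₀ (norm_nonneg _) hw1
    linarith
  have h2 : Real.exp (-τ) ≤ 1 := Real.exp_le_one_iff.2 (by linarith)
  have h3 : b - c = (b - (c + l * (w - w ^ d))) + l * (w - w ^ d) := by ring
  rw [h3]
  refine (norm_add_le _ _).trans ?_
  rw [norm_mul]
  calc ‖b - (c + l * (w - w ^ d))‖ + ‖l‖ * ‖w - w ^ d‖ ≤ ‖l‖ * 1 + ‖l‖ * 2 := by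
        refine add_le_add (hbw.trans (by gcongr)) (by gcongr)
    _ = 3 * ‖l‖ := by ring

/-- **No interior.** -/
theorem PR_front {d : ℕ} (hd : 2 ≤ d) {ε : ℝ} (hε : 0 < ε) (hε3 : 3 * 3 ^ d ≤ 1 / ε) {x : ℂ}
    (hx : x ∈ PR d ε) (hxM : x ∈ multibrotSet d) : x ∈ frontier (multibrotSet d) := by
  rw [(Pool.Agent.H712R2.isCompact_multibrot hd).isClosed.frontier_eq]
  refine ⟨hxM, fun hint => ?_⟩
  obtain ⟨η, hη, hsub⟩ := Metric.isOpen_iff.1 isOpen_interior x hint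
  have hball : IsPreconnected (ball x η) := (convex_ball x η).isPreconnected
  have h3 : (0 : ℝ) < 3 ^ d := by positivity
  obtain ⟨n, c, l, m, -, hP, hxK, hl⟩ := PR_small hd hε hε3 hx
    (η := η / (2 * (3 ^ d + 4))) (by positivity) 0
  rw [lt_div_iff₀ (by positivity)] at hl
  have hl0 := norm_nonneg l
  have d1 := KK_dist hP.sc.1 hxK
  have hc : c ∈ ball x η := by
    rw [mem_ball, dist_eq_norm, norm_sub_rev]
    nlinarith
  obtain ⟨y, hy⟩ : ∃ y : ℂ, y = x + ((η / 2 : ℝ) : ℂ) := ⟨_, rfl⟩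
  have hyx : ‖y - x‖ = η / 2 := by
    rw [hy, add_sub_cancel_left, Complex.norm_real, Real.norm_eq_abs, abs_of_pos (half_pos hη)]
  have hyb : y ∈ ball x η := by
    rw [mem_ball, dist_eq_norm, hyx]
    linarith
  have hcomp : y ∈ component d c := by
    unfold component
    exact hball.subset_connectedComponentIn hc hsub hyb
  have h4 := comp_small hd hP hε hcomp
  have h5 : ‖y - x‖ ≤ ‖y - c‖ + ‖x - c‖ := by
    have e : y - x = (y - c) - (x - c) := by ring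
    rw [e]
    exact norm_sub_le _ _
  nlinarith

/-- the hole in the component -/
theorem hole {d : ℕ} (hd : 2 ≤ d) : ∃ δ : ENNReal, 0 < δ ∧ δ ≠ ⊤ ∧ ∀ (n : ℕ) (c l m : ℂ) (ε : ℝ),
    0 < ε → ε ≤ 1 → Perf d ε n c l m → ∃ A : Set ℂ, MeasurableSet A ∧ A ⊆ component d c ∧
      A ⊆ closedBall c (2 * ‖l‖) ∧ volume A = ENNReal.ofReal (‖l‖ ^ 2) * δ := by
  have hdR : (2 : ℝ) ≤ d := by exact_mod_cast hd
  obtain ⟨w₀, hw₀⟩ : ∃ w₀ : ℝ, w₀ = 1 / (4 * d) := ⟨_, rfl⟩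
  have hw₀0 : 0 < w₀ := by rw [hw₀]; positivity
  have hw₀1 : w₀ ≤ 1 := by
    rw [hw₀, div_le_one (by positivity)]
    linarith
  have hw₀d : d * w₀ ^ (d - 1) ≤ 1 / 4 := by
    have h1 : w₀ ^ (d - 1) ≤ w₀ ^ 1 := pow_le_pow_of_le_one hw₀0.le hw₀1 (by omega)
    rw [pow_one] at h1
    calc d * w₀ ^ (d - 1) ≤ d * w₀ := by gcongr
      _ = 1 / 4 := by rw [hw₀]; field_simp
  obtain ⟨φ, hφ⟩ : ∃ φ : ℂ → ℂ, φ = fun w => w - w ^ d := ⟨_, rfl⟩
  have hφd : Differentiable ℂ φ := by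
    rw [hφ]
    fun_prop
  have hopen : IsOpen (φ '' ball 0 w₀) := by
    have han : AnalyticOnNhd ℂ φ univ := hφd.differentiableOn.analyticOnNhd isOpen_univ
    rcases han.is_constant_or_isOpen isPreconnected_univ with ⟨w, hw⟩ | hop
    · exfalso
      have h1 := hw 0 (mem_univ _)
      have h2 := hw 2 (mem_univ _)
      rw [← h1, hφ] at h2
      simp only [zero_pow (by omega : d ≠ 0), sub_zero] at h2
      have h3 : ‖(2 : ℂ) ^ d‖ = ‖(2 : ℂ)‖ := congrArg norm (sub_eq_zero.1 h2).symm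
      rw [norm_pow, Complex.norm_ofNat] at h3
      have h4 : (2 : ℝ) ^ 2 ≤ 2 ^ d := pow_le_pow_right₀ (by norm_num) hd
      norm_num at h3 h4
      linarith
    · exact hop _ (subset_univ _) isOpen_ball
  have hφ2 : φ '' ball 0 w₀ ⊆ closedBall 0 2 := by
    rintro _ ⟨w, hw, rfl⟩
    rw [mem_ball_zero_iff] at hw
    rw [mem_closedBall_zero_iff, hφ]
    refine (norm_sub_le _ _).trans ?_
    rw [norm_pow]
    have : ‖w‖ ^ d ≤ 1 := pow_le_one₀ (norm_nonneg _) (hw.le.trans hw₀1)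
    linarith
  refine ⟨volume (φ '' ball 0 w₀), ?_, ?_, fun n c l m ε hε hε1 hP => ?_⟩
  · exact hopen.measure_pos _ ((nonempty_ball.2 hw₀0).image φ)
  · exact ((measure_mono hφ2).trans_lt measure_closedBall_lt_top).ne
  · have hl := hP.sc.1
    obtain ⟨τ, hτ, hSh, -⟩ := hP.fine
    have hτ1 : 1 ≤ τ := by
      have : 1 ≤ 1 / ε := by rw [le_div_iff₀ hε]; linarith
      linarith
    have hexp : Real.exp (-(τ / 2)) ≤ 3 / 4 := by
      have h1 : Real.exp (-(τ / 2)) ≤ Real.exp (-(1 / 2)) := Real.exp_le_exp.2 (by linarith)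
      have h2 : 1 / 2 + 1 ≤ Real.exp (1 / 2) := Real.add_one_le_exp _
      have h3 : Real.exp (-(1 / 2)) ≤ 3 / 4 := by
        rw [Real.exp_neg]
        calc (Real.exp (1 / 2))⁻¹ ≤ (1 / 2 + 1)⁻¹ := by gcongr
          _ ≤ 3 / 4 := by norm_num
      linarith
    obtain ⟨A, hA⟩ : ∃ A : Set ℂ, A = (fun z => c + l * z) '' (φ '' ball 0 w₀) := ⟨_, rfl⟩
    have hAv : volume A = ENNReal.ofReal (‖l‖ ^ 2) * volume (φ '' ball 0 w₀) := by
      rw [hA]
      exact Thin.vol_aff hl c hopen.measurableSet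
    refine ⟨A, ?_, ?_, ?_, hAv⟩
    · have h1 : IsOpen A := by
        rw [hA]
        have h2 : (fun z : ℂ => c + l * z) = ((Homeomorph.mulLeft₀ l hl).trans
            (Homeomorph.addLeft c)) := by
          funext z
          rfl
        rw [h2]
        exact (Homeomorph.isOpenMap _) _ hopen
      exact h1.measurableSet
    · rw [hA]
      rintro _ ⟨_, ⟨w, hw, rfl⟩, rfl⟩
      rw [mem_ball_zero_iff] at hw
      have h1 := (hSh.1 w (by
        have h2 : d * ‖w‖ ^ (d - 1) ≤ d * w₀ ^ (d - 1) := by gcongr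
        linarith)).1
      rw [hφ]
      exact h1
    · rw [hA]
      rintro _ ⟨y, hy, rfl⟩
      have h1 := hφ2 hy
      rw [mem_closedBall_zero_iff] at h1
      show c + l * y ∈ _
      rw [mem_closedBall, dist_eq_norm, add_sub_cancel_left, norm_mul, mul_comm]
      gcongr

/-- **Measure zero.** -/
theorem PR_null {d : ℕ} (hd : 2 ≤ d) {ε : ℝ} (hε : 0 < ε) (hε3 : 3 * 3 ^ d ≤ 1 / ε)
    (hM : PR d ε ⊆ multibrotSet d) : volume (PR d ε) = 0 := by
  have hε1 : ε ≤ 1 := by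
    have h3 : (1 : ℝ) ≤ 3 ^ d := one_le_pow₀ (by norm_num)
    have h4 : 1 ≤ 1 / ε := by linarith
    rwa [le_div_iff₀ hε, one_mul] at h4
  obtain ⟨δ, hδ0, hδt, H⟩ := hole hd
  have hae := Besicovitch.ae_tendsto_measure_inter_div (volume : Measure ℂ) (PR d ε)
  have h0 : volume.restrict (PR d ε) {x | ¬ Tendsto
      (fun r => volume (PR d ε ∩ closedBall x r) / volume (closedBall x r)) (𝓝[>] 0) (𝓝 1)} = 0 := hae
  rw [Measure.restrict_apply_superset] at h0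
  · exact h0
  intro x hx hlim
  obtain ⟨C, hC⟩ : ∃ C : ℝ, C = 3 ^ d + 2 := ⟨_, rfl⟩
  have hC0 : 0 < C := by rw [hC]; positivity
  have hpi := Real.pi_pos
  obtain ⟨κ, hκ⟩ : ∃ κ : ENNReal, κ = δ / ENNReal.ofReal (C ^ 2 * Real.pi) := ⟨_, rfl⟩
  have hκ0 : 0 < κ := by
    rw [hκ]
    exact ENNReal.div_pos hδ0.ne' ENNReal.ofReal_ne_top
  have hlim2 : Tendsto (fun r => volume (PR d ε ∩ closedBall x r) / volume (closedBall x r) + κ)
      (𝓝[>] 0) (𝓝 (1 + κ)) := hlim.add_const κ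
  have h1κ : 1 < 1 + κ := ENNReal.lt_add_right ENNReal.one_ne_top hκ0.ne'
  have hev := hlim2.eventually (lt_mem_nhds h1κ)
  obtain ⟨η, hη, hsub⟩ := mem_nhdsGT_iff_exists_Ioo_subset.1 hev
  have hη' : (0 : ℝ) < η := hη
  obtain ⟨n, c, l, m, -, hP, hxK, hl⟩ := PR_small hd hε hε3 hx (η := η / C) (by positivity) 0
  rw [lt_div_iff₀ hC0] at hl
  have hln : 0 < ‖l‖ := norm_pos_iff.2 hP.sc.1
  obtain ⟨A, hAm, hAc, hAb, hAv⟩ := H n c l m ε hε hε1 hP
  have d1 := KK_dist hP.sc.1 hxK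
  have hr : 1 < volume (PR d ε ∩ closedBall x (‖l‖ * C)) / volume (closedBall x (‖l‖ * C)) + κ :=
    hsub ⟨by positivity, hl⟩
  have hV : volume (closedBall x (‖l‖ * C)) = ENNReal.ofReal (‖l‖ ^ 2) *
      ENNReal.ofReal (C ^ 2 * Real.pi) := by
    rw [Complex.volume_closedBall, ← ENNReal.ofReal_mul (by positivity)]
    have e1 : (NNReal.pi : ENNReal) = ENNReal.ofReal Real.pi := by
      rw [← NNReal.coe_real_pi, ENNReal.ofReal_coe_nnreal]
    rw [e1, ← ENNReal.ofReal_pow (by positivity), ← ENNReal.ofReal_mul (by positivity)]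
    congr 1
    ring
  have hV0 : volume (closedBall x (‖l‖ * C)) ≠ 0 := by
    rw [hV]
    positivity
  have hVt : volume (closedBall x (‖l‖ * C)) ≠ ⊤ := measure_closedBall_lt_top.ne
  have hAsub : A ⊆ closedBall x (‖l‖ * C) := by
    intro y hy
    have g1 := hAb hy
    rw [mem_closedBall, dist_eq_norm] at g1 ⊢
    have e : y - x = (y - c) - (x - c) := by ring
    rw [e]
    refine (norm_sub_le _ _).trans ?_
    rw [hC]
    linarith
  have hdis : Disjoint (PR d ε ∩ closedBall x (‖l‖ * C)) A := by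
    rw [Set.disjoint_left]
    rintro y ⟨hy, -⟩ hyA
    have g1 : y ∈ interior (multibrotSet d) := by
      have := hAc hyA
      unfold component at this
      exact connectedComponentIn_subset _ _ this
    exact (PR_front hd hε hε3 hy (hM hy)).2 g1
  have hsum : volume (PR d ε ∩ closedBall x (‖l‖ * C)) + volume A ≤
      volume (closedBall x (‖l‖ * C)) := by
    rw [← measure_union hdis hAm]
    exact measure_mono (union_subset inter_subset_right hAsub)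
  have hκV : κ * volume (closedBall x (‖l‖ * C)) = volume A := by
    rw [hAv, hV, hκ, mul_comm (ENNReal.ofReal (‖l‖ ^ 2)) (ENNReal.ofReal (C ^ 2 * Real.pi)),
      ← mul_assoc, ENNReal.div_mul_cancel (by positivity) ENNReal.ofReal_ne_top, mul_comm]
  rw [← hκV] at hsum
  have hfin : volume (PR d ε ∩ closedBall x (‖l‖ * C)) / volume (closedBall x (‖l‖ * C)) + κ ≤ 1 := by
    have g1 : κ = κ * volume (closedBall x (‖l‖ * C)) / volume (closedBall x (‖l‖ * C)) := by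
      rw [mul_div_assoc, ENNReal.div_self hV0 hVt, mul_one]
    rw [g1, ← ENNReal.add_div]
    exact ENNReal.div_le_of_le_mul (by rw [one_mul]; exact hsum)
  exact absurd hr (not_lt.2 hfin)

end Pool.Agent.H206
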