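import Pool.Agent.H206.LimG

set_option autoImplicit false

/-! # The properties of the limits of towers with prescribed coordinates -/

namespace Pool.Agent.H206

open Complex Metric Set Filter Topology MeasureTheory
open N62a1eb23
open Pool.Agent.Results.MP_af9036_an.PerfectZones
open Pool.Agent.H713R2 (IsExteriorMap)

theorem Limit2.strictMono {d : ℕ} {ψ : ℂ → ℂ} {a : ℕ → ℂ} {x : ℂ} {u : ℕ → ℕ × ℂ × ℂ × ℂ}
    (h : Limit2 d ψ a x u) : StrictMono fun k => (u k).1 := strictMono_nat_of_lt_succ h.lt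

theorem Limit2.fineAt {d : ℕ} {ψ : ℂ → ℂ} {a : ℕ → ℂ} {x : ℂ} {u : ℕ → ℕ × ℂ × ℂ × ℂ}
    (h : Limit2 d ψ a x u) : ∀ η : ℝ, 0 < η → Fine d ψ η {x} := by
  intro η hη
  obtain ⟨k, hk⟩ := exists_nat_gt (1 / η)
  have hk' : 1 / ((k : ℝ) + 1) ≤ η := by
    rw [div_le_iff₀ (by positivity)]
    rw [div_lt_iff₀ hη] at hk
    nlinarith
  obtain ⟨b, ρ, h1, h2, h3, h4, h5, δ, h6, h7⟩ := (h.fine k).fine
  refine ⟨b, ρ, h1, h2, h3.trans hk', fun y hy => h4 (by rw [mem_singleton_iff.1 hy]; exact h.mem k),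
    fun ζ hζ hne y hy z hz => (h5 ζ hζ hne y hy z hz).trans hk', δ, h6,
    fun y hy hyb z hz hzy => ?_⟩
  obtain ⟨S, g1, g2, g3, g4, g5, g6⟩ := h7 y hy hyb z hz hzy
  exact ⟨S, g1, g2, g3, g4, g5, g6.trans (closedBall_subset_closedBall hk')⟩

/-- **Flatness.** -/
theorem Limit2.notBig {d : ℕ} (hd : 2 ≤ d) {ψ : ℂ → ℂ} (hψ : IsExteriorMap (multibrotSet d) ψ)
    {a : ℕ → ℂ} {x : ℂ} {u : ℕ → ℕ × ℂ × ℂ × ℂ} (h : Limit2 d ψ a x u) :
    ∀ κ : ℝ, 0 < κ → ¬ Pool.Agent.Y736.RN.Big ψ κ x := by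
  have hxM : x ∈ multibrotSet d := (Pool.Agent.H712R2.isCompact_multibrot hd).isClosed.frontier_subset
    (front_of_fine h.fineAt)
  apply Pool.Agent.Y736.RN.not_big_of_weak hd hψ hxM
  intro ε hε
  have h34 : (0 : ℝ) < 3 ^ d + 4 ^ d := by positivity
  -- a large level
  obtain ⟨K₁, hK₁⟩ := exists_nat_gt ((3 : ℝ) ^ d + 4 ^ d)
  obtain ⟨K₂, hK₂⟩ := exists_nat_gt (Real.log (4 * (3 ^ d + 4 ^ d)) / ε)
  refine Set.infinite_of_injective_forall_mem (f := fun k => (u (K₁ + K₂ + k)).1)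
    (fun i j hij => ?_) (fun k => ?_)
  · have := h.strictMono.injective hij
    omega
  · obtain ⟨N, hN⟩ : ∃ N, N = K₁ + K₂ + k := ⟨_, rfl⟩
    show (u (K₁ + K₂ + k)).1 ∈ _
    rw [← hN]
    have hNR : (K₁ : ℝ) + K₂ ≤ N := by
      rw [hN]
      push_cast
      have : (0 : ℝ) ≤ k := k.cast_nonneg
      linarith
    have hNn : (N : ℝ) ≤ (u N).1 := by exact_mod_cast h.strictMono.id_le N
    have hP := h.perf N
    have hx := h.mem N
    generalize u N = s at hP hx hNn ⊢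
    obtain ⟨n, c, l, m⟩ := s
    simp only at hP hx hNn ⊢
    have hl := hP.sc.1
    have hm := hP.sc.2.1
    have hmn : 0 < ‖m‖ := norm_pos_iff.2 hm
    obtain ⟨S, hS, hZ⟩ := hP.zone
    have hK2 : (0 : ℝ) ≤ K₂ := K₂.cast_nonneg
    have hN1 : (1 : ℝ) / ((N : ℝ) + 1) ≤ 1 := by
      rw [div_le_one (by positivity)]
      have : (0 : ℝ) ≤ N := N.cast_nonneg
      linarith
    have hSN : 3 ^ d + 4 ^ d ≤ S := by
      refine le_trans ?_ hS
      rw [one_div_one_div]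
      linarith
    have hbd : ∀ z : ℂ, z ∈ ball (0 : ℂ) (4 * ‖m‖) →
        ‖(f d x)^[n] z‖ ≤ 2 * (3 ^ d + 4 ^ d) * ‖m‖ := fun z hz =>
      ren_bound hl hm (zone_mono hZ hN1) hSN hx (by
        rw [mem_ball_zero_iff] at hz
        exact hz.le)
    refine ⟨ball 0 (4 * ‖m‖), ‖m‖, hmn, fun j => ?_, fun z hz z' hz' => ?_⟩
    · intro y hy
      have h1 : ‖(f d x)^[n * j] 0‖ ≤ 3 * ‖m‖ := by
        have h2 := hx.2 j
        have hx' : c + l * ((x - c) / l) = x := by field_simp; ring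
        rw [hx'] at h2
        exact h2
      have h2 : (f d x)^[n * j] 0 = Pool.Agent.H712R2.P d (j * n) x := by
        rw [mul_comm n j]
        rfl
      rw [h2] at h1
      rw [mem_ball, dist_eq_norm] at hy
      rw [mem_ball_zero_iff]
      have h3 := norm_add_le (y - Pool.Agent.H712R2.P d (j * n) x) (Pool.Agent.H712R2.P d (j * n) x)
      rw [sub_add_cancel] at h3
      linarith
    · have h1 := hbd z hz
      have h2 := hbd z' hz'
      have h3 : ‖(f d x)^[n] z - (f d x)^[n] z'‖ ≤ 4 * (3 ^ d + 4 ^ d) * ‖m‖ :=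
        (norm_sub_le _ _).trans (by linarith)
      have h4 : 4 * (3 ^ d + 4 ^ d) ≤ Real.exp (ε * n) := by
        rw [← Real.log_le_iff_le_exp (by positivity)]
        rw [div_lt_iff₀ hε] at hK₂
        have h5 : (K₂ : ℝ) ≤ n := by linarith
        nlinarith
      refine le_trans h3 ?_
      gcongr

theorem Limit2.frontier {d : ℕ} {ψ : ℂ → ℂ} {a : ℕ → ℂ} {x : ℂ} {u : ℕ → ℕ × ℂ × ℂ × ℂ}
    (h : Limit2 d ψ a x u) : x ∈ frontier (multibrotSet d) := front_of_fine h.fineAt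

/-- the lower density of the Multibrot set is zero -/
theorem Limit2.area {d : ℕ} {ψ : ℂ → ℂ} {a : ℕ → ℂ} {x : ℂ} {u : ℕ → ℕ × ℂ × ℂ × ℂ}
    (h : Limit2 d ψ a x u) {η : ℝ} (hη : 0 < η) : ∃ ρ : ℝ, 0 < ρ ∧ ρ ≤ η ∧
      volume (multibrotSet d ∩ ball x ρ) ≤ ENNReal.ofReal (η * ρ ^ 2) := by
  obtain ⟨k, hk⟩ := exists_nat_gt (1 / η)
  have hk' : 1 / ((k : ℝ) + 1) ≤ η := by
    rw [div_le_iff₀ (by positivity)]
    rw [div_lt_iff₀ hη] at hk
    nlinarith
  obtain ⟨ρ, h1, h2, h3⟩ := (h.fine k).area x (h.mem k)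
  refine ⟨ρ, h1, h2.trans hk', h3.trans (ENNReal.ofReal_le_ofReal ?_)⟩
  gcongr

/-- the component of the set of the infinitely renormalizable parameters is a point -/
theorem Limit2.conn {d : ℕ} {ψ : ℂ → ℂ} {a : ℕ → ℂ} {x : ℂ} {u : ℕ → ℕ × ℂ × ℂ × ℂ}
    (h : Limit2 d ψ a x u) {Γ : Set ℂ} (hΓ : IsPreconnected Γ) (hsub : Γ ⊆ BigRen d)
    (hx : x ∈ Γ) : Γ = {x} := by
  refine Set.eq_singleton_iff_unique_mem.2 ⟨hx, fun y hy => ?_⟩
  by_contra hne
  have h0 : 0 < ‖y - x‖ := norm_pos_iff.2 (sub_ne_zero.2 hne)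
  obtain ⟨k, hk⟩ := exists_nat_gt (1 / ‖y - x‖)
  have h1 := (h.fine k).conn Γ hΓ hsub ⟨x, hx, h.mem k⟩ y hy x hx
  rw [div_lt_iff₀ h0] at hk
  rw [le_div_iff₀ (by positivity)] at h1
  nlinarith

/-- the limits are in small copies of infinitely many periods -/
theorem Limit2.PR {d : ℕ} {ψ : ℂ → ℂ} {a : ℕ → ℂ} {x : ℂ} {u : ℕ → ℕ × ℂ × ℂ × ℂ}
    (h : Limit2 d ψ a x u) {ε : ℝ} (hε : 0 < ε) : x ∈ PR d ε := by
  obtain ⟨K, hK⟩ := exists_nat_gt (1 / ε)
  refine Set.infinite_of_injective_forall_mem (f := fun k => (u (K + k)).1) (fun i j hij => ?_)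
    (fun k => ?_)
  · have := h.strictMono.injective hij
    omega
  · refine ⟨_, _, _, perf_mono (h.perf (K + k)) (by positivity) ?_, h.mem (K + k)⟩
    rw [div_le_iff₀ (by positivity)]
    rw [div_lt_iff₀ hε] at hK
    push_cast
    have : (0 : ℝ) ≤ k := k.cast_nonneg
    nlinarith

/-- a closed set as a set of cluster points -/
theorem seq_of_closed {F : Set ℂ} (hF : IsClosed F) (hne : F.Nonempty) :
    ∃ a : ℕ → ℂ, (∀ k, a k ∈ F) ∧ ∀ b : ℕ → ℂ, Tendsto (fun k => b k - a k) atTop (𝓝 0) →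
      {κ | MapClusterPt κ atTop b} = F := by
  have : Nonempty F := hne.to_subtype
  obtain ⟨s, hs⟩ := TopologicalSpace.exists_dense_seq F
  refine ⟨fun k => s (Nat.unpair k).1, fun k => (s _).2, fun b hb => ?_⟩
  rw [Metric.tendsto_atTop] at hb
  ext κ
  constructor
  · intro hκ
    have hκ' := mapClusterPt_iff_frequently.1 hκ
    rw [← hF.closure_eq, Metric.mem_closure_iff]
    intro ε hε
    obtain ⟨N, hN⟩ := hb (ε / 2) (half_pos hε)
    obtain ⟨k, hk, hkN⟩ := ((hκ' _ (ball_mem_nhds κ (half_pos hε))).and_eventually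
      (eventually_ge_atTop N)).exists
    refine ⟨s (Nat.unpair k).1, (s _).2, ?_⟩
    have h1 := hN k hkN
    rw [mem_ball, dist_eq_norm] at hk
    rw [dist_eq_norm, sub_zero] at h1
    rw [dist_eq_norm]
    have e : κ - (s (Nat.unpair k).1 : ℂ) = (b k - (s (Nat.unpair k).1 : ℂ)) - (b k - κ) := by ring
    rw [e]
    refine (norm_sub_le _ _).trans_lt ?_
    linarith
  · intro hκ
    apply mapClusterPt_iff_frequently.2
    intro S hS
    obtain ⟨ε, hε, hεS⟩ := Metric.mem_nhds_iff.1 hS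
    obtain ⟨N, hN⟩ := hb (ε / 2) (half_pos hε)
    obtain ⟨y, ⟨i, rfl⟩, hi⟩ := Metric.mem_closure_iff.1 (hs.closure_eq ▸ mem_univ (⟨κ, hκ⟩ : F))
      (ε / 2) (half_pos hε)
    rw [frequently_atTop]
    intro K
    refine ⟨Nat.pair i (max K N), ?_, hεS ?_⟩
    · exact (le_max_left K N).trans (Nat.right_le_pair _ _)
    · have h1 := hN (Nat.pair i (max K N)) ((le_max_right K N).trans (Nat.right_le_pair _ _))
      simp only [Nat.unpair_pair] at h1
      rw [dist_eq_norm, sub_zero] at h1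
      have h2 : dist κ (s i : ℂ) < ε / 2 := hi
      rw [dist_eq_norm] at h2
      rw [mem_ball, dist_eq_norm]
      have e : b (Nat.pair i (max K N)) - κ = (b (Nat.pair i (max K N)) - (s i : ℂ)) -
          (κ - (s i : ℂ)) := by ring
      rw [e]
      refine (norm_sub_le _ _).trans_lt ?_
      linarith

end Pool.Agent.H206
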