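import Pool.Graph.R_pool_sql_team_seeded_63374d34.N772.ST.Alg
import Pool.Graph.R_seed8.TH279.MD.Final

set_option autoImplicit false

/-! # The Lyapunov exponent at preperiodic parameters -/

namespace Pool.Agent.H206

open Complex Metric Set Filter Topology
open Pool.Agent.TH279.MD Pool.Agent.Y298.CA

/-- averages of an eventually periodic sequence -/
theorem avg_periodic {A : ℕ → ℝ} {n K₀ : ℕ} (hn : 1 ≤ n) (h : ∀ i, K₀ ≤ i → A (i + n) = A i) :
    Tendsto (fun k : ℕ => (∑ i ∈ Finset.range k, A i) / k) atTop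
      (𝓝 ((∑ i ∈ Finset.range n, A (K₀ + i)) / n)) := by
  obtain ⟨L, hL⟩ : ∃ L, L = ∑ i ∈ Finset.range n, A (K₀ + i) := ⟨_, rfl⟩
  have hn0 : (0 : ℝ) < n := by exact_mod_cast hn
  have hsum : ∀ k, ∑ i ∈ Finset.range n, A (K₀ + k + i) = L := by
    intro k
    induction k with
    | zero => rw [hL]; rfl
    | succ k ih =>
      have h1 : ∑ i ∈ Finset.range (n + 1), A (K₀ + k + i) =
          (∑ i ∈ Finset.range n, A (K₀ + k + (i + 1))) + A (K₀ + k + 0) :=
        Finset.sum_range_succ' _ _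
      have h2 : ∑ i ∈ Finset.range (n + 1), A (K₀ + k + i) =
          (∑ i ∈ Finset.range n, A (K₀ + k + i)) + A (K₀ + k + n) := Finset.sum_range_succ _ _
      have h3 := h (K₀ + k) (by omega)
      have h4 : ∑ i ∈ Finset.range n, A (K₀ + (k + 1) + i) =
          ∑ i ∈ Finset.range n, A (K₀ + k + (i + 1)) := by
        refine Finset.sum_congr rfl fun i _ => ?_
        congr 1
        ring
      rw [h4]
      rw [add_zero] at h1
      linarith
  obtain ⟨S, hS⟩ : ∃ S : ℕ → ℝ, S = fun k => ∑ i ∈ Finset.range k, A i := ⟨_, rfl⟩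
  have hSn : ∀ k, S (K₀ + k + n) = S (K₀ + k) + L := by
    intro k
    rw [hS]
    simp only
    rw [Finset.sum_range_add, hsum]
  -- the difference is bounded
  obtain ⟨g, hg⟩ : ∃ g : ℕ → ℝ, g = fun k => S k - L * k / n := ⟨_, rfl⟩
  have hgn : ∀ k, g (K₀ + k + n) = g (K₀ + k) := by
    intro k
    rw [hg]
    simp only
    rw [hSn]
    push_cast
    field_simp
    ring
  have hgm : ∀ j k, g (K₀ + k + n * j) = g (K₀ + k) := by
    intro j
    induction j with
    | zero => intro k; simp
    | succ j ih =>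
      intro k
      have h1 := hgn (k + n * j)
      rw [← add_assoc, ih k] at h1
      rw [← h1]
      congr 1
      ring
  obtain ⟨B, hB⟩ : ∃ B, B = ∑ i ∈ Finset.range (K₀ + n), |g i| := ⟨_, rfl⟩
  have hbd : ∀ k, |g k| ≤ B := by
    intro k
    have hlow : ∀ i < K₀ + n, |g i| ≤ B := by
      intro i hi
      rw [hB]
      exact Finset.single_le_sum (f := fun i => |g i|) (fun _ _ => abs_nonneg _)
        (Finset.mem_range.2 hi)
    rcases lt_or_ge k K₀ with hk | hk
    · exact hlow k (by omega)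
    · have h1 := hgm ((k - K₀) / n) ((k - K₀) % n)
      have h2 : K₀ + (k - K₀) % n + n * ((k - K₀) / n) = k := by
        have := Nat.mod_add_div (k - K₀) n
        omega
      rw [h2] at h1
      rw [h1]
      apply hlow
      have := Nat.mod_lt (k - K₀) (show 0 < n by omega)
      omega
  have hlim : Tendsto (fun k : ℕ => L / n + g k / k) atTop (𝓝 (L / n + 0)) := by
    refine tendsto_const_nhds.add ?_
    have h1 : Tendsto (fun k : ℕ => B / (k : ℝ)) atTop (𝓝 0) :=
      tendsto_const_nhds.div_atTop tendsto_natCast_atTop_atTop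
    refine squeeze_zero_norm (fun k => ?_) h1
    rw [Real.norm_eq_abs, abs_div, Nat.abs_cast]
    gcongr
    exact hbd k
  rw [add_zero] at hlim
  rw [hL] at hlim
  refine hlim.congr' ?_
  filter_upwards [eventually_ge_atTop 1] with k hk
  have hk0 : (0 : ℝ) < k := by exact_mod_cast hk
  rw [hg, hS, ← hL]
  simp only
  field_simp
  ring

theorem preper_ne {d : ℕ} (hd : 2 ≤ d) {b p : ℂ} {n K₀ : ℕ} (hn : 1 ≤ n)
    (hp : (f d b)^[K₀] b = p) (hper : (f d b)^[n] p = p) (hlam : 1 < ‖deriv ((f d b)^[n]) p‖) :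
    ∀ i, (f d b)^[i] b ≠ 0 := by
  have hf0 : f d b 0 = b := by
    show (0 : ℂ) ^ d + b = b
    rw [zero_pow (by omega), zero_add]
  have hcyc : ∀ s, (f d b)^[s] p ≠ 0 := by
    intro s hs
    have h1 : ∀ j, (f d b)^[n * j] p = p := by
      intro j
      induction j with
      | zero => simp
      | succ j ih => rw [Nat.mul_succ, Function.iterate_add_apply, hper, ih]
    have h2 : ∃ i < n, (f d b)^[i] p = 0 := by
      refine ⟨s % n, Nat.mod_lt _ hn, ?_⟩
      have h3 := Nat.mod_add_div s n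
      rw [← h3, Function.iterate_add_apply, h1] at hs
      exact hs
    obtain ⟨i, hi, h0⟩ := h2
    have h3 : deriv ((f d b)^[n]) p = 0 := by
      rw [Pool.Agent.N772.ST.deriv_it]
      apply Finset.prod_eq_zero (Finset.mem_range.2 hi)
      rw [h0, zero_pow (by omega), mul_zero]
    rw [h3, norm_zero] at hlam
    linarith
  intro i hi
  -- then the critical point is periodic
  have h1 : (f d b)^[i + 1] 0 = 0 := by
    rw [Function.iterate_add_apply, Function.iterate_one, hf0, hi]
  have h2 : ∀ j, (f d b)^[(i + 1) * j] 0 = 0 := by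
    intro j
    induction j with
    | zero => simp
    | succ j ih => rw [Nat.mul_succ, Function.iterate_add_apply, h1, ih]
  have h3 : (f d b)^[(i + 1) * (K₀ + 1)] 0 = 0 := h2 _
  have h4 : (f d b)^[K₀ + 1] 0 = p := by
    rw [Function.iterate_add_apply, Function.iterate_one, hf0, hp]
  have h5 : (i + 1) * (K₀ + 1) = i * (K₀ + 1) + (K₀ + 1) := by ring
  rw [h5, Function.iterate_add_apply, h4] at h3
  exact hcyc _ h3

/-- the critical orbit of a preperiodic parameter stays away from the critical point -/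
theorem preper_far {d : ℕ} (hd : 2 ≤ d) {b p : ℂ} {n K₀ : ℕ} (hn : 1 ≤ n)
    (hp : (f d b)^[K₀] b = p) (hper : (f d b)^[n] p = p) (hlam : 1 < ‖deriv ((f d b)^[n]) p‖) :
    ∃ s : ℝ, 0 < s ∧ ∀ j : ℕ, 1 ≤ j → s ≤ ‖(f d b)^[j] 0‖ := by
  have hne := preper_ne hd hn hp hper hlam
  have hf0 : f d b 0 = b := by
    show (0 : ℂ) ^ d + b = b
    rw [zero_pow (by omega), zero_add]
  have hred : ∀ i, ∃ i' < K₀ + n, (f d b)^[i] b = (f d b)^[i'] b := by
    intro i
    induction i using Nat.strong_induction_on with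
    | _ i ih =>
      rcases lt_or_ge i (K₀ + n) with h | h
      · exact ⟨i, h, rfl⟩
      · obtain ⟨j, rfl⟩ := Nat.exists_eq_add_of_le h
        obtain ⟨i', hi', h1⟩ := ih (K₀ + j) (by omega)
        refine ⟨i', hi', ?_⟩
        rw [← h1, show K₀ + n + j = j + (n + K₀) by ring, show K₀ + j = j + K₀ by ring,
          Function.iterate_add_apply, Function.iterate_add_apply (f d b) n, hp, hper,
          Function.iterate_add_apply, hp]
  obtain ⟨i₀, hi₀, hmin⟩ := Finset.exists_min_image (Finset.range (K₀ + n))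
    (fun i => ‖(f d b)^[i] b‖) ⟨0, Finset.mem_range.2 (by omega)⟩
  refine ⟨‖(f d b)^[i₀] b‖, norm_pos_iff.2 (hne i₀), fun j hj => ?_⟩
  obtain ⟨i, rfl⟩ : ∃ i, j = i + 1 := ⟨j - 1, by omega⟩
  rw [Function.iterate_succ_apply, hf0]
  obtain ⟨i', hi', h1⟩ := hred i
  rw [h1]
  exact hmin i' (Finset.mem_range.2 hi')

/-- **The Lyapunov exponent at preperiodic parameters.** -/
theorem lyap_preper {d : ℕ} (hd : 2 ≤ d) {b p : ℂ} {n K₀ : ℕ} (hn : 1 ≤ n)
    (hp : (f d b)^[K₀] b = p) (hper : (f d b)^[n] p = p) (hlam : 1 < ‖deriv ((f d b)^[n]) p‖) :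
    Lyap d (Real.log ‖deriv ((f d b)^[n]) p‖ / n) b := by
  have hn0 : (0 : ℝ) < n := by exact_mod_cast hn
  have hd0 : (d : ℂ) ≠ 0 := by exact_mod_cast (by omega : d ≠ 0)
  have hf0 : f d b 0 = b := by
    show (0 : ℂ) ^ d + b = b
    rw [zero_pow (by omega), zero_add]
  have hbM : b ∈ N62a1eb23.multibrotSet d := by
    apply mem_M_of_preper
    refine ⟨K₀ + 1, n, hn, ?_⟩
    have h1 : (f d b)^[K₀ + 1] 0 = p := by
      rw [Function.iterate_add_apply, Function.iterate_one, hf0, hp]
    rw [show K₀ + 1 + n = n + (K₀ + 1) by ring, Function.iterate_add_apply, h1, hper]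
  -- the cycle does not contain the critical point
  have hcyc : ∀ s, (f d b)^[s] p ≠ 0 := by
    intro s hs
    have h1 : ∀ j, (f d b)^[n * j] p = p := by
      intro j
      induction j with
      | zero => simp
      | succ j ih => rw [Nat.mul_succ, Function.iterate_add_apply, hper, ih]
    have h2 : ∃ i < n, (f d b)^[i] p = 0 := by
      refine ⟨s % n, Nat.mod_lt _ hn, ?_⟩
      have h3 := Nat.mod_add_div s n
      rw [← h3, Function.iterate_add_apply, h1] at hs
      exact hs
    obtain ⟨i, hi, h0⟩ := h2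
    have h3 : deriv ((f d b)^[n]) p = 0 := by
      rw [Pool.Agent.N772.ST.deriv_it]
      apply Finset.prod_eq_zero (Finset.mem_range.2 hi)
      rw [h0, zero_pow (by omega), mul_zero]
    rw [h3, norm_zero] at hlam
    linarith
  have horb : ∀ i, (f d b)^[i] b ≠ 0 := by
    intro i hi
    -- then the critical point is periodic
    have h1 : (f d b)^[i + 1] 0 = 0 := by
      rw [Function.iterate_add_apply, Function.iterate_one, hf0, hi]
    have h2 : ∀ j, (f d b)^[(i + 1) * j] 0 = 0 := by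
      intro j
      induction j with
      | zero => simp
      | succ j ih => rw [Nat.mul_succ, Function.iterate_add_apply, h1, ih]
    have h3 : (f d b)^[(i + 1) * (K₀ + 1)] 0 = 0 := h2 _
    have h4 : (f d b)^[K₀ + 1] 0 = p := by
      rw [Function.iterate_add_apply, Function.iterate_one, hf0, hp]
    have h5 : (i + 1) * (K₀ + 1) = i * (K₀ + 1) + (K₀ + 1) := by ring
    rw [h5, Function.iterate_add_apply, h4] at h3
    exact hcyc _ h3
  obtain ⟨A, hA⟩ : ∃ A : ℕ → ℝ, A = fun i => Real.log ‖(d : ℂ) * ((f d b)^[i] b) ^ (d - 1)‖ :=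
    ⟨_, rfl⟩
  have hlog : ∀ k, Real.log ‖deriv ((f d b)^[k]) b‖ = ∑ i ∈ Finset.range k, A i := by
    intro k
    rw [Pool.Agent.N772.ST.deriv_it, norm_prod, Real.log_prod, hA]
    intro i _
    rw [norm_ne_zero_iff]
    exact mul_ne_zero hd0 (pow_ne_zero _ (horb i))
  have hper' : ∀ i, K₀ ≤ i → A (i + n) = A i := by
    intro i hi
    rw [hA]
    simp only
    obtain ⟨j, rfl⟩ := Nat.exists_eq_add_of_le hi
    have h1 : (f d b)^[K₀ + j + n] b = (f d b)^[K₀ + j] b := by
      rw [show K₀ + j + n = j + (n + K₀) by ring, show K₀ + j = j + K₀ by ring,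
        Function.iterate_add_apply, Function.iterate_add_apply (f d b) n, hp, hper,
        Function.iterate_add_apply, hp]
    rw [h1]
  have hLn : ∑ i ∈ Finset.range n, A (K₀ + i) = Real.log ‖deriv ((f d b)^[n]) p‖ := by
    rw [Pool.Agent.N772.ST.deriv_it, norm_prod, Real.log_prod, hA]
    · refine Finset.sum_congr rfl fun i _ => ?_
      rw [show K₀ + i = i + K₀ by ring]
      show Real.log ‖(d : ℂ) * ((f d b)^[i + K₀] b) ^ (d - 1)‖ = _
      rw [Function.iterate_add_apply, hp]
    · intro i _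
      rw [norm_ne_zero_iff]
      exact mul_ne_zero hd0 (pow_ne_zero _ (hcyc i))
  refine ⟨div_pos (Real.log_pos hlam) hn0, hbM, ?_⟩
  have h1 := avg_periodic hn hper'
  rw [hLn] at h1
  refine h1.congr fun k => ?_
  rw [hlog]

end Pool.Agent.H206
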