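import Mathlib
import Pool.Graph.R_pool_sql_team_seeded_ab47071d.TH653.MC.C1
import Pool.Graph.R_seed8.Y333.TY.MultA

set_option autoImplicit false

/-! # Length and area for the curves which run to a boundary point -/

namespace Pool.Agent.H206.Ray

open Complex Metric Set Filter Topology MeasureTheory

/-- the length of a curve in the logarithmic metric -/
theorem len {g g' : ℝ → ℂ} {a b : ℝ} (hab : a ≤ b)
    (hg : ∀ x ∈ Icc a b, HasDerivAt g (g' x) x) (hg' : ContinuousOn g' (Icc a b))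
    (h0 : ∀ x ∈ Icc a b, g x ≠ 0) :
    Real.log ‖g b‖ - Real.log ‖g a‖ ≤ ∫ x in a..b, ‖g' x / g x‖ := by
  have hgc : ContinuousOn g (Icc a b) := fun x hx => (hg x hx).continuousAt.continuousWithinAt
  obtain ⟨D, hD⟩ : ∃ D : ℝ → ℝ, D = fun x => 2 * (inner ℝ (g x) (g' x)) / ‖g x‖ ^ 2 / 2 :=
    ⟨_, rfl⟩
  have hder : ∀ x ∈ Icc a b, HasDerivAt (fun x => Real.log (‖g x‖ ^ 2) / 2) (D x) x := by
    intro x hx
    have h1 := (hg x hx).norm_sq
    have h2 : ‖g x‖ ^ 2 ≠ 0 := (pow_pos (norm_pos_iff.2 (h0 x hx)) 2).ne'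
    rw [hD]
    exact (h1.log h2).div_const 2
  have hDc : ContinuousOn D (Icc a b) := by
    rw [hD]
    refine ContinuousOn.div_const (ContinuousOn.div ?_ (hgc.norm.pow 2) fun x hx => ?_) 2
    · exact continuousOn_const.mul (hgc.inner hg')
    · exact (pow_pos (norm_pos_iff.2 (h0 x hx)) 2).ne'
  have hFTC : ∫ x in a..b, D x = Real.log (‖g b‖ ^ 2) / 2 - Real.log (‖g a‖ ^ 2) / 2 := by
    apply intervalIntegral.integral_eq_sub_of_hasDerivAt
    · intro x hx
      rw [uIcc_of_le hab] at hx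
      exact hder x hx
    · exact (hDc.mono (by rw [uIcc_of_le hab])).intervalIntegrable
  have hlog : ∀ x, Real.log (‖g x‖ ^ 2) / 2 = Real.log ‖g x‖ := by
    intro x
    rw [Real.log_pow]
    push_cast
    ring
  rw [hlog, hlog] at hFTC
  rw [← hFTC]
  apply intervalIntegral.integral_mono_on hab
  · exact (hDc.mono (by rw [uIcc_of_le hab])).intervalIntegrable
  · refine ContinuousOn.intervalIntegrable ?_
    rw [uIcc_of_le hab]
    exact (hg'.div hgc h0).norm
  · intro x hx
    have h1 := norm_pos_iff.2 (h0 x hx)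
    have h2 := real_inner_le_norm (g x) (g' x)
    have e1 : D x = inner ℝ (g x) (g' x) / ‖g x‖ ^ 2 := by
      rw [hD]
      ring
    rw [e1, norm_div, div_le_div_iff₀ (by positivity) h1]
    nlinarith

/-- the Cauchy-Schwarz inequality -/
theorem cs {v : ℝ → ℝ} {a b : ℝ} (hab : a < b) (hv : ContinuousOn v (Icc a b)) :
    (∫ x in a..b, v x) ^ 2 ≤ (b - a) * ∫ x in a..b, v x ^ 2 := by
  have hba : 0 < b - a := by linarith
  obtain ⟨m, hm⟩ : ∃ m, m = (∫ x in a..b, v x) / (b - a) := ⟨_, rfl⟩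
  have hi1 : IntervalIntegrable v volume a b := (hv.mono (by rw [uIcc_of_le hab.le])).intervalIntegrable
  have hi2 : IntervalIntegrable (fun x => v x ^ 2) volume a b :=
    ((hv.pow 2).mono (by rw [uIcc_of_le hab.le])).intervalIntegrable
  have h1 : 0 ≤ ∫ x in a..b, (v x - m) ^ 2 :=
    intervalIntegral.integral_nonneg hab.le fun x _ => sq_nonneg _
  have h2 : ∫ x in a..b, (v x - m) ^ 2 =
      (∫ x in a..b, v x ^ 2) - 2 * m * (∫ x in a..b, v x) + m ^ 2 * (b - a) := by
    have e1 : (fun x => (v x - m) ^ 2) = fun x => (v x ^ 2 - 2 * m * v x) + m ^ 2 := by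
      funext x
      ring
    rw [e1, intervalIntegral.integral_add (hi2.sub (hi1.const_mul _)) (by simp),
      intervalIntegral.integral_sub hi2 (hi1.const_mul _), intervalIntegral.integral_const_mul,
      intervalIntegral.integral_const, smul_eq_mul]
    ring
  have h3 : (∫ x in a..b, v x) = m * (b - a) := by rw [hm]; field_simp
  rw [h2, h3] at h1
  rw [h3]
  nlinarith

/-- one row -/
theorem row {g g' : ℝ → ℂ} {a b A B : ℝ} (hab : a < b)
    (hg : ∀ x ∈ Icc a b, HasDerivAt g (g' x) x) (hg' : ContinuousOn g' (Icc a b))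
    (h0 : ∀ x ∈ Icc a b, g x ≠ 0) (hA : Real.log ‖g a‖ ≤ A) (hB : B ≤ Real.log ‖g b‖)
    (hAB : A ≤ B) : (B - A) ^ 2 / (b - a) ≤ ∫ x in a..b, ‖g' x / g x‖ ^ 2 := by
  have hgc : ContinuousOn g (Icc a b) := fun x hx => (hg x hx).continuousAt.continuousWithinAt
  have h1 := len hab.le hg hg' h0
  have h2 := cs hab (hg'.div hgc h0).norm
  have hba : 0 < b - a := by linarith
  rw [div_le_iff₀ hba, mul_comm]
  refine le_trans ?_ h2
  have h3 : B - A ≤ ∫ x in a..b, ‖g' x / g x‖ := by linarith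
  have h4 : 0 ≤ B - A := by linarith
  exact pow_le_pow_left₀ h4 h3 2

/-- the closed rectangle -/
def Rect (a b h : ℝ) : Set ℂ := {z | z.re ∈ Icc a b ∧ z.im ∈ Icc (-h) h}

theorem Rect_eq (a b h : ℝ) :
    Rect a b h = Complex.measurableEquivRealProd ⁻¹' (Icc a b ×ˢ Icc (-h) h) := rfl

theorem Rect_meas (a b h : ℝ) : MeasurableSet (Rect a b h) := by
  rw [Rect_eq]
  exact Complex.measurableEquivRealProd.measurable (measurableSet_Icc.prod measurableSet_Icc)

/-- **The length-area inequality** -/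
theorem rect_le {G : ℂ → ℂ} {U : Set ℂ} (hU : IsOpen U) (hG : DifferentiableOn ℂ G U) {c₀ : ℂ}
    {a b h A B : ℝ} (hab : a < b) (hh : 0 < h) (hUR : Rect a b h ⊆ U)
    (h0 : ∀ z ∈ Rect a b h, G z ≠ c₀)
    (hA : ∀ y ∈ Icc (-h) h, Real.log ‖G (a + y * I) - c₀‖ ≤ A)
    (hB : ∀ y ∈ Icc (-h) h, B ≤ Real.log ‖G (b + y * I) - c₀‖) (hAB : A ≤ B) :
    ENNReal.ofReal (2 * h * ((B - A) ^ 2 / (b - a))) ≤
      ∫⁻ z in Rect a b h, ENNReal.ofReal (‖deriv G z‖ ^ 2) *
        ENNReal.ofReal ((‖G z - c₀‖ ^ 2)⁻¹) := by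
  have hmem : ∀ x ∈ Icc a b, ∀ y ∈ Icc (-h) h, ((x : ℂ) + y * I) ∈ Rect a b h := by
    intro x hx y hy
    constructor
    · simpa using hx
    · simpa using hy
  obtain ⟨F, hF⟩ : ∃ F : ℂ → ENNReal, F = fun z => ENNReal.ofReal (‖deriv G z / (G z - c₀)‖ ^ 2) :=
    ⟨_, rfl⟩
  have hFeq : ∀ z, ENNReal.ofReal (‖deriv G z‖ ^ 2) * ENNReal.ofReal ((‖G z - c₀‖ ^ 2)⁻¹) = F z := by
    intro z
    rw [hF, ← ENNReal.ofReal_mul (by positivity)]
    simp only
    rw [norm_div, div_pow, div_eq_mul_inv]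
  simp_rw [hFeq]
  -- the integral as an iterated integral
  have hcont : ContinuousOn (fun z => deriv G z / (G z - c₀)) (Rect a b h) := by
    refine ContinuousOn.div ?_ ?_ fun z hz => sub_ne_zero.2 (h0 z hz)
    · exact ((hG.deriv hU).continuousOn).mono hUR
    · exact (hG.continuousOn.mono hUR).sub continuousOn_const
  have hprod : ∫⁻ z in Rect a b h, F z = ∫⁻ p in Icc a b ×ˢ Icc (-h) h, F (p.1 + p.2 * I)
      ∂((volume : Measure ℝ).prod volume) := by
    have h1 := Complex.volume_preserving_equiv_real_prod.symm.setLIntegral_comp_preimage_emb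
      (Complex.measurableEquivRealProd.symm.measurableEmbedding) F (Rect a b h)
    rw [← h1]
    have e1 : Complex.measurableEquivRealProd.symm ⁻¹' Rect a b h = Icc a b ×ˢ Icc (-h) h := by
      rw [Rect_eq, ← preimage_comp]
      ext p
      simp
    rw [e1]
    have e2 : ∀ p : ℝ × ℝ, Complex.measurableEquivRealProd.symm p = (p.1 : ℂ) + p.2 * I := by
      intro p
      rw [Complex.measurableEquivRealProd_symm_apply]
      exact Complex.mk_eq_add_mul_I _ _
    simp_rw [e2]
    rfl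
  have hmeas : AEMeasurable (fun p : ℝ × ℝ => F (p.1 + p.2 * I))
      (((volume : Measure ℝ).prod volume).restrict (Icc a b ×ˢ Icc (-h) h)) := by
    rw [hF]
    apply AEMeasurable.ennreal_ofReal
    apply ContinuousOn.aemeasurable _ (measurableSet_Icc.prod measurableSet_Icc)
    have h1 : ContinuousOn (fun p : ℝ × ℝ => deriv G (p.1 + p.2 * I) / (G (p.1 + p.2 * I) - c₀))
        (Icc a b ×ˢ Icc (-h) h) := by
      refine hcont.comp (by fun_prop) ?_
      rintro p ⟨hp1, hp2⟩
      exact hmem p.1 hp1 p.2 hp2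
    exact h1.norm.pow 2
  have hswap : ∫⁻ p in Icc a b ×ˢ Icc (-h) h, F (p.1 + p.2 * I) ∂((volume : Measure ℝ).prod volume) =
      ∫⁻ y in Icc (-h) h, ∫⁻ x in Icc a b, F (x + y * I) := by
    rw [← Measure.prod_restrict] at hmeas ⊢
    rw [lintegral_prod_symm _ hmeas]
  rw [hprod, hswap]
  have hrow : ∀ y ∈ Icc (-h) h, ENNReal.ofReal ((B - A) ^ 2 / (b - a)) ≤
      ∫⁻ x in Icc a b, F (x + y * I) := by
    intro y hy
    have hd : ∀ x ∈ Icc a b, HasDerivAt (fun x : ℝ => G (x + y * I) - c₀) (deriv G (x + y * I)) x := by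
      intro x hx
      have h1 : HasDerivAt G (deriv G (x + y * I)) ((x : ℂ) + y * I) :=
        (hG.differentiableAt (hU.mem_nhds (hUR (hmem x hx y hy)))).hasDerivAt
      have h2 : HasDerivAt (fun x : ℝ => (x : ℂ) + y * I) 1 x := by
        have := (Complex.ofRealCLM.hasDerivAt (x := x)).add_const (y * I)
        simpa using this
      have h3 := h1.comp_of_eq (x := x) (h₂ := G) h2 rfl
      rw [mul_one] at h3
      exact h3.sub_const c₀
    have hdc : ContinuousOn (fun x : ℝ => deriv G (x + y * I)) (Icc a b) := by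
      refine ((hG.deriv hU).continuousOn.mono hUR).comp (by fun_prop) ?_
      intro x hx
      exact hmem x hx y hy
    have hn : ∀ x ∈ Icc a b, G ((x : ℂ) + y * I) - c₀ ≠ 0 := fun x hx =>
      sub_ne_zero.2 (h0 _ (hmem x hx y hy))
    have h4 := row hab hd hdc hn (hA y hy) (hB y hy) hAB
    refine (ENNReal.ofReal_le_ofReal h4).trans (le_of_eq ?_)
    have hc2 : ContinuousOn (fun x : ℝ => ‖deriv G (x + y * I) / (G (x + y * I) - c₀)‖ ^ 2)
        (Icc a b) := by
      refine ((hcont.comp (f := fun x : ℝ => (x : ℂ) + y * I) (by fun_prop) ?_).norm).pow 2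
      intro x hx
      exact hmem x hx y hy
    rw [intervalIntegral.integral_of_le hab.le, ← integral_Icc_eq_integral_Ioc,
      ofReal_integral_eq_lintegral_ofReal hc2.integrableOn_Icc
        (Filter.Eventually.of_forall fun x => by positivity), hF]
  calc ENNReal.ofReal (2 * h * ((B - A) ^ 2 / (b - a)))
      = ∫⁻ _ in Icc (-h) h, ENNReal.ofReal ((B - A) ^ 2 / (b - a)) := by
        rw [setLIntegral_const, Real.volume_Icc, ← ENNReal.ofReal_mul (by positivity)]
        congr 1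
        ring
    _ ≤ _ := setLIntegral_mono' measurableSet_Icc hrow

end Pool.Agent.H206.Ray
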