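import Pool.Agent.H206.RayA
import Pool.Graph.R_pool_sql_team_seeded_63374d34.N253.LC.All

set_option autoImplicit false

/-! # The number of rays which land at a point -/

namespace Pool.Agent.H206.Ray

open Complex Metric Set Filter Topology MeasureTheory
open Pool.Agent.N253.LC

/-- the coordinate near a point of the circle -/
noncomputable def W (ζ z : ℂ) : ℂ := ζ * (1 + Complex.exp z)

theorem W_sub (ζ z : ℂ) : W ζ z - ζ = ζ * Complex.exp z := by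
  unfold W
  ring

theorem W_dist {ζ : ℂ} (hζ : ‖ζ‖ = 1) (z : ℂ) : ‖W ζ z - ζ‖ = Real.exp z.re := by
  rw [W_sub, norm_mul, hζ, one_mul, Complex.norm_exp]

theorem W_norm {ζ : ℂ} (hζ : ‖ζ‖ = 1) (z : ℂ) :
    1 + Real.exp z.re * Real.cos z.im ≤ ‖W ζ z‖ := by
  unfold W
  rw [norm_mul, hζ, one_mul]
  have h1 := Complex.re_le_norm (1 + Complex.exp z)
  rw [Complex.add_re, Complex.one_re, Complex.exp_re] at h1
  exact h1

theorem cos_ge {κ y : ℝ} (hκ : 0 < κ) (hy : y ∈ Icc (-(Real.pi / 2 - κ)) (Real.pi / 2 - κ)) :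
    Real.sin κ ≤ Real.cos y := by
  rw [← Real.cos_pi_div_two_sub, ← Real.cos_abs y]
  apply Real.cos_le_cos_of_nonneg_of_le_pi (abs_nonneg y)
  · have := Real.pi_pos
    linarith
  · exact abs_le.2 hy

theorem W_inj {ζ : ℂ} (hζ : ‖ζ‖ = 1) {z z' : ℂ} (hz : |z.im| < Real.pi / 2)
    (hz' : |z'.im| < Real.pi / 2) (h : W ζ z = W ζ z') : z = z' := by
  have h0 : ζ ≠ 0 := by
    intro h0
    rw [h0, norm_zero] at hζ
    exact zero_ne_one hζ
  have h1 : Complex.exp z = Complex.exp z' := by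
    have h2 := mul_left_cancel₀ h0 h
    exact add_left_cancel h2
  have hpi := Real.pi_pos
  have ha := abs_lt.1 hz
  have hb := abs_lt.1 hz'
  exact Complex.exp_inj_of_neg_pi_lt_of_le_pi (by linarith [ha.1]) (by linarith [ha.2])
    (by linarith [hb.1]) (by linarith [hb.2]) h1

/-- a lower bound for the distance in terms of the level -/
theorem dist_ge {ψ : ℂ → ℂ} {c₀ : ℂ} {q R₀ : ℝ} (hq : 0 < q)
    (hlev : ∀ R : ℝ, 0 < R → R ≤ R₀ → ∀ w : ℂ, 1 < ‖w‖ → ‖ψ w - c₀‖ ≤ R →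
      Real.log ‖w‖ ≤ R ^ q) {s : ℝ} (hs : 0 < s) (hs1 : s ≤ 1) (hsR : (s / 4) ^ (1 / q) ≤ R₀)
    {w : ℂ} (hw : 1 + s ≤ ‖w‖) : (s / 4) ^ (1 / q) ≤ ‖ψ w - c₀‖ := by
  by_contra hcon
  push Not at hcon
  have h1 := hlev _ (by positivity) hsR w (by linarith) hcon.le
  rw [← Real.rpow_mul (by positivity), one_div, inv_mul_cancel₀ hq.ne', Real.rpow_one] at h1
  have h2 : Real.log (1 + s) ≤ Real.log ‖w‖ := Real.log_le_log (by linarith) hw
  have h3 : 1 - (1 + s)⁻¹ ≤ Real.log (1 + s) := Real.one_sub_inv_le_log_of_pos (by linarith)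
  have h4 : s / 2 ≤ 1 - (1 + s)⁻¹ := by
    have : 1 - (1 + s)⁻¹ = s / (1 + s) := by
      field_simp
      ring
    rw [this, div_le_div_iff₀ (by norm_num) (by linarith)]
    nlinarith
  linarith

/-- the integral over a ring about `c₀` -/
theorem ring_at {r : ℝ} (hr : 0 < r) (hr1 : r ≤ 1) (c₀ : ℂ) {S : Set ℂ} (hS : MeasurableSet S)
    (hSr : ∀ w ∈ S, r ≤ ‖w - c₀‖ ∧ ‖w - c₀‖ ≤ 1) :
    ∫⁻ w in S, ENNReal.ofReal ((‖w - c₀‖ ^ 2)⁻¹) ≤
      ENNReal.ofReal (2 * Real.pi * Real.log (1 / r)) := by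
  rw [← Pool.Agent.Y333.TY.MultX.ring_int hr hr1, ← lintegral_indicator hS,
    ← lintegral_sub_right_eq_self (μ := (volume : Measure ℂ)) (fun w : ℂ =>
      (Pool.Agent.Y333.TY.MultX.Rg r 1).indicator (fun w => ENNReal.ofReal ((‖w‖ ^ 2)⁻¹)) w) c₀]
  apply lintegral_mono
  intro w
  by_cases hw : w ∈ S
  · have h1 : w - c₀ ∈ Pool.Agent.Y333.TY.MultX.Rg r 1 := hSr w hw
    show _ ≤ (Pool.Agent.Y333.TY.MultX.Rg r 1).indicator
      (fun w => ENNReal.ofReal ((‖w‖ ^ 2)⁻¹)) (w - c₀)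
    rw [indicator_of_mem hw, indicator_of_mem h1]
  · rw [indicator_of_notMem hw]
    exact zero_le

/-- **Length and area**: the inequality for a finite set of rays. -/
theorem area {M : Set ℂ} {ψ : ℂ → ℂ} {c₀ : ℂ} {α : ℝ} (h : Hyp M ψ c₀ α) (F : Finset ℂ)
    (hF : ∀ ζ ∈ F, ‖ζ‖ = 1 ∧ MapClusterPt c₀ (𝓝[{w | 1 < ‖w‖}] ζ) ψ)
    {ε κ : ℝ} (hε : 0 < ε) (hεα : ε < α) (hε1 : ε < 1 / α) (hκ : 0 < κ) (hκ1 : κ < Real.pi / 2) :
    ∃ B C D : ℝ, ∀ᶠ L : ℝ in atTop, (F.card : ℝ) * ((Real.pi - 2 * κ) *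
      ((B + (1 / α - ε) * L) ^ 2 / (L + D))) ≤ 2 * Real.pi * (1 / (α - ε) * (L + C)) := by
  have hpi := Real.pi_pos
  obtain ⟨p, hp⟩ : ∃ p : ℝ, p = 1 / α - ε := ⟨_, rfl⟩
  obtain ⟨q, hq⟩ : ∃ q : ℝ, q = α - ε := ⟨_, rfl⟩
  obtain ⟨θ, hθ⟩ : ∃ θ : ℝ, θ = Real.pi / 2 - κ := ⟨_, rfl⟩
  obtain ⟨s, hs⟩ : ∃ s : ℝ, s = Real.sin κ := ⟨_, rfl⟩
  have hp0 : 0 < p := by rw [hp]; linarith
  have hq0 : 0 < q := by rw [hq]; linarith
  have hθ0 : 0 < θ := by rw [hθ]; linarith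
  have hs0 : 0 < s := by rw [hs]; exact Real.sin_pos_of_pos_of_lt_pi hκ (by linarith)
  have hs1 : s ≤ 1 := by rw [hs]; exact Real.sin_le_one κ
  obtain ⟨R₀, hR₀, hlev⟩ := h.level hε hεα
  rw [← hq] at hlev
  -- the radius
  have e1 : ∀ᶠ ρ : ℝ in 𝓝[>] 0, ∀ ζ ∈ F, ∀ w : ℂ, 1 < ‖w‖ → ‖w - ζ‖ ≤ ρ →
      ‖ψ w - c₀‖ ≤ ‖w - ζ‖ ^ p := by
    rw [Finset.eventually_all]
    intro ζ hζ
    have h1 := h.unres t_KOE (hF ζ hζ).1 (hF ζ hζ).2 hε
    rw [← hp] at h1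
    rw [eventually_nhdsWithin_iff, Metric.eventually_nhds_iff] at h1
    obtain ⟨η, hη, H⟩ := h1
    filter_upwards [Ioo_mem_nhdsGT hη] with ρ hρ w hw hwρ
    exact H (by rw [dist_eq_norm]; exact hwρ.trans_lt hρ.2) hw
  have e2 : ∀ᶠ ρ : ℝ in 𝓝[>] 0, ∀ ζ ∈ F, ∀ ζ' ∈ F, ζ ≠ ζ' → 2 * ρ < ‖ζ - ζ'‖ := by
    rw [Finset.eventually_all]
    intro ζ hζ
    rw [Finset.eventually_all]
    intro ζ' hζ'
    by_cases hne : ζ = ζ'
    · exact Eventually.of_forall fun ρ hh => absurd hne hh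
    · have h1 : 0 < ‖ζ - ζ'‖ := norm_pos_iff.2 (sub_ne_zero.2 hne)
      filter_upwards [Ioo_mem_nhdsGT (half_pos h1)] with ρ hρ _
      linarith [hρ.2]
  have e3 : ∀ᶠ ρ : ℝ in 𝓝[>] 0, (ρ * s / 4) ^ (1 / q) ≤ R₀ := by
    have h1 : Tendsto (fun ρ : ℝ => (ρ * s / 4) ^ (1 / q)) (𝓝 0) (𝓝 ((0 * s / 4) ^ (1 / q))) := by
      have h2 : Continuous fun ρ : ℝ => (ρ * s / 4) ^ (1 / q) :=
        (by fun_prop : Continuous fun ρ : ℝ => ρ * s / 4).rpow_const fun _ => Or.inr (by positivity)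
      exact h2.tendsto 0
    rw [zero_mul, zero_div, Real.zero_rpow (by positivity)] at h1
    exact (h1.eventually (Iic_mem_nhds hR₀)).filter_mono nhdsWithin_le_nhds
  obtain ⟨ρ, ⟨⟨⟨h1, h2⟩, h3⟩, hρ0, hρ1⟩⟩ := (((e1.and e2).and e3).and
    (Ioo_mem_nhdsGT one_pos)).exists
  obtain ⟨B, hB⟩ : ∃ B : ℝ, B = Real.log ((ρ * s / 4) ^ (1 / q)) := ⟨_, rfl⟩
  refine ⟨B, - Real.log (s / 4), Real.log ρ, ?_⟩
  rw [← hp, ← hq]
  filter_upwards [eventually_gt_atTop (- Real.log ρ), eventually_ge_atTop (- B / p)] with L hL1 hL2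
  obtain ⟨δ, hδ⟩ : ∃ δ : ℝ, δ = Real.exp (-L) := ⟨_, rfl⟩
  have hδ0 : 0 < δ := by rw [hδ]; exact Real.exp_pos _
  have hδρ : δ < ρ := by
    rw [hδ, ← Real.exp_log hρ0]
    exact Real.exp_lt_exp.2 (by linarith)
  have hlogδ : Real.log δ = -L := by rw [hδ, Real.log_exp]
  obtain ⟨r₁, hr₁⟩ : ∃ r₁ : ℝ, r₁ = (δ * s / 4) ^ (1 / q) := ⟨_, rfl⟩
  have hr₁0 : 0 < r₁ := by rw [hr₁]; positivity
  have hr₁R : r₁ ≤ R₀ := by
    refine le_trans ?_ h3
    rw [hr₁]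
    apply Real.rpow_le_rpow (by positivity) _ (by positivity)
    nlinarith
  have hr₁1 : r₁ ≤ 1 := by
    rw [hr₁]
    apply Real.rpow_le_one (by positivity) _ (by positivity)
    nlinarith
  have hAB : -(p * L) ≤ B := by
    rw [div_le_iff₀ hp0] at hL2
    linarith
  -- the points of the rectangle
  have hrect : ∀ ζ ∈ F, ∀ z ∈ Rect (-L) (Real.log ρ) θ, 1 + Real.exp z.re * s ≤ ‖W ζ z‖ ∧
      ‖W ζ z - ζ‖ = Real.exp z.re ∧ δ ≤ Real.exp z.re ∧ Real.exp z.re ≤ ρ := by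
    intro ζ hζ z hz
    refine ⟨?_, W_dist (hF ζ hζ).1 z, ?_, ?_⟩
    · refine le_trans ?_ (W_norm (hF ζ hζ).1 z)
      have h4 := cos_ge hκ (by rw [← hθ]; exact hz.2)
      rw [← hs] at h4
      have := Real.exp_pos z.re
      nlinarith
    · rw [hδ]
      exact Real.exp_le_exp.2 hz.1.1
    · rw [← Real.exp_log hρ0]
      exact Real.exp_le_exp.2 hz.1.2
  have hrect2 : ∀ ζ ∈ F, ∀ z ∈ Rect (-L) (Real.log ρ) θ, 1 < ‖W ζ z‖ := by
    intro ζ hζ z hz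
    obtain ⟨h4, -⟩ := hrect ζ hζ z hz
    have := Real.exp_pos z.re
    nlinarith [mul_pos this hs0]
  have hlow : ∀ ζ ∈ F, ∀ z ∈ Rect (-L) (Real.log ρ) θ,
      (Real.exp z.re * s / 4) ^ (1 / q) ≤ ‖ψ (W ζ z) - c₀‖ := by
    intro ζ hζ z hz
    obtain ⟨h4, -, h5, h6⟩ := hrect ζ hζ z hz
    have h7 := Real.exp_pos z.re
    refine dist_ge hq0 hlev (mul_pos h7 hs0) (by nlinarith) ?_ h4
    refine le_trans ?_ h3
    apply Real.rpow_le_rpow (by positivity) _ (by positivity)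
    nlinarith
  have hup : ∀ ζ ∈ F, ∀ z ∈ Rect (-L) (Real.log ρ) θ,
      ‖ψ (W ζ z) - c₀‖ ≤ Real.exp z.re ^ p := by
    intro ζ hζ z hz
    obtain ⟨-, h5, -, h6⟩ := hrect ζ hζ z hz
    rw [← h5]
    exact h1 ζ hζ _ (hrect2 ζ hζ z hz) (by rw [h5]; exact h6)
  -- the images
  obtain ⟨S, hS⟩ : ∃ S : ℂ → Set ℂ, S = fun ζ => (fun z => ψ (W ζ z)) '' Rect (-L) (Real.log ρ) θ :=
    ⟨_, rfl⟩
  have hUo : ∀ ζ : ℂ, IsOpen {z : ℂ | 1 < ‖W ζ z‖} := by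
    intro ζ
    refine isOpen_lt continuous_const (Continuous.norm ?_)
    unfold W
    fun_prop
  have hGd : ∀ ζ : ℂ, DifferentiableOn ℂ (fun z => ψ (W ζ z)) {z : ℂ | 1 < ‖W ζ z‖} := by
    intro ζ
    refine h.ext.diff.comp (f := W ζ) ?_ fun z hz => hz
    unfold W
    fun_prop
  have hRc : IsCompact (Rect (-L) (Real.log ρ) θ) := by
    have h4 : Rect (-L) (Real.log ρ) θ = Complex.equivRealProdCLM ⁻¹'
        (Icc (-L) (Real.log ρ) ×ˢ Icc (-θ) θ) := rfl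
    rw [h4]
    exact (Complex.equivRealProdCLM.toHomeomorph.isCompact_preimage).2
      (isCompact_Icc.prod isCompact_Icc)
  have hSm : ∀ ζ ∈ F, MeasurableSet (S ζ) := by
    intro ζ hζ
    rw [hS]
    refine (hRc.image_of_continuousOn ((hGd ζ).continuousOn.mono ?_)).measurableSet
    exact hrect2 ζ hζ
  have hinj : ∀ ζ ∈ F, InjOn (fun z => ψ (W ζ z)) (Rect (-L) (Real.log ρ) θ) := by
    intro ζ hζ z hz z' hz' hh
    have h4 := h.ext.inj (hrect2 ζ hζ z hz) (hrect2 ζ hζ z' hz') hh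
    have h5 : ∀ z ∈ Rect (-L) (Real.log ρ) θ, |z.im| < Real.pi / 2 := by
      intro z hz
      have := abs_le.2 hz.2
      linarith
    exact W_inj (hF ζ hζ).1 (h5 z hz) (h5 z' hz') h4
  have hdisj : (F : Set ℂ).PairwiseDisjoint S := by
    intro ζ hζ ζ' hζ' hne
    rw [Function.onFun, Set.disjoint_left, hS]
    rintro _ ⟨z, hz, rfl⟩ ⟨z', hz', hh⟩
    have h4 := h.ext.inj (hrect2 ζ' hζ' z' hz') (hrect2 ζ hζ z hz) hh
    obtain ⟨-, h5, -, h6⟩ := hrect ζ hζ z hz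
    obtain ⟨-, h7, -, h8⟩ := hrect ζ' hζ' z' hz'
    have h9 := h2 ζ hζ ζ' hζ' hne
    have h10 : ‖ζ - ζ'‖ ≤ ‖W ζ z - ζ‖ + ‖W ζ' z' - ζ'‖ := by
      rw [h4, norm_sub_rev (W ζ z) ζ]
      have := norm_add_le (ζ - W ζ z) (W ζ z - ζ')
      rwa [sub_add_sub_cancel] at this
    linarith
  have hone : ∀ ζ ∈ F, ENNReal.ofReal (2 * θ * ((B + p * L) ^ 2 / (L + Real.log ρ))) ≤
      ∫⁻ w in S ζ, ENNReal.ofReal ((‖w - c₀‖ ^ 2)⁻¹) := by
    intro ζ hζ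
    have h4 := rect_le (G := fun z => ψ (W ζ z)) (c₀ := c₀) (a := -L) (b := Real.log ρ) (h := θ)
      (A := -(p * L)) (B := B) (hUo ζ) (hGd ζ) (by linarith) hθ0 (hrect2 ζ hζ) ?_ ?_ ?_ hAB
    · rw [hS, Pool.Agent.TH653.MC.cv (hUo ζ) (hGd ζ) (hinj ζ hζ) (Rect_meas _ _ _) (hrect2 ζ hζ)]
      refine le_trans (le_of_eq ?_) h4
      congr 2
      rw [sub_neg_eq_add, sub_neg_eq_add, add_comm (Real.log ρ) L]
    · intro z hz
      have h5 := hlow ζ hζ z hz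
      have h6 : 0 < (Real.exp z.re * s / 4) ^ (1 / q) := by positivity
      exact fun hh => by
        rw [hh, sub_self, norm_zero] at h5
        linarith
    · intro y hy
      have hz : (((-L : ℝ) : ℂ) + y * I) ∈ Rect (-L) (Real.log ρ) θ := by
        constructor
        · simp
          linarith
        · simpa using hy
      have h5 := hup ζ hζ _ hz
      have h6 := hlow ζ hζ _ hz
      have h7 : 0 < (Real.exp (((-L : ℝ) : ℂ) + y * I).re * s / 4) ^ (1 / q) := by positivity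
      have h8 := Real.log_le_log (h7.trans_le h6) h5
      refine h8.trans (le_of_eq ?_)
      rw [Real.log_rpow (Real.exp_pos _), Real.log_exp]
      simp
    · intro y hy
      have hz : ((Real.log ρ : ℂ) + y * I) ∈ Rect (-L) (Real.log ρ) θ := by
        constructor
        · simp
          linarith
        · simpa using hy
      have h6 := hlow ζ hζ _ hz
      have h9 : ((Real.log ρ : ℂ) + y * I).re = Real.log ρ := by simp
      rw [h9, Real.exp_log hρ0] at h6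
      rw [hB]
      exact Real.log_le_log (by positivity) h6
  -- the sum
  have hsum : ∑ ζ ∈ F, ∫⁻ w in S ζ, ENNReal.ofReal ((‖w - c₀‖ ^ 2)⁻¹) ≤
      ENNReal.ofReal (2 * Real.pi * Real.log (1 / r₁)) := by
    rw [← lintegral_biUnion_finset hdisj hSm]
    refine ring_at hr₁0 hr₁1 c₀ (Finset.measurableSet_biUnion F hSm) ?_
    intro w hw
    simp only [mem_iUnion] at hw
    obtain ⟨ζ, hζ, hw⟩ := hw
    rw [hS] at hw
    obtain ⟨z, hz, rfl⟩ := hw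
    obtain ⟨-, -, h5, h6⟩ := hrect ζ hζ z hz
    constructor
    · refine le_trans ?_ (hlow ζ hζ z hz)
      rw [hr₁]
      apply Real.rpow_le_rpow (by positivity) _ (by positivity)
      nlinarith
    · refine (hup ζ hζ z hz).trans ?_
      exact Real.rpow_le_one (Real.exp_pos _).le (by linarith) hp0.le
  have hfin := (Finset.sum_le_sum hone).trans hsum
  rw [Finset.sum_const, nsmul_eq_mul, ← ENNReal.ofReal_natCast, ← ENNReal.ofReal_mul (by positivity)]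
    at hfin
  have hlogr : Real.log (1 / r₁) = 1 / q * (L + - Real.log (s / 4)) := by
    rw [one_div r₁, Real.log_inv, hr₁, Real.log_rpow (by positivity), mul_div_assoc,
      Real.log_mul hδ0.ne' (by positivity), hlogδ]
    ring
  have hnn : 0 ≤ 2 * Real.pi * Real.log (1 / r₁) := by
    have : 0 ≤ Real.log (1 / r₁) := Real.log_nonneg (by rw [le_div_iff₀ hr₁0]; linarith)
    positivity
  rw [ENNReal.ofReal_le_ofReal_iff hnn, hlogr] at hfin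
  have e4 : Real.pi - 2 * κ = 2 * θ := by rw [hθ]; ring
  rw [e4]
  exact hfin

/-- the first limit -/
theorem lim1 {n t B C D p q : ℝ} (h : ∀ᶠ L : ℝ in atTop, n * (t *
      ((B + p * L) ^ 2 / (L + D))) ≤ 2 * Real.pi * (1 / q * (L + C))) :
    n * (t * p ^ 2) ≤ 2 * Real.pi * (1 / q) := by
  have h1 : Tendsto (fun L : ℝ => (B / L + p) ^ 2 / (1 + D / L)) atTop (𝓝 ((0 + p) ^ 2 / (1 + 0))) := by
    refine Tendsto.div (((tendsto_const_nhds.div_atTop tendsto_id).add_const p).pow 2)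
      ((tendsto_const_nhds.div_atTop tendsto_id).const_add 1) (by norm_num)
  have h2 : Tendsto (fun L : ℝ => n * (t * ((B / L + p) ^ 2 / (1 + D / L)))) atTop
      (𝓝 (n * (t * ((0 + p) ^ 2 / (1 + 0))))) := (h1.const_mul t).const_mul n
  have h3 : Tendsto (fun L : ℝ => 2 * Real.pi * (1 / q * (1 + C / L))) atTop
      (𝓝 (2 * Real.pi * (1 / q * (1 + 0)))) :=
    (((tendsto_const_nhds.div_atTop tendsto_id).const_add 1).const_mul _).const_mul _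
  have h4 := le_of_tendsto_of_tendsto h2 h3 ?_
  · simpa using h4
  · filter_upwards [h, eventually_gt_atTop 0, eventually_gt_atTop (-D)] with L hL hL0 hLD
    have h5 : (B / L + p) ^ 2 / (1 + D / L) = (B + p * L) ^ 2 / (L + D) / L := by
      have : L + D ≠ 0 := by linarith
      have : 1 + D / L ≠ 0 := by
        have h6 : 1 + D / L = (L + D) / L := by field_simp
        rw [h6]
        positivity
      field_simp
    have h6 : 2 * Real.pi * (1 / q * (1 + C / L)) = 2 * Real.pi * (1 / q * (L + C)) / L := by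
      field_simp
    rw [h5, h6, le_div_iff₀ hL0]
    refine le_trans (le_of_eq ?_) hL
    field_simp

/-- **The number of rays.** -/
theorem card_le {M : Set ℂ} {ψ : ℂ → ℂ} {c₀ : ℂ} {α : ℝ} (h : Hyp M ψ c₀ α) (F : Finset ℂ)
    (hF : ∀ ζ ∈ F, ‖ζ‖ = 1 ∧ MapClusterPt c₀ (𝓝[{w | 1 < ‖w‖}] ζ) ψ) :
    (F.card : ℝ) ≤ 2 * α := by
  have hα := h.pos
  have hpi := Real.pi_pos
  have hα1 : 0 < 1 / α := by positivity
  have h1 : ∀ᶠ ε : ℝ in 𝓝[>] 0, (F.card : ℝ) * ((Real.pi - 2 * ε) * (1 / α - ε) ^ 2) ≤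
      2 * Real.pi * (1 / (α - ε)) := by
    filter_upwards [Ioo_mem_nhdsGT hα, Ioo_mem_nhdsGT hα1, Ioo_mem_nhdsGT (half_pos hpi)] with ε
      a1 a2 a3
    obtain ⟨B, C, D, H⟩ := area h F hF a1.1 a1.2 a2.2 a3.1 a3.2
    exact lim1 H
  have h2 : Tendsto (fun ε : ℝ => (F.card : ℝ) * ((Real.pi - 2 * ε) * (1 / α - ε) ^ 2)) (𝓝[>] 0)
      (𝓝 ((F.card : ℝ) * ((Real.pi - 2 * 0) * (1 / α - 0) ^ 2))) := by
    have : Continuous fun ε : ℝ => (F.card : ℝ) * ((Real.pi - 2 * ε) * (1 / α - ε) ^ 2) := by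
      fun_prop
    exact (this.tendsto 0).mono_left nhdsWithin_le_nhds
  have h3 : Tendsto (fun ε : ℝ => 2 * Real.pi * (1 / (α - ε))) (𝓝[>] 0)
      (𝓝 (2 * Real.pi * (1 / (α - 0)))) := by
    have : Tendsto (fun ε : ℝ => 2 * Real.pi * (1 / (α - ε))) (𝓝 0)
        (𝓝 (2 * Real.pi * (1 / (α - 0)))) := by
      apply Tendsto.const_mul
      apply Tendsto.div tendsto_const_nhds
      · exact (by fun_prop : Continuous fun ε : ℝ => α - ε).tendsto 0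
      · rw [sub_zero]
        exact hα.ne'
    exact this.mono_left nhdsWithin_le_nhds
  have h4 := le_of_tendsto_of_tendsto h2 h3 h1
  rw [mul_zero, sub_zero, sub_zero, sub_zero, div_pow, one_pow] at h4
  have h5 : (F.card : ℝ) * (Real.pi * (1 / α ^ 2)) = (Real.pi / α ^ 2) * F.card := by ring
  have h6 : 2 * Real.pi * (1 / α) = (Real.pi / α ^ 2) * (2 * α) := by field_simp
  rw [h5, h6] at h4
  exact le_of_mul_le_mul_left h4 (by positivity)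

/-- the set of the angles is finite -/
theorem angles_finite {M : Set ℂ} {ψ : ℂ → ℂ} {c₀ : ℂ} {α : ℝ} (h : Hyp M ψ c₀ α) :
    {ζ : ℂ | ‖ζ‖ = 1 ∧ MapClusterPt c₀ (𝓝[{w | 1 < ‖w‖}] ζ) ψ}.Finite := by
  by_contra hcon
  obtain ⟨n, hn⟩ := exists_nat_gt (2 * α)
  obtain ⟨F, hF, hFn⟩ := Set.Infinite.exists_subset_card_eq hcon n
  have h1 := card_le h F fun ζ hζ => hF hζ
  rw [hFn] at h1
  linarith

/-- the number of the angles -/
theorem angles_ncard {M : Set ℂ} {ψ : ℂ → ℂ} {c₀ : ℂ} {α : ℝ} (h : Hyp M ψ c₀ α) :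
    ({ζ : ℂ | ‖ζ‖ = 1 ∧ MapClusterPt c₀ (𝓝[{w | 1 < ‖w‖}] ζ) ψ}.ncard : ℝ) ≤ 2 * α := by
  rw [Set.ncard_eq_toFinset_card _ (angles_finite h)]
  apply card_le h
  intro ζ hζ
  rw [Set.Finite.mem_toFinset] at hζ
  exact hζ

end Pool.Agent.H206.Ray
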