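import Pool.Agent.H206.RayB
import Pool.Agent.H206.Imp

set_option autoImplicit false

/-! # The components of the complement of a point -/

namespace Pool.Agent.H206.Ray

open Complex Metric Set Filter Topology MeasureTheory
open Pool.Agent.N253.LC
open Pool.Agent.H713R2 (IsExteriorMap)

/-- a point of the circle given by an angle -/
noncomputable def pt (ζ₀ : ℂ) (t : ℝ) : ℂ := -ζ₀ * Complex.exp (t * I)

/-- the angle -/
noncomputable def ang (ζ₀ ζ : ℂ) : ℝ := Complex.arg (-ζ / ζ₀)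

/-- the sector -/
def Sec (ζ₀ : ℂ) (a b r : ℝ) : Set ℂ := (fun p : ℝ × ℝ => (p.1 : ℂ) * pt ζ₀ p.2) '' (Ioc 1 r ×ˢ Icc a b)

theorem pt_norm {ζ₀ : ℂ} (h0 : ‖ζ₀‖ = 1) (t : ℝ) : ‖pt ζ₀ t‖ = 1 := by
  unfold pt
  rw [norm_mul, norm_neg, h0, one_mul, Complex.norm_exp_ofReal_mul_I]

theorem pt_ang {ζ₀ ζ : ℂ} (h0 : ‖ζ₀‖ = 1) (hζ : ‖ζ‖ = 1) : pt ζ₀ (ang ζ₀ ζ) = ζ := by
  have hne : ζ₀ ≠ 0 := by
    intro hh
    rw [hh, norm_zero] at h0
    exact zero_ne_one h0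
  unfold pt ang
  have h1 := Complex.norm_mul_exp_arg_mul_I (-ζ / ζ₀)
  rw [norm_div, norm_neg, hζ, h0, div_one, Complex.ofReal_one, one_mul] at h1
  rw [h1]
  field_simp

theorem ang_pt {ζ₀ : ℂ} (h0 : ‖ζ₀‖ = 1) {t : ℝ} (ht : t ∈ Ioc (-Real.pi) Real.pi) :
    ang ζ₀ (pt ζ₀ t) = t := by
  have hne : ζ₀ ≠ 0 := by
    intro hh
    rw [hh, norm_zero] at h0
    exact zero_ne_one h0
  unfold pt ang
  have h1 : -(-ζ₀ * Complex.exp (t * I)) / ζ₀ = Complex.exp (t * I) := by field_simp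
  rw [h1, Complex.arg_exp_mul_I, toIocMod_eq_self (Real.two_pi_pos)]
  · have : -Real.pi + 2 * Real.pi = Real.pi := by ring
    rw [this]
    exact ht

theorem slit {ζ₀ ζ : ℂ} (h0 : ‖ζ₀‖ = 1) (hζ : ‖ζ‖ = 1) (hne : ζ ≠ ζ₀) :
    -ζ / ζ₀ ∈ Complex.slitPlane ∧ ang ζ₀ ζ ∈ Ioo (-Real.pi) Real.pi := by
  have hne0 : ζ₀ ≠ 0 := by
    intro hh
    rw [hh, norm_zero] at h0
    exact zero_ne_one h0
  have h1 : -ζ / ζ₀ ≠ 0 := by
    rw [div_ne_zero_iff]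
    refine ⟨?_, hne0⟩
    rw [neg_ne_zero]
    intro hh
    rw [hh, norm_zero] at hζ
    exact zero_ne_one hζ
  have h2 : ang ζ₀ ζ ≠ Real.pi := by
    intro hh
    have h3 := pt_ang h0 hζ
    rw [hh] at h3
    unfold pt at h3
    rw [Complex.exp_pi_mul_I] at h3
    exact hne (by rw [← h3]; ring)
  refine ⟨Complex.mem_slitPlane_iff_arg.2 ⟨h2, h1⟩, ?_, ?_⟩
  · exact Complex.neg_pi_lt_arg _
  · exact lt_of_le_of_ne (Complex.arg_le_pi _) h2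

theorem Sec_norm {ζ₀ : ℂ} (h0 : ‖ζ₀‖ = 1) {a b r : ℝ} {w : ℂ} (hw : w ∈ Sec ζ₀ a b r) :
    1 < ‖w‖ ∧ ‖w‖ ≤ r := by
  obtain ⟨⟨s, t⟩, ⟨hs, -⟩, rfl⟩ := hw
  have hs' : 1 < s := hs.1
  have h1 : ‖((s : ℝ) : ℂ) * pt ζ₀ t‖ = s := by
    rw [norm_mul, pt_norm h0, mul_one, Complex.norm_real, Real.norm_of_nonneg (by linarith)]
  simp only
  rw [h1]
  exact ⟨hs', hs.2⟩

theorem Sec_mono (ζ₀ : ℂ) (a b : ℝ) {r r' : ℝ} (h : r ≤ r') : Sec ζ₀ a b r ⊆ Sec ζ₀ a b r' :=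
  image_mono (prod_mono (Ioc_subset_Ioc_right h) subset_rfl)

theorem Sec_pre (ζ₀ : ℂ) (a b r : ℝ) : IsPreconnected (Sec ζ₀ a b r) := by
  apply IsPreconnected.image
  · exact (isPreconnected_Ioc).prod isPreconnected_Icc
  · unfold pt
    fun_prop

/-- points near a point of the circle are in the sector -/
theorem Sec_nhds {ζ₀ ζ : ℂ} (h0 : ‖ζ₀‖ = 1) (hζ : ‖ζ‖ = 1) (hne : ζ ≠ ζ₀) {a b r : ℝ}
    (ha : a < ang ζ₀ ζ) (hb : ang ζ₀ ζ < b) (hr : 1 < r) :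
    Sec ζ₀ a b r ∈ 𝓝[{w | 1 < ‖w‖}] ζ := by
  have hc : ContinuousAt (fun w => ang ζ₀ w) ζ := by
    unfold ang
    have h1 : ContinuousAt (fun w : ℂ => -w / ζ₀) ζ := by fun_prop
    exact ContinuousAt.comp (g := Complex.arg) (Complex.continuousAt_arg (slit h0 hζ hne).1) h1
  have h2 : ∀ᶠ w in 𝓝 ζ, ang ζ₀ w ∈ Ioo a b := hc.eventually (Ioo_mem_nhds ha hb)
  have h3 : ∀ᶠ w : ℂ in 𝓝 ζ, ‖w‖ < r := by
    have : ContinuousAt (fun w : ℂ => ‖w‖) ζ := continuous_norm.continuousAt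
    exact this.eventually (Iio_mem_nhds (by show ‖ζ‖ < r; rw [hζ]; exact hr))
  filter_upwards [mem_nhdsWithin_of_mem_nhds h2, mem_nhdsWithin_of_mem_nhds h3,
    self_mem_nhdsWithin] with w h4 h5 h6
  have h6 : 1 < ‖w‖ := h6
  refine ⟨(‖w‖, ang ζ₀ w), ⟨⟨h6, h5.le⟩, ⟨h4.1.le, h4.2.le⟩⟩, ?_⟩
  have hne0 : ζ₀ ≠ 0 := by
    intro hh
    rw [hh, norm_zero] at h0
    exact zero_ne_one h0
  simp only
  unfold pt ang
  have h7 := Complex.norm_mul_exp_arg_mul_I (-w / ζ₀)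
  rw [norm_div, norm_neg, h0, div_one] at h7
  have h8 : (‖w‖ : ℂ) * (-ζ₀ * Complex.exp (Complex.arg (-w / ζ₀) * I)) =
      -ζ₀ * (‖w‖ * Complex.exp (Complex.arg (-w / ζ₀) * I)) := by ring
  rw [h8, h7]
  field_simp

/-- the union of the impressions over a closed arc contains a continuum which contains the impressions
of the inner points -/
theorem arc {M : Set ℂ} {ψ : ℂ → ℂ} (hψ : IsExteriorMap M ψ) (hb : ∀ w : ℂ, 1 < ‖w‖ → ‖ψ w‖ ≤ 2 * ‖w‖)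
    {ζ₀ : ℂ} (h0 : ‖ζ₀‖ = 1) (a b : ℝ) :
    ∃ C : Set ℂ, IsPreconnected C ∧
      (∀ ζ : ℂ, ‖ζ‖ = 1 → ζ ≠ ζ₀ → a < ang ζ₀ ζ → ang ζ₀ ζ < b → imp ψ ζ ⊆ C) ∧
      ∀ x ∈ C, ∃ t ∈ Icc a b, x ∈ imp ψ (pt ζ₀ t) := by
  obtain ⟨E, hE⟩ : ∃ E : ℕ → Set ℂ, E = fun n : ℕ => closure (ψ '' Sec ζ₀ a b (1 + 1 / ((n : ℝ) + 1))) :=
    ⟨_, rfl⟩
  have hopen : IsOpen {z : ℂ | 1 < ‖z‖} := isOpen_lt continuous_const continuous_norm
  have hr : ∀ n : ℕ, (1 : ℝ) < 1 + 1 / ((n : ℝ) + 1) := by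
    intro n
    have : (0 : ℝ) < 1 / ((n : ℝ) + 1) := by positivity
    linarith
  have hr2 : ∀ n : ℕ, 1 + 1 / ((n : ℝ) + 1) ≤ 2 := by
    intro n
    have h1 : (0 : ℝ) ≤ n := Nat.cast_nonneg n
    have : 1 / ((n : ℝ) + 1) ≤ 1 := by
      rw [div_le_one (by positivity)]
      linarith
    linarith
  have hball : ∀ n : ℕ, ψ '' Sec ζ₀ a b (1 + 1 / ((n : ℝ) + 1)) ⊆ closedBall (0 : ℂ) 4 := by
    intro n
    rintro _ ⟨w, hw, rfl⟩
    obtain ⟨h1, h2⟩ := Sec_norm h0 hw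
    rw [mem_closedBall_zero_iff]
    have := hb w h1
    have := hr2 n
    linarith
  have hcont : ContinuousOn ψ {z : ℂ | 1 < ‖z‖} := hψ.diff.continuousOn
  have hanti : Antitone E := by
    intro m n hmn
    rw [hE]
    apply closure_mono
    apply image_mono
    apply Sec_mono
    have h1 : (m : ℝ) ≤ n := by exact_mod_cast hmn
    have h2 : (0 : ℝ) ≤ m := Nat.cast_nonneg m
    have : 1 / ((n : ℝ) + 1) ≤ 1 / ((m : ℝ) + 1) := by
      apply one_div_le_one_div_of_le (by positivity)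
      linarith
    linarith
  have hcomp : ∀ n, IsCompact (E n) := by
    intro n
    rw [hE]
    exact (isCompact_closedBall (0 : ℂ) 4).of_isClosed_subset isClosed_closure
      (closure_minimal (hball n) isClosed_closedBall)
  have hpre : ∀ n, IsPreconnected (E n) := by
    intro n
    rw [hE]
    apply IsPreconnected.closure
    apply (Sec_pre _ _ _ _).image
    exact hcont.mono fun w hw => (Sec_norm h0 hw).1
  refine ⟨⋂ n, E n, Pool.Agent.N253.LC.CON.isPreconnected_iInter E hanti hcomp hpre, ?_, ?_⟩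
  · intro ζ hζ hne ha hb' x hx
    rw [mem_iInter]
    intro n
    rw [hE]
    have h1 := Sec_nhds h0 hζ hne ha hb' (hr n)
    rw [mem_closure_iff_clusterPt]
    have h2 : MapClusterPt x (𝓝[{w | 1 < ‖w‖}] ζ) ψ := hx
    apply ClusterPt.mono h2
    rw [le_principal_iff]
    exact image_mem_map h1
  · intro x hx
    rw [mem_iInter] at hx
    have h1 : ∀ n : ℕ, ∃ p : ℝ × ℝ, p ∈ Ioc (1 : ℝ) (1 + 1 / ((n : ℝ) + 1)) ×ˢ Icc a b ∧
        dist x (ψ ((p.1 : ℂ) * pt ζ₀ p.2)) < 1 / ((n : ℝ) + 1) := by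
      intro n
      have h2 := hx n
      rw [hE] at h2
      obtain ⟨y, ⟨w, ⟨p, hp, rfl⟩, rfl⟩, hy⟩ := Metric.mem_closure_iff.1 h2 (1 / ((n : ℝ) + 1))
        (by positivity)
      exact ⟨p, hp, hy⟩
    choose p hp hpd using h1
    have h2 : ∀ n, p n ∈ Icc (1 : ℝ) 2 ×ˢ Icc a b := by
      intro n
      exact ⟨⟨(hp n).1.1.le, (hp n).1.2.trans (hr2 n)⟩, (hp n).2⟩
    obtain ⟨⟨s, t⟩, hst, φ, hφ, hlim⟩ := (isCompact_Icc.prod isCompact_Icc).tendsto_subseq h2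
    have hs : s = 1 := by
      have h3 : Tendsto (fun n => (p (φ n)).1) atTop (𝓝 s) :=
        (continuous_fst.tendsto _).comp hlim
      have h4 : Tendsto (fun n : ℕ => 1 + 1 / ((φ n : ℝ) + 1)) atTop (𝓝 (1 + 0)) :=
        (tendsto_one_div_add_atTop_nhds_zero_nat.comp hφ.tendsto_atTop).const_add 1
      rw [add_zero] at h4
      exact le_antisymm (le_of_tendsto_of_tendsto' h3 h4 fun n => (hp (φ n)).1.2) hst.1.1
    refine ⟨t, hst.2, ?_⟩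
    have h5 : Tendsto (fun n => ((p (φ n)).1 : ℂ) * pt ζ₀ (p (φ n)).2) atTop
        (𝓝[{w | 1 < ‖w‖}] (pt ζ₀ t)) := by
      rw [tendsto_nhdsWithin_iff]
      constructor
      · have h6 : Continuous fun q : ℝ × ℝ => (q.1 : ℂ) * pt ζ₀ q.2 := by
          unfold pt
          fun_prop
        have h7 := (h6.tendsto (s, t)).comp hlim
        simp only [hs, Complex.ofReal_one, one_mul] at h7
        exact h7
      · refine Eventually.of_forall fun n => ?_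
        exact (Sec_norm h0 ⟨p (φ n), hp (φ n), rfl⟩).1
    have h6 : Tendsto (fun n => ψ (((p (φ n)).1 : ℂ) * pt ζ₀ (p (φ n)).2)) atTop (𝓝 x) := by
      rw [tendsto_iff_dist_tendsto_zero]
      have h7 : Tendsto (fun n : ℕ => 1 / ((φ n : ℝ) + 1)) atTop (𝓝 0) :=
        tendsto_one_div_add_atTop_nhds_zero_nat.comp hφ.tendsto_atTop
      refine squeeze_zero (fun n => dist_nonneg) (fun n => ?_) h7
      rw [dist_comm]
      exact (hpd (φ n)).le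
    exact (h6.mapClusterPt).of_comp h5

end Pool.Agent.H206.Ray
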