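import Pool.Agent.H206.RayC
import Pool.Graph.R_seed8.R240.ExtMax

set_option autoImplicit false

/-! # The components of the complement of a point, II -/

namespace Pool.Agent.H206.Ray

open Complex Metric Set Filter Topology MeasureTheory
open Pool.Agent.N253.LC
open Pool.Agent.H713R2 (IsExteriorMap)

/-- every point is joined to a boundary point by a segment which does not meet `c₀` -/
theorem exit {M : Set ℂ} (hM : IsCompact M) {x c₀ : ℂ} (hx : x ∈ M) (hne : x ≠ c₀) :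
    ∃ y ∈ frontier M, y ≠ c₀ ∧ segment ℝ x y ⊆ M \ {c₀} := by
  obtain ⟨u, hu⟩ : ∃ u : ℂ, u = (x - c₀) * I := ⟨_, rfl⟩
  have hxc : x - c₀ ≠ 0 := sub_ne_zero.2 hne
  have hu0 : u ≠ 0 := by rw [hu]; exact mul_ne_zero hxc I_ne_zero
  have hline : ∀ t : ℝ, x + t * u ≠ c₀ := by
    intro t hh
    have h1 : (x - c₀) * (1 + t * I) = 0 := by
      rw [hu] at hh
      linear_combination hh
    rcases mul_eq_zero.1 h1 with h2 | h2
    · exact hxc h2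
    · have := congrArg Complex.re h2
      simp at this
  obtain ⟨B, hB⟩ := hM.isBounded.exists_norm_le
  obtain ⟨A, hA⟩ : ∃ A : Set ℝ, A = {t : ℝ | 0 ≤ t ∧ x + t * u ∉ M} := ⟨_, rfl⟩
  have hAne : A.Nonempty := by
    have hun : 0 < ‖u‖ := norm_pos_iff.2 hu0
    refine ⟨(B + ‖x‖ + 1) / ‖u‖, ?_⟩
    have hB0 : 0 ≤ B := (norm_nonneg x).trans (hB x hx)
    have h2 : 0 ≤ (B + ‖x‖ + 1) / ‖u‖ := by positivity
    rw [hA]
    refine ⟨h2, fun hh => ?_⟩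
    have h3 := hB _ hh
    have h4 : ‖(((B + ‖x‖ + 1) / ‖u‖ : ℝ) : ℂ) * u‖ = B + ‖x‖ + 1 := by
      rw [norm_mul, Complex.norm_real, Real.norm_of_nonneg h2]
      field_simp
    have h5 : ‖(((B + ‖x‖ + 1) / ‖u‖ : ℝ) : ℂ) * u‖ ≤
        ‖x + (((B + ‖x‖ + 1) / ‖u‖ : ℝ) : ℂ) * u‖ + ‖x‖ := by
      have := norm_sub_le (x + (((B + ‖x‖ + 1) / ‖u‖ : ℝ) : ℂ) * u) x
      rwa [add_sub_cancel_left] at this
    linarith
  have hAb : BddBelow A := ⟨0, by rw [hA]; exact fun t ht => ht.1⟩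
  obtain ⟨s, hs⟩ : ∃ s : ℝ, s = sInf A := ⟨_, rfl⟩
  have hs0 : 0 ≤ s := by
    rw [hs]
    apply le_csInf hAne
    rw [hA]
    exact fun t ht => ht.1
  have hlt : ∀ t : ℝ, 0 ≤ t → t < s → x + t * u ∈ M := by
    intro t ht0 hts
    by_contra hcon
    have : s ≤ t := by
      rw [hs]
      apply csInf_le hAb
      rw [hA]
      exact ⟨ht0, hcon⟩
    linarith
  have hcont : Continuous fun t : ℝ => x + t * u := by fun_prop
  have hsM : x + s * u ∈ M := by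
    rcases hs0.eq_or_lt with h1 | h1
    · rw [← h1]
      simpa using hx
    · have h2 : s ∈ closure (Ico 0 s) := by
        rw [closure_Ico (by linarith)]
        exact ⟨h1.le, le_rfl⟩
      have h3 : x + s * u ∈ closure ((fun t : ℝ => x + t * u) '' Ico 0 s) :=
        image_closure_subset_closure_image hcont ⟨s, h2, rfl⟩
      refine closure_minimal ?_ hM.isClosed h3
      rintro _ ⟨t, ht, rfl⟩
      exact hlt t ht.1 ht.2
  have hsc : x + s * u ∈ closure Mᶜ := by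
    have h1 : s ∈ closure A := by
      rw [hs]
      exact csInf_mem_closure hAne hAb
    have h3 : x + s * u ∈ closure ((fun t : ℝ => x + t * u) '' A) :=
      image_closure_subset_closure_image hcont ⟨s, h1, rfl⟩
    refine closure_mono ?_ h3
    rintro _ ⟨t, ht, rfl⟩
    rw [hA] at ht
    exact ht.2
  refine ⟨x + s * u, ?_, hline s, ?_⟩
  · rw [frontier_eq_closure_inter_closure]
    exact ⟨subset_closure hsM, hsc⟩
  · intro z hz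
    rw [segment_eq_image'] at hz
    obtain ⟨v, hv, rfl⟩ := hz
    have h1 : x + v • (x + s * u - x) = x + ((v * s : ℝ) : ℂ) * u := by
      rw [Complex.real_smul]
      push_cast
      ring
    simp only
    rw [h1]
    refine ⟨?_, hline _⟩
    have h2 : v * s ≤ s := by nlinarith [hv.1, hv.2]
    rcases h2.eq_or_lt with h3 | h3
    · rw [h3]
      exact hsM
    · exact hlt _ (mul_nonneg hv.1 hs0) h3

/-- two points of the circle in the same arc -/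
theorem same_arc {M : Set ℂ} {ψ : ℂ → ℂ} (hψ : IsExteriorMap M ψ)
    (hb : ∀ w : ℂ, 1 < ‖w‖ → ‖ψ w‖ ≤ 2 * ‖w‖) {c₀ : ℂ} {F : Finset ℂ}
    (hF : ∀ ζ : ℂ, ζ ∈ F ↔ ‖ζ‖ = 1 ∧ c₀ ∈ imp ψ ζ) {ζ₀ : ℂ} (h0 : ζ₀ ∈ F) {ζ ζ' : ℂ} (hζ : ‖ζ‖ = 1)
    (hζ' : ‖ζ'‖ = 1) (hζF : ζ ∉ F) (hζF' : ζ' ∉ F) (hle : ang ζ₀ ζ ≤ ang ζ₀ ζ')
    (hk : (F.filter fun ξ => ang ζ₀ ξ < ang ζ₀ ζ).card =
      (F.filter fun ξ => ang ζ₀ ξ < ang ζ₀ ζ').card) :
    ∃ C : Set ℂ, IsPreconnected C ∧ C ⊆ M \ {c₀} ∧ imp ψ ζ ⊆ C ∧ imp ψ ζ' ⊆ C := by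
  have h01 : ‖ζ₀‖ = 1 := ((hF ζ₀).1 h0).1
  have hne : ζ ≠ ζ₀ := fun hh => hζF (by rw [hh]; exact h0)
  have hne' : ζ' ≠ ζ₀ := fun hh => hζF' (by rw [hh]; exact h0)
  have hsub : (F.filter fun ξ => ang ζ₀ ξ < ang ζ₀ ζ) ⊆ F.filter fun ξ => ang ζ₀ ξ < ang ζ₀ ζ' := by
    intro ξ hξ
    rw [Finset.mem_filter] at hξ ⊢
    exact ⟨hξ.1, hξ.2.trans_le hle⟩
  have heq := Finset.eq_of_subset_of_card_le hsub hk.ge
  have hout : ∀ ξ ∈ F, ang ζ₀ ξ < ang ζ₀ ζ ∨ ang ζ₀ ζ' < ang ζ₀ ξ := by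
    intro ξ hξ
    by_contra hcon
    push Not at hcon
    rcases hcon.2.eq_or_lt with h1 | h1
    · apply hζF'
      rw [← pt_ang h01 hζ', ← h1, pt_ang h01 ((hF ξ).1 hξ).1]
      exact hξ
    · have h2 : ξ ∈ F.filter fun ξ => ang ζ₀ ξ < ang ζ₀ ζ' := Finset.mem_filter.2 ⟨hξ, h1⟩
      rw [← heq, Finset.mem_filter] at h2
      linarith [h2.2, hcon.1]
  have hs := (slit h01 hζ hne).2
  have hs' := (slit h01 hζ' hne').2
  -- the end points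
  have ha : ∀ᶠ a in 𝓝[<] (ang ζ₀ ζ), ∀ ξ ∈ F, ang ζ₀ ξ < ang ζ₀ ζ → ang ζ₀ ξ < a := by
    rw [Finset.eventually_all]
    intro ξ hξ
    by_cases h1 : ang ζ₀ ξ < ang ζ₀ ζ
    · filter_upwards [Ioo_mem_nhdsLT h1] with a ha _
      exact ha.1
    · exact Eventually.of_forall fun a hh => absurd hh h1
  have hb' : ∀ᶠ b in 𝓝[>] (ang ζ₀ ζ'), ∀ ξ ∈ F, ang ζ₀ ζ' < ang ζ₀ ξ → b < ang ζ₀ ξ := by
    rw [Finset.eventually_all]
    intro ξ hξ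
    by_cases h1 : ang ζ₀ ζ' < ang ζ₀ ξ
    · filter_upwards [Ioo_mem_nhdsGT h1] with b hb _
      exact hb.2
    · exact Eventually.of_forall fun b hh => absurd hh h1
  obtain ⟨a, ha1, ha2⟩ := (ha.and (Ioo_mem_nhdsLT hs.1)).exists
  obtain ⟨b, hb1, hb2⟩ := (hb'.and (Ioo_mem_nhdsGT hs'.2)).exists
  obtain ⟨C, hC, hC1, hC2⟩ := arc hψ hb h01 a b
  refine ⟨C, hC, ?_, hC1 ζ hζ hne ha2.2 (by linarith [hb2.1]), hC1 ζ' hζ' hne' (by linarith [ha2.2])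
    hb2.1⟩
  intro x hx
  obtain ⟨t, ht, hxt⟩ := hC2 x hx
  refine ⟨Pool.Agent.N253.LS.cluster_mem hψ (pt_norm h01 t) hxt, ?_⟩
  intro hxc
  rw [mem_singleton_iff] at hxc
  rw [hxc] at hxt
  have h1 : pt ζ₀ t ∈ F := (hF _).2 ⟨pt_norm h01 t, hxt⟩
  have h2 : ang ζ₀ (pt ζ₀ t) = t := ang_pt h01 ⟨by linarith [ha2.1, ht.1], by linarith [hb2.2, ht.2]⟩
  rcases hout _ h1 with h3 | h3
  · have h4 := ha1 _ h1 h3
    rw [h2] at h4
    linarith [ht.1]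
  · have h4 := hb1 _ h1 h3
    rw [h2] at h4
    linarith [ht.2]

/-- the classes -/
theorem classes {M : Set ℂ} {ψ : ℂ → ℂ} (hM : IsCompact M) (hψ : IsExteriorMap M ψ)
    (hb : ∀ w : ℂ, 1 < ‖w‖ → ‖ψ w‖ ≤ 2 * ‖w‖) {c₀ : ℂ} {F : Finset ℂ}
    (hF : ∀ ζ : ℂ, ζ ∈ F ↔ ‖ζ‖ = 1 ∧ c₀ ∈ imp ψ ζ) (hF1 : ∀ ζ ∈ F, imp ψ ζ ⊆ {c₀}) {ζ₀ : ℂ}
    (h0 : ζ₀ ∈ F) :
    ∃ κ : ℂ → ℕ, (∀ x ∈ M \ {c₀}, κ x < F.card) ∧ ∀ x ∈ M \ {c₀}, ∀ y ∈ M \ {c₀}, κ x = κ y →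
      connectedComponentIn (M \ {c₀}) x = connectedComponentIn (M \ {c₀}) y := by
  classical
  have h1 : ∀ x : ℂ, ∃ ζ : ℂ, x ∈ M \ {c₀} → ‖ζ‖ = 1 ∧ ζ ∉ F ∧ ∃ y ∈ imp ψ ζ,
      connectedComponentIn (M \ {c₀}) x = connectedComponentIn (M \ {c₀}) y := by
    intro x
    by_cases hx : x ∈ M \ {c₀}
    · obtain ⟨y, hy, hyc, hseg⟩ := exit hM hx.1 hx.2
      obtain ⟨ζ, hζ, hyζ⟩ := exists_imp hψ hy hM.isClosed
      refine ⟨ζ, fun _ => ⟨hζ, fun hh => hyc (hF1 ζ hh hyζ), y, hyζ, ?_⟩⟩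
      have h2 : segment ℝ x y ⊆ connectedComponentIn (M \ {c₀}) x :=
        (convex_segment x y).isPreconnected.subset_connectedComponentIn (left_mem_segment ℝ x y) hseg
      exact connectedComponentIn_eq (h2 (right_mem_segment ℝ x y))
    · exact ⟨0, fun hh => absurd hh hx⟩
  choose Z hZ using h1
  refine ⟨fun x => (F.filter fun ξ => ang ζ₀ ξ < ang ζ₀ (Z x)).card, ?_, ?_⟩
  · intro x hx
    obtain ⟨h2, h3, -⟩ := hZ x hx
    apply Finset.card_lt_card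
    rw [Finset.ssubset_iff_subset_ne]
    refine ⟨Finset.filter_subset _ _, fun hh => ?_⟩
    rw [← hh, Finset.mem_filter] at h0
    have h01 := ((hF ζ₀).1 h0.1).1
    have h4 : ang ζ₀ ζ₀ = Real.pi := by
      unfold ang
      have hne : ζ₀ ≠ 0 := by
        intro hh
        rw [hh, norm_zero] at h01
        exact zero_ne_one h01
      rw [neg_div, div_self hne, Complex.arg_neg_one]
    have h5 : ang ζ₀ (Z x) ≤ Real.pi := Complex.arg_le_pi _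
    linarith [h0.2]
  · have hkey : ∀ x ∈ M \ {c₀}, ∀ y ∈ M \ {c₀}, ang ζ₀ (Z x) ≤ ang ζ₀ (Z y) →
        (F.filter fun ξ => ang ζ₀ ξ < ang ζ₀ (Z x)).card =
          (F.filter fun ξ => ang ζ₀ ξ < ang ζ₀ (Z y)).card →
        connectedComponentIn (M \ {c₀}) x = connectedComponentIn (M \ {c₀}) y := by
      intro x hx y hy hle hk
      obtain ⟨a1, a2, x', hx', hx2⟩ := hZ x hx
      obtain ⟨b1, b2, y', hy', hy2⟩ := hZ y hy
      obtain ⟨C, hC, hCM, c1, c2⟩ := same_arc hψ hb hF h0 a1 b1 a2 b2 hle hk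
      rw [hx2, hy2]
      exact connectedComponentIn_eq (hC.subset_connectedComponentIn (c1 hx') hCM (c2 hy'))
    intro x hx y hy hk
    rcases le_total (ang ζ₀ (Z x)) (ang ζ₀ (Z y)) with h2 | h2
    · exact hkey x hx y hy h2 hk
    · exact (hkey y hy x hx h2 hk.symm).symm

/-- **The number of the components.** -/
theorem comps {M : Set ℂ} {ψ : ℂ → ℂ} (hM : IsCompact M) (hψ : IsExteriorMap M ψ)
    (hb : ∀ w : ℂ, 1 < ‖w‖ → ‖ψ w‖ ≤ 2 * ‖w‖) {c₀ : ℂ} {F : Finset ℂ}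
    (hF : ∀ ζ : ℂ, ζ ∈ F ↔ ‖ζ‖ = 1 ∧ c₀ ∈ imp ψ ζ) (hF1 : ∀ ζ ∈ F, imp ψ ζ ⊆ {c₀}) {ζ₀ : ℂ}
    (h0 : ζ₀ ∈ F) :
    ((fun x => connectedComponentIn (M \ {c₀}) x) '' (M \ {c₀})).Finite ∧
    ((fun x => connectedComponentIn (M \ {c₀}) x) '' (M \ {c₀})).ncard ≤ F.card := by
  obtain ⟨κ, h1, h2⟩ := classes hM hψ hb hF hF1 h0
  obtain ⟨𝒞, h𝒞⟩ : ∃ 𝒞 : Set (Set ℂ), 𝒞 = (fun x => connectedComponentIn (M \ {c₀}) x) '' (M \ {c₀}) :=
    ⟨_, rfl⟩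
  rw [← h𝒞]
  have h3 : ∀ S : Set ℂ, ∃ x : ℂ, S ∈ 𝒞 → x ∈ M \ {c₀} ∧ connectedComponentIn (M \ {c₀}) x = S := by
    intro S
    by_cases hS : S ∈ 𝒞
    · rw [h𝒞] at hS
      obtain ⟨x, hx, hxS⟩ := hS
      exact ⟨x, fun _ => ⟨hx, hxS⟩⟩
    · exact ⟨0, fun hh => absurd hh hS⟩
  choose X hX using h3
  have hmaps : MapsTo (fun S => κ (X S)) 𝒞 (Finset.range F.card : Set ℕ) := by
    intro S hS
    rw [Finset.coe_range]
    exact h1 _ (hX S hS).1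
  have hinj : InjOn (fun S => κ (X S)) 𝒞 := by
    intro S hS S' hS' hh
    rw [← (hX S hS).2, ← (hX S' hS').2]
    exact h2 _ (hX S hS).1 _ (hX S' hS').1 hh
  refine ⟨Set.Finite.of_injOn hmaps hinj (Finset.finite_toSet _), ?_⟩
  have h4 := Set.ncard_le_ncard_of_injOn _ hmaps hinj (Finset.finite_toSet _)
  rwa [Set.ncard_coe_finset, Finset.card_range] at h4

end Pool.Agent.H206.Ray
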