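import Pool.Agent.H206.RayB
import Pool.Graph.R_pool_sql_team_seeded_63374d34.N673.TW.Stm4

set_option autoImplicit false

/-! # Two rays at a typical point -/

namespace Pool.Agent.H206.Ray

open Complex Metric Set Filter Topology MeasureTheory
open Pool.Agent.N673.TW (Hy S_COR)

/-- the integral over a ring about `c₀` -/
theorem ring_at2 {r r₂ : ℝ} (hr : 0 < r) (hr1 : r ≤ r₂) (c₀ : ℂ) {S : Set ℂ} (hS : MeasurableSet S)
    (hSr : ∀ w ∈ S, r ≤ ‖w - c₀‖ ∧ ‖w - c₀‖ ≤ r₂) :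
    ∫⁻ w in S, ENNReal.ofReal ((‖w - c₀‖ ^ 2)⁻¹) ≤
      ENNReal.ofReal (2 * Real.pi * Real.log (r₂ / r)) := by
  rw [← Pool.Agent.Y333.TY.MultX.ring_int hr hr1, ← lintegral_indicator hS,
    ← lintegral_sub_right_eq_self (μ := (volume : Measure ℂ)) (fun w : ℂ =>
      (Pool.Agent.Y333.TY.MultX.Rg r r₂).indicator (fun w => ENNReal.ofReal ((‖w‖ ^ 2)⁻¹)) w) c₀]
  apply lintegral_mono
  intro w
  by_cases hw : w ∈ S
  · have h1 : w - c₀ ∈ Pool.Agent.Y333.TY.MultX.Rg r r₂ := hSr w hw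
    show _ ≤ (Pool.Agent.Y333.TY.MultX.Rg r r₂).indicator
      (fun w => ENNReal.ofReal ((‖w‖ ^ 2)⁻¹)) (w - c₀)
    rw [indicator_of_mem hw, indicator_of_mem h1]
  · rw [indicator_of_notMem hw]
    exact zero_le

/-- **The length-area inequality for a family of half strips.** -/
theorem strips {M : Set ℂ} {ψ : ℂ → ℂ} {c₀ : ℂ} (hψ : Pool.Agent.H713R2.IsExteriorMap M ψ)
    (F : Finset ℂ) (hF : ∀ ζ ∈ F, ‖ζ‖ = 1) {κ δ ρ r₁ r₂ A B : ℝ} (hκ : 0 < κ)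
    (hκ1 : κ < Real.pi / 2) (hδ : 0 < δ) (hδρ : δ < ρ) (hr₁ : 0 < r₁) (hr₂ : r₁ ≤ r₂)
    (hsep : ∀ ζ ∈ F, ∀ ζ' ∈ F, ζ ≠ ζ' → 2 * ρ < ‖ζ - ζ'‖)
    (hlow : ∀ w : ℂ, 1 + δ * Real.sin κ ≤ ‖w‖ → r₁ ≤ ‖ψ w - c₀‖)
    (hup : ∀ ζ ∈ F, ∀ w : ℂ, 1 < ‖w‖ → ‖w - ζ‖ ≤ ρ → ‖ψ w - c₀‖ ≤ r₂)
    (hA : ∀ ζ ∈ F, ∀ w : ℂ, 1 < ‖w‖ → ‖w - ζ‖ = δ → Real.log ‖ψ w - c₀‖ ≤ A)
    (hB : ∀ w : ℂ, 1 + ρ * Real.sin κ ≤ ‖w‖ → B ≤ Real.log ‖ψ w - c₀‖) (hAB : A ≤ B) :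
    (F.card : ℝ) * ((Real.pi - 2 * κ) * ((B - A) ^ 2 / (Real.log ρ - Real.log δ))) ≤
      2 * Real.pi * Real.log (r₂ / r₁) := by
  have hpi := Real.pi_pos
  have hρ : 0 < ρ := hδ.trans hδρ
  obtain ⟨θ, hθ⟩ : ∃ θ : ℝ, θ = Real.pi / 2 - κ := ⟨_, rfl⟩
  obtain ⟨s, hs⟩ : ∃ s : ℝ, s = Real.sin κ := ⟨_, rfl⟩
  have hθ0 : 0 < θ := by rw [hθ]; linarith
  have hs0 : 0 < s := by rw [hs]; exact Real.sin_pos_of_pos_of_lt_pi hκ (by linarith)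
  rw [← hs] at hlow hB
  -- the points of the rectangle
  have hrect : ∀ ζ ∈ F, ∀ z ∈ Rect (Real.log δ) (Real.log ρ) θ, 1 + Real.exp z.re * s ≤ ‖W ζ z‖ ∧
      ‖W ζ z - ζ‖ = Real.exp z.re ∧ δ ≤ Real.exp z.re ∧ Real.exp z.re ≤ ρ := by
    intro ζ hζ z hz
    refine ⟨?_, W_dist (hF ζ hζ) z, ?_, ?_⟩
    · refine le_trans ?_ (W_norm (hF ζ hζ) z)
      have h4 := cos_ge hκ (by rw [← hθ]; exact hz.2)
      rw [← hs] at h4
      have := Real.exp_pos z.re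
      nlinarith
    · rw [← Real.exp_log hδ]
      exact Real.exp_le_exp.2 hz.1.1
    · rw [← Real.exp_log hρ]
      exact Real.exp_le_exp.2 hz.1.2
  have hrect2 : ∀ ζ ∈ F, ∀ z ∈ Rect (Real.log δ) (Real.log ρ) θ, 1 < ‖W ζ z‖ := by
    intro ζ hζ z hz
    obtain ⟨h4, -⟩ := hrect ζ hζ z hz
    have := Real.exp_pos z.re
    nlinarith [mul_pos this hs0]
  have hlow' : ∀ ζ ∈ F, ∀ z ∈ Rect (Real.log δ) (Real.log ρ) θ, r₁ ≤ ‖ψ (W ζ z) - c₀‖ := by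
    intro ζ hζ z hz
    obtain ⟨h4, -, h5, h6⟩ := hrect ζ hζ z hz
    apply hlow
    nlinarith
  have hup' : ∀ ζ ∈ F, ∀ z ∈ Rect (Real.log δ) (Real.log ρ) θ, ‖ψ (W ζ z) - c₀‖ ≤ r₂ := by
    intro ζ hζ z hz
    obtain ⟨-, h5, -, h6⟩ := hrect ζ hζ z hz
    exact hup ζ hζ _ (hrect2 ζ hζ z hz) (by rw [h5]; exact h6)
  have hlog : Real.log δ < Real.log ρ := Real.log_lt_log hδ hδρ
  -- the images
  obtain ⟨S, hS⟩ : ∃ S : ℂ → Set ℂ,
      S = fun ζ => (fun z => ψ (W ζ z)) '' Rect (Real.log δ) (Real.log ρ) θ := ⟨_, rfl⟩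
  have hUo : ∀ ζ : ℂ, IsOpen {z : ℂ | 1 < ‖W ζ z‖} := by
    intro ζ
    refine isOpen_lt continuous_const (Continuous.norm ?_)
    unfold W
    fun_prop
  have hGd : ∀ ζ : ℂ, DifferentiableOn ℂ (fun z => ψ (W ζ z)) {z : ℂ | 1 < ‖W ζ z‖} := by
    intro ζ
    refine hψ.diff.comp (f := W ζ) ?_ fun z hz => hz
    unfold W
    fun_prop
  have hRc : IsCompact (Rect (Real.log δ) (Real.log ρ) θ) := by
    have h4 : Rect (Real.log δ) (Real.log ρ) θ = Complex.equivRealProdCLM ⁻¹'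
        (Icc (Real.log δ) (Real.log ρ) ×ˢ Icc (-θ) θ) := rfl
    rw [h4]
    exact (Complex.equivRealProdCLM.toHomeomorph.isCompact_preimage).2
      (isCompact_Icc.prod isCompact_Icc)
  have hSm : ∀ ζ ∈ F, MeasurableSet (S ζ) := by
    intro ζ hζ
    rw [hS]
    refine (hRc.image_of_continuousOn ((hGd ζ).continuousOn.mono ?_)).measurableSet
    exact hrect2 ζ hζ
  have hinj : ∀ ζ ∈ F, InjOn (fun z => ψ (W ζ z)) (Rect (Real.log δ) (Real.log ρ) θ) := by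
    intro ζ hζ z hz z' hz' hh
    have h4 := hψ.inj (hrect2 ζ hζ z hz) (hrect2 ζ hζ z' hz') hh
    have h5 : ∀ z ∈ Rect (Real.log δ) (Real.log ρ) θ, |z.im| < Real.pi / 2 := by
      intro z hz
      have := abs_le.2 hz.2
      linarith
    exact W_inj (hF ζ hζ) (h5 z hz) (h5 z' hz') h4
  have hdisj : (F : Set ℂ).PairwiseDisjoint S := by
    intro ζ hζ ζ' hζ' hne
    rw [Function.onFun, Set.disjoint_left, hS]
    rintro _ ⟨z, hz, rfl⟩ ⟨z', hz', hh⟩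
    have h4 := hψ.inj (hrect2 ζ' hζ' z' hz') (hrect2 ζ hζ z hz) hh
    obtain ⟨-, h5, -, h6⟩ := hrect ζ hζ z hz
    obtain ⟨-, h7, -, h8⟩ := hrect ζ' hζ' z' hz'
    have h9 := hsep ζ hζ ζ' hζ' hne
    have h10 : ‖ζ - ζ'‖ ≤ ‖W ζ z - ζ‖ + ‖W ζ' z' - ζ'‖ := by
      rw [h4, norm_sub_rev (W ζ z) ζ]
      have := norm_add_le (ζ - W ζ z) (W ζ z - ζ')
      rwa [sub_add_sub_cancel] at this
    linarith
  have hone : ∀ ζ ∈ F, ENNReal.ofReal (2 * θ * ((B - A) ^ 2 / (Real.log ρ - Real.log δ))) ≤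
      ∫⁻ w in S ζ, ENNReal.ofReal ((‖w - c₀‖ ^ 2)⁻¹) := by
    intro ζ hζ
    have h4 := rect_le (G := fun z => ψ (W ζ z)) (c₀ := c₀) (a := Real.log δ) (b := Real.log ρ)
      (h := θ) (A := A) (B := B) (hUo ζ) (hGd ζ) hlog hθ0 (hrect2 ζ hζ) ?_ ?_ ?_ hAB
    · rw [hS, Pool.Agent.TH653.MC.cv (hUo ζ) (hGd ζ) (hinj ζ hζ) (Rect_meas _ _ _) (hrect2 ζ hζ)]
      exact h4
    · intro z hz
      have h5 := hlow' ζ hζ z hz
      exact fun hh => by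
        rw [hh, sub_self, norm_zero] at h5
        linarith
    · intro y hy
      have hz : ((Real.log δ : ℂ) + y * I) ∈ Rect (Real.log δ) (Real.log ρ) θ := by
        constructor
        · simp
          linarith
        · simpa using hy
      apply hA ζ hζ _ (hrect2 ζ hζ _ hz)
      rw [W_dist (hF ζ hζ)]
      have h9 : ((Real.log δ : ℂ) + y * I).re = Real.log δ := by simp
      rw [h9, Real.exp_log hδ]
    · intro y hy
      have hz : ((Real.log ρ : ℂ) + y * I) ∈ Rect (Real.log δ) (Real.log ρ) θ := by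
        constructor
        · simp
          linarith
        · simpa using hy
      apply hB
      have h6 := (hrect ζ hζ _ hz).1
      have h9 : ((Real.log ρ : ℂ) + y * I).re = Real.log ρ := by simp
      rw [h9, Real.exp_log hρ] at h6
      exact h6
  -- the sum
  have hsum : ∑ ζ ∈ F, ∫⁻ w in S ζ, ENNReal.ofReal ((‖w - c₀‖ ^ 2)⁻¹) ≤
      ENNReal.ofReal (2 * Real.pi * Real.log (r₂ / r₁)) := by
    rw [← lintegral_biUnion_finset hdisj hSm]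
    refine ring_at2 hr₁ hr₂ c₀ (Finset.measurableSet_biUnion F hSm) ?_
    intro w hw
    simp only [mem_iUnion] at hw
    obtain ⟨ζ, hζ, hw⟩ := hw
    rw [hS] at hw
    obtain ⟨z, hz, rfl⟩ := hw
    exact ⟨hlow' ζ hζ z hz, hup' ζ hζ z hz⟩
  have hfin := (Finset.sum_le_sum hone).trans hsum
  have hnn2 : 0 ≤ 2 * θ * ((B - A) ^ 2 / (Real.log ρ - Real.log δ)) := by
    have : 0 < Real.log ρ - Real.log δ := by linarith
    positivity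
  rw [Finset.sum_const, nsmul_eq_mul, ← ENNReal.ofReal_natCast, ← ENNReal.ofReal_mul (by positivity)]
    at hfin
  have hnn : 0 ≤ 2 * Real.pi * Real.log (r₂ / r₁) := by
    have : 0 ≤ Real.log (r₂ / r₁) := Real.log_nonneg (by rw [le_div_iff₀ hr₁]; linarith)
    positivity
  rw [ENNReal.ofReal_le_ofReal_iff hnn] at hfin
  have e4 : Real.pi - 2 * κ = 2 * θ := by rw [hθ]; ring
  rw [e4]
  exact hfin

end Pool.Agent.H206.Ray
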