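import Pool.Agent.H206.RayE
import Pool.Graph.R_pool_sql_team_seeded_63374d34.N673.TW.Cor

set_option autoImplicit false

/-! # Two rays at a typical point: the level function -/

namespace Pool.Agent.H206.Ray

open Complex Metric Set Filter Topology MeasureTheory
open Pool.Agent.N673.TW (Hy S_COR)

/-- points of a high level are not close to `c₀` -/
theorem hy_low {M : Set ℂ} {ψ : ℂ → ℂ} {c0 : ℂ} {d : ℕ} {N : ℝ → ℕ} {R₀ B D C : ℝ}
    (hy : Hy M ψ c0 d N R₀ B D C) {s R' : ℝ} (hs : 0 < s) (hs1 : s ≤ 1) (hR' : 0 < R')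
    (hR0 : R' ≤ R₀) (hN : 4 / s < (d : ℝ) ^ N R') {w : ℂ} (hw : 1 + s ≤ ‖w‖) :
    R' ≤ ‖ψ w - c0‖ := by
  by_contra hcon
  push Not at hcon
  have hw0 : 0 < ‖w‖ := by linarith
  have hwc : (‖w‖ : ℂ) ≠ 0 := by exact_mod_cast hw0.ne'
  have h1 := hy.lev R' hR' hR0 (w / ‖w‖) (by
    rw [norm_div, Complex.norm_real, norm_norm, div_self hw0.ne']) (Real.log ‖w‖)
    (Real.log_pos (by linarith)) (by
      have e : ((Real.exp (Real.log ‖w‖) : ℝ) : ℂ) * (w / ‖w‖) = w := by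
        rw [Real.exp_log hw0]
        field_simp
      rw [e]
      exact hcon.le)
  have h2 : Real.log (1 + s) ≤ Real.log ‖w‖ := Real.log_le_log (by linarith) hw
  have h3 : 1 - (1 + s)⁻¹ ≤ Real.log (1 + s) := Real.one_sub_inv_le_log_of_pos (by linarith)
  have h4 : s / 2 ≤ 1 - (1 + s)⁻¹ := by
    have : 1 - (1 + s)⁻¹ = s / (1 + s) := by
      field_simp
      ring
    rw [this, div_le_div_iff₀ (by norm_num) (by linarith)]
    nlinarith
  have h5 : s / 2 * (d : ℝ) ^ N R' ≤ 2 := by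
    refine le_trans (mul_le_mul_of_nonneg_right (by linarith) (by positivity)) h1
  rw [div_lt_iff₀ hs] at hN
  linarith

/-- smaller radii have higher levels -/
theorem hy_step {M : Set ℂ} {ψ : ℂ → ℂ} {c0 : ℂ} {d : ℕ} {N : ℝ → ℕ} {R₀ B D C : ℝ}
    (hy : Hy M ψ c0 d N R₀ B D C) {R x : ℝ} (hR : 0 < R) (hR0 : R ≤ R₀) (hx : 0 ≤ x) :
    0 < R * D ^ (-(x + 1)) ∧ R * D ^ (-(x + 1)) ≤ R ∧
      (d : ℝ) ^ x * (d : ℝ) ^ N R ≤ (d : ℝ) ^ N (R * D ^ (-(x + 1))) := by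
  have hD := hy.D1
  have hD0 : 0 < D := by linarith
  have h1 : D ^ (-(x + 1)) ≤ 1 := Real.rpow_le_one_of_one_le_of_nonpos (by linarith) (by linarith)
  have h2 : 0 < D ^ (-(x + 1)) := by positivity
  have h3 : R * D ^ (-(x + 1)) ≤ R := by nlinarith
  refine ⟨by positivity, h3, ?_⟩
  have h4 := hy.step _ _ (by positivity) h3 hR0
  have hanti := hy.anti _ _ (by positivity) h3 hR0
  obtain ⟨n, hn⟩ : ∃ n : ℕ, n = N (R * D ^ (-(x + 1))) := ⟨_, rfl⟩
  rw [← hn] at h4 hanti ⊢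
  rw [mul_assoc, ← Real.rpow_natCast D, ← Real.rpow_add hD0] at h4
  have h5 : 1 ≤ D ^ (-(x + 1) + ((n + 1 - N R : ℕ) : ℝ)) := by
    by_contra hcon
    push Not at hcon
    nlinarith
  have h6 : 0 ≤ -(x + 1) + ((n + 1 - N R : ℕ) : ℝ) := by
    by_contra hcon
    push Not at hcon
    have := Real.rpow_lt_one_of_one_lt_of_neg (by linarith : 1 < D) hcon
    linarith
  have h7 : ((n + 1 - N R : ℕ) : ℝ) = n + 1 - N R := by
    rw [Nat.cast_sub (by omega)]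
    push_cast
    ring
  rw [h7] at h6
  have hd1 : (1 : ℝ) ≤ d := by
    have := hy.d2
    exact_mod_cast (by omega : 1 ≤ d)
  rw [← Real.rpow_natCast (d : ℝ) (N R), ← Real.rpow_natCast (d : ℝ) n,
    ← Real.rpow_add (by linarith)]
  exact Real.rpow_le_rpow_of_exponent_le hd1 (by linarith)

/-- the algebra -/
theorem alg {l X L C₂ a b e κ : ℝ} (hl : 1 ≤ l) (hX : 1 ≤ X) (hC : 1 ≤ C₂)
    (hκ : κ = 1 / l) (ha : l - C₂ * X ≤ a) (ha0 : 0 ≤ l - C₂ * X) (hb0 : 0 < b)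
    (hb : b ≤ L + C₂ * X) (he : e ≤ l + C₂ * X)
    (h : 2 * ((Real.pi - 2 * κ) * (a ^ 2 / b)) ≤ 2 * Real.pi * e) :
    l ≤ L + (4 * C₂ + 1) * X := by
  have hpi := Real.pi_gt_three
  by_contra hcon
  push Not at hcon
  have hκl : κ * l = 1 := by rw [hκ]; field_simp
  have hκ0 : 0 < κ := by rw [hκ]; positivity
  have hκ1 : κ ≤ 1 := by rw [hκ, div_le_one (by linarith)]; exact hl
  have h1 : (Real.pi - 2 * κ) * a ^ 2 ≤ Real.pi * e * b := by
    have e1 : 2 * ((Real.pi - 2 * κ) * (a ^ 2 / b)) = 2 * ((Real.pi - 2 * κ) * a ^ 2) / b := by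
      field_simp
    rw [e1, div_le_iff₀ hb0] at h
    linarith
  have h2 : (l - C₂ * X) ^ 2 ≤ a ^ 2 := pow_le_pow_left₀ ha0 ha 2
  have h3 : (Real.pi - 2 * κ) * (l - C₂ * X) ^ 2 ≤ (Real.pi - 2 * κ) * a ^ 2 :=
    mul_le_mul_of_nonneg_left h2 (by linarith)
  have hCX : 0 < C₂ * X := by positivity
  have he0 : 0 ≤ Real.pi * e := by
    by_contra hneg
    push Not at hneg
    have : Real.pi * e * b < 0 := mul_neg_of_neg_of_pos hneg hb0
    have h5 : 0 ≤ (Real.pi - 2 * κ) * a ^ 2 := mul_nonneg (by linarith) (sq_nonneg a)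
    linarith
  have h4 : Real.pi * e * b ≤ Real.pi * (l + C₂ * X) * (L + C₂ * X) := by
    apply mul_le_mul _ hb hb0.le (by positivity)
    exact mul_le_mul_of_nonneg_left he (by linarith)
  have h5 : Real.pi * (l + C₂ * X) * (L + C₂ * X) ≤
      Real.pi * (l + C₂ * X) * (l - (3 * C₂ + 1) * X) :=
    mul_le_mul_of_nonneg_left (by linarith) (by positivity)
  have h6 : (Real.pi - 2 * κ) * (l - C₂ * X) ^ 2 ≥ Real.pi * (l - C₂ * X) ^ 2 - 2 * l := by
    have h7 : (l - C₂ * X) ^ 2 ≤ l ^ 2 := pow_le_pow_left₀ ha0 (by linarith) 2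
    have h8 : κ * (l - C₂ * X) ^ 2 ≤ κ * l ^ 2 := mul_le_mul_of_nonneg_left h7 hκ0.le
    have h9 : κ * l ^ 2 = l := by rw [sq, ← mul_assoc, hκl, one_mul]
    nlinarith
  have h10 : Real.pi * (l - C₂ * X) ^ 2 - 2 * l ≤
      Real.pi * (l + C₂ * X) * (l - (3 * C₂ + 1) * X) := by linarith
  have h11 : Real.pi * X * l ≤ 2 * l := by
    have e1 : Real.pi * (l - C₂ * X) ^ 2 =
      Real.pi * l ^ 2 - 2 * (Real.pi * l * (C₂ * X)) + Real.pi * (C₂ * X) ^ 2 := by ring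
    have e2 : Real.pi * (l + C₂ * X) * (l - (3 * C₂ + 1) * X) =
      Real.pi * l ^ 2 - 2 * (Real.pi * l * (C₂ * X)) - Real.pi * X * l -
        Real.pi * (C₂ * X) * ((3 * C₂ + 1) * X) := by ring
    have h12 : 0 ≤ Real.pi * (C₂ * X) ^ 2 := by positivity
    have h13 : 0 ≤ Real.pi * (C₂ * X) * ((3 * C₂ + 1) * X) := by positivity
    linarith
  have h14 : 3 * l ≤ Real.pi * X * l := by
    have : 3 ≤ Real.pi * X := by nlinarith
    nlinarith
  linarith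

/-- **Two rays**: the radius is at least the level, up to a power of its logarithm. -/
theorem two_rays {M : Set ℂ} {ψ : ℂ → ℂ} {c0 : ℂ} {d : ℕ} {N : ℝ → ℕ} {R₀ B D C : ℝ}
    (hy : Hy M ψ c0 d N R₀ B D C) {ζ₁ ζ₂ : ℂ} (h1 : ‖ζ₁‖ = 1) (h2 : ‖ζ₂‖ = 1) (hne : ζ₁ ≠ ζ₂)
    (hl1 : Tendsto (fun t : ℝ => ψ (Real.exp t * ζ₁)) (𝓝[>] 0) (𝓝 c0))
    (hl2 : Tendsto (fun t : ℝ => ψ (Real.exp t * ζ₂)) (𝓝[>] 0) (𝓝 c0)) :
    ∃ C₁ : ℝ, 0 < C₁ ∧ ∀ᶠ R : ℝ in 𝓝[>] 0, Real.log (1 / R) ≤ N R * Real.log d +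
      C₁ * (Real.log ((N R : ℝ) + 2) + Real.log (Real.log (1 / R)) + 1) := by
  have hpi := Real.pi_gt_three
  have hd1 : (2 : ℝ) ≤ d := by exact_mod_cast hy.d2
  have hlogd : 0 < Real.log d := Real.log_pos (by linarith)
  have hD := hy.D1
  have hlogD : 0 < Real.log D := Real.log_pos (by linarith)
  have hR₀ := hy.R0
  have hB0 := hy.B0
  obtain ⟨K, R₁, hK, hR₁, hR₁₀, hcor⟩ := Pool.Agent.N673.TW.Cor.t M ψ c0 d N R₀ B D C hy
  have hsep0 : 0 < ‖ζ₁ - ζ₂‖ := norm_pos_iff.2 (sub_ne_zero.2 hne)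
  obtain ⟨Y, hY⟩ : ∃ Y : ℝ → ℝ, Y = fun R => (d : ℝ) ^ N R * ((N R : ℝ) + 2) ^ B := ⟨_, rfl⟩
  have hY0 : ∀ R, 0 < Y R := by
    intro R
    rw [hY]
    positivity
  have hY1 : ∀ R, 1 ≤ Y R := by
    intro R
    rw [hY]
    have e1 : (1 : ℝ) ≤ (d : ℝ) ^ N R := one_le_pow₀ (by linarith)
    have e2 : (1 : ℝ) ≤ ((N R : ℝ) + 2) ^ B :=
      Real.one_le_rpow (by linarith [(Nat.cast_nonneg (N R) : (0 : ℝ) ≤ N R)]) hB0
    exact one_le_mul_of_one_le_of_one_le e1 e2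
  obtain ⟨ρ, hρ⟩ : ∃ ρ : ℝ, ρ = min (min (1 / 8) (1 / (2 * Y R₁))) (‖ζ₁ - ζ₂‖ / 3) := ⟨_, rfl⟩
  have hρ0 : 0 < ρ := by
    rw [hρ]
    have := hY0 R₁
    positivity
  have hρ8 : ρ ≤ 1 / 8 := by rw [hρ]; exact (min_le_left _ _).trans (min_le_left _ _)
  have hρY : ρ * Y R₁ ≤ 1 / 2 := by
    have e1 : ρ ≤ 1 / (2 * Y R₁) := by rw [hρ]; exact (min_le_left _ _).trans (min_le_right _ _)
    have e2 := mul_le_mul_of_nonneg_right e1 (hY0 R₁).le
    have e3 : 1 / (2 * Y R₁) * Y R₁ = 1 / 2 := by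
      have := (hY0 R₁).ne'
      field_simp
    rwa [e3] at e2
  have hρs : ρ ≤ ‖ζ₁ - ζ₂‖ / 3 := by rw [hρ]; exact min_le_right _ _
  have hlogρ : Real.log ρ ≤ 0 := Real.log_nonpos hρ0.le (by linarith)
  -- the constants
  obtain ⟨a₁, ha₁⟩ : ∃ a₁ : ℝ, a₁ = |Real.log (K * R₁)| + |Real.log R₀| + |Real.log K| := ⟨_, rfl⟩
  obtain ⟨a₂, ha₂⟩ : ∃ a₂ : ℝ, a₂ = (Real.log 17 + B + 1 + |Real.log (9 / ρ)|) / Real.log d *
    Real.log D + Real.log D := ⟨_, rfl⟩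
  obtain ⟨C₂, hC₂⟩ : ∃ C₂ : ℝ, C₂ = a₁ + a₂ + B + 2 := ⟨_, rfl⟩
  have ha₁0 : 0 ≤ a₁ := by rw [ha₁]; positivity
  have hlog17 : 0 ≤ Real.log 17 := Real.log_nonneg (by norm_num)
  have ha₂0 : 0 ≤ a₂ := by rw [ha₂]; positivity
  have hC₂1 : 1 ≤ C₂ := by rw [hC₂]; linarith
  refine ⟨4 * C₂ + 1, by linarith, ?_⟩
  filter_upwards [Ioo_mem_nhdsGT hR₁, Ioo_mem_nhdsGT (Real.exp_pos (-1)),
    Ioo_mem_nhdsGT (show (0 : ℝ) < R₀ * D ^ (-(Real.log (1 / ρ) / Real.log d + 1)) by positivity)]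
    with R q1 q2 q3
  have hR0 : 0 < R := q1.1
  have hRR₁ : R ≤ R₁ := q1.2.le
  have hRR₀ : R ≤ R₀ := hRR₁.trans hR₁₀
  obtain ⟨l, hl⟩ : ∃ l : ℝ, l = Real.log (1 / R) := ⟨_, rfl⟩
  have hl' : l = - Real.log R := by rw [hl, one_div, Real.log_inv]
  have hl1' : 1 ≤ l := by
    rw [hl']
    have := Real.log_lt_log hR0 q2.2
    rw [Real.log_exp] at this
    linarith
  have hl0 : 0 < l := by linarith
  have hlogl : 0 ≤ Real.log l := Real.log_nonneg hl1'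
  have hN0 : (0 : ℝ) ≤ N R := Nat.cast_nonneg _
  have hlogN : 0 ≤ Real.log ((N R : ℝ) + 2) := Real.log_nonneg (by linarith)
  obtain ⟨X, hX⟩ : ∃ X : ℝ, X = Real.log ((N R : ℝ) + 2) + Real.log l + 1 := ⟨_, rfl⟩
  have hX1 : 1 ≤ X := by rw [hX]; linarith
  have hXl : Real.log l ≤ X := by rw [hX]; linarith
  have hXN : Real.log ((N R : ℝ) + 2) ≤ X := by rw [hX]; linarith
  rw [← hl, ← hX]
  obtain ⟨L, hL⟩ : ∃ L : ℝ, L = N R * Real.log d := ⟨_, rfl⟩
  have hL0 : 0 ≤ L := by rw [hL]; positivity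
  rw [← hL]
  -- the trivial case
  rcases lt_or_ge l (C₂ * X) with htriv | hbig
  · have : C₂ * X ≤ (4 * C₂ + 1) * X := mul_le_mul_of_nonneg_right (by linarith) (by linarith)
    linarith
  -- the angle
  obtain ⟨κ, hκ⟩ : ∃ κ : ℝ, κ = 1 / l := ⟨_, rfl⟩
  have hκ0 : 0 < κ := by rw [hκ]; positivity
  have hκ1 : κ ≤ 1 := by rw [hκ, div_le_one hl0]; exact hl1'
  have hsin : κ / 2 ≤ Real.sin κ := by
    have e1 := Real.mul_le_sin hκ0.le (by linarith)
    have e2 : κ / 2 ≤ 2 / Real.pi * κ := by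
      have : 1 / 2 ≤ 2 / Real.pi := by
        rw [div_le_div_iff₀ (by norm_num) (by linarith)]
        linarith [Real.pi_lt_d2]
      have e3 := mul_le_mul_of_nonneg_right this hκ0.le
      linarith
    linarith
  have hsin0 : 0 < Real.sin κ := by linarith
  have hsin1 : Real.sin κ ≤ 1 := Real.sin_le_one κ
  have hsinl : 1 / Real.sin κ ≤ 2 * l := by
    rw [div_le_iff₀ hsin0]
    have : κ * l = 1 := by rw [hκ]; field_simp
    have e3 := mul_le_mul_of_nonneg_left hsin hl0.le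
    linarith
  -- the inner height
  obtain ⟨δ, hδ⟩ : ∃ δ : ℝ, δ = 1 / (2 * Y R) := ⟨_, rfl⟩
  have hδ0 : 0 < δ := by
    rw [hδ]
    have := hY0 R
    positivity
  have hδY : δ * Y R = 1 / 2 := by
    rw [hδ]
    have := (hY0 R).ne'
    field_simp
  have hδ2 : δ ≤ 1 / 2 := by
    have e5 := mul_le_mul_of_nonneg_left (hY1 R) hδ0.le
    linarith
  have hdN : 1 / ρ < (d : ℝ) ^ N R := by
    -- from the third condition
    obtain ⟨x, hx⟩ : ∃ x : ℝ, x = Real.log (1 / ρ) / Real.log d := ⟨_, rfl⟩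
    rw [← hx] at q3
    have hx0 : 0 ≤ x := by
      rw [hx, one_div, Real.log_inv]
      apply div_nonneg (by linarith) hlogd.le
    obtain ⟨e1, e2, e3⟩ := hy_step hy hR₀ le_rfl hx0
    have e4 := hy.anti R _ hR0 q3.2.le e2
    have e5 : (d : ℝ) ^ N (R₀ * D ^ (-(x + 1))) ≤ (d : ℝ) ^ N R :=
      pow_le_pow_right₀ (by linarith) e4
    have e6 : (d : ℝ) ^ x = 1 / ρ := by
      rw [hx, Real.rpow_def_of_pos (by linarith)]
      rw [mul_div_cancel₀ _ hlogd.ne', Real.exp_log (by positivity)]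
    rw [e6] at e3
    have h5 := hy.five R₀ hR₀ le_rfl
    have e7 : (1 : ℝ) < (d : ℝ) ^ N R₀ := one_lt_pow₀ (by linarith) (by omega)
    have e8 : 0 < 1 / ρ := by positivity
    have e9 : 1 / ρ * 1 < 1 / ρ * (d : ℝ) ^ N R₀ := mul_lt_mul_of_pos_left e7 e8
    linarith
  have hδρ : δ < ρ := by
    have e1 : (d : ℝ) ^ N R ≤ Y R := by
      rw [hY]
      have e2 : (1 : ℝ) ≤ ((N R : ℝ) + 2) ^ B := Real.one_le_rpow (by linarith) hB0
      have e3 : (0 : ℝ) < (d : ℝ) ^ N R := by positivity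
      exact le_mul_of_one_le_right e3.le e2
    have e2 : 1 / ρ < Y R := lt_of_lt_of_le hdN e1
    rw [div_lt_iff₀ hρ0] at e2
    by_contra hcon
    push Not at hcon
    have e5 := mul_le_mul_of_nonneg_right hcon (hY0 R).le
    linarith
  -- the inner radius
  obtain ⟨x, hx⟩ : ∃ x : ℝ, x = Real.log (17 * (((N R : ℝ) + 2) ^ B * l)) / Real.log d := ⟨_, rfl⟩
  have hNB : (1 : ℝ) ≤ ((N R : ℝ) + 2) ^ B := Real.one_le_rpow (by linarith) hB0
  have hNBl : 1 ≤ ((N R : ℝ) + 2) ^ B * l := one_le_mul_of_one_le_of_one_le hNB hl1'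
  have hlogx : Real.log (17 * (((N R : ℝ) + 2) ^ B * l)) =
      Real.log 17 + (B * Real.log ((N R : ℝ) + 2) + Real.log l) := by
    rw [Real.log_mul (by norm_num) (by positivity), Real.log_mul (by positivity) (by positivity),
      Real.log_rpow (by positivity)]
  have hx0 : 0 ≤ x := by
    rw [hx]
    apply div_nonneg _ hlogd.le
    rw [hlogx]
    positivity
  have hdx : (d : ℝ) ^ x = 17 * (((N R : ℝ) + 2) ^ B * l) := by
    rw [hx, Real.rpow_def_of_pos (by linarith), mul_div_cancel₀ _ hlogd.ne',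
      Real.exp_log (by positivity)]
  obtain ⟨b1, b2, b3⟩ := hy_step hy hR0 hRR₀ hx0
  obtain ⟨r₁, hr₁⟩ : ∃ r₁ : ℝ, r₁ = R * D ^ (-(x + 1)) := ⟨_, rfl⟩
  rw [← hr₁] at b1 b2 b3
  have hlow : ∀ w : ℂ, 1 + δ * Real.sin κ ≤ ‖w‖ → r₁ ≤ ‖ψ w - c0‖ := by
    intro w hw
    refine hy_low hy (by positivity) ?_ b1 (b2.trans hRR₀) ?_ hw
    · have e5 := mul_le_mul_of_nonneg_left hsin1 hδ0.le
      linarith
    · refine lt_of_lt_of_le ?_ b3
      rw [hdx]
      have e1 : 4 / (δ * Real.sin κ) = 8 * Y R * (1 / Real.sin κ) := by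
        rw [hδ]
        have := (hY0 R).ne'
        field_simp
        ring
      rw [e1]
      have e2 : 8 * Y R * (1 / Real.sin κ) ≤ 8 * Y R * (2 * l) :=
        mul_le_mul_of_nonneg_left hsinl (by have := hY0 R; positivity)
      refine lt_of_le_of_lt e2 ?_
      have e3 : 17 * (((N R : ℝ) + 2) ^ B * l) * (d : ℝ) ^ N R = 17 * Y R * l := by
        rw [hY]
        ring
      rw [e3]
      have e4 : 0 < Y R * l := by have := hY0 R; positivity
      linarith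
  -- the outer lower bound
  obtain ⟨y, hy'⟩ : ∃ y : ℝ, y = Real.log (9 / ρ * l) / Real.log d := ⟨_, rfl⟩
  have h9ρ : 1 ≤ 9 / ρ := by
    rw [le_div_iff₀ hρ0]
    linarith
  have hlogy : Real.log (9 / ρ * l) = Real.log (9 / ρ) + Real.log l :=
    Real.log_mul (by positivity) (by positivity)
  have hy0 : 0 ≤ y := by
    rw [hy']
    apply div_nonneg _ hlogd.le
    rw [hlogy]
    have := Real.log_nonneg h9ρ
    linarith
  have hdy : (d : ℝ) ^ y = 9 / ρ * l := by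
    rw [hy', Real.rpow_def_of_pos (by linarith), mul_div_cancel₀ _ hlogd.ne',
      Real.exp_log (by positivity)]
  obtain ⟨c1, c2, c3⟩ := hy_step hy hR₀ le_rfl hy0
  obtain ⟨r₃, hr₃⟩ : ∃ r₃ : ℝ, r₃ = R₀ * D ^ (-(y + 1)) := ⟨_, rfl⟩
  rw [← hr₃] at c1 c2 c3
  have hBl : ∀ w : ℂ, 1 + ρ * Real.sin κ ≤ ‖w‖ → Real.log r₃ ≤ Real.log ‖ψ w - c0‖ := by
    intro w hw
    apply Real.log_le_log c1
    refine hy_low hy (by positivity) ?_ c1 c2 ?_ hw
    · have e5 := mul_le_mul_of_nonneg_left hsin1 hρ0.le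
      linarith
    · refine lt_of_lt_of_le ?_ c3
      rw [hdy]
      have e1 : 4 / (ρ * Real.sin κ) = 4 / ρ * (1 / Real.sin κ) := by field_simp
      rw [e1]
      have e2 : 4 / ρ * (1 / Real.sin κ) ≤ 4 / ρ * (2 * l) :=
        mul_le_mul_of_nonneg_left hsinl (by positivity)
      refine lt_of_le_of_lt e2 ?_
      have e5 : (1 : ℝ) ≤ (d : ℝ) ^ N R₀ := one_le_pow₀ (by linarith)
      have e6 : 0 < l / ρ := by positivity
      have e7 : 4 / ρ * (2 * l) = 8 * (l / ρ) := by ring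
      have e8 : 9 / ρ * l * (d : ℝ) ^ N R₀ = 9 * (l / ρ) * (d : ℝ) ^ N R₀ := by ring
      rw [e7, e8]
      have e9 := mul_le_mul_of_nonneg_left e5 (by positivity : 0 ≤ 9 * (l / ρ))
      linarith
  -- the length-area inequality
  have hcard : ({ζ₁, ζ₂} : Finset ℂ).card = 2 := Finset.card_pair hne
  have hFmem : ∀ ζ ∈ ({ζ₁, ζ₂} : Finset ℂ), ‖ζ‖ = 1 ∧
      Tendsto (fun t : ℝ => ψ (Real.exp t * ζ)) (𝓝[>] 0) (𝓝 c0) := by
    intro ζ hζ
    rw [Finset.mem_insert, Finset.mem_singleton] at hζ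
    rcases hζ with rfl | rfl
    · exact ⟨h1, hl1⟩
    · exact ⟨h2, hl2⟩
  have hr₂ : r₁ ≤ K * R₁ := by
    have : R₁ ≤ K * R₁ := le_mul_of_one_le_left hR₁.le hK
    linarith
  have hlogr₁ : Real.log r₁ = - l - (x + 1) * Real.log D := by
    rw [hr₁, Real.log_mul hR0.ne' (by positivity), Real.log_rpow (by linarith), hl']
    ring
  have hlogr₃ : Real.log r₃ = Real.log R₀ - (y + 1) * Real.log D := by
    rw [hr₃, Real.log_mul hR₀.ne' (by positivity), Real.log_rpow (by linarith)]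
    ring
  -- the bounds by `X`
  have hDX : Real.log D * 1 ≤ Real.log D * X := mul_le_mul_of_nonneg_left hX1 hlogD.le
  have h17X : Real.log 17 * 1 ≤ Real.log 17 * X := mul_le_mul_of_nonneg_left hX1 hlog17
  have hBX : B * Real.log ((N R : ℝ) + 2) ≤ B * X := mul_le_mul_of_nonneg_left hXN hB0
  have hBX0 : 0 ≤ B * X := by positivity
  have hρX : |Real.log (9 / ρ)| * 1 ≤ |Real.log (9 / ρ)| * X :=
    mul_le_mul_of_nonneg_left hX1 (abs_nonneg _)
  have hxX : (x + 1) * Real.log D ≤ a₂ * X := by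
    have e1 : x ≤ (Real.log 17 + B + 1) / Real.log d * X := by
      rw [hx, hlogx, div_mul_eq_mul_div]
      apply div_le_div_of_nonneg_right _ hlogd.le
      linarith
    have e2 : (Real.log 17 + B + 1) / Real.log d * X ≤
        (Real.log 17 + B + 1 + |Real.log (9 / ρ)|) / Real.log d * X := by
      apply mul_le_mul_of_nonneg_right _ (by linarith)
      apply div_le_div_of_nonneg_right _ hlogd.le
      linarith [abs_nonneg (Real.log (9 / ρ))]
    have e3 := mul_le_mul_of_nonneg_right (e1.trans e2) hlogD.le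
    rw [ha₂]
    linarith
  have hyX : (y + 1) * Real.log D ≤ a₂ * X := by
    have e1 : y ≤ (Real.log 17 + B + 1 + |Real.log (9 / ρ)|) / Real.log d * X := by
      rw [hy', hlogy, div_mul_eq_mul_div]
      apply div_le_div_of_nonneg_right _ hlogd.le
      have e2 := le_abs_self (Real.log (9 / ρ))
      have e4 : 0 ≤ Real.log 17 * X := by positivity
      linarith
    have e3 := mul_le_mul_of_nonneg_right e1 hlogD.le
    rw [ha₂]
    linarith
  have haX : a₁ ≤ a₁ * X := le_mul_of_one_le_right ha₁0 hX1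
  have habs1 : Real.log (K * R₁) ≤ a₁ := by
    rw [ha₁]
    linarith [le_abs_self (Real.log (K * R₁)), abs_nonneg (Real.log R₀), abs_nonneg (Real.log K)]
  have habs2 : - Real.log R₀ + Real.log K ≤ a₁ := by
    rw [ha₁]
    linarith [neg_abs_le (Real.log R₀), le_abs_self (Real.log K), abs_nonneg (Real.log (K * R₁))]
  have ha : l - C₂ * X ≤ Real.log r₃ - Real.log (K * R) := by
    rw [hlogr₃, Real.log_mul (by linarith) hR0.ne', hC₂]
    have e1 : 0 ≤ (B + 2) * X := by positivity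
    linarith
  have hAB : Real.log (K * R) ≤ Real.log r₃ := by linarith
  have hb : Real.log ρ - Real.log δ ≤ L + C₂ * X := by
    have e1 : Real.log δ = - (Real.log 2 + (L + B * Real.log ((N R : ℝ) + 2))) := by
      rw [hδ, hY, one_div, Real.log_inv, Real.log_mul (by norm_num) (by positivity),
        Real.log_mul (by positivity) (by positivity), Real.log_pow, Real.log_rpow (by positivity),
        hL]
    rw [e1, hC₂]
    have e2 : Real.log 2 ≤ 1 := by linarith [Real.log_two_lt_d9]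
    have e4 : 0 ≤ (a₁ + a₂) * X := by positivity
    linarith
  have he : Real.log (K * R₁ / r₁) ≤ l + C₂ * X := by
    rw [Real.log_div (by positivity) b1.ne', hlogr₁, hC₂]
    have e1 : 0 ≤ (B + 2) * X := by positivity
    linarith
  have hfin := strips hy.ext {ζ₁, ζ₂} (fun ζ hζ => (hFmem ζ hζ).1) (κ := κ) (δ := δ) (ρ := ρ)
    (r₁ := r₁) (r₂ := K * R₁) (A := Real.log (K * R)) (B := Real.log r₃) hκ0 (by linarith) hδ0 hδρ
    b1 hr₂ ?_ hlow ?_ ?_ hBl hAB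
  · rw [hcard] at hfin
    refine alg hl1' hX1 hC₂1 hκ ha (by linarith) ?_ hb he (by exact_mod_cast hfin)
    have := Real.log_lt_log hδ0 hδρ
    linarith
  · intro ζ hζ ζ' hζ' hne'
    rw [Finset.mem_insert, Finset.mem_singleton] at hζ hζ'
    rcases hζ with rfl | rfl <;> rcases hζ' with rfl | rfl
    · exact absurd rfl hne'
    · linarith
    · rw [norm_sub_rev]
      linarith
    · exact absurd rfl hne'
  · intro ζ hζ w hw hwρ
    refine hcor ζ (hFmem ζ hζ).1 (hFmem ζ hζ).2 R₁ hR₁ le_rfl w hw (by linarith) ?_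
    have e1 : ‖w - ζ‖ * Y R₁ ≤ ρ * Y R₁ := mul_le_mul_of_nonneg_right hwρ (hY0 R₁).le
    have e2 : ‖w - ζ‖ * Y R₁ < 1 := by linarith
    rw [hY] at e2
    exact e2
  · intro ζ hζ w hw hwδ
    apply Real.log_le_log
    · rw [norm_pos_iff, sub_ne_zero]
      intro hh
      have e1 : ψ w ∈ ψ '' {z | 1 < ‖z‖} := ⟨w, hw, rfl⟩
      rw [hy.ext.image, hh] at e1
      exact e1 hy.mem
    · refine hcor ζ (hFmem ζ hζ).1 (hFmem ζ hζ).2 R hR0 hRR₁ w hw (by linarith) ?_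
      have e2 : ‖w - ζ‖ * Y R < 1 := by rw [hwδ, hδY]; norm_num
      rw [hY] at e2
      exact e2

end Pool.Agent.H206.Ray
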