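import Pool.Agent.H206.RayF
import Pool.Agent.H206.RayD
import Pool.Graph.R_pool_sql_team_seeded_63374d34.Results.MP_c6f924_an.SharpLocalConnectivity

set_option autoImplicit false

/-! # Almost every ray lands alone -/

namespace Pool.Agent.H206.Ray

open Complex Metric Set Filter Topology MeasureTheory N62a1eb23
open Pool.Agent.H712R2 Pool.Agent.H713R2 Pool.Agent.Y272.TY Pool.Agent.Y298.CA
open Pool.Agent.N673.TW
open Pool.Agent.W677.Mar Pool.Agent.N673.TW.BL Pool.Agent.N673.TW.BM Pool.Agent.N673.TW.Har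

/-- the two bounds are in contradiction -/
theorem clash {N : ℝ → ℕ} {h : ℝ → ℝ} {D b C₁ C' c : ℝ} (hC₁ : 0 < C₁)
    (hC' : 0 < C') (hc : 0 < c) (hD : 0 ≤ D)
    (hN : ∀ᶠ R : ℝ in 𝓝[>] 0, (N R : ℝ) ≤ D * Real.log (1 / R))
    (h1 : ∀ᶠ R : ℝ in 𝓝[>] 0, Real.log (1 / R) ≤ N R * b +
      C₁ * (Real.log ((N R : ℝ) + 2) + Real.log (Real.log (1 / R)) + 1))
    (h2 : ∀ᶠ R : ℝ in 𝓝[>] 0, 0 < h R ∧
      |Real.log (h R) + N R * b| ≤ C' * Real.log ((N R : ℝ) + 2))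
    (h3 : ∃ᶠ R : ℝ in 𝓝[>] 0, R * Real.exp (c * lg R) ≤ h R) : False := by
  have hT : Tendsto (fun R : ℝ => Real.log (1 / R)) (𝓝[>] 0) atTop := by
    have e1 : Tendsto (fun R : ℝ => R⁻¹) (𝓝[>] 0) atTop := tendsto_inv_nhdsGT_zero
    have e2 := Real.tendsto_log_atTop.comp e1
    refine e2.congr fun R => ?_
    simp [one_div]
  -- the growth
  have hgrow : ∀ᶠ l : ℝ in atTop,
      (C₁ + C') * (Real.log ((D + 2) * l) + Real.log l + 1) <
        c * √(l * Real.log (Real.log l)) := by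
    have e1 : Tendsto (fun l : ℝ => Real.log l / l ^ (1 / 2 : ℝ)) atTop (𝓝 0) :=
      (isLittleO_log_rpow_atTop (by norm_num)).tendsto_div_nhds_zero
    have e2 : Tendsto (fun l : ℝ => 1 / l ^ (1 / 2 : ℝ)) atTop (𝓝 0) := by
      have := tendsto_rpow_atTop (show (0 : ℝ) < 1 / 2 by norm_num)
      exact tendsto_const_nhds.div_atTop this
    have e3 : Tendsto (fun l : ℝ => (C₁ + C') * (2 * (Real.log l / l ^ (1 / 2 : ℝ)) +
        (Real.log (D + 2) + 1) * (1 / l ^ (1 / 2 : ℝ)))) atTop (𝓝 ((C₁ + C') * (2 * 0 +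
        (Real.log (D + 2) + 1) * 0))) := ((e1.const_mul 2).add (e2.const_mul _)).const_mul _
    rw [mul_zero, mul_zero, add_zero, mul_zero] at e3
    have e4 : Tendsto (fun l : ℝ => Real.log (Real.log l)) atTop atTop :=
      Real.tendsto_log_atTop.comp Real.tendsto_log_atTop
    filter_upwards [e3.eventually (gt_mem_nhds hc), e4.eventually (eventually_ge_atTop 1),
      eventually_gt_atTop 0] with l a1 a2 a3
    have e5 : 0 < l ^ (1 / 2 : ℝ) := by positivity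
    have e6 : l ^ (1 / 2 : ℝ) ≤ √(l * Real.log (Real.log l)) := by
      rw [← Real.sqrt_eq_rpow]
      exact Real.sqrt_le_sqrt (le_mul_of_one_le_right a3.le a2)
    refine lt_of_lt_of_le ?_ (mul_le_mul_of_nonneg_left e6 hc.le)
    rw [Real.log_mul (by linarith) a3.ne']
    have e7 : (C₁ + C') * (Real.log (D + 2) + Real.log l + Real.log l + 1) =
        (C₁ + C') * (2 * (Real.log l / l ^ (1 / 2 : ℝ)) +
        (Real.log (D + 2) + 1) * (1 / l ^ (1 / 2 : ℝ))) * l ^ (1 / 2 : ℝ) := by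
      field_simp
      ring
    rw [e7]
    exact mul_lt_mul_of_pos_right a1 e5
  obtain ⟨R, q1, q2, q3, q4, q5, q6, q7⟩ := (h3.and_eventually (hN.and (h1.and (h2.and
    ((hT.eventually hgrow).and ((hT.eventually (eventually_ge_atTop 1)).and
      self_mem_nhdsWithin)))))).exists
  have hR : 0 < R := q7
  obtain ⟨l, hl⟩ : ∃ l : ℝ, l = Real.log (1 / R) := ⟨_, rfl⟩
  have hl' : Real.log R = - l := by rw [hl, one_div, Real.log_inv, neg_neg]
  rw [← hl] at q2 q3 q5 q6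
  have e1 : Real.log (R * Real.exp (c * lg R)) ≤ Real.log (h R) :=
    Real.log_le_log (by positivity) q1
  rw [Real.log_mul hR.ne' (Real.exp_ne_zero _), Real.log_exp, hl'] at e1
  have e2 : lg R = √(l * Real.log (Real.log l)) := by
    unfold lg
    rw [← hl]
  rw [e2] at e1
  have e3 := (abs_le.1 q4.2).2
  have hN0 : (0 : ℝ) ≤ N R := Nat.cast_nonneg _
  have e4 : Real.log ((N R : ℝ) + 2) ≤ Real.log ((D + 2) * l) := by
    apply Real.log_le_log (by linarith)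
    nlinarith
  have e5 : 0 ≤ Real.log ((N R : ℝ) + 2) := Real.log_nonneg (by linarith)
  have e6 : 0 ≤ Real.log l := Real.log_nonneg q6
  have e7 : C' * Real.log ((N R : ℝ) + 2) ≤ C' * (Real.log ((D + 2) * l) + Real.log l + 1) :=
    mul_le_mul_of_nonneg_left (by linarith) hC'.le
  have e8 : C₁ * (Real.log ((N R : ℝ) + 2) + Real.log l + 1) ≤
      C₁ * (Real.log ((D + 2) * l) + Real.log l + 1) :=
    mul_le_mul_of_nonneg_left (by linarith) hC₁.le
  linarith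

/-- the level is at most a multiple of the logarithm -/
theorem hy_lin {M : Set ℂ} {ψ : ℂ → ℂ} {c0 : ℂ} {d : ℕ} {N : ℝ → ℕ} {R₀ B D C : ℝ}
    (hy : Hy M ψ c0 d N R₀ B D C) :
    ∃ D' : ℝ, 0 ≤ D' ∧ ∀ᶠ R : ℝ in 𝓝[>] 0, (N R : ℝ) ≤ D' * Real.log (1 / R) := by
  have hR₀ := hy.R0
  have hC := hy.C0
  refine ⟨2 * (C * 2 + C + N R₀ + 2 * C ^ 2 + 2), by positivity, ?_⟩
  have hT : Tendsto (fun R : ℝ => Real.log (1 / R)) (𝓝[>] 0) atTop := by
    have e1 : Tendsto (fun R : ℝ => R⁻¹) (𝓝[>] 0) atTop := tendsto_inv_nhdsGT_zero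
    have e2 := Real.tendsto_log_atTop.comp e1
    refine e2.congr fun R => ?_
    simp [one_div]
  filter_upwards [Ioo_mem_nhdsGT hR₀, hT.eventually (eventually_ge_atTop 1)] with R q1 q2
  have hR : 0 < R := q1.1
  have h1 := hy.lip R R₀ hR q1.2.le le_rfl
  obtain ⟨l, hl⟩ : ∃ l : ℝ, l = Real.log (1 / R) := ⟨_, rfl⟩
  rw [← hl] at q2 ⊢
  have h2 : Real.log (R₀ / R) ≤ l := by
    rw [hl]
    apply Real.log_le_log (by positivity)
    exact div_le_div_of_nonneg_right hy.R1.le hR.le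
  have hN0 : (0 : ℝ) ≤ N R := Nat.cast_nonneg _
  have hN00 : (0 : ℝ) ≤ N R₀ := Nat.cast_nonneg _
  -- `log (x + 2) ≤ x / (2 C + 2) + log (2 C + 2) + ...`
  have h3 : Real.log ((N R : ℝ) + 2) ≤ ((N R : ℝ) + 2) / (2 * C + 2) + (2 * C + 2) := by
    have e1 : Real.log ((N R : ℝ) + 2) = Real.log (((N R : ℝ) + 2) / (2 * C + 2)) +
        Real.log (2 * C + 2) := by
      rw [← Real.log_mul (by positivity) (by positivity)]
      congr 1
      field_simp
    have e2 : Real.log (((N R : ℝ) + 2) / (2 * C + 2)) ≤ ((N R : ℝ) + 2) / (2 * C + 2) - 1 :=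
      Real.log_le_sub_one_of_pos (by positivity)
    have e3 : Real.log (2 * C + 2) ≤ 2 * C + 2 - 1 := Real.log_le_sub_one_of_pos (by positivity)
    linarith
  have h4 : C * Real.log ((N R : ℝ) + 2) ≤ ((N R : ℝ) + 2) / 2 + C * (2 * C + 2) := by
    have e1 := mul_le_mul_of_nonneg_left h3 hC
    have e2 : C * (((N R : ℝ) + 2) / (2 * C + 2)) ≤ ((N R : ℝ) + 2) / 2 := by
      rw [mul_div_assoc', div_le_div_iff₀ (by positivity) (by norm_num)]
      nlinarith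
    linarith
  have h5 : C * Real.log (R₀ / R) ≤ C * l := mul_le_mul_of_nonneg_left h2 hC
  have h6 : (N R : ℝ) / 2 ≤ C * l + N R₀ + 1 + C * (2 * C + 2) := by linarith
  have h7 : C * l + N R₀ + 1 + C * (2 * C + 2) ≤ (C * 2 + C + N R₀ + 2 * C ^ 2 + 2) * l := by
    have e1 : 0 ≤ (N R₀ + 1 + C * (2 * C + 2)) * (l - 1) := by
      apply mul_nonneg (by positivity) (by linarith)
    nlinarith
  linarith

/-- **Almost every ray lands alone.** -/
theorem ae_alone {d : ℕ} {ψ : ℂ → ℂ} (hd : 2 ≤ d) (hψ : IsExteriorMap (multibrotSet d) ψ) :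
    ∀ᵐ θ : ℝ, ∃ c₀ ∈ frontier (multibrotSet d),
      Tendsto (fun r : ℝ => ψ (r * Complex.exp (θ * I))) (𝓝[>] 1) (𝓝 c₀) ∧
      Lyap d (Real.log d) c₀ ∧
      ∀ ζ : ℂ, ‖ζ‖ = 1 → c₀ ∈ imp ψ ζ → ζ = Complex.exp (θ * I) := by
  obtain ⟨β, hβ⟩ := exists_beta hd
  have hE : Pool.Agent.N253.SM.S_EXP :=
    Pool.Agent.N253.SM.t_EXP Pool.Agent.N253.SM.t_FREE Pool.Agent.N253.SM.t_BND
  have hQ : Pool.Agent.N253.LC.S_EXQ :=
    Pool.Agent.N253.LC.t_EXQ Pool.Agent.N253.SM.t_FREE Pool.Agent.N253.LC.t_BND2 hE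
  have hP : Pool.Agent.N253.LC.S_PULL := Pool.Agent.N253.LC.t_PULL hQ Pool.Agent.N253.LC.t_BACK
  have hX : Pool.Agent.N253.LC.S_EXC := Pool.Agent.N253.LC.t_EXC Pool.Agent.N253.LC.t_SHAD
  have hD : Pool.Agent.N253.LC.S_DISP :=
    Pool.Agent.N253.LC.t_DISP hQ hP hX Pool.Agent.N253.LC.t_DER Pool.Agent.N253.LC.t_INT
  have hC : Pool.Agent.N253.LC.S_CMP :=
    Pool.Agent.N253.LC.t_CMP Pool.Agent.N253.LC.t_SHAD hQ Pool.Agent.N253.LC.t_BACK
  have hSHD := Pool.Agent.N673.TW.Shd.t hQ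
  have hNN := Pool.Agent.N673.TW.Nn.t (Pool.Agent.N673.TW.In2.t
      (Pool.Agent.N673.TW.Tw2.t hD hC Pool.Agent.N253.LC.t_COORD) Pool.Agent.N253.LC.t_LIM)
  have hHR := Pool.Agent.N673.TW.Hr1.t Pool.Agent.N673.TW.Cor.t Pool.Agent.N253.LC.t_HARM
  obtain ⟨-, hres⟩ := Pool.Agent.Results.MP_c6f924_an.SharpLocalConnectivity.result d hd
  obtain ⟨L, -, hae, -⟩ := hres ψ hψ
  have hex : ∀ᵐ θ : ℝ, ∃ c : ℂ,
      Tendsto (fun s : ℝ => ψ (s * Complex.exp (θ * Complex.I))) (𝓝[>] 1) (𝓝 c) := by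
    filter_upwards [hae] with θ h
    obtain ⟨c₀, -, h1, -⟩ := h
    exact ⟨c₀, h1⟩
  filter_upwards [hae, ae_neg' (Pool.Agent.Y272.TY.typical_all hd hβ)] with θ h1 h3
  obtain ⟨c₀, hc₀, hland, C0, c, hC0, hc, -, -, -, -, -, hfr, -⟩ := h1
  obtain ⟨c0, A, R', T⟩ := h3
  have hcc : c0 = c₀ := by
    have h4 : Tendsto (fun r : ℝ => r⁻¹) (𝓝[>] 1) (𝓝[<] 1) := by
      rw [tendsto_nhdsWithin_iff]
      constructor
      · have : Tendsto (fun r : ℝ => r⁻¹) (𝓝 1) (𝓝 (1 : ℝ)⁻¹) :=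
          (continuousAt_inv₀ one_ne_zero).tendsto
        rw [inv_one] at this
        exact this.mono_left nhdsWithin_le_nhds
      · filter_upwards [self_mem_nhdsWithin] with r hr
        have hr' : (1 : ℝ) < r := hr
        exact inv_lt_one_of_one_lt₀ hr'
    have h5 : Tendsto (fun r : ℝ => cc β (Pool.Agent.W677.Mar.pt r⁻¹ (-θ))) (𝓝[>] 1) (𝓝 c0) := T.land.comp h4
    refine tendsto_nhds_unique (h5.congr' ?_) hland
    filter_upwards [self_mem_nhdsWithin] with r hr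
    exact (psi_eq hβ hψ hr θ).symm
  subst hcc
  have hLy := Pool.Agent.Y298.CA.lyap_of_typ hd hβ T
  refine ⟨c0, hc₀, hland, hLy, ?_⟩
  obtain ⟨B, κ, η, n₀, hS⟩ := hSHD d β (-θ) c0 A R' hd hβ T
  obtain ⟨N, R₀, B', D, C, hy⟩ := hNN d β (-θ) c0 A R' B κ η n₀ ψ hd hβ T hLy hS hψ
  obtain ⟨C', r₁, hC', hr₁, hr₁R, hhr⟩ := hHR _ ψ c0 d N R₀ B' D C θ hy hland hex
  intro ζ hζ himp
  by_contra hne
  have hexp : Tendsto Real.exp (𝓝[>] 0) (𝓝[>] 1) := by
    rw [tendsto_nhdsWithin_iff]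
    constructor
    · have := Real.continuous_exp.tendsto 0
      rw [Real.exp_zero] at this
      exact this.mono_left nhdsWithin_le_nhds
    · filter_upwards [self_mem_nhdsWithin] with t ht
      exact Real.one_lt_exp_iff.2 ht
  have hl1 : Tendsto (fun t : ℝ => ψ (Real.exp t * Complex.exp (θ * I))) (𝓝[>] 0) (𝓝 c0) :=
    hland.comp hexp
  have hl2 : Tendsto (fun t : ℝ => ψ (Real.exp t * ζ)) (𝓝[>] 0) (𝓝 c0) := by
    have hyp := Pool.Agent.N253.LC.all hd hLy hψ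
    have hα := hyp.pos
    have h4 := hyp.ray_upper hζ himp (δ := 1 / (Real.log d / Real.log d) / 2) (by positivity)
    rw [tendsto_iff_norm_sub_tendsto_zero]
    refine squeeze_zero' (Eventually.of_forall fun _ => norm_nonneg _) h4 ?_
    have h5 : 0 < 1 / (Real.log d / Real.log d) - 1 / (Real.log d / Real.log d) / 2 := by
      have : 0 < 1 / (Real.log d / Real.log d) := by positivity
      linarith
    exact (Pool.Agent.N253.LC.Hyp.tendsto_rpow_zero h5).mono_right nhdsWithin_le_nhds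
  obtain ⟨C₁, hC₁, hL1⟩ := two_rays hy (Complex.norm_exp_ofReal_mul_I θ) hζ (fun hh => hne hh.symm)
    hl1 hl2
  obtain ⟨D', hD', hlin⟩ := hy_lin hy
  refine clash (h := Pool.Agent.N673.TW.harm ψ c0) hC₁ hC' hc hD' hlin hL1 ?_ hfr
  filter_upwards [Ioo_mem_nhdsGT hr₁] with R hR
  exact hhr R hR.1 hR.2.le

end Pool.Agent.H206.Ray
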