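import Pool.Agent.H206.RayG

set_option autoImplicit false

/-! # Generic boundary points are not cut points -/

namespace Pool.Agent.H206.Ray

open Complex Metric Set Filter Topology MeasureTheory N62a1eb23
open Pool.Agent.H712R2 Pool.Agent.H713R2 Pool.Agent.Y298.CA

/-- points of an impression are approximated -/
theorem imp_near {ψ : ℂ → ℂ} {ζ x : ℂ} (hx : x ∈ imp ψ ζ) {ε : ℝ} (hε : 0 < ε) :
    ∃ w : ℂ, 1 < ‖w‖ ∧ ‖w - ζ‖ < ε ∧ ‖ψ w - x‖ < ε := by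
  have h1 : MapClusterPt x (𝓝[{w | 1 < ‖w‖}] ζ) ψ := hx
  have h2 := (mapClusterPt_iff_frequently.1 h1) (ball x ε) (ball_mem_nhds x hε)
  have h3 : ∀ᶠ w in 𝓝[{w : ℂ | 1 < ‖w‖}] ζ, w ∈ ball ζ ε :=
    mem_nhdsWithin_of_mem_nhds (ball_mem_nhds ζ hε)
  obtain ⟨w, a1, a2, a3⟩ := (h2.and_eventually (h3.and self_mem_nhdsWithin)).exists
  rw [mem_ball, dist_eq_norm] at a1 a2
  exact ⟨w, a3, a2, a1⟩

/-- impressions of nearby points are in nearby angles, if there is only one angle -/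
theorem near_of_unique {ψ : ℂ → ℂ} {c₀ ζ₀ : ℂ}
    (h : ∀ ζ : ℂ, ‖ζ‖ = 1 → c₀ ∈ imp ψ ζ → ζ = ζ₀) {η : ℝ} (hη : 0 < η) :
    ∃ ρ : ℝ, 0 < ρ ∧ ∀ ζ : ℂ, ‖ζ‖ = 1 → (imp ψ ζ ∩ ball c₀ ρ).Nonempty → ‖ζ - ζ₀‖ < η := by
  by_contra hcon
  push Not at hcon
  have h1 : ∀ n : ℕ, ∃ ζ w : ℂ, ‖ζ‖ = 1 ∧ η ≤ ‖ζ - ζ₀‖ ∧ 1 < ‖w‖ ∧ ‖w - ζ‖ < 1 / ((n : ℝ) + 1) ∧
      ‖ψ w - c₀‖ < 2 / ((n : ℝ) + 1) := by
    intro n
    obtain ⟨ζ, a1, ⟨x, a2, a3⟩, a4⟩ := hcon (1 / ((n : ℝ) + 1)) (by positivity)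
    obtain ⟨w, b1, b2, b3⟩ := imp_near a2 (ε := 1 / ((n : ℝ) + 1)) (by positivity)
    refine ⟨ζ, w, a1, a4, b1, b2, ?_⟩
    rw [mem_ball, dist_eq_norm] at a3
    have h2 : ‖ψ w - c₀‖ ≤ ‖ψ w - x‖ + ‖x - c₀‖ := by
      have := norm_add_le (ψ w - x) (x - c₀)
      rwa [sub_add_sub_cancel] at this
    have h3 : 2 / ((n : ℝ) + 1) = 1 / ((n : ℝ) + 1) + 1 / ((n : ℝ) + 1) := by ring
    linarith
  choose ζ w a1 a2 a3 a4 a5 using h1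
  have hb : ∀ n, ζ n ∈ sphere (0 : ℂ) 1 := fun n => by
    rw [mem_sphere_zero_iff_norm]
    exact a1 n
  obtain ⟨ζ', hζ', φ, hφ, hlim⟩ := (isCompact_sphere (0 : ℂ) 1).tendsto_subseq hb
  rw [mem_sphere_zero_iff_norm] at hζ'
  have h2 : Tendsto (fun n : ℕ => 1 / ((φ n : ℝ) + 1)) atTop (𝓝 0) :=
    tendsto_one_div_add_atTop_nhds_zero_nat.comp hφ.tendsto_atTop
  have h3 : Tendsto (fun n => w (φ n)) atTop (𝓝[{w | 1 < ‖w‖}] ζ') := by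
    rw [tendsto_nhdsWithin_iff]
    refine ⟨?_, Eventually.of_forall fun n => a3 (φ n)⟩
    have e1 : Tendsto (fun n => w (φ n) - ζ (φ n)) atTop (𝓝 0) :=
      squeeze_zero_norm (fun n => (a4 (φ n)).le) h2
    have e2 := e1.add hlim
    simpa using e2
  have h4 : Tendsto (fun n => ψ (w (φ n))) atTop (𝓝 c₀) := by
    rw [tendsto_iff_norm_sub_tendsto_zero]
    have e1 := h2.const_mul 2
    rw [mul_zero] at e1
    refine squeeze_zero (fun n => norm_nonneg _) (fun n => ?_) e1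
    have := (a5 (φ n)).le
    rwa [mul_one_div]
  have h5 : c₀ ∈ imp ψ ζ' := (h4.mapClusterPt).of_comp h3
  have h6 := h ζ' hζ' h5
  have h7 : Tendsto (fun n => ‖ζ (φ n) - ζ₀‖) atTop (𝓝 ‖ζ' - ζ₀‖) := (hlim.sub_const ζ₀).norm
  have h8 : η ≤ ‖ζ' - ζ₀‖ := ge_of_tendsto' h7 fun n => a2 (φ n)
  rw [h6, sub_self, norm_zero] at h8
  linarith

/-- one angle with a trivial impression: the point does not separate -/
theorem conn_of_one {M : Set ℂ} {ψ : ℂ → ℂ} (hM : IsCompact M) (hψ : IsExteriorMap M ψ)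
    (hb : ∀ w : ℂ, 1 < ‖w‖ → ‖ψ w‖ ≤ 2 * ‖w‖) {c₀ ζ₀ : ℂ} (h1 : ‖ζ₀‖ = 1) (h2 : imp ψ ζ₀ = {c₀})
    (h3 : ∀ ζ : ℂ, ‖ζ‖ = 1 → c₀ ∈ imp ψ ζ → ζ = ζ₀) : IsPreconnected (M \ {c₀}) := by
  have hcomps := comps (F := {ζ₀}) hM hψ hb (c₀ := c₀)
    (fun ζ => by
      rw [Finset.mem_singleton]
      constructor
      · rintro rfl
        exact ⟨h1, by rw [h2]; exact mem_singleton _⟩
      · exact fun hh => h3 ζ hh.1 hh.2)
    (fun ζ hζ => by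
      rw [Finset.mem_singleton] at hζ
      rw [hζ, h2])
    (Finset.mem_singleton_self ζ₀)
  rw [Finset.card_singleton] at hcomps
  obtain ⟨a1, a2⟩ := hcomps
  have a3 := a1.to_subtype
  have a4 := Set.ncard_le_one_iff_subsingleton.1 a2
  rcases (M \ {c₀}).eq_empty_or_nonempty with h4 | ⟨x, hx⟩
  · rw [h4]
    exact isPreconnected_empty
  · have h4 : M \ {c₀} = connectedComponentIn (M \ {c₀}) x := by
      refine Subset.antisymm (fun y hy => ?_) (connectedComponentIn_subset _ _)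
      have h5 : connectedComponentIn (M \ {c₀}) y = connectedComponentIn (M \ {c₀}) x :=
        a4 ⟨y, hy, rfl⟩ ⟨x, hx, rfl⟩
      rw [← h5]
      exact mem_connectedComponentIn hy
    rw [h4]
    exact isPreconnected_connectedComponentIn

/-- the Multibrot set without a point is not empty -/
theorem diff_nonempty {d : ℕ} (hd : 2 ≤ d) (c₀ : ℂ) : (multibrotSet d \ {c₀}).Nonempty := by
  have h1 : ∀ c : ℂ, ‖c‖ ≤ 1 / 4 → c ∈ multibrotSet d := by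
    intro c hc
    rw [mem_multibrot_iff hd]
    have h2 : ∀ n, ‖P d n c‖ ≤ 1 / 2 := by
      intro n
      induction n with
      | zero => simp [P]
      | succ n ih =>
        have e1 : P d (n + 1) c = P d n c ^ d + c := P_succ d n c
        rw [e1]
        have e2 : ‖P d n c ^ d‖ ≤ 1 / 4 := by
          rw [norm_pow]
          calc ‖P d n c‖ ^ d ≤ (1 / 2) ^ d := pow_le_pow_left₀ (norm_nonneg _) ih d
            _ ≤ (1 / 2) ^ 2 := pow_le_pow_of_le_one (by norm_num) (by norm_num) hd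
            _ = 1 / 4 := by norm_num
        have := norm_add_le (P d n c ^ d) c
        linarith
    intro n
    linarith [h2 n]
  by_cases h0 : c₀ = 0
  · refine ⟨1 / 8, h1 _ ?_, ?_⟩
    · rw [norm_div, norm_one]
      norm_num
    · rw [h0, mem_singleton_iff]
      norm_num
  · exact ⟨0, h1 _ (by rw [norm_zero]; norm_num), fun hh => h0 hh.symm⟩

/-- the points which are in the impression of one angle only, at the scale `η` -/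
def Op (d : ℕ) (ψ : ℂ → ℂ) (η : ℝ) : Set ℂ :=
  {c | ∃ ρ : ℝ, 0 < ρ ∧ Fine d ψ η (ball c ρ) ∧ ∀ ζ ζ' : ℂ, ‖ζ‖ = 1 → ‖ζ'‖ = 1 →
    (imp ψ ζ ∩ ball c ρ).Nonempty → (imp ψ ζ' ∩ ball c ρ).Nonempty → ‖ζ - ζ'‖ < η}

theorem Op_open (d : ℕ) (ψ : ℂ → ℂ) (η : ℝ) : IsOpen (Op d ψ η) := by
  rw [Metric.isOpen_iff]
  rintro c ⟨ρ, h1, h2, h3⟩
  refine ⟨ρ / 2, half_pos h1, ?_⟩
  intro c' hc'
  have hsub : ball c' (ρ / 2) ⊆ ball c ρ := by
    apply ball_subset_ball'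
    rw [mem_ball] at hc'
    linarith
  exact ⟨ρ / 2, half_pos h1, fine_mono h2 hsub, fun ζ ζ' a1 a2 a3 a4 =>
    h3 ζ ζ' a1 a2 (a3.mono (inter_subset_inter_right _ hsub))
      (a4.mono (inter_subset_inter_right _ hsub))⟩

theorem fine_eta {d : ℕ} {ψ : ℂ → ℂ} {η η' : ℝ} {K : Set ℂ} (h : Fine d ψ η K) (hη : η ≤ η') :
    Fine d ψ η' K := by
  obtain ⟨b, ρ, h1, h2, h3, h4, h5, δ, hδ, h6⟩ := h
  refine ⟨b, ρ, h1, h2, h3.trans hη, h4, fun ζ hζ hne x hx y hy => (h5 ζ hζ hne x hx y hy).trans hη,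
    δ, hδ, fun x hx hxb y hy hyx => ?_⟩
  obtain ⟨S, a1, a2, a3, a4, a5, a6⟩ := h6 x hx hxb y hy hyx
  exact ⟨S, a1, a2, a3, a4, a5, a6.trans (closedBall_subset_closedBall hη)⟩

/-- the points which are in all the sets `Op` -/
theorem of_Op {d : ℕ} (hd : 2 ≤ d) {ψ : ℂ → ℂ} (hψ : IsExteriorMap (multibrotSet d) ψ) {c : ℂ}
    (hc : ∀ k : ℕ, c ∈ Op d ψ (1 / ((k : ℝ) + 1))) :
    c ∈ frontier (multibrotSet d) ∧ (∀ η : ℝ, 0 < η → Fine d ψ η {c}) ∧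
    (∃ ζ : ℂ, ‖ζ‖ = 1 ∧ imp ψ ζ = {c} ∧ ∀ ζ' : ℂ, ‖ζ'‖ = 1 → c ∈ imp ψ ζ' → ζ' = ζ) ∧
    IsConnected (multibrotSet d \ {c}) := by
  have hfine : ∀ η : ℝ, 0 < η → Fine d ψ η {c} := by
    intro η hη
    obtain ⟨k, hk⟩ := exists_nat_one_div_lt hη
    obtain ⟨ρ, h1, h2, -⟩ := hc k
    exact fine_eta (fine_mono h2 (singleton_subset_iff.2 (mem_ball_self h1))) hk.le
  have hfr := front_of_fine hfine
  have hM := isCompact_multibrot hd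
  obtain ⟨ζ, hζ, hcζ⟩ := exists_imp hψ hfr hM.isClosed
  have huni : ∀ ζ' : ℂ, ‖ζ'‖ = 1 → c ∈ imp ψ ζ' → ζ' = ζ := by
    intro ζ' hζ' hcζ'
    by_contra hne
    have h0 : 0 < ‖ζ' - ζ‖ := norm_pos_iff.2 (sub_ne_zero.2 hne)
    obtain ⟨k, hk⟩ := exists_nat_one_div_lt h0
    obtain ⟨ρ, h1, -, h3⟩ := hc k
    have := h3 ζ' ζ hζ' hζ ⟨c, hcζ', mem_ball_self h1⟩ ⟨c, hcζ, mem_ball_self h1⟩
    linarith
  have himp := imp_of_fine hfine hζ hcζ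
  exact ⟨hfr, hfine, ⟨ζ, hζ, himp, huni⟩, diff_nonempty hd c,
    conn_of_one hM hψ (fun w hw => Pool.Agent.R240.Ext.psi_le hd hψ hw) hζ himp huni⟩

/-- the typical points are in all the sets `Op` -/
theorem Op_of_lyap {d : ℕ} (hd : 2 ≤ d) {ψ : ℂ → ℂ} (hψ : IsExteriorMap (multibrotSet d) ψ) {χ : ℝ}
    {c ζ₀ : ℂ} (hc : Lyap d χ c) (h : ∀ ζ : ℂ, ‖ζ‖ = 1 → c ∈ imp ψ ζ → ζ = ζ₀) {η : ℝ}
    (hη : 0 < η) : c ∈ Op d ψ η := by
  obtain ⟨ρ₁, h1, -, h2⟩ := fine_of_lyap hd hψ (χ := χ) (b := c) hc hη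
  obtain ⟨ρ₂, h3, h4⟩ := near_of_unique h (half_pos hη)
  refine ⟨min ρ₁ ρ₂, by positivity, h2 _ (ball_subset_ball (min_le_left _ _)), ?_⟩
  intro ζ ζ' a1 a2 a3 a4
  have hsub : ball c (min ρ₁ ρ₂) ⊆ ball c ρ₂ := ball_subset_ball (min_le_right _ _)
  have b1 := h4 ζ a1 (a3.mono (inter_subset_inter_right _ hsub))
  have b2 := h4 ζ' a2 (a4.mono (inter_subset_inter_right _ hsub))
  have b3 : ‖ζ - ζ'‖ ≤ ‖ζ - ζ₀‖ + ‖ζ' - ζ₀‖ := by
    have := norm_sub_le (ζ - ζ₀) (ζ' - ζ₀)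
    rwa [sub_sub_sub_cancel_right] at this
  linarith

/-- a trivial impression gives the unrestricted limit -/
theorem lim_of_imp {ψ : ℂ → ℂ} (hb : ∀ w : ℂ, 1 < ‖w‖ → ‖ψ w‖ ≤ 2 * ‖w‖) {c ζ : ℂ}
    (hζ : ‖ζ‖ = 1) (h : imp ψ ζ = {c}) : Tendsto ψ (𝓝[{w | 1 < ‖w‖}] ζ) (𝓝 c) := by
  apply (isCompact_closedBall (0 : ℂ) 4).le_nhds_of_unique_clusterPt
  · have h1 : ∀ᶠ w : ℂ in 𝓝[{w | 1 < ‖w‖}] ζ, w ∈ ball ζ 1 :=
      mem_nhdsWithin_of_mem_nhds (ball_mem_nhds ζ one_pos)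
    rw [mem_map]
    filter_upwards [h1, self_mem_nhdsWithin] with w h2 h3
    rw [mem_preimage, mem_closedBall_zero_iff]
    have h4 := hb w h3
    rw [mem_ball, dist_eq_norm] at h2
    have h5 : ‖w‖ ≤ ‖w - ζ‖ + ‖ζ‖ := by
      have := norm_add_le (w - ζ) ζ
      rwa [sub_add_cancel] at this
    linarith
  · intro x _ hx
    have h1 : x ∈ imp ψ ζ := hx
    rw [h] at h1
    exact h1

/-- the dense set -/
theorem dense_Op {d : ℕ} (hd : 2 ≤ d) {ψ : ℂ → ℂ} (hψ : IsExteriorMap (multibrotSet d) ψ) :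
    frontier (multibrotSet d) ⊆ closure (⋂ k : ℕ, Op d ψ (1 / ((k : ℝ) + 1))) := by
  intro p hp
  rw [Metric.mem_closure_iff]
  intro r hr
  have hae := ae_alone hd hψ
  have hpos := pos_vol hd hψ hp hr
  by_contra hcon
  push Not at hcon
  have h1 : volume (Pool.Agent.Y736.HD.Ang ψ p r) = 0 := by
    refine measure_mono_null ?_ hae
    intro θ hθ hh
    obtain ⟨c₀, -, hland, hL, huni⟩ := hh
    obtain ⟨-, c₁, hc₁, hland'⟩ := hθ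
    have hcc : c₁ = c₀ := tendsto_nhds_unique hland' hland
    have h2 := hcon c₀ (mem_iInter.2 fun k => Op_of_lyap hd hψ hL huni (by positivity))
    rw [hcc, mem_ball, dist_comm] at hc₁
    linarith
  rw [h1] at hpos
  simp at hpos

end Pool.Agent.H206.Ray
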