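import Pool.Agent.H206.RayD
import Pool.Graph.R_pool_sql_team_ae5b0c61.H60.RGa

set_option autoImplicit false

/-! # Two rays which land at the same point separate the rest of the set -/

open Set Filter Metric Topology

namespace Pool.Agent.H206.Sep

open H60.RG (IsWind exists_isWind cl cl_cont cl_zero cl_one cl_nonneg cl_le_one)
open Pool.Agent.H713R2 (IsExteriorMap)

theorem wind_mul {f g : ℝ → ℂ} {n m : ℤ} (hf : IsWind f n) (hg : IsWind g m) :
    IsWind (fun θ => f θ * g θ) (n + m) := by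
  obtain ⟨L, hL, h1, h2⟩ := hf
  obtain ⟨L', hL', h1', h2'⟩ := hg
  refine ⟨fun θ => L θ + L' θ, hL.add hL', fun θ => ?_, fun θ => ?_⟩
  · rw [Complex.exp_add, h1, h1']
  · simp only [h2, h2']
    push_cast
    ring

theorem wind_const {a : ℂ} (ha : a ≠ 0) : IsWind (fun _ => a) 0 :=
  ⟨fun _ => Complex.log a, continuous_const, fun _ => Complex.exp_log ha, fun _ => by simp⟩

theorem wind_far {γ : ℝ → ℂ} (hγ : Continuous γ) (hp : ∀ θ, γ (θ + 2 * Real.pi) = γ θ) {q : ℂ}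
    (hq : ∀ θ, ‖γ θ‖ < ‖q‖) : IsWind (fun θ => γ θ - q) 0 := by
  have hcl := cl_cont
  have hq0 : q ≠ 0 := by
    rintro rfl
    have h1 := hq 0
    rw [norm_zero] at h1
    exact absurd (norm_nonneg (γ 0)) (not_le.2 h1)
  have h0 : IsWind (fun θ => (cl 0 : ℂ) * γ θ - q) 0 := by
    have h1 := wind_const (neg_ne_zero.2 hq0)
    have e : (fun θ : ℝ => (cl 0 : ℂ) * γ θ - q) = fun _ => -q := by
      funext θ
      rw [cl_zero, Complex.ofReal_zero, zero_mul, zero_sub]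
    rw [e]
    exact h1
  have := IsWind.homotopy (G := fun p : ℝ × ℝ => (cl p.1 : ℂ) * γ p.2 - q) (by fun_prop) ?_
    (fun t θ => by simp only [hp]) (s := 0) (t := 1) (n := 0) h0
  · simpa [cl_one] using this
  · rintro ⟨t, θ⟩ hh
    have h1 : (cl t : ℂ) * γ θ = q := sub_eq_zero.1 hh
    have h2 : ‖(cl t : ℂ) * γ θ‖ ≤ ‖γ θ‖ := by
      rw [norm_mul, Complex.norm_real, Real.norm_of_nonneg (cl_nonneg t)]
      exact mul_le_of_le_one_left (norm_nonneg _) (cl_le_one t)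
    rw [h1] at h2
    exact absurd (hq θ) (not_lt.2 h2)

theorem wind_circ {r : ℝ → ℝ} (hr : Continuous r) (h0 : ∀ θ, 0 < r θ)
    (hp : ∀ θ, r (θ + 2 * Real.pi) = r θ) :
    IsWind (fun θ => (r θ : ℂ) * Complex.exp (θ * Complex.I)) 1 := by
  refine ⟨fun θ => (Real.log (r θ) : ℂ) + θ * Complex.I, ?_, fun θ => ?_, fun θ => ?_⟩
  · have h1 : Continuous fun θ => Real.log (r θ) := hr.log fun θ => (h0 θ).ne'
    fun_prop
  · rw [Complex.exp_add, ← Complex.ofReal_exp, Real.exp_log (h0 θ)]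
  · simp only [hp]
    push_cast
    ring

open Classical in
/-- the exterior map, extended by `c₀` -/
noncomputable def Ps (ψ : ℂ → ℂ) (c₀ w : ℂ) : ℂ := if 1 < ‖w‖ then ψ w else c₀

theorem Ps_out {ψ : ℂ → ℂ} {c₀ w : ℂ} (h : 1 < ‖w‖) : Ps ψ c₀ w = ψ w := if_pos h

theorem Ps_in {ψ : ℂ → ℂ} {c₀ w : ℂ} (h : ‖w‖ = 1) : Ps ψ c₀ w = c₀ :=
  if_neg (by rw [h]; exact lt_irrefl _)

theorem Ps_cont {ψ : ℂ → ℂ} {c₀ : ℂ} (hd : DifferentiableOn ℂ ψ {w | 1 < ‖w‖}) {A : Set ℂ}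
    (hA : ∀ ζ ∈ A, ‖ζ‖ = 1 ∧ Tendsto ψ (𝓝[{w | 1 < ‖w‖}] ζ) (𝓝 c₀)) :
    ContinuousOn (Ps ψ c₀) ({w | 1 < ‖w‖} ∪ A) := by
  intro w hw
  rcases hw with hw | hw
  · have hopen : IsOpen {w : ℂ | 1 < ‖w‖} := isOpen_lt continuous_const continuous_norm
    have h1 : ContinuousAt ψ w := (hd.differentiableAt (hopen.mem_nhds hw)).continuousAt
    refine (h1.congr ?_).continuousWithinAt
    filter_upwards [hopen.mem_nhds hw] with z hz
    exact (Ps_out hz).symm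
  · obtain ⟨h1, h2⟩ := hA w hw
    have e : Ps ψ c₀ w = c₀ := Ps_in h1
    rw [ContinuousWithinAt, e, nhdsWithin_union, tendsto_sup]
    constructor
    · refine h2.congr' ?_
      filter_upwards [self_mem_nhdsWithin] with z hz
      exact (Ps_out hz).symm
    · refine tendsto_const_nhds.congr' ?_
      filter_upwards [self_mem_nhdsWithin] with z hz
      exact (Ps_in (hA z hz).1).symm

/-- the points of the unit circle -/
noncomputable def ee (θ : ℝ) : ℂ := Complex.exp (θ * Complex.I)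

theorem ee_norm (θ : ℝ) : ‖ee θ‖ = 1 := Complex.norm_exp_ofReal_mul_I θ

theorem ee_per (θ : ℝ) : ee (θ + 2 * Real.pi) = ee θ := by
  unfold ee
  push_cast
  rw [add_mul, Complex.exp_periodic]

theorem ee_cont : Continuous ee := by
  unfold ee
  fun_prop

/-- the function which is negative on the sector between `α` and `β` -/
noncomputable def Sg (α β : ℝ) (w : ℂ) : ℝ :=
  Real.cos ((β - α) / 2) * ‖w‖ - (w * Complex.exp (-(((α + β) / 2 : ℝ) : ℂ) * Complex.I)).re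

theorem Sg_cont (α β : ℝ) : Continuous (Sg α β) := by
  unfold Sg
  fun_prop

theorem Sg_hom (α β : ℝ) {t : ℝ} (ht : 0 ≤ t) (w : ℂ) : Sg α β (t * w) = t * Sg α β w := by
  unfold Sg
  rw [norm_mul, Complex.norm_real, Real.norm_of_nonneg ht, mul_assoc (t : ℂ), Complex.re_ofReal_mul]
  ring

theorem Sg_ee (α β θ : ℝ) :
    Sg α β (ee θ) = 2 * Real.sin ((θ - α) / 2) * Real.sin ((θ - β) / 2) := by
  unfold Sg
  rw [ee_norm, mul_one]
  have h1 : ee θ * Complex.exp (-(((α + β) / 2 : ℝ) : ℂ) * Complex.I) =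
      Complex.exp ((θ - (α + β) / 2 : ℝ) * Complex.I) := by
    unfold ee
    rw [← Complex.exp_add]
    congr 1
    push_cast
    ring
  rw [h1, Complex.exp_ofReal_mul_I_re, Real.cos_sub_cos]
  have e1 : ((β - α) / 2 + (θ - (α + β) / 2)) / 2 = (θ - α) / 2 := by ring
  have e2 : ((β - α) / 2 - (θ - (α + β) / 2)) / 2 = -((θ - β) / 2) := by ring
  rw [e1, e2, Real.sin_neg]
  ring

theorem ee_of_sin {α θ : ℝ} (h : Real.sin ((θ - α) / 2) = 0) : ee θ = ee α := by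
  obtain ⟨n, hn⟩ := Real.sin_eq_zero_iff.1 h
  unfold ee
  rw [Complex.exp_eq_exp_iff_exists_int]
  refine ⟨n, ?_⟩
  have h1 : θ = α + 2 * (n * Real.pi) := by linarith
  rw [h1]
  push_cast
  ring

theorem Sg_zero {α β θ : ℝ} (h : Sg α β (ee θ) = 0) : ee θ = ee α ∨ ee θ = ee β := by
  rw [Sg_ee] at h
  rcases mul_eq_zero.1 h with h1 | h1
  · left
    rcases mul_eq_zero.1 h1 with h2 | h2
    · norm_num at h2
    · exact ee_of_sin h2
  · exact Or.inr (ee_of_sin h1)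

theorem Sg_neg {α β γ : ℝ} (hβα : β < α + 2 * Real.pi) (h1 : α < γ) (h2 : γ < β) :
    Sg α β (ee γ) < 0 := by
  rw [Sg_ee]
  have h3 : 0 < Real.sin ((γ - α) / 2) := Real.sin_pos_of_pos_of_lt_pi (by linarith) (by linarith)
  have h4 : Real.sin ((γ - β) / 2) < 0 := Real.sin_neg_of_neg_of_neg_pi_lt (by linarith)
    (by linarith)
  exact mul_neg_of_pos_of_neg (by positivity) h4

theorem Sg_pos {α β δ : ℝ} (hαβ : α < β) (h1 : β < δ) (h2 : δ < α + 2 * Real.pi) :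
    0 < Sg α β (ee δ) := by
  rw [Sg_ee]
  have h3 : 0 < Real.sin ((δ - α) / 2) := Real.sin_pos_of_pos_of_lt_pi (by linarith) (by linarith)
  have h4 : 0 < Real.sin ((δ - β) / 2) := Real.sin_pos_of_pos_of_lt_pi (by linarith) (by linarith)
  positivity

/-- the winding number is zero on the other side -/
theorem ray_zero {M : Set ℂ} {ψ : ℂ → ℂ} (hψ : IsExteriorMap M ψ) {c₀ : ℂ} (hc₀ : c₀ ∈ M)
    {g : ℂ → ℝ} (hg : Continuous g) (hgh : ∀ (t : ℝ) (w : ℂ), 0 ≤ t → g (t * w) = t * g w)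
    {Γ : ℝ → ℂ} (hΓ : Continuous Γ) (hp : ∀ θ, Γ (θ + 2 * Real.pi) = Γ θ)
    (hval : ∀ θ, Γ θ = c₀ ∨ ∃ w : ℂ, 1 < ‖w‖ ∧ g w < 0 ∧ Γ θ = ψ w) {ζ y : ℂ} (hζ : 0 < g ζ)
    (hy : MapClusterPt y (𝓝[{w | 1 < ‖w‖}] ζ) ψ) (hyM : y ∈ M) (hyc : y ≠ c₀) :
    IsWind (fun θ => Γ θ - y) 0 := by
  have hout : ∀ w : ℂ, 1 < ‖w‖ → ψ w ∉ M := by
    intro w hw
    have h1 : ψ w ∈ Mᶜ := by
      rw [← hψ.image]
      exact mem_image_of_mem ψ hw
    exact h1
  have hne : ∀ θ, Γ θ - y ≠ 0 := by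
    intro θ h0
    have h1 : Γ θ = y := sub_eq_zero.1 h0
    rcases hval θ with h2 | ⟨w, h2, -, h3⟩
    · exact hyc (h1.symm.trans h2)
    · exact hout w h2 (by rw [← h3, h1]; exact hyM)
  obtain ⟨n, hn⟩ := exists_isWind (γ := fun θ => Γ θ - y) (hΓ.sub continuous_const) hne
    (fun θ => by simp only [hp])
  obtain ⟨ε, hε, hloc⟩ := IsWind.local_const hΓ hp hn
  have h1 : ∃ᶠ w in 𝓝[{w | 1 < ‖w‖}] ζ, ψ w ∈ ball y ε := hy.frequently (ball_mem_nhds y hε)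
  have h2 : ∀ᶠ w in 𝓝[{w : ℂ | 1 < ‖w‖}] ζ, 0 < g w :=
    nhdsWithin_le_nhds (hg.continuousAt.eventually (lt_mem_nhds hζ))
  have h3 : ∀ᶠ w in 𝓝[{w : ℂ | 1 < ‖w‖}] ζ, 1 < ‖w‖ := self_mem_nhdsWithin
  obtain ⟨w, ⟨h4, h5⟩, h6⟩ := ((h1.and_eventually h2).and_eventually h3).exists
  have h7 : IsWind (fun θ => Γ θ - ψ w) n := hloc (ψ w) h4
  -- the bound of the curve
  have hper : Function.Periodic Γ (2 * Real.pi) := hp
  have hK : IsCompact (range Γ) := hper.compact_of_continuous (by positivity) hΓ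
  obtain ⟨B, hB⟩ := hK.isBounded.exists_norm_le
  have hw0 : 0 < ‖w‖ := by linarith
  -- a far point of the ray
  obtain ⟨t, ht1, ht2⟩ : ∃ t : ℝ, 1 ≤ t ∧ B < ‖ψ (t * w)‖ := by
    have h8 : Tendsto (fun t : ℝ => (t : ℂ) * w) atTop (Bornology.cobounded ℂ) := by
      rw [← tendsto_norm_atTop_iff_cobounded]
      have h9 : Tendsto (fun t : ℝ => t * ‖w‖) atTop atTop := tendsto_id.atTop_mul_const hw0
      refine h9.congr' ?_
      filter_upwards [eventually_ge_atTop 0] with t ht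
      rw [norm_mul, Complex.norm_real, Real.norm_of_nonneg ht]
    have h9 := hψ.infinity.comp h8
    have h10 : ∀ᶠ t : ℝ in atTop, ‖ψ (t * w) / (t * w) - 1‖ < 1 / 2 := by
      have h11 := (h9.sub_const 1).norm
      rw [sub_self, norm_zero] at h11
      exact h11.eventually (gt_mem_nhds (by norm_num : (0 : ℝ) < 1 / 2))
    obtain ⟨t, ht1, ht2, ht3⟩ := (h10.and ((eventually_ge_atTop (1 : ℝ)).and
      (eventually_gt_atTop (2 * B / ‖w‖)))).exists
    refine ⟨t, ht2, ?_⟩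
    have ht0 : 0 < t := by linarith
    have h12 : ‖(t : ℂ) * w‖ = t * ‖w‖ := by
      rw [norm_mul, Complex.norm_real, Real.norm_of_nonneg ht0.le]
    have h13 : 1 / 2 < ‖ψ (t * w) / (t * w)‖ := by
      have h14 : ‖(1 : ℂ)‖ ≤ ‖ψ (t * w) / (t * w)‖ + ‖ψ (t * w) / (t * w) - 1‖ := by
        have := norm_sub_le (ψ (t * w) / (t * w)) (ψ (t * w) / (t * w) - 1)
        rwa [sub_sub_cancel] at this
      rw [norm_one] at h14
      linarith
    rw [norm_div, h12, lt_div_iff₀ (by positivity)] at h13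
    rw [div_lt_iff₀ hw0] at ht3
    linarith
  -- the ray
  have hS : IsPreconnected ((fun t : ℝ => (t : ℂ) * w) '' Ici 1) :=
    isPreconnected_Ici.image _ (by fun_prop)
  have hSout : ∀ u ∈ (fun t : ℝ => (t : ℂ) * w) '' Ici 1, 1 < ‖u‖ ∧ 0 < g u := by
    rintro _ ⟨s, hs, rfl⟩
    have hs1 : (1 : ℝ) ≤ s := hs
    have hs0 : 0 < s := by linarith
    constructor
    · rw [norm_mul, Complex.norm_real, Real.norm_of_nonneg hs0.le]
      nlinarith
    · rw [hgh s w hs0.le]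
      positivity
  have h8 := IsWind.const_on (γ := Γ) (g := ψ) hΓ hp hS
    (hψ.diff.continuousOn.mono fun u hu => (hSout u hu).1)
    (fun u hu θ h0 => by
      obtain ⟨a1, a2⟩ := hSout u hu
      rcases hval θ with h9 | ⟨v, h9, h10, h11⟩
      · exact hout u a1 (by rw [← h0, h9]; exact hc₀)
      · have h12 : v = u := hψ.inj h9 a1 (h11.symm.trans h0)
        rw [h12] at h10
        linarith)
    (u := w) (v := t * w) ⟨1, self_mem_Ici, by simp⟩ ⟨t, ht1, rfl⟩ h7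
  have h9 := wind_far hΓ hp (q := ψ (t * w)) fun θ => (hB _ (mem_range_self θ)).trans_lt ht2
  have h10 := h8.unique h9
  rw [h10] at hn
  exact hn

/-- the curves in the exterior of the unit disc -/
noncomputable def ww (α β K : ℝ) (p : ℝ × ℝ) : ℂ :=
  ((1 + |Sg α β (ee p.2)| + K * cl p.1 : ℝ) : ℂ) * ee p.2

theorem ww_norm {α β K : ℝ} (hK : 0 ≤ K) (p : ℝ × ℝ) :
    ‖ww α β K p‖ = 1 + |Sg α β (ee p.2)| + K * cl p.1 := by
  have h1 := cl_nonneg p.1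
  unfold ww
  rw [norm_mul, Complex.norm_real, ee_norm, mul_one, Real.norm_of_nonneg (by positivity)]

theorem ww_cont (α β K : ℝ) : Continuous (ww α β K) := by
  have h1 := cl_cont
  have h2 := ee_cont
  have h3 := Sg_cont α β
  unfold ww
  fun_prop

theorem ww_mem {α β K : ℝ} (hK : 0 ≤ K) (p : ℝ × ℝ) :
    ww α β K p ∈ {w : ℂ | 1 < ‖w‖} ∪ {ee α, ee β} := by
  have h1 := ww_norm (α := α) (β := β) hK p
  have h0 : 0 ≤ K * cl p.1 := mul_nonneg hK (cl_nonneg p.1)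
  have h0' := abs_nonneg (Sg α β (ee p.2))
  by_cases h : 1 < ‖ww α β K p‖
  · exact Or.inl h
  · right
    rw [h1] at h
    have h2 : |Sg α β (ee p.2)| = 0 := by linarith
    have h3 : K * cl p.1 = 0 := by linarith
    have h4 : ww α β K p = ee p.2 := by
      unfold ww
      rw [h2, h3, add_zero, add_zero, Complex.ofReal_one, one_mul]
    rw [h4]
    rcases Sg_zero (abs_eq_zero.1 h2) with h5 | h5
    · exact Or.inl h5
    · exact Or.inr h5

theorem ww_per (α β K t θ : ℝ) : ww α β K (t, θ + 2 * Real.pi) = ww α β K (t, θ) := by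
  unfold ww
  simp only [ee_per]

theorem Ps_ne {M : Set ℂ} {ψ : ℂ → ℂ} (hψ : IsExteriorMap M ψ) {c₀ x : ℂ} (hxM : x ∈ M)
    (hxc : x ≠ c₀) (w : ℂ) : Ps ψ c₀ w ≠ x := by
  by_cases h : 1 < ‖w‖
  · rw [Ps_out h]
    intro h1
    have h2 : ψ w ∈ Mᶜ := by
      rw [← hψ.image]
      exact mem_image_of_mem ψ h
    rw [h1] at h2
    exact h2 hxM
  · intro h1
    have h2 : Ps ψ c₀ w = c₀ := if_neg h
    exact hxc (h1.symm.trans h2)

/-- the total winding number -/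
theorem wind_one {M : Set ℂ} {ψ : ℂ → ℂ} (hψ : IsExteriorMap M ψ) {c₀ : ℂ} {α β : ℝ}
    (hA : ∀ ζ ∈ ({ee α, ee β} : Set ℂ), ‖ζ‖ = 1 ∧ Tendsto ψ (𝓝[{w | 1 < ‖w‖}] ζ) (𝓝 c₀)) {x : ℂ}
    (hxM : x ∈ M) (hxc : x ≠ c₀) : IsWind (fun θ => Ps ψ c₀ (ww α β 0 (0, θ)) - x) 1 := by
  obtain ⟨K, hK1, hK⟩ : ∃ K : ℝ, 1 ≤ K ∧ ∀ w : ℂ, K < ‖w‖ → ‖ψ w - x - w‖ < ‖w‖ := by
    have h1 := (hψ.infinity.sub_const 1).norm
    rw [sub_self, norm_zero] at h1
    have h2 := h1.eventually (gt_mem_nhds (by norm_num : (0 : ℝ) < 1 / 2))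
    rw [← comap_norm_atTop, eventually_comap] at h2
    obtain ⟨R, hR⟩ := eventually_atTop.1 h2
    refine ⟨max R (max 1 (2 * ‖x‖)), (le_max_left _ _).trans (le_max_right _ _), fun w hw => ?_⟩
    have hw1 : R ≤ ‖w‖ := ((le_max_left _ _).trans_lt hw).le
    have hw2 : 1 < ‖w‖ := (le_max_left _ _).trans_lt ((le_max_right _ _).trans_lt hw)
    have hw3 : 2 * ‖x‖ < ‖w‖ := (le_max_right _ _).trans_lt ((le_max_right _ _).trans_lt hw)
    have h3 := hR ‖w‖ hw1 w rfl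
    have hw0 : 0 < ‖w‖ := by linarith
    have hw0' : w ≠ 0 := norm_pos_iff.1 hw0
    have h4 : ‖ψ w - w‖ < ‖w‖ / 2 := by
      have h5 : ψ w - w = (ψ w / w - 1) * w := by field_simp
      rw [h5, norm_mul]
      calc ‖ψ w / w - 1‖ * ‖w‖ < 1 / 2 * ‖w‖ := mul_lt_mul_of_pos_right h3 hw0
        _ = _ := by ring
    calc ‖ψ w - x - w‖ = ‖(ψ w - w) - x‖ := by congr 1; ring
      _ ≤ ‖ψ w - w‖ + ‖x‖ := norm_sub_le _ _
      _ < ‖w‖ := by linarith
  have hK0 : 0 ≤ K := by linarith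
  have hcl := cl_cont
  have hPc : Continuous fun p : ℝ × ℝ => Ps ψ c₀ (ww α β K p) :=
    (Ps_cont hψ.diff hA).comp_continuous (ww_cont α β K) (ww_mem hK0)
  have hwc := ww_cont α β K
  -- large radius
  have hbig : ∀ θ, K < ‖ww α β K (1, θ)‖ := by
    intro θ
    rw [ww_norm hK0]
    have h1 := abs_nonneg (Sg α β (ee θ))
    simp only [cl_one, mul_one]
    linarith
  have h1 : IsWind (fun θ => ww α β K (1, θ)) 1 := by
    have h2 := wind_circ (r := fun θ => 1 + |Sg α β (ee θ)| + K * cl 1)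
      (by have := (Sg_cont α β).comp ee_cont
          have h3 : Continuous fun θ => |Sg α β (ee θ)| := this.abs
          fun_prop)
      (fun θ => by
        have h3 := abs_nonneg (Sg α β (ee θ))
        have h4 := mul_nonneg hK0 (cl_nonneg 1)
        linarith) (fun θ => by simp only [ee_per])
    exact h2
  have h2 : IsWind (fun θ => Ps ψ c₀ (ww α β K (1, θ)) - x) 1 := by
    have h3 : Continuous fun θ : ℝ => Ps ψ c₀ (ww α β K (1, θ)) :=
      hPc.comp (by fun_prop : Continuous fun θ : ℝ => ((1 : ℝ), θ))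
    have h4 : Continuous fun θ : ℝ => ww α β K (1, θ) :=
      hwc.comp (by fun_prop : Continuous fun θ : ℝ => ((1 : ℝ), θ))
    have h5 : IsWind (fun θ => ww α β K (1, θ) +
        (cl 0 : ℂ) * (Ps ψ c₀ (ww α β K (1, θ)) - x - ww α β K (1, θ))) 1 := by
      simp only [cl_zero, Complex.ofReal_zero, zero_mul, add_zero]
      exact h1
    have h6 := IsWind.homotopy (G := fun p : ℝ × ℝ => ww α β K (1, p.2) +
      (cl p.1 : ℂ) * (Ps ψ c₀ (ww α β K (1, p.2)) - x - ww α β K (1, p.2)))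
      (by
        have h7 : Continuous fun p : ℝ × ℝ => ww α β K (1, p.2) := h4.comp continuous_snd
        have h8 : Continuous fun p : ℝ × ℝ => Ps ψ c₀ (ww α β K (1, p.2)) :=
          h3.comp continuous_snd
        fun_prop) ?_ (fun t θ => by simp only [ww_per]) (s := 0) (t := 1) (n := 1) h5
    · have e : (fun θ => ww α β K (1, θ) +
          (cl 1 : ℂ) * (Ps ψ c₀ (ww α β K (1, θ)) - x - ww α β K (1, θ))) =
          fun θ => Ps ψ c₀ (ww α β K (1, θ)) - x := by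
        funext θ
        rw [cl_one, Complex.ofReal_one]
        ring
      rw [← e]
      exact h6
    · rintro ⟨t, θ⟩ h0
      simp only at h0
      have h7 := hbig θ
      have h8 := hK _ h7
      rw [Ps_out (by linarith)] at h0
      have h9 : ww α β K (1, θ) = -((cl t : ℂ) * (ψ (ww α β K (1, θ)) - x - ww α β K (1, θ))) :=
        eq_neg_of_add_eq_zero_left h0
      have h10 : ‖ww α β K (1, θ)‖ ≤ ‖ψ (ww α β K (1, θ)) - x - ww α β K (1, θ)‖ := by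
        conv_lhs => rw [h9]
        rw [norm_neg, norm_mul, Complex.norm_real, Real.norm_of_nonneg (cl_nonneg t)]
        exact mul_le_of_le_one_left (norm_nonneg _) (cl_le_one t)
      linarith
  have h3 := IsWind.homotopy (G := fun p : ℝ × ℝ => Ps ψ c₀ (ww α β K p) - x)
    (hPc.sub continuous_const) (fun p => sub_ne_zero.2 (Ps_ne hψ hxM hxc _))
    (fun t θ => by simp only [ww_per]) (s := 1) (t := 0) (n := 1) h2
  have e : (fun θ => Ps ψ c₀ (ww α β 0 (0, θ)) - x) =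
      fun θ => Ps ψ c₀ (ww α β K (0, θ)) - x := by
    funext θ
    unfold ww
    simp only [cl_zero, mul_zero]
  rw [e]
  exact h3

/-- **Two rays which land at `c₀` separate `M \ {c₀}`.** -/
theorem sep {M : Set ℂ} {ψ : ℂ → ℂ} (hψ : IsExteriorMap M ψ) {c₀ : ℂ} (hc₀ : c₀ ∈ M) {α β : ℝ}
    (hA : ∀ ζ ∈ ({ee α, ee β} : Set ℂ), ‖ζ‖ = 1 ∧ Tendsto ψ (𝓝[{w | 1 < ‖w‖}] ζ) (𝓝 c₀))
    {ζ ξ x y : ℂ} (hζ : Sg α β ζ < 0) (hx : MapClusterPt x (𝓝[{w | 1 < ‖w‖}] ζ) ψ) (hxM : x ∈ M)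
    (hxc : x ≠ c₀) (hξ : 0 < Sg α β ξ) (hy : MapClusterPt y (𝓝[{w | 1 < ‖w‖}] ξ) ψ) (hyM : y ∈ M)
    (hyc : y ≠ c₀) {S : Set ℂ} (hS : IsPreconnected S) (hSM : S ⊆ M \ {c₀}) (hxS : x ∈ S)
    (hyS : y ∈ S) : False := by
  obtain ⟨Γ, hΓe⟩ : ∃ Γ : ℝ → ℂ, Γ = fun θ => Ps ψ c₀ (ww α β 0 (0, θ)) := ⟨_, rfl⟩
  have hΓ : Continuous Γ := by
    rw [hΓe]
    exact ((Ps_cont hψ.diff hA).comp_continuous (ww_cont α β 0) (ww_mem le_rfl)).comp
      (by fun_prop : Continuous fun θ : ℝ => ((0 : ℝ), θ))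
  have hnorm : ∀ θ, ‖ww α β 0 (0, θ)‖ = 1 + |Sg α β (ee θ)| := by
    intro θ
    rw [ww_norm le_rfl, zero_mul, add_zero]
  have hSw : ∀ θ, Sg α β (ww α β 0 (0, θ)) = (1 + |Sg α β (ee θ)|) * Sg α β (ee θ) := by
    intro θ
    have h1 : ww α β 0 (0, θ) = ((1 + |Sg α β (ee θ)| : ℝ) : ℂ) * ee θ := by
      unfold ww
      rw [zero_mul, add_zero]
    rw [h1, Sg_hom]
    positivity
  have hΓ0 : ∀ θ, Sg α β (ee θ) = 0 → Γ θ = c₀ := by
    intro θ h0
    rw [hΓe]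
    apply Ps_in
    rw [hnorm, h0, abs_zero, add_zero]
  have hΓ1 : ∀ θ, Sg α β (ee θ) ≠ 0 → 1 < ‖ww α β 0 (0, θ)‖ ∧ Γ θ = ψ (ww α β 0 (0, θ)) := by
    intro θ h0
    have h1 : 1 < ‖ww α β 0 (0, θ)‖ := by
      rw [hnorm]
      have := abs_pos.2 h0
      linarith
    refine ⟨h1, ?_⟩
    rw [hΓe]
    exact Ps_out h1
  have hΓp : ∀ θ, Γ (θ + 2 * Real.pi) = Γ θ := by
    intro θ
    rw [hΓe]
    simp only [ww_per]
  have hSc : Continuous fun θ => Sg α β (ee θ) := (Sg_cont α β).comp ee_cont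
  obtain ⟨Γ', hΓ'e⟩ : ∃ Γ' : ℝ → ℂ, Γ' = fun θ => if Sg α β (ee θ) ≤ 0 then Γ θ else c₀ := ⟨_, rfl⟩
  obtain ⟨Γ'', hΓ''e⟩ : ∃ Γ'' : ℝ → ℂ, Γ'' = fun θ => if 0 ≤ Sg α β (ee θ) then Γ θ else c₀ :=
    ⟨_, rfl⟩
  have hΓ' : Continuous Γ' := by
    rw [hΓ'e]
    exact Continuous.if_le hΓ continuous_const hSc continuous_const fun θ h => hΓ0 θ h
  have hΓ'' : Continuous Γ'' := by
    rw [hΓ''e]
    exact Continuous.if_le hΓ continuous_const continuous_const hSc fun θ h => hΓ0 θ h.symm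
  have hΓ'p : ∀ θ, Γ' (θ + 2 * Real.pi) = Γ' θ := by
    intro θ
    rw [hΓ'e]
    simp only [ee_per, hΓp]
  have hΓ''p : ∀ θ, Γ'' (θ + 2 * Real.pi) = Γ'' θ := by
    intro θ
    rw [hΓ''e]
    simp only [ee_per, hΓp]
  have hval' : ∀ θ, Γ' θ = c₀ ∨ ∃ w : ℂ, 1 < ‖w‖ ∧ Sg α β w < 0 ∧ Γ' θ = ψ w := by
    intro θ
    rcases lt_trichotomy (Sg α β (ee θ)) 0 with h | h | h
    · right
      obtain ⟨h1, h2⟩ := hΓ1 θ h.ne
      refine ⟨_, h1, ?_, ?_⟩
      · rw [hSw]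
        exact mul_neg_of_pos_of_neg (by positivity) h
      · rw [← h2, hΓ'e]
        exact if_pos h.le
    · left
      rw [hΓ'e]
      exact (if_pos h.le).trans (hΓ0 θ h)
    · left
      rw [hΓ'e]
      exact if_neg (not_le.2 h)
  have hval'' : ∀ θ, Γ'' θ = c₀ ∨ ∃ w : ℂ, 1 < ‖w‖ ∧ -Sg α β w < 0 ∧ Γ'' θ = ψ w := by
    intro θ
    rcases lt_trichotomy (Sg α β (ee θ)) 0 with h | h | h
    · left
      rw [hΓ''e]
      exact if_neg (not_le.2 h)
    · left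
      rw [hΓ''e]
      exact (if_pos h.ge).trans (hΓ0 θ h)
    · right
      obtain ⟨h1, h2⟩ := hΓ1 θ h.ne'
      refine ⟨_, h1, ?_, ?_⟩
      · rw [hSw, neg_lt_zero]
        positivity
      · rw [← h2, hΓ''e]
        exact if_pos h.le
  have w1 := ray_zero hψ hc₀ (Sg_cont α β) (fun t w ht => Sg_hom α β ht w) hΓ' hΓ'p hval' hξ hy hyM
    hyc
  have w2 := ray_zero hψ hc₀ (g := fun w => -Sg α β w) (Sg_cont α β).neg
    (fun t w ht => by simp only [Sg_hom α β ht w, mul_neg]) hΓ'' hΓ''p hval''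
    (ζ := ζ) (by linarith) hx hxM hxc
  -- the curves avoid `M \ {c₀}`
  have havoid : ∀ u ∈ S, ∀ θ, Γ' θ ≠ id u := by
    intro u hu θ h0
    obtain ⟨h1, h2⟩ := hSM hu
    have h3 : Γ θ ≠ u := by
      rw [hΓe]
      exact Ps_ne hψ h1 h2 _
    have h4 : u ≠ c₀ := h2
    rw [hΓ'e] at h0
    simp only at h0
    split_ifs at h0
    · exact h3 h0
    · exact h4 h0.symm
  have w3 := IsWind.const_on (γ := Γ') (g := id) hΓ' hΓ'p hS continuousOn_id havoid (u := y) (v := x)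
    hyS hxS w1
  have w4 := wind_mul w3 w2
  have w5 := wind_mul (wind_one hψ hA hxM hxc) (wind_const (sub_ne_zero.2 hxc.symm))
  have e : (fun θ => (Γ' θ - id x) * (Γ'' θ - x)) =
      fun θ => (Ps ψ c₀ (ww α β 0 (0, θ)) - x) * (c₀ - x) := by
    funext θ
    have hθ : Ps ψ c₀ (ww α β 0 (0, θ)) = Γ θ := by rw [hΓe]
    rw [hθ]
    rcases lt_trichotomy (Sg α β (ee θ)) 0 with h | h | h
    · have h1 : Γ' θ = Γ θ := by rw [hΓ'e]; exact if_pos h.le
      have h2 : Γ'' θ = c₀ := by rw [hΓ''e]; exact if_neg (not_le.2 h)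
      rw [h1, h2, id]
    · have h1 : Γ' θ = Γ θ := by rw [hΓ'e]; exact if_pos h.le
      have h2 : Γ'' θ = Γ θ := by rw [hΓ''e]; exact if_pos h.ge
      rw [h1, h2, id, hΓ0 θ h]
    · have h1 : Γ' θ = c₀ := by rw [hΓ'e]; exact if_neg (not_le.2 h)
      have h2 : Γ'' θ = Γ θ := by rw [hΓ''e]; exact if_pos h.le
      rw [h1, h2, id]
      ring
  rw [e] at w4
  have h := w4.unique w5
  norm_num at h

end Pool.Agent.H206.Sep
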