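import Pool.Agent.H206.RayS

set_option autoImplicit false

/-! # The number of the components of the complement of a point -/

open Set Filter Metric Topology

namespace Pool.Agent.H206.Sep

open Pool.Agent.H713R2 (IsExteriorMap)
open Pool.Agent.H206 (imp)

/-- the impressions are not empty -/
theorem imp_ne {ψ : ℂ → ℂ} (hb : ∀ w : ℂ, 1 < ‖w‖ → ‖ψ w‖ ≤ 2 * ‖w‖) {ζ : ℂ} (hζ : ‖ζ‖ = 1) :
    (imp ψ ζ).Nonempty := by
  have hne : (𝓝[{w : ℂ | 1 < ‖w‖}] ζ).NeBot := by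
    rw [← mem_closure_iff_nhdsWithin_neBot]
    have h1 : Tendsto (fun r : ℝ => (r : ℂ) * ζ) (𝓝[>] 1) (𝓝 ζ) := by
      have h1 : Continuous fun r : ℝ => (r : ℂ) * ζ := by fun_prop
      have h2 := h1.tendsto 1
      rw [Complex.ofReal_one, one_mul] at h2
      exact h2.mono_left nhdsWithin_le_nhds
    refine mem_closure_of_tendsto h1 ?_
    filter_upwards [self_mem_nhdsWithin] with r hr
    have hr : 1 < r := hr
    show 1 < ‖(r : ℂ) * ζ‖
    rw [norm_mul, hζ, mul_one, Complex.norm_real, Real.norm_of_nonneg (by linarith)]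
    exact hr
  have hK : IsCompact (closedBall (0 : ℂ) 4) := isCompact_closedBall _ _
  have hle : map ψ (𝓝[{w : ℂ | 1 < ‖w‖}] ζ) ≤ 𝓟 (closedBall (0 : ℂ) 4) := by
    rw [le_principal_iff, mem_map]
    have h1 : ∀ᶠ w in 𝓝[{w : ℂ | 1 < ‖w‖}] ζ, ‖w‖ < 2 :=
      nhdsWithin_le_nhds (continuous_norm.continuousAt.eventually (gt_mem_nhds (by
        show ‖ζ‖ < 2
        rw [hζ]
        norm_num)))
    filter_upwards [h1, self_mem_nhdsWithin] with w h2 h3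
    show ψ w ∈ closedBall (0 : ℂ) 4
    rw [mem_closedBall_zero_iff]
    have := hb w h3
    linarith
  obtain ⟨x, -, hx⟩ := hK hle
  exact ⟨x, hx⟩

theorem ee_arg {ζ : ℂ} (hζ : ‖ζ‖ = 1) : ee (Complex.arg ζ) = ζ := by
  have h1 := Complex.norm_mul_exp_arg_mul_I ζ
  rw [hζ, Complex.ofReal_one, one_mul] at h1
  exact h1

/-- points of the circle with close angles are different -/
theorem ee_ne {γ b : ℝ} (h : (b < γ ∧ γ < b + 2 * Real.pi) ∨ (γ < b ∧ b < γ + 2 * Real.pi)) :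
    ee γ ≠ ee b := by
  intro hh
  unfold ee at hh
  obtain ⟨n, hn⟩ := Complex.exp_eq_exp_iff_exists_int.1 hh
  have h1 := congrArg Complex.im hn
  simp at h1
  have hπ := Real.pi_pos
  rcases h with ⟨h2, h3⟩ | ⟨h2, h3⟩
  · have h4 : (0 : ℝ) < n := by
      by_contra hcon
      push Not at hcon
      nlinarith
    have h5 : (n : ℝ) < 1 := by
      by_contra hcon
      push Not at hcon
      nlinarith
    have h6 : 0 < n := by exact_mod_cast h4
    have h7 : n < 1 := by exact_mod_cast h5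
    omega
  · have h4 : (n : ℝ) < 0 := by
      by_contra hcon
      push Not at hcon
      nlinarith
    have h5 : (-1 : ℝ) < n := by
      by_contra hcon
      push Not at hcon
      nlinarith
    have h6 : n < 0 := by exact_mod_cast h4
    have h7 : -1 < n := by exact_mod_cast h5
    omega

/-- an angle of the arc behind `ζ` -/
theorem gap (F : Finset ℂ) (ζ : ℂ) :
    ∃ γ : ℝ, Complex.arg ζ < γ ∧ (∀ ξ ∈ F, Complex.arg ζ < Complex.arg ξ → γ < Complex.arg ξ) ∧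
      (∀ ξ ∈ F, γ < Complex.arg ξ + 2 * Real.pi) ∧ ee γ ∉ F := by
  have hπ := Real.pi_pos
  have h1 : ∀ᶠ γ in 𝓝[>] (Complex.arg ζ), ∀ ξ ∈ F, Complex.arg ζ < Complex.arg ξ →
      γ < Complex.arg ξ := by
    rw [Finset.eventually_all]
    intro ξ _
    by_cases h : Complex.arg ζ < Complex.arg ξ
    · filter_upwards [Ioo_mem_nhdsGT h] with γ hγ _
      exact hγ.2
    · exact Eventually.of_forall fun γ hh => absurd hh h
  have h2 : ∀ᶠ γ in 𝓝[>] (Complex.arg ζ), ∀ ξ ∈ F, γ < Complex.arg ξ + 2 * Real.pi := by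
    rw [Finset.eventually_all]
    intro ξ _
    have h : Complex.arg ζ < Complex.arg ξ + 2 * Real.pi := by
      have a1 := Complex.arg_le_pi ζ
      have a2 := Complex.neg_pi_lt_arg ξ
      linarith
    filter_upwards [Ioo_mem_nhdsGT h] with γ hγ
    exact hγ.2
  obtain ⟨γ, ⟨h3, h4⟩, h5⟩ := ((h1.and h2).and self_mem_nhdsWithin).exists
  have h5 : Complex.arg ζ < γ := h5
  refine ⟨γ, h5, h3, h4, fun hh => ?_⟩
  have h6 : ee γ ≠ ee (Complex.arg (ee γ)) := by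
    apply ee_ne
    rcases lt_or_ge (Complex.arg ζ) (Complex.arg (ee γ)) with h7 | h7
    · right
      refine ⟨h3 _ hh h7, ?_⟩
      have a1 := Complex.neg_pi_lt_arg ζ
      have a2 := Complex.arg_le_pi (ee γ)
      linarith
    · left
      exact ⟨by linarith, h4 _ hh⟩
  exact h6 (ee_arg (ee_norm γ)).symm

/-- **The number of the components is at least the number of the angles.** -/
theorem comps_ge {M : Set ℂ} {ψ : ℂ → ℂ} (hψ : IsExteriorMap M ψ)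
    (hb : ∀ w : ℂ, 1 < ‖w‖ → ‖ψ w‖ ≤ 2 * ‖w‖) {c₀ : ℂ} (hc₀ : c₀ ∈ M) {F : Finset ℂ}
    (hF : ∀ ζ : ℂ, ζ ∈ F ↔ ‖ζ‖ = 1 ∧ c₀ ∈ imp ψ ζ)
    (hlim : ∀ ζ ∈ F, Tendsto ψ (𝓝[{w | 1 < ‖w‖}] ζ) (𝓝 c₀))
    (hfin : ((fun x => connectedComponentIn (M \ {c₀}) x) '' (M \ {c₀})).Finite) :
    F.card ≤ ((fun x => connectedComponentIn (M \ {c₀}) x) '' (M \ {c₀})).ncard := by
  have h1 : ∀ ζ : ℂ, ∃ γ : ℝ, ∃ x : ℂ, Complex.arg ζ < γ ∧
      (∀ ξ ∈ F, Complex.arg ζ < Complex.arg ξ → γ < Complex.arg ξ) ∧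
      (∀ ξ ∈ F, γ < Complex.arg ξ + 2 * Real.pi) ∧
      MapClusterPt x (𝓝[{w | 1 < ‖w‖}] (ee γ)) ψ ∧ x ∈ M ∧ x ≠ c₀ := by
    intro ζ
    obtain ⟨γ, a1, a2, a3, a4⟩ := gap F ζ
    obtain ⟨x, hx⟩ := imp_ne hb (ee_norm γ)
    have hx : MapClusterPt x (𝓝[{w | 1 < ‖w‖}] (ee γ)) ψ := hx
    refine ⟨γ, x, a1, a2, a3, hx, Pool.Agent.N253.LS.cluster_mem hψ (ee_norm γ) hx, ?_⟩
    rintro rfl
    exact a4 ((hF _).2 ⟨ee_norm γ, hx⟩)
  choose G X hX using h1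
  have hsep : ∀ ζ ∈ F, ∀ ξ ∈ F, Complex.arg ζ < Complex.arg ξ →
      connectedComponentIn (M \ {c₀}) (X ζ) ≠ connectedComponentIn (M \ {c₀}) (X ξ) := by
    intro ζ hζ ξ hξ hlt hh
    obtain ⟨a1, a2, a3, a4, a5, a6⟩ := hX ζ
    obtain ⟨b1, b2, b3, b4, b5, b6⟩ := hX ξ
    have hπ := Real.pi_pos
    have c1 : Complex.arg ξ < Complex.arg ζ + 2 * Real.pi := by
      have a1 := Complex.arg_le_pi ξ
      have a2 := Complex.neg_pi_lt_arg ζ
      linarith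
    have hA : ∀ η ∈ ({ee (Complex.arg ζ), ee (Complex.arg ξ)} : Set ℂ), ‖η‖ = 1 ∧
        Tendsto ψ (𝓝[{w | 1 < ‖w‖}] η) (𝓝 c₀) := by
      intro η hη
      rw [ee_arg ((hF ζ).1 hζ).1, ee_arg ((hF ξ).1 hξ).1] at hη
      rcases hη with rfl | hη
      · exact ⟨((hF η).1 hζ).1, hlim η hζ⟩
      · rw [mem_singleton_iff] at hη
        rw [hη]
        exact ⟨((hF ξ).1 hξ).1, hlim ξ hξ⟩
    have hm1 : X ζ ∈ M \ {c₀} := ⟨a5, a6⟩
    have hm2 : X ξ ∈ M \ {c₀} := ⟨b5, b6⟩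
    exact sep hψ hc₀ hA (Sg_neg c1 a1 (a2 ξ hξ hlt)) a4 a5 a6 (Sg_pos hlt b1 (b3 ζ hζ)) b4 b5 b6
      isPreconnected_connectedComponentIn (connectedComponentIn_subset _ (X ζ))
      (mem_connectedComponentIn hm1) (by rw [hh]; exact mem_connectedComponentIn hm2)
  have hmaps : MapsTo (fun ζ => connectedComponentIn (M \ {c₀}) (X ζ)) (F : Set ℂ)
      ((fun x => connectedComponentIn (M \ {c₀}) x) '' (M \ {c₀})) := by
    intro ζ _
    obtain ⟨a1, a2, a3, a4, a5, a6⟩ := hX ζ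
    exact ⟨X ζ, ⟨a5, a6⟩, rfl⟩
  have hinj : InjOn (fun ζ => connectedComponentIn (M \ {c₀}) (X ζ)) (F : Set ℂ) := by
    intro ζ hζ ξ hξ hh
    have hζ : ζ ∈ F := hζ
    have hξ : ξ ∈ F := hξ
    rcases lt_trichotomy (Complex.arg ζ) (Complex.arg ξ) with h | h | h
    · exact absurd hh (hsep ζ hζ ξ hξ h)
    · rw [← ee_arg ((hF ζ).1 hζ).1, ← ee_arg ((hF ξ).1 hξ).1, h]
    · exact absurd hh.symm (hsep ξ hξ ζ hζ h)
  have h4 := Set.ncard_le_ncard_of_injOn _ hmaps hinj hfin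
  rwa [Set.ncard_coe_finset] at h4

end Pool.Agent.H206.Sep
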