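import Mathlib
import Pool.Graph.R_seed8.Y298.CA.Sup

set_option autoImplicit false

/-! # The passage near the critical value, with a condition on the sum of the distortions -/

open Set Filter Metric MeasureTheory

namespace Pool.Agent.H206.Rem

open Pool.Agent.TH279.MD Pool.Agent.Y298.SH Pool.Agent.Y298.SH.CD Pool.Agent.Y298.CA
open Pool.Agent.Y298.SH.CE (MG RR geom_part)
open Pool.Agent.W746.LD (Univ KC exists_KC)

/-- the sum which controls the distortion of a passage -/
noncomputable def Am (d : ℕ) (c : ℂ) (k : ℕ) : ℝ := ∑ j ∈ Finset.range k, Pd d c j / ‖zz d c j‖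

/-- **Passage near the critical value.** -/
theorem pass_s {d : ℕ} (hd : 2 ≤ d) {C₁ lam : ℝ} (hC₁ : 1 ≤ C₁) (hlam : 1 < lam) :
    ∃ Ca : ℝ, 1 ≤ Ca ∧ ∀ c₁ : ℂ, CEp d C₁ lam c₁ → ∀ (c : ℂ) (s : ℝ) (k : ℕ), 0 < s →
      ‖c - c₁‖ ≤ s → 4 * d * Ca * (s * Am d c₁ k) ≤ 1 → ∀ x ∈ ball c s, ∀ j ≤ k,
      ‖(f d c)^[j] x - zz d c₁ j‖ ≤ Ca * s * Pd d c₁ j ∧
      Pd d c₁ j / 2 ≤ ‖deriv ((f d c)^[j]) x‖ ∧
      ‖deriv ((f d c)^[j]) x‖ ≤ 2 * Pd d c₁ j ∧
      (j < k → ‖(f d c)^[j] x - zz d c₁ j‖ ≤ 1 / 4 * ‖zz d c₁ j‖) := by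
  have hdR : (2 : ℝ) ≤ d := by exact_mod_cast hd
  set SP : ℝ := C₁ * (1 / (1 - 1 / lam)) with hSP
  have hl0 : 0 < lam := by linarith
  have hil : 0 < 1 / lam := by positivity
  have hil1 : 1 / lam < 1 := by rw [div_lt_one hl0]; exact hlam
  have hSP0 : 0 < SP := by
    have : 0 < 1 - 1 / lam := by linarith
    positivity
  set Ca : ℝ := 2 * (1 + SP) with hCa
  have hCa1 : 1 ≤ Ca := by rw [hCa]; linarith
  have hCa0 : 0 < Ca := by linarith
  refine ⟨Ca, hCa1, ?_⟩
  intro c₀ h c s k hs hc hk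
  have hP := h.Pd_pos
  have hz : ∀ j, 0 < ‖zz d c₀ j‖ := fun j => norm_pos_iff.2 (h.zz_ne j)
  -- the sequences
  set b : ℕ → ℝ := fun i => if i < k then Ca * s * (Pd d c₀ i / ‖zz d c₀ i‖) else 0 with hb
  have hb0 : ∀ i, 0 ≤ b i := fun i => by
    rw [hb]
    beta_reduce
    split_ifs
    · have := hP i
      have := hz i
      positivity
    · exact le_rfl
  have hbs : ∀ n, ∑ i ∈ Finset.range n, 2 * d * b i ≤ 1 / 2 := by
    intro n
    rw [← Finset.mul_sum]
    have h1 : ∑ i ∈ Finset.range n, b i ≤ Ca * s * Am d c₀ k := by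
      unfold Am
      rw [Finset.mul_sum]
      have h2 : ∑ i ∈ Finset.range n, b i ≤ ∑ i ∈ Finset.range (max n k), b i :=
        Finset.sum_le_sum_of_subset_of_nonneg (Finset.range_mono (le_max_left _ _))
          fun i _ _ => hb0 i
      refine h2.trans (le_of_eq ?_)
      have h3 : ∑ i ∈ Finset.range (max n k), b i = ∑ i ∈ Finset.range k, b i := by
        symm
        apply Finset.sum_subset (Finset.range_mono (le_max_right _ _))
        intro i _ hi
        rw [hb]
        beta_reduce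
        rw [Finset.mem_range] at hi
        rw [if_neg hi]
      rw [h3]
      refine Finset.sum_congr rfl fun i hi => ?_
      rw [hb]
      beta_reduce
      rw [if_pos (Finset.mem_range.1 hi)]
    calc 2 * d * ∑ i ∈ Finset.range n, b i ≤ 2 * d * (Ca * s * Am d c₀ k) := by gcongr
      _ = (4 * d * Ca * (s * Am d c₀ k)) / 2 := by ring
      _ ≤ 1 / 2 := by linarith
  have hbd : ∀ j, d * b j ≤ 1 / 4 := by
    intro j
    have h1 := hbs (j + 1)
    rw [Finset.sum_range_succ] at h1
    have h2 : 0 ≤ ∑ i ∈ Finset.range j, 2 * d * b i := Finset.sum_nonneg fun i _ => by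
      have := hb0 i; positivity
    linarith
  set E : ℕ → ℝ := fun j => Real.exp (∑ i ∈ Finset.range j, 2 * d * b i) with hE
  have hE1 : ∀ j, 1 ≤ E j := fun j => Real.one_le_exp (Finset.sum_nonneg fun i _ => by
    have := hb0 i; positivity)
  have hE2 : ∀ j, E j ≤ 2 := by
    intro j
    have h1 := hbs j
    have h2 : Real.exp (1 / 2) ≤ 2 := by
      have h3 := Real.exp_one_lt_d9
      have h5 : Real.exp (1 / 2) ^ 2 = Real.exp 1 := by
        rw [← Real.exp_nat_mul]
        norm_num
      have h6 := Real.exp_pos (1 / 2)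
      nlinarith
    exact (Real.exp_le_exp.mpr h1).trans h2
  have hE3 : ∀ j, E j * (1 + 2 * d * b j) ≤ E (j + 1) := by
    intro j
    rw [hE]
    beta_reduce
    rw [Finset.sum_range_succ, Real.exp_add]
    gcongr
    have := Real.add_one_le_exp (2 * d * b j)
    linarith
  set S : ℕ → ℝ := fun j => ∑ i ∈ Finset.range (j + 1), 1 / Pd d c₀ i with hS
  have hS0 : ∀ j, 0 ≤ S j := fun j => Finset.sum_nonneg fun i _ => by
    have := hP i; positivity
  have hSb : ∀ j, S j ≤ SP := by
    intro j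
    have h1 : ∀ i, 1 / Pd d c₀ i ≤ C₁ * (1 / lam) ^ i := by
      intro i
      have := h.exp i
      have h2 := hP i
      rw [one_div lam, inv_pow, ← div_eq_mul_inv, div_le_div_iff₀ h2 (by positivity)]
      linarith
    calc S j ≤ ∑ i ∈ Finset.range (j + 1), C₁ * (1 / lam) ^ i :=
          Finset.sum_le_sum fun i _ => h1 i
      _ = C₁ * ∑ i ∈ Finset.range (j + 1), (1 / lam) ^ i := by rw [Finset.mul_sum]
      _ ≤ SP := by
          rw [hSP]
          gcongr
          exact geom_part hil hil1 _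
  have hcoef : ∀ j, s * (1 + S j) * E j * Pd d c₀ j ≤ Ca * s * Pd d c₀ j := by
    intro j
    have := hP j
    have h1 : (1 + S j) * E j ≤ (1 + SP) * 2 :=
      mul_le_mul (by linarith [hSb j]) (hE2 j) (by linarith [hE1 j]) (by linarith)
    calc s * (1 + S j) * E j * Pd d c₀ j = s * Pd d c₀ j * ((1 + S j) * E j) := by ring
      _ ≤ s * Pd d c₀ j * ((1 + SP) * 2) := by gcongr
      _ = _ := by rw [hCa]; ring
  have hdelta : ∀ j < k, Ca * s * Pd d c₀ j ≤ b j * ‖zz d c₀ j‖ := by
    intro j hj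
    rw [hb]
    beta_reduce
    rw [if_pos hj]
    have := hz j
    apply le_of_eq
    field_simp
  have hfd : ∀ x : ℂ, f d c x = x ^ d + c := fun x => rfl
  have hd1 : ((d - 1 : ℕ) : ℝ) ≤ d := by
    have : d - 1 ≤ d := by omega
    exact_mod_cast this
  -- closeness
  have I1 : ∀ x ∈ ball c s, ∀ j ≤ k,
      ‖(f d c)^[j] x - zz d c₀ j‖ ≤ s * (1 + S j) * E j * Pd d c₀ j := by
    intro x hx j
    induction j with
    | zero =>
      intro _
      have h1 : S 0 = 1 := by rw [hS]; simp [Pd_zero]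
      have h2 : E 0 = 1 := by rw [hE]; simp
      rw [h1, h2, Pd_zero, Function.iterate_zero, id_eq, zz_zero]
      rw [mem_ball, dist_eq_norm] at hx
      calc ‖x - c₀‖ = ‖(x - c) + (c - c₀)‖ := by congr 1; ring
        _ ≤ ‖x - c‖ + ‖c - c₀‖ := norm_add_le _ _
        _ ≤ _ := by linarith
    | succ j ih =>
      intro hj
      have ih' := ih (by omega)
      have h1 : ‖(f d c)^[j] x - zz d c₀ j‖ ≤ b j * ‖zz d c₀ j‖ :=
        ih'.trans ((hcoef j).trans (hdelta j (by omega)))
      rw [Function.iterate_succ_apply', hfd, zz_succ]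
      set u := (f d c)^[j] x
      set z := zz d c₀ j
      have h2 : u ^ d + c - (z ^ d + c₀) = (u ^ d - z ^ d) + (c - c₀) := by ring
      have hbj := hb0 j
      have hz0 := norm_nonneg z
      have hum : ‖u‖ ≤ ‖z‖ * (1 + b j) := by
        calc ‖u‖ = ‖(u - z) + z‖ := by congr 1; ring
          _ ≤ ‖u - z‖ + ‖z‖ := norm_add_le _ _
          _ ≤ _ := by linarith
      have hzm : ‖z‖ ≤ ‖z‖ * (1 + b j) := by nlinarith
      have h3 := pow_sub_le u z hum hzm d
      have h3' : (1 + b j) ^ (d - 1) ≤ 1 + 2 * d * b j := by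
        have h4 : ((d - 1 : ℕ) : ℝ) * b j ≤ 1 / 2 := by
          have := hbd j
          nlinarith
        have h5 := pow_up hbj h4
        nlinarith
      have hPj := hP j
      have hPj1 := hP (j + 1)
      calc ‖u ^ d + c - (z ^ d + c₀)‖ ≤ d * (‖z‖ * (1 + b j)) ^ (d - 1) * ‖u - z‖ + ‖c - c₀‖ := by
            rw [h2]
            exact (norm_add_le _ _).trans (add_le_add h3 le_rfl)
        _ ≤ d * (‖z‖ ^ (d - 1) * (1 + 2 * d * b j)) * (s * (1 + S j) * E j * Pd d c₀ j) + s := by
            have hEj := hE1 j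
            have hSj := hS0 j
            rw [mul_pow]
            gcongr
        _ = s * (1 + S j) * (E j * (1 + 2 * d * b j)) * Pd d c₀ (j + 1) + s := by
            rw [Pd_succ]
            ring
        _ ≤ s * (1 + S j) * E (j + 1) * Pd d c₀ (j + 1) +
            s * (1 / Pd d c₀ (j + 1)) * E (j + 1) * Pd d c₀ (j + 1) := by
            have hSj := hS0 j
            have h4 : s ≤ s * (1 / Pd d c₀ (j + 1)) * E (j + 1) * Pd d c₀ (j + 1) := by
              have h5 : s * (1 / Pd d c₀ (j + 1)) * E (j + 1) * Pd d c₀ (j + 1) =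
                  s * E (j + 1) := by
                field_simp
              rw [h5]
              nlinarith [hE1 (j + 1)]
            have h6 := hE3 j
            gcongr
        _ = s * (1 + S (j + 1)) * E (j + 1) * Pd d c₀ (j + 1) := by
            have h7 : S (j + 1) = S j + 1 / Pd d c₀ (j + 1) := by
              rw [hS]
              beta_reduce
              rw [Finset.sum_range_succ]
            rw [h7]
            ring
  have I1' : ∀ x ∈ ball c s, ∀ j < k, ‖(f d c)^[j] x - zz d c₀ j‖ ≤ b j * ‖zz d c₀ j‖ :=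
    fun x hx j hj => (I1 x hx j hj.le).trans ((hcoef j).trans (hdelta j hj))
  -- derivatives
  have I2 : ∀ x ∈ ball c s, ∀ j ≤ k, (1 - ∑ i ∈ Finset.range j, 2 * d * b i) * Pd d c₀ j ≤
      ‖deriv ((f d c)^[j]) x‖ := by
    intro x hx j
    induction j with
    | zero =>
      intro _
      simp [Pd_zero]
    | succ j ih =>
      intro hj
      have ih' := ih (by omega)
      have h1 := I1' x hx j (by omega)
      rw [add_comm j 1, deriv_iter_add, Function.iterate_one, deriv_f, norm_mul, norm_mul,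
        add_comm 1 j, Finset.sum_range_succ, Pd_succ, norm_pow, Complex.norm_natCast]
      set u := (f d c)^[j] x
      set z := zz d c₀ j
      have hbj := hb0 j
      have hbdj := hbd j
      have hb1 : b j ≤ 1 := by nlinarith
      have h2 : ‖z‖ * (1 - b j) ≤ ‖u‖ := by
        have h3 : ‖z‖ ≤ ‖u‖ + ‖u - z‖ := by
          calc ‖z‖ = ‖u - (u - z)‖ := by congr 1; ring
            _ ≤ _ := norm_sub_le _ _
        linarith
      have hs1 := hbs (j + 1)
      rw [Finset.sum_range_succ] at hs1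
      have hs2 : 0 ≤ ∑ i ∈ Finset.range j, 2 * d * b i := Finset.sum_nonneg fun i _ => by
        have := hb0 i; positivity
      set SS := ∑ i ∈ Finset.range j, 2 * d * b i
      have hPj := hP j
      have hz0 := norm_nonneg z
      have h1b : 0 ≤ 1 - b j := by linarith
      have h3 : ‖z‖ ^ (d - 1) * (1 - 2 * d * b j) ≤ ‖u‖ ^ (d - 1) := by
        have h4 := pow_low hb1 (d - 1)
        have h5 : 1 - 2 * d * b j ≤ (1 - b j) ^ (d - 1) := by
          refine le_trans ?_ h4
          nlinarith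
        calc ‖z‖ ^ (d - 1) * (1 - 2 * d * b j) ≤ ‖z‖ ^ (d - 1) * (1 - b j) ^ (d - 1) := by gcongr
          _ = (‖z‖ * (1 - b j)) ^ (d - 1) := by rw [mul_pow]
          _ ≤ _ := by gcongr
      have h4 : 0 ≤ 1 - 2 * d * b j := by linarith
      have h5 : 0 ≤ 1 - SS := by
        have : 0 ≤ 2 * d * b j := by positivity
        linarith
      have h6 : 0 ≤ 2 * d * b j := by positivity
      calc (1 - (SS + 2 * d * b j)) * (d * ‖z‖ ^ (d - 1) * Pd d c₀ j)
          ≤ ((1 - SS) * (1 - 2 * d * b j)) * (d * ‖z‖ ^ (d - 1) * Pd d c₀ j) := by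
            gcongr
            nlinarith
        _ = (d * (‖z‖ ^ (d - 1) * (1 - 2 * d * b j))) * ((1 - SS) * Pd d c₀ j) := by ring
        _ ≤ (d * ‖u‖ ^ (d - 1)) * ‖deriv ((f d c)^[j]) x‖ := by
            apply mul_le_mul (by gcongr) ih' (by positivity) (by positivity)
  -- derivatives, upper bound
  have I2u : ∀ x ∈ ball c s, ∀ j ≤ k, ‖deriv ((f d c)^[j]) x‖ ≤ E j * Pd d c₀ j := by
    intro x hx j
    induction j with
    | zero =>
      intro _
      have h2 : E 0 = 1 := by rw [hE]; simp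
      rw [h2]
      simp [Pd_zero]
    | succ j ih =>
      intro hj
      have ih' := ih (by omega)
      have h1 := I1' x hx j (by omega)
      rw [add_comm j 1, deriv_iter_add, Function.iterate_one, deriv_f, norm_mul, norm_mul,
        add_comm 1 j, Pd_succ, norm_pow, Complex.norm_natCast]
      set u := (f d c)^[j] x
      set z := zz d c₀ j
      have hbj := hb0 j
      have hbdj := hbd j
      have hz0 := norm_nonneg z
      have hum : ‖u‖ ≤ ‖z‖ * (1 + b j) := by
        calc ‖u‖ = ‖(u - z) + z‖ := by congr 1; ring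
          _ ≤ ‖u - z‖ + ‖z‖ := norm_add_le _ _
          _ ≤ _ := by linarith
      have h3' : (1 + b j) ^ (d - 1) ≤ 1 + 2 * d * b j := by
        have h4 : ((d - 1 : ℕ) : ℝ) * b j ≤ 1 / 2 := by
          nlinarith
        have h5 := pow_up hbj h4
        nlinarith
      have hPj := hP j
      have hEj := hE1 j
      calc (d * ‖u‖ ^ (d - 1)) * ‖deriv ((f d c)^[j]) x‖
          ≤ (d * (‖z‖ * (1 + b j)) ^ (d - 1)) * (E j * Pd d c₀ j) := by gcongr
        _ ≤ (d * (‖z‖ ^ (d - 1) * (1 + 2 * d * b j))) * (E j * Pd d c₀ j) := by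
            rw [mul_pow]
            gcongr
        _ = (E j * (1 + 2 * d * b j)) * (d * ‖z‖ ^ (d - 1) * Pd d c₀ j) := by ring
        _ ≤ E (j + 1) * (d * ‖z‖ ^ (d - 1) * Pd d c₀ j) := by
            have h6 := hE3 j
            gcongr
  intro x hx j hj
  have hPj := hP j
  refine ⟨(I1 x hx j hj).trans (hcoef j), ?_, ?_, ?_⟩
  · refine le_trans ?_ (I2 x hx j hj)
    have := hbs j
    nlinarith
  · refine (I2u x hx j hj).trans ?_
    have := hE2 j
    nlinarith
  · intro hjk
    refine (I1' x hx j hjk).trans ?_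
    have h1 := hbd j
    have h2 := hb0 j
    have h3 : b j ≤ 1 / 4 := by nlinarith
    exact mul_le_mul_of_nonneg_right h3 (norm_nonneg _)

end Pool.Agent.H206.Rem
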