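import Pool.Agent.H206.RemV
import Pool.Graph.R_pool_sql_team_seeded_63374d34.N253.SM.Free

set_option autoImplicit false

/-! # Parameters with a Lyapunov exponent and a critical orbit which is not recurrent -/

open Set Filter Metric MeasureTheory Topology

namespace Pool.Agent.H206.Rem

open Pool.Agent.TH279.MD Pool.Agent.Y298.SH Pool.Agent.Y298.SH.CD Pool.Agent.Y298.CA
open N62a1eb23

/-- critical orbits which are not recurrent are uniformly expanding -/
theorem uex_of_nonrec {d : ℕ} (hd : 2 ≤ d) {χ : ℝ} {c₀ : ℂ} (h : Lyap d χ c₀) {s : ℝ} (hs : 0 < s)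
    (hz : ∀ j : ℕ, s ≤ ‖(f d c₀)^[j] c₀‖) :
    ∃ M : ℕ, ∀ j : ℕ, 2 ≤ ‖deriv ((f d c₀)^[M]) ((f d c₀)^[j] c₀)‖ := by
  obtain ⟨⟨C₁, lam, hCE⟩, -⟩ := Pool.Agent.Y674.CA.lya d χ c₀ hd h
  obtain ⟨ρ₀, Γ, hρ, hΓ, H⟩ := Pool.Agent.N253.SM.t_FREE d χ c₀ hd h
  obtain ⟨δ, hδ⟩ : ∃ δ : ℝ, δ = min ρ₀ (s / 2) := ⟨_, rfl⟩
  have hδ0 : 0 < δ := by rw [hδ]; positivity
  have hδρ : δ ≤ ρ₀ := by rw [hδ]; exact min_le_left _ _
  have hδs : 2 * δ ≤ s := by
    have : δ ≤ s / 2 := by rw [hδ]; exact min_le_right _ _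
    linarith
  obtain ⟨κ, η, e, hκ, hη, he, HH⟩ := H δ hδ0 hδρ
  have hlim : Tendsto (fun n : ℕ => κ * Real.exp (η * n)) atTop atTop := by
    apply Tendsto.const_mul_atTop hκ
    exact Real.tendsto_exp_atTop.comp ((tendsto_natCast_atTop_atTop).const_mul_atTop hη)
  obtain ⟨M, hM⟩ := (hlim.eventually_ge_atTop 2).exists
  refine ⟨M, fun j => hM.trans ?_⟩
  refine (HH c₀ (by rw [sub_self, norm_zero]; exact he.le) _ M (fun i _ => ?_) (fun i _ => ?_)).1
  · rw [← Function.iterate_add_apply]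
    exact hδs.trans (hz _)
  · rw [← Function.iterate_add_apply]
    have h1 : ‖(f d c₀)^[i + j] c₀‖ ≤ 2 := hCE.bd (i + j)
    linarith

/-- uniform expansion implies that the critical orbit is not recurrent -/
theorem nonrec_of_uex {d M : ℕ} (hd : 2 ≤ d) {c₀ : ℂ} (hM0 : c₀ ∈ multibrotSet d)
    (he : UEx d M c₀) : ∃ s : ℝ, 0 < s ∧ ∀ j : ℕ, s ≤ ‖(f d c₀)^[j] c₀‖ := by
  have hA := AA_one hd
  have hA0 : 0 < AA d := by linarith
  have hb : ∀ i, ‖zz d c₀ i‖ ≤ 2 := by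
    intro i
    have h1 := (Pool.Agent.H712R2.mem_multibrot_iff hd c₀).1 hM0 (i + 1)
    rwa [P_succ_eq hd] at h1
  have h0 : 0 < Pd d c₀ 0 := by
    have : Pd d c₀ 0 = 1 := by
      unfold Pd
      rw [Function.iterate_zero, deriv_id, norm_one]
    rw [this]
    exact one_pos
  have hM := ue_M he h0
  have hlow : ∀ k : ℕ, (2 : ℝ) ^ k ≤ Pd d c₀ (M * k) := by
    intro k
    induction k with
    | zero =>
      rw [Nat.mul_zero, pow_zero]
      unfold Pd
      rw [Function.iterate_zero, deriv_id, norm_one]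
    | succ k ih =>
      rw [Nat.mul_succ, pow_succ]
      have h1 := he (M * k)
      linarith
  have hP : ∀ j, 0 < Pd d c₀ j := by
    intro j
    rcases (Pd_nonneg d c₀ j).eq_or_lt with h1 | h1
    · exfalso
      have h2 : j ≤ M * j := Nat.le_mul_of_pos_left j hM
      have e : M * j = (M * j - j) + j := by omega
      have h3 := hlow j
      rw [e, Pd_add, ← h1, mul_zero] at h3
      have h4 : (0 : ℝ) < 2 ^ j := by positivity
      linarith
    · exact h1
  exact ⟨1 / AA d ^ (M + 1), by positivity, fun j => ue_far hd hb hM he hP j⟩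

end Pool.Agent.H206.Rem
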