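import Pool.Agent.H206.RemA
import Pool.Graph.R_seed8.Y298.CA.All

set_option autoImplicit false

/-! # The passage near the critical point along a slow curve, with a condition on the sum -/

open Set Filter Metric MeasureTheory

namespace Pool.Agent.H206.Rem

open Pool.Agent.TH279.MD Pool.Agent.Y298.SH Pool.Agent.Y298.SH.CD Pool.Agent.Y298.CA
open Pool.Agent.Y298.SH.CE (geom_part)

/-- The conclusion of the passage lemma for one center. -/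
def BIs (d : ℕ) (b₀ ε : ℝ) (c₁ : ℂ) : Prop :=
  ∀ (s ρ κ : ℝ) (k n : ℕ) (γ : ℂ → ℂ) (w : ℂ), 0 < s → s ≤ 1 → 0 < ρ → s * Am d c₁ k ≤ b₀ →
  DifferentiableOn ℂ γ (ball w ρ) → (∀ w' ∈ ball w ρ, ‖deriv γ w'‖ ≤ κ) → ‖γ w - c₁‖ ≤ s →
  ‖GG d γ n w‖ ^ d < s → GG d γ n w ≠ 0 → DD d γ n w ≠ 0 →
  (∀ w' ∈ ball w ρ, ‖deriv (GG d γ n) w' - DD d γ n w‖ ≤ 1 / 16 * ‖DD d γ n w‖) →
  ‖DD d γ n w‖ * ρ ≤ ε * ‖GG d γ n w‖ →
  κ ≤ ε * (‖GG d γ n w‖ ^ (d - 1) * ‖DD d γ n w‖) →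
  (∀ w' ∈ ball w ρ, ‖deriv (GG d γ (n + 1 + k)) w' - DD d γ (n + 1 + k) w‖ ≤
    1 / 4 * ‖DD d γ (n + 1 + k) w‖) ∧
  ‖DD d γ n w‖ * (‖GG d γ n w‖ ^ (d - 1) * Pd d c₁ k) ≤ ‖DD d γ (n + 1 + k) w‖ ∧
  ‖DD d γ (n + 1 + k) w‖ * ρ ≤ 5

/-- The passage near the critical point along a slow curve. -/
theorem bi_s {d : ℕ} (hd : 2 ≤ d) {C₁ lam : ℝ} (hC1 : 1 ≤ C₁) (hlam : 1 < lam) :
    ∃ Ca b₀ ε : ℝ, 1 ≤ Ca ∧ 0 < b₀ ∧ b₀ ≤ 1 ∧ 0 < ε ∧ ε ≤ 1 ∧ (∀ c₁ : ℂ, CEp d C₁ lam c₁ →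
      ∀ (c : ℂ) (s : ℝ) (k : ℕ), 0 < s → ‖c - c₁‖ ≤ s → s * Am d c₁ k ≤ b₀ →
      ∀ x ∈ ball c s, ∀ j ≤ k,
      ‖(f d c)^[j] x - zz d c₁ j‖ ≤ Ca * s * Pd d c₁ j ∧
      Pd d c₁ j / 2 ≤ ‖deriv ((f d c)^[j]) x‖ ∧
      ‖deriv ((f d c)^[j]) x‖ ≤ 2 * Pd d c₁ j ∧
      (j < k → ‖(f d c)^[j] x - zz d c₁ j‖ ≤ 1 / 4 * ‖zz d c₁ j‖)) ∧
      ∀ c₁ : ℂ, CEp d C₁ lam c₁ → BIs d b₀ ε c₁ := by
  have hpush : S_PUSH := Pool.Agent.Y261.CA.push
  have hdR : (2 : ℝ) ≤ d := by exact_mod_cast hd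
  have hl0 : 0 < lam := by linarith
  have hil : 0 < 1 / lam := by positivity
  have hil1 : 1 / lam < 1 := by rw [div_lt_one hl0]; exact hlam
  obtain ⟨Ca, hCa, hpass0⟩ := pass_s hd hC1 hlam
  have hCa0 : 0 < Ca := by linarith
  obtain ⟨b₀, hb₀⟩ : ∃ b₀ : ℝ, b₀ = 1 / (4 * d * Ca) := ⟨_, rfl⟩
  have hb₀0 : 0 < b₀ := by rw [hb₀]; positivity
  have hb₀1 : b₀ ≤ 1 := by
    rw [hb₀, div_le_one (by positivity)]
    have : 1 ≤ d * Ca := one_le_mul_of_one_le_of_one_le (by linarith) hCa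
    linarith
  have hPC : ∀ c₁ : ℂ, CEp d C₁ lam c₁ →
      ∀ (c : ℂ) (s : ℝ) (k : ℕ), 0 < s → ‖c - c₁‖ ≤ s → s * Am d c₁ k ≤ b₀ →
      ∀ x ∈ ball c s, ∀ j ≤ k,
      ‖(f d c)^[j] x - zz d c₁ j‖ ≤ Ca * s * Pd d c₁ j ∧
      Pd d c₁ j / 2 ≤ ‖deriv ((f d c)^[j]) x‖ ∧
      ‖deriv ((f d c)^[j]) x‖ ≤ 2 * Pd d c₁ j ∧
      (j < k → ‖(f d c)^[j] x - zz d c₁ j‖ ≤ 1 / 4 * ‖zz d c₁ j‖) := by
    intro c₁ h c s k hs hc hk
    refine hpass0 c₁ h c s k hs hc ?_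
    rw [hb₀, le_div_iff₀ (by positivity)] at hk
    linarith
  obtain ⟨Sl, hSl⟩ : ∃ Sl : ℝ, Sl = 1 / (1 - 1 / lam) := ⟨_, rfl⟩
  have hSl0 : 0 < Sl := by
    have : 0 < 1 - 1 / lam := by linarith
    rw [hSl]
    positivity
  obtain ⟨K, hK⟩ : ∃ K : ℝ, K = 4 * d + 12 * d ^ 2 + 2 * C₁ * Sl := ⟨_, rfl⟩
  have hK0 : 0 < K := by rw [hK]; positivity
  obtain ⟨ε, hε⟩ : ∃ ε : ℝ, ε = min (1 / (8 * K)) (1 / (8 * d ^ 2)) := ⟨_, rfl⟩
  have hε0 : 0 < ε := by rw [hε]; exact lt_min (by positivity) (by positivity)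
  have hε1 : ε * K ≤ 1 / 8 := by
    have h1 : ε ≤ 1 / (8 * K) := by rw [hε]; exact min_le_left _ _
    calc ε * K ≤ 1 / (8 * K) * K := mul_le_mul_of_nonneg_right h1 hK0.le
      _ = 1 / 8 := by field_simp
  have hε2 : ε * (8 * d ^ 2) ≤ 1 := by
    have h1 : ε ≤ 1 / (8 * d ^ 2) := by rw [hε]; exact min_le_right _ _
    calc ε * (8 * d ^ 2) ≤ 1 / (8 * d ^ 2) * (8 * d ^ 2) := 
          mul_le_mul_of_nonneg_right h1 (by positivity)
      _ = 1 := by field_simp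
  have hd2 : (1 : ℝ) ≤ 8 * (d : ℝ) ^ 2 := by
    have h1 : (1 : ℝ) ≤ (d : ℝ) ^ 2 := one_le_pow₀ (by linarith)
    linarith
  refine ⟨Ca, b₀, ε, hCa, hb₀0, hb₀1, hε0, (le_mul_of_one_le_right hε0.le hd2).trans hε2, hPC, ?_⟩
  intro c₁ hc s ρ κ k n γ w hs hs1 hρ hk hγ hslow hc1 hx hw0 hD0 hstart hDρ hκ
  obtain ⟨c, hcd⟩ : ∃ c : ℂ, c = γ w := ⟨_, rfl⟩
  obtain ⟨x, hxd⟩ : ∃ x : ℝ, x = ‖GG d γ n w‖ := ⟨_, rfl⟩
  obtain ⟨D, hDd⟩ : ∃ D : ℝ, D = ‖DD d γ n w‖ := ⟨_, rfl⟩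
  rw [← hxd, ← hDd] at hDρ hκ
  rw [← hxd] at hx
  rw [← hxd, ← hDd]
  have hx0 : 0 < x := by rw [hxd]; exact norm_pos_iff.2 hw0
  have hD00 : 0 < D := by rw [hDd]; exact norm_pos_iff.2 hD0
  -- the point v
  obtain ⟨v, hvd⟩ : ∃ v : ℂ, v = (f d c)^[n + 1] w := ⟨_, rfl⟩
  have hv : v ∈ ball c s := by
    rw [mem_ball, dist_eq_norm, hvd, Function.iterate_succ_apply']
    have h1 : f d c ((f d c)^[n] w) - c = (GG d γ n w) ^ d := by
      unfold GG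
      rw [← hcd]
      show ((f d c)^[n] w) ^ d + c - c = _
      ring
    rw [h1, norm_pow, ← hxd]
    exact hx
  have hpass := fun j (hj : j ≤ k) => hPC c₁ hc c s k hs (by rw [hcd]; exact hc1) hk v hv j hj
  have hGv : ∀ i, GG d γ (n + 1 + i) w = (f d c)^[i] v := by
    intro i
    unfold GG
    rw [← hcd, hvd, add_comm (n + 1) i, Function.iterate_add_apply]
  have hDv : ∀ i, ‖DD d γ (n + 1 + i) w‖ = ‖deriv ((f d c)^[i]) v‖ * (d * x ^ (d - 1) * D) := by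
    intro i
    unfold DD
    rw [← hcd, add_comm (n + 1) i, deriv_iter_add, norm_mul, ← hvd]
    congr 1
    rw [add_comm n 1, deriv_iter_add, Function.iterate_one, deriv_f, norm_mul, norm_mul, norm_pow,
      Complex.norm_natCast, hDd, hxd]
    unfold GG DD
    rw [← hcd]
  have hP := hc.Pd_pos
  have hxx : x ^ (d - 1) * x = x ^ d := by
    rw [← pow_succ]
    congr 1
    omega
  have hxp : 0 < x ^ (d - 1) := by positivity
  -- upper bound for the derivatives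
  have hup : ∀ i ≤ k, ‖DD d γ (n + 1 + i) w‖ * ρ ≤ 2 * d * ε * (s * Pd d c₁ i) := by
    intro i hi
    obtain ⟨-, -, h1, -⟩ := hpass i hi
    have hPi := hP i
    rw [hDv]
    calc ‖deriv ((f d c)^[i]) v‖ * (d * x ^ (d - 1) * D) * ρ
        ≤ (2 * Pd d c₁ i) * (d * x ^ (d - 1) * D) * ρ := by gcongr
      _ = 2 * Pd d c₁ i * (d * x ^ (d - 1)) * (D * ρ) := by ring
      _ ≤ 2 * Pd d c₁ i * (d * x ^ (d - 1)) * (ε * x) := by gcongr
      _ = 2 * d * ε * (x ^ (d - 1) * x * Pd d c₁ i) := by ring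
      _ = 2 * d * ε * (x ^ d * Pd d c₁ i) := by rw [hxx]
      _ ≤ 2 * d * ε * (s * Pd d c₁ i) := by gcongr
  have hlow : ∀ i ≤ k, Pd d c₁ i * (x ^ (d - 1) * D) ≤ ‖DD d γ (n + 1 + i) w‖ := by
    intro i hi
    obtain ⟨-, h1, -, -⟩ := hpass i hi
    have hPi := hP i
    rw [hDv]
    calc Pd d c₁ i * (x ^ (d - 1) * D) = Pd d c₁ i / 2 * (2 * x ^ (d - 1) * D) := by ring
      _ ≤ ‖deriv ((f d c)^[i]) v‖ * (d * x ^ (d - 1) * D) := by gcongr
  have hz : ∀ j, 0 < ‖zz d c₁ j‖ := fun j => norm_pos_iff.2 (hc.zz_ne j)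
  have hAm1 : ∀ l < k, s * (Pd d c₁ l / ‖zz d c₁ l‖) ≤ b₀ := by
    intro l hl
    refine le_trans ?_ hk
    gcongr
    unfold Am
    exact Finset.single_le_sum (f := fun j => Pd d c₁ j / ‖zz d c₁ j‖)
      (fun i _ => (div_pos (hP i) (hz i)).le) (Finset.mem_range.2 hl)
  obtain ⟨aa, haa⟩ : ∃ aa : ℕ → ℝ, aa = fun i => if i = 0 then ε else
      3 * d * ε * (s * (Pd d c₁ (i - 1) / ‖zz d c₁ (i - 1)‖)) := ⟨_, rfl⟩
  have haa0 : ∀ i, 0 ≤ aa i := by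
    intro i
    rw [haa]
    beta_reduce
    split_ifs
    · exact hε0.le
    · have := hP (i - 1)
      have := hz (i - 1)
      positivity
  refine ⟨?_, ?_, ?_⟩
  · refine hpush d γ w ρ κ n (n + 1 + k) (fun j => aa (j - n))
      (fun j => 2 * C₁ * ε * (1 / lam) ^ (j - n)) hd hρ hγ hslow (by omega) hstart
      (fun j => haa0 _) (fun j => by positivity) ?_ ?_ ?_
    · intro j hj1 hj2
      obtain ⟨i, rfl⟩ : ∃ i, j = n + i := ⟨j - n, by omega⟩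
      show ‖DD d γ (n + i) w‖ * ρ ≤ aa (n + i - n) * ‖GG d γ (n + i) w‖
      rw [Nat.add_sub_cancel_left]
      rcases Nat.eq_zero_or_pos i with rfl | hi
      · rw [add_zero, ← hDd, ← hxd, haa]
        beta_reduce
        rw [if_pos rfl]
        exact hDρ
      · obtain ⟨l, rfl⟩ : ∃ l, i = l + 1 := ⟨i - 1, by omega⟩
        have hl : l < k := by omega
        have e1 : n + (l + 1) = n + 1 + l := by ring
        rw [e1, hGv]
        refine (hup l hl.le).trans ?_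
        obtain ⟨-, -, -, h1⟩ := hpass l hl.le
        have h2 := h1 hl
        have h3 : 3 / 4 * ‖zz d c₁ l‖ ≤ ‖(f d c)^[l] v‖ := by
          have h4 : ‖zz d c₁ l‖ ≤ ‖(f d c)^[l] v‖ + ‖(f d c)^[l] v - zz d c₁ l‖ := by
            calc ‖zz d c₁ l‖ = ‖(f d c)^[l] v - ((f d c)^[l] v - zz d c₁ l)‖ := by congr 1; ring
              _ ≤ _ := norm_sub_le _ _
          linarith
        have hPl := hP l
        have hzl := hz l
        rw [haa]
        beta_reduce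
        rw [if_neg (by omega), Nat.add_sub_cancel]
        have h6 : s * Pd d c₁ l = s * (Pd d c₁ l / ‖zz d c₁ l‖) * ‖zz d c₁ l‖ := by field_simp
        calc 2 * d * ε * (s * Pd d c₁ l)
            = 2 * d * ε * (s * (Pd d c₁ l / ‖zz d c₁ l‖)) * ‖zz d c₁ l‖ := by rw [h6]; ring
          _ ≤ 2 * d * ε * (s * (Pd d c₁ l / ‖zz d c₁ l‖)) * (4 / 3 * ‖(f d c)^[l] v‖) := by
              gcongr
              linarith
          _ = (8 / 3 * (d * ε)) * ((s * (Pd d c₁ l / ‖zz d c₁ l‖)) * ‖(f d c)^[l] v‖) := by ring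
          _ ≤ (3 * (d * ε)) * ((s * (Pd d c₁ l / ‖zz d c₁ l‖)) * ‖(f d c)^[l] v‖) := by
              gcongr
              norm_num
          _ = _ := by ring
    · intro j hj1 hj2
      obtain ⟨i, rfl⟩ : ∃ i, j = n + i := ⟨j - n, by omega⟩
      show κ ≤ 2 * C₁ * ε * (1 / lam) ^ (n + i - n) * ‖DD d γ (n + i + 1) w‖
      have e1 : n + i + 1 = n + 1 + i := by ring
      rw [Nat.add_sub_cancel_left, e1]
      refine hκ.trans ?_
      have h1 := hlow i (by omega)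
      have h2 := hc.exp i
      have hPi := hP i
      have h3 : 1 ≤ C₁ * (1 / lam) ^ i * Pd d c₁ i := by
        have h7 : (1 / lam) ^ i * lam ^ i = 1 := by
          rw [← mul_pow, one_div, inv_mul_cancel₀ hl0.ne', one_pow]
        calc 1 = (1 / lam) ^ i * lam ^ i := h7.symm
          _ ≤ (1 / lam) ^ i * (C₁ * Pd d c₁ i) := by gcongr
          _ = _ := by ring
      have h4 : 0 ≤ ε * (x ^ (d - 1) * D) := by positivity
      calc ε * (x ^ (d - 1) * D) ≤ (C₁ * (1 / lam) ^ i * Pd d c₁ i) * (ε * (x ^ (d - 1) * D)) :=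
            le_mul_of_one_le_left h4 h3
        _ = C₁ * ε * (1 / lam) ^ i * (Pd d c₁ i * (x ^ (d - 1) * D)) := by ring
        _ ≤ C₁ * ε * (1 / lam) ^ i * ‖DD d γ (n + 1 + i) w‖ := by gcongr
        _ ≤ 2 * (C₁ * ε * (1 / lam) ^ i * ‖DD d γ (n + 1 + i) w‖) := by
            have : 0 ≤ C₁ * ε * (1 / lam) ^ i * ‖DD d γ (n + 1 + i) w‖ := by positivity
            linarith
        _ = _ := by ring
    · have e1 : ∑ j ∈ Finset.Ico n (n + 1 + k), (4 * d * aa (j - n) +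
          2 * C₁ * ε * (1 / lam) ^ (j - n)) = ∑ i ∈ Finset.range (k + 1),
          (4 * d * aa i + 2 * C₁ * ε * (1 / lam) ^ i) := by
        rw [Finset.sum_Ico_eq_sum_range, show n + 1 + k - n = k + 1 by omega]
        refine Finset.sum_congr rfl fun i _ => ?_
        rw [Nat.add_sub_cancel_left]
      refine le_trans (le_of_eq e1) ?_
      have h2 := geom_part hil hil1 (k + 1)
      rw [← hSl] at h2
      have h3 : ∑ i ∈ Finset.range (k + 1), aa i ≤ ε + 3 * d * ε := by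
        rw [Finset.sum_range_succ']
        have h4 : aa 0 = ε := by rw [haa]; simp
        have h5 : ∀ i, aa (i + 1) = 3 * d * ε * (s * (Pd d c₁ i / ‖zz d c₁ i‖)) := by
          intro i
          rw [haa]
          beta_reduce
          rw [if_neg (by omega), Nat.add_sub_cancel]
        simp only [h4, h5]
        rw [← Finset.mul_sum, ← Finset.mul_sum]
        have h6 : s * ∑ i ∈ Finset.range k, Pd d c₁ i / ‖zz d c₁ i‖ ≤ 1 := hk.trans hb₀1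
        have h7 : 3 * d * ε * (s * ∑ i ∈ Finset.range k, Pd d c₁ i / ‖zz d c₁ i‖) ≤
            3 * d * ε * 1 := by gcongr
        linarith
      rw [Finset.sum_add_distrib, ← Finset.mul_sum, ← Finset.mul_sum]
      calc 4 * d * ∑ i ∈ Finset.range (k + 1), aa i +
            2 * C₁ * ε * ∑ i ∈ Finset.range (k + 1), (1 / lam) ^ i
          ≤ 4 * d * (ε + 3 * d * ε) + 2 * C₁ * ε * Sl := by gcongr
        _ = ε * K := by rw [hK]; ring
        _ ≤ 1 / 8 := hε1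
  · refine le_trans (le_of_eq ?_) (hlow k le_rfl)
    ring
  · refine (hup k le_rfl).trans ?_
    have h1 : s * Pd d c₁ k ≤ 4 * d := by
      rcases Nat.eq_zero_or_pos k with rfl | hk0
      · rw [Pd_zero]
        linarith
      · obtain ⟨j, rfl⟩ : ∃ j, k = j + 1 := ⟨k - 1, by omega⟩
        have h2 := (hAm1 j (by omega)).trans hb₀1
        have hPj := hP j
        have hzj := hz j
        have h3 : s * Pd d c₁ j ≤ ‖zz d c₁ j‖ := by
          calc s * Pd d c₁ j = s * (Pd d c₁ j / ‖zz d c₁ j‖) * ‖zz d c₁ j‖ := by field_simp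
            _ ≤ 1 * ‖zz d c₁ j‖ := by gcongr
            _ = _ := one_mul _
        have h4 : ‖zz d c₁ j‖ ^ d ≤ 4 := by
          have h5 : zz d c₁ j ^ d = zz d c₁ (j + 1) - zz d c₁ 0 := by
            rw [zz_succ, zz_zero]
            ring
          rw [← norm_pow, h5]
          refine (norm_sub_le _ _).trans ?_
          linarith [hc.bd (j + 1), hc.bd 0]
        have h5 : ‖zz d c₁ j‖ ^ (d - 1) * ‖zz d c₁ j‖ = ‖zz d c₁ j‖ ^ d := by
          rw [← pow_succ]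
          congr 1
          omega
        rw [Pd_succ]
        calc s * (d * ‖zz d c₁ j‖ ^ (d - 1) * Pd d c₁ j)
            = d * ‖zz d c₁ j‖ ^ (d - 1) * (s * Pd d c₁ j) := by ring
          _ ≤ d * ‖zz d c₁ j‖ ^ (d - 1) * ‖zz d c₁ j‖ := by gcongr
          _ = d * (‖zz d c₁ j‖ ^ (d - 1) * ‖zz d c₁ j‖) := by ring
          _ = d * ‖zz d c₁ j‖ ^ d := by rw [h5]
          _ ≤ d * 4 := by gcongr
          _ = _ := by ring
    calc 2 * d * ε * (s * Pd d c₁ k) ≤ 2 * d * ε * (4 * d) := by gcongr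
      _ = ε * (8 * d ^ 2) := by ring
      _ ≤ 1 := hε2
      _ ≤ 5 := by norm_num

end Pool.Agent.H206.Rem
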