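import Pool.Agent.H206.RemB

set_option autoImplicit false

/-! # Entrances near the critical point, with a condition on the sum -/

open Set Filter Metric MeasureTheory

namespace Pool.Agent.H206.Rem

open Pool.Agent.TH279.MD Pool.Agent.Y298.SH Pool.Agent.Y298.SH.CD Pool.Agent.Y298.CA
open Pool.Agent.Y298.SH.CE (MG RR)
open Pool.Agent.W746.LD (Univ KC exists_KC)

variable {d : ℕ} {c₁ : ℂ} {θ B ε K₁ δ Γ A' CN Rd : ℝ} {N : ℕ}

/-- **Entrances near the critical point.** -/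
theorem entry_s (X : Ctx d θ B ε K₁ δ Γ A' CN Rd N c₁) {b₀ ε₁ : ℝ} (hε0 : 0 < ε₁)
    (hε1 : ε₁ ≤ 1) (hbi : BIs d b₀ ε₁ c₁) (htr : S_TR) {r κ : ℝ} {u : ℂ} {T : ℝ}
    {γ : ℂ → ℂ}
    (hr0 : 0 ≤ r) (hr1 : r ≤ 1) (hκ0 : 0 ≤ κ) (hT : 0 < T) (hCv : Cv c₁ r κ u T γ)
    (hu4 : ∀ w' ∈ ball u T, ‖w'‖ ≤ 4) {w : ℂ} (hwu : w ∈ ball u (T / 2)) {n : ℕ} (hn : n ≤ N)
    (hfar : ∀ j < n, 5 / 2 * δ ≤ ‖GG d γ j w‖) (hr2 : CN * r ≤ δ / 8)
    (hrκ : CN * (r + κ) * √Γ * 100 ≤ 1) {x : ℝ} (hx : ‖GG d γ n w‖ = x) (hx0 : 0 < x)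
    (hxδ : x ≤ 5 / 2 * δ) (hr3 : CN * r ≤ x / 4) {s : ℝ} {k : ℕ} (hs0 : 0 < s) (hs1 : s ≤ 1)
    (hrs : r ≤ s) (hxs : x ^ d < s) (hk : s * Am d c₁ k ≤ b₀)
    (hκ : 2 * √Γ * κ ≤ ε₁ * x ^ (d - 1)) (hbig : 4 * √Γ ≤ x ^ (d - 1) * Pd d c₁ k) {ρ : ℝ}
    (hρ : ρ = min (T / 2) (ε₁ / (10 * K₁ * √Γ) * x / ‖DD d γ n w‖)) :
    ∃ m : ℕ, 0 < ρ ∧ ρ ≤ T / 2 ∧ 2 ≤ ‖DD d γ m w‖ ∧
      volume (BB d γ ∩ closedBall w (ρ / 16)) ≤
        ENNReal.ofReal (2 / ‖DD d γ m w‖ ^ 2) * SS d c₁ r κ ∧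
      ‖DD d γ n w‖ * (x ^ (d - 1) * Pd d c₁ k) ≤ ‖DD d γ m w‖ ∧
      1 ≤ 2 * √Γ * ‖DD d γ n w‖ ∧
      ∀ w' ∈ closedBall w (ρ / 80), w' ∈ VV d δ c₁ n ∧ ‖(f d c₁)^[n] w'‖ ≤ 2 * x ∧
        ‖(f d c₁)^[n] w'‖ ≤ 3 * δ ∧ x / 2 ≤ ‖(f d c₁)^[n] w'‖ := by
  have hK1 := X.K1
  have hδ := X.δ0
  have hCN := X.CN0
  have hΓ1 := X.Γ1
  have hsG : 1 ≤ √Γ := Real.one_le_sqrt.mpr hΓ1
  have hsub : ball u (T / 2) ⊆ ball u T := ball_subset_ball (by linarith)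
  have hwT := hsub hwu
  have hw4 := hu4 w hwT
  obtain ⟨hpe1, -, -⟩ := X.pe r κ u T γ hr0 hr1 hCv n hn w hwT hw4
  have hend : ‖(f d c₁)^[n] w‖ ≤ x + CN * r := by
    calc ‖(f d c₁)^[n] w‖ = ‖GG d γ n w - (GG d γ n w - (f d c₁)^[n] w)‖ := by congr 1; ring
      _ ≤ ‖GG d γ n w‖ + ‖GG d γ n w - (f d c₁)^[n] w‖ := norm_sub_le _ _
      _ ≤ _ := by rw [hx]; gcongr
  have hend3 : ‖(f d c₁)^[n] w‖ ≤ 3 * δ := by linarith
  have hpsi : ∀ j ≤ n, psi d δ c₁ j ((f d c₁)^[n] w) ≤ Γ := by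
    intro j hj
    refine le_trans ?_ (X.h1 _ hend3)
    exact Finset.single_le_sum (f := fun j => psi d δ c₁ j ((f d c₁)^[n] w))
      (fun i _ => psi_nonneg hδ c₁ i _) (Finset.mem_range.mpr (by omega))
  -- the derivative does not vanish
  have haway := X.away hr0 hr1 hCv hwT hw4 hn hfar hr2
  have hVV : w ∈ VV d δ c₁ n := fun j hj => by
    have := haway j hj
    linarith
  have hone' := one_le_of (X.one n w hVV) (hpsi n le_rfl) (norm_nonneg _) (by linarith)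
  obtain ⟨-, -, hpe3⟩ := X.pe r κ u T γ hr0 hr1 hCv n hn w hwT hw4
  have hE0 : 0 < ‖DD d γ n w‖ := by
    by_contra hcon
    have h1 : DD d γ n w = 0 := norm_le_zero_iff.mp (not_lt.mp hcon)
    rw [h1, zero_sub, norm_neg] at hpe3
    have h2 : √Γ * ‖deriv ((f d c₁)^[n]) w‖ ≤ √Γ * (CN * r) := by gcongr
    have h3 : 0 ≤ CN * κ * √Γ := by positivity
    nlinarith
  set E := ‖DD d γ n w‖ with hE
  set η : ℝ := ε₁ / (10 * K₁ * √Γ) with hη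
  have hη0 : 0 < η := by positivity
  have hηε : η ≤ ε₁ := by
    rw [hη, div_le_iff₀ (by positivity)]
    have : 1 ≤ 10 * K₁ * √Γ := by nlinarith
    nlinarith
  have hηK : 10 * K₁ * √Γ * η = ε₁ := by rw [hη]; field_simp
  have hρ0 : 0 < ρ := by
    rw [hρ]
    exact lt_min (by positivity) (by positivity)
  have hρT : ρ ≤ T / 2 := by rw [hρ]; exact min_le_left _ _
  have hρx : E * ρ ≤ η * x := by
    have h1 : ρ ≤ η * x / E := by rw [hρ]; exact min_le_right _ _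
    rw [le_div_iff₀ hE0] at h1
    linarith
  have hKηx : K₁ * √Γ * (η * x) ≤ x / 10 := by
    have : K₁ * √Γ * (η * x) = (10 * K₁ * √Γ * η) * x / 10 := by ring
    rw [this, hηK]
    have : ε₁ * x ≤ 1 * x := by gcongr
    linarith
  have hKηx' : K₁ * (η * x) ≤ x / 10 := by
    refine le_trans ?_ hKηx
    have : 0 ≤ K₁ * (η * x) := by positivity
    nlinarith
  obtain ⟨c1, c2, c3⟩ := X.common hr0 hr1 hκ0 hCv hu4 hwu hn hfar hr2 hΓ1 hpsi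
    (fun h => X.br1 n w h hend3) hrκ hρ0 hρT (by
      calc 2 * K₁ * (E * ρ) ≤ 2 * (K₁ * (η * x)) := by
            rw [mul_assoc]
            gcongr
        _ ≤ 2 * (x / 10) := by gcongr
        _ ≤ δ / 2 := by
            have : x ≤ 5 / 2 * δ := hxδ
            linarith) (by
      calc K₁ * √Γ * (E * ρ) ≤ K₁ * √Γ * (η * x) := by gcongr
        _ ≤ x / 10 := hKηx
        _ ≤ 5 * δ := by linarith)
  have hballT : ball w ρ ⊆ ball u T := by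
    intro z hz
    rw [mem_ball] at hz hwu ⊢
    linarith [dist_triangle z w u]
  -- the passage
  obtain ⟨p1, p2, p3⟩ := hbi s ρ κ k n γ w hs0 hs1 hρ0 hk (hCv.hol.mono hballT)
    (fun w' hw' => hCv.slow w' (hballT hw')) ((hCv.near w hwT).trans hrs) (by rw [hx]; exact hxs)
    (by
      rw [← norm_pos_iff, hx]
      exact hx0) (norm_pos_iff.mp hE0) c1 (by
      rw [hx]
      exact hρx.trans (by gcongr)) (by
      rw [hx]
      have h1 : κ ≤ κ * (2 * √Γ * E) := le_mul_of_one_le_right hκ0 c2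
      calc κ ≤ κ * (2 * √Γ * E) := h1
        _ = (2 * √Γ * κ) * E := by ring
        _ ≤ (ε₁ * x ^ (d - 1)) * E := by gcongr
        _ = _ := by ring)
  rw [hx] at p2
  have hm2 : 2 ≤ ‖DD d γ (n + 1 + k) w‖ := by
    refine le_trans ?_ p2
    calc (2 : ℝ) ≤ E * (4 * √Γ) := by nlinarith
      _ ≤ _ := by gcongr
  refine ⟨n + 1 + k, hρ0, hρT, hm2, ?_, p2, c2, ?_⟩
  · refine htr d c₁ r κ κ γ w ρ (n + 1 + k) (DD d γ (n + 1 + k) w) X.hd hρ0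
      (hCv.hol.mono hballT) (fun w' hw' => hCv.near w' (hballT hw'))
      (fun w' hw' => hCv.slow w' (hballT hw')) ?_ ?_ p3 p1
    · have : κ * 2 ≤ κ * ‖DD d γ (n + 1 + k) w‖ := by gcongr
      linarith
    · exact norm_pos_iff.mp (by linarith)
  · intro w' hw'
    obtain ⟨h1, h2⟩ := c3 w' hw'
    have h3 : K₁ * (E * ρ) / 60 ≤ x / 8 := by
      have h4 : K₁ * (E * ρ) ≤ K₁ * (η * x) := by gcongr
      have h5 : 0 < x / 8 := by positivity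
      linarith
    have h6 : ‖(f d c₁)^[n] w'‖ ≤ ‖(f d c₁)^[n] w‖ + x / 8 := by
      calc ‖(f d c₁)^[n] w'‖ = ‖(f d c₁)^[n] w + ((f d c₁)^[n] w' - (f d c₁)^[n] w)‖ := by
            congr 1; ring
        _ ≤ ‖(f d c₁)^[n] w‖ + ‖(f d c₁)^[n] w' - (f d c₁)^[n] w‖ := norm_add_le _ _
        _ ≤ _ := by gcongr; exact h2.trans h3
    have h7 : x - CN * r ≤ ‖(f d c₁)^[n] w‖ := by
      have h8 : ‖GG d γ n w‖ ≤ ‖(f d c₁)^[n] w‖ + ‖GG d γ n w - (f d c₁)^[n] w‖ := by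
        calc ‖GG d γ n w‖ = ‖(f d c₁)^[n] w + (GG d γ n w - (f d c₁)^[n] w)‖ := by
              congr 1; ring
          _ ≤ _ := norm_add_le _ _
      rw [hx] at h8
      linarith
    have h9 : ‖(f d c₁)^[n] w‖ - x / 8 ≤ ‖(f d c₁)^[n] w'‖ := by
      have h10 : ‖(f d c₁)^[n] w‖ ≤ ‖(f d c₁)^[n] w'‖ +
          ‖(f d c₁)^[n] w' - (f d c₁)^[n] w‖ := by
        calc ‖(f d c₁)^[n] w‖ = ‖(f d c₁)^[n] w' - ((f d c₁)^[n] w' - (f d c₁)^[n] w)‖ := by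
              congr 1; ring
          _ ≤ _ := norm_sub_le _ _
      have h11 := h2.trans h3
      linarith
    exact ⟨h1, by linarith, by linarith, by linarith⟩

/-- the density near the critical point -/
noncomputable def bet2 (d : ℕ) (δ β₁ a β₂ Xr : ℝ) : ℂ → ENNReal :=
  (closedBall (0 : ℂ) (3 * δ)).indicator fun v => ({0} : Set ℂ).indicator (fun _ => ⊤) v +
    (ENNReal.ofReal β₁ * ENNReal.ofReal (‖v‖ ^ (a - 2)) +
      ENNReal.ofReal β₂ * ENNReal.ofReal (min 1 ((Xr / ‖v‖) ^ (2 * d))))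

theorem measurable_bet2 (d : ℕ) (δ β₁ a β₂ Xr : ℝ) : Measurable (bet2 d δ β₁ a β₂ Xr) := by
  unfold bet2
  refine Measurable.indicator ?_ measurableSet_closedBall
  have h1 : Measurable (({0} : Set ℂ).indicator fun _ : ℂ => (⊤ : ENNReal)) :=
    measurable_const.indicator (measurableSet_singleton _)
  have hm1 : Measurable fun v : ℂ => ENNReal.ofReal (‖v‖ ^ (a - 2)) :=
    ENNReal.measurable_ofReal.comp (by fun_prop)
  have hm2 : Measurable fun v : ℂ => ENNReal.ofReal (min 1 ((Xr / ‖v‖) ^ (2 * d))) :=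
    ENNReal.measurable_ofReal.comp (by fun_prop)
  exact h1.add ((hm1.const_mul _).add (hm2.const_mul _))

theorem bet2_int {d : ℕ} {δ β₁ a β₂ Xr CA CB : ℝ} (hδ : 0 < δ) (hβ : 0 ≤ β₁) (hβ₂ : 0 ≤ β₂)
    (hX : 0 ≤ Xr)
    (hA : ∀ R : ℝ, 0 ≤ R →
      ∫⁻ z in ball (0 : ℂ) R, ENNReal.ofReal (‖z‖ ^ (a - 2)) ≤ ENNReal.ofReal (CA * R ^ a))
    (hB : ∀ x : ℝ, 0 ≤ x →
      ∫⁻ z : ℂ, ENNReal.ofReal (min 1 ((x / ‖z‖) ^ (2 * d))) ≤ ENNReal.ofReal (CB * x ^ 2))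
    (hCA : 0 ≤ CA) (hCB : 0 ≤ CB) :
    ∫⁻ z, bet2 d δ β₁ a β₂ Xr z ≤
      ENNReal.ofReal (β₁ * (CA * (4 * δ) ^ a) + β₂ * (CB * Xr ^ 2)) := by
  have h1 : ∀ v, bet2 d δ β₁ a β₂ Xr v ≤ ({0} : Set ℂ).indicator (fun _ => ⊤) v +
      (ENNReal.ofReal β₁ * (ball (0 : ℂ) (4 * δ)).indicator
        (fun v => ENNReal.ofReal (‖v‖ ^ (a - 2))) v +
      ENNReal.ofReal β₂ * ENNReal.ofReal (min 1 ((Xr / ‖v‖) ^ (2 * d)))) := by
    intro v
    unfold bet2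
    by_cases hv : v ∈ closedBall (0 : ℂ) (3 * δ)
    · rw [indicator_of_mem hv]
      have hv' : v ∈ ball (0 : ℂ) (4 * δ) := closedBall_subset_ball (by linarith) hv
      rw [indicator_of_mem hv']
    · rw [indicator_of_notMem hv]
      exact bot_le
  have hm1 : Measurable fun v : ℂ => ENNReal.ofReal (‖v‖ ^ (a - 2)) :=
    ENNReal.measurable_ofReal.comp (by fun_prop)
  have hm2 : Measurable fun v : ℂ => ENNReal.ofReal (min 1 ((Xr / ‖v‖) ^ (2 * d))) :=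
    ENNReal.measurable_ofReal.comp (by fun_prop)
  calc ∫⁻ z, bet2 d δ β₁ a β₂ Xr z
      ≤ ∫⁻ v, (({0} : Set ℂ).indicator (fun _ => ⊤) v +
      (ENNReal.ofReal β₁ * (ball (0 : ℂ) (4 * δ)).indicator
        (fun v => ENNReal.ofReal (‖v‖ ^ (a - 2))) v +
      ENNReal.ofReal β₂ * ENNReal.ofReal (min 1 ((Xr / ‖v‖) ^ (2 * d))))) := lintegral_mono h1
    _ = 0 + (ENNReal.ofReal β₁ * (∫⁻ v in ball (0 : ℂ) (4 * δ), ENNReal.ofReal (‖v‖ ^ (a - 2))) +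
        ENNReal.ofReal β₂ * ∫⁻ v : ℂ, ENNReal.ofReal (min 1 ((Xr / ‖v‖) ^ (2 * d)))) := by
        have h2 : Measurable fun v : ℂ => ENNReal.ofReal β₁ * (ball (0 : ℂ) (4 * δ)).indicator
            (fun v => ENNReal.ofReal (‖v‖ ^ (a - 2))) v :=
          (hm1.indicator measurableSet_ball).const_mul _
        rw [lintegral_add_left (measurable_const.indicator (measurableSet_singleton _)),
          lintegral_indicator_const (measurableSet_singleton _),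
          lintegral_add_left h2,
          lintegral_const_mul _ (hm1.indicator measurableSet_ball),
          lintegral_indicator measurableSet_ball, lintegral_const_mul _ hm2]
        congr 1
        rw [measure_singleton, mul_zero]
    _ ≤ ENNReal.ofReal β₁ * ENNReal.ofReal (CA * (4 * δ) ^ a) + ENNReal.ofReal β₂ *
        ENNReal.ofReal (CB * Xr ^ 2) := by
        rw [zero_add]
        gcongr
        · exact hA _ (by positivity)
        · exact hB _ hX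
    _ = _ := by
        rw [← ENNReal.ofReal_mul hβ, ← ENNReal.ofReal_mul hβ₂,
          ← ENNReal.ofReal_add (by positivity) (by positivity)]

theorem bet2_low1 {d : ℕ} {δ β₁ a β₂ Xr x : ℝ} (hβ : 0 ≤ β₁) (ha0 : 0 < a) (ha1 : a ≤ 1) {v : ℂ}
    (hx : 0 < x) (hv1 : ‖v‖ ≤ 2 * x) (hv2 : ‖v‖ ≤ 3 * δ) :
    ENNReal.ofReal (β₁ / 4 * x ^ (a - 2)) ≤ bet2 d δ β₁ a β₂ Xr v := by
  unfold bet2
  rw [indicator_of_mem (by rwa [mem_closedBall_zero_iff])]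
  by_cases h0 : v = 0
  · rw [h0, indicator_of_mem (mem_singleton _), top_add]
    exact le_top
  · have hv0 : 0 < ‖v‖ := norm_pos_iff.mpr h0
    rw [indicator_of_notMem (by simpa using h0), zero_add, ← ENNReal.ofReal_mul hβ]
    refine le_trans ?_ le_self_add
    apply ENNReal.ofReal_le_ofReal
    have h1 : (2 * x) ^ (a - 2) ≤ ‖v‖ ^ (a - 2) :=
      Real.rpow_le_rpow_of_nonpos hv0 hv1 (by linarith)
    have h2 : 1 / 4 * x ^ (a - 2) ≤ (2 * x) ^ (a - 2) := by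
      rw [Real.mul_rpow (by norm_num) hx.le]
      gcongr
      calc (1 / 4 : ℝ) = 2 ^ (-2 : ℝ) := by
            rw [Real.rpow_neg (by norm_num), Real.rpow_two]
            norm_num
        _ ≤ 2 ^ (a - 2) := Real.rpow_le_rpow_of_exponent_le (by norm_num) (by linarith)
    calc β₁ / 4 * x ^ (a - 2) = β₁ * (1 / 4 * x ^ (a - 2)) := by ring
      _ ≤ β₁ * ‖v‖ ^ (a - 2) := by
          gcongr
          exact h2.trans h1

theorem bet2_low2 {d : ℕ} {δ β₁ a β₂ Xr x q : ℝ} {v : ℂ} (hx : 0 < x) (hX : 0 < Xr)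
    (hXx : 2 * Xr ≤ x) (hβ₂ : 0 ≤ β₂) (hq0 : 0 ≤ q)
    (hq : q * (4 ^ d * x ^ (2 * d)) ≤ β₂ * Xr ^ (2 * d)) (hv1 : ‖v‖ ≤ 2 * x)
    (hv2 : ‖v‖ ≤ 3 * δ) (hv3 : x / 2 ≤ ‖v‖) :
    ENNReal.ofReal (min 25 q) ≤ bet2 d δ β₁ a β₂ Xr v := by
  have hv0 : 0 < ‖v‖ := by linarith
  have h0 : v ≠ 0 := norm_pos_iff.1 hv0
  unfold bet2
  rw [indicator_of_mem (by rwa [mem_closedBall_zero_iff]),
    indicator_of_notMem (by simpa using h0), zero_add]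
  refine le_trans ?_ le_add_self
  rw [← ENNReal.ofReal_mul hβ₂]
  apply ENNReal.ofReal_le_ofReal
  refine (min_le_right _ _).trans ?_
  have h3 : (Xr / ‖v‖) ^ (2 * d) ≤ 1 := by
    apply pow_le_one₀ (by positivity)
    rw [div_le_one hv0]
    linarith
  rw [min_eq_right h3, div_pow, ← mul_div_assoc, le_div_iff₀ (by positivity)]
  refine le_trans ?_ hq
  gcongr
  calc ‖v‖ ^ (2 * d) ≤ (2 * x) ^ (2 * d) := by gcongr
    _ = _ := by
      rw [mul_pow, pow_mul (2 : ℝ) 2 d]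
      norm_num

end Pool.Agent.H206.Rem
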