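import Pool.Agent.H206.RemD

set_option autoImplicit false

/-! # The main inequality with a condition on the sum: smallness of the exceptional part -/

open Set Filter Metric MeasureTheory

namespace Pool.Agent.H206.Rem

open Pool.Agent.TH279.MD Pool.Agent.Y298.SH Pool.Agent.Y298.SH.CD Pool.Agent.Y298.CA
open Pool.Agent.Y298.SH.CE (MG RR geom_part)
open Pool.Agent.W746.LD (Univ KC exists_KC)

theorem sP_le {d : ℕ} {C₁ lam : ℝ} {c₁ : ℂ} (h : CEp d C₁ lam c₁) {s : ℝ} (hs : 0 < s)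
    (hs1 : s ≤ 1) {k : ℕ} (hk : s * Am d c₁ k ≤ 1) : s * Pd d c₁ k ≤ 4 * d := by
  have hd := h.hd
  have hdR : (2 : ℝ) ≤ d := by exact_mod_cast hd
  have hP := h.Pd_pos
  have hz : ∀ j, 0 < ‖zz d c₁ j‖ := fun j => norm_pos_iff.2 (h.zz_ne j)
  rcases Nat.eq_zero_or_pos k with rfl | hk0
  · rw [Pd_zero]
    linarith
  · obtain ⟨j, rfl⟩ : ∃ j, k = j + 1 := ⟨k - 1, by omega⟩
    have hPj := hP j
    have hzj := hz j
    have h2 : s * (Pd d c₁ j / ‖zz d c₁ j‖) ≤ 1 := by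
      refine le_trans ?_ hk
      gcongr
      unfold Am
      exact Finset.single_le_sum (f := fun j => Pd d c₁ j / ‖zz d c₁ j‖)
        (fun i _ => (div_pos (hP i) (hz i)).le) (Finset.mem_range.2 (Nat.lt_succ_self j))
    have h3 : s * Pd d c₁ j ≤ ‖zz d c₁ j‖ := by
      calc s * Pd d c₁ j = s * (Pd d c₁ j / ‖zz d c₁ j‖) * ‖zz d c₁ j‖ := by field_simp
        _ ≤ 1 * ‖zz d c₁ j‖ := by gcongr
        _ = _ := one_mul _
    have h4 : ‖zz d c₁ j‖ ^ d ≤ 4 := by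
      have h5 : zz d c₁ j ^ d = zz d c₁ (j + 1) - zz d c₁ 0 := by
        rw [zz_succ, zz_zero]
        ring
      rw [← norm_pow, h5]
      refine (norm_sub_le _ _).trans ?_
      linarith [h.bd (j + 1), h.bd 0]
    have h5 : ‖zz d c₁ j‖ ^ (d - 1) * ‖zz d c₁ j‖ = ‖zz d c₁ j‖ ^ d := by
      rw [← pow_succ]
      congr 1
      omega
    rw [Pd_succ]
    calc s * (d * ‖zz d c₁ j‖ ^ (d - 1) * Pd d c₁ j)
        = d * ‖zz d c₁ j‖ ^ (d - 1) * (s * Pd d c₁ j) := by ring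
      _ ≤ d * ‖zz d c₁ j‖ ^ (d - 1) * ‖zz d c₁ j‖ := by gcongr
      _ = d * (‖zz d c₁ j‖ ^ (d - 1) * ‖zz d c₁ j‖) := by ring
      _ = d * ‖zz d c₁ j‖ ^ d := by rw [h5]
      _ ≤ d * 4 := by gcongr
      _ = _ := by ring

/-- the threshold -/
noncomputable def X0 (d : ℕ) (L P : ℝ) : ℝ := (L / P) ^ ((((d - 1 : ℕ) : ℝ))⁻¹)

theorem X0_pos (d : ℕ) {L P : ℝ} (hL : 0 < L) (hP : 0 < P) : 0 < X0 d L P :=
  Real.rpow_pos_of_pos (by positivity) _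

theorem X0_pow {d : ℕ} (hd : 2 ≤ d) {L P : ℝ} (hL : 0 < L) (hP : 0 < P) :
    X0 d L P ^ (d - 1) = L / P :=
  Real.rpow_inv_natCast_pow (by positivity) (by omega)

/-- shallow passages -/
theorem shallow_s {d : ℕ} (hd : 2 ≤ d) {C₁ lam : ℝ} {c₀ : ℂ} (h : CEp d C₁ lam c₀) {b₀ : ℝ}
    (hb₀ : 0 < b₀) : ∃ a Cs : ℝ, 0 < a ∧ a ≤ 1 ∧ 0 < Cs ∧ ∀ x : ℝ, 0 < x → 2 * x ^ d ≤ 1 →
      ∃ k : ℕ, (2 * x ^ d) * Am d c₀ k ≤ b₀ ∧ 1 ≤ Cs * x ^ a * (x ^ (d - 1) * Pd d c₀ k) ^ 2 := by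
  have hdR : (2 : ℝ) ≤ d := by exact_mod_cast hd
  have hl := h.lam1
  have hl0 : 0 < lam := by linarith
  have hloglam : 0 < Real.log lam := Real.log_pos hl
  have hlog2 : 0 < Real.log 2 := Real.log_pos (by norm_num)
  set ω : ℝ := min (1 / (3 * d)) (Real.log 2 / Real.log lam) with hω
  have hω0 : 0 < ω := lt_min (by positivity) (by positivity)
  have hω1 : ω ≤ 1 / (3 * d) := min_le_left _ _
  have hω2 : ω ≤ Real.log 2 / Real.log lam := min_le_right _ _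
  set θ : ℝ := lam ^ ω with hθ
  have hθ1 : 1 < θ := Real.one_lt_rpow hl hω0
  have hθ0 : 0 < θ := by linarith
  have hθ2 : θ ≤ 2 := by
    rw [hθ, Real.rpow_def_of_pos hl0]
    rw [le_div_iff₀ hloglam] at hω2
    calc Real.exp (Real.log lam * ω) ≤ Real.exp (Real.log 2) := Real.exp_le_exp.mpr (by linarith)
      _ = 2 := Real.exp_log (by norm_num)
  have hθd : θ ^ (3 * d) ≤ lam := by
    rw [hθ, ← Real.rpow_natCast, ← Real.rpow_mul hl0.le]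
    have h1 : ω * ((3 * d : ℕ) : ℝ) ≤ 1 := by
      push_cast
      rw [le_div_iff₀ (by positivity)] at hω1
      exact hω1
    calc lam ^ (ω * ((3 * d : ℕ) : ℝ)) ≤ lam ^ (1 : ℝ) :=
          Real.rpow_le_rpow_of_exponent_le hl.le h1
      _ = lam := Real.rpow_one lam
  have hiθ : 0 < 1 / θ := by positivity
  have hiθ1 : 1 / θ < 1 := by rw [div_lt_one hθ0]; exact hθ1
  obtain ⟨Sθ, hSθ⟩ : ∃ Sθ : ℝ, Sθ = 1 / (1 - 1 / θ) := ⟨_, rfl⟩
  have hSθ0 : 0 < Sθ := by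
    have : 0 < 1 - 1 / θ := by linarith
    rw [hSθ]
    positivity
  obtain ⟨B, hB⟩ : ∃ B : ℝ, B = max 1 (Sθ / b₀) := ⟨_, rfl⟩
  have hB1 : 1 ≤ B := by rw [hB]; exact le_max_left _ _
  have hB2 : Sθ ≤ B * b₀ := by
    rw [← div_le_iff₀ hb₀, hB]
    exact le_max_right _ _
  have hB0 : 0 < B := by linarith
  obtain ⟨e, Cs, W, F⟩ := ft_exists hd C₁ lam θ B h.C1 hl hθ1 hθ2 hθd hB1
  have he0 := F.e0
  refine ⟨d * e, Cs, by positivity, F.e1, F.Cs0, ?_⟩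
  intro x hx hx1
  obtain ⟨k, hk1, hk2⟩ := F.shallow c₀ h x hx hx1
  refine ⟨k, ?_, hk2⟩
  have hP := h.Pd_pos
  have hz : ∀ j, 0 < ‖zz d c₀ j‖ := fun j => norm_pos_iff.2 (h.zz_ne j)
  have h1 : ∀ j ∈ Finset.range k, (2 * x ^ d) * (Pd d c₀ j / ‖zz d c₀ j‖) ≤
      1 / B * (1 / θ) ^ j := by
    intro j hj
    have h2 := hk1 j (Finset.mem_range.1 hj)
    have hPj := hP j
    have hzj := hz j
    rw [one_div θ, inv_pow, ← mul_div_assoc, div_le_iff₀ hzj]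
    have h3 : 2 * x ^ d * Pd d c₀ j ≤ 1 / B * (θ ^ j)⁻¹ * (B * θ ^ j * (2 * x ^ d) * Pd d c₀ j) := by
      apply le_of_eq
      field_simp
    exact h3.trans (by gcongr)
  unfold Am
  rw [Finset.mul_sum]
  calc ∑ j ∈ Finset.range k, (2 * x ^ d) * (Pd d c₀ j / ‖zz d c₀ j‖)
      ≤ ∑ j ∈ Finset.range k, 1 / B * (1 / θ) ^ j := Finset.sum_le_sum h1
    _ = 1 / B * ∑ j ∈ Finset.range k, (1 / θ) ^ j := by rw [Finset.mul_sum]
    _ ≤ 1 / B * Sθ := by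
        have h4 := geom_part hiθ hiθ1 k
        rw [← hSθ] at h4
        gcongr
    _ ≤ 1 / B * (B * b₀) := by gcongr
    _ = b₀ := by field_simp

end Pool.Agent.H206.Rem
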