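import Pool.Agent.H206.RemE

set_option autoImplicit false

/-! # The main inequality with a condition on the sum: smallness of the exceptional part -/

open Set Filter Metric MeasureTheory

namespace Pool.Agent.H206.Rem

open Pool.Agent.TH279.MD Pool.Agent.Y298.SH Pool.Agent.Y298.SH.CD Pool.Agent.Y298.CA
open Pool.Agent.Y298.SH.CE (MG RR geom_part)
open Pool.Agent.W746.LD (Univ KC exists_KC)

/-- the constants of the main inequality -/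
structure RD (d : ℕ) (c₀ : ℂ) (b₀ K₂ ε₀ δ : ℝ) (N : ℕ) (L Γ cρ s₀ P₀ : ℝ) : Prop where
  δ0 : 0 < δ
  N1 : 1 ≤ N
  L0 : 0 < L
  Γ1 : 1 ≤ Γ
  cρ0 : 0 < cρ
  s0 : 0 < s₀
  s1 : s₀ ≤ 1
  P0 : 0 < P₀
  main : ∀ (s : ℝ) (k : ℕ), 0 < s → s ≤ s₀ → s * Am d c₀ k ≤ b₀ → P₀ ≤ Pd d c₀ k →
    ∀ (u : ℂ) (T : ℝ) (γ : ℂ → ℂ), 0 < T → T ≤ 1 → Cv c₀ (s / 2) (K₂ / Pd d c₀ k) u T γ →
    volume (EA d δ N γ u T) + volume {w | ∃ n < N, EN d δ γ u T n w ∧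
      X0 d L (Pd d c₀ k) ≤ ‖GG d γ n w‖} ≤
        ENNReal.ofReal (ε₀ * sS d c₀ (s / 2) (K₂ / Pd d c₀ k)) ∧
    volume {w | ∃ n < N, EN d δ γ u T n w ∧ ‖GG d γ n w‖ < X0 d L (Pd d c₀ k)} ≤
      ENNReal.ofReal (16 * Γ * X0 d L (Pd d c₀ k) ^ 2) ∧
    ∀ n < N, ∀ w, EN d δ γ u T n w → 1 ≤ 2 * √Γ * ‖DD d γ n w‖ ∧ ∀ ρ : ℝ, 0 < ρ → ρ ≤ T / 2 →
      ‖DD d γ n w‖ * ρ ≤ cρ → ∀ w' ∈ ball w ρ,
        ‖deriv (GG d γ n) w' - DD d γ n w‖ ≤ 1 / 16 * ‖DD d γ n w‖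

/-- **The main inequality.** -/
theorem rem_core {d : ℕ} (hd : 2 ≤ d) {C₁ lam : ℝ} {c₀ : ℂ} (h : CEp d C₁ lam c₀) {b₀ ε₁ : ℝ}
    (hb₀0 : 0 < b₀) (hb₀1 : b₀ ≤ 1) (hε₁ : 0 < ε₁) (hε₁1 : ε₁ ≤ 1) (hbi : BIs d b₀ ε₁ c₀)
    {K₂ : ℝ} (hK₂ : 0 < K₂) {ε₀ : ℝ} (hε₀ : 0 < ε₀) (hε₀1 : ε₀ ≤ 1) :
    ∃ (δ : ℝ) (N : ℕ) (L Γ cρ s₀ P₀ : ℝ), RD d c₀ b₀ K₂ ε₀ δ N L Γ cρ s₀ P₀ := by
  have hdR : (2 : ℝ) ≤ d := by exact_mod_cast hd
  have hl := h.lam1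
  have hl0 : 0 < lam := by linarith
  -- constants of the library
  obtain ⟨θ, hθ1, hθ2, hθd⟩ : ∃ θ : ℝ, 1 < θ ∧ θ ≤ 2 ∧ θ ^ (3 * d) ≤ lam := by
    have hloglam : 0 < Real.log lam := Real.log_pos hl
    have hlog2 : 0 < Real.log 2 := Real.log_pos (by norm_num)
    set ω : ℝ := min (1 / (3 * d)) (Real.log 2 / Real.log lam) with hω
    have hω0 : 0 < ω := lt_min (by positivity) (by positivity)
    have hω1 : ω ≤ 1 / (3 * d) := min_le_left _ _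
    have hω2 : ω ≤ Real.log 2 / Real.log lam := min_le_right _ _
    refine ⟨lam ^ ω, Real.one_lt_rpow hl hω0, ?_, ?_⟩
    · rw [Real.rpow_def_of_pos hl0]
      rw [le_div_iff₀ hloglam] at hω2
      calc Real.exp (Real.log lam * ω) ≤ Real.exp (Real.log 2) :=
            Real.exp_le_exp.mpr (by linarith)
        _ = 2 := Real.exp_log (by norm_num)
    · rw [← Real.rpow_natCast, ← Real.rpow_mul hl0.le]
      have h1 : ω * ((3 * d : ℕ) : ℝ) ≤ 1 := by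
        push_cast
        rw [le_div_iff₀ (by positivity)] at hω1
        exact hω1
      calc lam ^ (ω * ((3 * d : ℕ) : ℝ)) ≤ lam ^ (1 : ℝ) :=
            Real.rpow_le_rpow_of_exponent_le hl.le h1
        _ = lam := Real.rpow_one lam
  obtain ⟨B, Ca, e, Cs', W, ε, K₁, R₀, Y, K⟩ := k0_exists jc.br jc.nh jc.pa jc.bi hd C₁ lam θ h.C1
    hl hθ1 hθ2 hθd
  have J := jc.jb
  have hK1 := K.K1
  have hY0 := K.Y0
  have hR0 := K.R0
  obtain ⟨a, Cs, ha0, ha1, hCs0, hshal⟩ := shallow_s hd h hb₀0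
  obtain ⟨CA, hCA0, hCA⟩ := J.ra a ha0 (by linarith)
  obtain ⟨CB, hCB0, hCB⟩ := J.rb d hd
  obtain ⟨ρ₀, Γ, hρ₀, hΓ1, hPS⟩ := J.ps d C₁ lam c₀ h
  have hΓ0 : 0 < Γ := by linarith
  have hsG : 1 ≤ √Γ := Real.one_le_sqrt.mpr hΓ1
  obtain ⟨η, hη⟩ : ∃ η : ℝ, η = ε₁ / (10 * K₁ * √Γ) := ⟨_, rfl⟩
  have hη0 : 0 < η := by rw [hη]; positivity
  -- the choice of `δ`
  obtain ⟨m₁, hm₁⟩ : ∃ m₁ : ℝ, m₁ = min (ε₀ / (2 ^ 22 * Γ * Cs))
    (ε₀ / (2 ^ 18 * Γ * (Cs / η ^ 2) * CA)) := ⟨_, rfl⟩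
  have hm₁0 : 0 < m₁ := by rw [hm₁]; exact lt_min (by positivity) (by positivity)
  obtain ⟨δ, hδ⟩ : ∃ δ : ℝ, δ = min (min ρ₀ R₀) (min (1 / 5) (m₁ ^ a⁻¹ / 4)) := ⟨_, rfl⟩
  have hδ0 : 0 < δ := by
    have : 0 < m₁ ^ a⁻¹ := Real.rpow_pos_of_pos hm₁0 _
    rw [hδ]
    exact lt_min (lt_min hρ₀ hR0) (lt_min (by norm_num) (by positivity))
  have hδρ : δ ≤ ρ₀ := by rw [hδ]; exact (min_le_left _ _).trans (min_le_left _ _)
  have hδR : δ ≤ R₀ := by rw [hδ]; exact (min_le_left _ _).trans (min_le_right _ _)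
  have hδ5 : δ ≤ 1 / 5 := by rw [hδ]; exact (min_le_right _ _).trans (min_le_left _ _)
  have hδm : δ ≤ m₁ ^ a⁻¹ / 4 := by rw [hδ]; exact (min_le_right _ _).trans (min_le_right _ _)
  have hδa : (4 * δ) ^ a ≤ m₁ := by
    calc (4 * δ) ^ a ≤ (m₁ ^ a⁻¹) ^ a := Real.rpow_le_rpow (by positivity) (by linarith) ha0.le
      _ = m₁ := by rw [← Real.rpow_mul hm₁0.le, inv_mul_cancel₀ ha0.ne', Real.rpow_one]
  have hδa' : (5 / 2 * δ) ^ a ≤ m₁ :=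
    (Real.rpow_le_rpow (by positivity) (by linarith) ha0.le).trans hδa
  have hδ1 : 2 ^ 22 * Γ * Cs * (5 / 2 * δ) ^ a ≤ ε₀ := by
    calc 2 ^ 22 * Γ * Cs * (5 / 2 * δ) ^ a ≤ 2 ^ 22 * Γ * Cs * (ε₀ / (2 ^ 22 * Γ * Cs)) := by
          gcongr
          exact hδa'.trans (by rw [hm₁]; exact min_le_left _ _)
      _ = ε₀ := by field_simp
  have hδ2 : 2 ^ 18 * Γ * (Cs / η ^ 2) * CA * (4 * δ) ^ a ≤ ε₀ := by
    calc 2 ^ 18 * Γ * (Cs / η ^ 2) * CA * (4 * δ) ^ a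
        ≤ 2 ^ 18 * Γ * (Cs / η ^ 2) * CA * (ε₀ / (2 ^ 18 * Γ * (Cs / η ^ 2) * CA)) := by
          gcongr
          exact hδa.trans (by rw [hm₁]; exact min_le_right _ _)
      _ = ε₀ := by field_simp
  obtain ⟨A', hA'1, hPS2⟩ := hPS δ hδ0 hδρ
  have hsA : 1 ≤ √A' := Real.one_le_sqrt.mpr hA'1
  -- the radius of the survivors
  obtain ⟨Rd, hRd⟩ : ∃ Rd : ℝ, Rd = δ ^ d / (2 * Y) := ⟨_, rfl⟩
  have hRd0 : 0 < Rd := by rw [hRd]; positivity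
  obtain ⟨Ra, hRa⟩ : ∃ Ra : ℝ, Ra = min (Rd / (2 * K₁)) (min (5 * δ / (K₁ * √A')) (1 / K₁)) :=
    ⟨_, rfl⟩
  have hRa0 : 0 < Ra := by rw [hRa]; exact lt_min (by positivity) (lt_min (by positivity) (by positivity))
  have hRa1 : 2 * K₁ * Ra ≤ Rd := by
    have h1 : Ra ≤ Rd / (2 * K₁) := by rw [hRa]; exact min_le_left _ _
    rw [le_div_iff₀ (by positivity)] at h1
    linarith
  have hRa2 : K₁ * √A' * Ra ≤ 5 * δ := by
    have h1 : Ra ≤ 5 * δ / (K₁ * √A') := by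
      rw [hRa]; exact (min_le_right _ _).trans (min_le_left _ _)
    rw [le_div_iff₀ (by positivity)] at h1
    linarith
  have hRa3 : K₁ * Ra ≤ 1 := by
    have h1 : Ra ≤ 1 / K₁ := by rw [hRa]; exact (min_le_right _ _).trans (min_le_right _ _)
    rw [le_div_iff₀ (by positivity)] at h1
    linarith
  obtain ⟨ε', hε'⟩ : ∃ ε' : ℝ, ε' = min (1 / 16) (ε₀ / (2 ^ 22 * (1 + 1 / Ra ^ 2))) := ⟨_, rfl⟩
  have hε'0 : 0 < ε' := by rw [hε']; exact lt_min (by norm_num) (by positivity)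
  have hε'1 : ε' ≤ 1 / 16 := by rw [hε']; exact min_le_left _ _
  have hε'2 : 2 ^ 22 * ε' * (1 + 1 / Ra ^ 2) ≤ ε₀ := by
    calc 2 ^ 22 * ε' * (1 + 1 / Ra ^ 2) ≤ 2 ^ 22 * (ε₀ / (2 ^ 22 * (1 + 1 / Ra ^ 2))) *
          (1 + 1 / Ra ^ 2) := by
          gcongr
          rw [hε']
          exact min_le_right _ _
      _ = ε₀ := by field_simp
  obtain ⟨N, hN1, e₀, he₀, hPS3⟩ := hPS2 ε' hε'0
  obtain ⟨hps1, hps2, hps3⟩ := hPS3 c₀ (by rw [sub_self, norm_zero]; exact he₀.le)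
  obtain ⟨CN, hCN0, hCN⟩ := J.pe d N hd
  -- the constant `L`
  obtain ⟨Q, hQ⟩ : ∃ Q : ℝ, Q = Γ * CB * (4 ^ (2 * d) * 4096 * 16 / η ^ 2) := ⟨_, rfl⟩
  have hQ0 : 0 < Q := by rw [hQ]; positivity
  obtain ⟨L, hL⟩ : ∃ L : ℝ, L = 1 + 2 ^ 22 * Γ / ε₀ + Q / ε₀ + 2 * √Γ * K₂ / ε₁ +
    8 * d * CN + 4 * √Γ := ⟨_, rfl⟩
  have p1 : 0 ≤ 2 ^ 22 * Γ / ε₀ := by positivity
  have p2 : 0 ≤ Q / ε₀ := by positivity
  have p3 : 0 ≤ 2 * √Γ * K₂ / ε₁ := by positivity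
  have p4 : 0 ≤ 8 * d * CN := by positivity
  have p5 : 0 ≤ 4 * √Γ := by positivity
  have hL1 : 1 ≤ L := by linarith
  have hL0 : 0 < L := by linarith
  have hLL : L ≤ L ^ 2 := by nlinarith
  have hL2 : 2 * √Γ * K₂ ≤ ε₁ * L := by
    have h1 : 2 * √Γ * K₂ / ε₁ ≤ L := by linarith
    rw [div_le_iff₀ hε₁] at h1
    linarith
  have hL3 : 8 * d * CN ≤ L := by linarith
  have hL4 : 4 * √Γ ≤ L := by linarith
  have hL5 : 2 ^ 22 * Γ * (1 / L ^ 2) ≤ ε₀ := by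
    rw [mul_one_div, div_le_iff₀ (by positivity)]
    have h1 : 2 ^ 22 * Γ / ε₀ ≤ L ^ 2 := by linarith
    rw [div_le_iff₀ hε₀] at h1
    linarith
  have hL6 : Q ≤ ε₀ * L ^ 2 := by
    have h1 : Q / ε₀ ≤ L ^ 2 := by linarith
    rw [div_le_iff₀ hε₀] at h1
    linarith
  -- smallness
  obtain ⟨F, hF⟩ : ∃ F : ℝ, F = CN * 100 * (√A' + √Γ) + 8 * CN / δ + CN + 1 := ⟨_, rfl⟩
  have q1 : 0 ≤ CN * 100 * (√A' + √Γ) := by positivity
  have q2 : 0 ≤ 8 * CN / δ := by positivity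
  have hF0 : 0 < F := by linarith
  have hF1 : 1 ≤ F := by linarith
  refine ⟨δ, N, L, Γ, min (δ / (4 * K₁)) (5 * δ / (K₁ * √Γ)), 1 / F, 2 * F * K₂, hδ0, hN1, hL0,
    hΓ1, lt_min (by positivity) (by positivity), by positivity, ?_, by positivity, ?_⟩
  · rw [div_le_one hF0]
    exact hF1
  intro s k hs0 hss hk hPk u T γ hT hT1 hCv
  have hs1 : s ≤ 1 := hss.trans (by rw [div_le_one hF0]; exact hF1)
  have hP0 := h.Pd_pos k
  obtain ⟨P, hPdef⟩ : ∃ P : ℝ, P = Pd d c₀ k := ⟨_, rfl⟩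
  rw [← hPdef] at hPk hP0 hCv ⊢
  have hc2 : ‖c₀‖ ≤ 2 := h.bd 0
  have X : Ctx d θ B ε K₁ δ Γ A' CN Rd N c₀ :=
    { hd := hd
      hc := hc2
      δ0 := hδ0
      Γ1 := hΓ1
      A1 := hA'1
      CN0 := hCN0
      Rd0 := hRd0
      K1 := hK1
      ε0 := K.ε0
      ε1 := K.ε1
      bi := K.bi c₀ h
      br1 := fun n y hy hyn => K.br1 c₀ h δ hδ0 hδR n y hy hyn
      br2 := fun n y hy => by rw [hRd]; exact K.br2 c₀ h δ hδ0 n y hy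
      h1 := hps1
      h2 := hps3
      pe := fun r κ u T γ hr0 hr1 hCv n hn w hw hw4 =>
        hCN c₀ r κ u T γ hc2 hr0 hr1 hCv n hn w hw hw4
      one := fun n y hy => J.one d δ c₀ n y hd hδ0 hy }
  obtain ⟨r, hr⟩ : ∃ r : ℝ, r = s / 2 := ⟨_, rfl⟩
  obtain ⟨κ, hκ⟩ : ∃ κ : ℝ, κ = K₂ / P := ⟨_, rfl⟩
  rw [← hr, ← hκ] at hCv ⊢
  have hr0 : 0 < r := by rw [hr]; positivity
  have hr1 : r ≤ 1 := by linarith
  have hκ0 : 0 < κ := by rw [hκ]; positivity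
  have hrF : r ≤ 1 / (2 * F) := by
    rw [hr, le_div_iff₀ (by positivity)]
    rw [le_div_iff₀ hF0] at hss
    linarith
  have hκF : κ ≤ 1 / (2 * F) := by
    rw [hκ, div_le_div_iff₀ hP0 (by positivity)]
    linarith
  have hrκF : (r + κ) * F ≤ 1 := by
    have h1 : r + κ ≤ 1 / F := by
      have : 1 / F = 1 / (2 * F) + 1 / (2 * F) := by field_simp; ring
      linarith
    rwa [le_div_iff₀ hF0] at h1
  have hrF1 : r * F ≤ 1 := by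
    have : 0 ≤ κ * F := by positivity
    linarith
  have hrκA : CN * (r + κ) * √A' * 100 ≤ 1 := by
    refine le_trans ?_ hrκF
    calc CN * (r + κ) * √A' * 100 = (r + κ) * (CN * 100 * √A') := by ring
      _ ≤ (r + κ) * F := by
          gcongr
          have : 0 ≤ CN * 100 * √Γ := by positivity
          linarith
  have hrκG : CN * (r + κ) * √Γ * 100 ≤ 1 := by
    refine le_trans ?_ hrκF
    calc CN * (r + κ) * √Γ * 100 = (r + κ) * (CN * 100 * √Γ) := by ring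
      _ ≤ (r + κ) * F := by
          gcongr
          have : 0 ≤ CN * 100 * √A' := by positivity
          linarith
  have hr2 : CN * r ≤ δ / 8 := by
    have h1 : r * (8 * CN / δ) ≤ 1 := by
      refine le_trans ?_ hrF1
      gcongr
      linarith
    rw [mul_div_assoc', div_le_one hδ0] at h1
    linarith
  have hr3 : CN * r ≤ 1 := by
    calc CN * r = r * CN := mul_comm _ _
      _ ≤ r * F := by
          gcongr
          linarith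
      _ ≤ 1 := hrF1
  -- the threshold
  obtain ⟨X₀, hX₀⟩ : ∃ X₀ : ℝ, X₀ = X0 d L P := ⟨_, rfl⟩
  rw [← hX₀]
  have hX₀0 : 0 < X₀ := by rw [hX₀]; exact X0_pos d hL0 hP0
  have hX₀p : X₀ ^ (d - 1) = L / P := by rw [hX₀]; exact X0_pow hd hL0 hP0
  have hsP : s * P ≤ 4 * d := by rw [hPdef]; exact sP_le h hs0 hs1 (hk.trans hb₀1)
  have hr4 : CN * r ≤ X₀ / 4 := by
    have h1 : (4 * (CN * r)) ^ (d - 1) ≤ X₀ ^ (d - 1) := by
      rw [hX₀p, le_div_iff₀ hP0]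
      have h0 : 4 * (CN * r) ≤ 1 := by linarith
      have h2 : (4 * (CN * r)) ^ (d - 1) ≤ 4 * (CN * r) := by
        calc (4 * (CN * r)) ^ (d - 1) ≤ (4 * (CN * r)) ^ 1 :=
              pow_le_pow_of_le_one (by positivity) h0 (by omega)
          _ = _ := pow_one _
      calc (4 * (CN * r)) ^ (d - 1) * P ≤ 4 * (CN * r) * P := by gcongr
        _ = 2 * CN * (s * P) := by rw [hr]; ring
        _ ≤ 2 * CN * (4 * d) := by gcongr
        _ = 8 * d * CN := by ring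
        _ ≤ L := hL3
    have h2 : 4 * (CN * r) ≤ X₀ := le_of_pow_le_pow_left₀ (by omega) hX₀0.le h1
    linarith
  have hκX : 2 * √Γ * κ ≤ ε₁ * X₀ ^ (d - 1) := by
    rw [hX₀p, hκ]
    calc 2 * √Γ * (K₂ / P) = (2 * √Γ * K₂) / P := by ring
      _ ≤ (ε₁ * L) / P := by gcongr
      _ = _ := by ring
  -- the passages
  have hsk : ∀ x : ℝ, X₀ ≤ x → x ≤ 5 / 2 * δ → ∃ (s' : ℝ) (k' : ℕ), 0 < s' ∧ s' ≤ 1 ∧ r ≤ s' ∧
      x ^ d < s' ∧ s' * Am d c₀ k' ≤ b₀ ∧ 4 * √Γ ≤ x ^ (d - 1) * Pd d c₀ k' ∧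
      (1 ≤ Cs * x ^ a * (x ^ (d - 1) * Pd d c₀ k') ^ 2 ∨
        (Pd d c₀ k' = P ∧ L ≤ x ^ (d - 1) * P)) := by
    intro x hx1 hx2
    have hx0 : 0 < x := hX₀0.trans_le hx1
    rcases lt_or_ge (x ^ d) r with h1 | h1
    · have h2 : L ≤ x ^ (d - 1) * P := by
        calc L = X₀ ^ (d - 1) * P := by rw [hX₀p]; field_simp
          _ ≤ _ := by gcongr
      refine ⟨s, k, hs0, hs1, by linarith, by linarith, hk, ?_, Or.inr ⟨hPdef.symm, h2⟩⟩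
      rw [← hPdef]
      exact hL4.trans h2
    · have h2 : 2 * x ^ d ≤ 1 := by
        have h3 : x ≤ 1 / 2 := by linarith
        calc 2 * x ^ d ≤ 2 * (1 / 2) ^ d := by gcongr
          _ ≤ 2 * (1 / 2) ^ 1 := by
              gcongr 2 * ?_
              exact pow_le_pow_of_le_one (by norm_num) (by norm_num) (by omega)
          _ = 1 := by norm_num
      obtain ⟨k', hk'1, hk'2⟩ := hshal x hx0 h2
      have hxd : 0 < x ^ d := by positivity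
      refine ⟨2 * x ^ d, k', by positivity, h2, by linarith, by linarith, hk'1, ?_, Or.inl hk'2⟩
      obtain ⟨y, hy⟩ : ∃ y : ℝ, y = x ^ (d - 1) * Pd d c₀ k' := ⟨_, rfl⟩
      rw [← hy] at hk'2 ⊢
      have hP' := h.Pd_pos k'
      have hy0 : 0 < y := by rw [hy]; positivity
      have h3 : 16 * Γ ≤ y ^ 2 := by
        have h4 : Cs * x ^ a ≤ 1 / (2 ^ 22 * Γ) := by
          rw [le_div_iff₀ (by positivity)]
          calc Cs * x ^ a * (2 ^ 22 * Γ) ≤ Cs * (5 / 2 * δ) ^ a * (2 ^ 22 * Γ) := by gcongr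
            _ = 2 ^ 22 * Γ * Cs * (5 / 2 * δ) ^ a := by ring
            _ ≤ 1 := hδ1.trans hε₀1
        have h5 : 1 ≤ 1 / (2 ^ 22 * Γ) * y ^ 2 := hk'2.trans (by gcongr)
        rw [div_mul_eq_mul_div, le_div_iff₀ (by positivity)] at h5
        linarith
      have h4 : (4 * √Γ) ^ 2 ≤ y ^ 2 := by
        rw [mul_pow, Real.sq_sqrt hΓ0.le]
        linarith
      exact le_of_pow_le_pow_left₀ (by norm_num) hy0.le h4
  obtain ⟨S, hSdef⟩ : ∃ S : ℝ, S = sS d c₀ r κ := ⟨_, rfl⟩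
  have hS0 : 0 ≤ S := by rw [hSdef]; exact sS_nonneg _ _ _ _
  obtain ⟨Xr, hXrdef⟩ : ∃ Xr : ℝ, Xr = X₀ / 2 := ⟨_, rfl⟩
  have hXr0 : 0 < Xr := by rw [hXrdef]; positivity
  obtain ⟨β₂, hβ₂⟩ : ∃ β₂ : ℝ, β₂ = 4 ^ d * 4096 * S / (η ^ 2 * P ^ 2) / Xr ^ (2 * d) := ⟨_, rfl⟩
  have hβ₂0 : 0 ≤ β₂ := by rw [hβ₂]; positivity
  have hXr : 4 ^ d * 4096 * sS d c₀ r κ ≤ β₂ * Xr ^ (2 * d) * (η ^ 2 * P ^ 2) := by
    rw [← hSdef, hβ₂]
    apply le_of_eq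
    field_simp
  have hA := X.volA J.cov J.tr J.me hr0.le hr1 hκ0.le hT hT1 hCv hr2 hr3 hrκA hε'0 hε'1 hps2
    hRa0 hRa1 hRa2 hRa3
  have hV := X.volV J.me hr0.le hr1 hT hT1 hCv hr2 hX₀0 (by linarith)
  have hB := volB_s X hε₁ hε₁1 hbi J.cov J.tr J.me hr0.le hr1 hκ0.le hT hT1 hCv hr2 hrκG hX₀0 hr4
    hκX ha0 ha1 hCs0 hL0 hP0 hsk hη hXr0 (by rw [hXrdef]; linarith) hβ₂0 hXr hCA hCB hCA0.le
    hCB0.le
  rw [← hSdef] at hA hB ⊢
  refine ⟨?_, hV, ?_⟩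
  · refine (add_le_add hA hB).trans ?_
    rw [← ENNReal.ofReal_add (by positivity) (by positivity)]
    apply ENNReal.ofReal_le_ofReal
    have t1 : 2 ^ 18 * ε' * (1 + 1 / Ra ^ 2) * S ≤ ε₀ / 16 * S := by
      gcongr
      linarith
    have t2 : 2 ^ 18 * Γ * (Cs * (5 / 2 * δ) ^ a + 1 / L ^ 2) * S ≤ ε₀ / 8 * S := by
      gcongr
      linarith
    have t3 : Γ * (16384 * S * Cs / η ^ 2 * (CA * (4 * δ) ^ a)) ≤ ε₀ / 16 * S := by
      calc Γ * (16384 * S * Cs / η ^ 2 * (CA * (4 * δ) ^ a))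
          = (1 / 16 * S) * (2 ^ 18 * Γ * (Cs / η ^ 2) * CA * (4 * δ) ^ a) := by ring
        _ ≤ (1 / 16 * S) * ε₀ := by gcongr
        _ = _ := by ring
    have t4 : Γ * (β₂ * (CB * Xr ^ 2)) ≤ ε₀ / 16 * S := by
      have e1 : Xr ^ (2 * d) = Xr ^ 2 * (Xr ^ (d - 1)) ^ 2 := by
        rw [← pow_mul, ← pow_add]
        congr 1
        omega
      have e2 : Xr ^ (d - 1) = L / P / 2 ^ (d - 1) := by
        rw [hXrdef, div_pow, hX₀p]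
      have e3 : β₂ * Xr ^ 2 = 4 ^ d * 4096 * S * (2 ^ (d - 1)) ^ 2 / (η ^ 2 * L ^ 2) := by
        rw [hβ₂, e1, e2]
        have hL' := hL0.ne'
        have hP' := hP0.ne'
        have hX' := hXr0.ne'
        have hη' := hη0.ne'
        field_simp
      have e4 : (4 : ℝ) ^ d * (2 ^ (d - 1)) ^ 2 ≤ 4 ^ (2 * d) := by
        have e5 : ((2 : ℝ) ^ (d - 1)) ^ 2 ≤ 4 ^ d := by
          calc ((2 : ℝ) ^ (d - 1)) ^ 2 ≤ (2 ^ d) ^ 2 := by
                gcongr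
                · norm_num
                · omega
            _ = (2 ^ 2) ^ d := by rw [← pow_mul, ← pow_mul, mul_comm]
            _ = 4 ^ d := by norm_num
        calc (4 : ℝ) ^ d * (2 ^ (d - 1)) ^ 2 ≤ 4 ^ d * 4 ^ d := by gcongr
          _ = 4 ^ (2 * d) := by rw [← pow_add]; congr 1; omega
      have e6 : Q * S / L ^ 2 ≤ ε₀ * S := by
        rw [div_le_iff₀ (by positivity)]
        calc Q * S ≤ (ε₀ * L ^ 2) * S := by gcongr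
          _ = _ := by ring
      calc Γ * (β₂ * (CB * Xr ^ 2)) = Γ * CB * (β₂ * Xr ^ 2) := by ring
        _ = Γ * CB * (4096 * S * (4 ^ d * (2 ^ (d - 1)) ^ 2) / (η ^ 2 * L ^ 2)) := by
            rw [e3]; ring
        _ ≤ Γ * CB * (4096 * S * 4 ^ (2 * d) / (η ^ 2 * L ^ 2)) := by gcongr
        _ = 1 / 16 * (Q * S / L ^ 2) := by
            rw [hQ]
            field_simp
        _ ≤ 1 / 16 * (ε₀ * S) := by gcongr
        _ = _ := by ring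
    have e7 : 0 ≤ ε₀ * S := by positivity
    have e8 : Γ * (16384 * S * Cs / η ^ 2 * (CA * (4 * δ) ^ a) + β₂ * (CB * Xr ^ 2)) =
        Γ * (16384 * S * Cs / η ^ 2 * (CA * (4 * δ) ^ a)) + Γ * (β₂ * (CB * Xr ^ 2)) := by ring
    rw [e8]
    linarith
  · -- the geometry at the entrances
    intro n hn w hw
    obtain ⟨hw1, hw2, hw3⟩ := hw
    have hu4 := disk4 hT hT1 hw1
    have hwT : w ∈ ball u T := ball_subset_ball (by linarith) hw1.2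
    have hw4 := hu4 w hwT
    obtain ⟨hpe1, -, hpe3⟩ := X.pe r κ u T γ hr0.le hr1 hCv n hn.le w hwT hw4
    have hend : ‖(f d c₀)^[n] w‖ ≤ 5 / 2 * δ + CN * r := by
      calc ‖(f d c₀)^[n] w‖ = ‖GG d γ n w - (GG d γ n w - (f d c₀)^[n] w)‖ := by congr 1; ring
        _ ≤ ‖GG d γ n w‖ + ‖GG d γ n w - (f d c₀)^[n] w‖ := norm_sub_le _ _
        _ ≤ _ := by gcongr
    have hend3 : ‖(f d c₀)^[n] w‖ ≤ 3 * δ := by linarith
    have hpsi : ∀ j ≤ n, psi d δ c₀ j ((f d c₀)^[n] w) ≤ Γ := by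
      intro j hj
      refine le_trans ?_ (X.h1 _ hend3)
      exact Finset.single_le_sum (f := fun j => psi d δ c₀ j ((f d c₀)^[n] w))
        (fun i _ => psi_nonneg hδ0 c₀ i _) (Finset.mem_range.mpr (by omega))
    have hcommon : ∀ ρ : ℝ, 0 < ρ → ρ ≤ T / 2 → ‖DD d γ n w‖ * ρ ≤
        min (δ / (4 * K₁)) (5 * δ / (K₁ * √Γ)) → _ := fun ρ hρ hρT hρD =>
      X.common hr0.le hr1 hκ0.le hCv hu4 hw1.2 hn.le hw2 hr2 hΓ1 hpsi
        (fun h => X.br1 n w h hend3) hrκG hρ hρT (by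
          have h1 := hρD.trans (min_le_left _ _)
          rw [le_div_iff₀ (by positivity)] at h1
          linarith) (by
          have h1 := hρD.trans (min_le_right _ _)
          rw [le_div_iff₀ (by positivity)] at h1
          linarith)
    refine ⟨?_, fun ρ hρ hρT hρD => (hcommon ρ hρ hρT hρD).1⟩
    obtain ⟨ρ, hρ⟩ : ∃ ρ : ℝ, ρ = min (T / 2) (min (δ / (4 * K₁)) (5 * δ / (K₁ * √Γ)) /
      (1 + ‖DD d γ n w‖)) := ⟨_, rfl⟩
    have hm0 : 0 < min (δ / (4 * K₁)) (5 * δ / (K₁ * √Γ)) :=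
      lt_min (by positivity) (by positivity)
    have hDn := norm_nonneg (DD d γ n w)
    refine (hcommon ρ ?_ ?_ ?_).2.1
    · rw [hρ]
      exact lt_min (by positivity) (by positivity)
    · rw [hρ]
      exact min_le_left _ _
    · have h1 : ρ ≤ min (δ / (4 * K₁)) (5 * δ / (K₁ * √Γ)) / (1 + ‖DD d γ n w‖) := by
        rw [hρ]
        exact min_le_right _ _
      rw [le_div_iff₀ (by positivity)] at h1
      have h2 : 0 < ρ := by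
        rw [hρ]
        exact lt_min (by positivity) (by positivity)
      have e : ρ * (1 + ‖DD d γ n w‖) = ρ + ‖DD d γ n w‖ * ρ := by ring
      rw [e] at h1
      linarith

end Pool.Agent.H206.Rem
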