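import Pool.Agent.H206.RemF

set_option autoImplicit false

/-! # The main inequality: bound of the supremum and the remainder -/

open Set Filter Metric MeasureTheory

namespace Pool.Agent.H206.Rem

open Pool.Agent.TH279.MD Pool.Agent.Y298.SH Pool.Agent.Y298.SH.CD Pool.Agent.Y298.CA

theorem X0_sq {d : ℕ} {L P : ℝ} (hL : 0 < L) (hP : 0 < P) :
    X0 d L P ^ 2 = (L ^ ((((d - 1 : ℕ) : ℝ))⁻¹)) ^ 2 * X0 d 1 P ^ 2 := by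
  unfold X0
  rw [← mul_pow, ← Real.mul_rpow hL.le (by positivity), mul_one_div]

theorem mul_X0 {d : ℕ} {L P : ℝ} (hL : 0 < L) (hP : 0 < P) :
    X0 d L P = L ^ ((((d - 1 : ℕ) : ℝ))⁻¹) * X0 d 1 P := by
  unfold X0
  rw [← Real.mul_rpow hL.le (by positivity), mul_one_div]

/-- the central part -/
def CE (d : ℕ) (δ : ℝ) (N : ℕ) (γ : ℂ → ℂ) (u : ℂ) (T X₀ : ℝ) : Set ℂ :=
  {w | ∃ n < N, EN d δ γ u T n w ∧ ‖GG d γ n w‖ < X₀}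

theorem rem_S {d : ℕ} (hd : 2 ≤ d) {C₁ lam : ℝ} {c₀ : ℂ} (h : CEp d C₁ lam c₀) {b₀ ε₁ : ℝ}
    (hb₀0 : 0 < b₀) (hb₀1 : b₀ ≤ 1) (hε₁ : 0 < ε₁) (hε₁1 : ε₁ ≤ 1) (hbi : BIs d b₀ ε₁ c₀)
    {K₂ : ℝ} (hK₂ : 0 < K₂) : ∃ C₀ s₀ P₀ : ℝ, 0 < C₀ ∧ 0 < s₀ ∧ 0 < P₀ ∧ ∀ (s : ℝ) (k : ℕ),
      0 < s → s ≤ s₀ → s * Am d c₀ k ≤ b₀ → P₀ ≤ Pd d c₀ k →
      sS d c₀ (s / 2) (K₂ / Pd d c₀ k) ≤ C₀ * X0 d 1 (Pd d c₀ k) ^ 2 := by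
  obtain ⟨δ, N, L, Γ, cρ, s₀, P₀, R⟩ := rem_core hd h hb₀0 hb₀1 hε₁ hε₁1 hbi hK₂
    (ε₀ := 1 / 2) (by norm_num) (by norm_num)
  have hL := R.L0
  have hΓ := R.Γ1
  have hLm : 0 < L ^ ((((d - 1 : ℕ) : ℝ))⁻¹) := Real.rpow_pos_of_pos hL _
  refine ⟨32 * Γ * (L ^ ((((d - 1 : ℕ) : ℝ))⁻¹)) ^ 2, s₀, P₀, by positivity, R.s0, R.P0, ?_⟩
  intro s k hs hss hk hPk
  have hP0 := h.Pd_pos k
  obtain ⟨S, hS⟩ : ∃ S : ℝ, S = sS d c₀ (s / 2) (K₂ / Pd d c₀ k) := ⟨_, rfl⟩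
  have hS0 : 0 ≤ S := by rw [hS]; exact sS_nonneg _ _ _ _
  have hX := X0_pos d hL hP0
  have hone : ∀ (u : ℂ) (T : ℝ) (γ : ℂ → ℂ), 0 < T → T ≤ 1 →
      Cv c₀ (s / 2) (K₂ / Pd d c₀ k) u T γ → volume (BB d γ ∩ ball u (T / 2)) ≤
      ENNReal.ofReal (1 / 2 * S + 16 * Γ * X0 d L (Pd d c₀ k) ^ 2) := by
    intro u T γ hT hT1 hCv
    obtain ⟨h1, h2, -⟩ := R.main s k hs hss hk hPk u T γ hT hT1 hCv
    rw [← hS] at h1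
    have hsub : BB d γ ∩ ball u (T / 2) ⊆ (EA d δ N γ u T ∪ {w | ∃ n < N, EN d δ γ u T n w ∧
        X0 d L (Pd d c₀ k) ≤ ‖GG d γ n w‖}) ∪ {w | ∃ n < N, EN d δ γ u T n w ∧
        ‖GG d γ n w‖ < X0 d L (Pd d c₀ k)} := by
      intro w hw
      rcases split_E d δ N γ u T (X0 d L (Pd d c₀ k) ^ (d - 1)) hw with h3 | h3 | h3
      · exact Or.inl (Or.inl h3)
      · obtain ⟨n, hn, h4, h5⟩ := h3
        exact Or.inr ⟨n, hn, h4, lt_of_pow_lt_pow_left₀ _ hX.le h5⟩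
      · obtain ⟨n, hn, h4, h5⟩ := h3
        exact Or.inl (Or.inr ⟨n, hn, h4, le_of_pow_le_pow_left₀ (by omega) (norm_nonneg _) h5⟩)
    refine (measure_mono hsub).trans ((measure_union_le _ _).trans
      ((add_le_add ((measure_union_le _ _).trans h1) h2).trans ?_))
    rw [← ENNReal.ofReal_add (by positivity) (by positivity)]
  have hsup : SS d c₀ (s / 2) (K₂ / Pd d c₀ k) ≤
      ENNReal.ofReal (1 / 2 * S + 16 * Γ * X0 d L (Pd d c₀ k) ^ 2) := by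
    unfold SS
    refine iSup_le fun u => iSup_le fun T => iSup_le fun γ => iSup_le fun hh => ?_
    exact hone u T γ hh.1 hh.2.1 hh.2.2
  have hfin : S ≤ 1 / 2 * S + 16 * Γ * X0 d L (Pd d c₀ k) ^ 2 := by
    have h1 := ENNReal.toReal_mono ENNReal.ofReal_ne_top hsup
    rw [ENNReal.toReal_ofReal (by positivity)] at h1
    rw [hS]
    rw [hS] at h1
    exact h1
  rw [← hS, mul_assoc, ← X0_sq hL hP0]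
  linarith

/-- the remainder is small -/
theorem rem_final {d : ℕ} (hd : 2 ≤ d) {C₁ lam : ℝ} {c₀ : ℂ} (h : CEp d C₁ lam c₀) {b₀ ε₁ : ℝ}
    (hb₀0 : 0 < b₀) (hb₀1 : b₀ ≤ 1) (hε₁ : 0 < ε₁) (hε₁1 : ε₁ ≤ 1) (hbi : BIs d b₀ ε₁ c₀)
    {K₂ : ℝ} (hK₂ : 0 < K₂) {ε : ℝ} (hε : 0 < ε) :
    ∃ (δ : ℝ) (N : ℕ) (L Γ cρ s₀ P₀ : ℝ), 0 < δ ∧ 0 < L ∧ 1 ≤ Γ ∧ 0 < cρ ∧ 0 < s₀ ∧ 0 < P₀ ∧
      ∀ (s : ℝ) (k : ℕ), 0 < s → s ≤ s₀ → s * Am d c₀ k ≤ b₀ → P₀ ≤ Pd d c₀ k →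
      ∀ (u : ℂ) (T : ℝ) (γ : ℂ → ℂ), 0 < T → T ≤ 1 → Cv c₀ (s / 2) (K₂ / Pd d c₀ k) u T γ →
      volume ((BB d γ ∩ ball u (T / 2)) \ CE d δ N γ u T (X0 d L (Pd d c₀ k))) ≤
        ENNReal.ofReal (ε * X0 d 1 (Pd d c₀ k) ^ 2) ∧
      ∀ n < N, ∀ w, EN d δ γ u T n w → 1 ≤ 2 * √Γ * ‖DD d γ n w‖ ∧ ∀ ρ : ℝ, 0 < ρ → ρ ≤ T / 2 →
        ‖DD d γ n w‖ * ρ ≤ cρ → ∀ w' ∈ ball w ρ,
          ‖deriv (GG d γ n) w' - DD d γ n w‖ ≤ 1 / 16 * ‖DD d γ n w‖ := by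
  obtain ⟨C₀, s₁, P₁, hC₀, hs₁, hP₁, H⟩ := rem_S hd h hb₀0 hb₀1 hε₁ hε₁1 hbi hK₂
  obtain ⟨δ, N, L, Γ, cρ, s₀, P₀, R⟩ := rem_core hd h hb₀0 hb₀1 hε₁ hε₁1 hbi hK₂
    (ε₀ := min 1 (ε / C₀)) (lt_min one_pos (by positivity)) (min_le_left _ _)
  refine ⟨δ, N, L, Γ, cρ, min s₀ s₁, max P₀ P₁, R.δ0, R.L0, R.Γ1, R.cρ0, lt_min R.s0 hs₁,
    lt_max_of_lt_left R.P0, ?_⟩
  intro s k hs hss hk hPk u T γ hT hT1 hCv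
  obtain ⟨h1, h2, h3⟩ := R.main s k hs (hss.trans (min_le_left _ _)) hk
    ((le_max_left _ _).trans hPk) u T γ hT hT1 hCv
  have h4 := H s k hs (hss.trans (min_le_right _ _)) hk ((le_max_right _ _).trans hPk)
  have hP0 := h.Pd_pos k
  have hX := X0_pos d R.L0 hP0
  refine ⟨?_, h3⟩
  have hsub : (BB d γ ∩ ball u (T / 2)) \ CE d δ N γ u T (X0 d L (Pd d c₀ k)) ⊆
      EA d δ N γ u T ∪ {w | ∃ n < N, EN d δ γ u T n w ∧ X0 d L (Pd d c₀ k) ≤ ‖GG d γ n w‖} := by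
    rintro w ⟨hw, hwC⟩
    rcases split_E d δ N γ u T (X0 d L (Pd d c₀ k) ^ (d - 1)) hw with h5 | h5 | h5
    · exact Or.inl h5
    · exfalso
      obtain ⟨n, hn, h6, h7⟩ := h5
      exact hwC ⟨n, hn, h6, lt_of_pow_lt_pow_left₀ _ hX.le h7⟩
    · obtain ⟨n, hn, h6, h7⟩ := h5
      exact Or.inr ⟨n, hn, h6, le_of_pow_le_pow_left₀ (by omega) (norm_nonneg _) h7⟩
  refine (measure_mono hsub).trans ((measure_union_le _ _).trans (h1.trans ?_))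
  apply ENNReal.ofReal_le_ofReal
  have hS0 : 0 ≤ sS d c₀ (s / 2) (K₂ / Pd d c₀ k) := sS_nonneg _ _ _ _
  calc min 1 (ε / C₀) * sS d c₀ (s / 2) (K₂ / Pd d c₀ k)
      ≤ ε / C₀ * (C₀ * X0 d 1 (Pd d c₀ k) ^ 2) := by
        gcongr
        exact min_le_right _ _
    _ = ε * X0 d 1 (Pd d c₀ k) ^ 2 := by field_simp

end Pool.Agent.H206.Rem
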