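import Pool.Agent.H206.RemB
import Pool.Graph.R_seed8.H713R2.Area

set_option autoImplicit false

/-! # Maps with small distortion: inverse, zeros, areas -/

open Set Filter Metric MeasureTheory Topology

namespace Pool.Agent.H206.Rem

/-- two-sided estimates for a map with almost constant derivative -/
theorem aff_est {G : ℂ → ℂ} {w D : ℂ} {ρ : ℝ} (hG : DifferentiableOn ℂ G (ball w ρ))
    (hdist : ∀ w' ∈ ball w ρ, ‖deriv G w' - D‖ ≤ 1 / 16 * ‖D‖) :
    ∀ x ∈ ball w ρ, ∀ y ∈ ball w ρ, 15 / 16 * ‖D‖ * ‖y - x‖ ≤ ‖G y - G x‖ ∧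
      ‖G y - G x‖ ≤ 17 / 16 * ‖D‖ * ‖y - x‖ := by
  have hGa : ∀ x ∈ ball w ρ, DifferentiableAt ℂ G x := fun x hx =>
    hG.differentiableAt (isOpen_ball.mem_nhds hx)
  intro x hx y hy
  have h2 : ‖(G y - G x) - D * (y - x)‖ ≤ 1 / 16 * ‖D‖ * ‖y - x‖ := by
    have hb : ∀ z ∈ ball w ρ, ‖deriv (fun z => G z - D * z) z‖ ≤ 1 / 16 * ‖D‖ := by
      intro z hz
      have h1 : HasDerivAt (fun z => G z - D * z) (deriv G z - D * 1) z :=
        (hGa z hz).hasDerivAt.sub ((hasDerivAt_id z).const_mul D)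
      rw [h1.deriv, mul_one]
      exact hdist z hz
    have h := Convex.norm_image_sub_le_of_norm_deriv_le (f := fun z => G z - D * z)
      (C := 1 / 16 * ‖D‖) (s := ball w ρ)
      (fun z hz => (hGa z hz).sub (differentiableAt_id.const_mul D)) hb (convex_ball w ρ) hx hy
    have e : (G y - G x) - D * (y - x) = (G y - D * y) - (G x - D * x) := by ring
    rw [e]
    exact h
  constructor
  · have h3 : ‖D * (y - x)‖ ≤ ‖G y - G x‖ + ‖(G y - G x) - D * (y - x)‖ := by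
      have := norm_sub_le (G y - G x) ((G y - G x) - D * (y - x))
      rwa [sub_sub_cancel] at this
    rw [norm_mul] at h3
    linarith
  · have h3 : ‖G y - G x‖ ≤ ‖(G y - G x) - D * (y - x)‖ + ‖D * (y - x)‖ := by
      have := norm_add_le ((G y - G x) - D * (y - x)) (D * (y - x))
      rwa [sub_add_cancel] at this
    rw [norm_mul] at h3
    linarith

theorem aff_der {G : ℂ → ℂ} {w D : ℂ} {ρ : ℝ}
    (hdist : ∀ w' ∈ ball w ρ, ‖deriv G w' - D‖ ≤ 1 / 16 * ‖D‖) :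
    ∀ x ∈ ball w ρ, 15 / 16 * ‖D‖ ≤ ‖deriv G x‖ ∧ ‖deriv G x‖ ≤ 17 / 16 * ‖D‖ := by
  intro x hx
  have h := hdist x hx
  constructor
  · have h3 : ‖D‖ ≤ ‖deriv G x‖ + ‖deriv G x - D‖ := by
      have := norm_sub_le (deriv G x) (deriv G x - D)
      rwa [sub_sub_cancel] at this
    linarith
  · have h3 : ‖deriv G x‖ ≤ ‖deriv G x - D‖ + ‖D‖ := by
      have := norm_add_le (deriv G x - D) D
      rwa [sub_add_cancel] at this
    linarith

theorem aff_inj {G : ℂ → ℂ} {w D : ℂ} {ρ : ℝ} (hG : DifferentiableOn ℂ G (ball w ρ)) (hD : D ≠ 0)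
    (hdist : ∀ w' ∈ ball w ρ, ‖deriv G w' - D‖ ≤ 1 / 16 * ‖D‖) : InjOn G (ball w ρ) := by
  have hD0 : 0 < ‖D‖ := norm_pos_iff.2 hD
  intro x hx y hy h
  have h3 := (aff_est hG hdist x hx y hy).1
  rw [h, sub_self, norm_zero] at h3
  have h4 : ‖y - x‖ ≤ 0 := by
    by_contra hcon
    push Not at hcon
    have : 0 < 15 / 16 * ‖D‖ * ‖y - x‖ := by positivity
    linarith
  have h5 : y - x = 0 := norm_le_zero_iff.1 h4
  exact (sub_eq_zero.1 h5).symm

/-- the image contains a ball -/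
theorem aff_surj {G : ℂ → ℂ} {w D : ℂ} {ρ : ℝ} (hρ : 0 < ρ) (hG : DifferentiableOn ℂ G (ball w ρ))
    (hD : D ≠ 0) (hdist : ∀ w' ∈ ball w ρ, ‖deriv G w' - D‖ ≤ 1 / 16 * ‖D‖) {t : ℝ} (ht0 : 0 < t)
    (ht : t < ρ) : ball (G w) (15 / 32 * ‖D‖ * t) ⊆ G '' closedBall w t := by
  have hD0 : 0 < ‖D‖ := norm_pos_iff.2 hD
  have hcl : closedBall w t ⊆ ball w ρ := closedBall_subset_ball ht
  have hwU : w ∈ ball w ρ := mem_ball_self hρ
  have h := DiffContOnCl.ball_subset_image_closedBall (f := G) (z₀ := w) (r := t)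
    (ε := 15 / 16 * ‖D‖ * t)
    (DifferentiableOn.diffContOnCl (hG.mono (closure_ball_subset_closedBall.trans hcl)))
    ht0 ?_ ?_
  · have e : 15 / 16 * ‖D‖ * t / 2 = 15 / 32 * ‖D‖ * t := by ring
    rwa [e] at h
  · intro z hz
    have hzU : z ∈ ball w ρ := hcl (sphere_subset_closedBall hz)
    have h3 := (aff_est hG hdist w hwU z hzU).1
    rwa [mem_sphere_iff_norm.1 hz] at h3
  · have h3 : ∀ᶠ z in 𝓝[≠] w, G z ≠ G w := by
      filter_upwards [self_mem_nhdsWithin, nhdsWithin_le_nhds (isOpen_ball.mem_nhds hwU)] with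
        z hz1 hz2 h
      exact hz1 (aff_inj hG hD hdist hz2 hwU h)
    exact h3.frequently.filter_mono nhdsWithin_le_nhds

/-- a zero close to a point with a small value -/
theorem aff_zero {G : ℂ → ℂ} {w D : ℂ} {ρ : ℝ} (hρ : 0 < ρ) (hG : DifferentiableOn ℂ G (ball w ρ))
    (hD : D ≠ 0) (hdist : ∀ w' ∈ ball w ρ, ‖deriv G w' - D‖ ≤ 1 / 16 * ‖D‖)
    (hs : 4 * ‖G w‖ < ‖D‖ * ρ) : ∃ z, ‖z - w‖ ≤ 2 * ‖G w‖ / ‖D‖ ∧ z ∈ ball w ρ ∧ G z = 0 := by
  have hD0 : 0 < ‖D‖ := norm_pos_iff.2 hD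
  obtain ⟨t, ht1, ht2⟩ : ∃ t, 4 * ‖G w‖ < ‖D‖ * t ∧ t < ρ := by
    obtain ⟨t, ht1, ht2⟩ := exists_between (show 4 * ‖G w‖ / ‖D‖ < ρ by
      rw [div_lt_iff₀ hD0]; linarith)
    rw [div_lt_iff₀ hD0] at ht1
    exact ⟨t, by linarith, ht2⟩
  have ht0 : 0 < t := by
    have : 0 ≤ ‖G w‖ := norm_nonneg _
    by_contra hcon
    push Not at hcon
    have : ‖D‖ * t ≤ 0 := mul_nonpos_of_nonneg_of_nonpos hD0.le hcon
    linarith
  have h0 : (0 : ℂ) ∈ ball (G w) (15 / 32 * ‖D‖ * t) := by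
    rw [mem_ball, dist_eq_norm, zero_sub, norm_neg]
    have h1 : 0 < ‖D‖ * t := by positivity
    linarith
  obtain ⟨z, hz, hz0⟩ := aff_surj hρ hG hD hdist ht0 ht2 h0
  have hzU : z ∈ ball w ρ := closedBall_subset_ball ht2 hz
  refine ⟨z, ?_, hzU, hz0⟩
  have h3 := (aff_est hG hdist w (mem_ball_self hρ) z hzU).1
  rw [hz0, zero_sub, norm_neg] at h3
  rw [le_div_iff₀ hD0]
  have : 0 ≤ ‖z - w‖ * ‖D‖ := by positivity
  linarith

/-- **The inverse.** -/
theorem aff_inv {G : ℂ → ℂ} {w D : ℂ} {ρ : ℝ} (hρ : 0 < ρ) (hG : DifferentiableOn ℂ G (ball w ρ))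
    (hD : D ≠ 0) (hdist : ∀ w' ∈ ball w ρ, ‖deriv G w' - D‖ ≤ 1 / 16 * ‖D‖) :
    ∃ g : ℂ → ℂ, DifferentiableOn ℂ g (ball (G w) (3 / 8 * ‖D‖ * ρ)) ∧
      (∀ z ∈ ball (G w) (3 / 8 * ‖D‖ * ρ), g z ∈ ball w ρ ∧ G (g z) = z ∧
        ‖deriv g z‖ ≤ 16 / 15 / ‖D‖) ∧
      ∀ x ∈ ball w ρ, G x ∈ ball (G w) (3 / 8 * ‖D‖ * ρ) → g (G x) = x := by
  have hD0 : 0 < ‖D‖ := norm_pos_iff.2 hD
  have hGa : ∀ x ∈ ball w ρ, DifferentiableAt ℂ G x := fun x hx =>
    hG.differentiableAt (isOpen_ball.mem_nhds hx)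
  have hinj := aff_inj hG hD hdist
  have hest := aff_est hG hdist
  have hder := aff_der hdist
  have hsurj : ball (G w) (3 / 8 * ‖D‖ * ρ) ⊆ G '' ball w ρ := by
    have h := aff_surj hρ hG hD hdist (t := 4 / 5 * ρ) (by positivity) (by linarith)
    have e : 15 / 32 * ‖D‖ * (4 / 5 * ρ) = 3 / 8 * ‖D‖ * ρ := by ring
    rw [e] at h
    exact h.trans (image_mono (closedBall_subset_ball (by linarith)))
  set T' : ℝ := 3 / 8 * ‖D‖ * ρ with hT'
  set g : ℂ → ℂ := Function.invFunOn G (ball w ρ) with hgd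
  have hg : ∀ z ∈ ball (G w) T', g z ∈ ball w ρ ∧ G (g z) = z := by
    intro z hz
    obtain ⟨x, hx, hxz⟩ := hsurj hz
    exact ⟨Function.invFunOn_mem ⟨x, hx, hxz⟩, Function.invFunOn_eq ⟨x, hx, hxz⟩⟩
  have hcont : ∀ z ∈ ball (G w) T', ContinuousAt g z := by
    have hL : LipschitzOnWith (Real.toNNReal (16 / (15 * ‖D‖))) g (ball (G w) T') := by
      refine LipschitzOnWith.of_dist_le_mul fun x hx y hy => ?_
      rw [Real.coe_toNNReal _ (by positivity), dist_eq_norm, dist_eq_norm]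
      have h3 := (hest (g y) (hg y hy).1 (g x) (hg x hx).1).1
      rw [(hg x hx).2, (hg y hy).2] at h3
      rw [div_mul_eq_mul_div, le_div_iff₀ (by positivity)]
      linarith
    exact fun z hz => hL.continuousOn.continuousAt (isOpen_ball.mem_nhds hz)
  have hgder : ∀ z ∈ ball (G w) T', HasDerivAt g (deriv G (g z))⁻¹ z := by
    intro z hz
    refine HasDerivAt.of_local_left_inverse (hcont z hz) (hGa _ (hg z hz).1).hasDerivAt ?_ ?_
    · intro h
      have h3 := (hder _ (hg z hz).1).1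
      rw [h, norm_zero] at h3
      have : 0 < 15 / 16 * ‖D‖ := by positivity
      linarith
    · filter_upwards [isOpen_ball.mem_nhds hz] with y hy using (hg y hy).2
  refine ⟨g, fun z hz => (hgder z hz).differentiableAt.differentiableWithinAt,
    fun z hz => ⟨(hg z hz).1, (hg z hz).2, ?_⟩, fun x hx hGx => ?_⟩
  · rw [(hgder z hz).deriv, norm_inv]
    have h3 := (hder _ (hg z hz).1).1
    have h4 : 0 < 15 / 16 * ‖D‖ := by positivity
    calc ‖deriv G (g z)‖⁻¹ ≤ (15 / 16 * ‖D‖)⁻¹ := inv_anti₀ h4 h3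
      _ = _ := by field_simp
  · exact hinj (hg _ hGx).1 hx (hg _ hGx).2

/-- the area of the preimage of a set -/
theorem vol_pull {F : ℂ → ℂ} (hF : Differentiable ℂ F) {B : Set ℂ} (hB : MeasurableSet B)
    (hinj : InjOn F B) {q : ℝ} (hq : 0 < q) (hder : ∀ x ∈ B, q ≤ ‖deriv F x‖) (E : Set ℂ) :
    volume (B ∩ F ⁻¹' E) ≤ ENNReal.ofReal (1 / q ^ 2) * volume E := by
  obtain ⟨E', hE'⟩ : ∃ E', E' = toMeasurable volume E := ⟨_, rfl⟩
  have hE'm : MeasurableSet E' := by rw [hE']; exact measurableSet_toMeasurable _ _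
  have hEE' : E ⊆ E' := by rw [hE']; exact subset_toMeasurable _ _
  have hvE : volume E' = volume E := by rw [hE']; exact measure_toMeasurable _
  obtain ⟨A, hA⟩ : ∃ A, A = B ∩ F ⁻¹' E' := ⟨_, rfl⟩
  have hAm : MeasurableSet A := by
    rw [hA]
    exact hB.inter (hF.continuous.measurable hE'm)
  have hAB : A ⊆ B := by rw [hA]; exact inter_subset_left
  have h3 := lintegral_abs_det_fderiv_eq_addHaar_image (volume : Measure ℂ) hAm (f := F)
    (f' := fun z => (ContinuousLinearMap.toSpanSingleton ℂ (deriv F z)).restrictScalars ℝ)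
    (fun z _ => ((hF z).hasDerivAt.hasFDerivAt.restrictScalars ℝ).hasFDerivWithinAt)
    (hinj.mono hAB)
  have h4 : ENNReal.ofReal (q ^ 2) * volume A ≤ volume E := by
    calc ENNReal.ofReal (q ^ 2) * volume A
        = ∫⁻ x in A, ENNReal.ofReal (q ^ 2) := (setLIntegral_const _ _).symm
      _ ≤ ∫⁻ x in A, ENNReal.ofReal |((ContinuousLinearMap.toSpanSingleton ℂ
            (deriv F x)).restrictScalars ℝ).det| := by
          refine setLIntegral_mono' hAm fun x hx => ENNReal.ofReal_le_ofReal ?_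
          rw [Pool.Agent.H713R2.det_mul_real, abs_of_nonneg (by positivity)]
          have h5 := hder x (hAB hx)
          gcongr
      _ = volume (F '' A) := h3
      _ ≤ volume E' := by
          apply measure_mono
          rintro _ ⟨x, hx, rfl⟩
          rw [hA] at hx
          exact hx.2
      _ = volume E := hvE
  have h5 : volume A = ENNReal.ofReal (1 / q ^ 2) * (ENNReal.ofReal (q ^ 2) * volume A) := by
    rw [← mul_assoc, ← ENNReal.ofReal_mul (by positivity)]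
    have e : 1 / q ^ 2 * q ^ 2 = 1 := by field_simp
    rw [e, ENNReal.ofReal_one, one_mul]
  calc volume (B ∩ F ⁻¹' E) ≤ volume A := by
        rw [hA]
        exact measure_mono (inter_subset_inter_right _ (preimage_mono hEE'))
    _ = ENNReal.ofReal (1 / q ^ 2) * (ENNReal.ofReal (q ^ 2) * volume A) := h5
    _ ≤ _ := by gcongr

end Pool.Agent.H206.Rem
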