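import Pool.Agent.H206.RemG
import Pool.Agent.H206.RemH
import Pool.Graph.R_seed8.Y298.CA.Par
import Pool.Graph.R_seed8.Y925.CA.Br

set_option autoImplicit false

/-! # The curve of parameters at a scale -/

open Set Filter Metric MeasureTheory Topology

namespace Pool.Agent.H206.Rem

open Pool.Agent.TH279.MD Pool.Agent.Y298.SH Pool.Agent.Y298.SH.CD Pool.Agent.Y298.CA

/-- the `k`-th iterate on the disc of centre `c₀` and radius `8 r`, and its inverse `g` -/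
structure PCv (d : ℕ) (c₀ : ℂ) (κg Ca μ r : ℝ) (k : ℕ) (D : ℂ) (g : ℂ → ℂ) : Prop where
  D0 : D ≠ 0
  lo : κg * Pd d c₀ k ≤ ‖D‖
  hi : ‖D‖ ≤ 2 * Ca * Pd d c₀ k
  dst : ∀ w ∈ ball c₀ (8 * r), ‖deriv (GG d id k) w - D‖ ≤ 1 / 16 * ‖D‖
  T1 : 3 * ‖D‖ * r ≤ 1
  cv : Cv c₀ (8 * r / μ / 2) (16 / (15 * κg) / Pd d c₀ k) (zz d c₀ k) (3 * ‖D‖ * r) g
  inv : ∀ w ∈ ball (zz d c₀ k) (3 * ‖D‖ * r), g w ∈ ball c₀ (8 * r) ∧ GG d id k (g w) = w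
  inv' : ∀ x ∈ ball c₀ (8 * r), GG d id k x ∈ ball (zz d c₀ k) (3 * ‖D‖ * r) →
    g (GG d id k x) = x

theorem GG_id_diff {d : ℕ} (hd : 2 ≤ d) (k : ℕ) : Differentiable ℂ (GG d id k) := by
  intro c
  have h1 := (Pool.Agent.H713R2.differentiable_P d (k + 1)) c
  rw [P_succ_eq hd] at h1
  exact h1

theorem par_curve {d : ℕ} {C₁ lam : ℝ} {c₀ : ℂ} (h : CEp d C₁ lam c₀) {Ca b₀ : ℝ} (hCa : 1 ≤ Ca)
    (hb1 : b₀ ≤ 1) (hpass : ∀ (c : ℂ) (s : ℝ) (k : ℕ), 0 < s → ‖c - c₀‖ ≤ s →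
      s * Am d c₀ k ≤ b₀ → ∀ x ∈ ball c s, ∀ j ≤ k,
      ‖(f d c)^[j] x - zz d c₀ j‖ ≤ Ca * s * Pd d c₀ j ∧
      Pd d c₀ j / 2 ≤ ‖deriv ((f d c)^[j]) x‖ ∧
      ‖deriv ((f d c)^[j]) x‖ ≤ 2 * Pd d c₀ j ∧
      (j < k → ‖(f d c)^[j] x - zz d c₀ j‖ ≤ 1 / 4 * ‖zz d c₀ j‖)) :
    ∃ (κg μ : ℝ) (J : ℕ), 0 < κg ∧ 0 < μ ∧ μ ≤ 1 / 4 ∧ ∀ (r : ℝ) (k : ℕ), 0 < r → J ≤ k →
      8 * r / μ ≤ 1 → 8 * r / μ * Am d c₀ k ≤ b₀ → ∃ D g, PCv d c₀ κg Ca μ r k D g := by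
  have hd := h.hd
  have hdR : (2 : ℝ) ≤ d := by exact_mod_cast hd
  obtain ⟨κg, εg, J, hκg, hεg, hgrow⟩ := h.grow
  have hCa0 : 0 < Ca := by linarith
  obtain ⟨μ, hμ⟩ : ∃ μ : ℝ, μ = min (1 / 4) (min (κg / (256 * Ca)) (1 / (8 * d * Ca))) := ⟨_, rfl⟩
  have hμ0 : 0 < μ := by rw [hμ]; exact lt_min (by norm_num) (lt_min (by positivity) (by positivity))
  have hμ1 : μ ≤ 1 / 4 := by rw [hμ]; exact min_le_left _ _
  have hμ2 : 256 * Ca * μ ≤ κg := by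
    have h1 : μ ≤ κg / (256 * Ca) := by rw [hμ]; exact (min_le_right _ _).trans (min_le_left _ _)
    rw [le_div_iff₀ (by positivity)] at h1
    linarith
  have hμ3 : 8 * d * Ca * μ ≤ 1 := by
    have h1 : μ ≤ 1 / (8 * d * Ca) := by
      rw [hμ]; exact (min_le_right _ _).trans (min_le_right _ _)
    rw [le_div_iff₀ (by positivity)] at h1
    linarith
  refine ⟨κg, μ, J, hκg, hμ0, hμ1, ?_⟩
  intro r k hr hJk hs1 hsA
  obtain ⟨s, hs⟩ : ∃ s : ℝ, s = 8 * r / μ := ⟨_, rfl⟩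
  rw [← hs] at hs1 hsA
  have hrs : 8 * r = μ * s := by rw [hs]; field_simp
  have hs0 : 0 < s := by rw [hs]; positivity
  have hP0 := h.Pd_pos k
  have hg := hgrow c₀ h c₀ (by simpa using hεg.le) k hJk (fun j _ => by
    have h1 : Pd d c₀ j = ‖deriv ((f d c₀)^[j]) c₀‖ := rfl
    have h2 := h.Pd_pos j
    rw [← h1]
    linarith)
  rw [P_succ_eq hd] at hg
  have hΦ : GG d id k = fun c => (f d c)^[k] c := rfl
  rw [← hΦ] at hg
  have hΦd := GG_id_diff hd k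
  have hF0 : GG d id k c₀ = zz d c₀ k := rfl
  obtain ⟨P, hP⟩ : ∃ P, P = Pd d c₀ k := ⟨_, rfl⟩
  rw [← hP] at hg hP0
  obtain ⟨D, hD⟩ : ∃ D, D = deriv (GG d id k) c₀ := ⟨_, rfl⟩
  rw [← hD] at hg
  have hD0 : 0 < ‖D‖ := lt_of_lt_of_le (by positivity) hg
  have hbd : ∀ v ∈ ball c₀ s, ‖GG d id k v - zz d c₀ k‖ ≤ Ca * s * P := by
    intro v hv
    rw [mem_ball, dist_eq_norm] at hv
    rw [hP]
    exact (hpass v s k hs0 hv.le hsA v (mem_ball_self hs0) k le_rfl).1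
  have hDle : ‖D‖ ≤ 2 * Ca * P := by
    have h2 := Complex.norm_deriv_le_of_forall_mem_sphere_norm_le (c := c₀) (R := s / 2)
      (C := Ca * s * P) (f := fun x => GG d id k x - zz d c₀ k) (by positivity)
      (hΦd.sub_const _).diffContOnCl (fun x hx => by
        apply hbd
        rw [mem_sphere] at hx
        rw [mem_ball]
        linarith)
    rw [deriv_sub_const] at h2
    calc ‖D‖ = ‖deriv (GG d id k) c₀‖ := by rw [hD]
      _ ≤ Ca * s * P / (s / 2) := h2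
      _ = _ := by field_simp
  have hvar : ∀ w' ∈ ball c₀ (8 * r), ‖deriv (GG d id k) w' - D‖ ≤ 1 / 16 * ‖D‖ := by
    intro w' hw'
    rw [hrs, mem_ball, dist_eq_norm] at hw'
    have h1 : μ * s ≤ s / 4 := by nlinarith
    have h2 := Pool.Agent.Y925.CA.Br.cauchy2 hΦd (y := c₀) (w := zz d c₀ k) (R := Ca * s * P)
      (ρ := s) (by positivity) hs0 hbd (y' := w') (by linarith)
    rw [← hD] at h2
    calc ‖deriv (GG d id k) w' - D‖ ≤ 16 * (Ca * s * P) / s ^ 2 * ‖w' - c₀‖ := h2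
      _ ≤ 16 * (Ca * s * P) / s ^ 2 * (μ * s) := by gcongr
      _ = (256 * Ca * μ) / 16 * P := by
          field_simp
          ring
      _ ≤ κg / 16 * P := by gcongr
      _ = 1 / 16 * (κg * P) := by ring
      _ ≤ _ := by gcongr
  have hsP : s * P ≤ 4 * d := by
    rw [hP]
    exact sP_le h hs0 hs1 (hsA.trans hb1)
  have hT1 : 3 * ‖D‖ * r ≤ 1 := by
    calc 3 * ‖D‖ * r = 3 / 8 * ‖D‖ * (8 * r) := by ring
      _ = 3 / 8 * ‖D‖ * (μ * s) := by rw [hrs]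
      _ ≤ 3 / 8 * (2 * Ca * P) * (μ * s) := by gcongr
      _ = 3 / 4 * Ca * μ * (s * P) := by ring
      _ ≤ 3 / 4 * Ca * μ * (4 * d) := by gcongr
      _ = 3 / 8 * (8 * d * Ca * μ) := by ring
      _ ≤ 3 / 8 * 1 := by gcongr
      _ ≤ 1 := by norm_num
  obtain ⟨g, hg1, hg2, hg3⟩ := aff_inv (G := GG d id k) (w := c₀) (D := D) (ρ := 8 * r)
    (by positivity) hΦd.differentiableOn (norm_pos_iff.1 hD0) hvar
  have eT : 3 / 8 * ‖D‖ * (8 * r) = 3 * ‖D‖ * r := by ring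
  rw [eT, hF0] at hg1 hg2 hg3
  refine ⟨D, g, ⟨norm_pos_iff.1 hD0, by rw [← hP]; exact hg, by rw [← hP]; exact hDle, hvar, hT1,
    ⟨hg1, fun w hw => ?_, fun w hw => ?_⟩, fun w hw => ⟨(hg2 w hw).1, (hg2 w hw).2.1⟩, hg3⟩⟩
  · have h1 := (hg2 w hw).1
    rw [mem_ball, dist_eq_norm] at h1
    rw [← hs]
    have h2 : μ * s ≤ s / 4 := by nlinarith
    rw [hrs] at h1
    linarith
  · refine (hg2 w hw).2.2.trans ?_
    rw [← hP]
    calc 16 / 15 / ‖D‖ ≤ 16 / 15 / (κg * P) := by gcongr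
      _ = _ := by field_simp

variable {d : ℕ} {c₀ : ℂ} {κg Ca μ r : ℝ} {k : ℕ} {D : ℂ} {g : ℂ → ℂ}

/-- the image of the disc of radius `r` -/
theorem PCv.img (hd : 2 ≤ d) (X : PCv d c₀ κg Ca μ r k D g) (hr : 0 < r) {x : ℂ}
    (hx : x ∈ closedBall c₀ r) : GG d id k x ∈ ball (zz d c₀ k) (3 * ‖D‖ * r / 2) := by
  have hD0 : 0 < ‖D‖ := norm_pos_iff.2 X.D0
  have h1 := (aff_est (GG_id_diff hd k).differentiableOn X.dst c₀ (mem_ball_self (by positivity))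
    x (closedBall_subset_ball (by linarith) hx)).2
  have hF0 : GG d id k c₀ = zz d c₀ k := rfl
  rw [hF0] at h1
  rw [mem_closedBall, dist_eq_norm] at hx
  rw [mem_ball, dist_eq_norm]
  calc ‖GG d id k x - zz d c₀ k‖ ≤ 17 / 16 * ‖D‖ * ‖x - c₀‖ := h1
    _ ≤ 17 / 16 * ‖D‖ * r := by gcongr
    _ = 17 / 16 * (‖D‖ * r) := by ring
    _ < 3 / 2 * (‖D‖ * r) := by
        have : 0 < ‖D‖ * r := by positivity
        linarith
    _ = _ := by ring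

/-- points of the connectedness locus -/
theorem PCv.mem_BB (hd : 2 ≤ d) (X : PCv d c₀ κg Ca μ r k D g) (hr : 0 < r) {x : ℂ}
    (hx : x ∈ closedBall c₀ r) (hxM : x ∈ N62a1eb23.multibrotSet d) :
    GG d id k x ∈ BB d g := by
  have hD0 : 0 < ‖D‖ := norm_pos_iff.2 X.D0
  have h1 := X.inv' x (closedBall_subset_ball (by linarith) hx)
    (ball_subset_ball (by have : 0 < ‖D‖ * r := by positivity
                          linarith) (X.img hd hr hx))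
  rw [multibrot_eq hd] at hxM
  intro n
  have h2 := hxM (n + k)
  have h3 : GG d g n (GG d id k x) = GG d id (n + k) x := by
    unfold GG
    rw [show g ((f d (id x))^[k] x) = x from h1, Function.iterate_add_apply]
    rfl
  rw [h3]
  exact h2

/-- zeros of the iterates along the curve are centres -/
theorem PCv.center (hd : 2 ≤ d) (X : PCv d c₀ κg Ca μ r k D g) {w : ℂ} {n : ℕ}
    (hw : w ∈ ball (zz d c₀ k) (3 * ‖D‖ * r)) (hz : GG d g n w = 0) :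
    Pool.Agent.H712R2.P d (k + 1 + n) (g w) = 0 := by
  have h1 := (X.inv w hw).2
  have e : k + 1 + n = (n + k) + 1 := by omega
  rw [e, P_succ_eq hd]
  change (f d (g w))^[n + k] (g w) = 0
  rw [Function.iterate_add_apply]
  have h2 : (f d (g w))^[k] (g w) = w := h1
  rw [h2]
  exact hz

/-- the curve is slow -/
theorem PCv.slow (X : PCv d c₀ κg Ca μ r k D g) {w w' : ℂ}
    (hw : w ∈ ball (zz d c₀ k) (3 * ‖D‖ * r)) (hw' : w' ∈ ball (zz d c₀ k) (3 * ‖D‖ * r)) :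
    ‖g w' - g w‖ ≤ 16 / (15 * κg) / Pd d c₀ k * ‖w' - w‖ :=
  Convex.norm_image_sub_le_of_norm_deriv_le (f := g) (C := 16 / (15 * κg) / Pd d c₀ k)
    (s := ball (zz d c₀ k) (3 * ‖D‖ * r))
    (fun z hz => X.cv.hol.differentiableAt (isOpen_ball.mem_nhds hz)) X.cv.slow
    (convex_ball _ _) hw hw'

/-- points with small values of the iterates along the curve are close to centres -/
theorem PCv.near_center (hd : 2 ≤ d) (X : PCv d c₀ κg Ca μ r k D g) (hr : 0 < r) (hκg : 0 < κg)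
    (hP0 : 0 < Pd d c₀ k) {w : ℂ} {n : ℕ} (hw : w ∈ ball (zz d c₀ k) (3 * ‖D‖ * r / 2))
    {D' : ℂ} {Γ X₀ cρ : ℝ} (hΓ : 1 ≤ Γ) (hcρ : 0 < cρ) (hD' : 1 ≤ 2 * √Γ * ‖D'‖)
    (hdist : ∀ ρ : ℝ, 0 < ρ → ρ ≤ 3 * ‖D‖ * r / 2 → ‖D'‖ * ρ ≤ cρ → ∀ w' ∈ ball w ρ,
      ‖deriv (GG d g n) w' - D'‖ ≤ 1 / 16 * ‖D'‖)
    (hG : DifferentiableOn ℂ (GG d g n) (ball (zz d c₀ k) (3 * ‖D‖ * r)))
    (hval : ‖GG d g n w‖ < X₀) (h1 : 16 * √Γ * X₀ ≤ 3 * ‖D‖ * r) (h2 : 4 * X₀ ≤ cρ) :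
    ∃ c' : ℂ, Pool.Agent.H712R2.P d (k + 1 + n) c' = 0 ∧
      ‖c' - g w‖ ≤ 4 * √Γ * X₀ * (16 / (15 * κg) / Pd d c₀ k) := by
  have hD0 : 0 < ‖D‖ := norm_pos_iff.2 X.D0
  have hsΓ : 1 ≤ √Γ := Real.one_le_sqrt.2 hΓ
  have hD'0 : 0 < ‖D'‖ := by
    by_contra hcon
    have : ‖D'‖ = 0 := le_antisymm (not_lt.1 hcon) (norm_nonneg _)
    rw [this] at hD'
    linarith
  have hX₀ : 0 < X₀ := lt_of_le_of_lt (norm_nonneg _) hval
  obtain ⟨ρ, hρ⟩ : ∃ ρ : ℝ, ρ = min (3 * ‖D‖ * r / 2) (cρ / ‖D'‖) := ⟨_, rfl⟩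
  have hρ0 : 0 < ρ := by rw [hρ]; exact lt_min (by positivity) (by positivity)
  have hρ1 : ρ ≤ 3 * ‖D‖ * r / 2 := by rw [hρ]; exact min_le_left _ _
  have hρ2 : ‖D'‖ * ρ ≤ cρ := by
    calc ‖D'‖ * ρ ≤ ‖D'‖ * (cρ / ‖D'‖) := by
          gcongr
          rw [hρ]; exact min_le_right _ _
      _ = cρ := by field_simp
  have hsub : ball w ρ ⊆ ball (zz d c₀ k) (3 * ‖D‖ * r) := by
    intro z hz
    rw [mem_ball] at hz hw ⊢
    calc dist z (zz d c₀ k) ≤ dist z w + dist w (zz d c₀ k) := dist_triangle _ _ _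
      _ < ρ + 3 * ‖D‖ * r / 2 := add_lt_add hz hw
      _ ≤ _ := by linarith
  have hlt : 4 * ‖GG d g n w‖ < ‖D'‖ * ρ := by
    have h3 : 4 * X₀ ≤ ‖D'‖ * ρ := by
      rw [hρ]
      rcases min_choice (3 * ‖D‖ * r / 2) (cρ / ‖D'‖) with h4 | h4
      · rw [h4]
        have h5 : 4 * X₀ * 1 ≤ 4 * X₀ * (2 * √Γ * ‖D'‖) := by gcongr
        calc 4 * X₀ = 4 * X₀ * 1 := by ring
          _ ≤ 4 * X₀ * (2 * √Γ * ‖D'‖) := h5
          _ = ‖D'‖ * (16 * √Γ * X₀ / 2) := by ring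
          _ ≤ ‖D'‖ * (3 * ‖D‖ * r / 2) := by gcongr
      · rw [h4]
        have h5 : ‖D'‖ * (cρ / ‖D'‖) = cρ := by field_simp
        rw [h5]
        exact h2
    linarith
  obtain ⟨z, hz1, hz2, hz3⟩ := aff_zero hρ0 (hG.mono hsub) (norm_pos_iff.1 hD'0)
    (hdist ρ hρ0 hρ1 hρ2) hlt
  refine ⟨g z, X.center hd (hsub hz2) hz3, ?_⟩
  refine (X.slow (hsub (mem_ball_self hρ0)) (hsub hz2)).trans ?_
  rw [mul_comm]
  gcongr
  refine hz1.trans ?_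
  rw [div_le_iff₀ hD'0]
  calc 2 * ‖GG d g n w‖ ≤ 2 * X₀ := by gcongr
    _ = 2 * X₀ * 1 := by ring
    _ ≤ 2 * X₀ * (2 * √Γ * ‖D'‖) := by gcongr
    _ = _ := by ring

end Pool.Agent.H206.Rem
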