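import Pool.Agent.H206.RemI
import Pool.Graph.R_seed8.Y274.CA.Tr
import Pool.Graph.R_seed8.Lev.J_schottky

set_option autoImplicit false

/-! # Preimages of the critical point near the orbit of the critical value -/

open Set Filter Metric MeasureTheory Topology

namespace Pool.Agent.H206.Rem

open Pool.Agent.TH279.MD Pool.Agent.Y298.SH Pool.Agent.Y298.SH.CD Pool.Agent.Y298.CA

variable {d : ℕ} {C₁ lam : ℝ} {c₀ : ℂ}

/-- preimages of the critical point are dense at the orbit of the critical value -/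
theorem zero_dense (h : CEp d C₁ lam c₀) (k : ℕ) {τ : ℝ} (hτ : 0 < τ) :
    ∃ (n : ℕ) (w : ℂ), ‖w - zz d c₀ k‖ < τ ∧ (f d c₀)^[n] w = 0 := by
  by_contra hcon
  push Not at hcon
  have hd := h.hd
  have hc0 : c₀ ≠ 0 := h.zz_ne 0
  obtain ⟨a, ha⟩ := IsAlgClosed.exists_pow_nat_eq (-c₀) (n := d) (by omega)
  have ha0 : a ≠ 0 := by
    rintro rfl
    rw [zero_pow (by omega)] at ha
    exact hc0 (neg_eq_zero.1 ha.symm)
  have han : 0 < ‖a‖ := norm_pos_iff.2 ha0
  obtain ⟨y, hy⟩ : ∃ y, y = zz d c₀ k := ⟨_, rfl⟩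
  rw [← hy] at hcon
  have hτC : (τ : ℂ) ≠ 0 := by exact_mod_cast hτ.ne'
  obtain ⟨B, hB⟩ : ∃ B : ℝ, B = Real.exp (Real.pi * Real.exp (Real.pi * ((4 / ‖a‖ + 1) + 386))) :=
    ⟨_, rfl⟩
  have hB0 : 0 < B := by rw [hB]; positivity
  have hval : ∀ n : ℕ, ‖(f d c₀)^[n] y‖ ≤ 2 := by
    intro n
    have h1 : (f d c₀)^[n] y = zz d c₀ (n + k) := by
      rw [hy]
      unfold zz
      rw [Function.iterate_add_apply]
    rw [h1]
    exact h.bd _
  have hbd : ∀ n : ℕ, ∀ w ∈ ball y (τ / 2), ‖(f d c₀)^[n] w‖ ≤ ‖a‖ * (B + 1) / 2 := by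
    intro n w hw
    have hin : ∀ t ∈ ball (0 : ℂ) 1, ‖(y + τ * t) - y‖ < τ := by
      intro t ht
      rw [mem_ball_zero_iff] at ht
      rw [add_sub_cancel_left, norm_mul, Complex.norm_real, Real.norm_eq_abs, abs_of_pos hτ]
      nlinarith
    have h1 := Pool.Agent.Lev.J_schottky.schottky_unif
      (f := fun t => 2 * ((f d c₀)^[n] (y + τ * t) / a) - 1)
      (by
        have h2 : Differentiable ℂ (fun t : ℂ => (f d c₀)^[n] (y + τ * t)) :=
          (differentiable_fn d c₀ n).comp (by fun_prop)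
        exact (((h2.div_const a).const_mul 2).sub_const 1).differentiableOn)
      (fun t ht h2 => by
        have h3 : (f d c₀)^[n] (y + τ * t) / a = 1 := by linear_combination h2 / 2
        rw [div_eq_one_iff_eq ha0] at h3
        refine hcon (n + 1) _ (hin t ht) ?_
        rw [Function.iterate_succ_apply', h3]
        unfold f
        rw [ha]
        ring)
      (fun t ht h2 => by
        have h3 : (f d c₀)^[n] (y + τ * t) / a = 0 := by linear_combination h2 / 2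
        rw [div_eq_zero_iff] at h3
        rcases h3 with h3 | h3
        · exact hcon n _ (hin t ht) h3
        · exact ha0 h3)
      (M := 4 / ‖a‖ + 1) (by
        simp only [mul_zero, add_zero]
        refine (norm_sub_le _ _).trans ?_
        rw [norm_mul, norm_div, norm_one, Complex.norm_ofNat]
        have h2 := hval n
        have h3 : 2 * (‖(f d c₀)^[n] y‖ / ‖a‖) ≤ 2 * (2 / ‖a‖) := by gcongr
        have h4 : 2 * (2 / ‖a‖) = 4 / ‖a‖ := by ring
        linarith) ((w - y) / τ) (by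
        rw [mem_ball_zero_iff, norm_div, Complex.norm_real, Real.norm_eq_abs, abs_of_pos hτ,
          div_lt_iff₀ hτ]
        rw [mem_ball, dist_eq_norm] at hw
        linarith)
    have h2 : y + τ * ((w - y) / τ) = w := by
      field_simp
      ring
    simp only [h2] at h1
    rw [← hB] at h1
    have h3 : ‖2 * ((f d c₀)^[n] w / a)‖ ≤ B + 1 := by
      have h4 := norm_add_le (2 * ((f d c₀)^[n] w / a) - 1) 1
      rw [sub_add_cancel, norm_one] at h4
      linarith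
    rw [norm_mul, norm_div, Complex.norm_ofNat] at h3
    have h5 : ‖(f d c₀)^[n] w‖ / ‖a‖ ≤ (B + 1) / 2 := by linarith
    rw [div_le_iff₀ han] at h5
    linarith
  have hder : ∀ n : ℕ, ‖deriv ((f d c₀)^[n]) y‖ ≤ ‖a‖ * (B + 1) / 2 / (τ / 4) := by
    intro n
    refine Complex.norm_deriv_le_of_forall_mem_sphere_norm_le (by positivity)
      (differentiable_fn d c₀ n).diffContOnCl fun z hz => hbd n z ?_
    rw [mem_sphere] at hz
    rw [mem_ball, hz]
    linarith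
  have hPk := h.Pd_pos k
  have hl := h.lam1
  have hC1 := h.C1
  obtain ⟨W, hW⟩ : ∃ W : ℝ, W = ‖a‖ * (B + 1) / 2 / (τ / 4) := ⟨_, rfl⟩
  have hW0 : 0 < W := by rw [hW]; positivity
  have hup : ∀ n : ℕ, lam ^ n ≤ C₁ * (W * Pd d c₀ k) := by
    intro n
    have h1 := h.exp (n + k)
    rw [Pd_add] at h1
    have h2 : lam ^ n ≤ lam ^ (n + k) := pow_le_pow_right₀ hl.le (by omega)
    refine h2.trans (h1.trans ?_)
    have h3 := hder n
    rw [hy, ← hW] at h3
    gcongr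
  obtain ⟨n, hn⟩ := pow_unbounded_of_one_lt (C₁ * (W * Pd d c₀ k)) hl
  exact absurd (hup n) (not_le.2 hn)

theorem cont_iter (d n : ℕ) : Continuous fun p : ℂ × ℂ => (f d p.1)^[n] p.2 := by
  induction n with
  | zero => exact continuous_snd
  | succ n ih =>
    have e : (fun p : ℂ × ℂ => (f d p.1)^[n + 1] p.2) =
        fun p => ((f d p.1)^[n] p.2) ^ d + p.1 := by
      funext p
      rw [Function.iterate_succ_apply']
      rfl
    rw [e]
    exact (ih.pow d).add continuous_fst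

/-- zeros persist along curves close to a constant -/
theorem zero_persist (h : CEp d C₁ lam c₀) {n : ℕ} {w₀ : ℂ} (hw₀ : (f d c₀)^[n] w₀ = 0) {ρ₀ : ℝ}
    (hρ₀ : 0 < ρ₀) : ∃ η : ℝ, 0 < η ∧ ∀ g : ℂ → ℂ, DifferentiableOn ℂ g (ball w₀ ρ₀) →
      (∀ w ∈ ball w₀ ρ₀, ‖g w - c₀‖ ≤ η) → ∃ w ∈ ball w₀ ρ₀, GG d g n w = 0 := by
  have hd := h.hd
  obtain ⟨F, hF⟩ : ∃ F : ℂ → ℂ, F = (f d c₀)^[n] := ⟨_, rfl⟩
  have hFd : Differentiable ℂ F := by rw [hF]; exact differentiable_fn d c₀ n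
  have hiso : ∀ᶠ z in 𝓝[≠] w₀, F z ≠ 0 := by
    rcases (hFd.analyticAt w₀).eventually_eq_zero_or_eventually_ne_zero with h1 | h1
    · exfalso
      have h2 := AnalyticOnNhd.eqOn_zero_of_preconnected_of_eventuallyEq_zero
        (U := univ) (fun z _ => hFd.analyticAt z) isPreconnected_univ (mem_univ w₀) h1
        (mem_univ c₀)
      refine h.zz_ne n ?_
      unfold zz
      rw [← hF]
      exact h2
    · exact h1
  rw [eventually_nhdsWithin_iff, Metric.eventually_nhds_iff_ball] at hiso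
  obtain ⟨ρ₁, hρ₁, H1⟩ := hiso
  obtain ⟨ρ, hρ⟩ : ∃ ρ : ℝ, ρ = min ρ₁ ρ₀ / 2 := ⟨_, rfl⟩
  have hρ0 : 0 < ρ := by rw [hρ]; positivity
  have hρρ₁ : ρ < ρ₁ := by
    have := min_le_left ρ₁ ρ₀
    rw [hρ]; linarith
  have hρρ₀ : ρ < ρ₀ := by
    have := min_le_right ρ₁ ρ₀
    rw [hρ]; linarith
  obtain ⟨z₁, hz₁, hmin⟩ := (isCompact_sphere w₀ ρ).exists_isMinOn
    (NormedSpace.sphere_nonempty.2 hρ0.le) (f := fun z => ‖F z‖) hFd.continuous.norm.continuousOn
  obtain ⟨e, he⟩ : ∃ e : ℝ, e = ‖F z₁‖ := ⟨_, rfl⟩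
  have he0 : 0 < e := by
    rw [he, norm_pos_iff]
    refine H1 z₁ ?_ ?_
    · rw [mem_sphere] at hz₁
      rw [mem_ball, hz₁]
      exact hρρ₁
    · rintro hh
      rw [mem_singleton_iff] at hh
      rw [hh, mem_sphere, dist_self] at hz₁
      linarith
  have hsph : ∀ z ∈ sphere w₀ ρ, e ≤ ‖F z‖ := fun z hz => by
    rw [he]
    exact hmin hz
  have hunif : ∀ᶠ c in 𝓝 c₀, ∀ z ∈ closedBall w₀ ρ, ‖(f d c)^[n] z - F z‖ < e / 8 := by
    refine (isCompact_closedBall w₀ ρ).eventually_forall_of_forall_eventually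
      (P := fun c z => ‖(f d c)^[n] z - F z‖ < e / 8) fun z _ => ?_
    have hc : Continuous fun p : ℂ × ℂ => ‖(f d p.1)^[n] p.2 - F p.2‖ :=
      ((cont_iter d n).sub (hFd.continuous.comp continuous_snd)).norm
    have h1 : Tendsto (fun p : ℂ × ℂ => ‖(f d p.1)^[n] p.2 - F p.2‖) (𝓝 (c₀, z))
        (𝓝 ‖(f d c₀)^[n] z - F z‖) := hc.tendsto (c₀, z)
    rw [hF, sub_self, norm_zero] at h1
    rw [hF]
    exact h1.eventually (gt_mem_nhds (by positivity))
  rw [Metric.eventually_nhds_iff] at hunif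
  obtain ⟨η₀, hη₀, H2⟩ := hunif
  refine ⟨η₀ / 2, by positivity, ?_⟩
  intro g hg hgc
  have hG := Pool.Agent.Y274.CA.gg_diff (d := d) hg n
  have hcl : ∀ z ∈ closedBall w₀ ρ, ‖GG d g n z - F z‖ < e / 8 := by
    intro z hz
    refine H2 (y := g z) ?_ z hz
    rw [dist_eq_norm]
    have h1 := hgc z (closedBall_subset_ball hρρ₀ hz)
    linarith
  have hFw : F w₀ = 0 := by rw [hF]; exact hw₀
  have h0 : ‖GG d g n w₀‖ < e / 8 := by
    have h1 := hcl w₀ (mem_closedBall_self hρ0.le)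
    rwa [hFw, sub_zero] at h1
  have hs : ∀ z ∈ sphere w₀ ρ, 3 / 4 * e ≤ ‖GG d g n z - GG d g n w₀‖ := by
    intro z hz
    have h1 := hsph z hz
    have h2 := hcl z (sphere_subset_closedBall hz)
    have h3 : ‖F z‖ ≤ ‖GG d g n z - F z‖ + ‖GG d g n z - GG d g n w₀‖ + ‖GG d g n w₀‖ := by
      have h4 : F z = -(GG d g n z - F z) + (GG d g n z - GG d g n w₀) + GG d g n w₀ := by ring
      calc ‖F z‖ = ‖-(GG d g n z - F z) + (GG d g n z - GG d g n w₀) + GG d g n w₀‖ := by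
            rw [← h4]
        _ ≤ ‖-(GG d g n z - F z) + (GG d g n z - GG d g n w₀)‖ + ‖GG d g n w₀‖ := norm_add_le _ _
        _ ≤ (‖-(GG d g n z - F z)‖ + ‖GG d g n z - GG d g n w₀‖) + ‖GG d g n w₀‖ := by
            gcongr
            exact norm_add_le _ _
        _ = _ := by rw [norm_neg]
    linarith
  have hsub : closedBall w₀ ρ ⊆ ball w₀ ρ₀ := closedBall_subset_ball hρρ₀
  have hfreq : ∃ᶠ z in 𝓝 w₀, GG d g n z ≠ GG d g n w₀ := by
    intro hcon
    have h1 : GG d g n =ᶠ[𝓝 w₀] fun _ => GG d g n w₀ := by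
      filter_upwards [hcon] with z hz
      exact not_not.1 hz
    have h2 := AnalyticOnNhd.eqOn_of_preconnected_of_eventuallyEq
      (hG.analyticOnNhd isOpen_ball) (analyticOnNhd_const (v := GG d g n w₀))
      (convex_ball w₀ ρ₀).isPreconnected (mem_ball_self hρ₀) h1
    obtain ⟨z, hz⟩ : (sphere w₀ ρ).Nonempty := NormedSpace.sphere_nonempty.2 hρ0.le
    have h3 := hs z hz
    rw [h2 (hsub (sphere_subset_closedBall hz)), sub_self, norm_zero] at h3
    linarith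
  have himg := DiffContOnCl.ball_subset_image_closedBall (f := GG d g n) (z₀ := w₀) (r := ρ)
    (ε := 3 / 4 * e) ((hG.mono (closure_ball_subset_closedBall.trans hsub)).diffContOnCl) hρ0 hs
    hfreq
  have h0m : (0 : ℂ) ∈ ball (GG d g n w₀) (3 / 4 * e / 2) := by
    rw [mem_ball, dist_comm, dist_zero_right]
    linarith
  obtain ⟨w, hw, hw0⟩ := himg h0m
  exact ⟨w, hsub hw, hw0⟩

/-- **Uniform density of the preimages along slow curves.** -/
theorem zero_unif (h : CEp d C₁ lam c₀) {τ : ℝ} (hτ : 0 < τ) :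
    ∃ (N₁ : ℕ) (η : ℝ), 0 < η ∧ ∀ (k : ℕ) (g : ℂ → ℂ),
      DifferentiableOn ℂ g (ball (zz d c₀ k) τ) → (∀ w ∈ ball (zz d c₀ k) τ, ‖g w - c₀‖ ≤ η) →
      ∃ n < N₁, ∃ w ∈ ball (zz d c₀ k) τ, GG d g n w = 0 := by
  have hK : TotallyBounded (range (zz d c₀)) := by
    refine TotallyBounded.subset ?_ (isCompact_closedBall (0 : ℂ) 2).totallyBounded
    rintro _ ⟨k, rfl⟩
    rw [mem_closedBall, dist_zero_right]
    exact h.bd k
  obtain ⟨t, ht1, ht2, ht3⟩ := finite_approx_of_totallyBounded hK (τ / 4) (by positivity)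
  have hloc : ∀ y ∈ t, ∃ (n : ℕ) (w₀ : ℂ) (η : ℝ), ‖w₀ - y‖ < τ / 4 ∧ 0 < η ∧
      ∀ g : ℂ → ℂ, DifferentiableOn ℂ g (ball w₀ (τ / 4)) →
      (∀ w ∈ ball w₀ (τ / 4), ‖g w - c₀‖ ≤ η) → ∃ w ∈ ball w₀ (τ / 4), GG d g n w = 0 := by
    intro y hy
    obtain ⟨k, rfl⟩ := ht1 hy
    obtain ⟨n, w₀, h1, h2⟩ := zero_dense h k (show 0 < τ / 4 by positivity)
    obtain ⟨η, h3, h4⟩ := zero_persist h h2 (show 0 < τ / 4 by positivity)
    exact ⟨n, w₀, η, h1, h3, h4⟩
  choose! nn ww ηη H using hloc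
  lift t to Finset ℂ using ht2
  have hη : ∃ η : ℝ, 0 < η ∧ ∀ y ∈ t, η ≤ ηη y := by
    have : ∀ s : Finset ℂ, s ⊆ t → ∃ η : ℝ, 0 < η ∧ ∀ y ∈ s, η ≤ ηη y := by
      intro s
      induction s using Finset.induction_on with
      | empty => exact fun _ => ⟨1, one_pos, fun y hy => absurd hy (Finset.notMem_empty y)⟩
      | insert a s _ ih =>
        intro hst
        obtain ⟨η, h1, h2⟩ := ih (fun y hy => hst (Finset.mem_insert_of_mem hy))
        have h3 := (H a (Finset.mem_coe.2 (hst (Finset.mem_insert_self a s)))).2.1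
        refine ⟨min η (ηη a), lt_min h1 h3, fun y hy => ?_⟩
        rcases Finset.mem_insert.1 hy with rfl | hy
        · exact min_le_right _ _
        · exact (min_le_left _ _).trans (h2 y hy)
    exact this t subset_rfl
  obtain ⟨η, hη0, hηle⟩ := hη
  refine ⟨t.sup nn + 1, η, hη0, ?_⟩
  intro k g hg hgc
  obtain ⟨y, hy, hky⟩ : ∃ y ∈ t, zz d c₀ k ∈ ball y (τ / 4) := by
    have h1 := ht3 (mem_range_self k)
    simpa using h1
  obtain ⟨h1, h2, h3⟩ := H y (Finset.mem_coe.2 hy)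
  have hsub : ball (ww y) (τ / 4) ⊆ ball (zz d c₀ k) τ := by
    intro z hz
    rw [mem_ball] at hz hky ⊢
    have h4 : dist (ww y) y < τ / 4 := by rw [dist_eq_norm]; exact h1
    have h5 : dist z (zz d c₀ k) ≤ dist z (ww y) + dist (ww y) y + dist y (zz d c₀ k) := by
      refine (dist_triangle z y _).trans ?_
      gcongr
      exact dist_triangle _ _ _
    rw [dist_comm y] at h5
    linarith
  obtain ⟨w, hw, hw0⟩ := h3 g (hg.mono hsub) fun w hw =>
    (hgc w (hsub hw)).trans (hηle y hy)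
  exact ⟨nn y, Nat.lt_succ_of_le (Finset.le_sup hy), w, hsub hw, hw0⟩

end Pool.Agent.H206.Rem
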