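import Pool.Graph.R_pool_sql_team_seeded_63374d34.N228.DQ.Hyp
import Pool.Agent.H206.ThinI

set_option autoImplicit false

/-! # Areas near the copies close to a Lyapunov parameter -/

open Set Filter Metric MeasureTheory Topology

namespace Pool.Agent.H206.Rem

open N62a1eb23
open Pool.Agent.N772.TC Pool.Agent.N772.PC Pool.Agent.H206.Hair Pool.Agent.H206.Thin
open Pool.Agent.Results.MP_fcb70f_an (PerfectCopies.consequences PerfectCopies.log_near')

/-- the hyperbolic parameters -/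
def HH (d : ℕ) : Set ℂ := {c | ∃ m z, IsAttractingCycle (fun z => z ^ d + c) m z}

theorem multi_sub {d : ℕ} (hd : 2 ≤ d) : multibrotSet d ⊆ closedBall 0 2 := by
  intro κ hκ
  have h2 := (Pool.Agent.H712R2.mem_multibrot_iff hd κ).1 hκ 1
  rwa [Pool.Agent.H712R2.P_one hd, ← dist_zero_right] at h2

theorem HH_sub {d : ℕ} (hd : 2 ≤ d) : HH d ⊆ multibrotSet d := fun κ hκ =>
  interior_subset (Pool.Agent.R240.Alm.att_interior hd hκ)

theorem HH_open {d : ℕ} (hd : 2 ≤ d) : IsOpen (HH d) := Pool.Agent.N228.DQ.isOpen_hyp hd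

theorem multi_meas {d : ℕ} (hd : 2 ≤ d) : MeasurableSet (multibrotSet d) :=
  (Pool.Agent.H712R2.isCompact_multibrot hd).isClosed.measurableSet

theorem multi_fin {d : ℕ} (hd : 2 ≤ d) : volume (multibrotSet d) ≠ ⊤ :=
  (Pool.Agent.H712R2.isCompact_multibrot hd).measure_lt_top.ne

/-- the points of the Multibrot set at distance at least `ε |l|` from `c + l M` -/
def Far (d : ℕ) (ε : ℝ) (c l : ℂ) : Set ℂ :=
  {b | b ∈ multibrotSet d ∧ ∀ κ ∈ multibrotSet d, ε * ‖l‖ ≤ ‖b - (c + l * κ)‖}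

/-- The copy of centre `c` and scale `l`, up to `ε`, in the disc of radius `R |l|`. -/
structure Thn (d : ℕ) (ε R : ℝ) (c l : ℂ) : Prop where
  l0 : l ≠ 0
  far : volume.real (Far d ε c l ∩ closedBall c (‖l‖ * R)) ≤ ε * ‖l‖ ^ 2
  up : volume.real (multibrotSet d ∩ closedBall c (‖l‖ * 3)) ≤
    (volume.real (multibrotSet d) + ε) * ‖l‖ ^ 2
  low : (volume.real (HH d) - ε) * ‖l‖ ^ 2 ≤ volume.real (HH d ∩ closedBall c (‖l‖ * 3))
  hyp : ∀ κ, ball κ ε ⊆ HH d → c + l * κ ∈ HH d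

theorem Far_closed {d : ℕ} (hd : 2 ≤ d) (ε : ℝ) (c l : ℂ) : IsClosed (Far d ε c l) := by
  have h5 : Far d ε c l = multibrotSet d ∩
      ⋂ κ ∈ multibrotSet d, {b : ℂ | ε * ‖l‖ ≤ ‖b - (c + l * κ)‖} := by
    ext b
    simp only [Far, mem_ofPred_eq, mem_inter_iff, mem_iInter]
  rw [h5]
  refine (Pool.Agent.H712R2.isCompact_multibrot hd).isClosed.inter
    (isClosed_biInter fun κ _ => ?_)
  exact isClosed_le continuous_const (continuous_id.sub continuous_const).norm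

theorem thin_data {d : ℕ} (hd : 2 ≤ d) {χ : ℝ} {c₀ : ℂ} (h : Pool.Agent.Y298.CA.Lyap d χ c₀)
    {ε R : ℝ} (hε : 0 < ε) (hε1 : ε ≤ 1 / 3) (hR : 3 ≤ R) :
    ∃ δ : ℝ, 0 < δ ∧ ∀ᶠ n : ℕ in atTop, ∀ c, Pool.Agent.H712R2.P d n c = 0 →
      ‖c - c₀‖ ≤ Real.exp (-((χ - δ) * n)) → ∃ l m : ℂ, l ≠ 0 ∧ m ≠ 0 ∧
        m ^ (d - 1) * deriv ((Pool.Agent.H712R2.fc d c)^[n - 1]) c = 1 ∧
        l * deriv (Pool.Agent.H712R2.P d n) c = m ∧
        ‖l‖ ≤ Real.exp (-((χ * d / (d - 1) - ε) * n)) ∧ Thn d ε R c l := by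
  have hχ := h.1
  have hdR : (2 : ℝ) ≤ d := by exact_mod_cast hd
  have hd1 : (0 : ℝ) < (d : ℝ) - 1 := by linarith
  have hY : 0 < χ / (d - 1) := by positivity
  have hMK := Pool.Agent.H712R2.isCompact_multibrot hd
  have hM2 := multi_sub hd
  have hHo : IsOpen (HH d) := HH_open hd
  have hH2 : HH d ⊆ closedBall 0 2 := (HH_sub hd).trans hM2
  obtain ⟨e₁, he₁, H₁⟩ := thick_vol hMK (half_pos hε)
  obtain ⟨e₂, he₂, H₂⟩ := inner_vol hHo hH2 hε
  obtain ⟨e, he⟩ : ∃ e : ℝ, e = min (min e₁ e₂) ε := ⟨_, rfl⟩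
  have he0 : 0 < e := by rw [he]; positivity
  have hee₁ : e ≤ e₁ := by rw [he]; exact (min_le_left _ _).trans (min_le_left _ _)
  have hee₂ : e ≤ e₂ := by rw [he]; exact (min_le_left _ _).trans (min_le_right _ _)
  have heε : e ≤ ε := by rw [he]; exact min_le_right _ _
  have hR0 : 0 < R := by linarith
  obtain ⟨δ₀, hδ₀, H₀⟩ := thin_k hd h he0 hR0 (half_pos hε)
  obtain ⟨ε₁, hε₁⟩ : ∃ ε₁ : ℝ, ε₁ = min (δ₀ / 4) (min (e / 2) (χ / (d - 1) / 2)) := ⟨_, rfl⟩
  have h1 : 0 < ε₁ := by rw [hε₁]; positivity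
  have h2 : ε₁ ≤ e / 2 := by rw [hε₁]; exact (min_le_right _ _).trans (min_le_left _ _)
  have h3 : ε₁ ≤ χ / (d - 1) / 2 := by
    rw [hε₁]; exact (min_le_right _ _).trans (min_le_right _ _)
  have h4 : ε₁ ≤ δ₀ / 4 := by rw [hε₁]; exact min_le_left _ _
  obtain ⟨δ, hδ, H⟩ := uni_near hd h h1
  refine ⟨min δ δ₀, lt_min hδ hδ₀, ?_⟩
  filter_upwards [H, PerfectCopies.consequences hd hχ he0 (by linarith : ε₁ < e) (by linarith),
    eventually_ge_atTop 1, H₀] with n hn1 hn2 hn hn3 c hP hcc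
  have hn0 : (0 : ℝ) < n := by exact_mod_cast hn
  have hexp' : ∀ {a b : ℝ}, b ≤ a → Real.exp (-(a * n)) ≤ Real.exp (-(b * n)) := by
    intro a b hab
    gcongr
  obtain ⟨l, m, hl, hm, a1, a2, ⟨a3, a4⟩, ⟨a5, a6⟩, hU⟩ := hn1 c hP
    (hcc.trans (hexp' (by linarith [min_le_left δ δ₀])))
  obtain ⟨-, -, ⟨-, b1, -, b3⟩, -, -⟩ := hn2 c l m hl hm hP hU
  have hvol := hn3 c l m hl hm
    (hcc.trans (hexp' (by linarith [min_le_right δ δ₀])))
    (a4.trans (hexp' (by linarith))) (le_trans (hexp' (by linarith)) a5)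
    (a6.trans (hexp' (by linarith))) (Un_mono hU (by gcongr))
  have hln : 0 < ‖l‖ := norm_pos_iff.2 hl
  -- areas in the rescaled picture
  have harea : ∀ A : Set ℂ, MeasurableSet A → ∀ R' : ℝ, volume.real (A ∩ closedBall c (‖l‖ * R')) =
      ‖l‖ ^ 2 * (volume {κ : ℂ | ‖κ‖ ≤ R' ∧ c + l * κ ∈ A}).toReal := by
    intro A hA R'
    have hmeas : MeasurableSet {κ : ℂ | ‖κ‖ ≤ R' ∧ c + l * κ ∈ A} := by
      apply (measurableSet_le measurable_norm measurable_const).inter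
      exact (measurable_const.add (measurable_const.mul measurable_id)) hA
    unfold Measure.real
    rw [← part_eq hl c A R', vol_aff hl c hmeas, ENNReal.toReal_mul,
      ENNReal.toReal_ofReal (by positivity)]
  have hfin : ∀ (A : Set ℂ) (R' : ℝ), volume {κ : ℂ | ‖κ‖ ≤ R' ∧ c + l * κ ∈ A} ≠ ⊤ := by
    intro A R'
    refine ne_top_of_le_ne_top (isCompact_closedBall (0 : ℂ) R').measure_lt_top.ne
      (measure_mono fun κ hκ => ?_)
    rw [mem_closedBall, dist_zero_right]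
    exact hκ.1
  have hMfin : volume (multibrotSet d) ≠ ⊤ := hMK.measure_lt_top.ne
  -- the outer part
  have hout : (volume {κ : ℂ | ‖κ‖ ≤ R ∧ κ ∉ thickening e (multibrotSet d) ∧
      c + l * κ ∈ multibrotSet d}) ≤ ENNReal.ofReal (ε / 2) := hvol
  -- the Multibrot set
  have hM1 : (volume {κ : ℂ | ‖κ‖ ≤ 3 ∧ c + l * κ ∈ multibrotSet d}).toReal ≤
      (volume (multibrotSet d)).toReal + ε := by
    have h5 : volume {κ : ℂ | ‖κ‖ ≤ 3 ∧ c + l * κ ∈ multibrotSet d} ≤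
        volume (multibrotSet d) + ENNReal.ofReal ε := by
      have h6 : {κ : ℂ | ‖κ‖ ≤ 3 ∧ c + l * κ ∈ multibrotSet d} ⊆
          thickening e₁ (multibrotSet d) ∪ {κ : ℂ | ‖κ‖ ≤ R ∧
            κ ∉ thickening e (multibrotSet d) ∧ c + l * κ ∈ multibrotSet d} := by
        intro κ hκ
        by_cases h7 : κ ∈ thickening e (multibrotSet d)
        · left
          exact thickening_mono hee₁ _ h7
        · right
          exact ⟨hκ.1.trans hR, h7, hκ.2⟩
      refine (measure_mono h6).trans ((measure_union_le _ _).trans ?_)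
      refine (add_le_add H₁ hout).trans (le_of_eq ?_)
      rw [add_assoc, ← ENNReal.ofReal_add (by positivity) (by positivity), add_halves]
    have h7 := ENNReal.toReal_mono (ENNReal.add_ne_top.2 ⟨hMfin, ENNReal.ofReal_ne_top⟩) h5
    rwa [ENNReal.toReal_add hMfin ENNReal.ofReal_ne_top, ENNReal.toReal_ofReal hε.le] at h7
  -- the hyperbolic parameters
  have hH1 : (volume (HH d)).toReal - ε ≤
      (volume {κ : ℂ | ‖κ‖ ≤ 3 ∧ c + l * κ ∈ HH d}).toReal := by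
    have h5 : volume (HH d) ≤
        volume {κ : ℂ | ‖κ‖ ≤ 3 ∧ c + l * κ ∈ HH d} + ENNReal.ofReal ε := by
      refine (H₂ e hee₂).trans (add_le_add (measure_mono fun κ hκ => ?_) le_rfl)
      obtain ⟨h6, h7⟩ := b3 κ hκ
      refine ⟨?_, h7⟩
      obtain ⟨y, hy, hyκ⟩ := mem_thickening_iff.1 (b1 h6)
      have h8 := hM2 hy
      rw [mem_closedBall, dist_zero_right] at h8
      have h9 : ‖κ‖ ≤ ‖κ - y‖ + ‖y‖ := by
        have := norm_add_le (κ - y) y
        rwa [sub_add_cancel] at this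
      rw [dist_eq_norm] at hyκ
      linarith
    have h6 := ENNReal.toReal_mono (ENNReal.add_ne_top.2 ⟨hfin _ _, ENNReal.ofReal_ne_top⟩) h5
    rw [ENNReal.toReal_add (hfin _ _) ENNReal.ofReal_ne_top, ENNReal.toReal_ofReal hε.le] at h6
    linarith
  have hMm : MeasurableSet (multibrotSet d) := hMK.isClosed.measurableSet
  refine ⟨l, m, hl, hm, a1, a2, a4.trans (hexp' (by linarith)), ⟨hl, ?_, ?_, ?_, ?_⟩⟩
  · rw [harea _ (Far_closed hd ε c l).measurableSet, mul_comm]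
    gcongr
    refine (ENNReal.toReal_mono ENNReal.ofReal_ne_top ((measure_mono ?_).trans hout)).trans ?_
    · rintro κ ⟨h5, h6, h7⟩
      refine ⟨h5, fun h8 => ?_, h6⟩
      obtain ⟨y, hy, hyκ⟩ := mem_thickening_iff.1 h8
      have h9 := h7 y hy
      have h10 : c + l * κ - (c + l * y) = l * (κ - y) := by ring
      rw [h10, norm_mul, mul_comm] at h9
      have h11 := le_of_mul_le_mul_left h9 hln
      rw [dist_eq_norm] at hyκ
      linarith
    · rw [ENNReal.toReal_ofReal (by positivity)]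
      linarith
  · rw [harea _ hMm, mul_comm]
    gcongr
    exact hM1
  · rw [harea _ hHo.measurableSet, mul_comm]
    gcongr
    exact hH1
  · intro κ hκ
    exact (b3 κ ((ball_subset_ball heε).trans hκ)).2

end Pool.Agent.H206.Rem
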