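import Pool.Agent.H206.RemK

set_option autoImplicit false

/-! # The proportion from the copies -/

open Set Filter Metric MeasureTheory Topology

namespace Pool.Agent.H206.Rem

open N62a1eb23

/-- the proportion up to `ε` -/
noncomputable def coe (a h ε : ℝ) : ℝ := 1 - (h - ε) / (a + ε) + 2 * (ε / (h - ε))

theorem area_le {d : ℕ} (hd : 2 ≤ d) : volume.real (HH d) ≤ volume.real (multibrotSet d) :=
  measureReal_mono (HH_sub hd) (multi_fin hd)

theorem area_split {d : ℕ} (hd : 2 ≤ d) {B : Set ℂ} (hB : MeasurableSet B) :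
    volume.real ((multibrotSet d \ HH d) ∩ B) + volume.real (HH d ∩ B) =
      volume.real (multibrotSet d ∩ B) := by
  have hf : ∀ A : Set ℂ, A ⊆ multibrotSet d → volume A ≠ ⊤ := fun A hA =>
    ne_top_of_le_ne_top (multi_fin hd) (measure_mono hA)
  rw [← measureReal_union (μ := volume) ?_ ((HH_open hd).measurableSet.inter hB)
    (hf _ (inter_subset_left.trans sdiff_subset)) (hf _ (inter_subset_left.trans (HH_sub hd)))]
  · congr 1
    rw [← union_inter_distrib_right, sdiff_union_of_subset (HH_sub hd)]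
  · rw [Set.disjoint_left]
    rintro x ⟨hx, -⟩ ⟨hx2, -⟩
    exact hx.2 hx2

theorem far_of_out {d : ℕ} (hd : 2 ≤ d) {ε : ℝ} (hε1 : ε ≤ 1) {c l b : ℂ}
    (hb : b ∈ multibrotSet d) (h : b ∉ closedBall c (‖l‖ * 3)) : b ∈ Far d ε c l := by
  refine ⟨hb, fun κ hκ => ?_⟩
  have h1 := multi_sub hd hκ
  rw [mem_closedBall, dist_zero_right] at h1
  rw [mem_closedBall, dist_eq_norm, not_le] at h
  have h2 : ‖b - c‖ ≤ ‖b - (c + l * κ)‖ + ‖l * κ‖ := by
    have h3 : b - c = (b - (c + l * κ)) + l * κ := by ring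
    rw [h3]
    exact norm_add_le _ _
  rw [norm_mul] at h2
  have h4 : ‖l‖ * ‖κ‖ ≤ ‖l‖ * 2 := by gcongr
  have h5 : ε * ‖l‖ ≤ 1 * ‖l‖ := by gcongr
  linarith

/-- **Assembly.** -/
theorem assemble {d : ℕ} (hd : 2 ≤ d) {ε R : ℝ} (hε : 0 < ε) (hε1 : ε ≤ 1)
    (hεh : ε < volume.real (HH d))
    (hR : 15 ≤ R) {S : Set ℂ} (hS : S.Finite) {l : ℂ → ℂ} (hq : ∀ c ∈ S, Thn d ε R c (l c))
    {D D' : Set ℂ} (hsub : ∀ c ∈ S, closedBall c (‖l c‖ * R) ⊆ D') {c₁ : ℂ} (hc₁ : c₁ ∈ S)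
    (hrem : volume.real ((multibrotSet d ∩ D) \ ⋃ c ∈ S, closedBall c (‖l c‖ * (R / 5))) ≤
      ε * ‖l c₁‖ ^ 2) :
    (∃ u : Finset ℂ, ↑u ⊆ S ∧
      ((u : Set ℂ).PairwiseDisjoint fun c => closedBall c (‖l c‖ * (R / 5))) ∧
      volume.real {b | b ∈ D ∧ b ∈ multibrotSet d ∧ ∀ c ∈ u, b ∈ Far d ε c (l c)} ≤
        2 * (ε / (volume.real (HH d) - ε)) * volume.real (multibrotSet d ∩ D')) ∧
    volume.real ((multibrotSet d \ HH d) ∩ D) ≤
      coe (volume.real (multibrotSet d)) (volume.real (HH d)) ε *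
        volume.real (multibrotSet d ∩ D') ∧
    (volume.real (HH d) - ε) * ‖l c₁‖ ^ 2 ≤ volume.real (multibrotSet d ∩ D') := by
  obtain ⟨M, hM⟩ : ∃ M, M = multibrotSet d := ⟨_, rfl⟩
  obtain ⟨H, hH⟩ : ∃ H, H = HH d := ⟨_, rfl⟩
  obtain ⟨a, ha⟩ : ∃ a, a = volume.real (multibrotSet d) := ⟨_, rfl⟩
  obtain ⟨h, hh⟩ : ∃ h, h = volume.real (HH d) := ⟨_, rfl⟩
  have hah : h ≤ a := by rw [ha, hh]; exact area_le hd
  have hf : ∀ A : Set ℂ, A ⊆ multibrotSet d → volume A ≠ ⊤ := fun A hA =>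
    ne_top_of_le_ne_top (multi_fin hd) (measure_mono hA)
  rw [← hh] at hεh
  have hh0 : 0 < h - ε := by linarith
  have ha0 : 0 < a + ε := by linarith
  obtain ⟨κ, hκ⟩ : ∃ κ : ℝ, κ = 1 - (h - ε) / (a + ε) + ε / (h - ε) := ⟨_, rfl⟩
  have hκ0 : 0 ≤ κ := by
    have h1 : (h - ε) / (a + ε) ≤ 1 := by rw [div_le_one ha0]; linarith
    have h2 : 0 ≤ ε / (h - ε) := by positivity
    rw [hκ]
    linarith
  obtain ⟨V, hV⟩ : ∃ V, V = volume.real (multibrotSet d ∩ D') := ⟨_, rfl⟩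
  have hl0 : ∀ c ∈ S, 0 < ‖l c‖ := fun c hc => norm_pos_iff.2 (hq c hc).l0
  obtain ⟨B, hB⟩ : ∃ B : ℝ, ∀ c ∈ S, ‖l c‖ * (R / 5) ≤ B := by
    obtain ⟨B, hB⟩ := (hS.image fun c => ‖l c‖ * (R / 5)).bddAbove
    exact ⟨B, fun c hc => hB (mem_image_of_mem _ hc)⟩
  obtain ⟨u, hu1, hu2, hu3⟩ := Vitali.exists_disjoint_subfamily_covering_enlargement_closedBall
    S (fun c : ℂ => c) (fun c => ‖l c‖ * (R / 5)) B hB 5 (by norm_num)
  have huf : u.Finite := hS.subset hu1
  lift u to Finset ℂ using huf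
  have hin : ∀ b ∈ u, closedBall b (‖l b‖ * 3) ⊆ closedBall b (‖l b‖ * (R / 5)) := by
    intro b hb
    have h1 := hl0 b (hu1 hb)
    apply closedBall_subset_closedBall
    gcongr
    linarith
  have hin' : ∀ c ∈ S, closedBall c (‖l c‖ * 3) ⊆ D' := by
    intro c hc
    have h1 := hl0 c hc
    refine Subset.trans (closedBall_subset_closedBall ?_) (hsub c hc)
    gcongr
    linarith
  -- the sum
  have hsum : ∑ b ∈ u, volume.real (multibrotSet d ∩ closedBall b (‖l b‖ * 3)) ≤ V := by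
    rw [← measureReal_biUnion_finset (μ := volume) ?_ ?_ ?_, hV]
    · refine measureReal_mono ?_ (hf _ inter_subset_left)
      intro x hx
      simp only [mem_iUnion] at hx
      obtain ⟨b, hb, hx⟩ := hx
      exact ⟨hx.1, hin' b (hu1 hb) hx.2⟩
    · intro b hb b' hb' hbb
      exact (hu2 hb hb' hbb).mono (inter_subset_right.trans (hin b hb))
        (inter_subset_right.trans (hin b' hb'))
    · intro b _
      exact (multi_meas hd).inter isClosed_closedBall.measurableSet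
    · intro b _
      exact hf _ inter_subset_left
  -- the errors
  have herr : ∀ b ∈ u, ε * ‖l b‖ ^ 2 ≤
      ε / (h - ε) * volume.real (multibrotSet d ∩ closedBall b (‖l b‖ * 3)) := by
    intro b hb
    have h4 := (hq b (hu1 hb)).low
    rw [← hh] at h4
    calc ε * ‖l b‖ ^ 2 = ε / (h - ε) * ((h - ε) * ‖l b‖ ^ 2) := by field_simp
      _ ≤ ε / (h - ε) * volume.real (multibrotSet d ∩ closedBall b (‖l b‖ * 3)) := by
        gcongr
        refine h4.trans (measureReal_mono ?_ (hf _ inter_subset_left))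
        exact inter_subset_inter_left _ (HH_sub hd)
  -- one copy
  have hone : ∀ b ∈ u, volume.real ((multibrotSet d \ HH d) ∩ closedBall b (‖l b‖ * R)) ≤
      κ * volume.real (multibrotSet d ∩ closedBall b (‖l b‖ * 3)) := by
    intro b hb
    have hTh := hq b (hu1 hb)
    have h2 := hTh.far
    have h3 := hTh.up
    have h4 := hTh.low
    have h8 := herr b hb
    have h5 := area_split hd (B := closedBall b (‖l b‖ * 3)) isClosed_closedBall.measurableSet
    rw [← ha] at h3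
    rw [← hh] at h4
    obtain ⟨x, hx⟩ : ∃ x, x = volume.real (multibrotSet d ∩ closedBall b (‖l b‖ * 3)) := ⟨_, rfl⟩
    obtain ⟨y, hy⟩ : ∃ y, y = volume.real (HH d ∩ closedBall b (‖l b‖ * 3)) := ⟨_, rfl⟩
    obtain ⟨z, hz⟩ : ∃ z, z = volume.real ((multibrotSet d \ HH d) ∩ closedBall b (‖l b‖ * 3)) :=
      ⟨_, rfl⟩
    rw [← hx] at h3 h5 h8 ⊢
    rw [← hy] at h4 h5
    rw [← hz] at h5
    have h6 : volume.real ((multibrotSet d \ HH d) ∩ closedBall b (‖l b‖ * R)) ≤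
        ε * ‖l b‖ ^ 2 + z := by
      have h7 : (multibrotSet d \ HH d) ∩ closedBall b (‖l b‖ * R) ⊆
          (Far d ε b (l b) ∩ closedBall b (‖l b‖ * R)) ∪
            ((multibrotSet d \ HH d) ∩ closedBall b (‖l b‖ * 3)) := by
        rintro w ⟨hw1, hw2⟩
        by_cases hw3 : w ∈ closedBall b (‖l b‖ * 3)
        · exact Or.inr ⟨hw1, hw3⟩
        · exact Or.inl ⟨far_of_out hd hε1 hw1.1 hw3, hw2⟩
      have h8 : (Far d ε b (l b) ∩ closedBall b (‖l b‖ * R)) ∪
            ((multibrotSet d \ HH d) ∩ closedBall b (‖l b‖ * 3)) ⊆ multibrotSet d :=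
        union_subset (fun w hw => hw.1.1) (inter_subset_left.trans sdiff_subset)
      refine (measureReal_mono h7 (hf _ h8)).trans ((measureReal_union_le _ _).trans ?_)
      rw [hz]
      gcongr
    have hq2 : 0 < ‖l b‖ ^ 2 := by
      have := hl0 b (hu1 hb)
      positivity
    have hz0 : 0 ≤ z := by rw [hz]; exact measureReal_nonneg
    have h7 : (h - ε) / (a + ε) * x ≤ y := by
      calc (h - ε) / (a + ε) * x ≤ (h - ε) / (a + ε) * ((a + ε) * ‖l b‖ ^ 2) := by gcongr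
        _ = (h - ε) * ‖l b‖ ^ 2 := by field_simp
        _ ≤ y := h4
    rw [hκ]
    have h9 : (1 - (h - ε) / (a + ε) + ε / (h - ε)) * x =
        x - (h - ε) / (a + ε) * x + ε / (h - ε) * x := by ring
    rw [h9]
    linarith
  have hlow : (h - ε) * ‖l c₁‖ ^ 2 ≤ V := by
    have h4 := (hq c₁ hc₁).low
    rw [← hh] at h4
    refine h4.trans ?_
    rw [hV]
    refine measureReal_mono ?_ (hf _ inter_subset_left)
    exact inter_subset_inter (HH_sub hd) (hin' c₁ hc₁)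
  have hlast : ε * ‖l c₁‖ ^ 2 ≤ ε / (h - ε) * V := by
    calc ε * ‖l c₁‖ ^ 2 = ε / (h - ε) * ((h - ε) * ‖l c₁‖ ^ 2) := by field_simp
      _ ≤ ε / (h - ε) * V := by gcongr
  rw [← hV, ← ha, ← hh]
  refine ⟨⟨u, hu1, hu2, ?_⟩, ?_, hlow⟩
  · -- the part far from the copies
    have hcov : {b | b ∈ D ∧ b ∈ multibrotSet d ∧ ∀ c ∈ u, b ∈ Far d ε c (l c)} ⊆
        ((multibrotSet d ∩ D) \ ⋃ c ∈ S, closedBall c (‖l c‖ * (R / 5))) ∪
          ⋃ b ∈ u, (Far d ε b (l b) ∩ closedBall b (‖l b‖ * R)) := by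
      rintro x ⟨hx1, hx2, hx4⟩
      by_cases hx3 : x ∈ ⋃ c ∈ S, closedBall c (‖l c‖ * (R / 5))
      · right
        simp only [mem_iUnion] at hx3 ⊢
        obtain ⟨c, hc, hxc⟩ := hx3
        obtain ⟨b, hb, hcb⟩ := hu3 c hc
        refine ⟨b, hb, hx4 b hb, ?_⟩
        have e : 5 * (‖l b‖ * (R / 5)) = ‖l b‖ * R := by ring
        rw [e] at hcb
        exact hcb hxc
      · exact Or.inl ⟨⟨hx2, hx1⟩, hx3⟩
    have hcovM : ((multibrotSet d ∩ D) \ ⋃ c ∈ S, closedBall c (‖l c‖ * (R / 5))) ∪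
        ⋃ b ∈ u, (Far d ε b (l b) ∩ closedBall b (‖l b‖ * R)) ⊆ multibrotSet d := by
      refine union_subset (sdiff_subset.trans inter_subset_left) ?_
      exact iUnion₂_subset fun b _ x hx => hx.1.1
    calc _ ≤ volume.real (((multibrotSet d ∩ D) \ ⋃ c ∈ S, closedBall c (‖l c‖ * (R / 5))) ∪
          ⋃ b ∈ u, (Far d ε b (l b) ∩ closedBall b (‖l b‖ * R))) :=
          measureReal_mono hcov (hf _ hcovM)
      _ ≤ ε * ‖l c₁‖ ^ 2 + ∑ b ∈ u, volume.real (Far d ε b (l b) ∩ closedBall b (‖l b‖ * R)) :=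
          (measureReal_union_le _ _).trans (add_le_add hrem (measureReal_biUnion_finset_le _ _))
      _ ≤ ε / (h - ε) * V + ∑ b ∈ u,
          ε / (h - ε) * volume.real (multibrotSet d ∩ closedBall b (‖l b‖ * 3)) :=
          add_le_add hlast (Finset.sum_le_sum fun b hb => (hq b (hu1 hb)).far.trans (herr b hb))
      _ = ε / (h - ε) * V + ε / (h - ε) *
          ∑ b ∈ u, volume.real (multibrotSet d ∩ closedBall b (‖l b‖ * 3)) := by
          rw [Finset.mul_sum]
      _ ≤ ε / (h - ε) * V + ε / (h - ε) * V := by gcongr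
      _ = _ := by ring
  · -- the cover
    have hcov : (multibrotSet d \ HH d) ∩ D ⊆
        ((multibrotSet d ∩ D) \ ⋃ c ∈ S, closedBall c (‖l c‖ * (R / 5))) ∪
          ⋃ b ∈ u, ((multibrotSet d \ HH d) ∩ closedBall b (‖l b‖ * R)) := by
      rintro x ⟨hx1, hx2⟩
      by_cases hx3 : x ∈ ⋃ c ∈ S, closedBall c (‖l c‖ * (R / 5))
      · right
        simp only [mem_iUnion] at hx3 ⊢
        obtain ⟨c, hc, hxc⟩ := hx3
        obtain ⟨b, hb, hcb⟩ := hu3 c hc
        refine ⟨b, hb, hx1, ?_⟩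
        have e : 5 * (‖l b‖ * (R / 5)) = ‖l b‖ * R := by ring
        rw [e] at hcb
        exact hcb hxc
      · exact Or.inl ⟨⟨hx1.1, hx2⟩, hx3⟩
    have hcovM : ((multibrotSet d ∩ D) \ ⋃ c ∈ S, closedBall c (‖l c‖ * (R / 5))) ∪
        ⋃ b ∈ u, ((multibrotSet d \ HH d) ∩ closedBall b (‖l b‖ * R)) ⊆ multibrotSet d := by
      refine union_subset (sdiff_subset.trans inter_subset_left) ?_
      exact iUnion₂_subset fun b _ => inter_subset_left.trans sdiff_subset
    calc volume.real ((multibrotSet d \ HH d) ∩ D)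
        ≤ volume.real (((multibrotSet d ∩ D) \ ⋃ c ∈ S, closedBall c (‖l c‖ * (R / 5))) ∪
          ⋃ b ∈ u, ((multibrotSet d \ HH d) ∩ closedBall b (‖l b‖ * R))) :=
          measureReal_mono hcov (hf _ hcovM)
      _ ≤ ε * ‖l c₁‖ ^ 2 +
          ∑ b ∈ u, volume.real ((multibrotSet d \ HH d) ∩ closedBall b (‖l b‖ * R)) :=
          (measureReal_union_le _ _).trans (add_le_add hrem (measureReal_biUnion_finset_le _ _))
      _ ≤ ε / (h - ε) * V +
          ∑ b ∈ u, κ * volume.real (multibrotSet d ∩ closedBall b (‖l b‖ * 3)) :=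
          add_le_add hlast (Finset.sum_le_sum hone)
      _ = ε / (h - ε) * V +
          κ * ∑ b ∈ u, volume.real (multibrotSet d ∩ closedBall b (‖l b‖ * 3)) := by
          rw [Finset.mul_sum]
      _ ≤ ε / (h - ε) * V + κ * V := by gcongr
      _ = _ := by
          rw [hκ]
          unfold coe
          ring

/-- the coefficient -/
theorem coe_lim {a h : ℝ} (ha : 0 < a) (hh : 0 < h) {ε : ℝ} (hε : 0 < ε) :
    ∃ e : ℝ, 0 < e ∧ e ≤ ε ∧ e ≤ 1 / 3 ∧ e < h ∧ coe a h e ≤ (a - h) / a + ε ∧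
      2 * (e / (h - e)) ≤ ε := by
  have h1 : ContinuousAt (coe a h) 0 := by
    unfold coe
    have h2 : a + 0 ≠ 0 := by linarith
    have h3 : h - 0 ≠ 0 := by linarith
    fun_prop (disch := assumption)
  have h2 : coe a h 0 = (a - h) / a := by
    unfold coe
    simp only [sub_zero, add_zero, zero_div, mul_zero]
    rw [sub_div, div_self ha.ne']
  have h3 : ∀ᶠ e in 𝓝 (0 : ℝ), coe a h e < (a - h) / a + ε := by
    have := h1.eventually (gt_mem_nhds (show coe a h 0 < (a - h) / a + ε by rw [h2]; linarith))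
    exact this
  have h3' : ∀ᶠ e in 𝓝 (0 : ℝ), 2 * (e / (h - e)) < ε := by
    have h4 : ContinuousAt (fun e : ℝ => 2 * (e / (h - e))) 0 := by
      have h3 : h - 0 ≠ 0 := by linarith
      fun_prop (disch := assumption)
    have := h4.eventually (gt_mem_nhds (show 2 * ((0 : ℝ) / (h - 0)) < ε by
      rw [zero_div, mul_zero]; exact hε))
    exact this
  have h3 := h3.and h3'
  rw [Metric.eventually_nhds_iff] at h3
  obtain ⟨η, hη, H⟩ := h3
  have hmem : dist (min (min (η / 2) (h / 2)) (min ε (1 / 3))) 0 < η := by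
    have h4 : min (min (η / 2) (h / 2)) (min ε (1 / 3)) ≤ η / 2 :=
      (min_le_left _ _).trans (min_le_left _ _)
    have h5 : 0 < min (min (η / 2) (h / 2)) (min ε (1 / 3)) := by positivity
    rw [Real.dist_eq, sub_zero, abs_of_pos h5]
    linarith
  refine ⟨min (min (η / 2) (h / 2)) (min ε (1 / 3)), by positivity,
    (min_le_right _ _).trans (min_le_left _ _), (min_le_right _ _).trans (min_le_right _ _), ?_,
    (H hmem).1.le, (H hmem).2.le⟩
  have h4 : min (min (η / 2) (h / 2)) (min ε (1 / 3)) ≤ h / 2 :=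
    (min_le_left _ _).trans (min_le_right _ _)
  linarith

end Pool.Agent.H206.Rem
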