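import Pool.Agent.H206.RemI
import Pool.Graph.R_seed8.Y674.CA.Lya
import Pool.Graph.R_seed8.R240.Univ3

set_option autoImplicit false

/-! # Lower bound of the size of the copies; exponents -/

open Set Filter Metric MeasureTheory Topology

namespace Pool.Agent.H206.Rem

open Pool.Agent.TH279.MD Pool.Agent.Y298.SH Pool.Agent.Y298.SH.CD Pool.Agent.Y298.CA
open Pool.Agent.H712R2 (P fc P_succ)

/-- the growth of the derivative in the parameter -/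
theorem dP_up {d : ℕ} (hd : 2 ≤ d) {c : ℂ} (hb : ∀ i, ‖P d i c‖ ≤ 2) (j n : ℕ) :
    ‖deriv (P d (j + n)) c‖ + 1 ≤
      ((d : ℝ) * 2 ^ (d - 1) + 1) ^ n * (‖deriv (P d j) c‖ + 1) := by
  induction n with
  | zero => simp
  | succ n ih =>
    have hdiff := Pool.Agent.H713R2.differentiable_P d (j + n) c
    have h1 : HasDerivAt (fun x => P d (j + n) x ^ d + x)
        (d * P d (j + n) c ^ (d - 1) * deriv (P d (j + n)) c + 1) c :=
      (hdiff.hasDerivAt.pow d).add (hasDerivAt_id c)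
    have h2 : P d (j + (n + 1)) = fun x => P d (j + n) x ^ d + x := by
      funext x
      exact P_succ d (j + n) x
    rw [h2, h1.deriv]
    obtain ⟨A, hA⟩ : ∃ A : ℝ, A = (d : ℝ) * 2 ^ (d - 1) := ⟨_, rfl⟩
    have hdR : (2 : ℝ) ≤ d := by exact_mod_cast hd
    have hA1 : 1 ≤ A := by
      rw [hA]
      have h3 : (1 : ℝ) ≤ 2 ^ (d - 1) := one_le_pow₀ (by norm_num)
      exact one_le_mul_of_one_le_of_one_le (by linarith) h3
    have hA0 : 0 ≤ A := by linarith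
    rw [← hA] at ih ⊢
    have h3 : ‖(d : ℂ) * P d (j + n) c ^ (d - 1) * deriv (P d (j + n)) c + 1‖ ≤
        A * ‖deriv (P d (j + n)) c‖ + 1 := by
      refine (norm_add_le _ _).trans ?_
      rw [norm_mul, norm_mul, norm_pow, norm_one, hA, Complex.norm_natCast]
      gcongr
      exact hb _
    have h4 := norm_nonneg (deriv (P d (j + n)) c)
    have h5 := norm_nonneg (deriv (P d j) c)
    calc ‖(d : ℂ) * P d (j + n) c ^ (d - 1) * deriv (P d (j + n)) c + 1‖ + 1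
        ≤ (A + 1) * (‖deriv (P d (j + n)) c‖ + 1) := by nlinarith
      _ ≤ (A + 1) * ((A + 1) ^ n * (‖deriv (P d j) c‖ + 1)) := by gcongr
      _ = _ := by ring

/-- the growth of the derivative in the variable -/
theorem Pd_up {d : ℕ} {c : ℂ} (hb : ∀ i, ‖zz d c i‖ ≤ 2) (k n : ℕ) :
    Pd d c (k + n) ≤ ((d : ℝ) * 2 ^ (d - 1)) ^ n * Pd d c k := by
  induction n with
  | zero => simp
  | succ n ih =>
    rw [← add_assoc, Pd_succ]
    have h1 : (0 : ℝ) ≤ Pd d c k := Pd_nonneg d c k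
    have h2 := Pd_nonneg d c (k + n)
    calc (d : ℝ) * ‖zz d c (k + n)‖ ^ (d - 1) * Pd d c (k + n)
        ≤ (d : ℝ) * 2 ^ (d - 1) * (((d : ℝ) * 2 ^ (d - 1)) ^ n * Pd d c k) := by
          gcongr
          exact hb _
      _ = _ := by ring

/-- the constant of the lower bound of the size -/
noncomputable def cS (d : ℕ) (Ca : ℝ) (N : ℕ) : ℝ :=
  (1 / (2 * ((d : ℝ) * 2 ^ (d - 1)) ^ N)) ^ ((((d - 1 : ℕ) : ℝ))⁻¹) /
    (((d : ℝ) * 2 ^ (d - 1) + 1) ^ N * (4 * Ca + 1))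

theorem cS_pos {d : ℕ} (hd : 2 ≤ d) {Ca : ℝ} (hCa : 1 ≤ Ca) (N : ℕ) : 0 < cS d Ca N := by
  have : (0 : ℝ) < d := by exact_mod_cast (by omega : 0 < d)
  unfold cS
  have h1 : 0 < (1 / (2 * ((d : ℝ) * 2 ^ (d - 1)) ^ N)) ^ ((((d - 1 : ℕ) : ℝ))⁻¹) :=
    Real.rpow_pos_of_pos (by positivity) _
  positivity

/-- **Lower bound of the size of the copies.** -/
theorem low_l {d : ℕ} (hd : 2 ≤ d) {Ca Q : ℝ} (hCa : 1 ≤ Ca) (hQ : 1 ≤ Q) {c l m : ℂ} {k n N : ℕ}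
    (hn : n < N) (hb : ∀ i, ‖P d i c‖ ≤ 2) (h1 : Pd d c k ≤ 2 * Q)
    (h2 : ‖deriv (P d (k + 1)) c‖ ≤ 4 * Ca * Q)
    (hm : m ^ (d - 1) * deriv ((fc d c)^[k + 1 + n - 1]) c = 1)
    (hl : l * deriv (P d (k + 1 + n)) c = m) : cS d Ca N * (X0 d 1 Q / Q) ≤ ‖l‖ := by
  have hdR : (2 : ℝ) ≤ d := by exact_mod_cast hd
  have hd0 : (0 : ℝ) < d := by linarith
  obtain ⟨A, hA⟩ : ∃ A : ℝ, A = (d : ℝ) * 2 ^ (d - 1) := ⟨_, rfl⟩
  have hA1 : 1 ≤ A := by
    rw [hA]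
    have h3 : (1 : ℝ) ≤ 2 ^ (d - 1) := one_le_pow₀ (by norm_num)
    exact one_le_mul_of_one_le_of_one_le (by linarith) h3
  have hA0 : 0 < A := by linarith
  have hQ0 : 0 < Q := by linarith
  have hbz : ∀ i, ‖zz d c i‖ ≤ 2 := by
    intro i
    have h3 := hb (i + 1)
    rw [P_succ_eq hd] at h3
    exact h3
  have e : k + 1 + n - 1 = k + n := by omega
  rw [e] at hm
  have hD1 : ‖deriv ((fc d c)^[k + n]) c‖ ≤ A ^ N * (2 * Q) := by
    have h3 : ‖deriv ((fc d c)^[k + n]) c‖ = Pd d c (k + n) := rfl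
    rw [h3]
    refine (Pd_up hbz k n).trans ?_
    rw [← hA]
    have h4 : A ^ n ≤ A ^ N := pow_le_pow_right₀ hA1 hn.le
    have h5 := Pd_nonneg d c k
    gcongr
  have hD2 : ‖deriv (P d (k + 1 + n)) c‖ ≤ (A + 1) ^ N * ((4 * Ca + 1) * Q) := by
    have h3 := dP_up hd hb (k + 1) n
    rw [← hA] at h3
    have h4 : (A + 1) ^ n ≤ (A + 1) ^ N := pow_le_pow_right₀ (by linarith) hn.le
    have h5 : (A + 1) ^ n * (‖deriv (P d (k + 1)) c‖ + 1) ≤ (A + 1) ^ N * ((4 * Ca + 1) * Q) := by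
      have h6 : ‖deriv (P d (k + 1)) c‖ + 1 ≤ (4 * Ca + 1) * Q := by nlinarith
      gcongr
    linarith
  have hm1 : ‖m‖ ^ (d - 1) * ‖deriv ((fc d c)^[k + n]) c‖ = 1 := by
    rw [← norm_pow, ← norm_mul, hm, norm_one]
  have hmX : X0 d (1 / (2 * A ^ N)) Q ≤ ‖m‖ := by
    refine le_of_pow_le_pow_left₀ (n := d - 1) (by omega) (norm_nonneg _) ?_
    rw [X0_pow hd (by positivity) hQ0, div_div, div_le_iff₀ (by positivity)]
    calc 1 = ‖m‖ ^ (d - 1) * ‖deriv ((fc d c)^[k + n]) c‖ := hm1.symm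
      _ ≤ ‖m‖ ^ (d - 1) * (A ^ N * (2 * Q)) := by gcongr
      _ = _ := by ring
  have hl1 : ‖l‖ * ‖deriv (P d (k + 1 + n)) c‖ = ‖m‖ := by rw [← norm_mul, hl]
  rw [mul_X0 (by positivity) hQ0] at hmX
  obtain ⟨Y, hY⟩ : ∃ Y : ℝ, Y = (1 / (2 * A ^ N)) ^ ((((d - 1 : ℕ) : ℝ))⁻¹) := ⟨_, rfl⟩
  have hcS : cS d Ca N = Y / ((A + 1) ^ N * (4 * Ca + 1)) := by
    rw [hY, hA]
    rfl
  rw [hcS]
  rw [← hY] at hmX
  have h5 : Y * X0 d 1 Q ≤ ‖l‖ * ((A + 1) ^ N * ((4 * Ca + 1) * Q)) := by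
    calc Y * X0 d 1 Q ≤ ‖m‖ := hmX
      _ = ‖l‖ * ‖deriv (P d (k + 1 + n)) c‖ := hl1.symm
      _ ≤ _ := by gcongr
  have h6 : Y / ((A + 1) ^ N * (4 * Ca + 1)) * (X0 d 1 Q / Q) =
      Y * X0 d 1 Q / ((A + 1) ^ N * ((4 * Ca + 1) * Q)) := by
    field_simp
  rw [h6, div_le_iff₀ (by positivity)]
  exact h5

section exps

variable {d : ℕ} {χ : ℝ} {c₀ : ℂ}

theorem ev_exp {a : ℝ} (ha : 0 < a) (K : ℝ) : ∀ᶠ k : ℕ in atTop, K ≤ Real.exp (a * k) := by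
  have h1 : Tendsto (fun k : ℕ => Real.exp (a * k)) atTop atTop :=
    Real.tendsto_exp_atTop.comp (tendsto_natCast_atTop_atTop.const_mul_atTop ha)
  exact h1.eventually_ge_atTop K

/-- the threshold is small compared with the orbit -/
theorem ev_X0 (hd : 2 ≤ d) (h : Lyap d χ c₀) (K : ℝ) :
    ∀ᶠ k : ℕ in atTop, K * X0 d 1 (Pd d c₀ k) ≤ ‖zz d c₀ k‖ := by
  obtain ⟨⟨C₁, lam, hCE⟩, hL⟩ := Pool.Agent.Y674.CA.lya d χ c₀ hd h
  have hχ := h.1
  have hP := hCE.Pd_pos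
  obtain ⟨m, hm⟩ : ∃ m : ℝ, m = (((d - 1 : ℕ) : ℝ))⁻¹ := ⟨_, rfl⟩
  have hd1 : (1 : ℝ) ≤ ((d - 1 : ℕ) : ℝ) := by exact_mod_cast (by omega : 1 ≤ d - 1)
  have hm0 : 0 < m := by rw [hm]; positivity
  have hm1 : m ≤ 1 := by rw [hm]; exact inv_le_one_of_one_le₀ hd1
  obtain ⟨ε, hε⟩ : ∃ ε : ℝ, ε = m * χ / 4 := ⟨_, rfl⟩
  have hε0 : 0 < ε := by rw [hε]; positivity
  obtain ⟨C, hC, H⟩ := hL ε hε0
  have hC0 : 0 < C := by linarith
  filter_upwards [ev_exp (show 0 < ε by positivity) (|K| * C ^ m * C)] with k hk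
  obtain ⟨h1, -, h3⟩ := H k
  have hPk := hP k
  have hX : X0 d 1 (Pd d c₀ k) ≤ C ^ m * Real.exp (-(2 * ε * k)) := by
    unfold X0
    rw [← hm]
    have h4 : 1 / Pd d c₀ k ≤ C * Real.exp (-((χ - ε) * k)) := by
      rw [Real.exp_neg, ← div_eq_mul_inv, div_le_div_iff₀ hPk (Real.exp_pos _)]
      linarith
    calc (1 / Pd d c₀ k) ^ m ≤ (C * Real.exp (-((χ - ε) * k))) ^ m :=
          Real.rpow_le_rpow (by positivity) h4 hm0.le
      _ = C ^ m * Real.exp (-((χ - ε) * k * m)) := by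
          rw [Real.mul_rpow hC0.le (Real.exp_pos _).le, ← Real.exp_mul]
          congr 2
          ring
      _ ≤ _ := by
          refine mul_le_mul_of_nonneg_left (Real.exp_le_exp.2 ?_) (by positivity)
          have h5 : 2 * ε ≤ (χ - ε) * m := by
            have h6 : ε ≤ χ / 4 := by rw [hε]; nlinarith
            have h7 : 2 * ε = m * χ / 2 := by rw [hε]; ring
            nlinarith
          have h8 : (0 : ℝ) ≤ k := by positivity
          nlinarith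
  have hX0 := X0_pos d one_pos hPk
  have hkey : Real.exp (-(2 * ε * k)) * Real.exp (ε * k) = Real.exp (-(ε * k)) := by
    rw [← Real.exp_add]
    congr 1
    ring
  have hz : Real.exp (-(ε * k)) ≤ C * ‖zz d c₀ k‖ := by
    rw [Real.exp_neg, inv_eq_one_div, div_le_iff₀ (Real.exp_pos _)]
    calc 1 ≤ C * Real.exp (ε * k) * ‖zz d c₀ k‖ := h3
      _ = _ := by ring
  have h9 : C * (K * X0 d 1 (Pd d c₀ k)) ≤ C * ‖zz d c₀ k‖ := by
    calc C * (K * X0 d 1 (Pd d c₀ k)) ≤ C * (|K| * X0 d 1 (Pd d c₀ k)) := by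
          gcongr
          exact le_abs_self K
      _ ≤ C * (|K| * (C ^ m * Real.exp (-(2 * ε * k)))) := by gcongr
      _ = (|K| * C ^ m * C) * Real.exp (-(2 * ε * k)) := by ring
      _ ≤ Real.exp (ε * k) * Real.exp (-(2 * ε * k)) := by gcongr
      _ = Real.exp (-(ε * k)) := by rw [mul_comm, hkey]
      _ ≤ _ := hz
  exact le_of_mul_le_mul_left h9 hC0

/-- good scales -/
def Gd (d : ℕ) (c₀ : ℂ) (κg β r : ℝ) (k : ℕ) : Prop :=
  β ≤ r * Pd d c₀ k ∨ 2 * ‖zz d c₀ k‖ ≤ κg * (r * Pd d c₀ k)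

theorem ev_G1 (hd : 2 ≤ d) (h : Lyap d χ c₀) {κg β : ℝ} (hκg : 0 < κg) (hβ : 0 < β) {K : ℝ}
    (hK : 0 < K) : ∀ᶠ k : ℕ in atTop, ∀ r : ℝ, Gd d c₀ κg β r k →
      K * X0 d 1 (Pd d c₀ k) ≤ r * Pd d c₀ k := by
  obtain ⟨⟨C₁, lam, hCE⟩, -⟩ := Pool.Agent.Y674.CA.lya d χ c₀ hd h
  filter_upwards [ev_X0 hd h (2 * K / β), ev_X0 hd h (K * κg / 2)] with k h1 h2 r hG
  rcases hG with hG | hG
  · have h3 := hCE.bd k
    have h4 : 2 * K / β * X0 d 1 (Pd d c₀ k) ≤ 2 := h1.trans h3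
    have h5 : K * X0 d 1 (Pd d c₀ k) = β / 2 * (2 * K / β * X0 d 1 (Pd d c₀ k)) := by field_simp
    rw [h5]
    calc β / 2 * (2 * K / β * X0 d 1 (Pd d c₀ k)) ≤ β / 2 * 2 := by gcongr
      _ = β := by ring
      _ ≤ _ := hG
  · have h5 : κg * (K * X0 d 1 (Pd d c₀ k)) ≤ κg * (r * Pd d c₀ k) := by
      calc κg * (K * X0 d 1 (Pd d c₀ k)) = 2 * (K * κg / 2 * X0 d 1 (Pd d c₀ k)) := by ring
        _ ≤ 2 * ‖zz d c₀ k‖ := by gcongr
        _ ≤ _ := hG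
    exact le_of_mul_le_mul_left h5 hκg

theorem ev_G2 (hd : 2 ≤ d) (h : Lyap d χ c₀) {κg β : ℝ} (hκg : 0 < κg) (hβ : 0 < β) {ε : ℝ}
    (hε : 0 < ε) : ∀ᶠ k : ℕ in atTop, ∀ r : ℝ, Gd d c₀ κg β r k →
      Real.exp (-((χ + ε) * k)) ≤ r := by
  obtain ⟨⟨C₁, lam, hCE⟩, hL⟩ := Pool.Agent.Y674.CA.lya d χ c₀ hd h
  obtain ⟨C, hC, H⟩ := hL (ε / 4) (by positivity)
  have hC0 : 0 < C := by linarith
  filter_upwards [ev_exp (show 0 < ε / 2 by positivity) (C / β),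
    ev_exp (show 0 < ε / 2 by positivity) (κg * C ^ 2 / 2)] with k h1 h2 r hG
  obtain ⟨-, h3, h4⟩ := H k
  have hPk := hCE.Pd_pos k
  have hk0 : (0 : ℝ) ≤ k := by positivity
  obtain ⟨x, hx⟩ : ∃ x : ℝ, x = ε / 4 * k := ⟨_, rfl⟩
  have hx0 : 0 ≤ x := by rw [hx]; positivity
  have e1 : Real.exp (-((χ + ε) * k)) * Real.exp ((χ + ε / 4) * k) = Real.exp (-(3 * x)) := by
    rw [← Real.exp_add, hx]
    congr 1
    ring
  have e2 : ε / 2 * k = 2 * x := by rw [hx]; ring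
  rw [e2] at h1 h2
  rw [← hx] at h4
  have hle : Real.exp (-((χ + ε) * k)) * Pd d c₀ k ≤ C * Real.exp (-(3 * x)) := by
    calc Real.exp (-((χ + ε) * k)) * Pd d c₀ k ≤
          Real.exp (-((χ + ε) * k)) * (C * Real.exp ((χ + ε / 4) * k)) := by gcongr
      _ = C * (Real.exp (-((χ + ε) * k)) * Real.exp ((χ + ε / 4) * k)) := by ring
      _ = _ := by rw [e1]
  have e3 : Real.exp (2 * x) * Real.exp (-(3 * x)) = Real.exp (-x) := by
    rw [← Real.exp_add]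
    congr 1
    ring
  have hfin : Real.exp (-((χ + ε) * k)) * Pd d c₀ k ≤ r * Pd d c₀ k := by
    refine hle.trans ?_
    rcases hG with hG | hG
    · refine le_trans ?_ hG
      rw [div_le_iff₀ hβ] at h1
      have h5 : Real.exp (-x) ≤ 1 := Real.exp_le_one_iff.2 (by linarith)
      calc C * Real.exp (-(3 * x)) ≤ Real.exp (2 * x) * β * Real.exp (-(3 * x)) := by gcongr
        _ = β * (Real.exp (2 * x) * Real.exp (-(3 * x))) := by ring
        _ = β * Real.exp (-x) := by rw [e3]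
        _ ≤ β * 1 := by gcongr
        _ = β := mul_one _
    · have hz : Real.exp (-x) ≤ C * ‖zz d c₀ k‖ := by
        rw [Real.exp_neg, inv_eq_one_div, div_le_iff₀ (Real.exp_pos _)]
        calc 1 ≤ C * Real.exp x * ‖zz d c₀ k‖ := h4
          _ = _ := by ring
      have h6 : κg * C * (C * Real.exp (-(3 * x))) ≤ κg * C * (r * Pd d c₀ k) := by
        calc κg * C * (C * Real.exp (-(3 * x))) = 2 * ((κg * C ^ 2 / 2) * Real.exp (-(3 * x))) := by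
              ring
          _ ≤ 2 * (Real.exp (2 * x) * Real.exp (-(3 * x))) := by gcongr
          _ = 2 * Real.exp (-x) := by rw [e3]
          _ ≤ 2 * (C * ‖zz d c₀ k‖) := by gcongr
          _ = C * (2 * ‖zz d c₀ k‖) := by ring
          _ ≤ C * (κg * (r * Pd d c₀ k)) := by gcongr
          _ = _ := by ring
      exact le_of_mul_le_mul_left h6 (by positivity)
  exact le_of_mul_le_mul_right hfin hPk

theorem ev_G3 (hd : 2 ≤ d) (h : Lyap d χ c₀) {δ : ℝ} (hδ : 0 < δ) (hδχ : δ ≤ χ) (N : ℕ) :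
    ∀ᶠ k : ℕ in atTop, ∀ r : ℝ, r * Pd d c₀ k ≤ d → ∀ n < N,
      2 * r ≤ Real.exp (-((χ - δ) * ((k + 1 + n : ℕ) : ℝ))) := by
  obtain ⟨⟨C₁, lam, hCE⟩, hL⟩ := Pool.Agent.Y674.CA.lya d χ c₀ hd h
  obtain ⟨C, hC, H⟩ := hL (δ / 2) (by positivity)
  have hC0 : 0 < C := by linarith
  have hdR : (2 : ℝ) ≤ d := by exact_mod_cast hd
  filter_upwards [ev_exp (show 0 < δ / 2 by positivity)
    (2 * d * C * Real.exp ((χ - δ) * (N + 1)))] with k h1 r hr n hn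
  obtain ⟨h2, -, -⟩ := H k
  have hPk := hCE.Pd_pos k
  have hr2 : r ≤ d * C * Real.exp (-((χ - δ / 2) * k)) := by
    have h3 : r * Pd d c₀ k * C ≤ d * C := by gcongr
    have h4 : r * Real.exp ((χ - δ / 2) * k) ≤ d * C := by
      rcases le_or_gt r 0 with h5 | h5
      · have h6 : r * Real.exp ((χ - δ / 2) * k) ≤ 0 :=
          mul_nonpos_of_nonpos_of_nonneg h5 (Real.exp_pos _).le
        have h7 : 0 ≤ (d : ℝ) * C := by positivity
        linarith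
      · calc r * Real.exp ((χ - δ / 2) * k) ≤ r * (C * Pd d c₀ k) := by gcongr
          _ = r * Pd d c₀ k * C := by ring
          _ ≤ _ := h3
    rw [Real.exp_neg, ← div_eq_mul_inv, le_div_iff₀ (Real.exp_pos _)]
    exact h4
  have hn1 : ((k + 1 + n : ℕ) : ℝ) ≤ k + (N + 1) := by
    have : (n : ℝ) ≤ N := by exact_mod_cast hn.le
    push_cast
    linarith
  have h5 : Real.exp (-((χ - δ) * (k + (N + 1)))) ≤
      Real.exp (-((χ - δ) * ((k + 1 + n : ℕ) : ℝ))) := by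
    apply Real.exp_le_exp.2
    have : 0 ≤ χ - δ := by linarith
    nlinarith
  refine le_trans ?_ h5
  have e1 : Real.exp (-((χ - δ / 2) * k)) * Real.exp (δ / 2 * k) =
      Real.exp (-((χ - δ) * (k + (N + 1)))) * Real.exp ((χ - δ) * (N + 1)) := by
    rw [← Real.exp_add, ← Real.exp_add]
    congr 1
    ring
  have h6 : 2 * r * Real.exp ((χ - δ) * (N + 1)) ≤
      Real.exp (-((χ - δ) * (k + (N + 1)))) * Real.exp ((χ - δ) * (N + 1)) := by
    calc 2 * r * Real.exp ((χ - δ) * (N + 1))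
        ≤ 2 * (d * C * Real.exp (-((χ - δ / 2) * k))) * Real.exp ((χ - δ) * (N + 1)) := by gcongr
      _ = Real.exp (-((χ - δ / 2) * k)) * (2 * d * C * Real.exp ((χ - δ) * (N + 1))) := by ring
      _ ≤ Real.exp (-((χ - δ / 2) * k)) * Real.exp (δ / 2 * k) := by gcongr
      _ = _ := e1
  exact le_of_mul_le_mul_right h6 (Real.exp_pos _)

end exps

end Pool.Agent.H206.Rem
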