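import Pool.Agent.H206.RemJ
import Pool.Agent.H206.RemL
import Pool.Agent.H206.RemM
import Pool.Graph.R_seed8.R240.Close

set_option autoImplicit false

/-! # The proportion at good scales -/

open Set Filter Metric MeasureTheory Topology

namespace Pool.Agent.H206.Rem

open Pool.Agent.TH279.MD Pool.Agent.Y298.SH Pool.Agent.Y298.SH.CD Pool.Agent.Y298.CA
open Pool.Agent.H712R2 (P fc P_succ)
open N62a1eb23

theorem zero_mem {d p : ℕ} (hp : 0 < p) {c : ℂ} (h : P d p c = 0) : c ∈ multibrotSet d := by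
  change ¬ Tendsto (fun k => P d k c) atTop (Bornology.cobounded ℂ)
  intro ht
  rw [← tendsto_norm_atTop_iff_cobounded] at ht
  obtain ⟨K, hK⟩ := eventually_atTop.1 (ht.eventually_ge_atTop 1)
  have h1 := hK (p * K) (Nat.le_mul_of_pos_left K hp)
  rw [Pool.Agent.R240.Trans.P_mult h K, norm_zero] at h1
  linarith

theorem zero_HH {d : ℕ} (hd : 2 ≤ d) : (0 : ℂ) ∈ HH d := by
  refine ⟨1, 0, one_pos, ?_, ?_, ?_⟩
  · rw [Function.IsPeriodicPt, Function.iterate_one]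
    change (0 : ℂ) ^ d + 0 = 0
    rw [zero_pow (by omega), zero_add]
  · rw [Function.iterate_one]
    fun_prop
  · rw [Function.iterate_one]
    have h1 : HasDerivAt (fun z : ℂ => z ^ d + 0) (d * (0 : ℂ) ^ (d - 1)) 0 :=
      (hasDerivAt_pow d 0).add_const 0
    rw [h1.deriv, zero_pow (by omega), mul_zero, norm_zero]
    exact one_pos

theorem HH_pos {d : ℕ} (hd : 2 ≤ d) : 0 < volume.real (HH d) := by
  have h1 : 0 < volume (HH d) := (HH_open hd).measure_pos volume ⟨0, zero_HH hd⟩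
  exact ENNReal.toReal_pos h1.ne' (ne_top_of_le_ne_top (multi_fin hd) (measure_mono (HH_sub hd)))

theorem multi_pos {d : ℕ} (hd : 2 ≤ d) : 0 < volume.real (multibrotSet d) :=
  (HH_pos hd).trans_le (area_le hd)

/-- a centre in the disc, at good scales -/
theorem low_center {d : ℕ} (hd : 2 ≤ d) {c₀ : ℂ} {κg Ca μ r β : ℝ} {k : ℕ} {D : ℂ} {g : ℂ → ℂ}
    (X : PCv d c₀ κg Ca μ r k D g) (hr : 0 < r) (hκg : 0 < κg) (hP0 : 0 < Pd d c₀ k) (hβ : 0 < β)
    {N₁ : ℕ} (hG : Gd d c₀ κg β r k)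
    (hZ : DifferentiableOn ℂ g (ball (zz d c₀ k) (15 / 32 * κg * β)) →
      (∀ w ∈ ball (zz d c₀ k) (15 / 32 * κg * β), ‖g w - c₀‖ ≤ 8 * r) →
      ∃ n < N₁, ∃ w ∈ ball (zz d c₀ k) (15 / 32 * κg * β), GG d g n w = 0) :
    ∃ c₁ ∈ closedBall c₀ r, ∃ n < N₁ + 1, P d (k + 1 + n) c₁ = 0 := by
  have hD0 : 0 < ‖D‖ := norm_pos_iff.2 X.D0
  have hFd := GG_id_diff hd k
  have hF0 : GG d id k c₀ = zz d c₀ k := rfl
  rcases hG with hG | hG
  · have h1 : κg * β ≤ ‖D‖ * r := by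
      calc κg * β ≤ κg * (r * Pd d c₀ k) := by gcongr
        _ = κg * Pd d c₀ k * r := by ring
        _ ≤ ‖D‖ * r := by
          gcongr
          exact X.lo
    have hsub : ball (zz d c₀ k) (15 / 32 * κg * β) ⊆ ball (zz d c₀ k) (3 * ‖D‖ * r) := by
      apply ball_subset_ball
      have : 0 < κg * β := by positivity
      linarith
    obtain ⟨n, hn, w, hw, hw0⟩ := hZ (X.cv.hol.mono hsub) fun w hw => by
      have h2 := (X.inv w (hsub hw)).1
      rw [mem_ball, dist_eq_norm] at h2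
      exact h2.le
    have h3 := aff_surj (G := GG d id k) (w := c₀) (D := D) (ρ := 8 * r) (by positivity)
      hFd.differentiableOn X.D0 X.dst (t := r) hr (by linarith)
    rw [hF0] at h3
    have h4 : w ∈ ball (zz d c₀ k) (15 / 32 * ‖D‖ * r) := by
      refine ball_subset_ball ?_ hw
      calc 15 / 32 * κg * β = 15 / 32 * (κg * β) := by ring
        _ ≤ 15 / 32 * (‖D‖ * r) := by gcongr
        _ = _ := by ring
    obtain ⟨x, hx, hxw⟩ := h3 h4
    refine ⟨x, hx, n, by omega, ?_⟩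
    have h5 : g w = x := by
      rw [← hxw]
      refine X.inv' x (closedBall_subset_ball (by linarith) hx) ?_
      rw [hxw]
      exact hsub hw
    rw [← h5]
    exact X.center hd (hsub hw) hw0
  · have h1 : 2 * ‖zz d c₀ k‖ ≤ ‖D‖ * r := by
      calc 2 * ‖zz d c₀ k‖ ≤ κg * (r * Pd d c₀ k) := hG
        _ = κg * Pd d c₀ k * r := by ring
        _ ≤ ‖D‖ * r := by
          gcongr
          exact X.lo
    have h2 : 0 < ‖D‖ * r := by positivity
    obtain ⟨z, hz1, -, hz3⟩ := aff_zero (G := GG d id k) (w := c₀) (D := D) (ρ := 8 * r)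
      (by positivity) hFd.differentiableOn X.D0 X.dst (by
        rw [hF0]
        nlinarith)
    refine ⟨z, ?_, 0, by omega, ?_⟩
    · rw [mem_closedBall, dist_eq_norm]
      refine hz1.trans ?_
      rw [hF0, div_le_iff₀ hD0]
      linarith
    · rw [add_zero, P_succ_eq hd]
      exact hz3

/-- the remainder -/
theorem rem_pull {d : ℕ} (hd : 2 ≤ d) {c₀ : ℂ} {κg Ca μ r : ℝ} {k : ℕ} {D : ℂ} {g : ℂ → ℂ}
    (X : PCv d c₀ κg Ca μ r k D g) (hr : 0 < r) (hκg : 0 < κg) (hP0 : 0 < Pd d c₀ k)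
    {δ X₀ v : ℝ} {N : ℕ} (hv : 0 ≤ v)
    (hvol : volume ((BB d g ∩ ball (zz d c₀ k) (3 * ‖D‖ * r / 2)) \
      CE d δ N g (zz d c₀ k) (3 * ‖D‖ * r) X₀) ≤ ENNReal.ofReal v) {U : Set ℂ}
    (hU : ∀ x ∈ multibrotSet d ∩ closedBall c₀ r,
      GG d id k x ∈ CE d δ N g (zz d c₀ k) (3 * ‖D‖ * r) X₀ → x ∈ U) :
    volume.real ((multibrotSet d ∩ closedBall c₀ r) \ U) ≤ 2 / (κg * Pd d c₀ k) ^ 2 * v := by
  have hD0 : 0 < ‖D‖ := norm_pos_iff.2 X.D0
  have hFd := GG_id_diff hd k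
  have hsub : closedBall c₀ r ⊆ ball c₀ (8 * r) := closedBall_subset_ball (by linarith)
  obtain ⟨E, hE⟩ : ∃ E, E = (BB d g ∩ ball (zz d c₀ k) (3 * ‖D‖ * r / 2)) \
      CE d δ N g (zz d c₀ k) (3 * ‖D‖ * r) X₀ := ⟨_, rfl⟩
  rw [← hE] at hvol
  have h1 := vol_pull (F := GG d id k) hFd (B := closedBall c₀ r)
    isClosed_closedBall.measurableSet
    ((aff_inj hFd.differentiableOn X.D0 X.dst).mono hsub) (q := 15 / 16 * ‖D‖) (by positivity)
    (fun x hx => (aff_der X.dst x (hsub hx)).1) E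
  have h2 : (multibrotSet d ∩ closedBall c₀ r) \ U ⊆ closedBall c₀ r ∩ GG d id k ⁻¹' E := by
    rintro x ⟨⟨hx1, hx2⟩, hx3⟩
    refine ⟨hx2, ?_⟩
    rw [hE]
    exact ⟨⟨X.mem_BB hd hr hx2 hx1, X.img hd hr hx2⟩, fun h3 => hx3 (hU x ⟨hx1, hx2⟩ h3)⟩
  have h3 : volume ((multibrotSet d ∩ closedBall c₀ r) \ U) ≤
      ENNReal.ofReal (2 / (κg * Pd d c₀ k) ^ 2 * v) := by
    refine (measure_mono h2).trans (h1.trans ?_)
    rw [ENNReal.ofReal_mul (by positivity)]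
    have h4 : 1 / (15 / 16 * ‖D‖) ^ 2 ≤ 2 / (κg * Pd d c₀ k) ^ 2 := by
      have h5 : (κg * Pd d c₀ k) ^ 2 ≤ ‖D‖ ^ 2 := by
        have := X.lo
        gcongr
      rw [div_le_div_iff₀ (by positivity) (by positivity)]
      have h6 : 0 < ‖D‖ ^ 2 := by positivity
      calc 1 * (κg * Pd d c₀ k) ^ 2 ≤ ‖D‖ ^ 2 := by linarith
        _ ≤ 2 * (15 / 16 * ‖D‖) ^ 2 := by
          rw [mul_pow]
          linarith
    exact mul_le_mul' (ENNReal.ofReal_le_ofReal h4) hvol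
  have h4 := ENNReal.toReal_mono ENNReal.ofReal_ne_top h3
  rwa [ENNReal.toReal_ofReal (by positivity)] at h4

end Pool.Agent.H206.Rem
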