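import Pool.Agent.H206.RemM

set_option autoImplicit false

/-! # The bad scales -/

open Set Filter Metric MeasureTheory Topology

namespace Pool.Agent.H206.Rem

open Pool.Agent.TH279.MD Pool.Agent.Y298.SH Pool.Agent.Y298.SH.CD Pool.Agent.Y298.CA

variable {d : ℕ} {C₁ lam : ℝ} {c₀ : ℂ}

theorem Am_succ (d : ℕ) (c₀ : ℂ) (k : ℕ) :
    Am d c₀ (k + 1) = Am d c₀ k + Pd d c₀ k / ‖zz d c₀ k‖ := by
  unfold Am
  rw [Finset.sum_range_succ]

theorem Am_zero (d : ℕ) (c₀ : ℂ) : Am d c₀ 0 = 0 := by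
  unfold Am
  simp

theorem Am_nonneg (h : CEp d C₁ lam c₀) (k : ℕ) : 0 ≤ Am d c₀ k := by
  unfold Am
  exact Finset.sum_nonneg fun i _ => div_nonneg (h.Pd_pos i).le (norm_nonneg _)

theorem Am_low (h : CEp d C₁ lam c₀) (k : ℕ) : lam ^ k ≤ 2 * C₁ * Am d c₀ (k + 1) := by
  have h1 := h.exp k
  have h2 := h.Pd_pos k
  have h3 : 0 < ‖zz d c₀ k‖ := norm_pos_iff.2 (h.zz_ne k)
  have h4 := h.bd k
  have h5 := Am_nonneg h k
  have hC1 := h.C1
  have h6 : Pd d c₀ k ≤ 2 * (Pd d c₀ k / ‖zz d c₀ k‖) := by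
    rw [← mul_div_assoc, le_div_iff₀ h3]
    nlinarith
  rw [Am_succ]
  calc lam ^ k ≤ C₁ * Pd d c₀ k := h1
    _ ≤ C₁ * (2 * (Pd d c₀ k / ‖zz d c₀ k‖)) := by gcongr
    _ ≤ C₁ * (2 * (Am d c₀ k + Pd d c₀ k / ‖zz d c₀ k‖)) := by
      gcongr
      linarith
    _ = _ := by ring

/-- a band of scales -/
theorem vol_band {x x' y : ℝ} (hx : 0 < x) (hy : 0 < y) :
    volume {t : ℝ | x < Real.exp (-t) * y ∧ Real.exp (-t) * y ≤ x'} ≤
      ENNReal.ofReal (Real.log x' - Real.log x) := by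
  have h1 : {t : ℝ | x < Real.exp (-t) * y ∧ Real.exp (-t) * y ≤ x'} ⊆
      Icc (Real.log y - Real.log x') (Real.log y - Real.log x) := by
    rintro t ⟨h2, h3⟩
    have h4 := Real.log_lt_log hx h2
    have h5 := Real.log_le_log (by positivity) h3
    rw [Real.log_mul (Real.exp_pos _).ne' hy.ne', Real.log_exp] at h4 h5
    constructor <;> linarith
  refine (measure_mono h1).trans ?_
  rw [Real.volume_Icc]
  apply ENNReal.ofReal_le_ofReal
  linarith

/-- the bad scales with time `k` -/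
def Bk (d : ℕ) (c₀ : ℂ) (b κg β : ℝ) (k : ℕ) : Set ℝ :=
  {t | Real.exp (-t) * Am d c₀ k ≤ b ∧ b < Real.exp (-t) * Am d c₀ (k + 1) ∧
    Real.exp (-t) * Pd d c₀ k < β ∧ κg * (Real.exp (-t) * Pd d c₀ k) < 2 * ‖zz d c₀ k‖}

theorem Bk_vol1 (h : CEp d C₁ lam c₀) {b κg β : ℝ} (hb : 0 < b) (hκg : 0 < κg) (k : ℕ) :
    volume (Bk d c₀ b κg β k) ≤ ENNReal.ofReal (Real.log 2 + |Real.log (4 / (κg * b))|) := by
  have hP := h.Pd_pos k
  have hz : 0 < ‖zz d c₀ k‖ := norm_pos_iff.2 (h.zz_ne k)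
  have hA := Am_nonneg h k
  have hsub : Bk d c₀ b κg β k ⊆
      {t : ℝ | b / 2 < Real.exp (-t) * Am d c₀ k ∧ Real.exp (-t) * Am d c₀ k ≤ b} ∪
      {t : ℝ | b * ‖zz d c₀ k‖ / 2 < Real.exp (-t) * Pd d c₀ k ∧
        Real.exp (-t) * Pd d c₀ k ≤ 2 * ‖zz d c₀ k‖ / κg} := by
    rintro t ⟨h1, h2, -, h4⟩
    by_cases h5 : b / 2 < Real.exp (-t) * Am d c₀ k
    · exact Or.inl ⟨h5, h1⟩
    · right
      rw [not_lt] at h5
      rw [Am_succ, mul_add] at h2
      have h6 : b / 2 < Real.exp (-t) * (Pd d c₀ k / ‖zz d c₀ k‖) := by linarith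
      rw [← mul_div_assoc, lt_div_iff₀ hz] at h6
      refine ⟨?_, ?_⟩
      · linarith
      · rw [le_div_iff₀ hκg]
        linarith
  refine (measure_mono hsub).trans ((measure_union_le _ _).trans ?_)
  rw [ENNReal.ofReal_add (Real.log_nonneg (by norm_num)) (abs_nonneg _)]
  refine add_le_add ?_ ?_
  · rcases hA.eq_or_lt with hA0 | hA0
    · have : {t : ℝ | b / 2 < Real.exp (-t) * Am d c₀ k ∧ Real.exp (-t) * Am d c₀ k ≤ b} = ∅ := by
        ext t
        simp only [mem_ofPred_eq, mem_empty_iff_false, iff_false]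
        rintro ⟨h1, -⟩
        rw [← hA0, mul_zero] at h1
        linarith
      rw [this, measure_empty]
      exact bot_le
    · refine (vol_band (by positivity) hA0).trans (ENNReal.ofReal_le_ofReal ?_)
      rw [Real.log_div hb.ne' (by norm_num)]
      linarith
  · refine (vol_band (by positivity) hP).trans (ENNReal.ofReal_le_ofReal ?_)
    have h1 : Real.log (2 * ‖zz d c₀ k‖ / κg) - Real.log (b * ‖zz d c₀ k‖ / 2) =
        Real.log (4 / (κg * b)) := by
      rw [← Real.log_div (by positivity) (by positivity)]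
      congr 1
      field_simp
      norm_num
    rw [h1]
    exact le_abs_self _

theorem Bk_vol2 (h : CEp d C₁ lam c₀) {b κg β : ℝ} (hb : 0 < b) (hβ : 0 < β)
    (hβb : √β ≤ b / 2) {k : ℕ} (hk : √β ≤ ‖zz d c₀ k‖) :
    volume (Bk d c₀ b κg β k) ≤ ENNReal.ofReal (2 * √β / b) := by
  have hP := h.Pd_pos k
  have hz : 0 < ‖zz d c₀ k‖ := norm_pos_iff.2 (h.zz_ne k)
  have hsβ : 0 < √β := Real.sqrt_pos.2 hβ
  have hβs : √β * √β = β := Real.mul_self_sqrt hβ.le
  rcases (Bk d c₀ b κg β k).eq_empty_or_nonempty with h0 | ⟨t, h1, h2, h3, -⟩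
  · rw [h0, measure_empty]
    exact bot_le
  obtain ⟨A, hA⟩ : ∃ A, A = Am d c₀ k := ⟨_, rfl⟩
  obtain ⟨Q, hQ⟩ : ∃ Q, Q = Pd d c₀ k / ‖zz d c₀ k‖ := ⟨_, rfl⟩
  obtain ⟨x, hx⟩ : ∃ x, x = Real.exp (-t) := ⟨_, rfl⟩
  have hx0 : 0 < x := by rw [hx]; exact Real.exp_pos _
  have hQ0 : 0 < Q := by rw [hQ]; positivity
  rw [Am_succ, ← hA, ← hQ, ← hx] at h2
  rw [← hx] at h3
  have h4 : x * Q ≤ √β := by
    rw [hQ, ← mul_div_assoc, div_le_iff₀ hz]
    calc x * Pd d c₀ k ≤ β := h3.le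
      _ = √β * √β := hβs.symm
      _ ≤ √β * ‖zz d c₀ k‖ := by gcongr
  have h5 : b / 2 < x * A := by linarith
  have hA0 : 0 < A := by
    by_contra hcon
    rw [not_lt] at hcon
    have : x * A ≤ 0 := mul_nonpos_of_nonneg_of_nonpos hx0.le hcon
    linarith
  have hQA : Q / A ≤ 2 * √β / b := by
    rw [div_le_div_iff₀ hA0 hb]
    have h6 : x * (Q * b) ≤ x * (2 * √β * A) := by
      calc x * (Q * b) = (x * Q) * b := by ring
        _ ≤ √β * b := by gcongr
        _ ≤ √β * (2 * (x * A)) := by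
          gcongr
          linarith
        _ = _ := by ring
    exact le_of_mul_le_mul_left h6 hx0
  have hsub : Bk d c₀ b κg β k ⊆ Icc (Real.log A - Real.log b) (Real.log (A + Q) - Real.log b) := by
    rintro t ⟨h1, h2, -, -⟩
    rw [← hA] at h1
    rw [Am_succ, ← hA, ← hQ] at h2
    have h6 := Real.log_le_log (by positivity) h1
    have h7 := Real.log_lt_log hb h2
    rw [Real.log_mul (Real.exp_pos _).ne' hA0.ne', Real.log_exp] at h6
    rw [Real.log_mul (Real.exp_pos _).ne' (by positivity), Real.log_exp] at h7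
    constructor <;> linarith
  refine (measure_mono hsub).trans ?_
  rw [Real.volume_Icc]
  apply ENNReal.ofReal_le_ofReal
  have h8 : Real.log (A + Q) - Real.log A ≤ Q / A := by
    rw [← Real.log_div (by positivity) hA0.ne']
    have h9 := Real.log_le_sub_one_of_pos (show 0 < (A + Q) / A by positivity)
    have h10 : (A + Q) / A - 1 = Q / A := by field_simp; ring
    linarith
  linarith

/-- the time of a scale -/
theorem Bk_cover (h : CEp d C₁ lam c₀) {b κg : ℝ} (hb : 0 < b) : ∃ a : ℝ, 0 < a ∧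
    ∀ (β T t : ℝ), t ∈ Icc 0 T → (∀ k, ¬ (Real.exp (-t) * Am d c₀ k ≤ b ∧
      Gd d c₀ κg β (Real.exp (-t)) k)) → ∃ k : ℕ, (k : ℝ) ≤ a * (T + 1) ∧
        t ∈ Bk d c₀ b κg β k := by
  have hC1 := h.C1
  have hl := h.lam1
  have hloglam : 0 < Real.log lam := Real.log_pos hl
  obtain ⟨a, ha⟩ : ∃ a : ℝ, a = 1 + (1 + |Real.log (2 * C₁ * b)|) / Real.log lam := ⟨_, rfl⟩
  have ha0 : 0 < a := by rw [ha]; positivity
  refine ⟨a, ha0, ?_⟩
  intro β T t ht hbad
  have hT0 : 0 ≤ T := ht.1.trans ht.2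
  obtain ⟨x, hx⟩ : ∃ x, x = Real.exp (-t) := ⟨_, rfl⟩
  have hx0 : 0 < x := by rw [hx]; exact Real.exp_pos _
  have hex : ∃ k : ℕ, b < x * Am d c₀ k := by
    obtain ⟨n, hn⟩ := pow_unbounded_of_one_lt (2 * C₁ * b / x) hl
    refine ⟨n + 1, ?_⟩
    have h1 := Am_low h n
    rw [div_lt_iff₀ hx0] at hn
    have h2 : 2 * C₁ * b < 2 * C₁ * (x * Am d c₀ (n + 1)) := by
      calc 2 * C₁ * b < lam ^ n * x := hn
        _ ≤ 2 * C₁ * Am d c₀ (n + 1) * x := by gcongr
        _ = _ := by ring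
    exact lt_of_mul_lt_mul_left h2 (by positivity)
  classical
  obtain ⟨m, hm⟩ : ∃ m, m = Nat.find hex := ⟨_, rfl⟩
  have hm1 : b < x * Am d c₀ m := by rw [hm]; exact Nat.find_spec hex
  have hm0 : m ≠ 0 := by
    rintro rfl
    rw [Am_zero, mul_zero] at hm1
    linarith
  obtain ⟨k, rfl⟩ : ∃ k, m = k + 1 := ⟨m - 1, by omega⟩
  have hk1 : x * Am d c₀ k ≤ b := by
    have h1 : ¬ b < x * Am d c₀ k := Nat.find_min hex (by omega)
    exact not_lt.1 h1
  have hnG : ¬ Gd d c₀ κg β x k := by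
    intro hG
    refine hbad k ⟨?_, ?_⟩
    · rw [← hx]; exact hk1
    · rw [← hx]; exact hG
  unfold Gd at hnG
  push Not at hnG
  refine ⟨k, ?_, ?_⟩
  · rcases Nat.eq_zero_or_pos k with rfl | hk0
    · rw [Nat.cast_zero]
      positivity
    · obtain ⟨j, rfl⟩ : ∃ j, k = j + 1 := ⟨k - 1, by omega⟩
      have h1 := Am_low h j
      have h2 : lam ^ j ≤ 2 * C₁ * b * Real.exp T := by
        have h3 : Real.exp (-T) ≤ x := by rw [hx]; exact Real.exp_le_exp.2 (by linarith [ht.2])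
        have h4 : Real.exp (-T) * Am d c₀ (j + 1) ≤ b := by
          refine le_trans ?_ hk1
          have := Am_nonneg h (j + 1)
          gcongr
        have h5 : Am d c₀ (j + 1) ≤ b * Real.exp T := by
          rw [Real.exp_neg, inv_mul_le_iff₀ (Real.exp_pos _)] at h4
          linarith
        calc lam ^ j ≤ 2 * C₁ * Am d c₀ (j + 1) := h1
          _ ≤ 2 * C₁ * (b * Real.exp T) := by gcongr
          _ = _ := by ring
      have h3 := Real.log_le_log (by positivity) h2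
      rw [Real.log_pow, Real.log_mul (by positivity) (Real.exp_pos _).ne', Real.log_exp] at h3
      have h4 := le_abs_self (Real.log (2 * C₁ * b))
      have h5 : (j : ℝ) ≤ (|Real.log (2 * C₁ * b)| + T) / Real.log lam := by
        rw [le_div_iff₀ hloglam]
        linarith
      have h6 : (|Real.log (2 * C₁ * b)| + T) / Real.log lam ≤
          (1 + |Real.log (2 * C₁ * b)|) / Real.log lam * (T + 1) := by
        rw [div_mul_eq_mul_div]
        gcongr
        have : 0 ≤ |Real.log (2 * C₁ * b)| := abs_nonneg _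
        nlinarith
      push_cast
      rw [ha]
      linarith
  · refine ⟨?_, ?_, ?_, ?_⟩
    · rw [← hx]; exact hk1
    · rw [← hx]; exact hm1
    · rw [← hx]; exact hnG.1
    · rw [← hx]; exact hnG.2

/-- close returns to the critical point are rare -/
theorem gap (h : CEp d C₁ lam c₀) (L : ℕ) : ∃ ρ : ℝ, 0 < ρ ∧ ∀ k j : ℕ, 1 ≤ j → j ≤ L →
    ‖zz d c₀ k‖ < ρ → ρ ≤ ‖zz d c₀ (k + j)‖ := by
  induction L with
  | zero => exact ⟨1, one_pos, fun k j h1 h2 => by omega⟩
  | succ L ih =>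
    obtain ⟨ρ, hρ, H⟩ := ih
    have hc : Continuous fun z => ‖(f d c₀)^[L + 1] z‖ :=
      (differentiable_fn d c₀ (L + 1)).continuous.norm
    have h0 : (f d c₀)^[L + 1] 0 = zz d c₀ L := by
      rw [Function.iterate_succ_apply]
      congr 1
      unfold f
      rw [zero_pow (by have := h.hd; omega), zero_add]
    have hz : 0 < ‖zz d c₀ L‖ := norm_pos_iff.2 (h.zz_ne L)
    have h1 : ∀ᶠ z in 𝓝 (0 : ℂ), ‖zz d c₀ L‖ / 2 < ‖(f d c₀)^[L + 1] z‖ := by
      have h2 := hc.tendsto 0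
      rw [h0] at h2
      exact h2.eventually (lt_mem_nhds (by linarith))
    rw [Metric.eventually_nhds_iff] at h1
    obtain ⟨ρ₂, hρ₂, H₂⟩ := h1
    refine ⟨min ρ (min ρ₂ (‖zz d c₀ L‖ / 2)), by positivity, fun k j hj1 hj2 hk => ?_⟩
    rcases Nat.lt_or_ge j (L + 1) with h3 | h3
    · exact (min_le_left _ _).trans (H k j hj1 (by omega) (hk.trans_le (min_le_left _ _)))
    · obtain rfl : j = L + 1 := by omega
      have h4 := H₂ (y := zz d c₀ k) (by
        rw [dist_zero_right]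
        exact hk.trans_le ((min_le_right _ _).trans (min_le_left _ _)))
      have h5 : (f d c₀)^[L + 1] (zz d c₀ k) = zz d c₀ (k + (L + 1)) := by
        unfold zz
        rw [← Function.iterate_add_apply, add_comm]
      rw [h5] at h4
      exact ((min_le_right _ _).trans (min_le_right _ _)).trans h4.le

/-- the number of close returns -/
theorem gap_card {z : ℕ → ℝ} {L : ℕ} (hL : 1 ≤ L) {ρ : ℝ}
    (h : ∀ k j : ℕ, 1 ≤ j → j ≤ L → z k < ρ → ρ ≤ z (k + j)) (K : ℕ) :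
    (((Finset.range K).filter fun k => z k < ρ).card : ℝ) ≤ K / L + 1 := by
  classical
  have h1 : ((Finset.range K).filter fun k => z k < ρ).card ≤ (Finset.range (K / L + 1)).card := by
    refine Finset.card_le_card_of_injOn (fun k => k / L) (fun k hk => ?_) ?_
    · simp only [Finset.coe_filter, Finset.mem_range, mem_ofPred_eq] at hk
      simp only [Finset.coe_range, mem_Iio]
      exact Nat.lt_succ_of_le (Nat.div_le_div_right hk.1.le)
    · have key : ∀ k k' : ℕ, z k < ρ → z k' < ρ → k < k' → k / L ≠ k' / L := by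
        intro k k' hk hk' hlt he
        have h2 : L < k' - k := by
          by_contra hcon
          have h3 := h k (k' - k) (by omega) (by omega) hk
          rw [show k + (k' - k) = k' by omega] at h3
          linarith
        have h4 : k / L + 1 ≤ k' / L := by
          have h5 : (k + L) / L ≤ k' / L := Nat.div_le_div_right (by omega)
          rwa [Nat.add_div_right _ (by omega)] at h5
        omega
      intro k hk k' hk' he
      simp only [Finset.coe_filter, Finset.mem_range, mem_ofPred_eq] at hk hk'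
      rcases Nat.lt_trichotomy k k' with h2 | h2 | h2
      · exact absurd he (key k k' hk.2 hk'.2 h2)
      · exact h2
      · exact absurd he.symm (key k' k hk'.2 hk.2 h2)
  rw [Finset.card_range] at h1
  have h2 : (((Finset.range K).filter fun k => z k < ρ).card : ℝ) ≤ ((K / L + 1 : ℕ) : ℝ) := by
    exact_mod_cast h1
  refine h2.trans ?_
  push_cast
  have h3 : ((K / L : ℕ) : ℝ) ≤ (K : ℝ) / L := Nat.cast_div_le
  linarith

/-- **The bad scales have a small density.** -/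
theorem bad_density (h : CEp d C₁ lam c₀) {b κg : ℝ} (hb : 0 < b) (hκg : 0 < κg) {η : ℝ}
    (hη : 0 < η) : ∃ β : ℝ, 0 < β ∧ ∀ᶠ T : ℝ in atTop,
      volume {t : ℝ | t ∈ Icc 0 T ∧ ∀ k, ¬ (Real.exp (-t) * Am d c₀ k ≤ b ∧
        Gd d c₀ κg β (Real.exp (-t)) k)} ≤ ENNReal.ofReal (η * T) := by
  classical
  obtain ⟨a, ha, Hc⟩ := Bk_cover (κg := κg) h hb
  obtain ⟨C, hC⟩ : ∃ C : ℝ, C = Real.log 2 + |Real.log (4 / (κg * b))| := ⟨_, rfl⟩
  have hC0 : 0 < C := by
    have h1 : 0 < Real.log 2 := Real.log_pos (by norm_num)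
    have h2 := abs_nonneg (Real.log (4 / (κg * b)))
    linarith
  obtain ⟨L, hL⟩ := exists_nat_ge (16 * a * C / η + 1)
  have hL0 : (0 : ℝ) < L := lt_of_lt_of_le (by positivity) hL
  have hL1 : 1 ≤ L := by exact_mod_cast hL0
  obtain ⟨ρ, hρ, Hg⟩ := gap h L
  obtain ⟨σ, hσ⟩ : ∃ σ : ℝ, σ = min (min ρ (b / 2)) (b * η / (16 * a)) := ⟨_, rfl⟩
  have hσ0 : 0 < σ := by rw [hσ]; positivity
  have hσρ : σ ≤ ρ := by rw [hσ]; exact (min_le_left _ _).trans (min_le_left _ _)
  have hσb : σ ≤ b / 2 := by rw [hσ]; exact (min_le_left _ _).trans (min_le_right _ _)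
  have hση : σ ≤ b * η / (16 * a) := by rw [hσ]; exact min_le_right _ _
  have hsq : √(σ ^ 2) = σ := Real.sqrt_sq hσ0.le
  refine ⟨σ ^ 2, by positivity, ?_⟩
  filter_upwards [eventually_ge_atTop (max 0 (((a + 1) * (3 * η / (16 * a)) + C) / (13 / 16 * η)))]
    with T hT
  have hT0 : 0 ≤ T := (le_max_left _ _).trans hT
  have hT1 : (a + 1) * (3 * η / (16 * a)) + C ≤ 13 / 16 * η * T := by
    have h1 := (le_max_right _ _).trans hT
    rw [div_le_iff₀ (by positivity)] at h1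
    linarith
  obtain ⟨K, hK⟩ : ∃ K : ℕ, K = ⌊a * (T + 1)⌋₊ + 1 := ⟨_, rfl⟩
  have hK1 : (K : ℝ) ≤ a * (T + 1) + 1 := by
    rw [hK]
    push_cast
    have := Nat.floor_le (show 0 ≤ a * (T + 1) by positivity)
    linarith
  have hsub : {t : ℝ | t ∈ Icc 0 T ∧ ∀ k, ¬ (Real.exp (-t) * Am d c₀ k ≤ b ∧
      Gd d c₀ κg (σ ^ 2) (Real.exp (-t)) k)} ⊆
      ⋃ k ∈ Finset.range K, Bk d c₀ b κg (σ ^ 2) k := by
    rintro t ⟨ht, hbad⟩
    obtain ⟨k, hk1, hk2⟩ := Hc (σ ^ 2) T t ht hbad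
    simp only [mem_iUnion, Finset.mem_range]
    refine ⟨k, ?_, hk2⟩
    rw [hK]
    exact Nat.lt_succ_of_le (Nat.le_floor hk1)
  obtain ⟨v, hv⟩ : ∃ v : ℕ → ℝ, v = fun k => 2 * σ / b + if ‖zz d c₀ k‖ < ρ then C else 0 :=
    ⟨_, rfl⟩
  have hv0 : ∀ k, 0 ≤ v k := by
    intro k
    rw [hv]
    dsimp only
    split_ifs <;> positivity
  have hvol : ∀ k, volume (Bk d c₀ b κg (σ ^ 2) k) ≤ ENNReal.ofReal (v k) := by
    intro k
    rw [hv]
    dsimp only
    split_ifs with h1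
    · refine (Bk_vol1 h hb hκg k).trans (ENNReal.ofReal_le_ofReal ?_)
      rw [← hC]
      have : 0 ≤ 2 * σ / b := by positivity
      linarith
    · rw [not_lt] at h1
      refine (Bk_vol2 h hb (by positivity) (by rw [hsq]; exact hσb)
        (by rw [hsq]; exact hσρ.trans h1)).trans (ENNReal.ofReal_le_ofReal ?_)
      rw [hsq, add_zero]
  refine (measure_mono hsub).trans ((measure_biUnion_finset_le _ _).trans ?_)
  refine (Finset.sum_le_sum fun k _ => hvol k).trans ?_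
  rw [← ENNReal.ofReal_sum_of_nonneg fun k _ => hv0 k]
  apply ENNReal.ofReal_le_ofReal
  have hsum : ∑ k ∈ Finset.range K, v k = K * (2 * σ / b) +
      (((Finset.range K).filter fun k => ‖zz d c₀ k‖ < ρ).card : ℝ) * C := by
    rw [hv]
    simp only
    rw [Finset.sum_add_distrib, Finset.sum_const, Finset.card_range, nsmul_eq_mul,
      ← Finset.sum_filter, Finset.sum_const, nsmul_eq_mul]
  rw [hsum]
  have hcard := gap_card (z := fun k => ‖zz d c₀ k‖) hL1 (ρ := ρ) Hg K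
  have hK0 : (0 : ℝ) ≤ K := by positivity
  have t1 : 2 * σ / b ≤ η / (8 * a) := by
    rw [div_le_div_iff₀ hb (by positivity)]
    rw [le_div_iff₀ (by positivity)] at hση
    linarith
  have t2 : C / L ≤ η / (16 * a) := by
    rw [div_le_div_iff₀ hL0 (by positivity)]
    have h1 : 16 * a * C / η ≤ L := by linarith
    rw [div_le_iff₀ hη] at h1
    linarith
  calc (K : ℝ) * (2 * σ / b) + (((Finset.range K).filter fun k => ‖zz d c₀ k‖ < ρ).card : ℝ) * C
      ≤ K * (2 * σ / b) + (K / L + 1) * C := by gcongr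
    _ = K * (2 * σ / b) + K * (C / L) + C := by ring
    _ ≤ K * (η / (8 * a)) + K * (η / (16 * a)) + C := by gcongr
    _ = K * (3 * η / (16 * a)) + C := by
        field_simp
        ring
    _ ≤ (a * (T + 1) + 1) * (3 * η / (16 * a)) + C := by gcongr
    _ = 3 / 16 * η * T + ((a + 1) * (3 * η / (16 * a)) + C) := by
        field_simp
        ring
    _ ≤ 3 / 16 * η * T + 13 / 16 * η * T := by gcongr
    _ = η * T := by ring

end Pool.Agent.H206.Rem
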