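import Mathlib

set_option autoImplicit false

/-! # Monotone functions with linear growth are almost constant at most scales -/

open Set Filter Metric MeasureTheory Topology

namespace Pool.Agent.H206.Rem

/-- a monotone function has few jumps -/
theorem jump_vol {φ : ℝ → ℝ} (hφ : Monotone φ) {lam η : ℝ} (hl : 0 < lam) (hη : 0 < η) (N : ℕ) :
    volume {t : ℝ | t ∈ Icc 0 (N * lam) ∧ φ (t - lam) + η < φ t} ≤
      ENNReal.ofReal (2 * lam / η * (φ (N * lam) - φ (-lam))) := by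
  obtain ⟨Δ, hΔ⟩ : ∃ Δ : ℕ → ℝ, Δ = fun j : ℕ => φ (((j : ℝ) + 1) * lam) - φ (((j : ℝ) - 1) * lam) := ⟨_, rfl⟩
  have hΔ0 : ∀ j, 0 ≤ Δ j := by
    intro j
    rw [hΔ]
    have : φ ((j - 1) * lam) ≤ φ ((j + 1) * lam) := hφ (by nlinarith)
    simp only
    linarith
  have hsub : {t : ℝ | t ∈ Icc 0 (N * lam) ∧ φ (t - lam) + η < φ t} ⊆
      ({(N : ℝ) * lam} : Set ℝ) ∪ ⋃ j ∈ Finset.range N,
        {t : ℝ | t ∈ Icc (j * lam) ((j + 1) * lam) ∧ φ (t - lam) + η < φ t} := by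
    rintro t ⟨⟨ht1, ht2⟩, ht3⟩
    rcases ht2.eq_or_lt with h1 | h1
    · exact Or.inl h1
    right
    simp only [mem_iUnion, Finset.mem_range]
    have h2 : t / lam < N := by rwa [div_lt_iff₀ hl]
    have h3 : 0 ≤ t / lam := by positivity
    refine ⟨⌊t / lam⌋₊, (Nat.floor_lt h3).2 h2, ⟨?_, ?_⟩, ht3⟩
    · have h4 := Nat.floor_le h3
      calc (⌊t / lam⌋₊ : ℝ) * lam ≤ t / lam * lam := by gcongr
        _ = t := by field_simp
    · have h4 := Nat.lt_floor_add_one (t / lam)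
      calc t = t / lam * lam := by field_simp
        _ ≤ (⌊t / lam⌋₊ + 1) * lam := by gcongr
  have hone : ∀ j : ℕ, volume {t : ℝ | t ∈ Icc (j * lam) ((j + 1) * lam) ∧
      φ (t - lam) + η < φ t} ≤ ENNReal.ofReal (lam / η * Δ j) := by
    intro j
    rcases Set.eq_empty_or_nonempty {t : ℝ | t ∈ Icc (j * lam) ((j + 1) * lam) ∧
      φ (t - lam) + η < φ t} with h0 | ⟨t, ⟨ht1, ht2⟩, ht3⟩
    · rw [h0, measure_empty]
      exact bot_le
    · have h1 : η ≤ Δ j := by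
        rw [hΔ]
        have h2 : φ t ≤ φ ((j + 1) * lam) := hφ ht2
        have h3 : φ ((j - 1) * lam) ≤ φ (t - lam) := hφ (by linarith)
        simp only
        linarith
      refine (measure_mono fun t ht => ht.1).trans ?_
      rw [Real.volume_Icc]
      apply ENNReal.ofReal_le_ofReal
      calc ((j : ℝ) + 1) * lam - j * lam = lam / η * η := by field_simp; ring
        _ ≤ _ := by gcongr
  refine (measure_mono hsub).trans ((measure_union_le _ _).trans ?_)
  rw [measure_singleton, zero_add]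
  refine (measure_biUnion_finset_le _ _).trans ((Finset.sum_le_sum fun j _ => hone j).trans ?_)
  rw [← ENNReal.ofReal_sum_of_nonneg fun j _ => mul_nonneg (by positivity) (hΔ0 j)]
  apply ENNReal.ofReal_le_ofReal
  rw [← Finset.mul_sum]
  have hsum : ∑ j ∈ Finset.range N, Δ j ≤ 2 * (φ (N * lam) - φ (-lam)) := by
    have e1 : ∑ j ∈ Finset.range N, Δ j =
        ∑ j ∈ Finset.range N, (φ (((j + 1 : ℕ) : ℝ) * lam) - φ ((j : ℝ) * lam)) +
        ∑ j ∈ Finset.range N, (φ ((((j + 1 : ℕ) : ℝ) - 1) * lam) - φ (((j : ℝ) - 1) * lam)) := by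
      rw [← Finset.sum_add_distrib, hΔ]
      refine Finset.sum_congr rfl fun j _ => ?_
      push_cast
      rw [add_sub_cancel_right]
      ring
    have e2 := Finset.sum_range_sub (fun j : ℕ => φ ((j : ℝ) * lam)) N
    have e3 := Finset.sum_range_sub (fun j : ℕ => φ (((j : ℝ) - 1) * lam)) N
    rw [e1, e2, e3]
    have h1 : φ ((N - 1) * lam) ≤ φ (N * lam) := hφ (by nlinarith)
    have h2 : φ (-lam) ≤ φ (((0 : ℕ) : ℝ) * lam) := hφ (by push_cast; linarith)
    have h3 : (((0 : ℕ) : ℝ) - 1) * lam = -lam := by push_cast; ring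
    rw [h3]
    linarith
  calc lam / η * ∑ j ∈ Finset.range N, Δ j ≤ lam / η * (2 * (φ (N * lam) - φ (-lam))) := by gcongr
    _ = _ := by ring

/-- **Few scales with a jump.** -/
theorem jump_density {φ : ℝ → ℝ} (hφ : Monotone φ) {C : ℝ} (hC : 0 < C)
    (hg : ∀ᶠ T : ℝ in atTop, φ T ≤ C * T) {η η₂ : ℝ} (hη : 0 < η) (hη₂ : 0 < η₂) :
    ∃ lam₀ : ℝ, 0 < lam₀ ∧ ∀ lam : ℝ, 0 < lam → lam ≤ lam₀ → ∀ᶠ T : ℝ in atTop,
      volume {t : ℝ | t ∈ Icc 0 T ∧ φ (t - lam) + η < φ t} ≤ ENNReal.ofReal (η₂ * T) := by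
  refine ⟨η * η₂ / (8 * C), by positivity, fun lam hl hl0 => ?_⟩
  obtain ⟨T₀, hT₀⟩ := eventually_atTop.1 hg
  filter_upwards [eventually_ge_atTop (max (max T₀ lam) (4 * lam / η * |φ (-lam)| / η₂ + 1))]
    with T hT
  have hT1 : T₀ ≤ T := (le_max_left _ _).trans ((le_max_left _ _).trans hT)
  have hT2 : lam ≤ T := (le_max_right _ _).trans ((le_max_left _ _).trans hT)
  have hT3 : 4 * lam / η * |φ (-lam)| / η₂ ≤ T := by
    have := (le_max_right _ _).trans hT
    linarith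
  have hT0 : 0 < T := hl.trans_le hT2
  obtain ⟨N, hN⟩ : ∃ N : ℕ, N = ⌈T / lam⌉₊ := ⟨_, rfl⟩
  have hN1 : T ≤ N * lam := by
    have h1 := Nat.le_ceil (T / lam)
    rw [← hN, div_le_iff₀ hl] at h1
    exact h1
  have hN2 : N * lam ≤ 2 * T := by
    have h1 := Nat.ceil_lt_add_one (show 0 ≤ T / lam by positivity)
    rw [← hN] at h1
    have h2 : (N : ℝ) * lam ≤ (T / lam + 1) * lam := by gcongr
    have h3 : (T / lam + 1) * lam = T + lam := by field_simp
    linarith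
  refine (measure_mono ?_).trans ((jump_vol hφ hl hη N).trans ?_)
  · rintro t ⟨⟨h1, h2⟩, h3⟩
    exact ⟨⟨h1, h2.trans hN1⟩, h3⟩
  · apply ENNReal.ofReal_le_ofReal
    have h1 : φ (N * lam) ≤ C * (2 * T) := (hT₀ _ (hT1.trans hN1)).trans (by gcongr)
    have h2 : -φ (-lam) ≤ |φ (-lam)| := neg_le_abs _
    rw [div_le_iff₀ hη₂] at hT3
    have h3 : 2 * lam / η * (C * (2 * T)) ≤ η₂ / 2 * T := by
      rw [le_div_iff₀ (by positivity)] at hl0
      rw [div_mul_eq_mul_div, div_le_iff₀ hη]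
      nlinarith
    have h4 : 2 * lam / η * |φ (-lam)| ≤ η₂ / 2 * T := by
      have h5 : 4 * lam / η * |φ (-lam)| = 2 * (2 * lam / η * |φ (-lam)|) := by ring
      rw [h5] at hT3
      linarith
    calc 2 * lam / η * (φ (N * lam) - φ (-lam)) ≤ 2 * lam / η * (C * (2 * T) + |φ (-lam)|) := by
          gcongr
          linarith
      _ = 2 * lam / η * (C * (2 * T)) + 2 * lam / η * |φ (-lam)| := by ring
      _ ≤ η₂ / 2 * T + η₂ / 2 * T := by gcongr
      _ = η₂ * T := by ring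

end Pool.Agent.H206.Rem
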