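import Pool.Agent.H206.RemO
import Pool.Agent.H206.RemP
import Pool.Agent.H206.RemQ

set_option autoImplicit false

/-! # The proportion at most scales -/

open Set Filter Metric MeasureTheory Topology

namespace Pool.Agent.H206.Rem

open Pool.Agent.TH279.MD Pool.Agent.Y298.SH Pool.Agent.Y298.SH.CD Pool.Agent.Y298.CA
open Pool.Agent.H712R2 (P fc P_succ)
open N62a1eb23

/-- at small good scales the time is large -/
theorem early {d : ℕ} {C₁ lam : ℝ} {c₀ : ℂ} (h : CEp d C₁ lam c₀) {κg β : ℝ} (hκg : 0 < κg)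
    (hβ : 0 < β) (k₁ : ℕ) : ∃ r₂ : ℝ, 0 < r₂ ∧ ∀ r : ℝ, 0 < r → r < r₂ → ∀ k : ℕ,
      Gd d c₀ κg β r k → k₁ ≤ k := by
  induction k₁ with
  | zero => exact ⟨1, one_pos, fun r _ _ k _ => Nat.zero_le k⟩
  | succ m ih =>
    obtain ⟨r₂, hr₂, H⟩ := ih
    have hP := h.Pd_pos m
    have hz : 0 < ‖zz d c₀ m‖ := norm_pos_iff.2 (h.zz_ne m)
    refine ⟨min r₂ (min (β / Pd d c₀ m) (2 * ‖zz d c₀ m‖ / (κg * Pd d c₀ m))), by positivity, ?_⟩
    intro r hr hr2 k hG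
    have h1 := H r hr (hr2.trans_le (min_le_left _ _)) k hG
    rcases h1.eq_or_lt with rfl | h1
    · exfalso
      have h2 : r < β / Pd d c₀ m := hr2.trans_le ((min_le_right _ _).trans (min_le_left _ _))
      have h3 : r < 2 * ‖zz d c₀ m‖ / (κg * Pd d c₀ m) :=
        hr2.trans_le ((min_le_right _ _).trans (min_le_right _ _))
      rw [lt_div_iff₀ hP] at h2
      rw [lt_div_iff₀ (by positivity)] at h3
      rcases hG with hG | hG
      · linarith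
      · have h4 : κg * (r * Pd d c₀ m) = r * (κg * Pd d c₀ m) := by ring
        linarith
    · exact h1

/-- properties of good scales hold at most scales -/
theorem dens_zero {d : ℕ} {C₁ lam : ℝ} {c₀ : ℂ} (h : CEp d C₁ lam c₀) {κg b₁ : ℝ} (hκg : 0 < κg)
    (hb₁ : 0 < b₁) {Q : ℝ → Prop} (H : ∀ β : ℝ, 0 < β → ∃ (k₁ : ℕ) (r₁ : ℝ), 0 < r₁ ∧
      ∀ (r : ℝ) (k : ℕ), 0 < r → r ≤ r₁ → k₁ ≤ k → r * Am d c₀ k ≤ b₁ → Gd d c₀ κg β r k → Q r)
    {η : ℝ} (hη : 0 < η) : ∀ᶠ T : ℝ in atTop,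
      volume {t : ℝ | t ∈ Icc 0 T ∧ ¬ Q (Real.exp (-t))} ≤ ENNReal.ofReal (η * T) := by
  obtain ⟨β, hβ, hbad⟩ := bad_density h hb₁ hκg (half_pos hη)
  obtain ⟨k₁, r₁, hr₁, H⟩ := H β hβ
  obtain ⟨r₂, hr₂, H₂⟩ := early h hκg hβ k₁
  obtain ⟨t₁, ht₁⟩ : ∃ t₁ : ℝ, t₁ = max 0 (-Real.log (min r₁ r₂)) := ⟨_, rfl⟩
  have hmin : 0 < min r₁ r₂ := lt_min hr₁ hr₂
  filter_upwards [hbad, eventually_ge_atTop (max 0 (2 * t₁ / η))] with T hT1 hT2
  have hT0 : 0 ≤ T := (le_max_left _ _).trans hT2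
  have hT3 : 2 * t₁ / η ≤ T := (le_max_right _ _).trans hT2
  rw [div_le_iff₀ hη] at hT3
  have ht₁0 : 0 ≤ t₁ := by rw [ht₁]; exact le_max_left _ _
  have hsub : {t : ℝ | t ∈ Icc 0 T ∧ ¬ Q (Real.exp (-t))} ⊆ Icc 0 t₁ ∪
      {t : ℝ | t ∈ Icc 0 T ∧ ∀ k, ¬ (Real.exp (-t) * Am d c₀ k ≤ b₁ ∧
        Gd d c₀ κg β (Real.exp (-t)) k)} := by
    rintro t ⟨ht, hQ⟩
    rcases le_or_gt t t₁ with h1 | h1
    · exact Or.inl ⟨ht.1, h1⟩
    · right
      refine ⟨ht, fun k hk => hQ ?_⟩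
      have h2 : Real.exp (-t) < min r₁ r₂ := by
        have h3 : -Real.log (min r₁ r₂) < t := (by
          rw [ht₁] at h1
          exact (le_max_right _ _).trans_lt h1)
        rw [← Real.exp_log hmin]
        exact Real.exp_lt_exp.2 (by linarith)
      exact H _ k (Real.exp_pos _) (h2.le.trans (min_le_left _ _))
        (H₂ _ (Real.exp_pos _) (h2.trans_le (min_le_right _ _)) k hk.2) hk.1 hk.2
  refine (measure_mono hsub).trans ((measure_union_le _ _).trans ((add_le_add le_rfl hT1).trans ?_))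
  rw [Real.volume_Icc, sub_zero, ← ENNReal.ofReal_add ht₁0 (by positivity)]
  apply ENNReal.ofReal_le_ofReal
  linarith

/-- the area of the Multibrot set in a disc -/
noncomputable def VM (d : ℕ) (c₀ : ℂ) (r : ℝ) : ℝ :=
  volume.real (multibrotSet d ∩ closedBall c₀ r)

theorem VM_mono {d : ℕ} (hd : 2 ≤ d) (c₀ : ℂ) {r r' : ℝ} (h : r ≤ r') :
    VM d c₀ r ≤ VM d c₀ r' :=
  measureReal_mono (inter_subset_inter_right _ (closedBall_subset_closedBall h))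
    (ne_top_of_le_ne_top (multi_fin hd) (measure_mono inter_subset_left))

/-- the area is not too small -/
theorem VM_low {d : ℕ} (hd : 2 ≤ d) {χ : ℝ} {c₀ : ℂ} (h : Lyap d χ c₀) :
    (∀ r : ℝ, 0 < r → 0 < VM d c₀ r) ∧
      ∀ᶠ T : ℝ in atTop, -Real.log (VM d c₀ (Real.exp (-T))) ≤ 13 * T := by
  obtain ⟨⟨C₁, lam, hCE⟩, -⟩ := Pool.Agent.Y674.CA.lya d χ c₀ hd h
  obtain ⟨κg, b₁, hκg, hb₁, -, HG⟩ := good_scale hd h
  obtain ⟨β, hβ, hbad⟩ := bad_density hCE hb₁ hκg (show (0 : ℝ) < 1 / 6 by norm_num)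
  obtain ⟨k₁, r₁, cV, hr₁, hcV, H⟩ := HG β 1 hβ one_pos
  obtain ⟨r₂, hr₂, H₂⟩ := early hCE hκg hβ k₁
  have hmin : 0 < min r₁ r₂ := lt_min hr₁ hr₂
  have hlim : Tendsto (fun T : ℝ => 3 * T) atTop atTop :=
    tendsto_id.const_mul_atTop (by norm_num)
  have key : ∀ᶠ T : ℝ in atTop, cV * Real.exp (-(12 * T)) ≤ VM d c₀ (Real.exp (-T)) := by
    filter_upwards [hlim.eventually hbad, eventually_ge_atTop 1,
      eventually_gt_atTop (-Real.log (min r₁ r₂))] with T h1 h2 h3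
    obtain ⟨t, ht, hgood⟩ : ∃ t ∈ Icc (T + 1) (3 * T), ∃ k,
        (Real.exp (-t) * Am d c₀ k ≤ b₁ ∧ Gd d c₀ κg β (Real.exp (-t)) k) := by
      by_contra hcon
      push Not at hcon
      have h4 : Icc (T + 1) (3 * T) ⊆ {t : ℝ | t ∈ Icc 0 (3 * T) ∧
          ∀ k, ¬ (Real.exp (-t) * Am d c₀ k ≤ b₁ ∧ Gd d c₀ κg β (Real.exp (-t)) k)} := by
        intro t ht
        refine ⟨⟨by linarith [ht.1], ht.2⟩, fun k hk => hcon t ht k hk.1 hk.2⟩
      have h5 := (measure_mono h4).trans h1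
      rw [Real.volume_Icc, ENNReal.ofReal_le_ofReal_iff (by linarith)] at h5
      linarith
    obtain ⟨k, hk1, hk2⟩ := hgood
    have h4 : Real.exp (-t) < min r₁ r₂ := by
      rw [← Real.exp_log hmin]
      exact Real.exp_lt_exp.2 (by linarith [ht.1])
    obtain ⟨-, -, h5⟩ := H _ k (Real.exp_pos _) (h4.le.trans (min_le_left _ _))
      (H₂ _ (Real.exp_pos _) (h4.trans_le (min_le_right _ _)) k hk2) hk1 hk2
    have h6 : (1 + 1) * Real.exp (-t) ≤ Real.exp (-T) := by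
      have h7 : Real.exp (-t) ≤ Real.exp (-T) * Real.exp (-1) := by
        rw [← Real.exp_add]
        exact Real.exp_le_exp.2 (by linarith [ht.1])
      have h8 : Real.exp (-1) ≤ 1 / 2 := by
        have h9 := Real.add_one_le_exp (1 : ℝ)
        rw [Real.exp_neg, inv_eq_one_div]
        exact one_div_le_one_div_of_le (by norm_num) (by linarith)
      have h9 := Real.exp_pos (-T)
      nlinarith
    calc cV * Real.exp (-(12 * T)) ≤ cV * Real.exp (-t) ^ 4 := by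
          gcongr
          rw [← Real.exp_nat_mul]
          apply Real.exp_le_exp.2
          push_cast
          linarith [ht.2]
      _ ≤ VM d c₀ ((1 + 1) * Real.exp (-t)) := h5
      _ ≤ _ := VM_mono hd c₀ h6
  constructor
  · intro r hr
    obtain ⟨T, hT1, hT2⟩ := (key.and (eventually_ge_atTop (-Real.log r))).exists
    have h1 : Real.exp (-T) ≤ r := by
      rw [← Real.exp_log hr]
      exact Real.exp_le_exp.2 (by linarith)
    refine lt_of_lt_of_le ?_ (hT1.trans (VM_mono hd c₀ h1))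
    positivity
  · filter_upwards [key, eventually_ge_atTop (-Real.log cV)] with T h1 h2
    have h3 := Real.log_le_log (by positivity) h1
    rw [Real.log_mul hcV.ne' (Real.exp_pos _).ne', Real.log_exp] at h3
    linarith

theorem Til_mono {d : ℕ} (hd : 2 ≤ d) {ε ε' : ℝ} {c₀ : ℂ} {r V V' : ℝ} (hr : 0 < r) (hε' : 0 < ε')
    (hε : ε' ≤ ε) (hV : ε' * V' ≤ ε * V) (h : Til d ε' c₀ r V') : Til d ε c₀ r V := by
  obtain ⟨u, l, h1, h2, h3⟩ := h
  have hrad : ∀ c : ℂ, closedBall c (‖l c‖ / ε) ⊆ closedBall c (‖l c‖ / ε') := by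
    intro c
    apply closedBall_subset_closedBall
    gcongr
  refine ⟨u, l, fun c hc => ?_, ?_, ?_⟩
  · obtain ⟨a1, a2, a3, a4⟩ := h1 c hc
    refine ⟨a1, a2, (hrad c).trans (a3.trans (closedBall_subset_closedBall ?_)), fun κ hκ => ?_⟩
    · gcongr
    · exact a4 κ ((ball_subset_ball hε).trans hκ)
  · intro b hb b' hb' hbb
    exact (h2 hb hb' hbb).mono (hrad b) (hrad b')
  · refine le_trans (measureReal_mono ?_ (ne_top_of_le_ne_top (multi_fin hd)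
      (measure_mono fun x hx => hx.2.1))) (h3.trans hV)
    rintro x ⟨hx1, hx2, hx3⟩
    refine ⟨hx1, hx2, fun c hc κ hκ => le_trans ?_ (hx3 c hc κ hκ)⟩
    gcongr

/-- the properties of a scale -/
def Fin (d : ℕ) (ε : ℝ) (c₀ : ℂ) (r : ℝ) : Prop :=
  Til d ε c₀ r (VM d c₀ r) ∧
    volume.real ((multibrotSet d \ HH d) ∩ closedBall c₀ r) ≤ (thet d + ε) * VM d c₀ r

/-- **The main result.** -/
theorem fin_density {d : ℕ} (hd : 2 ≤ d) {χ : ℝ} {c₀ : ℂ} (h : Lyap d χ c₀) {ε : ℝ} (hε : 0 < ε)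
    {η : ℝ} (hη : 0 < η) : ∀ᶠ T : ℝ in atTop,
      volume {t : ℝ | t ∈ Icc 0 T ∧ ¬ Fin d ε c₀ (Real.exp (-t))} ≤ ENNReal.ofReal (η * T) := by
  obtain ⟨⟨C₁, lam, hCE⟩, -⟩ := Pool.Agent.Y674.CA.lya d χ c₀ hd h
  obtain ⟨κg, b₁, hκg, hb₁, -, HG⟩ := good_scale hd h
  obtain ⟨hV0, hVT⟩ := VM_low hd h
  obtain ⟨ε₁, hε₁⟩ : ∃ ε₁ : ℝ, ε₁ = min 1 (ε / 4) := ⟨_, rfl⟩
  have hε₁0 : 0 < ε₁ := by rw [hε₁]; positivity
  have hε₁1 : ε₁ ≤ 1 := by rw [hε₁]; exact min_le_left _ _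
  have hε₁ε : ε₁ ≤ ε / 4 := by rw [hε₁]; exact min_le_right _ _
  have hφ : Monotone fun t : ℝ => -Real.log (VM d c₀ (Real.exp (-t))) := by
    intro s t hst
    have h1 : VM d c₀ (Real.exp (-t)) ≤ VM d c₀ (Real.exp (-s)) :=
      VM_mono hd c₀ (Real.exp_le_exp.2 (by linarith))
    have h2 := Real.log_le_log (hV0 _ (Real.exp_pos _)) h1
    simp only
    linarith
  have hlog : 0 < Real.log (1 + ε₁) := Real.log_pos (by linarith)
  obtain ⟨lam₀, hlam₀, HJ⟩ := jump_density hφ (show (0 : ℝ) < 13 by norm_num) hVT hlog (half_pos hη)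
  obtain ⟨ε₃, hε₃⟩ : ∃ ε₃ : ℝ, ε₃ = min ε₁ (Real.exp lam₀ - 1) := ⟨_, rfl⟩
  have hexp : 0 < Real.exp lam₀ - 1 := by
    have := Real.add_one_lt_exp hlam₀.ne'
    linarith
  have hε₃0 : 0 < ε₃ := by rw [hε₃]; exact lt_min hε₁0 hexp
  have hε₃1 : ε₃ ≤ ε₁ := by rw [hε₃]; exact min_le_left _ _
  have hlam1 : 0 < Real.log (1 + ε₃) := Real.log_pos (by linarith)
  have hlam2 : Real.log (1 + ε₃) ≤ lam₀ := by
    have h1 : ε₃ ≤ Real.exp lam₀ - 1 := by rw [hε₃]; exact min_le_right _ _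
    calc Real.log (1 + ε₃) ≤ Real.log (Real.exp lam₀) :=
          Real.log_le_log (by positivity) (by linarith)
      _ = lam₀ := Real.log_exp _
  have hth0 : 0 ≤ thet d := div_nonneg (by linarith [area_le hd]) (multi_pos hd).le
  have hth1 : thet d ≤ 1 := by
    unfold thet
    rw [div_le_one (multi_pos hd)]
    linarith [HH_pos hd]
  have hD := dens_zero hCE hκg hb₁ (Q := fun r => Til d ε₃ c₀ r (VM d c₀ ((1 + ε₃) * r)) ∧
    volume.real ((multibrotSet d \ HH d) ∩ closedBall c₀ r) ≤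
      (thet d + ε₃) * VM d c₀ ((1 + ε₃) * r)) (fun β hβ => by
    obtain ⟨k₁, r₁, cV, hr₁, -, H⟩ := HG β ε₃ hβ hε₃0
    refine ⟨k₁, r₁, hr₁, fun r k h1 h2 h3 h4 h5 => ?_⟩
    obtain ⟨a1, a2, -⟩ := H r k h1 h2 h3 h4 h5
    exact ⟨a1, a2⟩) (half_pos hη)
  filter_upwards [hD, HJ _ hlam1 hlam2, eventually_ge_atTop 0] with T hT1 hT2 hT0
  have hsub : {t : ℝ | t ∈ Icc 0 T ∧ ¬ Fin d ε c₀ (Real.exp (-t))} ⊆
      {t : ℝ | t ∈ Icc 0 T ∧ ¬ (Til d ε₃ c₀ (Real.exp (-t)) (VM d c₀ ((1 + ε₃) * Real.exp (-t))) ∧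
        volume.real ((multibrotSet d \ HH d) ∩ closedBall c₀ (Real.exp (-t))) ≤
          (thet d + ε₃) * VM d c₀ ((1 + ε₃) * Real.exp (-t)))} ∪
      {t : ℝ | t ∈ Icc 0 T ∧ -Real.log (VM d c₀ (Real.exp (-(t - Real.log (1 + ε₃))))) +
        Real.log (1 + ε₁) < -Real.log (VM d c₀ (Real.exp (-t)))} := by
    rintro t ⟨ht, hF⟩
    by_contra hcon
    rw [mem_union, not_or] at hcon
    obtain ⟨h1, h2⟩ := hcon
    obtain ⟨h3, h4⟩ := not_not.1 fun h7 => h1 ⟨ht, h7⟩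
    have h5 := not_lt.1 fun h7 => h2 ⟨ht, h7⟩
    refine hF ?_
    obtain ⟨r, hr⟩ : ∃ r : ℝ, r = Real.exp (-t) := ⟨_, rfl⟩
    have hr0 : 0 < r := by rw [hr]; exact Real.exp_pos _
    have e1 : Real.exp (-(t - Real.log (1 + ε₃))) = (1 + ε₃) * r := by
      rw [hr, neg_sub, sub_eq_add_neg, Real.exp_add, Real.exp_log (by positivity)]
    rw [e1, ← hr] at h5
    rw [← hr] at h3 h4 ⊢
    have hVr := hV0 r hr0
    have hVr' := hV0 ((1 + ε₃) * r) (by positivity)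
    have h6 : VM d c₀ ((1 + ε₃) * r) ≤ (1 + ε₁) * VM d c₀ r := by
      rw [← Real.log_le_log_iff hVr' (by positivity), Real.log_mul (by positivity) hVr.ne']
      linarith
    refine ⟨Til_mono hd hr0 hε₃0 (by linarith) ?_ h3, h4.trans ?_⟩
    · calc ε₃ * VM d c₀ ((1 + ε₃) * r) ≤ ε₁ * ((1 + ε₁) * VM d c₀ r) := by gcongr
        _ ≤ ε₁ * ((1 + 1) * VM d c₀ r) := by gcongr
        _ = 2 * ε₁ * VM d c₀ r := by ring
        _ ≤ ε * VM d c₀ r := by
          gcongr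
          linarith
    · calc (thet d + ε₃) * VM d c₀ ((1 + ε₃) * r) ≤ (thet d + ε₁) * ((1 + ε₁) * VM d c₀ r) := by
            gcongr
        _ = (thet d + ε₁ * thet d + ε₁ * (1 + ε₁)) * VM d c₀ r := by ring
        _ ≤ (thet d + ε₁ * 1 + ε₁ * (1 + 1)) * VM d c₀ r := by gcongr
        _ ≤ (thet d + ε) * VM d c₀ r :=
          mul_le_mul_of_nonneg_right (by linarith) hVr.le
  refine (measure_mono hsub).trans ((measure_union_le _ _).trans ((add_le_add hT1 hT2).trans ?_))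
  rw [← ENNReal.ofReal_add (by positivity) (by positivity)]
  apply ENNReal.ofReal_le_ofReal
  linarith

end Pool.Agent.H206.Rem
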