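import Pool.Agent.H206.RemO

set_option autoImplicit false

/-! # The proportion and the area at good scales -/

open Set Filter Metric MeasureTheory Topology

namespace Pool.Agent.H206.Rem

open Pool.Agent.TH279.MD Pool.Agent.Y298.SH Pool.Agent.Y298.SH.CD Pool.Agent.Y298.CA
open Pool.Agent.H712R2 (P fc P_succ)
open N62a1eb23

/-- the size of the largest copies -/
noncomputable def Yk (d : ℕ) (c₀ : ℂ) (k : ℕ) : ℝ := X0 d 1 (Pd d c₀ k) / Pd d c₀ k

/-- superattracting parameters in the disc of radius `2 r` -/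
def Sk (d : ℕ) (c₀ : ℂ) (r : ℝ) (k N : ℕ) : Set ℂ :=
  {c | c ∈ closedBall c₀ (2 * r) ∧ ∃ n < N, P d (k + 1 + n) c = 0}

theorem Sk_finite {d : ℕ} (hd : 2 ≤ d) (c₀ : ℂ) (r : ℝ) (k N : ℕ) : (Sk d c₀ r k N).Finite := by
  have h1 : (⋃ n ∈ {n : ℕ | n < N}, {c : ℂ | P d (k + n + 1) c = 0}).Finite :=
    (Set.finite_lt_nat N).biUnion fun n _ => Pool.Agent.R240.Univ.zeros_finite hd (k + n)
  refine h1.subset ?_
  rintro c ⟨-, n, hn, h2⟩
  simp only [mem_iUnion]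
  refine ⟨n, hn, ?_⟩
  have e9 : k + 1 + n = k + n + 1 := by omega
  rw [e9] at h2
  exact h2

/-- the area of a set covered by discs, up to a remainder -/
theorem up_area {d : ℕ} (hd : 2 ≤ d) {S : Set ℂ} (hS : S.Finite) {D : Set ℂ} {ρ w : ℝ}
    (hρ : 0 ≤ ρ) {x : ℝ}
    (h : volume.real ((multibrotSet d ∩ D) \ ⋃ c ∈ S, closedBall c ρ) ≤ x) (hx : x ≤ w)
    (hv : Real.pi * ρ ^ 2 ≤ w) {n : ℕ} (hn : S.ncard ≤ n) :
    volume.real (multibrotSet d ∩ D) ≤ (1 + n) * w := by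
  have hf : ∀ A : Set ℂ, A ⊆ multibrotSet d → volume A ≠ ⊤ := fun A hA =>
    ne_top_of_le_ne_top (multi_fin hd) (measure_mono hA)
  have h1 : volume.real (⋃ c ∈ S, closedBall c ρ) ≤ S.ncard * (Real.pi * ρ ^ 2) := by
    lift S to Finset ℂ using hS
    refine (measureReal_biUnion_finset_le _ _).trans ?_
    rw [Set.ncard_coe_finset]
    refine (Finset.sum_le_card_nsmul _ _ (Real.pi * ρ ^ 2) fun c _ => ?_).trans
      (le_of_eq (nsmul_eq_mul _ _))
    rw [measureReal_def, Complex.volume_closedBall, ENNReal.toReal_mul, ENNReal.toReal_pow,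
      ENNReal.toReal_ofReal hρ]
    simp only [ENNReal.coe_toReal, NNReal.coe_real_pi]
    linarith
  have h2 : multibrotSet d ∩ D ⊆ ((multibrotSet d ∩ D) \ ⋃ c ∈ S, closedBall c ρ) ∪
      ⋃ c ∈ S, closedBall c ρ := by
    intro y hy
    by_cases h3 : y ∈ ⋃ c ∈ S, closedBall c ρ
    · exact Or.inr h3
    · exact Or.inl ⟨hy, h3⟩
  have hU : volume (⋃ c ∈ S, closedBall c ρ) ≠ ⊤ := by
    have hb : Bornology.IsBounded (⋃ c ∈ S, closedBall c ρ) :=
      (Bornology.isBounded_biUnion hS).2 fun c _ => isBounded_closedBall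
    exact hb.measure_lt_top.ne
  have h3 := (measureReal_mono h2 (measure_union_ne_top (hf _ (sdiff_subset.trans
    inter_subset_left)) hU)).trans (measureReal_union_le _ _)
  have h4 : (S.ncard : ℝ) * (Real.pi * ρ ^ 2) ≤ n * w := by
    have : (S.ncard : ℝ) ≤ n := by exact_mod_cast hn
    gcongr
  calc volume.real (multibrotSet d ∩ D) ≤ _ := h3
    _ ≤ w + n * w := by
      refine add_le_add (h.trans hx) (h1.trans h4)
    _ = _ := by ring

/-- **The proportion and the area at good scales.** -/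
theorem good_scale2 {d : ℕ} (hd : 2 ≤ d) {χ : ℝ} {c₀ : ℂ} (h : Lyap d χ c₀) :
    ∃ κg b₁ : ℝ, 0 < κg ∧ 0 < b₁ ∧ b₁ ≤ 1 ∧ ∀ β ε : ℝ, 0 < β → 0 < ε →
      ∃ (k₁ N₂ : ℕ) (r₁ cV KU : ℝ), 0 < r₁ ∧ 0 < cV ∧ 0 < KU ∧ ∀ (r : ℝ) (k : ℕ), 0 < r →
        r ≤ r₁ → k₁ ≤ k → r * Am d c₀ k ≤ b₁ → Gd d c₀ κg β r k →
        Til d ε c₀ r (volume.real (multibrotSet d ∩ closedBall c₀ ((1 + ε) * r))) ∧
        volume.real ((multibrotSet d \ HH d) ∩ closedBall c₀ r) ≤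
          (thet d + ε) * volume.real (multibrotSet d ∩ closedBall c₀ ((1 + ε) * r)) ∧
        cV * Yk d c₀ k ^ 2 ≤ volume.real (HH d ∩ closedBall c₀ ((1 + ε) * r)) ∧
        volume.real (multibrotSet d ∩ closedBall c₀ r) ≤
          (1 + (Sk d c₀ r k N₂).ncard) * (KU * Yk d c₀ k ^ 2) ∧
        r * Pd d c₀ k ≤ d ∧ 1 ≤ Pd d c₀ k ∧
        ∀ x ∈ ball c₀ (8 * r), ‖P d (k + 1) x‖ ≤ 5 := by
  have hdR : (2 : ℝ) ≤ d := by exact_mod_cast hd
  have hχ := h.1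
  obtain ⟨⟨C₁, lam, hCE⟩, -⟩ := Pool.Agent.Y674.CA.lya d χ c₀ hd h
  obtain ⟨Ca, b₀, ε₁, hCa, hb₀, hb₀1, hε₁, hε₁1, hpass, hBI⟩ := bi_s hd hCE.C1 hCE.lam1
  obtain ⟨κg, μ, J, hκg, hμ, hμ1, HP⟩ := par_curve hCE hCa hb₀1 (hpass c₀ hCE)
  refine ⟨κg, μ * b₀ / 8, hκg, by positivity, by nlinarith, ?_⟩
  intro β ε hβ hε
  obtain ⟨y, hy⟩ : ∃ y : ℝ, y = χ / (d - 1) := ⟨_, rfl⟩
  have hy0 : 0 < y := by
    rw [hy]
    have : (0 : ℝ) < (d : ℝ) - 1 := by linarith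
    positivity
  have hdy : χ * d / (d - 1) = χ + y := by
    rw [hy]
    have : (d : ℝ) - 1 ≠ 0 := by linarith
    field_simp
    ring
  obtain ⟨e, he0, hee, he13, heh, hcoe, hfr⟩ := coe_lim (multi_pos hd) (HH_pos hd)
    (show 0 < min ε (y / 4) by positivity)
  have heε : e ≤ ε := hee.trans (min_le_left _ _)
  have hey : e ≤ y / 4 := hee.trans (min_le_right _ _)
  obtain ⟨N₁, η, hη, HZ⟩ := zero_unif hCE (τ := 15 / 32 * κg * β) (by positivity)
  obtain ⟨c1, hc1⟩ : ∃ c1 : ℝ, c1 = cS d Ca (N₁ + 1) := ⟨_, rfl⟩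
  have hc10 : 0 < c1 := by rw [hc1]; exact cS_pos hd hCa _
  obtain ⟨ε₀, hε₀⟩ : ∃ ε₀ : ℝ, ε₀ = e * c1 ^ 2 * κg ^ 2 / 2 := ⟨_, rfl⟩
  have hε₀0 : 0 < ε₀ := by rw [hε₀]; positivity
  obtain ⟨K₂, hK₂⟩ : ∃ K₂ : ℝ, K₂ = 16 / (15 * κg) := ⟨_, rfl⟩
  have hK₂0 : 0 < K₂ := by rw [hK₂]; positivity
  obtain ⟨δ, N, L, Γ, cρ, s₀, P₀, hδ, hL, hΓ, hcρ, hs₀, hP₀, HR⟩ :=
    rem_final hd hCE hb₀ hb₀1 hε₁ hε₁1 (hBI c₀ hCE) hK₂0 hε₀0
  have hsΓ : 0 < √Γ := Real.sqrt_pos.2 (by linarith)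
  obtain ⟨Lm, hLm⟩ : ∃ Lm : ℝ, Lm = L ^ ((((d - 1 : ℕ) : ℝ))⁻¹) := ⟨_, rfl⟩
  have hLm0 : 0 < Lm := by rw [hLm]; exact Real.rpow_pos_of_pos hL _
  obtain ⟨N₂, hN₂⟩ : ∃ N₂ : ℕ, N₂ = max N (N₁ + 1) := ⟨_, rfl⟩
  have hNN₂ : N ≤ N₂ := by rw [hN₂]; exact le_max_left _ _
  have hN₁N₂ : N₁ + 1 ≤ N₂ := by rw [hN₂]; exact le_max_right _ _
  obtain ⟨c2, hc2⟩ : ∃ c2 : ℝ, c2 = cS d Ca N₂ := ⟨_, rfl⟩
  have hc20 : 0 < c2 := by rw [hc2]; exact cS_pos hd hCa _
  obtain ⟨R, hR⟩ : ∃ R : ℝ, R = max 15 (max (5 / e) (5 * (4 * √Γ * Lm * K₂) / c2)) := ⟨_, rfl⟩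
  have hR15 : 15 ≤ R := by rw [hR]; exact le_max_left _ _
  have hRe : 1 / e ≤ R / 5 := by
    have h1 : 5 / e ≤ R := by rw [hR]; exact (le_max_left _ _).trans (le_max_right _ _)
    have h2 : 5 / e = 5 * (1 / e) := by ring
    linarith
  have hRc : 4 * √Γ * Lm * K₂ ≤ R / 5 * c2 := by
    have h1 : 5 * (4 * √Γ * Lm * K₂) / c2 ≤ R := by
      rw [hR]; exact (le_max_right _ _).trans (le_max_right _ _)
    rw [div_le_iff₀ hc20] at h1
    linarith
  have hR0 : 0 < R := by linarith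
  obtain ⟨δt, hδt, HT⟩ := thin_data hd h he0 he13 (show 3 ≤ R by linarith)
  obtain ⟨p₀, HT⟩ := eventually_atTop.1 HT
  obtain ⟨δ', hδ'⟩ : ∃ δ' : ℝ, δ' = min δt χ := ⟨_, rfl⟩
  have hδ'0 : 0 < δ' := by rw [hδ']; exact lt_min hδt hχ
  have hδ't : δ' ≤ δt := by rw [hδ']; exact min_le_left _ _
  have hδ'χ : δ' ≤ χ := by rw [hδ']; exact min_le_right _ _
  obtain ⟨K, hK⟩ : ∃ K : ℝ, K = 16 * √Γ * Lm / (3 * κg) + 8 * √Γ * Lm * K₂ / e := ⟨_, rfl⟩
  have hKa : 16 * √Γ * Lm / (3 * κg) ≤ K := by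
    have : 0 ≤ 8 * √Γ * Lm * K₂ / e := by positivity
    linarith
  have hKc : 8 * √Γ * Lm * K₂ / e ≤ K := by
    have : 0 ≤ 16 * √Γ * Lm / (3 * κg) := by positivity
    linarith
  have hK0 : 0 < K := lt_of_lt_of_le (by positivity) hKa
  have evP : ∀ᶠ k : ℕ in atTop, max 1 P₀ ≤ Pd d c₀ k := by
    have hC1 := hCE.C1
    obtain ⟨n₀, hn₀⟩ := pow_unbounded_of_one_lt (C₁ * max 1 P₀) hCE.lam1
    filter_upwards [eventually_ge_atTop n₀] with k hk
    have h1 := hCE.exp k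
    have h2 : lam ^ n₀ ≤ lam ^ k := pow_le_pow_right₀ hCE.lam1.le hk
    have h3 : C₁ * max 1 P₀ ≤ C₁ * Pd d c₀ k := by linarith
    exact le_of_mul_le_mul_left h3 (by linarith)
  have evall := (((ev_G1 hd h hκg hβ hK0).and (ev_G2 hd h hκg hβ (show 0 < y / 4 by positivity))).and
    ((ev_G3 hd h hδ'0 hδ'χ N₂).and (ev_X0 hd h (8 * Lm / cρ)))).and
    ((evP.and (eventually_ge_atTop (J + p₀))).and
      (ev_exp (show 0 < y / 2 by positivity) (2 * R / e)))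
  obtain ⟨k₁, hk₁⟩ := eventually_atTop.1 evall
  have hhe : 0 < volume.real (HH d) - e := by linarith
  obtain ⟨K₄, hK₄⟩ : ∃ K₄ : ℝ, K₄ = 4 * √Γ * Lm * K₂ := ⟨_, rfl⟩
  have hK₄0 : 0 < K₄ := by rw [hK₄]; positivity
  obtain ⟨KU, hKU⟩ : ∃ KU : ℝ, KU = max (2 / κg ^ 2 * ε₀) (Real.pi * K₄ ^ 2) := ⟨_, rfl⟩
  have hKU0 : 0 < KU := by rw [hKU]; exact lt_max_of_lt_left (by positivity)
  refine ⟨k₁, N₂, min (μ / 8 * min 1 s₀) (η / 8), (volume.real (HH d) - e) * c1 ^ 2, KU,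
    by positivity, by positivity, hKU0, ?_⟩
  intro r k hr hrr₁ hk hrA hG
  obtain ⟨⟨⟨e1, e2⟩, e3, e4⟩, ⟨e5, e6⟩, e7⟩ := hk₁ k hk
  have hP := hCE.Pd_pos k
  obtain ⟨Q, hQ⟩ : ∃ Q, Q = Pd d c₀ k := ⟨_, rfl⟩
  have hQ0 : 0 < Q := by rw [hQ]; exact hP
  have hQ1 : 1 ≤ Q := by rw [hQ]; exact (le_max_left _ _).trans e5
  have hQP₀ : P₀ ≤ Pd d c₀ k := (le_max_right _ _).trans e5
  obtain ⟨X₁, hX₁⟩ : ∃ X₁, X₁ = X0 d 1 Q := ⟨_, rfl⟩
  have hX₁0 : 0 < X₁ := by rw [hX₁]; exact X0_pos d one_pos hQ0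
  have hXL : X0 d L Q = Lm * X₁ := by rw [mul_X0 hL hQ0, hX₁, hLm]
  have f1 := e1 r hG
  have f2 := e2 r hG
  rw [← hQ, ← hX₁] at f1 e4
  -- the scale
  obtain ⟨s, hs⟩ : ∃ s : ℝ, s = 8 * r / μ := ⟨_, rfl⟩
  have hs0 : 0 < s := by rw [hs]; positivity
  have hr2 : r ≤ μ / 8 * min 1 s₀ := hrr₁.trans (min_le_left _ _)
  have hr3 : 8 * r ≤ η := by
    have := hrr₁.trans (min_le_right _ _)
    linarith
  have hsm : s ≤ min 1 s₀ := by
    rw [hs, div_le_iff₀ hμ]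
    linarith
  have hs1 : s ≤ 1 := hsm.trans (min_le_left _ _)
  have hss₀ : s ≤ s₀ := hsm.trans (min_le_right _ _)
  have hsA : s * Am d c₀ k ≤ b₀ := by
    rw [hs, div_mul_eq_mul_div, div_le_iff₀ hμ]
    calc 8 * r * Am d c₀ k = 8 * (r * Am d c₀ k) := by ring
      _ ≤ 8 * (μ * b₀ / 8) := by gcongr
      _ = _ := by ring
  have hsP : s * Pd d c₀ k ≤ 4 * d := sP_le hCE hs0 hs1 (hsA.trans hb₀1)
  have hrP : r * Pd d c₀ k ≤ d := by
    have h1 : r = μ * s / 8 := by rw [hs]; field_simp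
    rw [h1]
    calc μ * s / 8 * Pd d c₀ k = μ / 8 * (s * Pd d c₀ k) := by ring
      _ ≤ μ / 8 * (4 * d) := by gcongr
      _ ≤ (1 / 4) / 8 * (4 * d) := by gcongr
      _ ≤ d := by linarith
  have hrs : 2 * r ≤ s := by
    rw [hs, le_div_iff₀ hμ]
    nlinarith
  have f3 := e3 r hrP
  obtain ⟨D, g, X⟩ := HP r k hr (by omega) (by rw [← hs]; exact hs1) (by rw [← hs]; exact hsA)
  have hD0 : 0 < ‖D‖ := norm_pos_iff.2 X.D0
  have hDr : κg * (r * Q) ≤ ‖D‖ * r := by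
    calc κg * (r * Q) = κg * Q * r := by ring
      _ ≤ ‖D‖ * r := by
        have := X.lo
        rw [← hQ] at this
        gcongr
  have hcv := X.cv
  rw [← hs, ← hK₂] at hcv
  obtain ⟨g1, g2⟩ := HR s k hs0 hss₀ hsA hQP₀ (zz d c₀ k) (3 * ‖D‖ * r) g (by positivity) X.T1 hcv
  rw [← hQ, ← hX₁, hXL] at g1
  -- the centres
  obtain ⟨S, hS⟩ : ∃ S : Set ℂ, S = {c | c ∈ closedBall c₀ ((1 + e / 2) * r) ∧
    ∃ n < N₂, P d (k + 1 + n) c = 0} := ⟨_, rfl⟩
  have hSf : S.Finite := by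
    have h1 : (⋃ n ∈ {n : ℕ | n < N₂}, {c : ℂ | P d (k + n + 1) c = 0}).Finite :=
      (Set.finite_lt_nat N₂).biUnion fun n _ => Pool.Agent.R240.Univ.zeros_finite hd (k + n)
    refine h1.subset ?_
    rw [hS]
    rintro c ⟨-, n, hn, h2⟩
    simp only [mem_iUnion]
    refine ⟨n, hn, ?_⟩
    have e9 : k + 1 + n = k + n + 1 := by omega
    rw [e9] at h2
    exact h2
  have hq : ∀ c ∈ S, ∃ l : ℂ, Thn d e R c l ∧ ‖l‖ * R ≤ e / 2 * r ∧
      (∀ N' n' : ℕ, n' < N' → P d (k + 1 + n') c = 0 → cS d Ca N' * (X₁ / Q) ≤ ‖l‖) ∧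
      Sc d c l := by
    intro c hc
    rw [hS] at hc
    obtain ⟨hcb, hex⟩ := hc
    obtain ⟨n, hn, hPn⟩ := hex
    rw [mem_closedBall, dist_eq_norm] at hcb
    have hc2r : ‖c - c₀‖ ≤ 2 * r := by
      refine hcb.trans ?_
      gcongr
      linarith
    have hb2 : ∀ i, ‖P d i c‖ ≤ 2 :=
      (Pool.Agent.H712R2.mem_multibrot_iff hd c).1 (zero_mem (by omega : 0 < k + 1 + n) hPn)
    have hPdc : Pd d c k ≤ 2 * Q := by
      rw [hQ]
      exact (hpass c₀ hCE c s k hs0 (hc2r.trans hrs) hsA c (mem_ball_self hs0) k le_rfl).2.2.1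
    have hder : ‖deriv (P d (k + 1)) c‖ ≤ 4 * Ca * Q := by
      have h1 := (aff_der X.dst c (by rw [mem_ball, dist_eq_norm]; linarith)).2
      have h2 := X.hi
      rw [← hQ] at h2
      rw [P_succ_eq hd]
      change ‖deriv (GG d id k) c‖ ≤ 4 * Ca * Q
      have h3 : 0 < Ca * Q := by positivity
      linarith
    -- the data do not depend on the period
    have hdata : ∀ n' : ℕ, P d (k + 1 + n') c = 0 → n' < N₂ → ∃ l m : ℂ, l ≠ 0 ∧ m ≠ 0 ∧
        m ^ (d - 1) * deriv ((fc d c)^[k + 1 + n' - 1]) c = 1 ∧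
        l * deriv (P d (k + 1 + n')) c = m ∧
        ‖l‖ ≤ Real.exp (-((χ * d / (d - 1) - e) * ((k + 1 + n' : ℕ) : ℝ))) ∧ Thn d e R c l := by
      intro n' hPn' hn'
      refine HT (k + 1 + n') (by omega) c hPn' ?_
      refine hc2r.trans ((f3 n' hn').trans ?_)
      apply Real.exp_le_exp.2
      have h1 : (χ - δt) * ((k + 1 + n' : ℕ) : ℝ) ≤ (χ - δ') * ((k + 1 + n' : ℕ) : ℝ) := by gcongr
      linarith
    classical
    have hex' : ∃ n, P d (k + 1 + n) c = 0 := ⟨n, hPn⟩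
    obtain ⟨n₀, hn₀⟩ : ∃ n₀, n₀ = Nat.find hex' := ⟨_, rfl⟩
    have hn₀P : P d (k + 1 + n₀) c = 0 := by rw [hn₀]; exact Nat.find_spec hex'
    have hn₀le : ∀ n', P d (k + 1 + n') c = 0 → n₀ ≤ n' := by
      intro n' h1
      rw [hn₀]
      exact Nat.find_le h1
    obtain ⟨l, m, hl, hm, a1, a2, a3, a4⟩ := hdata n₀ hn₀P ((hn₀le n hPn).trans_lt hn)
    refine ⟨l, a4, ?_, fun N' n' hn' hPn' => ?_, ⟨k + 1 + n₀, m, by omega, hm, hn₀P, a1, a2⟩⟩
    · -- the size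
      rw [hdy] at a3
      have h1 : ‖l‖ ≤ Real.exp (-((χ + 3 / 4 * y) * k)) := by
        refine a3.trans (Real.exp_le_exp.2 ?_)
        have h2 : (k : ℝ) ≤ ((k + 1 + n₀ : ℕ) : ℝ) := by
          push_cast
          have : (0 : ℝ) ≤ n₀ := by positivity
          linarith
        have h3 : 0 ≤ χ + 3 / 4 * y := by positivity
        have h4 : χ + 3 / 4 * y ≤ χ + y - e := by linarith
        have h6 : 0 ≤ χ + y - e := by linarith
        have h5 : (χ + 3 / 4 * y) * k ≤ (χ + y - e) * ((k + 1 + n₀ : ℕ) : ℝ) := by gcongr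
        linarith
      have h2 : Real.exp (-((χ + 3 / 4 * y) * k)) * Real.exp (y / 2 * k) =
          Real.exp (-((χ + y / 4) * k)) := by
        rw [← Real.exp_add]
        congr 1
        ring
      have h3 : 2 * R / e * Real.exp (-((χ + 3 / 4 * y) * k)) ≤ r := by
        calc 2 * R / e * Real.exp (-((χ + 3 / 4 * y) * k))
            ≤ Real.exp (y / 2 * k) * Real.exp (-((χ + 3 / 4 * y) * k)) := by gcongr
          _ = Real.exp (-((χ + y / 4) * k)) := by rw [mul_comm, h2]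
          _ ≤ r := f2
      calc ‖l‖ * R ≤ Real.exp (-((χ + 3 / 4 * y) * k)) * R := by gcongr
        _ = e / 2 * (2 * R / e * Real.exp (-((χ + 3 / 4 * y) * k))) := by field_simp
        _ ≤ e / 2 * r := by gcongr
    · rw [hX₁]
      exact low_l hd hCa hQ1 ((hn₀le n' hPn').trans_lt hn') hb2 hPdc hder a1 a2
  choose! l hq1 hq2 hq3 hq4 using hq
  -- a centre in the disc
  obtain ⟨c₁, hc₁b, n₁, hn₁, hc₁P⟩ := low_center (N₁ := N₁) hd X hr hκg hP hβ hG (fun h1 h2 =>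
    HZ k g h1 fun w hw => (h2 w hw).trans hr3)
  have hc₁S : c₁ ∈ S := by
    rw [hS]
    refine ⟨closedBall_subset_closedBall ?_ hc₁b, n₁, by omega, hc₁P⟩
    have : 0 < e / 2 * r := by positivity
    linarith
  have hqc₁ : c1 * (X₁ / Q) ≤ ‖l c₁‖ := by
    rw [hc1]
    exact hq3 c₁ hc₁S (N₁ + 1) n₁ hn₁ hc₁P
  -- the cover
  have hcover0 : ∀ x ∈ multibrotSet d ∩ closedBall c₀ r,
      GG d id k x ∈ CE d δ N g (zz d c₀ k) (3 * ‖D‖ * r) (Lm * X₁) →
      ∃ c' ∈ S, ‖c' - x‖ ≤ K₄ * (X₁ / Q) ∧ c2 * (X₁ / Q) ≤ ‖l c'‖ := by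
    rintro x ⟨hxM, hxb⟩ ⟨n, hn, hEN, hval⟩
    have hwb : GG d id k x ∈ ball (zz d c₀ k) (3 * ‖D‖ * r / 2) := hEN.1.2
    obtain ⟨i1, i2⟩ := g2 n hn _ hEN
    have hGd : DifferentiableOn ℂ (GG d g n) (ball (zz d c₀ k) (3 * ‖D‖ * r)) :=
      Pool.Agent.Y274.CA.gg_diff X.cv.hol n
    obtain ⟨c', hc'P, hc'd⟩ := X.near_center hd hr hκg hP (w := GG d id k x) (n := n) hwb hΓ hcρ i1
      i2 hGd hval (by
        have h1 : 16 * √Γ * Lm * X₁ ≤ 3 * κg * (r * Q) := by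
          calc 16 * √Γ * Lm * X₁ = 3 * κg * (16 * √Γ * Lm / (3 * κg) * X₁) := by field_simp
            _ ≤ 3 * κg * (K * X₁) := by gcongr
            _ ≤ 3 * κg * (r * Q) := by gcongr
        linarith) (by
        have h1 : 8 * Lm / cρ * X₁ ≤ 2 := e4.trans (hCE.bd k)
        rw [div_mul_eq_mul_div, div_le_iff₀ hcρ] at h1
        linarith)
    have hgx : g (GG d id k x) = x := by
      refine X.inv' x (closedBall_subset_ball (by linarith) hxb) (ball_subset_ball ?_ hwb)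
      have : 0 < ‖D‖ * r := by positivity
      linarith
    rw [hgx, ← hK₂, ← hQ] at hc'd
    have hdist : ‖c' - x‖ ≤ K₄ * (X₁ / Q) := by
      refine hc'd.trans (le_of_eq ?_)
      rw [hK₄]
      field_simp
    have hc'S : c' ∈ S := by
      rw [hS]
      refine ⟨?_, n, by omega, hc'P⟩
      rw [mem_closedBall, dist_eq_norm] at hxb ⊢
      have h1 : ‖c' - c₀‖ ≤ ‖c' - x‖ + ‖x - c₀‖ := by
        have := norm_add_le (c' - x) (x - c₀)
        rwa [sub_add_sub_cancel] at this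
      have h2 : K₄ * (X₁ / Q) ≤ e / 2 * r := by
        calc K₄ * (X₁ / Q) = e / 2 * (8 * √Γ * Lm * K₂ / e * X₁) / Q := by
              rw [hK₄]
              field_simp
              ring
          _ ≤ e / 2 * (K * X₁) / Q := by gcongr
          _ ≤ e / 2 * (r * Q) / Q := by gcongr
          _ = e / 2 * r := by field_simp
      linarith
    refine ⟨c', hc'S, hdist, ?_⟩
    rw [hc2]
    exact hq3 c' hc'S N₂ n (by omega) hc'P
  have hcover : ∀ x ∈ multibrotSet d ∩ closedBall c₀ r,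
      GG d id k x ∈ CE d δ N g (zz d c₀ k) (3 * ‖D‖ * r) (Lm * X₁) →
      x ∈ ⋃ c ∈ S, closedBall c (‖l c‖ * (R / 5)) := by
    intro x hx hCx
    obtain ⟨c', hc'S, hdist, h1⟩ := hcover0 x hx hCx
    simp only [mem_iUnion]
    refine ⟨c', hc'S, ?_⟩
    rw [mem_closedBall, dist_comm, dist_eq_norm]
    rw [← hK₄] at hRc
    calc ‖c' - x‖ ≤ K₄ * (X₁ / Q) := hdist
      _ ≤ R / 5 * c2 * (X₁ / Q) := by gcongr
      _ = R / 5 * (c2 * (X₁ / Q)) := by ring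
      _ ≤ R / 5 * ‖l c'‖ := by gcongr
      _ = _ := by ring
  have hrem := rem_pull hd X hr hκg hP (v := ε₀ * X₁ ^ 2) (by positivity) g1 hcover
  have hrem' : volume.real ((multibrotSet d ∩ closedBall c₀ r) \
      ⋃ c ∈ S, closedBall c (‖l c‖ * (R / 5))) ≤ e * ‖l c₁‖ ^ 2 := by
    refine hrem.trans ?_
    rw [← hQ]
    calc 2 / (κg * Q) ^ 2 * (ε₀ * X₁ ^ 2) = e * (c1 * (X₁ / Q)) ^ 2 := by
          rw [hε₀]
          field_simp
      _ ≤ e * ‖l c₁‖ ^ 2 := by gcongr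
  have hY : Yk d c₀ k = X₁ / Q := by
    unfold Yk
    rw [← hQ, ← hX₁]
  have hupper : volume.real (multibrotSet d ∩ closedBall c₀ r) ≤
      (1 + (Sk d c₀ r k N₂).ncard) * (KU * Yk d c₀ k ^ 2) := by
    rw [hY]
    have hrem2 := rem_pull hd X hr hκg hP (v := ε₀ * X₁ ^ 2) (by positivity) g1
      (U := ⋃ c ∈ S, closedBall c (K₄ * (X₁ / Q))) (by
        intro x hx hCx
        obtain ⟨c', hc'S, hdist, -⟩ := hcover0 x hx hCx
        simp only [mem_iUnion]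
        refine ⟨c', hc'S, ?_⟩
        rw [mem_closedBall, dist_comm, dist_eq_norm]
        exact hdist)
    have hSS : S ⊆ Sk d c₀ r k N₂ := by
      rw [hS]
      rintro c ⟨h1, h2⟩
      refine ⟨closedBall_subset_closedBall ?_ h1, h2⟩
      gcongr
      linarith
    have hSn : S.ncard ≤ (Sk d c₀ r k N₂).ncard := Set.ncard_le_ncard hSS (Sk_finite hd c₀ r k N₂)
    exact up_area hd hSf (by positivity) hrem2 (le_trans (le_of_eq (by
        rw [← hQ]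
        field_simp)) (mul_le_mul_of_nonneg_right (show 2 / κg ^ 2 * ε₀ ≤ KU by
          rw [hKU]; exact le_max_left _ _) (by positivity)))
      (le_trans (le_of_eq (by rw [mul_pow]; ring)) (mul_le_mul_of_nonneg_right
        (show Real.pi * K₄ ^ 2 ≤ KU by rw [hKU]; exact le_max_right _ _) (by positivity)))
      hSn
  have hsub : ∀ c ∈ S, closedBall c (‖l c‖ * R) ⊆ closedBall c₀ ((1 + e) * r) := by
    intro c hc
    have h1 := hq2 c hc
    rw [hS] at hc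
    have h2 := hc.1
    rw [mem_closedBall] at h2
    intro z hz
    rw [mem_closedBall] at hz ⊢
    calc dist z c₀ ≤ dist z c + dist c c₀ := dist_triangle _ _ _
      _ ≤ e / 2 * r + (1 + e / 2) * r := add_le_add (hz.trans h1) h2
      _ = _ := by ring
  obtain ⟨⟨u, hu1, hu2, hu3⟩, hmain, hlowV⟩ := assemble hd he0 (by linarith) heh hR15 hSf hq1
    (D := closedBall c₀ r) (D' := closedBall c₀ ((1 + e) * r)) hsub hc₁S hrem'
  have hmono : volume.real (multibrotSet d ∩ closedBall c₀ ((1 + e) * r)) ≤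
      volume.real (multibrotSet d ∩ closedBall c₀ ((1 + ε) * r)) := by
    refine measureReal_mono ?_
      (ne_top_of_le_ne_top (multi_fin hd) (measure_mono inter_subset_left))
    apply inter_subset_inter_right
    apply closedBall_subset_closedBall
    gcongr
  have hcoe' : coe (volume.real (multibrotSet d)) (volume.real (HH d)) e ≤ thet d + ε := by
    refine hcoe.trans ?_
    unfold thet
    have := min_le_left ε (y / 4)
    linarith
  have hth : 0 ≤ thet d + ε := by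
    have h1 := area_le hd
    have h2 := multi_pos hd
    have : 0 ≤ thet d := div_nonneg (by linarith) h2.le
    linarith
  have hV0 : 0 ≤ volume.real (multibrotSet d ∩ closedBall c₀ ((1 + e) * r)) := measureReal_nonneg
  have hεR : ∀ c ∈ S, ‖l c‖ / ε ≤ ‖l c‖ * (R / 5) := by
    intro c _
    rw [div_eq_mul_one_div]
    have h1 : 1 / ε ≤ R / 5 := (one_div_le_one_div_of_le he0 heε).trans hRe
    exact mul_le_mul_of_nonneg_left h1 (norm_nonneg _)
  refine ⟨⟨u, l, fun c hc => ⟨hq4 c (hu1 hc), (hq1 c (hu1 hc)).l0, ?_, fun κ hκ => ?_⟩, ?_, ?_⟩,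
    ?_, ?_, hupper, hrP, by rw [← hQ]; exact hQ1, ?_⟩
  · refine (closedBall_subset_closedBall ?_).trans ((hsub c (hu1 hc)).trans
      (closedBall_subset_closedBall ?_))
    · refine (hεR c (hu1 hc)).trans ?_
      gcongr
      linarith
    · gcongr
  · exact (hq1 c (hu1 hc)).hyp κ ((ball_subset_ball heε).trans hκ)
  · intro b hb b' hb' hbb
    exact (hu2 hb hb' hbb).mono (closedBall_subset_closedBall (hεR b (hu1 hb)))
      (closedBall_subset_closedBall (hεR b' (hu1 hb')))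
  · calc _ ≤ volume.real {b | b ∈ closedBall c₀ r ∧ b ∈ multibrotSet d ∧
          ∀ c ∈ u, b ∈ Far d e c (l c)} := by
          refine measureReal_mono ?_ (ne_top_of_le_ne_top (multi_fin hd)
            (measure_mono fun x hx => hx.2.1))
          rintro x ⟨hx1, hx2, hx3⟩
          refine ⟨hx1, hx2, fun c hc => ⟨hx2, fun κ hκ => le_trans ?_ (hx3 c hc κ hκ)⟩⟩
          gcongr
      _ ≤ 2 * (e / (volume.real (HH d) - e)) *
          volume.real (multibrotSet d ∩ closedBall c₀ ((1 + e) * r)) := hu3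
      _ ≤ ε * volume.real (multibrotSet d ∩ closedBall c₀ ((1 + e) * r)) := by
          gcongr
          exact hfr.trans (min_le_left _ _)
      _ ≤ _ := by gcongr
  · calc _ ≤ coe (volume.real (multibrotSet d)) (volume.real (HH d)) e *
          volume.real (multibrotSet d ∩ closedBall c₀ ((1 + e) * r)) := hmain
      _ ≤ (thet d + ε) * volume.real (multibrotSet d ∩ closedBall c₀ ((1 + e) * r)) := by gcongr
      _ ≤ _ := by gcongr
  · rw [hY]
    have h1 : (volume.real (HH d) - e) * c1 ^ 2 * (X₁ / Q) ^ 2 ≤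
        (volume.real (HH d) - e) * ‖l c₁‖ ^ 2 := by
      have h2 : c1 ^ 2 * (X₁ / Q) ^ 2 = (c1 * (X₁ / Q)) ^ 2 := by ring
      rw [mul_assoc, h2]
      have h3 : 0 ≤ c1 * (X₁ / Q) := by positivity
      gcongr
    refine h1.trans ((hq1 c₁ hc₁S).low.trans ?_)
    refine measureReal_mono (inter_subset_inter_right _ ?_)
      (ne_top_of_le_ne_top (multi_fin hd) ((measure_mono inter_subset_left).trans
        (measure_mono (HH_sub hd))))
    refine (closedBall_subset_closedBall ?_).trans ((hsub c₁ hc₁S).trans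
      (closedBall_subset_closedBall (by gcongr)))
    have := norm_nonneg (l c₁)
    gcongr
    linarith
  · intro x hx
    have h1 : ‖GG d id k x - zz d c₀ k‖ ≤ 17 / 16 * ‖D‖ * (8 * r) := by
      have h2 := (convex_ball c₀ (8 * r)).norm_image_sub_le_of_norm_deriv_le
        (f := GG d id k) (C := 17 / 16 * ‖D‖)
        (fun y _ => GG_id_diff hd k y) (fun y hy => (aff_der X.dst y hy).2)
        (mem_ball_self (by positivity)) hx
      have h3 : GG d id k c₀ = zz d c₀ k := rfl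
      rw [h3] at h2
      refine h2.trans ?_
      rw [mem_ball, dist_eq_norm] at hx
      gcongr
    have h2 := X.T1
    have h3 : ‖zz d c₀ k‖ ≤ 2 := hCE.bd k
    rw [P_succ_eq hd]
    change ‖GG d id k x‖ ≤ 5
    have h4 : ‖GG d id k x‖ ≤ ‖GG d id k x - zz d c₀ k‖ + ‖zz d c₀ k‖ := by
      have := norm_add_le (GG d id k x - zz d c₀ k) (zz d c₀ k)
      rwa [sub_add_cancel] at this
    have h5 : 17 / 16 * ‖D‖ * (8 * r) = 17 / 6 * (3 * ‖D‖ * r) := by ring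
    have h6 : 0 ≤ 3 * ‖D‖ * r := by positivity
    linarith

end Pool.Agent.H206.Rem
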