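import Pool.Agent.H206.RemP

set_option autoImplicit false

/-! # Zeros of the critical orbit, and the scales at uniformly expanding parameters -/

open Set Filter Metric MeasureTheory Topology Polynomial

namespace Pool.Agent.H206.Rem

open Pool.Agent.TH279.MD Pool.Agent.Y298.SH Pool.Agent.Y298.SH.CD Pool.Agent.Y298.CA
open Pool.Agent.H712R2 (P fc P_succ)
open N62a1eb23

/-- number of zeros of a polynomial -/
theorem zero_count {p : ℂ[X]} {c₀ : ℂ} {r B δ : ℝ} (hr : 0 < r) (hδ : 0 < δ)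
    (hB : ∀ z ∈ sphere c₀ (7 * r), ‖p.eval z‖ ≤ B) (h0 : δ ≤ ‖p.eval c₀‖) {T : Finset ℂ}
    (hT : ∀ z ∈ T, z ∈ closedBall c₀ (2 * r) ∧ p.eval z = 0) : (5 / 2 : ℝ) ^ T.card ≤ B / δ := by
  have hp : p ≠ 0 := by
    rintro rfl
    rw [eval_zero, norm_zero] at h0
    linarith
  have hle : T.val ≤ p.roots := by
    rw [Multiset.le_iff_subset T.nodup]
    intro z hz
    rw [mem_roots hp]
    exact (hT z hz).2
  obtain ⟨q, hq⟩ := (Multiset.prod_X_sub_C_dvd_iff_le_roots hp T.val).2 hle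
  have hev : ∀ z, p.eval z = (∏ w ∈ T, (z - w)) * q.eval z := by
    intro z
    conv_lhs => rw [hq]
    rw [eval_mul]
    congr 1
    change (∏ w ∈ T, (X - C w)).eval z = _
    rw [eval_prod]
    simp
  have hsph : ∀ z ∈ sphere c₀ (7 * r), ‖q.eval z‖ ≤ B / (5 * r) ^ T.card := by
    intro z hz
    have h1 := hB z hz
    rw [hev, norm_mul, norm_prod] at h1
    have h2 : (5 * r) ^ T.card ≤ ∏ w ∈ T, ‖z - w‖ := by
      rw [← Finset.prod_const]
      refine Finset.prod_le_prod (fun _ _ => by positivity) fun w hw => ?_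
      have h3 := (hT w hw).1
      rw [mem_closedBall, dist_eq_norm] at h3
      rw [mem_sphere, dist_eq_norm] at hz
      have h4 : ‖z - c₀‖ ≤ ‖z - w‖ + ‖w - c₀‖ := by
        have := norm_add_le (z - w) (w - c₀)
        rwa [sub_add_sub_cancel] at this
      linarith
    rw [le_div_iff₀ (by positivity)]
    calc ‖q.eval z‖ * (5 * r) ^ T.card ≤ ‖q.eval z‖ * ∏ w ∈ T, ‖z - w‖ := by gcongr
      _ = (∏ w ∈ T, ‖z - w‖) * ‖q.eval z‖ := by ring
      _ ≤ B := h1
  have hcen : ‖q.eval c₀‖ ≤ B / (5 * r) ^ T.card := by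
    refine Complex.norm_le_of_forall_mem_frontier_norm_le (U := ball c₀ (7 * r))
      isBounded_ball q.differentiable.diffContOnCl ?_ (subset_closure (mem_ball_self (by positivity)))
    intro z hz
    rw [frontier_ball c₀ (by positivity)] at hz
    exact hsph z hz
  have h1 : ‖p.eval c₀‖ ≤ (2 * r) ^ T.card * (B / (5 * r) ^ T.card) := by
    rw [hev, norm_mul, norm_prod]
    have h2 : ∏ w ∈ T, ‖c₀ - w‖ ≤ (2 * r) ^ T.card := by
      rw [← Finset.prod_const]
      refine Finset.prod_le_prod (fun _ _ => norm_nonneg _) fun w hw => ?_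
      have h3 := (hT w hw).1
      rwa [mem_closedBall, dist_comm, dist_eq_norm] at h3
    gcongr
  rw [le_div_iff₀ hδ]
  calc (5 / 2 : ℝ) ^ T.card * δ ≤ (5 / 2 : ℝ) ^ T.card * ((2 * r) ^ T.card * (B / (5 * r) ^ T.card)) := by
        gcongr
        exact h0.trans h1
    _ = B * (((5 / 2 : ℝ) * (2 * r)) ^ T.card / (5 * r) ^ T.card) := by
        rw [mul_pow (5 / 2 : ℝ) (2 * r)]
        generalize (5 / 2 : ℝ) ^ T.card = u
        generalize (2 * r) ^ T.card = v
        generalize (5 * r) ^ T.card = w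
        ring
    _ = B := by
        rw [show (5 / 2 : ℝ) * (2 * r) = 5 * r by ring, div_self (by positivity), mul_one]

/-- the critical orbit as a polynomial -/
noncomputable def pp (d : ℕ) : ℕ → ℂ[X]
  | 0 => 0
  | n + 1 => pp d n ^ d + X

theorem pp_eval (d n : ℕ) (c : ℂ) : (pp d n).eval c = P d n c := by
  induction n with
  | zero =>
    unfold pp
    rw [eval_zero]
    rfl
  | succ n ih =>
    unfold pp
    rw [eval_add, eval_pow, eval_X, ih, P_succ]

/-- bounds of the critical orbit -/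
def bb (d : ℕ) : ℕ → ℝ
  | 0 => 5
  | n + 1 => bb d n ^ d + 3

theorem bb_pos (d n : ℕ) : 0 < bb d n := by
  induction n with
  | zero => unfold bb; norm_num
  | succ n ih => unfold bb; positivity

theorem bb_bound {d k : ℕ} {x : ℂ} (hx : ‖x‖ ≤ 3) (h : ‖P d (k + 1) x‖ ≤ 5) (n : ℕ) :
    ‖P d (k + 1 + n) x‖ ≤ bb d n := by
  induction n with
  | zero => exact h
  | succ n ih =>
    rw [← add_assoc, P_succ]
    refine (norm_add_le _ _).trans ?_
    rw [norm_pow]
    unfold bb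
    have := bb_pos d n
    gcongr

/-- number of the superattracting parameters near a parameter with a non recurrent critical orbit -/
theorem Sk_card {d : ℕ} (N : ℕ) {δ : ℝ} (hδ : 0 < δ) : ∃ m : ℕ, ∀ (c₀ : ℂ) (r : ℝ) (k : ℕ),
    0 < r → 8 * r ≤ 1 → ‖c₀‖ ≤ 2 → (∀ n, 0 < n → δ ≤ ‖P d n c₀‖) →
    (∀ x ∈ ball c₀ (8 * r), ‖P d (k + 1) x‖ ≤ 5) →
    {c | c ∈ closedBall c₀ (2 * r) ∧ ∃ n < N, P d (k + 1 + n) c = 0}.Finite →
    {c | c ∈ closedBall c₀ (2 * r) ∧ ∃ n < N, P d (k + 1 + n) c = 0}.ncard ≤ m := by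
  have h1 : ∀ n, ∃ j : ℕ, bb d n / δ < (5 / 2 : ℝ) ^ j := fun n =>
    pow_unbounded_of_one_lt _ (by norm_num)
  choose j hj using h1
  refine ⟨∑ n ∈ Finset.range N, j n, ?_⟩
  intro c₀ r k hr hr1 hc₀ hfar hb hfin
  have hsub : {c | c ∈ closedBall c₀ (2 * r) ∧ ∃ n < N, P d (k + 1 + n) c = 0} =
      ⋃ n ∈ Finset.range N, {c | c ∈ closedBall c₀ (2 * r) ∧ P d (k + 1 + n) c = 0} := by
    ext c
    simp only [mem_ofPred_eq, mem_iUnion, Finset.mem_range, exists_prop]
    constructor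
    · rintro ⟨h1, n, h2, h3⟩
      exact ⟨n, h2, h1, h3⟩
    · rintro ⟨n, h2, h1, h3⟩
      exact ⟨h1, n, h2, h3⟩
  have hfin' : ∀ n ∈ Finset.range N,
      {c | c ∈ closedBall c₀ (2 * r) ∧ P d (k + 1 + n) c = 0}.Finite := by
    intro n hn
    refine hfin.subset ?_
    rintro c ⟨h1, h2⟩
    exact ⟨h1, n, Finset.mem_range.1 hn, h2⟩
  rw [hsub]
  refine (Finset.set_ncard_biUnion_le _ _).trans (Finset.sum_le_sum fun n hn => ?_)
  obtain ⟨T, hT⟩ := (hfin' n hn).exists_finset_coe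
  rw [← hT, Set.ncard_coe_finset]
  have h2 := zero_count (p := pp d (k + 1 + n)) (c₀ := c₀) (r := r) (B := bb d n) (δ := δ) hr hδ
    (fun z hz => by
      rw [pp_eval]
      rw [mem_sphere, dist_eq_norm] at hz
      refine bb_bound ?_ (hb z ?_) n
      · have h3 : ‖z‖ ≤ ‖z - c₀‖ + ‖c₀‖ := by
          have := norm_add_le (z - c₀) c₀
          rwa [sub_add_cancel] at this
        linarith
      · rw [mem_ball, dist_eq_norm]
        linarith) (by
      rw [pp_eval]
      exact hfar _ (by omega)) (T := T) (fun z hz => by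
      have h3 : z ∈ (T : Set ℂ) := hz
      rw [hT] at h3
      rw [pp_eval]
      exact h3)
  have h3 := h2.trans_lt (hj n)
  exact ((pow_lt_pow_iff_right₀ (by norm_num : (1 : ℝ) < 5 / 2)).1 h3).le

end Pool.Agent.H206.Rem
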