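import Pool.Agent.H206.RemR
import Pool.Agent.H206.RemT

set_option autoImplicit false

/-! # The scales at parameters with a uniformly expanding critical orbit -/

open Set Filter Metric MeasureTheory Topology

namespace Pool.Agent.H206.Rem

open Pool.Agent.TH279.MD Pool.Agent.Y298.SH Pool.Agent.Y298.SH.CD Pool.Agent.Y298.CA
open Pool.Agent.H712R2 (P fc P_succ)
open N62a1eb23

/-- The critical orbit is uniformly expanding: the derivatives double after time `M`. -/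
def UEx (d M : ℕ) (c₀ : ℂ) : Prop := ∀ j : ℕ, 2 * Pd d c₀ j ≤ Pd d c₀ (j + M)

/-- bound of the derivative -/
noncomputable def AA (d : ℕ) : ℝ := (d : ℝ) * 2 ^ (d - 1)

theorem AA_one {d : ℕ} (hd : 2 ≤ d) : 1 ≤ AA d := by
  have h1 : (1 : ℝ) ≤ d := by exact_mod_cast (by omega : 1 ≤ d)
  have h2 : (1 : ℝ) ≤ 2 ^ (d - 1) := one_le_pow₀ (by norm_num)
  exact one_le_mul_of_one_le_of_one_le h1 h2

theorem ue_step {d M : ℕ} {c₀ : ℂ} (hd : 2 ≤ d) (hb : ∀ i, ‖zz d c₀ i‖ ≤ 2) (he : UEx d M c₀)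
    (j s : ℕ) (hs : s ≤ M) : 2 * Pd d c₀ j ≤ AA d ^ M * Pd d c₀ (j + s) := by
  have h1 := he j
  have h2 := Pd_up hb (j + s) (M - s)
  have e : j + s + (M - s) = j + M := by omega
  rw [e] at h2
  have h3 : AA d ^ (M - s) ≤ AA d ^ M := pow_le_pow_right₀ (AA_one hd) (by omega)
  calc 2 * Pd d c₀ j ≤ Pd d c₀ (j + M) := h1
    _ ≤ AA d ^ (M - s) * Pd d c₀ (j + s) := h2
    _ ≤ _ := mul_le_mul_of_nonneg_right h3 (Pd_nonneg d c₀ _)

theorem ue_M {d M : ℕ} {c₀ : ℂ} (he : UEx d M c₀) (hP : 0 < Pd d c₀ 0) : 1 ≤ M := by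
  by_contra hM
  have hM0 : M = 0 := by omega
  subst hM0
  have h1 := he 0
  rw [add_zero] at h1
  linarith

/-- the sum of the derivatives -/
theorem ue_sum {d M : ℕ} {c₀ : ℂ} (hd : 2 ≤ d) (hb : ∀ i, ‖zz d c₀ i‖ ≤ 2) (hM : 1 ≤ M)
    (he : UEx d M c₀) (k : ℕ) :
    ∑ j ∈ Finset.range (k + 1), Pd d c₀ j ≤ M * AA d ^ M * Pd d c₀ k := by
  have hA : 0 ≤ AA d ^ M := pow_nonneg (by linarith [AA_one hd]) _
  have hM1 : (1 : ℝ) ≤ M := by exact_mod_cast hM
  induction k using Nat.strong_induction_on with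
  | _ k ih =>
    rcases lt_or_ge k M with hk | hk
    · have h1 : ∀ j ∈ Finset.range (k + 1), Pd d c₀ j ≤ AA d ^ M / 2 * Pd d c₀ k := by
        intro j hj
        rw [Finset.mem_range] at hj
        have h2 := ue_step hd hb he j (k - j) (by omega)
        have e : j + (k - j) = k := by omega
        rw [e] at h2
        linarith
      refine (Finset.sum_le_card_nsmul _ _ _ h1).trans ?_
      rw [Finset.card_range, nsmul_eq_mul]
      have h2 : ((k + 1 : ℕ) : ℝ) ≤ M := by exact_mod_cast hk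
      have h3 := Pd_nonneg d c₀ k
      have h4 : 0 ≤ AA d ^ M * Pd d c₀ k := by positivity
      calc ((k + 1 : ℕ) : ℝ) * (AA d ^ M / 2 * Pd d c₀ k)
          ≤ M * (AA d ^ M / 2 * Pd d c₀ k) := by gcongr
        _ = M * (AA d ^ M * Pd d c₀ k) / 2 := by ring
        _ ≤ M * (AA d ^ M * Pd d c₀ k) := by
          have : 0 ≤ M * (AA d ^ M * Pd d c₀ k) := by positivity
          linarith
        _ = _ := by ring
    · obtain ⟨i, rfl⟩ : ∃ i, k = i + M := ⟨k - M, by omega⟩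
      have h1 := ih i (by omega)
      have h2 := he i
      have e : i + M + 1 = (i + 1) + M := by ring
      rw [e, Finset.sum_range_add]
      have h3 : ∀ s ∈ Finset.range M, Pd d c₀ (i + 1 + s) ≤ AA d ^ M / 2 * Pd d c₀ (i + M) := by
        intro s hs
        rw [Finset.mem_range] at hs
        have h4 := ue_step hd hb he (i + 1 + s) (M - 1 - s) (by omega)
        have e : i + 1 + s + (M - 1 - s) = i + M := by omega
        rw [e] at h4
        linarith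
      have h4 := Finset.sum_le_card_nsmul _ _ _ h3
      rw [Finset.card_range, nsmul_eq_mul] at h4
      have h5 := Pd_nonneg d c₀ i
      have h6 : M * AA d ^ M * Pd d c₀ i ≤ M * AA d ^ M * (Pd d c₀ (i + M) / 2) := by
        gcongr
        linarith
      calc _ ≤ M * AA d ^ M * (Pd d c₀ (i + M) / 2) + M * (AA d ^ M / 2 * Pd d c₀ (i + M)) :=
            add_le_add (h1.trans h6) h4
        _ = _ := by ring

/-- the critical orbit is not recurrent -/
theorem ue_far {d M : ℕ} {c₀ : ℂ} (hd : 2 ≤ d) (hb : ∀ i, ‖zz d c₀ i‖ ≤ 2) (hM : 1 ≤ M)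
    (he : UEx d M c₀) (hP : ∀ j, 0 < Pd d c₀ j) (j : ℕ) : 1 / AA d ^ (M + 1) ≤ ‖zz d c₀ j‖ := by
  have hA := AA_one hd
  have hA0 : 0 < AA d := by linarith
  have h1 := ue_step hd hb he j 1 hM
  rw [Pd_succ] at h1
  have h2 : ‖zz d c₀ j‖ ^ (d - 1) ≤ 2 ^ (d - 1) * ‖zz d c₀ j‖ := by
    obtain ⟨n, hn⟩ : ∃ n, d - 1 = n + 1 := ⟨d - 2, by omega⟩
    rw [hn, pow_succ]
    have h3 : ‖zz d c₀ j‖ ^ n ≤ 2 ^ n := pow_le_pow_left₀ (norm_nonneg _) (hb j) n
    have h4 : (2 : ℝ) ^ n ≤ 2 ^ (n + 1) := pow_le_pow_right₀ (by norm_num) (by omega)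
    exact mul_le_mul_of_nonneg_right (h3.trans h4) (norm_nonneg _)
  have h3 : Pd d c₀ j * 2 ≤ Pd d c₀ j * (AA d ^ M * (AA d * ‖zz d c₀ j‖)) := by
    calc Pd d c₀ j * 2 = 2 * Pd d c₀ j := by ring
      _ ≤ _ := h1
      _ = Pd d c₀ j * (AA d ^ M * (d * ‖zz d c₀ j‖ ^ (d - 1))) := by ring
      _ ≤ Pd d c₀ j * (AA d ^ M * (d * (2 ^ (d - 1) * ‖zz d c₀ j‖))) := by
        have := Pd_nonneg d c₀ j
        gcongr
      _ = _ := by unfold AA; ring
  have h4 := le_of_mul_le_mul_left h3 (hP j)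
  rw [div_le_iff₀ (by positivity)]
  calc (1 : ℝ) ≤ 2 := by norm_num
    _ ≤ AA d ^ M * (AA d * ‖zz d c₀ j‖) := h4
    _ = _ := by ring

/-- **All scales are good.** -/
theorem ue_scale {d M : ℕ} {C₁ lam : ℝ} {c₀ : ℂ} (hd : 2 ≤ d) (h : CEp d C₁ lam c₀)
    (he : UEx d M c₀) {b : ℝ} (hb0 : 0 < b) : ∃ β : ℝ, 0 < β ∧ ∀ x : ℝ, 0 < x →
      ∃ k, x * Am d c₀ k ≤ b ∧ β ≤ x * Pd d c₀ k := by
  have hM := ue_M he (h.Pd_pos 0)
  have hA := AA_one hd
  have hA0 : 0 < AA d := by linarith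
  have hC1 := h.C1
  have hl := h.lam1
  have hM0 : (0 : ℝ) < M := by exact_mod_cast hM
  refine ⟨b / (AA d ^ (M + 1) * (M * AA d ^ M)), by positivity, fun x hx0 => ?_⟩
  have hex : ∃ k : ℕ, b < x * Am d c₀ k := by
    obtain ⟨n, hn⟩ := pow_unbounded_of_one_lt (2 * C₁ * b / x) hl
    refine ⟨n + 1, ?_⟩
    have h1 := Am_low h n
    rw [div_lt_iff₀ hx0] at hn
    have h2 : 2 * C₁ * b < 2 * C₁ * (x * Am d c₀ (n + 1)) := by
      calc 2 * C₁ * b < lam ^ n * x := hn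
        _ ≤ 2 * C₁ * Am d c₀ (n + 1) * x := by gcongr
        _ = _ := by ring
    exact lt_of_mul_lt_mul_left h2 (by positivity)
  classical
  obtain ⟨m, hm⟩ : ∃ m, m = Nat.find hex := ⟨_, rfl⟩
  have hm1 : b < x * Am d c₀ m := by rw [hm]; exact Nat.find_spec hex
  have hm0 : m ≠ 0 := by
    rintro rfl
    rw [Am_zero, mul_zero] at hm1
    linarith
  obtain ⟨k, rfl⟩ : ∃ k, m = k + 1 := ⟨m - 1, by omega⟩
  have hk1 : x * Am d c₀ k ≤ b := by
    have h1 : ¬ b < x * Am d c₀ k := Nat.find_min hex (by omega)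
    exact not_lt.1 h1
  refine ⟨k, hk1, ?_⟩
  have h1 : Am d c₀ (k + 1) ≤ AA d ^ (M + 1) * (M * AA d ^ M * Pd d c₀ k) := by
    unfold Am
    have h2 : ∀ j ∈ Finset.range (k + 1), Pd d c₀ j / ‖zz d c₀ j‖ ≤ AA d ^ (M + 1) * Pd d c₀ j := by
      intro j _
      have h3 := ue_far hd h.bd hM he h.Pd_pos j
      have h4 : 0 < ‖zz d c₀ j‖ := norm_pos_iff.2 (h.zz_ne j)
      have h5 := h.Pd_pos j
      rw [div_le_iff₀ h4]
      rw [div_le_iff₀ (by positivity)] at h3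
      calc Pd d c₀ j = Pd d c₀ j * 1 := (mul_one _).symm
        _ ≤ Pd d c₀ j * (‖zz d c₀ j‖ * AA d ^ (M + 1)) := by gcongr
        _ = _ := by ring
    refine (Finset.sum_le_sum h2).trans ?_
    rw [← Finset.mul_sum]
    have h3 := ue_sum hd h.bd hM he k
    gcongr
  rw [div_le_iff₀ (by positivity)]
  calc b ≤ x * Am d c₀ (k + 1) := hm1.le
    _ ≤ x * (AA d ^ (M + 1) * (M * AA d ^ M * Pd d c₀ k)) := by gcongr
    _ = _ := by ring

end Pool.Agent.H206.Rem
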