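import Pool.Agent.H206.RemS
import Pool.Agent.H206.RemU
import Pool.Agent.H206.Pre
import Pool.Graph.R_pool_sql_team_seeded_2aa45f1a.Results.MP_c35c17_an.UniformlyExpanding

set_option autoImplicit false

/-! # The proportion and the area at all small scales -/

open Set Filter Metric MeasureTheory Topology

namespace Pool.Agent.H206.Rem

open Pool.Agent.TH279.MD Pool.Agent.Y298.SH Pool.Agent.Y298.SH.CD Pool.Agent.Y298.CA
open Pool.Agent.H712R2 (P fc P_succ)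
open N62a1eb23

theorem Yk_sq {d : ℕ} (hd : 2 ≤ d) {c₀ : ℂ} {k : ℕ} (hQ : 0 < Pd d c₀ k) :
    Yk d c₀ k ^ 2 = (1 / Pd d c₀ k) ^ (2 * (d : ℝ) / (d - 1)) := by
  have hd1 : ((d - 1 : ℕ) : ℝ) = (d : ℝ) - 1 := by
    rw [Nat.cast_sub (by omega), Nat.cast_one]
  have hdR : (2 : ℝ) ≤ d := by exact_mod_cast hd
  have hd0 : (d : ℝ) - 1 ≠ 0 := by linarith
  obtain ⟨x, hx⟩ : ∃ x, x = 1 / Pd d c₀ k := ⟨_, rfl⟩
  have hx0 : 0 < x := by rw [hx]; positivity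
  have h1 : Yk d c₀ k = x ^ (((d : ℝ) - 1)⁻¹ + 1) := by
    unfold Yk X0
    rw [hd1, ← hx, div_eq_mul_one_div, ← hx, Real.rpow_add hx0, Real.rpow_one]
  rw [h1, ← hx, ← Real.rpow_natCast, ← Real.rpow_mul hx0.le]
  congr 1
  push_cast
  field_simp
  ring

/-- **The proportion at all small scales.** -/
theorem all_scales {d M : ℕ} (hd : 2 ≤ d) {χ : ℝ} {c₀ : ℂ} (h : Lyap d χ c₀) (he : UEx d M c₀)
    {ε : ℝ} (hε : 0 < ε) : ∃ r₀ : ℝ, 0 < r₀ ∧ ∀ r : ℝ, 0 < r → r < r₀ →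
      Til d ε c₀ r (VM d c₀ ((1 + ε) * r)) ∧
      volume.real ((multibrotSet d \ HH d) ∩ closedBall c₀ r) ≤
        (thet d + ε) * VM d c₀ ((1 + ε) * r) := by
  obtain ⟨⟨C₁, lam, hCE⟩, -⟩ := Pool.Agent.Y674.CA.lya d χ c₀ hd h
  obtain ⟨κg, b₁, hκg, hb₁, -, HG⟩ := good_scale2 hd h
  obtain ⟨β, hβ, Hβ⟩ := ue_scale hd hCE he hb₁
  obtain ⟨k₁, N₂, r₁, cV, KU, hr₁, -, -, H⟩ := HG β ε hβ hε
  obtain ⟨r₂, hr₂, H₂⟩ := early hCE hκg hβ k₁
  refine ⟨min r₁ r₂, lt_min hr₁ hr₂, fun r hr hr0 => ?_⟩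
  obtain ⟨k, hk1, hk2⟩ := Hβ r hr
  have hG : Gd d c₀ κg β r k := Or.inl hk2
  obtain ⟨a1, a2, -⟩ := H r k hr (hr0.le.trans (min_le_left _ _))
    (H₂ r hr (hr0.trans_le (min_le_right _ _)) k hG) hk1 hG
  exact ⟨a1, a2⟩

/-- **The order of the area.** -/
theorem area_order {d M : ℕ} (hd : 2 ≤ d) {χ : ℝ} {c₀ : ℂ} (h : Lyap d χ c₀) (he : UEx d M c₀) :
    ∃ a C r₀ : ℝ, 0 < a ∧ 0 < C ∧ 0 < r₀ ∧ ∀ r : ℝ, 0 < r → r < r₀ →
      a * r ^ (2 * (d : ℝ) / (d - 1)) ≤ volume.real (HH d ∩ closedBall c₀ r) ∧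
      VM d c₀ r ≤ C * r ^ (2 * (d : ℝ) / (d - 1)) := by
  obtain ⟨⟨C₁, lam, hCE⟩, -⟩ := Pool.Agent.Y674.CA.lya d χ c₀ hd h
  obtain ⟨κg, b₁, hκg, hb₁, -, HG⟩ := good_scale2 hd h
  obtain ⟨β, hβ, Hβ⟩ := ue_scale hd hCE he hb₁
  obtain ⟨k₁, N₂, r₁, cV, KU, hr₁, hcV, hKU, H⟩ := HG β 1 hβ one_pos
  obtain ⟨r₂, hr₂, H₂⟩ := early hCE hκg hβ k₁
  have hM := ue_M he (hCE.Pd_pos 0)
  have hA := AA_one hd
  have hA0 : 0 < AA d := by linarith
  obtain ⟨m, hm⟩ := Sk_card (d := d) N₂ (δ := 1 / AA d ^ (M + 1)) (by positivity)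
  obtain ⟨E, hE⟩ : ∃ E : ℝ, E = 2 * (d : ℝ) / (d - 1) := ⟨_, rfl⟩
  have hdR : (2 : ℝ) ≤ d := by exact_mod_cast hd
  have hd0 : (0 : ℝ) < d := by linarith
  have hE0 : 0 ≤ E := by
    rw [hE]
    have : (0 : ℝ) < (d : ℝ) - 1 := by linarith
    positivity
  rw [← hE]
  refine ⟨cV / (2 * d) ^ E, (1 + m) * (KU * (1 / β) ^ E), min (min r₁ r₂) (1 / 8),
    by positivity, by positivity, by positivity, fun r hr hr0 => ⟨?_, ?_⟩⟩
  · have hr' : 0 < r / 2 := by positivity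
    have hr0' : r / 2 < min r₁ r₂ := by
      have := hr0.trans_le (min_le_left _ _)
      linarith
    obtain ⟨k, hk1, hk2⟩ := Hβ (r / 2) hr'
    have hG : Gd d c₀ κg β (r / 2) k := Or.inl hk2
    obtain ⟨-, -, a3, -, a5, a6, -⟩ := H (r / 2) k hr' (hr0'.le.trans (min_le_left _ _))
      (H₂ (r / 2) hr' (hr0'.trans_le (min_le_right _ _)) k hG) hk1 hG
    have hQ0 : 0 < Pd d c₀ k := hCE.Pd_pos k
    rw [Yk_sq hd hQ0, ← hE] at a3
    have e1 : (1 + 1) * (r / 2) = r := by ring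
    rw [e1] at a3
    refine le_trans ?_ a3
    have h1 : r / (2 * d) ≤ 1 / Pd d c₀ k := by
      rw [div_le_div_iff₀ (by positivity) hQ0]
      linarith
    calc cV / (2 * d) ^ E * r ^ E = cV * (r / (2 * d)) ^ E := by
          rw [Real.div_rpow hr.le (by positivity)]
          ring
      _ ≤ cV * (1 / Pd d c₀ k) ^ E := by
          have := Real.rpow_le_rpow (by positivity) h1 hE0
          gcongr
  · have hr0' : r < min r₁ r₂ := hr0.trans_le (min_le_left _ _)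
    have hr8 : 8 * r ≤ 1 := by
      have := hr0.trans_le (min_le_right _ _)
      linarith
    obtain ⟨k, hk1, hk2⟩ := Hβ r hr
    have hG : Gd d c₀ κg β r k := Or.inl hk2
    obtain ⟨-, -, -, a4, -, a6, a7⟩ := H r k hr (hr0'.le.trans (min_le_left _ _))
      (H₂ r hr (hr0'.trans_le (min_le_right _ _)) k hG) hk1 hG
    have hQ0 : 0 < Pd d c₀ k := hCE.Pd_pos k
    rw [Yk_sq hd hQ0, ← hE] at a4
    have hcard : (Sk d c₀ r k N₂).ncard ≤ m := by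
      refine hm c₀ r k hr hr8 (hCE.bd 0) (fun n hn => ?_) a7 (Sk_finite hd c₀ r k N₂)
      obtain ⟨j, rfl⟩ : ∃ j, n = j + 1 := ⟨n - 1, by omega⟩
      rw [P_succ_eq hd]
      exact ue_far hd hCE.bd hM he hCE.Pd_pos j
    have h1 : 1 / Pd d c₀ k ≤ r * (1 / β) := by
      rw [div_le_iff₀ hQ0]
      calc (1 : ℝ) = β * (1 / β) := by field_simp
        _ ≤ r * Pd d c₀ k * (1 / β) := by gcongr
        _ = _ := by ring
    have h2 : (1 / Pd d c₀ k) ^ E ≤ r ^ E * (1 / β) ^ E := by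
      rw [← Real.mul_rpow hr.le (by positivity)]
      exact Real.rpow_le_rpow (by positivity) h1 hE0
    have h3 : ((Sk d c₀ r k N₂).ncard : ℝ) ≤ m := by exact_mod_cast hcard
    calc VM d c₀ r ≤ _ := a4
      _ ≤ (1 + m) * (KU * (r ^ E * (1 / β) ^ E)) := by gcongr
      _ = _ := by ring

/-- uniform expansion in the sense of the library -/
theorem uex_of {d M : ℕ} {c₀ : ℂ}
    (h : ∀ j : ℕ, 2 ≤ ‖deriv ((f d c₀)^[M]) ((f d c₀)^[j] c₀)‖) : UEx d M c₀ := by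
  intro j
  have h1 : Pd d c₀ (j + M) = ‖deriv ((f d c₀)^[M]) ((f d c₀)^[j] c₀)‖ * Pd d c₀ j := by
    unfold Pd
    rw [add_comm j M, Function.iterate_add]
    have h2 : Differentiable ℂ ((f d c₀)^[M]) := (show Differentiable ℂ (f d c₀) by
      unfold f; fun_prop).iterate M
    have h3 : Differentiable ℂ ((f d c₀)^[j]) := (show Differentiable ℂ (f d c₀) by
      unfold f; fun_prop).iterate j
    rw [deriv_comp c₀ (h2 _) (h3 _), norm_mul]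
  rw [h1]
  exact mul_le_mul_of_nonneg_right (h j) (Pd_nonneg d c₀ j)

end Pool.Agent.H206.Rem
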