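import Pool.Agent.H206.RemR

set_option autoImplicit false

/-! # The hyperbolic part has at least its global proportion -/

open Set Filter Metric MeasureTheory Topology

namespace Pool.Agent.H206.Rem

open Pool.Agent.H206.Thin (vol_aff thick_vol)
open N62a1eb23

/-- the area of the hyperbolic part of a disc filled with small copies -/
theorem til_low {d : ℕ} (hd : 2 ≤ d) {η : ℝ} (hη : 0 < η) : ∃ ε₁ : ℝ, 0 < ε₁ ∧
    ∀ (ε : ℝ) (c₀ : ℂ) (r : ℝ), 0 < ε → ε ≤ ε₁ → Til d ε c₀ r (VM d c₀ r) →
      (1 - thet d - η) * VM d c₀ r ≤ volume.real (HH d ∩ closedBall c₀ ((1 + ε) * r)) := by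
  obtain ⟨A, hA⟩ : ∃ A, A = volume.real (multibrotSet d) := ⟨_, rfl⟩
  obtain ⟨B, hB⟩ : ∃ B, B = volume.real (HH d) := ⟨_, rfl⟩
  have hA0 : 0 < A := by rw [hA]; exact multi_pos hd
  have hB0 : 0 < B := by rw [hB]; exact HH_pos hd
  have hBA : B ≤ A := by rw [hA, hB]; exact area_le hd
  obtain ⟨q, hq⟩ : ∃ q, q = B / A := ⟨_, rfl⟩
  have hqA : q * A = B := by rw [hq]; field_simp
  have hq1 : q ≤ 1 := by rw [hq, div_le_one hA0]; exact hBA
  have hth : 1 - thet d = q := by
    unfold thet
    rw [← hA, ← hB, hq]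
    field_simp
    ring
  obtain ⟨α, hα⟩ : ∃ α : ℝ, α = min (η * A / (2 + B)) (B / 2) := ⟨_, rfl⟩
  have hα0 : 0 < α := by rw [hα]; positivity
  have hα1 : α * (2 + B) ≤ η * A := by
    have : α ≤ η * A / (2 + B) := by rw [hα]; exact min_le_left _ _
    rwa [le_div_iff₀ (by positivity)] at this
  have hαB : α ≤ B / 2 := by rw [hα]; exact min_le_right _ _
  obtain ⟨δ₁, hδ₁, hT⟩ := thick_vol (Pool.Agent.H712R2.isCompact_multibrot hd) hα0
  have hHf : volume (HH d) ≠ ⊤ := ne_top_of_le_ne_top (multi_fin hd) (measure_mono (HH_sub hd))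
  obtain ⟨K, hKs, hK, hKv⟩ : ∃ K ⊆ HH d, IsCompact K ∧ ENNReal.ofReal (B - α) < volume K := by
    apply (HH_open hd).exists_lt_isCompact
    rw [ENNReal.ofReal_lt_iff_lt_toReal (by linarith) hHf]
    change B - α < volume.real (HH d)
    rw [← hB]
    linarith
  have hKf : volume K ≠ ⊤ := hK.measure_lt_top.ne
  have hKv' : B - α ≤ volume.real K :=
    ((ENNReal.ofReal_lt_iff_lt_toReal (by linarith) hKf).1 hKv).le
  have hTf : volume (thickening δ₁ (multibrotSet d)) ≠ ⊤ :=
    ne_top_of_le_ne_top (ENNReal.add_ne_top.2 ⟨multi_fin hd, ENNReal.ofReal_ne_top⟩) hT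
  have hTv : volume.real (thickening δ₁ (multibrotSet d)) ≤ A + α := by
    have h1 := ENNReal.toReal_mono (ENNReal.add_ne_top.2 ⟨multi_fin hd, ENNReal.ofReal_ne_top⟩) hT
    rw [ENNReal.toReal_add (multi_fin hd) ENNReal.ofReal_ne_top,
      ENNReal.toReal_ofReal hα0.le] at h1
    rw [hA]
    exact h1
  obtain ⟨δ₂, hδ₂, hKt⟩ := hK.exists_thickening_subset_open (HH_open hd) hKs
  refine ⟨min (min δ₁ δ₂) (min α (1 / 2)), by positivity, ?_⟩
  rintro ε c₀ r hε hεε ⟨u, l, h1, h2, h3⟩
  have hεδ₁ : ε ≤ δ₁ := hεε.trans ((min_le_left _ _).trans (min_le_left _ _))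
  have hεδ₂ : ε ≤ δ₂ := hεε.trans ((min_le_left _ _).trans (min_le_right _ _))
  have hεα : ε ≤ α := hεε.trans ((min_le_right _ _).trans (min_le_left _ _))
  have hε2 : ε ≤ 1 / 2 := hεε.trans ((min_le_right _ _).trans (min_le_right _ _))
  obtain ⟨V, hV⟩ : ∃ V, V = VM d c₀ r := ⟨_, rfl⟩
  have hV0 : 0 ≤ V := by rw [hV]; exact measureReal_nonneg
  obtain ⟨S, hS⟩ : ∃ S, S = ∑ c ∈ u, ‖l c‖ ^ 2 := ⟨_, rfl⟩
  have hbf : ∀ (c : ℂ) (x : ℝ) (X : Set ℂ), X ⊆ closedBall c x → volume X ≠ ⊤ := fun c x X hX =>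
    ne_top_of_le_ne_top (isCompact_closedBall c x).measure_lt_top.ne (measure_mono hX)
  -- the Multibrot set
  have hup : V ≤ α * V + S * (A + α) := by
    obtain ⟨F, hF⟩ : ∃ F : Set ℂ, F = {b | b ∈ closedBall c₀ r ∧ b ∈ multibrotSet d ∧
      ∀ c ∈ u, ∀ κ ∈ multibrotSet d, ε * ‖l c‖ ≤ ‖b - (c + l c * κ)‖} := ⟨_, rfl⟩
    have hcov : multibrotSet d ∩ closedBall c₀ r ⊆ F ∪ ⋃ c ∈ u,
        (((fun κ => c + l c * κ) '' thickening δ₁ (multibrotSet d)) ∩ closedBall c₀ r) := by
      rintro b ⟨hb1, hb2⟩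
      by_cases hbF : b ∈ F
      · exact Or.inl hbF
      · right
        rw [hF] at hbF
        simp only [mem_ofPred_eq, not_and, not_forall, not_le] at hbF
        obtain ⟨c, hc, κ, hκ, hlt⟩ := hbF hb2 hb1
        have hl0 := (h1 c hc).2.1
        have hln : 0 < ‖l c‖ := norm_pos_iff.2 hl0
        have h4 : c + l c * ((b - c) / l c) = b := by
          rw [mul_div_cancel₀ _ hl0, add_sub_cancel]
        simp only [mem_iUnion]
        refine ⟨c, hc, ⟨(b - c) / l c, ?_, h4⟩, hb2⟩
        rw [mem_thickening_iff]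
        refine ⟨κ, hκ, ?_⟩
        rw [dist_eq_norm]
        have h5 : (b - c) / l c - κ = (b - (c + l c * κ)) / l c := by
          field_simp
          ring
        rw [h5, norm_div, div_lt_iff₀ hln]
        exact hlt.trans_le (by gcongr)
    have hfin : volume (F ∪ ⋃ c ∈ u,
        (((fun κ => c + l c * κ) '' thickening δ₁ (multibrotSet d)) ∩ closedBall c₀ r)) ≠ ⊤ := by
      apply hbf c₀ r
      refine union_subset (fun b hb => ?_) (iUnion₂_subset fun c _ => inter_subset_right)
      rw [hF] at hb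
      exact hb.1
    calc V = volume.real (multibrotSet d ∩ closedBall c₀ r) := hV
      _ ≤ volume.real F + ∑ c ∈ u, volume.real
          (((fun κ => c + l c * κ) '' thickening δ₁ (multibrotSet d)) ∩ closedBall c₀ r) :=
          (measureReal_mono hcov hfin).trans ((measureReal_union_le _ _).trans
            (add_le_add le_rfl (measureReal_biUnion_finset_le _ _)))
      _ ≤ α * V + ∑ c ∈ u, ‖l c‖ ^ 2 * (A + α) := by
          refine add_le_add ?_ (Finset.sum_le_sum fun c hc => ?_)
          · rw [hF]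
            refine h3.trans ?_
            rw [← hV]
            gcongr
          · have hl0 := (h1 c hc).2.1
            have h4 := vol_aff hl0 c (S := thickening δ₁ (multibrotSet d))
              isOpen_thickening.measurableSet
            have h5 : volume ((fun κ => c + l c * κ) '' thickening δ₁ (multibrotSet d)) ≠ ⊤ := by
              rw [h4]
              exact ENNReal.mul_ne_top ENNReal.ofReal_ne_top hTf
            refine (measureReal_mono inter_subset_left h5).trans ?_
            rw [measureReal_def, h4, ENNReal.toReal_mul, ENNReal.toReal_ofReal (by positivity)]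
            exact mul_le_mul_of_nonneg_left hTv (by positivity)
      _ = α * V + S * (A + α) := by rw [hS, Finset.sum_mul]
  -- the hyperbolic part
  have hlow : S * (B - α) ≤ volume.real (HH d ∩ closedBall c₀ ((1 + ε) * r)) := by
    have hin : ∀ c ∈ u, (fun κ => c + l c * κ) '' K ⊆ closedBall c (‖l c‖ / ε) := by
      rintro c hc _ ⟨κ, hκ, rfl⟩
      have h4 := multi_sub hd (HH_sub hd (hKs hκ))
      rw [mem_closedBall, dist_zero_right] at h4
      rw [mem_closedBall, dist_eq_norm, add_sub_cancel_left, norm_mul, le_div_iff₀ hε]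
      calc ‖l c‖ * ‖κ‖ * ε ≤ ‖l c‖ * 2 * (1 / 2) := by gcongr
        _ = ‖l c‖ := by ring
    have hKc : ∀ c : ℂ, IsCompact ((fun κ => c + l c * κ) '' K) := fun c =>
      hK.image (by fun_prop)
    calc S * (B - α) = ∑ c ∈ u, ‖l c‖ ^ 2 * (B - α) := by rw [hS, Finset.sum_mul]
      _ ≤ ∑ c ∈ u, volume.real ((fun κ => c + l c * κ) '' K) := by
          refine Finset.sum_le_sum fun c hc => ?_
          rw [measureReal_def, vol_aff (h1 c hc).2.1 c hK.measurableSet, ENNReal.toReal_mul,
            ENNReal.toReal_ofReal (by positivity)]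
          exact mul_le_mul_of_nonneg_left hKv' (by positivity)
      _ = volume.real (⋃ c ∈ u, (fun κ => c + l c * κ) '' K) := by
          rw [measureReal_biUnion_finset (μ := volume) ?_ ?_ ?_]
          · intro c hc c' hc' hne
            exact (h2 hc hc' hne).mono (hin c hc) (hin c' hc')
          · intro c _
            exact (hKc c).measurableSet
          · intro c _
            exact (hKc c).measure_lt_top.ne
      _ ≤ volume.real (HH d ∩ closedBall c₀ ((1 + ε) * r)) := by
          refine measureReal_mono ?_ (hbf c₀ _ _ inter_subset_right)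
          refine iUnion₂_subset fun c hc => ?_
          rintro _ ⟨κ, hκ, rfl⟩
          obtain ⟨-, -, a3, a4⟩ := h1 c hc
          refine ⟨a4 κ ?_, a3 (hin c hc (mem_image_of_mem _ hκ))⟩
          exact (ball_subset_ball hεδ₂).trans ((ball_subset_thickening hκ δ₂).trans hKt)
  rw [hth, ← hV]
  have hAα : 0 < A + α := by linarith
  have h4 : (q - η) * (A + α) ≤ (B - α) * (1 - α) := by
    have h5 : q * α ≤ 1 * α := by gcongr
    have h6 : 0 ≤ η * α := by positivity
    have h7 : 0 ≤ α * α := by positivity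
    have h8 : (q - η) * (A + α) = q * A + q * α - η * A - η * α := by ring
    have h9 : (B - α) * (1 - α) = B - α - α * B + α * α := by ring
    rw [h8, h9, hqA]
    linarith
  have h5 : (q - η) * V * (A + α) ≤ S * (B - α) * (A + α) := by
    calc (q - η) * V * (A + α) = (q - η) * (A + α) * V := by ring
      _ ≤ (B - α) * (1 - α) * V := by gcongr
      _ = (B - α) * (V - α * V) := by ring
      _ ≤ (B - α) * (S * (A + α)) := by
          apply mul_le_mul_of_nonneg_left _ (by linarith)
          linarith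
      _ = _ := by ring
  exact (le_of_mul_le_mul_right h5 hAα).trans hlow

end Pool.Agent.H206.Rem
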