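import Pool.Agent.H206.RemN
import Pool.Graph.R_pool_sql_team_seeded_ab47071d.TH907.ML.M11
import Pool.Graph.R_pool_sql_team_seeded_47a924f7.T6.H38.LCA
import Pool.Graph.R_pool_sql_team_seeded_3997aac3.Q79.PowA

set_option autoImplicit false

/-! # The area of the Mandelbrot set: an upper bound (Gronwall) -/

open Set Filter Metric MeasureTheory Topology

namespace Pool.Agent.H206.Rem

open Pool.Agent.H713R2 Pool.Agent.H713R2.AR
open N62a1eb23

/-- Laurent coefficients -/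
theorem beta_coefs {β : ℂ → ℂ} (hβ : IsBeta 2 β) : tc β 0 = 1 ∧ tc β 1 = -1 / 2 ∧
    tc β 2 = 1 / 8 ∧ tc β 3 = -1 / 4 ∧ tc β 4 = 15 / 128 ∧ tc β 5 = 0 ∧ tc β 6 = -47 / 1024 ∧
    tc β 7 = -1 / 16 := by
  have hd : 2 ≤ 2 := le_rfl
  obtain ⟨b0, b1, b2, b3, v3, v4, v5, v6⟩ := Pool.Agent.TH907.ML.beta_values hβ
  have v0 := Pool.Agent.TH907.ML.tcBB_one hd hβ 1
  have v1 : tc (BB 2 β 1) 1 = 0 := Pool.Agent.TH907.ML.tcBB_zero hd hβ 1 le_rfl (by norm_num)
  have v2 : tc (BB 2 β 1) 2 = 0 := Pool.Agent.TH907.ML.tcBB_zero hd hβ 1 (by norm_num) (by norm_num)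
  have w0 := Pool.Agent.TH907.ML.tcBB_one hd hβ 2
  have w1 : tc (BB 2 β 2) 1 = 0 := Pool.Agent.TH907.ML.tcBB_zero hd hβ 2 le_rfl (by norm_num)
  have w2 : tc (BB 2 β 2) 2 = 0 := Pool.Agent.TH907.ML.tcBB_zero hd hβ 2 (by norm_num) (by norm_num)
  have w3 : tc (BB 2 β 2) 3 = 0 := Pool.Agent.TH907.ML.tcBB_zero hd hβ 2 (by norm_num) (by norm_num)
  have w4 : tc (BB 2 β 2) 4 = 0 := Pool.Agent.TH907.ML.tcBB_zero hd hβ 2 (by norm_num) (by norm_num)
  have w5 : tc (BB 2 β 2) 5 = 0 := Pool.Agent.TH907.ML.tcBB_zero hd hβ 2 (by norm_num) (by norm_num)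
  have w6 : tc (BB 2 β 2) 6 = 0 := Pool.Agent.TH907.ML.tcBB_zero hd hβ 2 (by norm_num) (by norm_num)
  have x7 : tc (BB 2 β 3) 7 = 0 := Pool.Agent.TH907.ML.tcBB_zero hd hβ 3 (by norm_num) (by norm_num)
  have e4 := Pool.Agent.TH907.ML.rec_coef hβ 0 4
  have e5 := Pool.Agent.TH907.ML.rec_coef hβ 0 5
  have e6 := Pool.Agent.TH907.ML.rec_coef hβ 0 6
  have e7 := Pool.Agent.TH907.ML.rec_coef hβ 0 7
  have f7 := Pool.Agent.TH907.ML.rec_coef hβ 1 7
  have g7 := Pool.Agent.TH907.ML.rec_coef hβ 2 7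
  simp only [BB_zero, zero_add, Nat.reduceAdd, Nat.reducePow, Nat.reduceSub, Nat.reduceLT,
    if_false, Finset.sum_range_succ, Finset.sum_range_zero, Nat.sub_zero, Nat.sub_self]
    at e4 e5 e6 e7 f7 g7
  rw [v4, b0, b1, b2, b3] at e4
  have b4 : tc β 4 = 15 / 128 := by linear_combination (-1 / 2 : ℂ) * e4
  rw [v5, b0, b1, b2, b3, b4] at e5
  have b5 : tc β 5 = 0 := by linear_combination (-1 / 2 : ℂ) * e5
  rw [v6, b0, b1, b2, b3, b4, b5] at e6
  have b6 : tc β 6 = -47 / 1024 := by linear_combination (-1 / 2 : ℂ) * e6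
  rw [x7, w0, w1, w2, w3, w4, w5, w6, b0] at g7
  have w7 : tc (BB 2 β 2) 7 = -1 / 2 := by linear_combination (-1 / 2 : ℂ) * g7
  rw [w7, v0, v1, v2, v3, v4, v5, v6, b4] at f7
  have v7 : tc (BB 2 β 1) 7 = -47 / 256 := by linear_combination (-1 / 2 : ℂ) * f7
  rw [v7, b0, b1, b2, b3, b4, b5, b6] at e7
  have b7 : tc β 7 = -1 / 16 := by linear_combination (-1 / 2 : ℂ) * e7
  exact ⟨b0, b1, b2, b3, b4, b5, b6, b7⟩

/-- **Upper bound of the area of the Mandelbrot set.** -/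
theorem area_mandel : volume.real (multibrotSet 2) ≤ Real.pi * (822299 / 1048576) := by
  obtain ⟨β, hβ⟩ := exists_beta (d := 2) le_rfl
  have hE : IsExt 1 β := Pool.Agent.T6.H38.LC.isExt_of_beta hβ
  obtain ⟨b0, b1, b2, b3, b4, b5, b6, b7⟩ := beta_coefs hβ
  have hpi := Real.pi_pos
  have key : ∀ ρ ∈ Ioo (0 : ℝ) 1, volume.real (multibrotSet 2) ≤ Real.pi / ρ ^ 2 *
      (1 - 1 / 64 * ρ ^ 4 - 1 / 8 * ρ ^ 6 - 3 * (225 / 16384) * ρ ^ 8 -
        5 * (2209 / 1048576) * ρ ^ 12 - 6 / 256 * ρ ^ 14) := by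
    intro ρ hρ
    have hρ0 := hρ.1
    obtain ⟨a1, i1⟩ := area_formula hρ0 hρ.2 hE hβ.diff (Q := Polynomial.X) (D := 1)
      (fun x _ hx0 => by
        rw [Polynomial.eval_X, pow_one, mul_inv_cancel_left₀ hx0])
    simp only [Polynomial.derivative_X, Polynomial.eval_one, norm_one, one_pow] at a1 i1
    rw [integral_const, smul_eq_mul, mul_one] at a1
    have hneg := a1.neg
    have h1 := sum_le_hasSum ({0, 1, 2, 3, 4, 5, 6, 7} : Finset ℕ) (fun k hk => by
      have hk1 : (1 : ℝ) ≤ k := by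
        have : 1 ≤ k := by
          by_contra h
          have : k = 0 := by omega
          subst this
          simp at hk
        exact_mod_cast this
      have h2 : 0 ≤ ‖tc β k‖ ^ 2 * ρ ^ (2 * k) := by positivity
      push_cast
      nlinarith) hneg
    rw [show ({0, 1, 2, 3, 4, 5, 6, 7} : Finset ℕ) = Finset.range 8 by decide] at h1
    simp only [Finset.sum_range_succ, Finset.sum_range_zero, b0, b1, b2, b3, b4, b5, b6, b7] at h1
    norm_num at h1
    have h3 : volume.real (multibrotSet 2) ≤ (volume.restrict (UU β ρ)ᶜ).real univ := by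
      rw [measureReal_restrict_apply MeasurableSet.univ, univ_inter]
      have hfin : volume (UU β ρ)ᶜ ≠ ⊤ := by
        have h4 : IntegrableOn (fun _ : ℂ => (1 : ℝ)) (UU β ρ)ᶜ := i1
        rw [integrableOn_const_iff] at h4
        simp only [one_ne_zero, enorm_one, false_or] at h4
        exact h4.ne
      refine measureReal_mono ?_ hfin
      rintro c hc ⟨x, ⟨hx0, hx1⟩, rfl⟩
      exact hβ.notMem x (mem_ball_zero_iff.2 (hx1.trans hρ.2)) hx0 hc
    rw [measureReal_restrict_apply MeasurableSet.univ, univ_inter] at h3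
    have h5 : ρ ^ 2 / Real.pi * volume.real (UU β ρ)ᶜ ≤
        1 - 1 / 64 * ρ ^ 4 - 1 / 8 * ρ ^ 6 - 3 * (225 / 16384) * ρ ^ 8 -
        5 * (2209 / 1048576) * ρ ^ 12 - 6 / 256 * ρ ^ 14 := by linarith
    have h6 : volume.real (UU β ρ)ᶜ = Real.pi / ρ ^ 2 *
        (ρ ^ 2 / Real.pi * volume.real (UU β ρ)ᶜ) := by field_simp
    refine h3.trans ?_
    rw [h6]
    gcongr
  have hlim : Tendsto (fun ρ : ℝ => Real.pi / ρ ^ 2 *
      (1 - 1 / 64 * ρ ^ 4 - 1 / 8 * ρ ^ 6 - 3 * (225 / 16384) * ρ ^ 8 -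
        5 * (2209 / 1048576) * ρ ^ 12 - 6 / 256 * ρ ^ 14)) (𝓝[<] 1)
      (𝓝 (Real.pi * (822299 / 1048576))) := by
    have h1 : ContinuousAt (fun ρ : ℝ => Real.pi / ρ ^ 2 *
        (1 - 1 / 64 * ρ ^ 4 - 1 / 8 * ρ ^ 6 - 3 * (225 / 16384) * ρ ^ 8 -
          5 * (2209 / 1048576) * ρ ^ 12 - 6 / 256 * ρ ^ 14)) 1 := by
      apply ContinuousAt.mul
      · exact continuousAt_const.div (by fun_prop) (by norm_num)
      · fun_prop
    have h2 : Real.pi * (822299 / 1048576) = (fun ρ : ℝ => Real.pi / ρ ^ 2 *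
        (1 - 1 / 64 * ρ ^ 4 - 1 / 8 * ρ ^ 6 - 3 * (225 / 16384) * ρ ^ 8 -
          5 * (2209 / 1048576) * ρ ^ 12 - 6 / 256 * ρ ^ 14)) 1 := by norm_num
    rw [h2]
    exact h1.tendsto.mono_left nhdsWithin_le_nhds
  refine ge_of_tendsto hlim ?_
  filter_upwards [Ioo_mem_nhdsLT (show (0 : ℝ) < 1 by norm_num)] with ρ hρ
  exact key ρ hρ

/-- the integral of the square of the distance to the centre -/
theorem int_sq (r : ℝ) (hr : 0 ≤ r) : ∫ w in ball (0 : ℂ) r, ‖w‖ ^ 2 = Real.pi * r ^ 4 / 2 := by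
  have h1 := integral_fun_norm_addHaar (E := ℂ) (F := ℝ) volume
    (fun y : ℝ => (Iio r).indicator (fun y => y ^ 2) y)
  have h2 : (fun x : ℂ => (Iio r).indicator (fun y => y ^ 2) ‖x‖) =
      (ball (0 : ℂ) r).indicator fun x => ‖x‖ ^ 2 := by
    funext x
    by_cases hx : ‖x‖ < r
    · rw [indicator_of_mem (show ‖x‖ ∈ Iio r from hx),
        indicator_of_mem (show x ∈ ball (0 : ℂ) r from mem_ball_zero_iff.2 hx)]
    · rw [indicator_of_notMem (show ‖x‖ ∉ Iio r from hx),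
        indicator_of_notMem (show x ∉ ball (0 : ℂ) r from fun h => hx (mem_ball_zero_iff.1 h))]
  rw [h2, integral_indicator measurableSet_ball] at h1
  rw [h1, Complex.finrank_real_complex]
  have h3 : volume.real (ball (0 : ℂ) 1) = Real.pi := by
    rw [measureReal_def, Complex.volume_ball]
    simp
  have h4 : ∫ y in Ioi (0 : ℝ), y ^ (2 - 1) • (Iio r).indicator (fun y => y ^ 2) y = r ^ 4 / 4 := by
    have h5 : ∀ y : ℝ, y ^ (2 - 1) • (Iio r).indicator (fun y : ℝ => y ^ 2) y =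
        (Iio r).indicator (fun y : ℝ => y ^ 3) y := by
      intro y
      by_cases hy : y ∈ Iio r
      · rw [indicator_of_mem hy, indicator_of_mem hy, smul_eq_mul]
        ring
      · rw [indicator_of_notMem hy, indicator_of_notMem hy, smul_zero]
    simp_rw [h5]
    rw [setIntegral_indicator measurableSet_Iio, Ioi_inter_Iio, ← integral_Ioc_eq_integral_Ioo,
      ← intervalIntegral.integral_of_le hr, integral_pow]
    norm_num
  rw [h3, h4]
  simp only [nsmul_eq_mul, smul_eq_mul]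
  push_cast
  ring

/-- the area of the main cardioid -/
theorem area_cardioid : volume ((fun w : ℂ => w - w ^ 2) '' ball 0 (1 / 2)) =
    ENNReal.ofReal (3 * Real.pi / 8) := by
  have hder : ∀ w : ℂ, deriv (fun w : ℂ => w - w ^ 2) w = 1 - 2 * w := by
    intro w
    have h1 : HasDerivAt (fun w : ℂ => w - w ^ 2) (1 - (2 : ℕ) * w ^ (2 - 1)) w :=
      (hasDerivAt_id w).sub (hasDerivAt_pow 2 w)
    rw [h1.deriv]
    norm_num
  have hinj : InjOn (fun w : ℂ => w - w ^ 2) (ball 0 (1 / 2)) := by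
    intro a ha b hb hab
    rw [mem_ball_zero_iff] at ha hb
    simp only at hab
    have h1 : (a - b) * (1 - (a + b)) = 0 := by linear_combination hab
    rcases mul_eq_zero.1 h1 with h2 | h2
    · exact sub_eq_zero.1 h2
    · exfalso
      have h3 : a + b = 1 := by linear_combination -h2
      have h4 := norm_add_le a b
      rw [h3, norm_one] at h4
      linarith
  rw [← Pool.Agent.Q79.PW.vol_image_eq (fun w : ℂ => w - w ^ 2) univ (ball 0 (1 / 2)) isOpen_univ
    (by fun_prop) measurableSet_ball (subset_univ _) hinj]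
  simp_rw [hder]
  have hc : Continuous fun w : ℂ => ‖1 - 2 * w‖ ^ 2 := by fun_prop
  have hint : ∀ f : ℂ → ℝ, Continuous f → IntegrableOn f (ball (0 : ℂ) (1 / 2)) := by
    intro f hf
    exact (hf.continuousOn.integrableOn_compact (isCompact_closedBall (0 : ℂ) (1 / 2))).mono_set
      ball_subset_closedBall
  rw [← ofReal_integral_eq_lintegral_ofReal (hint _ hc) (ae_of_all _ fun w => by positivity)]
  congr 1
  have h1 : ∫ w in ball (0 : ℂ) (1 / 2), ‖1 + 2 * w‖ ^ 2 =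
      ∫ w in ball (0 : ℂ) (1 / 2), ‖1 - 2 * w‖ ^ 2 := by
    rw [← integral_indicator measurableSet_ball, ← integral_indicator measurableSet_ball,
      ← integral_neg_eq_self]
    congr 1
    funext w
    by_cases hw : ‖w‖ < 1 / 2
    · rw [indicator_of_mem (show -w ∈ ball (0 : ℂ) (1 / 2) by
        rwa [mem_ball_zero_iff, norm_neg]), indicator_of_mem (show w ∈ ball (0 : ℂ) (1 / 2) by
        rwa [mem_ball_zero_iff])]
      congr 2
      ring
    · rw [indicator_of_notMem (show -w ∉ ball (0 : ℂ) (1 / 2) by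
        rwa [mem_ball_zero_iff, norm_neg]), indicator_of_notMem (show w ∉ ball (0 : ℂ) (1 / 2) by
        rwa [mem_ball_zero_iff])]
  have h2 : (∫ w in ball (0 : ℂ) (1 / 2), ‖1 + 2 * w‖ ^ 2) +
      ∫ w in ball (0 : ℂ) (1 / 2), ‖1 - 2 * w‖ ^ 2 =
      (∫ _ in ball (0 : ℂ) (1 / 2), (2 : ℝ)) + ∫ w in ball (0 : ℂ) (1 / 2), 8 * ‖w‖ ^ 2 := by
    rw [← integral_add (hint _ (by fun_prop)) (hint _ hc),
      ← integral_add (hint _ (by fun_prop)) (hint _ (by fun_prop))]
    congr 1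
    funext w
    have h3 := parallelogram_law_with_norm ℝ (1 : ℂ) (2 * w)
    rw [norm_one, norm_mul] at h3
    norm_num at h3
    nlinarith [h3]
  have h3 : ∫ _ in ball (0 : ℂ) (1 / 2), (2 : ℝ) = Real.pi / 2 := by
    rw [setIntegral_const, measureReal_def, Complex.volume_ball, smul_eq_mul, ENNReal.toReal_mul,
      ENNReal.toReal_pow, ENNReal.toReal_ofReal (by norm_num)]
    simp only [ENNReal.coe_toReal, NNReal.coe_real_pi]
    ring
  rw [h1, h3, integral_const_mul, int_sq _ (by norm_num)] at h2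
  linarith

/-- the parameters with an attracting fixed point -/
theorem cardioid_HH : (fun w : ℂ => w - w ^ 2) '' ball 0 (1 / 2) ⊆ HH 2 := by
  rintro _ ⟨w, hw, rfl⟩
  rw [mem_ball_zero_iff] at hw
  refine ⟨1, w, one_pos, ?_, ?_, ?_⟩
  · change (w : ℂ) ^ 2 + (w - w ^ 2) = w
    ring
  · rw [Function.iterate_one]
    fun_prop
  · rw [Function.iterate_one]
    have h1 : HasDerivAt (fun z : ℂ => z ^ 2 + (w - w ^ 2)) ((2 : ℕ) * w ^ (2 - 1)) w :=
      (hasDerivAt_pow 2 w).add_const _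
    rw [h1.deriv, norm_mul]
    norm_num
    linarith

/-- the parameters with an attracting cycle of period two -/
theorem disc_HH : ball (-1 : ℂ) (1 / 4) ⊆ HH 2 := by
  intro c hc
  rw [mem_ball, dist_eq_norm] at hc
  obtain ⟨s, hs⟩ : ∃ s : ℂ, s ^ 2 = -3 - 4 * c :=
    IsAlgClosed.exists_pow_nat_eq (-3 - 4 * c) (by norm_num)
  obtain ⟨z, hz⟩ : ∃ z : ℂ, z = (-1 + s) / 2 := ⟨_, rfl⟩
  have hz1 : z ^ 2 + z + 1 + c = 0 := by
    rw [hz]
    linear_combination (1 / 4 : ℂ) * hs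
  have hf1 : z ^ 2 + c = -z - 1 := by linear_combination hz1
  have hder : ∀ x : ℂ, HasDerivAt (fun z : ℂ => z ^ 2 + c) (2 * x) x := by
    intro x
    have h1 : HasDerivAt (fun z : ℂ => z ^ 2 + c) ((2 : ℕ) * x ^ (2 - 1)) x :=
      (hasDerivAt_pow 2 x).add_const _
    simpa using h1
  have hit : (fun z : ℂ => z ^ 2 + c)^[2] = (fun z : ℂ => z ^ 2 + c) ∘ fun z : ℂ => z ^ 2 + c := rfl
  refine ⟨2, z, by norm_num, ?_, ?_, ?_⟩
  · change (z ^ 2 + c) ^ 2 + c = z
    rw [hf1]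
    linear_combination hz1
  · rw [hit]
    exact (hder _).differentiableAt.comp z (hder z).differentiableAt
  · rw [hit, ((hder (z ^ 2 + c)).comp z (hder z)).deriv, hf1]
    have h1 : 2 * (-z - 1) * (2 * z) = 4 * (c - -1) := by linear_combination (-4 : ℂ) * hz1
    rw [h1, norm_mul]
    norm_num
    norm_num at hc
    linarith

/-- **Lower bound of the area of the hyperbolic components.** -/
theorem area_HH : Real.pi * (7 / 16) ≤ volume.real (HH 2) := by
  have hdisj : Disjoint ((fun w : ℂ => w - w ^ 2) '' ball 0 (1 / 2)) (ball (-1 : ℂ) (1 / 4)) := by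
    rw [Set.disjoint_left]
    rintro _ ⟨w, hw, rfl⟩ h
    rw [mem_ball_zero_iff] at hw
    rw [mem_ball, dist_eq_norm] at h
    simp only at h
    have h1 : (1 : ℂ) = (w - w ^ 2 - -1) - w + w ^ 2 := by ring
    have h2 : ‖(1 : ℂ)‖ ≤ ‖w - w ^ 2 - -1‖ + ‖w‖ + ‖w ^ 2‖ := by
      conv_lhs => rw [h1]
      refine (norm_add_le _ _).trans (add_le_add (norm_sub_le _ _) le_rfl)
    rw [norm_one, norm_pow] at h2
    have h3 : ‖w‖ ^ 2 ≤ (1 / 2) ^ 2 := by gcongr
    norm_num at h3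
    linarith
  have h1 : volume ((fun w : ℂ => w - w ^ 2) '' ball 0 (1 / 2) ∪ ball (-1 : ℂ) (1 / 4)) ≤
      volume (HH 2) := measure_mono (union_subset cardioid_HH disc_HH)
  rw [measure_union hdisj measurableSet_ball, area_cardioid, Complex.volume_ball] at h1
  have h2 := ENNReal.toReal_mono (ne_top_of_le_ne_top (multi_fin le_rfl)
    (measure_mono (HH_sub le_rfl))) h1
  rw [ENNReal.toReal_add ENNReal.ofReal_ne_top (by
    exact ENNReal.mul_ne_top (by simp) (by simp)), ENNReal.toReal_ofReal (by positivity),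
    ENNReal.toReal_mul, ENNReal.toReal_pow, ENNReal.toReal_ofReal (by norm_num)] at h2
  simp only [ENNReal.coe_toReal, NNReal.coe_real_pi] at h2
  rw [measureReal_def]
  linarith

/-- **The proportion of the non-hyperbolic parameters in the Mandelbrot set.** -/
theorem prop_mandel : (volume.real (multibrotSet 2) - volume.real (HH 2)) /
    volume.real (multibrotSet 2) ≤ 443 / 1000 := by
  have h1 := area_HH
  have h2 := area_mandel
  have h3 := multi_pos (d := 2) le_rfl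
  have hpi := Real.pi_pos
  rw [div_le_iff₀ h3]
  nlinarith

end Pool.Agent.H206.Rem
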