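import Pool.Agent.H206.RemX

set_option autoImplicit false

/-! # At least half of the area of the Multibrot sets is hyperbolic -/

open Set Filter Metric MeasureTheory Topology

namespace Pool.Agent.H206.Rem

open Pool.Agent.H713R2 Pool.Agent.H713R2.AR
open N62a1eb23

/-- low coefficients of the powers -/
theorem tc_pow_low {β : ℂ → ℂ} (hβ : DifferentiableOn ℂ β (ball 0 1)) {m : ℕ} (hm : 1 ≤ m)
    (h0 : tc β 0 = 1) (hz : ∀ j, 1 ≤ j → j < m → tc β j = 0) (a : ℕ) :
    tc (fun x => β x ^ a) 0 = 1 ∧ (∀ j, 1 ≤ j → j < m → tc (fun x => β x ^ a) j = 0) ∧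
      tc (fun x => β x ^ a) m = a * tc β m := by
  induction a with
  | zero =>
    have h1 : (fun x => β x ^ 0) = fun _ => (1 : ℂ) := by
      funext x
      rw [pow_zero]
    rw [h1]
    have h2 : ∀ j, 1 ≤ j → tc (fun _ : ℂ => (1 : ℂ)) j = 0 := by
      intro j hj
      obtain ⟨l, rfl⟩ := Nat.exists_eq_add_of_le' hj
      rw [tc_const_succ]
    refine ⟨by rw [tc_zero], fun j hj _ => h2 j hj, ?_⟩
    rw [h2 m hm, Nat.cast_zero, zero_mul]
  | succ a ih =>
    obtain ⟨i1, i2, i3⟩ := ih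
    have h1 : (fun x => β x ^ (a + 1)) = fun x => β x ^ a * β x := by
      funext x
      rw [pow_succ]
    have hpow : DifferentiableOn ℂ (fun x => β x ^ a) (ball 0 1) := hβ.pow a
    have h2 := Pool.Agent.TH907.ML.tc_mul_r hpow hβ
    refine ⟨?_, ?_, ?_⟩
    · rw [h1, h2, zero_add, Finset.sum_range_one, i1, h0, one_mul]
    · intro j hj hjm
      rw [h1, h2]
      refine Finset.sum_eq_zero fun i hi => ?_
      rw [Finset.mem_range] at hi
      rcases Nat.eq_zero_or_pos i with rfl | hi0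
      · rw [Nat.sub_zero, hz j hj hjm, mul_zero]
      · rw [i2 i hi0 (by omega), zero_mul]
    · rw [h1, h2, Finset.sum_range_succ, Nat.sub_self, h0, i3]
      obtain ⟨l, rfl⟩ : ∃ l, m = l + 1 := ⟨m - 1, by omega⟩
      rw [Finset.sum_range_succ']
      have h3 : ∑ i ∈ Finset.range l, tc (fun x => β x ^ a) (i + 1) * tc β (l + 1 - (i + 1)) = 0 := by
        refine Finset.sum_eq_zero fun i hi => ?_
        rw [Finset.mem_range] at hi
        rw [i2 (i + 1) (by omega) (by omega), zero_mul]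
      rw [h3, i1, Nat.sub_zero]
      push_cast
      ring

/-- the first nontrivial Laurent coefficient -/
theorem beta_first {d : ℕ} (hd : 2 ≤ d) {β : ℂ → ℂ} (hβ : IsBeta d β) :
    tc β (d - 1) = -1 / d := by
  have h0 : tc β 0 = 1 := Pool.Agent.TH907.ML.tcBB_one hd hβ 0
  have hz : ∀ j, 1 ≤ j → j < d - 1 → tc β j = 0 := by
    intro j hj hj2
    exact Pool.Agent.TH907.ML.tcBB_zero hd hβ 0 hj (by rw [zero_add, pow_one]; exact hj2)
  obtain ⟨-, -, h1⟩ := tc_pow_low hβ.diff (m := d - 1) (by omega) h0 hz d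
  have hdd : d < d ^ 2 := by nlinarith
  have h2 : tc (BB d β 1) (d - 1) = 0 :=
    Pool.Agent.TH907.ML.tcBB_zero hd hβ 1 (by omega) (by
      show d - 1 < d ^ 2 - 1
      omega)
  have h3 : BB d β 1 = fun x => β x ^ d + x ^ (d - 1) * β x := by
    funext x
    change β x ^ d + x ^ (d ^ (0 + 1) - 1) * β x = _
    rw [zero_add, pow_one]
  have hpow : DifferentiableOn ℂ (fun x => β x ^ d) (ball 0 1) := hβ.diff.pow d
  have hid : DifferentiableOn ℂ (fun x => x ^ (d - 1) * β x) (ball 0 1) :=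
    DifferentiableOn.mul (by fun_prop) hβ.diff
  have h4 := (Pool.Agent.TH907.ML.tc_pow_id_mul hβ.diff (d - 1)).1 0
  rw [add_zero] at h4
  rw [h3, tc_add one_pos hpow hid, h1, h4, h0] at h2
  have hd0 : (d : ℂ) ≠ 0 := by exact_mod_cast (by omega : d ≠ 0)
  field_simp
  linear_combination h2

/-- **Upper bound of the area of the Multibrot sets.** -/
theorem area_multi {d : ℕ} (hd : 2 ≤ d) :
    volume.real (multibrotSet d) ≤ Real.pi * (1 - ((d : ℝ) - 2) / d ^ 2) := by
  obtain ⟨β, hβ⟩ := exists_beta (d := d) hd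
  have hE : IsExt 1 β := ⟨hβ.diff, hβ.zero, hβ.inj⟩
  have b0 : tc β 0 = 1 := Pool.Agent.TH907.ML.tcBB_one hd hβ 0
  have b1 := beta_first hd hβ
  have hpi := Real.pi_pos
  have hdR : (2 : ℝ) ≤ d := by exact_mod_cast hd
  have hd1 : ((d - 1 : ℕ) : ℝ) = (d : ℝ) - 1 := by rw [Nat.cast_sub (by omega), Nat.cast_one]
  have key : ∀ ρ ∈ Ioo (0 : ℝ) 1, volume.real (multibrotSet d) ≤ Real.pi / ρ ^ 2 *
      (1 - ((d : ℝ) - 2) / d ^ 2 * ρ ^ (2 * (d - 1))) := by
    intro ρ hρ
    have hρ0 := hρ.1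
    obtain ⟨a1, i1⟩ := area_formula hρ0 hρ.2 hE hβ.diff (Q := Polynomial.X) (D := 1)
      (fun x _ hx0 => by
        rw [Polynomial.eval_X, pow_one, mul_inv_cancel_left₀ hx0])
    simp only [Polynomial.derivative_X, Polynomial.eval_one, norm_one, one_pow] at a1 i1
    rw [integral_const, smul_eq_mul, mul_one] at a1
    have hneg := a1.neg
    have h1 := sum_le_hasSum ({0, d - 1} : Finset ℕ) (fun k hk => by
      have hk1 : (1 : ℝ) ≤ k := by
        have : 1 ≤ k := by
          by_contra h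
          have : k = 0 := by omega
          subst this
          simp at hk
        exact_mod_cast this
      have h2 : 0 ≤ ‖tc β k‖ ^ 2 * ρ ^ (2 * k) := by positivity
      push_cast
      nlinarith) hneg
    rw [Finset.sum_pair (by omega), b0, b1, norm_one, hd1] at h1
    have hn : ‖(-1 : ℂ) / d‖ = 1 / d := by
      rw [norm_div, norm_neg, norm_one, Complex.norm_natCast]
    rw [hn] at h1
    have h3 : volume.real (multibrotSet d) ≤ (volume.restrict (UU β ρ)ᶜ).real univ := by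
      rw [measureReal_restrict_apply MeasurableSet.univ, univ_inter]
      have hfin : volume (UU β ρ)ᶜ ≠ ⊤ := by
        have h4 : IntegrableOn (fun _ : ℂ => (1 : ℝ)) (UU β ρ)ᶜ := i1
        rw [integrableOn_const_iff] at h4
        simp only [one_ne_zero, enorm_one, false_or] at h4
        exact h4.ne
      refine measureReal_mono ?_ hfin
      rintro c hc ⟨x, ⟨hx0, hx1⟩, rfl⟩
      exact hβ.notMem x (mem_ball_zero_iff.2 (hx1.trans hρ.2)) hx0 hc
    have h5 : ρ ^ 2 / Real.pi * (volume.restrict (UU β ρ)ᶜ).real univ ≤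
        1 - ((d : ℝ) - 2) / d ^ 2 * ρ ^ (2 * (d - 1)) := by
      have e1 : -(((1 : ℕ) : ℝ) - ((0 : ℕ) : ℝ)) * ((1 : ℝ) ^ 2 * ρ ^ (2 * 0)) = -1 := by
        rw [Nat.mul_zero, pow_zero]; norm_num
      have e2 : -((((1 : ℕ) : ℝ) - ((d : ℝ) - 1)) * ((1 / (d : ℝ)) ^ 2 * ρ ^ (2 * (d - 1)))) =
          ((d : ℝ) - 2) / d ^ 2 * ρ ^ (2 * (d - 1)) := by
        push_cast
        field_simp
        ring
      rw [e2] at h1
      norm_num at h1 ⊢
      linarith
    have h6 : (volume.restrict (UU β ρ)ᶜ).real univ = Real.pi / ρ ^ 2 *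
        (ρ ^ 2 / Real.pi * (volume.restrict (UU β ρ)ᶜ).real univ) := by field_simp
    refine h3.trans ?_
    rw [h6]
    gcongr
  have hlim : Tendsto (fun ρ : ℝ => Real.pi / ρ ^ 2 *
      (1 - ((d : ℝ) - 2) / d ^ 2 * ρ ^ (2 * (d - 1)))) (𝓝[<] 1)
      (𝓝 (Real.pi * (1 - ((d : ℝ) - 2) / d ^ 2))) := by
    have h1 : ContinuousAt (fun ρ : ℝ => Real.pi / ρ ^ 2 *
        (1 - ((d : ℝ) - 2) / d ^ 2 * ρ ^ (2 * (d - 1)))) 1 := by
      apply ContinuousAt.mul
      · exact continuousAt_const.div (by fun_prop) (by norm_num)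
      · fun_prop
    have h2 : Real.pi * (1 - ((d : ℝ) - 2) / d ^ 2) = (fun ρ : ℝ => Real.pi / ρ ^ 2 *
        (1 - ((d : ℝ) - 2) / d ^ 2 * ρ ^ (2 * (d - 1)))) 1 := by
      simp
    rw [h2]
    exact h1.tendsto.mono_left nhdsWithin_le_nhds
  refine ge_of_tendsto hlim ?_
  filter_upwards [Ioo_mem_nhdsLT (show (0 : ℝ) < 1 by norm_num)] with ρ hρ
  exact key ρ hρ

end Pool.Agent.H206.Rem
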