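import Pool.Agent.H206.RemY

set_option autoImplicit false

/-! # The area of the main component, and the proportion of the hyperbolic parameters -/

open Set Filter Metric MeasureTheory Topology

namespace Pool.Agent.H206.Rem

open N62a1eb23

/-- the integral of a power of the distance to the centre -/
theorem int_pow' (n : ℕ) (r : ℝ) (hr : 0 ≤ r) :
    ∫ w in ball (0 : ℂ) r, ‖w‖ ^ n = 2 * Real.pi * r ^ (n + 2) / (n + 2) := by
  have h1 := integral_fun_norm_addHaar (E := ℂ) (F := ℝ) volume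
    (fun y : ℝ => (Iio r).indicator (fun y => y ^ n) y)
  have h2 : (fun x : ℂ => (Iio r).indicator (fun y => y ^ n) ‖x‖) =
      (ball (0 : ℂ) r).indicator fun x => ‖x‖ ^ n := by
    funext x
    by_cases hx : ‖x‖ < r
    · rw [indicator_of_mem (show ‖x‖ ∈ Iio r from hx),
        indicator_of_mem (show x ∈ ball (0 : ℂ) r from mem_ball_zero_iff.2 hx)]
    · rw [indicator_of_notMem (show ‖x‖ ∉ Iio r from hx),
        indicator_of_notMem (show x ∉ ball (0 : ℂ) r from fun h => hx (mem_ball_zero_iff.1 h))]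
  rw [h2, integral_indicator measurableSet_ball] at h1
  rw [h1, Complex.finrank_real_complex]
  have h3 : volume.real (ball (0 : ℂ) 1) = Real.pi := by
    rw [measureReal_def, Complex.volume_ball]
    simp
  have h4 : ∫ y in Ioi (0 : ℝ), y ^ (2 - 1) • (Iio r).indicator (fun y => y ^ n) y =
      r ^ (n + 2) / (n + 2) := by
    have h5 : ∀ y : ℝ, y ^ (2 - 1) • (Iio r).indicator (fun y : ℝ => y ^ n) y =
        (Iio r).indicator (fun y : ℝ => y ^ (n + 1)) y := by
      intro y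
      by_cases hy : y ∈ Iio r
      · rw [indicator_of_mem hy, indicator_of_mem hy, smul_eq_mul]
        ring
      · rw [indicator_of_notMem hy, indicator_of_notMem hy, smul_zero]
    simp_rw [h5]
    rw [setIntegral_indicator measurableSet_Iio, Ioi_inter_Iio, ← integral_Ioc_eq_integral_Ioo,
      ← intervalIntegral.integral_of_le hr, integral_pow]
    rw [zero_pow (by omega), sub_zero]
    push_cast
    ring
  rw [h3, h4]
  simp only [nsmul_eq_mul, smul_eq_mul]
  push_cast
  ring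

/-- the area of the main component -/
theorem area_main {d : ℕ} (hd : 2 ≤ d) {s : ℝ} (hs : 0 < s) (hsd : s ^ (d - 1) = 1 / d) :
    volume ((fun w : ℂ => w - w ^ d) '' ball 0 s) =
      ENNReal.ofReal (Real.pi * s ^ 2 * (1 + 1 / d)) := by
  have hdR : (2 : ℝ) ≤ d := by exact_mod_cast hd
  have hd0 : (0 : ℝ) < d := by linarith
  have hder : ∀ w : ℂ, deriv (fun w : ℂ => w - w ^ d) w = 1 - d * w ^ (d - 1) := by
    intro w
    have h1 : HasDerivAt (fun w : ℂ => w - w ^ d) (1 - (d : ℂ) * w ^ (d - 1)) w :=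
      (hasDerivAt_id w).sub (hasDerivAt_pow d w)
    exact h1.deriv
  have hinj : InjOn (fun w : ℂ => w - w ^ d) (ball 0 s) := by
    intro a ha b hb hab
    rw [mem_ball_zero_iff] at ha hb
    simp only at hab
    have hg := Commute.geom_sum₂_mul (Commute.all a b) d
    have h1 : (a - b) * (1 - ∑ i ∈ Finset.range d, a ^ i * b ^ (d - 1 - i)) = 0 := by
      linear_combination hab - hg
    rcases mul_eq_zero.1 h1 with h2 | h2
    · exact sub_eq_zero.1 h2
    · exfalso
      have h3 : ∑ i ∈ Finset.range d, a ^ i * b ^ (d - 1 - i) = 1 := by linear_combination -h2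
      have h4 : ‖∑ i ∈ Finset.range d, a ^ i * b ^ (d - 1 - i)‖ < ∑ _i ∈ Finset.range d, 1 / (d : ℝ) := by
        obtain ⟨t, ht⟩ : ∃ t, t = max ‖a‖ ‖b‖ := ⟨_, rfl⟩
        have hts : t < s := by rw [ht]; exact max_lt ha hb
        have ht0 : 0 ≤ t := by rw [ht]; exact (norm_nonneg _).trans (le_max_left _ _)
        have h6 : t ^ (d - 1) < 1 / d := by
          rw [← hsd]
          exact pow_lt_pow_left₀ hts ht0 (by omega)
        refine (norm_sum_le _ _).trans_lt (Finset.sum_lt_sum_of_nonempty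
          (Finset.nonempty_range_iff.2 (by omega)) fun i hi => lt_of_le_of_lt ?_ h6)
        rw [Finset.mem_range] at hi
        rw [norm_mul, norm_pow, norm_pow]
        have e : d - 1 = i + (d - 1 - i) := by omega
        conv_rhs => rw [e, pow_add]
        have h7 : ‖a‖ ≤ t := by rw [ht]; exact le_max_left _ _
        have h8 : ‖b‖ ≤ t := by rw [ht]; exact le_max_right _ _
        gcongr
      rw [h3, norm_one, Finset.sum_const, Finset.card_range, nsmul_eq_mul,
        mul_one_div_cancel hd0.ne'] at h4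
      exact lt_irrefl _ h4
  rw [← Pool.Agent.Q79.PW.vol_image_eq (fun w : ℂ => w - w ^ d) univ (ball 0 s) isOpen_univ
    (by fun_prop) measurableSet_ball (subset_univ _) hinj]
  simp_rw [hder]
  have hc : Continuous fun w : ℂ => ‖1 - d * w ^ (d - 1)‖ ^ 2 := by fun_prop
  have hc' : Continuous fun w : ℂ => ‖1 + d * w ^ (d - 1)‖ ^ 2 := by fun_prop
  have hint : ∀ f : ℂ → ℝ, Continuous f → IntegrableOn f (ball (0 : ℂ) s) := by
    intro f hf
    exact (hf.continuousOn.integrableOn_compact (isCompact_closedBall (0 : ℂ) s)).mono_set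
      ball_subset_closedBall
  rw [← ofReal_integral_eq_lintegral_ofReal (hint _ hc) (ae_of_all _ fun w => by positivity)]
  congr 1
  -- the rotation
  obtain ⟨ω, hω⟩ : ∃ ω : Circle, ω = Circle.exp (Real.pi / (d - 1)) := ⟨_, rfl⟩
  have hωp : (ω : ℂ) ^ (d - 1) = -1 := by
    rw [hω, Circle.coe_exp, ← Complex.exp_nat_mul]
    have h1 : ((d - 1 : ℕ) : ℂ) * (((Real.pi / (d - 1) : ℝ) : ℂ) * Complex.I) =
        Real.pi * Complex.I := by
      have h2 : ((d : ℝ) - 1) ≠ 0 := by linarith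
      have h3 : ((d : ℂ) - 1) ≠ 0 := by exact_mod_cast h2
      rw [Nat.cast_sub (by omega), Nat.cast_one]
      push_cast
      field_simp
    rw [h1, Complex.exp_pi_mul_I]
  have h1 : ∫ w in ball (0 : ℂ) s, ‖1 + d * w ^ (d - 1)‖ ^ 2 =
      ∫ w in ball (0 : ℂ) s, ‖1 - d * w ^ (d - 1)‖ ^ 2 := by
    have hmp := (rotation ω).measurePreserving
    have h2 := hmp.integral_comp (rotation ω).toHomeomorph.measurableEmbedding
      ((ball (0 : ℂ) s).indicator fun w => ‖1 - d * w ^ (d - 1)‖ ^ 2)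
    rw [integral_indicator measurableSet_ball] at h2
    rw [← h2, ← integral_indicator measurableSet_ball]
    congr 1
    funext w
    have hn : ‖(rotation ω) w‖ = ‖w‖ := (rotation ω).norm_map w
    by_cases hw : ‖w‖ < s
    · rw [indicator_of_mem (show w ∈ ball (0 : ℂ) s by rwa [mem_ball_zero_iff]),
        indicator_of_mem (show (rotation ω) w ∈ ball (0 : ℂ) s by rwa [mem_ball_zero_iff, hn])]
      rw [rotation_apply, mul_pow, hωp]
      congr 2
      ring
    · rw [indicator_of_notMem (show w ∉ ball (0 : ℂ) s by rwa [mem_ball_zero_iff]),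
        indicator_of_notMem (show (rotation ω) w ∉ ball (0 : ℂ) s by rwa [mem_ball_zero_iff, hn])]
  have h2 : (∫ w in ball (0 : ℂ) s, ‖1 + d * w ^ (d - 1)‖ ^ 2) +
      ∫ w in ball (0 : ℂ) s, ‖1 - d * w ^ (d - 1)‖ ^ 2 =
      (∫ _ in ball (0 : ℂ) s, (2 : ℝ)) +
        ∫ w in ball (0 : ℂ) s, 2 * (d : ℝ) ^ 2 * ‖w‖ ^ (2 * (d - 1)) := by
    rw [← integral_add (hint _ hc') (hint _ hc),
      ← integral_add (hint _ (by fun_prop)) (hint _ (by fun_prop))]
    congr 1
    funext w
    have h3 := parallelogram_law_with_norm ℝ (1 : ℂ) (d * w ^ (d - 1))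
    rw [norm_one, norm_mul, Complex.norm_natCast, norm_pow] at h3
    have h4 : ‖w‖ ^ (2 * (d - 1)) = ‖w‖ ^ (d - 1) * ‖w‖ ^ (d - 1) := by ring
    rw [h4]
    nlinarith [h3]
  have h3 : ∫ _ in ball (0 : ℂ) s, (2 : ℝ) = 2 * Real.pi * s ^ 2 := by
    rw [setIntegral_const, measureReal_def, Complex.volume_ball, smul_eq_mul, ENNReal.toReal_mul,
      ENNReal.toReal_pow, ENNReal.toReal_ofReal hs.le]
    simp only [ENNReal.coe_toReal, NNReal.coe_real_pi]
    ring
  rw [h1, h3, integral_const_mul, int_pow' _ _ hs.le] at h2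
  have h5 : s ^ (2 * (d - 1) + 2) = (s ^ (d - 1)) ^ 2 * s ^ 2 := by ring
  rw [h5, hsd] at h2
  have h6 : ((2 * (d - 1) : ℕ) : ℝ) + 2 = 2 * d := by
    rw [Nat.cast_mul, Nat.cast_sub (by omega)]
    push_cast
    ring
  rw [h6] at h2
  have h7 : 2 * (d : ℝ) ^ 2 * (2 * Real.pi * ((1 / d) ^ 2 * s ^ 2) / (2 * d)) =
      2 * Real.pi * s ^ 2 / d := by
    field_simp
  rw [h7] at h2
  have h8 : Real.pi * s ^ 2 * (1 + 1 / d) = Real.pi * s ^ 2 + Real.pi * s ^ 2 / d := by ring
  rw [h8]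
  have h9 : 2 * Real.pi * s ^ 2 / d = 2 * (Real.pi * s ^ 2 / d) := by ring
  rw [h9] at h2
  linarith

/-- the parameters with an attracting fixed point -/
theorem main_HH {d : ℕ} (hd : 2 ≤ d) {s : ℝ} (hsd : s ^ (d - 1) = 1 / d) :
    (fun w : ℂ => w - w ^ d) '' ball 0 s ⊆ HH d := by
  rintro _ ⟨w, hw, rfl⟩
  rw [mem_ball_zero_iff] at hw
  have hd0 : (0 : ℝ) < d := by exact_mod_cast (by omega : 0 < d)
  refine ⟨1, w, one_pos, ?_, ?_, ?_⟩
  · change (w : ℂ) ^ d + (w - w ^ d) = w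
    ring
  · rw [Function.iterate_one]
    fun_prop
  · rw [Function.iterate_one]
    have h1 : HasDerivAt (fun z : ℂ => z ^ d + (w - w ^ d)) ((d : ℂ) * w ^ (d - 1)) w :=
      (hasDerivAt_pow d w).add_const _
    rw [h1.deriv, norm_mul, Complex.norm_natCast, norm_pow]
    have h2 : ‖w‖ ^ (d - 1) < 1 / d := by
      rw [← hsd]
      exact pow_lt_pow_left₀ hw (norm_nonneg _) (by omega)
    rw [lt_div_iff₀ hd0] at h2
    linarith

theorem num_ineq {d : ℕ} (hd : 3 ≤ d) :
    ((d : ℝ) ^ 2 - d + 2) ^ (d - 1) * d ^ 2 ≤ (2 * d * (d + 1)) ^ (d - 1) := by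
  rcases lt_or_ge d 7 with h | h
  · interval_cases d <;> norm_num
  · have hdR : (7 : ℝ) ≤ d := by exact_mod_cast h
    have h1 : ((d : ℝ)) ^ 2 ≤ 2 ^ (d - 1) := by
      have h2 : ∀ n : ℕ, 7 ≤ n → n ^ 2 ≤ 2 ^ (n - 1) := by
        intro n hn
        induction n, hn using Nat.le_induction with
        | base => norm_num
        | succ n hn ih =>
          obtain ⟨m, rfl⟩ : ∃ m, n = m + 1 := ⟨n - 1, by omega⟩
          simp only [Nat.add_sub_cancel] at ih ⊢
          have h3 : 2 ^ (m + 1) = 2 ^ m * 2 := pow_succ 2 m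
          rw [h3]
          nlinarith
      exact_mod_cast h2 d h
    have h2 : 0 ≤ (d : ℝ) ^ 2 - d + 2 := by nlinarith
    calc ((d : ℝ) ^ 2 - d + 2) ^ (d - 1) * d ^ 2
        ≤ ((d : ℝ) ^ 2 - d + 2) ^ (d - 1) * 2 ^ (d - 1) := by gcongr
      _ = (((d : ℝ) ^ 2 - d + 2) * 2) ^ (d - 1) := by rw [mul_pow]
      _ ≤ (2 * d * (d + 1)) ^ (d - 1) := by
        refine pow_le_pow_left₀ (by positivity) ?_ _
        nlinarith

/-- **At least half of the area of the Multibrot sets is hyperbolic.** -/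
theorem prop_multi {d : ℕ} (hd : 2 ≤ d) : (volume.real (multibrotSet d) - volume.real (HH d)) /
    volume.real (multibrotSet d) ≤ 1 / 2 := by
  rcases hd.eq_or_lt with rfl | h3
  · exact prop_mandel.trans (by norm_num)
  have hdR : (3 : ℝ) ≤ d := by exact_mod_cast h3
  have hd0 : (0 : ℝ) < d := by linarith
  have hpi := Real.pi_pos
  obtain ⟨s, hs⟩ : ∃ s : ℝ, s = (1 / (d : ℝ)) ^ (((d - 1 : ℕ) : ℝ)⁻¹) := ⟨_, rfl⟩
  have hs0 : 0 < s := by rw [hs]; exact Real.rpow_pos_of_pos (by positivity) _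
  have hsd : s ^ (d - 1) = 1 / d := by
    rw [hs]
    exact Real.rpow_inv_natCast_pow (by positivity) (by omega)
  have h1 := area_main hd hs0 hsd
  have h2 := measure_mono (μ := volume) (main_HH hd hsd)
  rw [h1] at h2
  have h4 := ENNReal.toReal_mono (ne_top_of_le_ne_top (multi_fin hd)
    (measure_mono (HH_sub hd))) h2
  rw [ENNReal.toReal_ofReal (by positivity)] at h4
  have h5 := area_multi hd
  have h6 := multi_pos hd
  -- the inequality
  have hq : ((d : ℝ) ^ 2 - d + 2) / (2 * d * (d + 1)) ≤ s ^ 2 := by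
    by_contra hcon
    rw [not_le] at hcon
    have h7 : (s ^ 2) ^ (d - 1) < (((d : ℝ) ^ 2 - d + 2) / (2 * d * (d + 1))) ^ (d - 1) :=
      pow_lt_pow_left₀ hcon (by positivity) (by omega)
    have h8 : (s ^ 2) ^ (d - 1) = (1 / d) ^ 2 := by
      rw [← hsd]; ring
    rw [h8, div_pow, div_pow, one_pow, div_lt_div_iff₀ (by positivity) (by positivity)] at h7
    have h9 := num_ineq h3
    linarith
  rw [div_le_iff₀ h6]
  have h7 : Real.pi * (1 - ((d : ℝ) - 2) / d ^ 2) / 2 ≤ Real.pi * s ^ 2 * (1 + 1 / d) := by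
    have h8 : ((d : ℝ) ^ 2 - d + 2) / (2 * d * (d + 1)) * (1 + 1 / d) =
        (1 - ((d : ℝ) - 2) / d ^ 2) / 2 := by
      field_simp
      ring
    calc Real.pi * (1 - ((d : ℝ) - 2) / d ^ 2) / 2 =
          Real.pi * (((d : ℝ) ^ 2 - d + 2) / (2 * d * (d + 1)) * (1 + 1 / d)) := by
          rw [h8]; ring
      _ ≤ Real.pi * (s ^ 2 * (1 + 1 / d)) := by gcongr
      _ = _ := by ring
  have h8 : Real.pi * s ^ 2 * (1 + 1 / d) ≤ volume.real (HH d) := h4
  linarith

end Pool.Agent.H206.Rem
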