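import Pool.Graph.R_pool_sql_team_seeded_63374d34.Results.MP_af9036_an.PerfectZones

set_option autoImplicit false

/-! # Perfect zones close to a Lyapunov parameter -/

namespace Pool.Agent.H206

open Complex Metric Set Filter Topology
open N62a1eb23
open Pool.Agent.Results.MP_af9036_an.PerfectZones

/-- a small copy is perfect up to `ε` -/
structure Perf (d : ℕ) (ε : ℝ) (n : ℕ) (c l m : ℂ) : Prop where
  n0 : 0 < n
  per : Function.minimalPeriod (f d c) 0 = n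
  sc : Scales d n c l m
  zone : ∃ S : ℝ, 1 / ε ≤ S ∧ Zone d n c l m S ε
  fine : ∃ τ : ℝ, 1 / ε ≤ τ ∧ Shape d n c l m τ ∧ Copies d n c l m τ ε ∧
    Renormalizable d n c l m τ ∧ Round d n c m τ

/-- the small copy in the parameter plane -/
def KK (d n : ℕ) (c l m : ℂ) : Set ℂ := {x | (x - c) / l ∈ copy d n c l m 3}

theorem copies_mono {d n : ℕ} {c l m : ℂ} {τ ε ε' : ℝ} (h : Copies d n c l m τ ε) (hε : ε ≤ ε') :
    Copies d n c l m τ ε' := by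
  obtain ⟨h1, h2, h3, h4⟩ := h
  exact ⟨h1, h2.trans (thickening_mono hε _), h3.trans (thickening_mono hε _),
    fun κ hκ => h4 κ ((ball_subset_ball hε).trans hκ)⟩

theorem zone_mono {d n : ℕ} {c l m : ℂ} {S δ δ' : ℝ} (h : Zone d n c l m S δ) (hδ : δ ≤ δ') :
    Zone d n c l m S δ' := by
  intro κ z hκ hz
  obtain ⟨h1, h2, h3⟩ := h κ z hκ hz
  exact ⟨h1.trans (by gcongr), h2.trans (by gcongr), h3⟩

theorem ev_rpow {s e : ℝ} (hs : 0 < s) (he : 0 < e) : ∀ᶠ R : ℝ in 𝓝[>] 0, R ^ s ≤ e := by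
  have h1 : Tendsto (fun R : ℝ => R ^ s) (𝓝[>] 0) (𝓝 0) := by
    have h2 : ContinuousAt (fun x : ℝ => x ^ s) 0 := Real.continuousAt_rpow_const 0 s (Or.inr hs.le)
    have h3 := h2.tendsto
    rw [Real.zero_rpow hs.ne'] at h3
    exact h3.mono_left nhdsWithin_le_nhds
  exact h1.eventually (ge_mem_nhds he)

theorem ev_log {s e : ℝ} (hs : 0 < s) : ∀ᶠ R : ℝ in 𝓝[>] 0, e ≤ s * Real.log (1 / R) := by
  have h1 : Tendsto (fun R : ℝ => s * Real.log (1 / R)) (𝓝[>] 0) atTop := by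
    have h2 : Tendsto (fun R : ℝ => -Real.log R) (𝓝[>] 0) atTop :=
      tendsto_neg_atBot_atTop.comp Real.tendsto_log_nhdsGT_zero
    have h3 := h2.const_mul_atTop hs
    refine h3.congr fun R => ?_
    rw [one_div, Real.log_inv]
  exact h1.eventually (eventually_ge_atTop e)

/-- **Perfect zones close to a Lyapunov parameter.** -/
theorem zone_at {d : ℕ} (hd : 2 ≤ d) {χ : ℝ} {b : ℂ} (hb : HasLyapunov d χ b) {η s ρ : ℝ}
    (hη : 0 < η) (hs : 0 < s) (hρ : 0 < ρ) :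
    ∃ R t : ℝ, 0 < R ∧ R ≤ ρ ∧ 0 < t ∧ t ≤ s ∧ ∀ c' ∈ Rest d, ‖c' - b‖ ≤ R / 2 →
      ∃ (V : Set ℂ) (n : ℕ) (c l m : ℂ), IsPreconnected V ∧ c' ∈ V ∧ V ⊆ ball b R ∧
        V ⊆ entering d b R t ∧ Perf d η n c l m ∧
        (∀ x ∈ V, ∀ z : ℂ, ‖z‖ ≤ 3 * ‖m‖ → ‖(f d x)^[n] z‖ ≤ 2 * t) ∧ 3 * ‖m‖ ≤ t ∧
        KK d n c l m ⊆ V := by
  have hdR : (2 : ℝ) ≤ d := by exact_mod_cast hd
  have hd1 : (0 : ℝ) < (d : ℝ) - 1 := by linarith
  obtain ⟨ε, hε⟩ : ∃ ε, ε = min η (1 / (2 * ((d : ℝ) - 1))) := ⟨_, rfl⟩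
  have hε0 : 0 < ε := by rw [hε]; positivity
  have hεη : ε ≤ η := by rw [hε]; exact min_le_left _ _
  have hεd : ε ≤ 1 / (2 * ((d : ℝ) - 1)) := by rw [hε]; exact min_le_right _ _
  have hhalf : 1 / (2 * ((d : ℝ) - 1)) = 1 / ((d : ℝ) - 1) / 2 := by field_simp
  have hposd : 0 < 1 / ((d : ℝ) - 1) := by positivity
  obtain ⟨τ, α, R₀, hτ1, hτ2, hα, hR₀, H⟩ := near hd hb ε hε0
  have hτ0 : 0 < τ := by linarith
  have hE : (d : ℝ) / (d - 1) = 1 + 1 / (d - 1) := by field_simp; ring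
  obtain ⟨g, hg⟩ : ∃ g : ℝ, g = (d : ℝ) / (d - 1) - ε - 1 := ⟨_, rfl⟩
  have hg0 : 0 < g := by rw [hg, hE]; linarith
  obtain ⟨θ, hθ⟩ : ∃ θ : ℝ, θ = min η (1 / (12 * 3 ^ d)) := ⟨_, rfl⟩
  have hθ0 : 0 < θ := by rw [hθ]; positivity
  have hev : ∀ᶠ R : ℝ in 𝓝[>] 0, R ^ τ ≤ s ∧ R ^ α ≤ θ ∧ R ^ g ≤ 1 / 8 ∧
      1 / η ≤ α * Real.log (1 / R) ∧ R ≤ R₀ ∧ R ≤ ρ ∧ 0 < R := by
    filter_upwards [ev_rpow hτ0 hs, ev_rpow hα hθ0, ev_rpow hg0 (by norm_num : (0 : ℝ) < 1 / 8),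
      ev_log (e := 1 / η) hα, Ioo_mem_nhdsGT hR₀, Ioo_mem_nhdsGT hρ] with R h1 h2 h3 h4 h5 h6
    exact ⟨h1, h2, h3, h4, h5.2.le, h6.2.le, h5.1⟩
  obtain ⟨R, hR1, hR2, hR3, hR4, hR5, hR6, hR⟩ := hev.exists
  have ht : 0 < R ^ τ := Real.rpow_pos_of_pos hR _
  have hα0 : 0 < R ^ α := Real.rpow_pos_of_pos hR _
  have hαη : R ^ α ≤ η := hR2.trans (by rw [hθ]; exact min_le_left _ _)
  have hα3 : R ^ α ≤ 1 / (12 * 3 ^ d) := hR2.trans (by rw [hθ]; exact min_le_right _ _)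
  have h3d : (9 : ℝ) ≤ 3 ^ d := by
    calc (9 : ℝ) = 3 ^ 2 := by norm_num
      _ ≤ 3 ^ d := pow_le_pow_right₀ (by norm_num) hd
  have hα3' : 12 * 3 ^ d * R ^ α ≤ 1 := by
    rw [le_div_iff₀ (by positivity)] at hα3
    linarith
  have hα4 : R ^ α ≤ 1 / 100 := by
    have e1 : 12 * 9 * R ^ α ≤ 12 * 3 ^ d * R ^ α := by gcongr
    linarith
  have hαinv : R ^ (-α) * R ^ α = 1 := by
    rw [← Real.rpow_add hR, neg_add_cancel, Real.rpow_zero]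
  refine ⟨R, R ^ τ, hR, hR6, ht, hR1, fun c' hc' hcb => ?_⟩
  obtain ⟨-, H2, H3⟩ := H R hR hR5
  obtain ⟨hcW, -⟩ := H3 {c'} (by simpa using hc') isPreconnected_singleton c' rfl hcb
  obtain ⟨n, c, l, m, S, hn0, hfar, hent, hper, hcc, hsc, hSm, hSR, hlS, hV1, hV2, hZ, hSh, hCo, hRe,
    hRo⟩ := H2 c' hcW
  have hl0 : l ≠ 0 := hsc.1
  have hm0 : m ≠ 0 := hsc.2.1
  have hln : 0 < ‖l‖ := norm_pos_iff.2 hl0
  have hmn : 0 < ‖m‖ := norm_pos_iff.2 hm0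
  have hS12 : 12 * 3 ^ d ≤ S := by
    refine le_trans ?_ hSR
    have h1 : 0 < R ^ (-α) := Real.rpow_pos_of_pos hR _
    calc (12 : ℝ) * 3 ^ d = (12 * 3 ^ d * R ^ α) * R ^ (-α) := by
          rw [mul_assoc, mul_comm (R ^ α), hαinv, mul_one]
      _ ≤ 1 * R ^ (-α) := by gcongr
      _ = R ^ (-α) := one_mul _
  have hS0 : 0 < S := lt_of_lt_of_le (by positivity) hS12
  have hm1 : ‖m‖ * (12 * 3 ^ d) ≤ 3 * R ^ τ := by
    rw [← hSm, mul_comm S]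
    gcongr
  have hm36 : 36 * ‖m‖ ≤ R ^ τ := by
    have e1 : ‖m‖ * (12 * 9) ≤ ‖m‖ * (12 * 3 ^ d) := by gcongr
    linarith
  have hlS8 : ‖l‖ * S ≤ R / 8 := by
    refine hlS.trans ?_
    have h1 : R ^ ((d : ℝ) / (d - 1) - ε) = R ^ g * R := by
      conv_rhs => rw [← Real.rpow_one R, ← Real.rpow_mul hR.le, one_mul]
      rw [← Real.rpow_add hR, hg]
      congr 1
      ring
    rw [h1]
    calc R ^ g * R ≤ 1 / 8 * R := by gcongr
      _ = R / 8 := by ring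
  have hVW : connectedComponentIn (entering d b R (R ^ τ)) c' ⊆ entering d b R (R ^ τ) :=
    connectedComponentIn_subset _ _
  have hc'V : c' ∈ connectedComponentIn (entering d b R (R ^ τ)) c' := mem_connectedComponentIn hcW
  refine ⟨connectedComponentIn (entering d b R (R ^ τ)) c', n, c, l, m,
    isPreconnected_connectedComponentIn, hc'V, ?_, hVW, ⟨hn0, hper, hsc, ⟨S, ?_, zone_mono hZ hαη⟩,
      ⟨α * Real.log (1 / R), hR4, hSh, copies_mono hCo hεη, hRe, hRo⟩⟩, ?_, by linarith, ?_⟩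
  · intro x hx
    rw [mem_ball, dist_eq_norm]
    exact (hVW hx).1
  · refine le_trans ?_ hSR
    rw [div_le_iff₀ hη, ← hαinv]
    gcongr
  · intro x hx z hz
    obtain ⟨κ, hκ⟩ : ∃ κ, κ = (x - c) / l := ⟨_, rfl⟩
    obtain ⟨z₁, hz₁⟩ : ∃ z₁, z₁ = z / m := ⟨_, rfl⟩
    have hx' : c + l * κ = x := by rw [hκ]; field_simp; ring
    have hz' : m * z₁ = z := by rw [hz₁]; field_simp
    have h1 := hV1 hx
    rw [mem_closedBall, dist_eq_norm] at h1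
    have hκn : ‖κ‖ ≤ (1 + R ^ α) * (S / 3) := by
      rw [hκ, norm_div, div_le_iff₀ hln]
      linarith
    have hκS : ‖κ‖ ≤ S := by
      have e1 : (1 + R ^ α) * (S / 3) ≤ (1 + 1 / 100) * (S / 3) := by gcongr
      linarith
    have hzn : ‖z₁‖ ≤ 3 := by
      rw [hz₁, norm_div, div_le_iff₀ hmn]
      exact hz
    have hzd : ‖z₁‖ ^ d ≤ 3 ^ d := by gcongr
    obtain ⟨g1, -, -⟩ := hZ κ z₁ hκS (by linarith)
    have h2 : ‖ren d n c l m κ z₁‖ ≤ (1 + R ^ α) * (‖κ‖ + ‖z₁‖ ^ d) := by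
      have e1 := norm_add_le (ren d n c l m κ z₁ - (z₁ ^ d + κ)) (z₁ ^ d + κ)
      rw [sub_add_cancel] at e1
      have e2 := norm_add_le (z₁ ^ d) κ
      rw [norm_pow] at e2
      linarith
    have h3 : (f d x)^[n] z = ren d n c l m κ z₁ * m := by
      unfold ren
      rw [hx', hz', div_mul_cancel₀ _ hm0]
    rw [h3, norm_mul]
    have h4 : ‖m‖ * S = 3 * R ^ τ := by linarith
    calc ‖ren d n c l m κ z₁‖ * ‖m‖ ≤ ((1 + R ^ α) * ((1 + R ^ α) * (S / 3) + 3 ^ d)) * ‖m‖ := by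
          gcongr
          refine h2.trans ?_
          gcongr
      _ = (1 + R ^ α) * ((1 + R ^ α) * R ^ τ + ‖m‖ * 3 ^ d) := by
          linear_combination (1 + R ^ α) * (1 + R ^ α) / 3 * h4
      _ ≤ (1 + 1 / 100) * ((1 + 1 / 100) * R ^ τ + R ^ τ / 4) := by
          gcongr
          linarith
      _ ≤ 2 * R ^ τ := by linarith
  · rintro x ⟨hx1, hx2⟩
    have h1 : ‖x - c‖ ≤ 3 ^ d * ‖l‖ := by
      rw [norm_div, div_le_iff₀ hln] at hx1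
      exact hx1
    have h2 := hV1 hc'V
    rw [mem_closedBall, dist_eq_norm] at h2
    have h3 : 3 ^ d * ‖l‖ ≤ ‖l‖ * S / 12 := by
      have e1 : ‖l‖ * (12 * 3 ^ d) ≤ ‖l‖ * S := by gcongr
      linarith
    have hlS0 : 0 ≤ ‖l‖ * S := by positivity
    apply hV2
    constructor
    · rw [mem_closedBall, dist_eq_norm]
      have e1 : (1 - 1 / 100) * (‖l‖ * S / 3) ≤ (1 - R ^ α) * (‖l‖ * S / 3) := by gcongr
      linarith
    · rw [mem_ball, dist_eq_norm]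
      have h4 : ‖x - b‖ ≤ ‖x - c‖ + ‖c' - c‖ + ‖c' - b‖ := by
        have e1 : x - b = (x - c) - (c' - c) + (c' - b) := by ring
        rw [e1]
        exact (norm_add_le _ _).trans (add_le_add (norm_sub_le _ _) le_rfl)
      have e1 : (1 + R ^ α) * (‖l‖ * S / 3) ≤ (1 + 1 / 100) * (‖l‖ * S / 3) := by gcongr
      linarith

end Pool.Agent.H206
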