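import Pool.Agent.H206.TipD
import Pool.Agent.H206.Pre
import Pool.Agent.H206.ZoneAt

set_option autoImplicit false

/-! # The next level of a tower of perfect small copies -/

namespace Pool.Agent.H206

open Complex Metric Set Filter Topology
open N62a1eb23
open Pool.Agent.Results.MP_af9036_an.PerfectZones

theorem ren_iter {d n : ℕ} {c l m κ : ℂ} (hm : m ≠ 0) (j : ℕ) (z : ℂ) :
    (ren d n c l m κ)^[j] z = (f d (c + l * κ))^[n * j] (m * z) / m := by
  induction j with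
  | zero => simp [mul_div_cancel_left₀ _ hm]
  | succ j ih =>
    rw [Function.iterate_succ_apply', ih]
    unfold ren
    rw [mul_div_cancel₀ _ hm, ← Function.iterate_add_apply]
    congr 2
    ring

theorem diff_it2 (d : ℕ) (c l m : ℂ) (n : ℕ) :
    Differentiable ℂ (fun p : ℂ × ℂ => (f d (c + l * p.1))^[n] (m * p.2)) := by
  induction n with
  | zero =>
    have : (fun p : ℂ × ℂ => (f d (c + l * p.1))^[0] (m * p.2)) = fun p => m * p.2 := rfl
    rw [this]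
    fun_prop
  | succ n ih =>
    have : (fun p : ℂ × ℂ => (f d (c + l * p.1))^[n + 1] (m * p.2)) =
        fun p => ((f d (c + l * p.1))^[n] (m * p.2)) ^ d + (c + l * p.1) := by
      funext p
      rw [Function.iterate_succ_apply']
      rfl
    rw [this]
    exact (ih.pow d).add (by fun_prop)

theorem cont_x (d k : ℕ) (z : ℂ) : Continuous (fun x : ℂ => (f d x)^[k] z) := by
  induction k with
  | zero => exact continuous_const
  | succ k ih =>
    have : (fun x : ℂ => (f d x)^[k + 1] z) = fun x => ((f d x)^[k] z) ^ d + x := by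
      funext x
      rw [Function.iterate_succ_apply']
      rfl
    rw [this]
    exact (ih.pow d).add continuous_id

theorem cont_z (d k : ℕ) (x : ℂ) : Continuous (fun z : ℂ => (f d x)^[k] z) := by
  have : Continuous (f d x) := by
    unfold f
    fun_prop
  exact this.iterate k

/-- the difference to the model -/
noncomputable def er (d n : ℕ) (c l m κ z : ℂ) : ℂ := ren d n c l m κ z - (z ^ d + κ)

theorem HH_er (d n : ℕ) (c l m κ : ℂ) : HH d (er d n c l m) κ = ren d n c l m κ := by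
  funext z
  unfold HH er
  ring

theorem pert_of_zone {d n : ℕ} (hd : 2 ≤ d) {a c l m : ℂ} (ha : a ^ (d - 1) = om d - 1) {S δ : ℝ}
    (hδ0 : 0 ≤ δ) (hS : 3 + 4 ^ d ≤ S) (hZ : Zone d n c l m S δ)
    (hδ : δ * (3 + 4 ^ d) ≤ ‖a‖ ^ d / 40) :
    Pert d a (er d n c l m) (δ * (3 + 4 ^ d)) := by
  refine ⟨?_, fun κ z hκ hz => ?_, hδ⟩
  · unfold er ren
    have h1 := (diff_it2 d c l m n).mul_const m⁻¹
    simp_rw [div_eq_mul_inv]
    exact h1.sub (by fun_prop)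
  · have h1 : ‖κ‖ ≤ 3 := by
      have e1 := norm_add_le (κ - a) a
      rw [sub_add_cancel] at e1
      have e2 := norm_a_le hd ha
      linarith
    have h2 : ‖z‖ ^ d ≤ 4 ^ d := by gcongr
    have h3 : (0 : ℝ) < 4 ^ d := by positivity
    obtain ⟨g1, -, -⟩ := hZ κ z (by linarith) (by linarith)
    unfold er
    refine g1.trans ?_
    gcongr

/-- a connectedness argument -/
theorem clopen {X : Type*} [TopologicalSpace X] {V : Set X} (hV : IsPreconnected V)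
    {g : ℕ → X → ℝ} {j : ℕ} {M : ℝ} (hg : ∀ q ≤ j, Continuous (g q))
    (h : ∀ x ∈ V, (∀ q ≤ j, g q x ≤ M) → ∀ q ≤ j, g q x < M) {x₀ : X} (hx₀ : x₀ ∈ V)
    (h0 : ∀ q ≤ j, g q x₀ ≤ M) : ∀ x ∈ V, ∀ q ≤ j, g q x ≤ M := by
  intro x hx
  by_contra hcon
  push Not at hcon
  obtain ⟨q, hq, hqM⟩ := hcon
  have hU1 : IsOpen {x | ∀ q ≤ j, g q x < M} := by
    have : {x | ∀ q ≤ j, g q x < M} = ⋂ q ∈ Finset.range (j + 1), {x | g q x < M} := by
      ext x
      simp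
    rw [this]
    apply isOpen_biInter_finset
    intro q hq
    exact isOpen_lt (hg q (by have := Finset.mem_range.1 hq; omega)) continuous_const
  have hU2 : IsOpen {x | ∃ q ≤ j, M < g q x} := by
    have : {x | ∃ q ≤ j, M < g q x} = ⋃ q ∈ {q | q ≤ j}, {x | M < g q x} := by
      ext x
      simp
    rw [this]
    exact isOpen_biUnion fun q hq => isOpen_lt continuous_const (hg q hq)
  obtain ⟨y, hyV, hy1, hy2⟩ := hV _ _ hU1 hU2 (fun y hy => by
    by_cases hy2 : ∃ q ≤ j, M < g q y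
    · exact Or.inr hy2
    · push Not at hy2
      exact Or.inl (h y hy hy2)) ⟨x₀, hx₀, h x₀ hx₀ h0⟩ ⟨x, hx, q, hq, hqM⟩
  obtain ⟨q', hq', hy3⟩ := hy2
  have := hy1 q' hq'
  linarith

theorem step {d : ℕ} (hd : 2 ≤ d) {a : ℂ} (ha : a ^ (d - 1) = om d - 1) {r : ℝ} (hr : 0 < r) :
    ∃ ε₁ : ℝ, 0 < ε₁ ∧ ∀ (n : ℕ) (c l m : ℂ), Perf d ε₁ n c l m →
      ∃ (χ : ℝ) (b : ℂ), HasLyapunov d χ b ∧ ∀ η ρ : ℝ, 0 < η → 0 < ρ →
        ∃ (n₁ : ℕ) (c₁ l₁ m₁ : ℂ), Perf d η n₁ c₁ l₁ m₁ ∧ n ∣ n₁ ∧ n < n₁ ∧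
          KK d n₁ c₁ l₁ m₁ ⊆ KK d n c l m ∧ KK d n₁ c₁ l₁ m₁ ⊆ ball b ρ ∧
          b ∉ KK d n₁ c₁ l₁ m₁ ∧ ∀ x ∈ KK d n₁ c₁ l₁ m₁, ‖(x - c) / l - a‖ ≤ r := by
  have ha0 := a_ne hd ha
  have han : 0 < ‖a‖ := norm_pos_iff.2 ha0
  have ha2 := norm_a_le hd ha
  have ha4 := norm_apow_le hd ha
  have had : ‖a‖ ^ d / 40 ≤ ‖a‖ / 20 := by
    have h1 : ‖a‖ ^ d = ‖a‖ * ‖om d - 1‖ := by rw [← norm_pow, a_pow hd ha, norm_mul]
    have h2 := norm_om_sub_le (d := d)
    rw [h1]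
    nlinarith
  obtain ⟨δ₀, hδ₀, hδ₀a, T⟩ := tip hd ha (half_pos hr)
  have h4d : (0 : ℝ) < 3 + 4 ^ d := by positivity
  obtain ⟨ε₁, hε₁⟩ : ∃ ε₁, ε₁ = min (δ₀ / (3 + 4 ^ d)) (1 / (3 + 4 ^ d)) := ⟨_, rfl⟩
  have hε₁0 : 0 < ε₁ := by rw [hε₁]; positivity
  have he1 : ε₁ * (3 + 4 ^ d) ≤ δ₀ := by
    rw [← le_div_iff₀ h4d, hε₁]
    exact min_le_left _ _
  have he2 : 3 + 4 ^ d ≤ 1 / ε₁ := by
    rw [le_div_iff₀ hε₁0, mul_comm, ← le_div_iff₀ h4d, hε₁]
    exact min_le_right _ _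
  refine ⟨ε₁, hε₁0, fun n c l m hP => ?_⟩
  obtain ⟨hn0, hper, hsc, ⟨S, hS, hZ⟩, -⟩ := hP
  have hl0 : l ≠ 0 := hsc.1
  have hm0 : m ≠ 0 := hsc.2.1
  have hln : 0 < ‖l‖ := norm_pos_iff.2 hl0
  have hmn : 0 < ‖m‖ := norm_pos_iff.2 hm0
  have hS4 : 3 + 4 ^ d ≤ S := he2.trans hS
  have hPert := pert_of_zone hd ha hε₁0.le hS4 hZ (he1.trans hδ₀a)
  obtain ⟨κb, b₀, hκb1, hκb2, hb₀, hfix, htwo, hmul, hnear⟩ := T _ _ hPert he1
  have herr : ∀ κ z : ℂ, ‖κ - a‖ ≤ 1 → ‖z‖ ≤ 4 → ‖er d n c l m κ z‖ ≤ ‖a‖ ^ d / 40 :=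
    fun κ z hκ hz => (hPert.small κ z hκ hz).trans (he1.trans hδ₀a)
  rw [HH_er] at hfix htwo hmul
  obtain ⟨b, hb⟩ : ∃ b, b = c + l * κb := ⟨_, rfl⟩
  -- the preperiodic critical orbit
  have hpp : (f d b)^[n] (m * b₀) = m * b₀ := by
    have h1 : (f d b)^[n] (m * b₀) / m = b₀ := by rw [hb]; exact hfix
    rw [div_eq_iff hm0] at h1
    rw [h1, mul_comm]
  have hp2 : (f d b)^[2 * n - 1] b = m * b₀ := by
    have h1 : (ren d n c l m κb)^[2] 0 = b₀ := htwo
    rw [ren_iter hm0, mul_zero, ← hb, div_eq_iff hm0] at h1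
    have h2 : (f d b)^[2 * n - 1 + 1] 0 = (f d b)^[2 * n - 1] b := by
      rw [Function.iterate_succ_apply]
      have : f d b 0 = b := by
        unfold f
        rw [zero_pow (by omega), zero_add]
      rw [this]
    rw [← h2, show 2 * n - 1 + 1 = n * 2 by omega, h1, mul_comm]
  have hlam : 3 / 2 ≤ ‖deriv ((f d b)^[n]) (m * b₀)‖ := by
    rw [hb, ← deriv_ren hm0]
    exact hmul
  have hlam' : 1 < ‖deriv ((Pool.Agent.TH279.MD.f d b)^[n]) (m * b₀)‖ :=
    lt_of_lt_of_le (by norm_num) hlam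
  have hLy := lyap_preper hd hn0 hp2 hpp hlam'
  obtain ⟨s₀, hs₀, hfar⟩ := preper_far hd hn0 hp2 hpp hlam'
  refine ⟨_, b, hLy, fun η ρ hη hρ => ?_⟩
  -- the next zone
  obtain ⟨R, t, hR, hRρ, ht, hts, H⟩ := zone_at hd (χ := _) (b := b) hLy hη
    (s := min (min s₀ (‖m‖ / 4)) (‖m‖ * ‖a‖ / 8))
    (ρ := min ρ (‖l‖ * min (r / 2) (min (1 / 10) (‖a‖ / 20)))) (by positivity) (by positivity)
  have ht1 : t ≤ s₀ := hts.trans ((min_le_left _ _).trans (min_le_left _ _))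
  have ht2 : t ≤ ‖m‖ / 4 := hts.trans ((min_le_left _ _).trans (min_le_right _ _))
  have ht3 : t ≤ ‖m‖ * ‖a‖ / 8 := hts.trans (min_le_right _ _)
  have hR1 : R ≤ ρ := hRρ.trans (min_le_left _ _)
  have hRl : R ≤ ‖l‖ * min (r / 2) (min (1 / 10) (‖a‖ / 20)) := hRρ.trans (min_le_right _ _)
  have hR2 : R ≤ ‖l‖ * (r / 2) := hRl.trans (by gcongr; exact min_le_left _ _)
  have hR3 : R ≤ ‖l‖ * (1 / 10) :=
    hRl.trans (by gcongr; exact (min_le_right _ _).trans (min_le_left _ _))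
  have hR4 : R ≤ ‖l‖ * (‖a‖ / 20) :=
    hRl.trans (by gcongr; exact (min_le_right _ _).trans (min_le_right _ _))
  have hκR : ∀ x : ℂ, ‖x - b‖ ≤ R → ‖(x - c) / l - κb‖ * ‖l‖ ≤ R := by
    intro x hx
    have h1 : (x - c) / l - κb = (x - b) / l := by
      rw [hb]
      field_simp
      ring
    rw [h1, norm_div, div_mul_cancel₀ _ hln.ne']
    exact hx
  have hκa : ∀ x : ℂ, ‖x - b‖ ≤ R → ‖(x - c) / l - a‖ ≤ 1 / 5 ∧ ‖(x - c) / l‖ ≤ 11 / 5 ∧
      ‖(x - c) / l - a‖ ≤ ‖a‖ / 10 ∧ ‖(x - c) / l - a‖ ≤ r := by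
    intro x hx
    have h1 := hκR x hx
    have h2 : ‖(x - c) / l - κb‖ ≤ 1 / 10 := le_of_mul_le_mul_right (by linarith) hln
    have h3 : ‖(x - c) / l - κb‖ ≤ ‖a‖ / 20 := le_of_mul_le_mul_right (by linarith) hln
    have h4 : ‖(x - c) / l - κb‖ ≤ r / 2 := le_of_mul_le_mul_right (by linarith) hln
    have h5 : ‖(x - c) / l - a‖ ≤ ‖(x - c) / l - κb‖ + ‖κb - a‖ := by
      have e : (x - c) / l - a = ((x - c) / l - κb) + (κb - a) := by ring
      rw [e]
      exact norm_add_le _ _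
    have h6 := norm_add_le ((x - c) / l - a) a
    rw [sub_add_cancel] at h6
    exact ⟨by linarith, by linarith, by linarith, by linarith⟩
  -- points on the circle are mapped outside
  have hjump : ∀ x : ℂ, ‖x - b‖ ≤ R → ∀ w : ℂ, ‖w‖ = 3 * ‖m‖ → 3 * ‖m‖ < ‖(f d x)^[n] w‖ := by
    intro x hx w hw
    obtain ⟨h1, h2, -, -⟩ := hκa x hx
    obtain ⟨κ, hκ⟩ : ∃ κ, κ = (x - c) / l := ⟨_, rfl⟩
    obtain ⟨z, hz⟩ : ∃ z, z = w / m := ⟨_, rfl⟩
    rw [← hκ] at h1 h2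
    have hx' : c + l * κ = x := by rw [hκ]; field_simp; ring
    have hw' : m * z = w := by rw [hz]; field_simp
    have hzn : ‖z‖ = 3 := by
      rw [hz, norm_div, hw]
      field_simp
    have h3 := herr κ z (by linarith) (by linarith)
    have h4 : (f d x)^[n] w = ren d n c l m κ z * m := by
      unfold ren
      rw [hx', hw', div_mul_cancel₀ _ hm0]
    rw [h4, norm_mul]
    have h5 : 3 < ‖ren d n c l m κ z‖ := by
      have e1 : ren d n c l m κ z = z ^ d - (-κ - er d n c l m κ z) := by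
        unfold er
        ring
      have e2 := norm_sub_norm_le (z ^ d) (-κ - er d n c l m κ z)
      rw [← e1, norm_pow, hzn] at e2
      have e3 := norm_sub_le (-κ) (er d n c l m κ z)
      rw [norm_neg] at e3
      have e4 : (9 : ℝ) ≤ 3 ^ d := by
        calc (9 : ℝ) = 3 ^ 2 := by norm_num
          _ ≤ 3 ^ d := pow_le_pow_right₀ (by norm_num) hd
      linarith
    gcongr
  -- a superattracting parameter
  obtain ⟨κ', hκ', i, hi, hzero, hbd⟩ := hnear (R / (2 * ‖l‖)) (by positivity)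
  rw [HH_er] at hzero hbd
  obtain ⟨c', hc'⟩ : ∃ c', c' = c + l * κ' := ⟨_, rfl⟩
  have hc'κ : (c' - c) / l = κ' := by
    rw [hc']
    field_simp
    ring
  have hc'b : ‖c' - b‖ ≤ R / 2 := by
    have h1 : c' - b = l * (κ' - κb) := by rw [hc', hb]; ring
    rw [h1, norm_mul]
    rw [lt_div_iff₀ (by positivity)] at hκ'
    linarith
  have hall : ∀ q, ‖(ren d n c l m κ')^[q] 0‖ ≤ 3 := by
    intro q
    have h1 : ∀ j, (ren d n c l m κ')^[i * j] 0 = 0 := by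
      intro j
      induction j with
      | zero => simp
      | succ j ih => rw [Nat.mul_succ, Function.iterate_add_apply, hzero, ih]
    have h2 := Nat.mod_add_div q i
    rw [← h2, Function.iterate_add_apply, h1]
    exact hbd _ (Nat.mod_lt _ hi).le
  have horb : ∀ q, ‖(f d c')^[n * q] 0‖ ≤ 3 * ‖m‖ := by
    intro q
    have h1 := hall q
    rw [ren_iter hm0, mul_zero, ← hc', norm_div, div_le_iff₀ hmn] at h1
    exact h1
  have hcen : (f d c')^[n * i] 0 = 0 := by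
    have h1 := hzero
    rw [ren_iter hm0, mul_zero, ← hc', div_eq_iff hm0, zero_mul] at h1
    exact h1
  have hRest : c' ∈ Rest d := by
    have h1 : c' ∈ interior (multibrotSet d) := Pool.Agent.R240.Alm.att_interior hd
      ⟨n * i, 0, Pool.Agent.H548R3.MB.att_of_centre hd (Nat.mul_pos hn0 hi) hcen⟩
    exact ⟨interior_subset h1, Or.inl h1⟩
  obtain ⟨V, n₁, c₁, l₁, m₁, hVpre, hc'V, hVb, hVW, hPerf, hV2, hm1, hKV⟩ := H c' hRest hc'b
  have hVn : ∀ x ∈ V, ‖x - b‖ ≤ R := fun x hx => by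
    have := hVb hx
    rw [mem_ball, dist_eq_norm] at this
    exact this.le
  have hm₁0 : 0 < ‖m₁‖ := norm_pos_iff.2 hPerf.sc.2.1
  have hV0 : ∀ x ∈ V, ‖(f d x)^[n₁] 0‖ ≤ 2 * t := fun x hx => hV2 x hx 0 (by simp)
  -- the period is a multiple of `n`
  obtain ⟨hκ'a, hκ'n, hκ'a', -⟩ := hκa c' (by linarith)
  rw [hc'κ] at hκ'a hκ'n hκ'a'
  have hdvd : n ∣ n₁ := by
    by_contra hcon
    have h1 : 0 < n₁ % n := Nat.pos_of_ne_zero fun h => hcon (Nat.dvd_of_mod_eq_zero h)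
    have h2 : n₁ % n < n := Nat.mod_lt _ hn0
    have h3 := hall (n₁ / n)
    have h5 : ‖(ren d n c l m κ')^[n₁ / n] 0‖ ^ d ≤ 3 ^ d := by gcongr
    have h6 : (3 : ℝ) ^ d ≤ 4 ^ d := by gcongr; norm_num
    have h7 : (4 : ℝ) ^ 2 ≤ 4 ^ d := pow_le_pow_right₀ (by norm_num) hd
    obtain ⟨-, -, g3⟩ := hZ κ' ((ren d n c l m κ')^[n₁ / n] 0) (by linarith) (by linarith)
    have g4 := g3 (n₁ % n) h1 h2
    rw [ren_iter hm0, mul_zero, ← hc', mul_div_cancel₀ _ hm0, ← Function.iterate_add_apply,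
      Nat.mod_add_div] at g4
    have g5 := hV0 c' hc'V
    have h8 : 12 * ‖m‖ ≤ S * ‖m‖ := by
      gcongr
      linarith
    linarith
  obtain ⟨j₁, hj₁⟩ := hdvd
  have hj₁0 : j₁ ≠ 0 := by
    rintro rfl
    rw [mul_zero] at hj₁
    exact hPerf.n0.ne' hj₁
  have hj₁1 : j₁ ≠ 1 := by
    rintro rfl
    rw [mul_one] at hj₁
    have h1 := hV0 c' hc'V
    rw [hj₁] at h1
    have h2 : (f d c')^[n] 0 = ren d n c l m κ' 0 * m := by
      unfold ren
      rw [mul_zero, ← hc', div_mul_cancel₀ _ hm0]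
    rw [h2, norm_mul] at h1
    have h3 : ‖a‖ / 2 ≤ ‖ren d n c l m κ' 0‖ := by
      have e1 : ren d n c l m κ' 0 = a - ((a - κ') - er d n c l m κ' 0) := by
        unfold er
        rw [zero_pow (by omega)]
        ring
      have e2 := norm_sub_norm_le a ((a - κ') - er d n c l m κ' 0)
      rw [← e1] at e2
      have e3 := norm_sub_le (a - κ') (er d n c l m κ' 0)
      rw [norm_sub_rev a κ'] at e3
      have e4 := herr κ' 0 (by linarith) (by simp)
      linarith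
    have h4 : ‖a‖ / 2 * ‖m‖ ≤ 2 * (‖m‖ * ‖a‖ / 8) := by
      calc ‖a‖ / 2 * ‖m‖ ≤ ‖ren d n c l m κ' 0‖ * ‖m‖ := by gcongr
        _ ≤ 2 * t := h1
        _ ≤ _ := by gcongr
    have h5 : 0 < ‖a‖ * ‖m‖ := by positivity
    nlinarith
  -- the orbits in the zone
  have hstay : ∀ x ∈ V, ∀ q ≤ j₁, ‖(f d x)^[n * q] 0‖ ≤ 3 * ‖m‖ := by
    apply clopen hVpre (g := fun q x => ‖(f d x)^[n * q] 0‖) (fun q _ => (cont_x d _ _).norm) ?_
      hc'V (fun q _ => horb q)
    intro x hx hle q hq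
    refine lt_of_le_of_ne (hle q hq) fun heq => ?_
    rcases hq.lt_or_eq with h | h
    · have h1 := hle (q + 1) h
      have h2 := hjump x (hVn x hx) _ heq
      rw [← Function.iterate_add_apply, show n + n * q = n * (q + 1) by ring] at h2
      linarith
    · rw [h, ← hj₁] at heq
      have := hV0 x hx
      linarith
  have hstay2 : ∀ x ∈ V, ∀ z : ℂ, ‖z‖ ≤ 3 * ‖m₁‖ → ∀ q ≤ j₁, ‖(f d x)^[n * q] z‖ ≤ 3 * ‖m‖ := by
    intro x hx
    have h1 := clopen (convex_closedBall (0 : ℂ) (3 * ‖m₁‖)).isPreconnected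
      (g := fun q z => ‖(f d x)^[n * q] z‖) (j := j₁) (M := 3 * ‖m‖)
      (fun q _ => (cont_z d _ _).norm) (by
        intro z hz hle q hq
        rw [mem_closedBall_zero_iff] at hz
        refine lt_of_le_of_ne (hle q hq) fun heq => ?_
        rcases hq.lt_or_eq with h | h
        · have h1 := hle (q + 1) h
          have h2 := hjump x (hVn x hx) _ heq
          rw [← Function.iterate_add_apply, show n + n * q = n * (q + 1) by ring] at h2
          linarith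
        · rw [h, ← hj₁] at heq
          have := hV2 x hx z hz
          linarith) (mem_closedBall_self (by positivity)) (fun q hq => hstay x hx q hq)
    intro z hz
    exact h1 z (by rwa [mem_closedBall_zero_iff])
  refine ⟨n₁, c₁, l₁, m₁, hPerf, ⟨j₁, hj₁⟩, ?_, ?_, ?_, ?_, ?_⟩
  · rw [hj₁]
    have : n * 2 ≤ n * j₁ := Nat.mul_le_mul_left n (by omega)
    omega
  · -- the small copy is in the previous one
    intro x hx
    have hxV := hKV hx
    obtain ⟨hx1, hx2⟩ := hx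
    have hl₁0 : l₁ ≠ 0 := hPerf.sc.1
    have hx' : c₁ + l₁ * ((x - c₁) / l₁) = x := by
      field_simp
      ring
    have hx'' : c + l * ((x - c) / l) = x := by
      field_simp
      ring
    rw [hx'] at hx2
    refine ⟨?_, fun T => ?_⟩
    · have h1 := (hκa x (hVn x hxV)).2.1
      have e4 : (9 : ℝ) ≤ 3 ^ d := by
        calc (9 : ℝ) = 3 ^ 2 := by norm_num
          _ ≤ 3 ^ d := pow_le_pow_right₀ (by norm_num) hd
      linarith
    · rw [hx'']
      have h1 := Nat.mod_add_div T j₁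
      have h2 : n * T = n * (T % j₁) + n₁ * (T / j₁) := by
        conv_lhs => rw [← h1]
        rw [hj₁]
        ring
      rw [h2, Function.iterate_add_apply]
      exact hstay2 x hxV _ (hx2 (T / j₁)) _ (Nat.mod_lt _ (by omega)).le
  · intro x hx
    have h1 := hVb (hKV hx)
    exact ball_subset_ball hR1 h1
  · intro hbK
    obtain ⟨-, j, hj, hj2⟩ := hVW (hKV hbK)
    have := hfar j hj
    have h3 : ‖(f d b)^[j] 0‖ < s₀ := lt_of_lt_of_le hj2 ht1
    exact absurd this (not_le.2 h3)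
  · intro x hx
    exact (hκa x (hVn x (hKV hx))).2.2.2

end Pool.Agent.H206
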