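import Pool.Graph.R_seed8.Y298.CA.All
import Pool.Graph.R_seed8.Y674.CA.Lya

set_option autoImplicit false

/-! # Slow curves at a parameter with a Lyapunov exponent -/

namespace Pool.Agent.H206.Thin

open Filter Topology Set Metric MeasureTheory
open Pool.Agent.TH279.MD Pool.Agent.Y298.SH.CD Pool.Agent.Y298.CA

theorem Cv_mono {c₁ : ℂ} {r κ r' κ' : ℝ} {u : ℂ} {T : ℝ} {γ : ℂ → ℂ} (h : Cv c₁ r κ u T γ)
    (hr : r ≤ r') (hκ : κ ≤ κ') : Cv c₁ r' κ' u T γ :=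
  ⟨h.hol, fun w hw => (h.near w hw).trans hr, fun w hw => (h.slow w hw).trans hκ⟩

theorem SS_mono {d : ℕ} {c₁ : ℂ} {r κ r' κ' : ℝ} (hr : r ≤ r') (hκ : κ ≤ κ') :
    SS d c₁ r κ ≤ SS d c₁ r' κ' := by
  unfold SS
  refine iSup_mono fun u => iSup_mono fun T => iSup_mono fun γ => ?_
  refine iSup_le fun h => ?_
  exact le_iSup (fun _ : 0 < T ∧ T ≤ 1 ∧ Cv c₁ r' κ' u T γ => volume (BB d γ ∩ ball u (T / 2)))
    ⟨h.1, h.2.1, Cv_mono h.2.2 hr hκ⟩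

/-- the areas for slow curves near a parameter with a Lyapunov exponent -/
theorem SS_small {d : ℕ} (hd : 2 ≤ d) {χ : ℝ} {c₀ : ℂ} (h : Lyap d χ c₀) :
    ∃ C α s₀ K : ℝ, 0 < C ∧ 0 < α ∧ 0 < s₀ ∧ s₀ ≤ 1 ∧ 0 < K ∧ ∀ s : ℝ, 0 < s → s ≤ s₀ →
      SS d c₀ (s / 2) (K * s) ≤ ENNReal.ofReal (C * s ^ α) := by
  obtain ⟨⟨C₁, lam, hCE⟩, -⟩ := Pool.Agent.Y674.CA.lya d χ c₀ hd h
  have hdR : (2 : ℝ) ≤ d := by exact_mod_cast hd
  have hl := hCE.lam1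
  have hl0 : 0 < lam := by linarith
  have hC1 := hCE.C1
  have hloglam : 0 < Real.log lam := Real.log_pos hl
  have hlog2 : 0 < Real.log 2 := Real.log_pos (by norm_num)
  set ω : ℝ := min (1 / (3 * d)) (Real.log 2 / Real.log lam) with hω
  have hω0 : 0 < ω := lt_min (by positivity) (by positivity)
  have hω1 : ω ≤ 1 / (3 * d) := min_le_left _ _
  have hω2 : ω ≤ Real.log 2 / Real.log lam := min_le_right _ _
  set θ : ℝ := lam ^ ω with hθ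
  have hθ1 : 1 < θ := Real.one_lt_rpow hl hω0
  have hθ2 : θ ≤ 2 := by
    rw [hθ, Real.rpow_def_of_pos hl0]
    rw [le_div_iff₀ hloglam] at hω2
    calc Real.exp (Real.log lam * ω) ≤ Real.exp (Real.log 2) := Real.exp_le_exp.mpr (by linarith)
      _ = 2 := Real.exp_log (by norm_num)
  have hθd : θ ^ (3 * d) ≤ lam := by
    rw [hθ, ← Real.rpow_natCast, ← Real.rpow_mul hl0.le]
    have h1 : ω * ((3 * d : ℕ) : ℝ) ≤ 1 := by
      push_cast
      rw [le_div_iff₀ (by positivity)] at hω1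
      exact hω1
    calc lam ^ (ω * ((3 * d : ℕ) : ℝ)) ≤ lam ^ (1 : ℝ) :=
          Real.rpow_le_rpow_of_exponent_le hl.le h1
      _ = lam := Real.rpow_one lam
  obtain ⟨B, Ca, e, Cs, W, ε, K₁, R₀, Y, K⟩ := k0_exists jc.br jc.nh jc.pa jc.bi hd C₁ lam θ hC1 hl
    hθ1 hθ2 hθd
  set m : ℝ := (((d - 1 : ℕ) : ℝ))⁻¹ with hm
  have hm0 : 0 < m := by
    rw [hm]
    have : (0 : ℝ) < ((d - 1 : ℕ) : ℝ) := by exact_mod_cast (by omega : 0 < d - 1)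
    positivity
  obtain ⟨C, e₀, s₀, hC, he₀, hs₀, hs₀1, H⟩ := main_local jc.jb K hCE one_pos hm
  have hW0 : 0 < W := by linarith [K.ft.W1]
  have he0 := K.ft.e0
  refine ⟨C * W ^ (2 * m), 2 * m * e, s₀, 1 / (4 * d), by positivity, by positivity, hs₀, hs₀1,
    by positivity, fun s hs hss => ?_⟩
  obtain ⟨k, hk1, hk2, hk3, hk4, hk5, hk6⟩ := K.ft.base c₀ hCE s hs (hss.trans hs₀1)
  have h1 := H c₀ hCE (by simpa using he₀.le) s hs hss k hk1 hk4 hk5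
  have hP := hCE.Pd_pos k
  have h2 : 1 / (4 * d) * s ≤ 1 / Pd d c₀ k := by
    rw [le_div_iff₀ hP]
    calc 1 / (4 * d) * s * Pd d c₀ k = (s * Pd d c₀ k) / (4 * d) := by ring
      _ ≤ 1 := by rw [div_le_one (by positivity)]; exact hk4
  refine (SS_mono le_rfl h2).trans ?_
  rw [← ofReal_sS]
  apply ENNReal.ofReal_le_ofReal
  refine h1.trans ?_
  have h3 : 1 / Pd d c₀ k ≤ W * s ^ e := by
    rw [div_le_iff₀ hP]
    exact hk5
  calc C * (1 / Pd d c₀ k) ^ (2 * m) ≤ C * (W * s ^ e) ^ (2 * m) := by gcongr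
    _ = C * W ^ (2 * m) * s ^ (2 * m * e) := by
        rw [Real.mul_rpow hW0.le (by positivity), ← Real.rpow_mul hs.le]
        ring_nf

end Pool.Agent.H206.Thin
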