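import Pool.Agent.H206.ThinB
import Pool.Agent.H206.HairG

set_option autoImplicit false

/-! # The area of the Multibrot set near a parameter which escapes slowly -/

namespace Pool.Agent.H206.Thin

open Filter Topology Set Metric MeasureTheory
open Pool.Agent.TH279.MD Pool.Agent.Y298.SH.CD Pool.Agent.Y298.CA Pool.Agent.N772.ST
open Pool.Agent.H712R2 (P fc P_zero P_succ mem_multibrot_iff P_one)
open Pool.Agent.H206.Hair

/-- **The area near a good point.** -/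
theorem good_ball {d : ℕ} (hd : 2 ≤ d) {c₀ : ℂ} {C₂ : ℝ} (hC₂ : 1 ≤ C₂)
    (hP : ∀ j, 0 < Pd d c₀ j) (hz : ∀ j, zz d c₀ j ≠ 0) (hz2 : ∀ j, ‖zz d c₀ j‖ ≤ 2)
    (hW : ∀ N : ℕ, ∑ j ∈ Finset.range (N + 1), ‖Wp d c₀ N j‖ ≤ C₂ * Pd d c₀ N)
    {χ : ℝ} (hχ : 0 < χ) {b : ℝ} (hb1 : 128 * d * C₂ * b ≤ χ)
    (hb2 : 16 * C₂ * b ≤ 1) {j : ℕ} {a : ℝ} (ha : a = Pd d c₀ j / ‖zz d c₀ j‖)
    (hj : ∑ i ∈ Finset.range j, Pd d c₀ i / ‖zz d c₀ i‖ ≤ (2 / χ) * a) {M : ℕ} {k : ℂ → ℂ}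
    {X : ℂ} {ρ T r κ₀ κ Γ E μ : ℝ} (hρ : 0 < ρ) (hT : 0 < T) (hTa : T * a ≤ b)
    (hk : DifferentiableOn ℂ k (ball X ρ)) (hkn : ∀ x ∈ ball X ρ, ‖k x - c₀‖ ≤ r) (hrT : r ≤ T)
    (hu : ∀ x ∈ ball X ρ, ‖P d M (k x)‖ ^ d ≤ T) (hk' : ∀ x ∈ ball X ρ, ‖deriv k x‖ ≤ κ₀)
    (huX : T ≤ Γ * ‖P d M (k X)‖ ^ d) (hΓ : 0 < Γ) (hE : 0 < E)
    (hEE : E * ‖P d M (k X)‖ ≤ ‖deriv (fun x => P d M (k x)) X‖)
    (hs : 4 * C₂ * κ₀ * Γ ≤ E * T) (hμ0 : 0 < μ) (hμ1 : μ ≤ 1 / 8)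
    (hμ2 : 256 * C₂ * Γ * μ ≤ E * ρ) (hκ : 2 * κ₀ * Γ ≤ κ * (Pd d c₀ j * E * T)) :
    volume ({x | k x ∈ N62a1eb23.multibrotSet d} ∩ closedBall X (μ * ρ / 16)) ≤
      ENNReal.ofReal (2 * Γ ^ 2 / (Pd d c₀ j * E * T) ^ 2) * SS d c₀ r κ := by
  have hdR : (2 : ℝ) ≤ d := by exact_mod_cast hd
  have hPj := hP j
  have hzj : 0 < ‖zz d c₀ j‖ := norm_pos_iff.2 (hz j)
  have ha0 : 0 < a := by rw [ha]; positivity
  have haz : a * ‖zz d c₀ j‖ = Pd d c₀ j := by rw [ha]; field_simp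
  have hb0 : 0 < b := lt_of_lt_of_le (by positivity) hTa
  have hpas : 64 * d * C₂ * (T * ∑ i ∈ Finset.range j, Pd d c₀ i / ‖zz d c₀ i‖) ≤ 1 := by
    calc 64 * d * C₂ * (T * ∑ i ∈ Finset.range j, Pd d c₀ i / ‖zz d c₀ i‖)
        ≤ 64 * d * C₂ * (T * ((2 / χ) * a)) := by gcongr
      _ = 128 * d * C₂ * (T * a) / χ := by ring
      _ ≤ 128 * d * C₂ * b / χ := by gcongr
      _ ≤ 1 := by
          rw [div_le_one hχ]
          exact hb1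
  obtain ⟨p1, p2⟩ := passage hd hC₂ hP hz hW hT hpas
  have hX : X ∈ ball X ρ := mem_ball_self hρ
  have hkdX : DifferentiableAt ℂ k X := hk.differentiableAt (isOpen_ball.mem_nhds hX)
  have hPD := Pool.Agent.H713R2.differentiable_P d
  obtain ⟨u, hu'⟩ : ∃ u : ℂ → ℂ, u = fun x => P d M (k x) ^ d := ⟨_, rfl⟩
  obtain ⟨F, hF⟩ : ∃ F : ℂ → ℂ, F = fun x => P d (M + j + 1) (k x) := ⟨_, rfl⟩
  have hFz : ∀ x, F x = zo d (k x) (u x) j := by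
    intro x
    rw [hF, hu']
    simp only
    rw [← P_zo, add_right_comm]
  have hun : ∀ x ∈ ball X ρ, ‖u x‖ ≤ T := by
    intro x hx
    rw [hu']
    simp only
    rw [norm_pow]
    exact hu x hx
  have hGX : DifferentiableAt ℂ (fun x => P d M (k x)) X := (hPD M (k X)).comp X hkdX
  have hud : DifferentiableAt ℂ u X := by rw [hu']; exact hGX.pow d
  have hFd : DifferentiableAt ℂ F X := by rw [hF]; exact (hPD _ (k X)).comp X hkdX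
  have hFdo : DifferentiableOn ℂ F (ball X ρ) := by
    rw [hF]
    exact (hPD _).comp_differentiableOn hk
  have hlow := deriv_low (F := F) (u := u) (k := k) (X := X) (a := 3 / 4 * Pd d c₀ j)
    (b := 2 * C₂ * Pd d c₀ j) hρ hFd hud hkdX (fun x hx => by
      have h2 := p2 (k x) (u x) (k X) (u X) ((hkn x hx).trans hrT) (hun x hx)
        ((hkn X hX).trans hrT) (hun X hX)
      rw [hFz, hFz]
      exact h2)
  have hud' : deriv u X = d * P d M (k X) ^ (d - 1) * deriv (fun x => P d M (k x)) X := by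
    rw [hu']
    exact hGX.hasDerivAt.pow d |>.deriv
  have hunX : 2 * E * (T / Γ) ≤ ‖deriv u X‖ := by
    rw [hud', norm_mul, norm_mul, norm_pow, Complex.norm_natCast]
    have h1 : T / Γ ≤ ‖P d M (k X)‖ ^ (d - 1) * ‖P d M (k X)‖ := by
      rw [← pow_succ, Nat.sub_add_cancel (by omega), div_le_iff₀ hΓ]
      linarith
    calc 2 * E * (T / Γ) ≤ 2 * E * (‖P d M (k X)‖ ^ (d - 1) * ‖P d M (k X)‖) := by gcongr
      _ = 2 * ‖P d M (k X)‖ ^ (d - 1) * (E * ‖P d M (k X)‖) := by ring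
      _ ≤ d * ‖P d M (k X)‖ ^ (d - 1) * ‖deriv (fun x => P d M (k x)) X‖ := by gcongr
  obtain ⟨D, hD⟩ : ∃ D, D = deriv F X := ⟨_, rfl⟩
  have hDn : Pd d c₀ j * E * T / Γ ≤ ‖D‖ := by
    rw [hD]
    refine le_trans ?_ hlow
    have h1 : 3 / 4 * Pd d c₀ j * (2 * E * (T / Γ)) ≤ 3 / 4 * Pd d c₀ j * ‖deriv u X‖ := by
      gcongr
    have h2 : 3 / 4 * Pd d c₀ j * (2 * E * (T / Γ)) = 3 / 2 * (Pd d c₀ j * E * T / Γ) := by ring
    have h3 : 2 * C₂ * Pd d c₀ j * ‖deriv k X‖ ≤ 1 / 2 * (Pd d c₀ j * E * T / Γ) := by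
      calc 2 * C₂ * Pd d c₀ j * ‖deriv k X‖ ≤ 2 * C₂ * Pd d c₀ j * κ₀ := by
            gcongr
            exact hk' X hX
        _ = 1 / 2 * (Pd d c₀ j * (4 * C₂ * κ₀ * Γ) / Γ) := by field_simp; ring
        _ ≤ 1 / 2 * (Pd d c₀ j * (E * T) / Γ) := by gcongr
        _ = _ := by ring
    linarith
  have hq0 : 0 < Pd d c₀ j * E * T / Γ := by positivity
  have hD0 : 0 < ‖D‖ := hq0.trans_le hDn
  -- the variation
  obtain ⟨R, hR⟩ : ∃ R, R = 4 * C₂ * T * Pd d c₀ j := ⟨_, rfl⟩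
  have hR0 : 0 < R := by rw [hR]; positivity
  obtain ⟨c1, c2⟩ := cauchy_loc (w := zz d c₀ j) hR0 hρ hFdo (fun v hv => by
    rw [hFz, hR]
    exact p1 (k v) (u v) ((hkn v hv).trans hrT) (hun v hv))
  rw [← hD] at c1 c2
  have hμρ : μ * ρ ≤ ρ / 8 := by
    have : μ * ρ ≤ 1 / 8 * ρ := by gcongr
    linarith
  have hsub : ball X (μ * ρ) ⊆ ball X ρ := ball_subset_ball (by linarith)
  refine (trG (N := M + j + 1) (G := F) (κ := κ) hd (by positivity) (hk.mono hsub)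
    (fun x => by rw [hF]) (fun x hx => hkn x (hsub hx)) (fun x hx => hk' x (hsub hx)) ?_
    (norm_pos_iff.1 hD0) ?_ ?_).trans ?_
  · have h1 : κ * (Pd d c₀ j * E * T / Γ) ≤ κ * ‖D‖ := by
      have hκ0 : 0 ≤ κ := by
        by_contra hcon
        push Not at hcon
        have h2 : κ * (Pd d c₀ j * E * T) < 0 := mul_neg_of_neg_of_pos hcon (by positivity)
        have h3 : 0 ≤ κ₀ := (norm_nonneg _).trans (hk' X hX)
        have h4 : 0 ≤ 2 * κ₀ * Γ := by positivity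
        linarith
      gcongr
    have h2 : 2 * κ₀ ≤ κ * (Pd d c₀ j * E * T / Γ) := by
      rw [← mul_div_assoc, le_div_iff₀ hΓ]
      exact hκ
    have h3 : 0 ≤ κ₀ := (norm_nonneg _).trans (hk' X hX)
    linarith
  · calc ‖D‖ * (μ * ρ) ≤ 2 * R / ρ * (μ * ρ) := by gcongr
      _ = 8 * C₂ * μ * (T * a) * ‖zz d c₀ j‖ := by rw [hR, ← haz]; field_simp; ring
      _ ≤ 8 * C₂ * μ * b * 2 := by
          gcongr
          exact hz2 j
      _ = (16 * C₂ * b) * μ := by ring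
      _ ≤ 1 * 5 := by
          gcongr
          linarith
      _ = 5 := by norm_num
  · intro w' hw'
    rw [mem_ball, dist_eq_norm] at hw'
    refine (c2 w' (by linarith)).trans ?_
    calc 16 * R / ρ ^ 2 * ‖w' - X‖ ≤ 16 * R / ρ ^ 2 * (μ * ρ) := by gcongr
      _ = 1 / 4 * (Pd d c₀ j * (256 * C₂ * Γ * μ) * T / (Γ * ρ)) := by
          rw [hR]; field_simp; ring
      _ ≤ 1 / 4 * (Pd d c₀ j * (E * ρ) * T / (Γ * ρ)) := by gcongr
      _ = 1 / 4 * (Pd d c₀ j * E * T / Γ) := by field_simp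
      _ ≤ 1 / 4 * ‖D‖ := by gcongr
  · gcongr ?_ * _
    apply ENNReal.ofReal_le_ofReal
    calc 2 / ‖D‖ ^ 2 ≤ 2 / (Pd d c₀ j * E * T / Γ) ^ 2 := by gcongr
      _ = _ := by field_simp

end Pool.Agent.H206.Thin
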