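import Pool.Agent.H206.ThinC

set_option autoImplicit false

/-! # The area of the Multibrot set near the points outside of a perfect copy: good points -/

namespace Pool.Agent.H206.Thin

open Filter Topology Set Metric MeasureTheory
open Pool.Agent.TH279.MD Pool.Agent.Y298.SH.CD Pool.Agent.Y298.CA Pool.Agent.N772.ST
open Pool.Agent.H712R2 (P fc P_zero P_succ mem_multibrot_iff P_one)
open Pool.Agent.H713R2 (IsBeta differentiable_P)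
open Pool.Agent.H206.Hair
open Pool.Agent.N772.PC (Un)
open Pool.Agent.N253.MS (ev_lin)

/-- the escaping orbit on a ball -/
theorem at_ball {d : ℕ} (hd : 2 ≤ d) {β : ℂ → ℂ} {ρ₁ ρ₂ p₀ A : ℝ} (hρ₁ : 0 < ρ₁) (hρ₂ : ρ₂ < 1)
    (hp₀ : 0 < p₀) (hA : 1 ≤ A) (HP : ∀ x : ℂ, x ≠ 0 → ‖x‖ ≤ ρ₂ → ∀ j : ℕ,
      p₀ * (‖x‖⁻¹) ^ (d ^ j) ≤ ‖P d (j + 1) (x⁻¹ * β x)‖ ∧
      ‖P d (j + 1) (x⁻¹ * β x)‖ ≤ 2 * (‖x‖⁻¹) ^ (d ^ j))
    (Hesc : ∀ (n : ℕ) (c l m : ℂ) (τ : ℝ), m ≠ 0 → Un d n c l m τ →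
      ∀ x : ℂ, ρ₁ ≤ ‖x‖ → ‖x‖ ≤ ρ₂ → ∀ J : ℕ, A ^ (J + 1) * (‖x‖⁻¹) ^ (d ^ J) ≤ Real.exp τ →
        ‖P d (n * (J + 1)) (c + l * (x⁻¹ * β x)) / m - P d (J + 1) (x⁻¹ * β x)‖ ≤
          1 / 2 * ‖P d (J + 1) (x⁻¹ * β x)‖)
    {n : ℕ} {c l m : ℂ} {τ : ℝ} (hm : m ≠ 0) (hU : Un d n c l m τ) {J : ℕ} {X : ℂ} {s r₁ η : ℝ}
    (hr₁ : 0 < r₁) (hX : ‖X‖ = Real.exp (-s))
    (hb : ∀ x ∈ ball X r₁, ρ₁ ≤ ‖x‖ ∧ ‖x‖ ≤ ρ₂ ∧ DifferentiableAt ℂ (fun x => x⁻¹ * β x) x)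
    (hr₁3 : r₁ ≤ ρ₁ * (1 - Real.exp (-η))) (hη : Real.exp (-η) < 1)
    (hcond : ((J : ℝ) + 1) * Real.log A + d ^ J * (s + η) ≤ τ) :
    (∀ x ∈ ball X r₁, p₀ / 2 * (‖x‖⁻¹) ^ (d ^ J) ≤
        ‖P d (n * (J + 1)) (c + l * (x⁻¹ * β x)) / m‖ ∧
      ‖P d (n * (J + 1)) (c + l * (x⁻¹ * β x)) / m‖ ≤ 3 * (‖x‖⁻¹) ^ (d ^ J)) ∧
      ((d : ℝ) ^ J - 2 / r₁ * Real.log (8 / p₀)) *
          ‖P d (n * (J + 1)) (c + l * (X⁻¹ * β X)) / m‖ ≤
        ‖deriv (fun x => P d (n * (J + 1)) (c + l * (x⁻¹ * β x)) / m) X‖ := by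
  have hZdiff : ∀ x ∈ ball X r₁, DifferentiableAt ℂ
      (fun x => P d (n * (J + 1)) (c + l * (x⁻¹ * β x)) / m) x := by
    intro x hx
    have h1 : DifferentiableAt ℂ (fun x => c + l * (x⁻¹ * β x)) x :=
      ((hb x hx).2.2.const_mul l).const_add c
    exact ((differentiable_P d (n * (J + 1)) _).comp x h1).div_const m
  have hXρ : ρ₁ ≤ Real.exp (-s) := by
    rw [← hX]
    exact (hb _ (mem_ball_self hr₁)).1
  have hld := logder (d := d) hd (β := β) hρ₁ hρ₂ hp₀ HP (J := J)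
    (Z := fun x => P d (n * (J + 1)) (c + l * (x⁻¹ * β x)) / m) (X := X) (r := r₁)
    hr₁ (fun x hx => ⟨(hb x hx).1, (hb x hx).2.1⟩)
    (fun x hx => (hZdiff x hx).differentiableWithinAt) (by
      intro x hx
      refine Hesc n c l m _ hm hU x (hb x hx).1 (hb x hx).2.1 J ?_
      have hxn : Real.exp (-(s + η)) ≤ ‖x‖ := by
        rw [mem_ball, dist_eq_norm] at hx
        have h4 := norm_sub_norm_le X x
        rw [norm_sub_rev, hX] at h4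
        have h5 : Real.exp (-(s + η)) = Real.exp (-s) * Real.exp (-η) := by
          rw [← Real.exp_add]; congr 1; ring
        have h6 : ρ₁ * (1 - Real.exp (-η)) ≤ Real.exp (-s) * (1 - Real.exp (-η)) := by
          apply mul_le_mul_of_nonneg_right hXρ
          linarith
        rw [h5]
        linarith
      have hxi : ‖x‖⁻¹ ≤ Real.exp (s + η) := by
        rw [← neg_neg (s + η), Real.exp_neg (-(s + η))]
        exact inv_anti₀ (Real.exp_pos _) hxn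
      have hxi0 : 0 ≤ ‖x‖⁻¹ := by positivity
      calc A ^ (J + 1) * (‖x‖⁻¹) ^ (d ^ J) ≤ A ^ (J + 1) * (Real.exp (s + η)) ^ (d ^ J) := by
            gcongr
        _ = Real.exp ((J + 1) * Real.log A) * Real.exp (d ^ J * (s + η)) := by
            rw [← Real.exp_nat_mul (s + η)]
            congr 1
            · rw [← Real.exp_log (show 0 < A ^ (J + 1) by positivity), Real.log_pow]
              push_cast
              rfl
            · congr 1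
              push_cast
              ring
        _ ≤ _ := by
            rw [← Real.exp_add]
            exact Real.exp_le_exp.2 hcond)
  exact hld

/-- on a ball of radius of order `1 / d ^ J` the escaping orbit is almost constant in size -/
theorem pow_near {D : ℕ} (hD : 1 ≤ D) {X x : ℂ} {ρ₁ : ℝ} (hρ₁ : 0 < ρ₁) (hX : ρ₁ ≤ ‖X‖)
    (hx : ‖x - X‖ ≤ ρ₁ / 2 / D) : (‖x‖⁻¹) ^ D ≤ 2 * (‖X‖⁻¹) ^ D := by
  have hDR : (1 : ℝ) ≤ D := by exact_mod_cast hD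
  have hD0 : (0 : ℝ) < D := by linarith
  have hX0 : 0 < ‖X‖ := hρ₁.trans_le hX
  have h1 : ‖X‖ * (1 - 1 / (2 * D)) ≤ ‖x‖ := by
    have h2 := norm_sub_norm_le X x
    rw [norm_sub_rev] at h2
    have h3 : ρ₁ / 2 / D ≤ ‖X‖ * (1 / (2 * D)) := by
      rw [div_div, mul_one_div]
      gcongr
    linarith
  have h4 : (1 : ℝ) / (2 * D) ≤ 1 / 2 := by
    rw [div_le_div_iff₀ (by positivity) (by norm_num)]
    linarith
  have h5 : 0 < 1 - 1 / (2 * (D : ℝ)) := by linarith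
  have h6 : (1 : ℝ) / 2 ≤ (1 - 1 / (2 * D)) ^ D := by
    have h7 := one_add_mul_le_pow (a := -(1 / (2 * (D : ℝ)))) (by linarith) D
    have h8 : (1 : ℝ) + D * (-(1 / (2 * D))) = 1 / 2 := by field_simp; norm_num
    rw [h8] at h7
    rw [sub_eq_add_neg]
    exact h7
  have h9 : ‖X‖ ^ D * (1 / 2) ≤ ‖x‖ ^ D := by
    calc ‖X‖ ^ D * (1 / 2) ≤ ‖X‖ ^ D * (1 - 1 / (2 * D)) ^ D := by gcongr
      _ = (‖X‖ * (1 - 1 / (2 * D))) ^ D := by rw [mul_pow]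
      _ ≤ ‖x‖ ^ D := by gcongr
  have hx0 : 0 < ‖x‖ ^ D := lt_of_lt_of_le (by positivity) h9
  rw [inv_pow, inv_pow, ← div_eq_mul_inv, inv_eq_one_div, div_le_div_iff₀ hx0 (by positivity)]
  linarith

/-- the choice of the time -/
theorem choose_time {χ δ σ b cT₁ cT₂ LT n : ℝ} (hσ : σ ≤ δ / 4) (hn : 0 < n)
    (hT₁ : cT₁ + (-χ + 3 / 2 * δ) * n ≤ LT) (hT₂ : LT ≤ cT₂ - 3 / 2 * δ * n)
    (h1 : cT₂ - Real.log b < δ * n) (h2 : Real.log b - cT₁ < δ * n) (hδ : 0 < δ) :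
    σ * n ≤ Real.log b - LT - σ * n ∧ Real.log b - LT ≤ χ * n := by
  have h3 : σ * n ≤ δ / 4 * n := by gcongr
  have h4 : 0 < δ * n := by positivity
  constructor <;> linarith

end Pool.Agent.H206.Thin
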