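import Pool.Agent.H206.ThinD

set_option autoImplicit false

/-! # The area of the Multibrot set near the good points outside of a perfect copy -/

namespace Pool.Agent.H206.Thin

open Filter Topology Set Metric MeasureTheory
open Pool.Agent.TH279.MD Pool.Agent.Y298.SH.CD Pool.Agent.Y298.CA Pool.Agent.N772.ST
open Pool.Agent.H712R2 (P fc P_zero P_succ mem_multibrot_iff P_one)
open Pool.Agent.H713R2 (IsBeta differentiable_P)
open Pool.Agent.H206.Hair
open Pool.Agent.N772.PC (Un)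
open Pool.Agent.N253.MS (ev_lin)

/-- bounds for the logarithm of the size -/
theorem LT_bounds {d Y χ δ n lm LZ Ds p₀ Γ T : ℝ} (hd : 2 ≤ d) (hYχ : Y * (d - 1) = χ)
    (hδ : 0 < δ) (hn : 0 < n) (hT : Real.log T = Real.log Γ + d * (lm + LZ))
    (h1 : -((Y + δ / 4) * n) ≤ lm) (h2 : lm ≤ -((Y - δ / 4) * n))
    (h3 : Real.log (p₀ / 2) + Ds ≤ LZ) (h4 : LZ ≤ Real.log 3 + Ds) (h5 : (Y / d + δ) * n ≤ Ds)
    (h6 : Ds ≤ (Y - δ) * n) :
    (Real.log Γ + d * Real.log (p₀ / 2)) + (-χ + 3 / 2 * δ) * n ≤ Real.log T ∧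
      Real.log T ≤ (Real.log Γ + d * Real.log 3) - 3 / 2 * δ * n := by
  have hd0 : 0 < d := by linarith
  have h7 : 3 / 4 * 2 * δ * n ≤ 3 / 4 * d * δ * n := by gcongr
  constructor
  · have h8 : Real.log (p₀ / 2) + (Y / d + δ) * n - (Y + δ / 4) * n ≤ lm + LZ := by linarith
    have h9 : d * (Real.log (p₀ / 2) + (Y / d + δ) * n - (Y + δ / 4) * n) ≤ d * (lm + LZ) := by
      gcongr
    have h10 : d * (Real.log (p₀ / 2) + (Y / d + δ) * n - (Y + δ / 4) * n) =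
        d * Real.log (p₀ / 2) - (Y * (d - 1)) * n + 3 / 4 * d * δ * n := by
      field_simp
      ring
    rw [hYχ] at h10
    rw [hT]
    linarith
  · have h8 : lm + LZ ≤ Real.log 3 + (Y - δ) * n - (Y - δ / 4) * n := by linarith
    have h9 : d * (lm + LZ) ≤ d * (Real.log 3 + (Y - δ) * n - (Y - δ / 4) * n) := by gcongr
    have h10 : d * (Real.log 3 + (Y - δ) * n - (Y - δ / 4) * n) =
        d * Real.log 3 - 3 / 4 * d * δ * n := by ring
    rw [hT]
    linarith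

/-- small quantities -/
theorem small_facts {χ Y δ n ll T LT cT₁ ρa C₂ Ck Γ E KS b C σ ε₂ PET : ℝ} (hn : 0 < n)
    (hδ : 0 < δ) (hll0 : 0 ≤ ll) (hll : ll ≤ Real.exp (-((χ + Y - δ / 4) * n)))
    (hT : T = Real.exp LT) (hT₁ : cT₁ + (-χ + 3 / 2 * δ) * n ≤ LT) (hρa : 0 < ρa) (hC₂ : 0 < C₂)
    (hCk : 0 < Ck) (hΓ : 0 < Γ) (hE : 1 / 2 ≤ E) (hKS : 0 < KS) (hb : 0 < b)
    (hσε : σ + ε₂ ≤ δ / 2) (hPET : b / 2 * Real.exp (-((σ + ε₂) * n) - C) ≤ PET)
    (e1 : Real.log 2 - cT₁ < δ / 2 * n) (e2 : Real.log (2 / ρa) < Y * n)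
    (e3 : Real.log (8 * C₂ * Ck * Γ) - cT₁ < Y * n)
    (e4 : Real.log (Ck * Γ / (KS * b)) + C < Y * n) :
    2 * Real.exp (-((χ - δ) * n)) ≤ T ∧ ll * (2 / ρa) ≤ Real.exp (-((χ - δ) * n)) ∧
      4 * C₂ * (Ck * ll) * Γ ≤ E * T ∧
      2 * (Ck * ll) * Γ ≤ (KS * (4 * Real.exp (-((χ - δ) * n)))) * PET := by
  have hδn : 0 < δ * n := by positivity
  refine ⟨?_, ?_, ?_, ?_⟩
  · rw [hT]
    calc 2 * Real.exp (-((χ - δ) * n)) = Real.exp (Real.log 2 + -((χ - δ) * n)) := by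
          rw [Real.exp_add, Real.exp_log (by norm_num)]
      _ ≤ Real.exp LT := Real.exp_le_exp.2 (by linarith)
  · have h1 : 2 / ρa ≤ Real.exp (Y * n) := ((Real.log_lt_iff_lt_exp (by positivity)).1 e2).le
    calc ll * (2 / ρa) ≤ Real.exp (-((χ + Y - δ / 4) * n)) * Real.exp (Y * n) := by gcongr
      _ = Real.exp (-((χ - δ / 4) * n)) := by rw [← Real.exp_add]; congr 1; ring
      _ ≤ _ := Real.exp_le_exp.2 (by linarith)
  · have h1 : 8 * C₂ * Ck * Γ ≤ Real.exp (Y * n + cT₁) :=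
      ((Real.log_lt_iff_lt_exp (by positivity)).1 (by linarith)).le
    have h2 : 8 * C₂ * Ck * Γ * ll ≤ T := by
      calc 8 * C₂ * Ck * Γ * ll ≤ Real.exp (Y * n + cT₁) * Real.exp (-((χ + Y - δ / 4) * n)) := by
            gcongr
        _ = Real.exp (cT₁ - χ * n + 1 / 4 * (δ * n)) := by rw [← Real.exp_add]; congr 1; ring
        _ ≤ T := by
            rw [hT]
            exact Real.exp_le_exp.2 (by linarith)
    have hT0 : 0 < T := by rw [hT]; exact Real.exp_pos _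
    have h3 : 1 / 2 * T ≤ E * T := by gcongr
    linarith
  · have h1 : Ck * Γ / (KS * b) ≤ Real.exp (Y * n - C) :=
      ((Real.log_lt_iff_lt_exp (by positivity)).1 (by linarith)).le
    rw [div_le_iff₀ (by positivity)] at h1
    have h2 : σ * n + ε₂ * n ≤ 1 / 2 * (δ * n) := by
      have : (σ + ε₂) * n ≤ δ / 2 * n := by gcongr
      linarith
    calc 2 * (Ck * ll) * Γ = 2 * (Ck * Γ) * ll := by ring
      _ ≤ 2 * (Real.exp (Y * n - C) * (KS * b)) * Real.exp (-((χ + Y - δ / 4) * n)) := by gcongr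
      _ = 2 * (KS * b) * Real.exp (-(χ * n) + 1 / 4 * (δ * n) - C) := by
          rw [show 2 * (Real.exp (Y * n - C) * (KS * b)) * Real.exp (-((χ + Y - δ / 4) * n)) =
            2 * (KS * b) * (Real.exp (Y * n - C) * Real.exp (-((χ + Y - δ / 4) * n))) by ring,
            ← Real.exp_add]
          congr 2
          ring
      _ ≤ 2 * (KS * b) * Real.exp (-((χ - δ) * n) + (-((σ + ε₂) * n) - C)) := by
          have : Real.exp (-(χ * n) + 1 / 4 * (δ * n) - C) ≤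
              Real.exp (-((χ - δ) * n) + (-((σ + ε₂) * n) - C)) :=
            Real.exp_le_exp.2 (by linarith)
          gcongr
      _ = (KS * (4 * Real.exp (-((χ - δ) * n)))) *
            (b / 2 * Real.exp (-((σ + ε₂) * n) - C)) := by
          rw [Real.exp_add]; ring
      _ ≤ _ := by gcongr

/-- the final estimate -/
theorem fin_est {χ δ n Γ CS α b C σ ε₂ PET D μ c₃ b₀ : ℝ} (hn : 0 < n) (hΓ : 0 < Γ)
    (hCS : 0 < CS) (hb : 0 < b) (hD : 0 < D) (hμ : 0 < μ) (hc₃ : 0 < c₃) (hb₀ : 0 < b₀)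
    (hσ : 4 * (σ + ε₂) ≤ α * (χ - δ))
    (hPET : b / 2 * Real.exp (-((σ + ε₂) * n) - C) * D ≤ PET)
    (e5 : Real.log (8 * Γ ^ 2 * Real.exp (2 * C) * (CS * 4 ^ α) * 6400 /
      (b ^ 2 * (b₀ * Real.pi * μ ^ 2 * c₃ ^ 2))) < α * (χ - δ) / 2 * n) :
    2 * Γ ^ 2 / PET ^ 2 * (CS * (4 * Real.exp (-((χ - δ) * n))) ^ α) ≤
      b₀ * (Real.pi * (μ * (c₃ / D) / 80) ^ 2) := by
  have hpi := Real.pi_pos
  have h4 : (0 : ℝ) < 4 ^ α := by positivity
  have h1 : 8 * Γ ^ 2 * Real.exp (2 * C) * (CS * 4 ^ α) * 6400 /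
      (b ^ 2 * (b₀ * Real.pi * μ ^ 2 * c₃ ^ 2)) ≤ Real.exp (α * (χ - δ) / 2 * n) :=
    ((Real.log_lt_iff_lt_exp (by positivity)).1 e5).le
  rw [div_le_iff₀ (by positivity)] at h1
  have h2 : (4 * Real.exp (-((χ - δ) * n))) ^ α = 4 ^ α * Real.exp (-(α * (χ - δ) * n)) := by
    rw [Real.mul_rpow (by norm_num) (Real.exp_pos _).le, ← Real.exp_mul]
    congr 2
    ring
  obtain ⟨q, hq⟩ : ∃ q, q = b / 2 * Real.exp (-((σ + ε₂) * n) - C) := ⟨_, rfl⟩
  have hq0 : 0 < q := by rw [hq]; positivity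
  rw [← hq] at hPET
  have hq2 : q ^ 2 = b ^ 2 / 4 * Real.exp (-(2 * (σ + ε₂) * n) - 2 * C) := by
    rw [hq, mul_pow, ← Real.exp_nat_mul]
    congr 1
    · ring
    · congr 1
      push_cast
      ring
  calc 2 * Γ ^ 2 / PET ^ 2 * (CS * (4 * Real.exp (-((χ - δ) * n))) ^ α)
      ≤ 2 * Γ ^ 2 / (q * D) ^ 2 * (CS * (4 * Real.exp (-((χ - δ) * n))) ^ α) := by gcongr
    _ = (8 * Γ ^ 2 * Real.exp (2 * C) * (CS * 4 ^ α) * 6400) *
          Real.exp (2 * (σ + ε₂) * n - α * (χ - δ) * n) / (6400 * b ^ 2 * D ^ 2) := by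
        rw [h2, mul_pow q D, hq2]
        have e1 : Real.exp (-(2 * (σ + ε₂) * n) - 2 * C) =
            (Real.exp (2 * (σ + ε₂) * n))⁻¹ * (Real.exp (2 * C))⁻¹ := by
          rw [← Real.exp_neg, ← Real.exp_neg, ← Real.exp_add]
          congr 1
        have e2 : Real.exp (2 * (σ + ε₂) * n - α * (χ - δ) * n) =
            Real.exp (2 * (σ + ε₂) * n) * Real.exp (-(α * (χ - δ) * n)) := by
          rw [← Real.exp_add]
          congr 1
        rw [e1, e2]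
        have := Real.exp_pos (2 * (σ + ε₂) * n)
        have := Real.exp_pos (2 * C)
        field_simp
        ring
    _ ≤ (Real.exp (α * (χ - δ) / 2 * n) * (b ^ 2 * (b₀ * Real.pi * μ ^ 2 * c₃ ^ 2))) *
          Real.exp (-(α * (χ - δ) / 2 * n)) / (6400 * b ^ 2 * D ^ 2) := by
        have : Real.exp (2 * (σ + ε₂) * n - α * (χ - δ) * n) ≤
            Real.exp (-(α * (χ - δ) / 2 * n)) := by
          apply Real.exp_le_exp.2
          have : 4 * (σ + ε₂) * n ≤ α * (χ - δ) * n := by gcongr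
          linarith
        gcongr
    _ = (b ^ 2 * (b₀ * Real.pi * μ ^ 2 * c₃ ^ 2)) / (6400 * b ^ 2 * D ^ 2) := by
        rw [mul_right_comm, ← Real.exp_add, add_neg_cancel, Real.exp_zero, one_mul]
    _ = _ := by
        field_simp
        ring

end Pool.Agent.H206.Thin
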