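import Pool.Agent.H206.ThinE

set_option autoImplicit false

/-! # The area of the Multibrot set near the good points outside of a perfect copy: result -/

namespace Pool.Agent.H206.Thin

open Filter Topology Set Metric MeasureTheory
open Pool.Agent.TH279.MD Pool.Agent.Y298.SH.CD Pool.Agent.Y298.CA Pool.Agent.N772.ST
open Pool.Agent.H712R2 (P fc P_zero P_succ mem_multibrot_iff P_one)
open Pool.Agent.H713R2 (IsBeta differentiable_P)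
open Pool.Agent.H206.Hair
open Pool.Agent.N772.PC (Un)
open Pool.Agent.N253.MS (ev_lin)

/-- the points near the annulus -/
theorem near_annulus {d : ℕ} {β : ℂ → ℂ} (hβ : IsBeta d β) {ρ₁ ρ₂ r₀ : ℝ} (hρ₁ : 0 < ρ₁)
    (_hρ₂ : ρ₂ < 1) (h1 : r₀ ≤ ρ₁ / 2) (h2 : r₀ ≤ (1 - ρ₂) / 4) {X : ℂ} (hX1 : ρ₁ ≤ ‖X‖)
    (hX2 : ‖X‖ ≤ ρ₂) : ∀ x ∈ ball X r₀, ρ₁ / 2 ≤ ‖x‖ ∧ ‖x‖ ≤ (1 + ρ₂) / 2 ∧
      DifferentiableAt ℂ (fun x => x⁻¹ * β x) x ∧ ‖x⁻¹ * β x‖ ≤ 2 / (ρ₁ / 2) := by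
  intro x hx
  rw [mem_ball, dist_eq_norm] at hx
  have h3 := norm_sub_norm_le x X
  have h4 := norm_sub_norm_le X x
  rw [norm_sub_rev] at h4
  have h5 : ρ₁ / 2 ≤ ‖x‖ := by linarith
  have h6 : ‖x‖ ≤ (1 + ρ₂) / 2 := by linarith
  have hx1 : x ∈ ball (0 : ℂ) 1 := by rw [mem_ball_zero_iff]; linarith
  have hx0 : x ≠ 0 := by
    rintro rfl
    rw [norm_zero] at h5
    linarith
  refine ⟨h5, h6, (differentiableAt_inv hx0).mul
    (hβ.diff.differentiableAt (isOpen_ball.mem_nhds hx1)), ?_⟩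
  rw [norm_mul, norm_inv, inv_mul_eq_div]
  have := hβ.bound x hx1
  gcongr

/-- the derivative near the annulus -/
theorem deriv_annulus {κ : ℂ → ℂ} {X : ℂ} {r₀ K : ℝ} (hr₀ : 0 < r₀)
    (h : ∀ x ∈ ball X r₀, DifferentiableAt ℂ κ x ∧ ‖κ x‖ ≤ K) :
    ∀ x ∈ ball X (r₀ / 2), ‖deriv κ x‖ ≤ K / (r₀ / 4) := by
  intro x hx
  rw [mem_ball, dist_eq_norm] at hx
  have hsub : closedBall x (r₀ / 4) ⊆ ball X r₀ := by
    intro z hz
    rw [mem_closedBall, dist_eq_norm] at hz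
    rw [mem_ball, dist_eq_norm]
    calc ‖z - X‖ = ‖(z - x) + (x - X)‖ := by congr 1; ring
      _ ≤ ‖z - x‖ + ‖x - X‖ := norm_add_le _ _
      _ < r₀ := by linarith
  exact Complex.norm_deriv_le_of_forall_mem_sphere_norm_le (by positivity)
    (DifferentiableOn.diffContOnCl (fun z hz =>
      ((h z (hsub (closure_ball_subset_closedBall hz))).1).differentiableWithinAt))
    (fun z hz => (h z (hsub (sphere_subset_closedBall hz))).2)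

/-- **The area near the good points.** -/
theorem thin_point {d : ℕ} (hd : 2 ≤ d) {χ : ℝ} {c₀ : ℂ} (h : Lyap d χ c₀) {β : ℂ → ℂ}
    (hβ : IsBeta d β) {ρ₁ ρ₂ : ℝ} (hρ₁ : 0 < ρ₁) (h12 : ρ₁ ≤ ρ₂) (hρ₂ : ρ₂ < 1) {δ : ℝ}
    (hδ : 0 < δ) (hδY : 4 * δ ≤ χ / (d - 1)) {b₀ : ℝ} (hb₀ : 0 < b₀) :
    ∀ᶠ n : ℕ in atTop, ∀ c l m : ℂ, l ≠ 0 → m ≠ 0 → ‖c - c₀‖ ≤ Real.exp (-((χ - δ) * n)) →
      ‖l‖ ≤ Real.exp (-((χ * d / (d - 1) - δ / 4) * n)) →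
      Real.exp (-((χ / (d - 1) + δ / 4) * n)) ≤ ‖m‖ →
      ‖m‖ ≤ Real.exp (-((χ / (d - 1) - δ / 4) * n)) →
      Un d n c l m ((χ / (d - 1) - δ / 4) * n) → ∀ (J : ℕ) (X : ℂ), ρ₁ ≤ ‖X‖ → ‖X‖ ≤ ρ₂ →
        (χ / (d - 1) / d + δ) * n ≤ d ^ J * (-Real.log ‖X‖) →
        d ^ J * (-Real.log ‖X‖) ≤ (χ / (d - 1) - δ) * n →
        ∃ ρ : ℝ, 0 < ρ ∧ ρ ≤ 1 ∧ closedBall X ρ ⊆ ball 0 1 ∧
          volume ({x | c + l * (x⁻¹ * β x) ∈ N62a1eb23.multibrotSet d} ∩ closedBall X (5 * ρ)) ≤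
            ENNReal.ofReal b₀ * volume (closedBall X ρ) := by
  have hχ : 0 < χ := h.1
  have hdR : (2 : ℝ) ≤ d := by exact_mod_cast hd
  have hd1 : (0 : ℝ) < (d : ℝ) - 1 := by linarith
  obtain ⟨hP, hz, hz2, hGr, hslow, C₂, hC₂, hW⟩ := lyap_data hd h
  obtain ⟨CS, α, s₀, KS, hCS, hα, hs₀, hs₀1, hKS, HS⟩ := SS_small hd h
  -- the constants
  obtain ⟨Y, hY⟩ : ∃ Y : ℝ, Y = χ / (d - 1) := ⟨_, rfl⟩
  have hY0 : 0 < Y := by rw [hY]; positivity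
  have hYχ : Y * (d - 1) = χ := by rw [hY]; field_simp
  rw [← hY] at hδY
  have hYleχ : Y ≤ χ := by
    rw [← hYχ]
    exact le_mul_of_one_le_right hY0.le (by linarith)
  obtain ⟨g₁, hg₁⟩ : ∃ g₁ : ℝ, g₁ = -Real.log ρ₁ := ⟨_, rfl⟩
  obtain ⟨g₂, hg₂⟩ : ∃ g₂ : ℝ, g₂ = -Real.log ρ₂ := ⟨_, rfl⟩
  have hρ₂0 : 0 < ρ₂ := hρ₁.trans_le h12
  have hg₂0 : 0 < g₂ := by
    rw [hg₂]
    have := Real.log_neg hρ₂0 hρ₂
    linarith
  have hg₁0 : 0 < g₁ := by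
    rw [hg₁]
    have := Real.log_neg hρ₁ (h12.trans_lt hρ₂)
    linarith
  obtain ⟨ρa, hρa⟩ : ∃ ρa : ℝ, ρa = ρ₁ / 2 := ⟨_, rfl⟩
  obtain ⟨ρb, hρb⟩ : ∃ ρb : ℝ, ρb = (1 + ρ₂) / 2 := ⟨_, rfl⟩
  have hρa0 : 0 < ρa := by rw [hρa]; positivity
  have hρb1 : ρb < 1 := by rw [hρb]; linarith
  obtain ⟨η, hη⟩ : ∃ η : ℝ, η = δ * g₂ / (4 * Y) := ⟨_, rfl⟩
  have hη0 : 0 < η := by rw [hη]; positivity
  have hη1 : Real.exp (-η) < 1 := Real.exp_lt_one_iff.2 (by linarith)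
  obtain ⟨r₁, hr₁⟩ : ∃ r₁ : ℝ, r₁ = min (min (ρ₁ / 2) ((1 - ρ₂) / 4))
      (ρa * (1 - Real.exp (-η))) := ⟨_, rfl⟩
  have hr₁0 : 0 < r₁ := by
    rw [hr₁]
    have h1 : 0 < 1 - Real.exp (-η) := by linarith
    have h2 : 0 < 1 - ρ₂ := by linarith
    positivity
  have hr₁1 : r₁ ≤ ρ₁ / 2 := by rw [hr₁]; exact (min_le_left _ _).trans (min_le_left _ _)
  have hr₁2 : r₁ ≤ (1 - ρ₂) / 4 := by rw [hr₁]; exact (min_le_left _ _).trans (min_le_right _ _)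
  have hr₁3 : r₁ ≤ ρa * (1 - Real.exp (-η)) := by rw [hr₁]; exact min_le_right _ _
  obtain ⟨p₀, hp₀, hp₁, HP⟩ := P_bounds hd hβ hρb1
  obtain ⟨A, hA, Hesc⟩ := esc hd hβ hρa0 hρb1
  obtain ⟨b, hb⟩ : ∃ b : ℝ, b = min (χ / (128 * d * C₂)) (1 / (16 * C₂)) := ⟨_, rfl⟩
  have hb0 : 0 < b := by rw [hb]; positivity
  have hb1 : 128 * d * C₂ * b ≤ χ := by
    have h1 : b ≤ χ / (128 * d * C₂) := by rw [hb]; exact min_le_left _ _
    rw [le_div_iff₀ (by positivity)] at h1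
    linarith
  have hb2 : 16 * C₂ * b ≤ 1 := by
    have h1 : b ≤ 1 / (16 * C₂) := by rw [hb]; exact min_le_right _ _
    rw [le_div_iff₀ (by positivity)] at h1
    linarith
  obtain ⟨Γ, hΓ⟩ : ∃ Γ : ℝ, Γ = (12 / p₀) ^ d := ⟨_, rfl⟩
  have hΓ0 : 0 < Γ := by rw [hΓ]; positivity
  obtain ⟨Ck, hCk⟩ : ∃ Ck : ℝ, Ck = 2 / ρa / (r₁ / 4) := ⟨_, rfl⟩
  have hCk0 : 0 < Ck := by rw [hCk]; positivity
  obtain ⟨c₃, hc₃⟩ : ∃ c₃ : ℝ, c₃ = ρ₁ / 2 := ⟨_, rfl⟩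
  have hc₃0 : 0 < c₃ := by rw [hc₃]; positivity
  obtain ⟨μ, hμ⟩ : ∃ μ : ℝ, μ = min (1 / 8) (c₃ / (512 * C₂ * Γ)) := ⟨_, rfl⟩
  have hμ0 : 0 < μ := by rw [hμ]; positivity
  have hμ1 : μ ≤ 1 / 8 := by rw [hμ]; exact min_le_left _ _
  have hμ2 : 512 * C₂ * Γ * μ ≤ c₃ := by
    have h1 : μ ≤ c₃ / (512 * C₂ * Γ) := by rw [hμ]; exact min_le_right _ _
    rw [le_div_iff₀ (by positivity)] at h1
    linarith
  have hχδ : 0 < χ - δ := by linarith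
  obtain ⟨σ, hσ⟩ : ∃ σ : ℝ, σ = min (δ / 4) (α * (χ - δ) / 8) := ⟨_, rfl⟩
  have hσ0 : 0 < σ := by rw [hσ]; positivity
  have hσ1 : σ ≤ δ / 4 := by rw [hσ]; exact min_le_left _ _
  have hσ2 : σ ≤ α * (χ - δ) / 8 := by rw [hσ]; exact min_le_right _ _
  obtain ⟨C, hC, Hslow⟩ := hslow σ hσ0
  obtain ⟨cT₁, hcT₁⟩ : ∃ x : ℝ, x = Real.log Γ + d * Real.log (p₀ / 2) := ⟨_, rfl⟩
  obtain ⟨cT₂, hcT₂⟩ : ∃ x : ℝ, x = Real.log Γ + d * Real.log 3 := ⟨_, rfl⟩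
  obtain ⟨K₉, hK₉⟩ : ∃ x : ℝ, x = 8 * Γ ^ 2 * Real.exp (2 * C) * (CS * 4 ^ α) * 6400 /
      (b ^ 2 * (b₀ * Real.pi * μ ^ 2 * c₃ ^ 2)) := ⟨_, rfl⟩
  filter_upwards [eventually_ge_atTop 1, window hχ hGr hσ0 (show σ ≤ χ by linarith),
    J_small (G := Y / g₂) (L := Real.log A) (e := δ / 4) (by positivity) (by positivity),
    ev_lin (show 0 < Y / d by positivity) (g₁ * (2 * c₃ / r₁)),
    ev_lin (show 0 < Y / d by positivity) (g₁ * (4 / r₁ * Real.log (8 / p₀))),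
    ev_lin hδ (cT₂ - Real.log b), ev_lin hδ (Real.log b - cT₁),
    ev_lin (half_pos hδ) (Real.log 2 - cT₁), ev_lin hY0 (Real.log (2 / ρa)),
    ev_lin hY0 (Real.log (8 * C₂ * Ck * Γ) - cT₁), ev_lin hY0 (Real.log (Ck * Γ / (KS * b)) + C),
    ev_lin (show 0 < α * (χ - δ) / 2 by positivity) (Real.log K₉),
    ev_lin hχδ (Real.log (4 / s₀))]
    with n hn1 Hwin HJ e1 e2 e3 e4 e5 e6 e7 e8 e9 e10 c l m hl hm hc hln hm1 hm2 hU J X hX1 hX2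
      hJ1 hJ2
  have hnR : (1 : ℝ) ≤ n := by exact_mod_cast hn1
  have hn0 : (0 : ℝ) < n := by linarith
  rw [← hY] at hm1 hm2 hU hJ1 hJ2
  have hXn0 : 0 < ‖X‖ := hρ₁.trans_le hX1
  obtain ⟨s, hs⟩ : ∃ s : ℝ, s = -Real.log ‖X‖ := ⟨_, rfl⟩
  have hXs : ‖X‖ = Real.exp (-s) := by rw [hs, neg_neg, Real.exp_log hXn0]
  have hsg₁ : s ≤ g₁ := by
    rw [hs, hg₁]
    have := Real.log_le_log hρ₁ hX1
    linarith only [this]
  have hsg₂ : g₂ ≤ s := by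
    rw [hs, hg₂]
    have := Real.log_le_log hXn0 hX2
    linarith only [this]
  rw [← hs] at hJ1 hJ2
  obtain ⟨D, hDdef⟩ : ∃ D : ℝ, D = (d : ℝ) ^ J := ⟨_, rfl⟩
  rw [← hDdef] at hJ1 hJ2
  have hD1 : 1 ≤ D := by rw [hDdef]; exact one_le_pow₀ (by linarith)
  have hD0 : 0 < D := by linarith only [hD1]
  have hδn : 0 < δ * n := by positivity
  have hDY : D * g₂ ≤ Y * n := by
    calc D * g₂ ≤ D * s := by gcongr
      _ ≤ (Y - δ) * n := hJ2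
      _ ≤ Y * n := by
        gcongr
        linarith only [hδ]
  have hDlow : Y / d * n ≤ g₁ * D := by
    calc Y / d * n ≤ (Y / d + δ) * n := by
          gcongr
          linarith only [hδ]
      _ ≤ D * s := hJ1
      _ ≤ D * g₁ := by gcongr
      _ = _ := mul_comm _ _
  have hJA : ((J : ℝ) + 1) * Real.log A ≤ δ / 4 * n := by
    apply HJ J d hd
    rw [← hDdef, div_mul_eq_mul_div, le_div_iff₀ hg₂0]
    exact hDY
  have hDη : D * η ≤ δ / 4 * n := by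
    rw [hη]
    calc D * (δ * g₂ / (4 * Y)) = δ / (4 * Y) * (D * g₂) := by ring
      _ ≤ δ / (4 * Y) * (Y * n) := by gcongr
      _ = δ / 4 * n := by field_simp
  have hmn : 0 < ‖m‖ := norm_pos_iff.2 hm
  have hlnn : 0 < ‖l‖ := norm_pos_iff.2 hl
  have hnear := near_annulus hβ hρ₁ hρ₂ hr₁1 hr₁2 hX1 hX2
  rw [← hρa, ← hρb] at hnear
  obtain ⟨hZ, hZ'⟩ := at_ball hd hρa0 hρb1 hp₀ hA HP Hesc (l := l) (c := c) hm hU (J := J)
    hr₁0 hXs (fun x hx => ⟨(hnear x hx).1, (hnear x hx).2.1, (hnear x hx).2.2.1⟩) hr₁3 hη1 (by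
      rw [← hDdef]
      have : D * (s + η) = D * s + D * η := by ring
      linarith only [this, hJA, hDη, hJ2, hδn])
  rw [← hDdef] at hZ'
  obtain ⟨M, hM⟩ : ∃ M : ℕ, M = n * (J + 1) := ⟨_, rfl⟩
  rw [← hM] at hZ hZ'
  obtain ⟨k, hk⟩ : ∃ k : ℂ → ℂ, k = fun x => c + l * (x⁻¹ * β x) := ⟨_, rfl⟩
  have hkx : ∀ x, k x = c + l * (x⁻¹ * β x) := fun x => by rw [hk]
  simp only [← hkx] at hZ hZ' ⊢
  have hkd : ∀ x ∈ ball X r₁, DifferentiableAt ℂ k x := by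
    intro x hx
    rw [hk]
    exact ((hnear x hx).2.2.1.const_mul l).const_add c
  -- the radius
  obtain ⟨ρ, hρ⟩ : ∃ ρ : ℝ, ρ = c₃ / D := ⟨_, rfl⟩
  have hρ0 : 0 < ρ := by rw [hρ]; positivity
  have hρr : ρ ≤ r₁ / 2 := by
    rw [hρ, div_le_iff₀ hD0]
    have h1 : 2 * c₃ / r₁ ≤ D := le_of_mul_le_mul_left (e1.le.trans hDlow) hg₁0
    rw [div_le_iff₀ hr₁0] at h1
    linarith only [h1]
  have hsub : ball X ρ ⊆ ball X (r₁ / 2) := ball_subset_ball hρr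
  have hsub' : ball X ρ ⊆ ball X r₁ := ball_subset_ball (by linarith only [hρr, hr₁0])
  -- the size of `u`
  obtain ⟨T, hT⟩ : ∃ T : ℝ, T = Γ * ‖P d M (k X)‖ ^ d := ⟨_, rfl⟩
  have hZX := hZ X (mem_ball_self hr₁0)
  have hpow : (‖X‖⁻¹) ^ (d ^ J) = Real.exp (D * s) := by
    rw [hXs, ← Real.exp_neg, neg_neg, ← Real.exp_nat_mul]
    congr 1
    rw [hDdef]
    push_cast
    ring
  have hPX : 0 < ‖P d M (k X) / m‖ := by
    refine lt_of_lt_of_le ?_ hZX.1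
    rw [hpow]
    positivity
  have hPX0 : 0 < ‖P d M (k X)‖ := by
    rw [norm_div] at hPX
    exact (div_pos_iff_of_pos_right hmn).1 hPX
  have hT0 : 0 < T := by rw [hT]; positivity
  have hu : ∀ x ∈ ball X ρ, ‖P d M (k x)‖ ^ d ≤ T := by
    intro x hx
    have h1 := (hZ x (hsub' hx)).2
    have h2 : (‖x‖⁻¹) ^ (d ^ J) ≤ 2 * (‖X‖⁻¹) ^ (d ^ J) := by
      refine pow_near (ρ₁ := ρ₁) (Nat.one_le_pow _ _ (by omega)) hρ₁ hX1 ?_
      rw [mem_ball, dist_eq_norm] at hx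
      push_cast
      rw [← hDdef, ← hc₃, ← hρ]
      exact hx.le
    have h3 : ‖P d M (k x) / m‖ ≤ 12 / p₀ * ‖P d M (k X) / m‖ := by
      calc ‖P d M (k x) / m‖ ≤ 3 * (2 * (‖X‖⁻¹) ^ (d ^ J)) := h1.trans (by gcongr)
        _ = 12 / p₀ * (p₀ / 2 * (‖X‖⁻¹) ^ (d ^ J)) := by field_simp; ring
        _ ≤ _ := by
            gcongr
            exact hZX.1
    rw [norm_div, norm_div, ← mul_div_assoc, div_le_div_iff_of_pos_right hmn] at h3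
    calc ‖P d M (k x)‖ ^ d ≤ (12 / p₀ * ‖P d M (k X)‖) ^ d := by gcongr
      _ = T := by rw [mul_pow, hT, hΓ]
  -- the logarithm of `T`
  have hlogT : Real.log T = Real.log Γ + d * (Real.log ‖m‖ + Real.log ‖P d M (k X) / m‖) := by
    rw [hT, Real.log_mul hΓ0.ne' (by positivity), Real.log_pow, norm_div,
      Real.log_div hPX0.ne' hmn.ne']
    ring
  obtain ⟨t1, t2⟩ := LT_bounds (p₀ := p₀) hdR hYχ hδ hn0 hlogT
    ((Real.le_log_iff_exp_le hmn).2 hm1) ((Real.log_le_iff_le_exp hmn).2 hm2) (by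
      have h1 := Real.log_le_log (by rw [hpow]; positivity) hZX.1
      rw [hpow, Real.log_mul (by positivity) (Real.exp_pos _).ne', Real.log_exp] at h1
      exact h1) (by
      have h1 := Real.log_le_log hPX hZX.2
      rw [hpow, Real.log_mul (by norm_num) (Real.exp_pos _).ne', Real.log_exp] at h1
      exact h1) hJ1 hJ2
  rw [← hcT₁] at t1
  rw [← hcT₂] at t2
  obtain ⟨w1, w2⟩ := choose_time hσ1 hn0 t1 t2 e3 e4 hδ
  obtain ⟨j, k1, k2, k3, k4⟩ := Hwin (Real.log b - Real.log T - σ * n) (Real.log b - Real.log T)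
    w1 (by rw [sub_add_cancel]) w2
  obtain ⟨a, ha⟩ : ∃ a : ℝ, a = Pd d c₀ j / ‖zz d c₀ j‖ := ⟨_, rfl⟩
  simp only [← ha] at k2 k3 k4
  have hzj : 0 < ‖zz d c₀ j‖ := norm_pos_iff.2 (hz j)
  have ha0 : 0 < a := by
    rw [ha]
    exact div_pos (hP j) hzj
  have haz : a * ‖zz d c₀ j‖ = Pd d c₀ j := by rw [ha]; field_simp
  have hjn : (j : ℝ) ≤ n := by rwa [div_self hχ.ne', one_mul] at k1
  have hTa : T * a ≤ b := by
    have h1 : Real.log (T * a) ≤ Real.log b := by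
      rw [Real.log_mul hT0.ne' ha0.ne']
      linarith only [k3]
    exact (Real.log_le_log_iff (by positivity) hb0).1 h1
  have hPET : b / 2 * Real.exp (-((σ + σ) * n) - C) * D ≤ Pd d c₀ j * (D / 2) * T := by
    have h1 : b * Real.exp (-(σ * n)) ≤ T * a := by
      have h2 : Real.log (b * Real.exp (-(σ * n))) ≤ Real.log (T * a) := by
        rw [Real.log_mul hb0.ne' (Real.exp_pos _).ne', Real.log_exp,
          Real.log_mul hT0.ne' ha0.ne']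
        linarith only [k2]
      exact (Real.log_le_log_iff (by positivity) (by positivity)).1 h2
    have h3 : Real.exp (-(σ * n) - C) ≤ ‖zz d c₀ j‖ := by
      rw [← Real.le_log_iff_exp_le hzj]
      have h4 := (abs_le.1 (Hslow j)).1
      have h5 : σ * j ≤ σ * n := by gcongr
      linarith only [h4, h5]
    calc b / 2 * Real.exp (-((σ + σ) * n) - C) * D =
          (b * Real.exp (-(σ * n))) * Real.exp (-(σ * n) - C) * (D / 2) := by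
            rw [show -((σ + σ) * (n : ℝ)) - C = -(σ * n) + (-(σ * n) - C) by ring, Real.exp_add]
            ring
      _ ≤ (T * a) * ‖zz d c₀ j‖ * (D / 2) := by gcongr
      _ = Pd d c₀ j * (D / 2) * T := by rw [← haz]; ring
  have hln' : ‖l‖ ≤ Real.exp (-((χ + Y - δ / 4) * n)) := by
    refine hln.trans (le_of_eq ?_)
    congr 2
    rw [← hYχ]
    field_simp
    ring
  obtain ⟨f1, f2, f3, f4⟩ := small_facts (LT := Real.log T) (cT₁ := cT₁) (ρa := ρa) (C₂ := C₂)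
    (Ck := Ck) (Γ := Γ) (E := D / 2) (KS := KS) (b := b) (C := C) (σ := σ) (ε₂ := σ)
    (PET := Pd d c₀ j * (D / 2) * T) hn0 hδ hlnn.le hln' (by rw [Real.exp_log hT0]) t1 hρa0
    (by linarith only [hC₂]) hCk0 hΓ0 (by linarith only [hD1]) hKS hb0 (by linarith only [hσ1])
    (le_trans (le_mul_of_one_le_right (by positivity) hD1) hPET) e5 e6 e7 e8
  obtain ⟨κ, hκ⟩ : ∃ κ : ℝ, κ = KS * (4 * Real.exp (-((χ - δ) * n))) := ⟨_, rfl⟩
  obtain ⟨r, hr⟩ : ∃ r : ℝ, r = 2 * Real.exp (-((χ - δ) * n)) := ⟨_, rfl⟩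
  rw [← hκ] at f4
  rw [← hr] at f1
  have hE : D / 2 * ‖P d M (k X)‖ ≤ ‖deriv (fun x => P d M (k x)) X‖ := by
    have h4 : 4 / r₁ * Real.log (8 / p₀) ≤ D :=
      le_of_mul_le_mul_left (e2.le.trans hDlow) hg₁0
    have h5 : D / 2 ≤ D - 2 / r₁ * Real.log (8 / p₀) := by
      have : 4 / r₁ * Real.log (8 / p₀) = 2 * (2 / r₁ * Real.log (8 / p₀)) := by ring
      linarith only [h4, this]
    rw [deriv_div_const, norm_div, norm_div, ← mul_div_assoc,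
      div_le_div_iff_of_pos_right hmn] at hZ'
    refine le_trans ?_ hZ'
    gcongr
  have hderk : ∀ x ∈ ball X ρ, ‖deriv k x‖ ≤ Ck * ‖l‖ := by
    intro x hx
    have h1 := deriv_annulus hr₁0 (fun z hz => ⟨(hnear z hz).2.2.1, (hnear z hz).2.2.2⟩) x
      (hsub hx)
    have h2 : deriv k x = l * deriv (fun x => x⁻¹ * β x) x := by
      rw [hk, deriv_const_add, deriv_const_mul _ (hnear x (hsub' hx)).2.2.1]
    rw [h2, norm_mul, mul_comm, hCk]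
    gcongr
  have hkn : ∀ x ∈ ball X ρ, ‖k x - c₀‖ ≤ r := by
    intro x hx
    rw [hkx, add_sub_right_comm]
    refine (norm_add_le _ _).trans ?_
    rw [norm_mul]
    have h1 : ‖l‖ * ‖x⁻¹ * β x‖ ≤ ‖l‖ * (2 / ρa) := by
      gcongr
      exact (hnear x (hsub' hx)).2.2.2
    rw [hr]
    linarith only [h1, f2, hc]
  have hmain := good_ball (b := b) (j := j) (a := a) (M := M) (k := k) (X := X) (ρ := ρ) (T := T)
    (r := r) (κ₀ := Ck * ‖l‖) (κ := κ) (Γ := Γ) (E := D / 2) (μ := μ) hd hC₂ hP hz hz2 hW hχ hb1 hb2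
    ha k4 hρ0 hT0 hTa (fun x hx => (hkd x (hsub' hx)).differentiableWithinAt) hkn f1 hu hderk
    hT.le hΓ0 (by positivity) hE f3 hμ0 hμ1 (by
      rw [hρ]
      have : D / 2 * (c₃ / D) = c₃ / 2 := by field_simp
      rw [this]
      linarith only [hμ2]) f4
  -- the conclusion
  refine ⟨μ * ρ / 80, by positivity, ?_, ?_, ?_⟩
  · have h1 : μ * ρ ≤ 1 / 8 * (r₁ / 2) := by gcongr
    have h2 : r₁ ≤ 1 := by linarith only [hr₁2, hρ₂0]
    linarith only [h1, h2]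
  · intro x hx
    have h1 : μ * ρ ≤ 1 / 8 * (r₁ / 2) := by gcongr
    have h2 : x ∈ ball X r₁ := by
      rw [mem_closedBall] at hx
      rw [mem_ball]
      linarith only [hx, h1, hr₁0]
    rw [mem_ball_zero_iff]
    exact (hnear x h2).2.1.trans_lt hρb1
  · have h1 : 5 * (μ * ρ / 80) = μ * ρ / 16 := by ring
    rw [h1]
    refine hmain.trans ?_
    have hs4 : 4 * Real.exp (-((χ - δ) * n)) ≤ s₀ := by
      have h2 : 4 / s₀ ≤ Real.exp ((χ - δ) * n) :=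
        ((Real.log_lt_iff_lt_exp (by positivity)).1 e10).le
      rw [div_le_iff₀ hs₀] at h2
      rw [Real.exp_neg, ← div_eq_mul_inv, div_le_iff₀ (Real.exp_pos _)]
      linarith only [h2]
    have h2 := HS (4 * Real.exp (-((χ - δ) * n))) (by positivity) hs4
    have h3 : r = 4 * Real.exp (-((χ - δ) * n)) / 2 := by rw [hr]; ring
    rw [← hκ, ← h3] at h2
    have h4 := fin_est (χ := χ) (δ := δ) (n := n) (Γ := Γ) (CS := CS) (α := α) (b := b) (C := C)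
      (σ := σ) (ε₂ := σ) (PET := Pd d c₀ j * (D / 2) * T) (D := D) (μ := μ) (c₃ := c₃) (b₀ := b₀)
      hn0 hΓ0 hCS hb0 hD0 hμ0 hc₃0 hb₀ (by linarith only [hσ2]) hPET (by rw [← hK₉]; exact e9)
    rw [← hρ] at h4
    calc ENNReal.ofReal (2 * Γ ^ 2 / (Pd d c₀ j * (D / 2) * T) ^ 2) * SS d c₀ r κ
        ≤ ENNReal.ofReal (2 * Γ ^ 2 / (Pd d c₀ j * (D / 2) * T) ^ 2) *
          ENNReal.ofReal (CS * (4 * Real.exp (-((χ - δ) * n))) ^ α) := by gcongr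
      _ = ENNReal.ofReal (2 * Γ ^ 2 / (Pd d c₀ j * (D / 2) * T) ^ 2 *
          (CS * (4 * Real.exp (-((χ - δ) * n))) ^ α)) :=
          (ENNReal.ofReal_mul (by positivity)).symm
      _ ≤ ENNReal.ofReal (b₀ * (Real.pi * (μ * ρ / 80) ^ 2)) := ENNReal.ofReal_le_ofReal h4
      _ = _ := by
          rw [Complex.volume_closedBall, ENNReal.ofReal_mul hb₀.le,
            ENNReal.ofReal_mul Real.pi_pos.le, ENNReal.ofReal_pow (by positivity),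
            mul_comm (ENNReal.ofReal Real.pi)]
          congr 2
          rw [← ENNReal.ofReal_coe_nnreal, NNReal.coe_real_pi]

end Pool.Agent.H206.Thin
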