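import Pool.Agent.H206.ThinF
import Pool.Graph.R_seed8.Y79.CA.Cov
import Pool.Graph.R_seed8.R240.ExtMax

set_option autoImplicit false

/-! # The area of the Multibrot set outside of a perfect copy -/

namespace Pool.Agent.H206.Thin

open Filter Topology Set Metric MeasureTheory
open Pool.Agent.TH279.MD Pool.Agent.Y298.SH.CD Pool.Agent.Y298.CA Pool.Agent.N772.ST
open Pool.Agent.H712R2 (P fc P_zero P_succ mem_multibrot_iff P_one)
open Pool.Agent.H713R2 (IsBeta differentiable_P IsExteriorMap exteriorMap_of_beta)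
open Pool.Agent.H206.Hair
open Pool.Agent.N772.PC (Un)
open Pool.Agent.N253.MS (ev_lin)

/-- the area of a thin ring -/
theorem ring_vol {a b : ℝ} (ha : 0 ≤ a) (hab : a ≤ b) :
    volume {x : ℂ | Real.exp (-b) < ‖x‖ ∧ ‖x‖ < Real.exp (-a)} ≤
      ENNReal.ofReal (2 * Real.pi * (b - a)) := by
  have hpi := Real.pi_pos
  have h1 : {x : ℂ | Real.exp (-b) < ‖x‖ ∧ ‖x‖ < Real.exp (-a)} ⊆
      ball 0 (Real.exp (-a)) \ ball 0 (Real.exp (-b)) := by
    rintro x ⟨h1, h2⟩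
    exact ⟨by rwa [mem_ball_zero_iff], by rw [mem_ball_zero_iff]; exact not_lt.2 h1.le⟩
  have hsub : ball (0 : ℂ) (Real.exp (-b)) ⊆ ball 0 (Real.exp (-a)) :=
    ball_subset_ball (Real.exp_le_exp.2 (by linarith))
  refine (measure_mono h1).trans ?_
  rw [measure_sdiff hsub measurableSet_ball.nullMeasurableSet measure_ball_lt_top.ne,
    tsub_le_iff_right]
  have e : ∀ t : ℝ, 0 ≤ t → volume (ball (0 : ℂ) t) = ENNReal.ofReal (Real.pi * t ^ 2) := by
    intro t ht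
    rw [Complex.volume_ball, ENNReal.ofReal_mul hpi.le, ENNReal.ofReal_pow ht,
      mul_comm (ENNReal.ofReal Real.pi)]
    congr 1
    rw [← ENNReal.ofReal_coe_nnreal, NNReal.coe_real_pi]
  rw [e _ (Real.exp_pos _).le, e _ (Real.exp_pos _).le,
    ← ENNReal.ofReal_add (by
      have : 0 ≤ b - a := by linarith
      positivity) (by positivity)]
  apply ENNReal.ofReal_le_ofReal
  have h2 : Real.exp (-b) ^ 2 = Real.exp (-a) ^ 2 * Real.exp (-(2 * (b - a))) := by
    rw [← Real.exp_nat_mul, ← Real.exp_nat_mul, ← Real.exp_add]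
    congr 1
    push_cast
    ring
  have h3 : -(2 * (b - a)) + 1 ≤ Real.exp (-(2 * (b - a))) := Real.add_one_le_exp _
  have h4 : Real.exp (-a) ^ 2 ≤ 1 := pow_le_one₀ (Real.exp_pos _).le
    (Real.exp_le_one_iff.2 (by linarith))
  have h5 : 0 < Real.exp (-a) ^ 2 := by positivity
  have h6 : Real.exp (-a) ^ 2 - Real.exp (-b) ^ 2 ≤ 2 * (b - a) := by
    rw [h2]
    nlinarith
  nlinarith

/-- the bad points -/
theorem bad_set {d Y δ g₁ g₂ n : ℝ} (hd : 2 ≤ d) (hδ : 0 < δ) (hδY : 4 * d * δ ≤ Y)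
    (hg₂ : 0 < g₂) (hg : g₂ ≤ g₁) (hn : g₁ ≤ (Y - δ) * n) (hn0 : 0 < n) :
    ∃ a b : ℕ → ℝ, (∀ i, 0 ≤ a i ∧ a i ≤ b i ∧ b i - a i ≤ 4 * d * δ * g₁ / Y) ∧
      ∀ s : ℝ, g₂ ≤ s → s ≤ g₁ → (∀ J : ℕ, (Y / d + δ) * n ≤ d ^ J * s → (Y - δ) * n < d ^ J * s) →
        ∃ i < ⌈2 * g₁ / g₂⌉₊, a i < s ∧ s < b i := by
  have hd0 : 0 < d := by linarith
  have hd1 : 1 < d := by linarith
  have hg₁ : 0 < g₁ := hg₂.trans_le hg
  have hY0 : 0 < Y := lt_of_lt_of_le (by positivity) hδY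
  have hδ1 : 8 * δ ≤ Y := by nlinarith
  have hYδ : 0 < Y - δ := by linarith
  have h1 : (1 : ℝ) ≤ (Y - δ) * n / g₁ := by rwa [one_le_div hg₁]
  obtain ⟨J₀, hJ1, hJ2⟩ := exists_nat_pow_near h1 hd1
  rw [le_div_iff₀ hg₁] at hJ1
  rw [div_lt_iff₀ hg₁] at hJ2
  have hp : ∀ J : ℕ, 0 < d ^ J := fun J => by positivity
  refine ⟨fun i => (Y - δ) * n / d ^ (J₀ + i + 1), fun i => (Y / d + δ) * n / d ^ (J₀ + i),
    fun i => ⟨by positivity, ?_, ?_⟩, ?_⟩
  · rw [div_le_div_iff₀ (hp _) (hp _)]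
    have h2 : (Y - δ) * n ≤ (Y / d + δ) * n * d := by
      have h3 : (Y / d + δ) * n * d = (Y + d * δ) * n := by field_simp
      rw [h3]
      gcongr
      have : 0 ≤ d * δ := by positivity
      linarith
    calc (Y - δ) * n * d ^ (J₀ + i) ≤ (Y / d + δ) * n * d * d ^ (J₀ + i) := by
          gcongr
      _ = _ := by ring
  · have h2 : (Y / d + δ) * n / d ^ (J₀ + i) - (Y - δ) * n / d ^ (J₀ + i + 1) =
        δ * (1 + d) * (n / d ^ (J₀ + i + 1)) := by
      have := (hp (J₀ + i)).ne'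
      rw [pow_succ]
      field_simp
      ring
    have h3 : n / d ^ (J₀ + i + 1) ≤ 2 * g₁ / Y := by
      rw [div_le_div_iff₀ (hp _) hY0]
      have h4 : d ^ (J₀ + 1) ≤ d ^ (J₀ + i + 1) := pow_le_pow_right₀ hd1.le (by omega)
      have h5 : n * (Y - δ) ≤ g₁ * d ^ (J₀ + i + 1) := by
        calc n * (Y - δ) ≤ d ^ (J₀ + 1) * g₁ := by linarith
          _ ≤ d ^ (J₀ + i + 1) * g₁ := by gcongr
          _ = _ := mul_comm _ _
      have h6 : n * Y ≤ 2 * (n * (Y - δ)) := by nlinarith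
      linarith
    rw [h2]
    calc δ * (1 + d) * (n / d ^ (J₀ + i + 1)) ≤ δ * (2 * d) * (2 * g₁ / Y) := by
          gcongr
          linarith
      _ = _ := by ring
  · intro s hs1 hs2 hbad
    have hs0 : 0 < s := hg₂.trans_le hs1
    have h2 : (1 : ℝ) ≤ (Y - δ) * n / s := by
      rw [one_le_div hs0]
      linarith
    obtain ⟨J, hj1, hj2⟩ := exists_nat_pow_near h2 hd1
    rw [le_div_iff₀ hs0] at hj1
    rw [div_lt_iff₀ hs0] at hj2
    have h3 : d ^ J * s < (Y / d + δ) * n := by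
      by_contra hcon
      push Not at hcon
      exact absurd (hbad J hcon) (not_lt.2 hj1)
    have h4 : J₀ ≤ J := by
      by_contra hcon
      push Not at hcon
      have h5 : d ^ (J + 1) ≤ d ^ J₀ := pow_le_pow_right₀ hd1.le hcon
      have h6 : d ^ (J + 1) * s ≤ d ^ J₀ * g₁ := by gcongr
      linarith
    obtain ⟨i, rfl⟩ : ∃ i, J = J₀ + i := ⟨J - J₀, by omega⟩
    refine ⟨i, ?_, ?_, ?_⟩
    · -- the bound for `i`
      have h5 : d ^ i * g₂ < 2 * g₁ := by
        have h6 : d ^ J₀ * d ^ i * s < (Y / d + δ) * n := by rw [← pow_add]; exact h3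
        have h7 : (Y / d + δ) * n * d ≤ 2 * ((Y - δ) * n) := by
          have h8 : (Y / d + δ) * n * d = (Y + d * δ) * n := by field_simp
          rw [h8]
          have h9 : Y + d * δ ≤ 2 * (Y - δ) := by nlinarith
          nlinarith
        have h8 : d ^ J₀ * (d * (d ^ i * g₂)) < d ^ J₀ * (d * (2 * g₁)) := by
          calc d ^ J₀ * (d * (d ^ i * g₂)) ≤ d ^ J₀ * (d * (d ^ i * s)) := by gcongr
            _ = (d ^ J₀ * d ^ i * s) * d := by ring
            _ < (Y / d + δ) * n * d := by gcongr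
            _ ≤ 2 * ((Y - δ) * n) := h7
            _ ≤ 2 * (d ^ (J₀ + 1) * g₁) := by gcongr
            _ = _ := by ring
        have h9 := lt_of_mul_lt_mul_left h8 (hp J₀).le
        exact lt_of_mul_lt_mul_left h9 hd0.le
      have h6 : (i : ℝ) < d ^ i := by
        have h7 : i < 2 ^ i := Nat.lt_two_pow_self
        have h8 : (2 : ℝ) ^ i ≤ d ^ i := by gcongr
        have h9 : (i : ℝ) < 2 ^ i := by exact_mod_cast h7
        linarith
      rw [Nat.lt_ceil, lt_div_iff₀ hg₂]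
      have h7 : (i : ℝ) * g₂ < d ^ i * g₂ := by gcongr
      linarith
    · show (Y - δ) * n / d ^ (J₀ + i + 1) < s
      rw [div_lt_iff₀ (hp _)]
      linarith
    · show s < (Y / d + δ) * n / d ^ (J₀ + i)
      rw [lt_div_iff₀ (hp _)]
      linarith

end Pool.Agent.H206.Thin
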