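import Pool.Agent.H206.ThinG

set_option autoImplicit false

/-! # The area of the Multibrot set outside of a perfect copy: result -/

namespace Pool.Agent.H206.Thin

open Filter Topology Set Metric MeasureTheory
open N62a1eb23
open Pool.Agent.TH279.MD Pool.Agent.Y298.SH.CD Pool.Agent.Y298.CA Pool.Agent.N772.ST
open Pool.Agent.H712R2 (P fc P_zero P_succ mem_multibrot_iff P_one)
open Pool.Agent.H713R2 (IsBeta differentiable_P IsExteriorMap exteriorMap_of_beta)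
open Pool.Agent.H206.Hair
open Pool.Agent.N772.PC (Un)
open Pool.Agent.N253.MS (ev_lin)

/-- the area in the exterior coordinate -/
theorem thin_x {d : ℕ} (hd : 2 ≤ d) {χ : ℝ} {c₀ : ℂ} (h : Lyap d χ c₀) {β : ℂ → ℂ}
    (hβ : IsBeta d β) {ρ₁ ρ₂ : ℝ} (hρ₁ : 0 < ρ₁) (h12 : ρ₁ ≤ ρ₂) (hρ₂ : ρ₂ < 1) {η : ℝ}
    (hη : 0 < η) : ∃ δ : ℝ, 0 < δ ∧ ∀ᶠ n : ℕ in atTop, ∀ c l m : ℂ, l ≠ 0 → m ≠ 0 →
      ‖c - c₀‖ ≤ Real.exp (-((χ - δ) * n)) →
      ‖l‖ ≤ Real.exp (-((χ * d / (d - 1) - δ / 4) * n)) →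
      Real.exp (-((χ / (d - 1) + δ / 4) * n)) ≤ ‖m‖ →
      ‖m‖ ≤ Real.exp (-((χ / (d - 1) - δ / 4) * n)) →
      Un d n c l m ((χ / (d - 1) - δ / 4) * n) →
      volume {x : ℂ | (ρ₁ ≤ ‖x‖ ∧ ‖x‖ ≤ ρ₂) ∧ c + l * (x⁻¹ * β x) ∈ multibrotSet d} ≤
        ENNReal.ofReal η := by
  have hχ : 0 < χ := h.1
  have hpi := Real.pi_pos
  have hdR : (2 : ℝ) ≤ d := by exact_mod_cast hd
  have hd1 : (0 : ℝ) < (d : ℝ) - 1 := by linarith
  obtain ⟨Y, hY⟩ : ∃ Y : ℝ, Y = χ / (d - 1) := ⟨_, rfl⟩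
  have hY0 : 0 < Y := by rw [hY]; positivity
  obtain ⟨g₁, hg₁⟩ : ∃ g₁ : ℝ, g₁ = -Real.log ρ₁ := ⟨_, rfl⟩
  obtain ⟨g₂, hg₂⟩ : ∃ g₂ : ℝ, g₂ = -Real.log ρ₂ := ⟨_, rfl⟩
  have hρ₂0 : 0 < ρ₂ := hρ₁.trans_le h12
  have hg₂0 : 0 < g₂ := by
    rw [hg₂]
    have := Real.log_neg hρ₂0 hρ₂
    linarith
  have hg : g₂ ≤ g₁ := by
    rw [hg₁, hg₂]
    have := Real.log_le_log hρ₁ h12
    linarith
  have hg₁0 : 0 < g₁ := hg₂0.trans_le hg
  obtain ⟨N, hN⟩ : ∃ N : ℕ, N = ⌈2 * g₁ / g₂⌉₊ := ⟨_, rfl⟩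
  obtain ⟨δ, hδ⟩ : ∃ δ : ℝ, δ = min (Y / (4 * d)) (η * Y / (16 * Real.pi * d * g₁ * (N + 1))) :=
    ⟨_, rfl⟩
  have hδ0 : 0 < δ := by rw [hδ]; positivity
  have hδ1 : 4 * d * δ ≤ Y := by
    have h1 : δ ≤ Y / (4 * d) := by rw [hδ]; exact min_le_left _ _
    rw [le_div_iff₀ (by positivity)] at h1
    linarith
  have hδ2 : 16 * Real.pi * d * g₁ * (N + 1) * δ ≤ η * Y := by
    have h1 : δ ≤ η * Y / (16 * Real.pi * d * g₁ * (N + 1)) := by rw [hδ]; exact min_le_right _ _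
    rw [le_div_iff₀ (by positivity)] at h1
    linarith
  have hδ3 : 4 * δ ≤ Y := by
    have : 4 * 1 * δ ≤ 4 * d * δ := by gcongr; linarith
    linarith
  have hYδ : 0 < Y - δ := by linarith
  refine ⟨δ, hδ0, ?_⟩
  filter_upwards [thin_point hd h hβ hρ₁ h12 hρ₂ hδ0 (by rw [← hY]; exact hδ3)
    (show 0 < η / (2 * Real.pi) by positivity), ev_lin hYδ g₁, eventually_ge_atTop 1]
    with n hn hn2 hn1 c l m hl hm hc hln hm1 hm2 hU
  have hnR : (1 : ℝ) ≤ n := by exact_mod_cast hn1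
  have hpt := hn c l m hl hm hc hln hm1 hm2 hU
  rw [← hY] at hpt
  obtain ⟨a, b, hab, hbad⟩ := bad_set hdR hδ0 hδ1 hg₂0 hg hn2.le (by linarith : (0 : ℝ) < n)
  rw [← hN] at hbad
  -- the good part
  obtain ⟨E, hE⟩ : ∃ E : Set ℂ, E = {x : ℂ | ((ρ₁ ≤ ‖x‖ ∧ ‖x‖ ≤ ρ₂) ∧
      c + l * (x⁻¹ * β x) ∈ multibrotSet d) ∧ ∃ J : ℕ, (Y / d + δ) * n ≤ d ^ J * (-Real.log ‖x‖) ∧
        d ^ J * (-Real.log ‖x‖) ≤ (Y - δ) * n} := ⟨_, rfl⟩
  have hgood : volume E ≤ ENNReal.ofReal (η / 2) := by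
    have h1 : ∀ w ∈ E, ∃ ρ : ℝ, 0 < ρ ∧ ρ ≤ 1 ∧ closedBall w ρ ⊆ ball 0 1 ∧
        volume (E ∩ closedBall w (5 * ρ)) ≤
          ENNReal.ofReal (η / (2 * Real.pi)) * volume (closedBall w ρ) := by
      intro w hw
      rw [hE] at hw
      obtain ⟨⟨⟨h2, h3⟩, -⟩, J, h4, h5⟩ := hw
      obtain ⟨ρ, p1, p2, p3, p4⟩ := hpt J w h2 h3 h4 h5
      refine ⟨ρ, p1, p2, p3, (measure_mono ?_).trans p4⟩
      apply inter_subset_inter_left
      rw [hE]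
      exact fun x hx => hx.1.2
    choose! ρ h2 h3 h4 h5 using h1
    have h6 := Pool.Agent.Y79.CA.cov E (ball 0 1)
      (fun _ => ENNReal.ofReal (η / (2 * Real.pi))) ρ 1 measurableSet_ball
      (fun w hw => ⟨h2 w hw, h3 w hw, h4 w hw, by
        rw [setLIntegral_const]
        exact h5 w hw⟩)
    rw [setLIntegral_const, Complex.volume_ball, ENNReal.ofReal_one, one_pow, one_mul,
      ← ENNReal.ofReal_coe_nnreal, NNReal.coe_real_pi, ← ENNReal.ofReal_mul (by positivity)] at h6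
    refine h6.trans (le_of_eq ?_)
    congr 1
    field_simp
  -- the bad part
  obtain ⟨F, hF⟩ : ∃ F : Set ℂ, F = ⋃ i ∈ Finset.range N,
    {x : ℂ | Real.exp (-b i) < ‖x‖ ∧ ‖x‖ < Real.exp (-a i)} := ⟨_, rfl⟩
  have hbad2 : volume F ≤ ENNReal.ofReal (η / 2) := by
    rw [hF]
    refine (measure_biUnion_finset_le _ _).trans ?_
    calc ∑ i ∈ Finset.range N, volume {x : ℂ | Real.exp (-b i) < ‖x‖ ∧ ‖x‖ < Real.exp (-a i)}
        ≤ ∑ i ∈ Finset.range N, ENNReal.ofReal (2 * Real.pi * (4 * d * δ * g₁ / Y)) := by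
          refine Finset.sum_le_sum fun i _ => ?_
          obtain ⟨h1, h2, h3⟩ := hab i
          refine (ring_vol h1 h2).trans (ENNReal.ofReal_le_ofReal ?_)
          gcongr
      _ = ENNReal.ofReal (N * (2 * Real.pi * (4 * d * δ * g₁ / Y))) := by
          rw [Finset.sum_const, Finset.card_range, nsmul_eq_mul, ENNReal.ofReal_mul
            (Nat.cast_nonneg N), ENNReal.ofReal_natCast]
      _ ≤ _ := by
          apply ENNReal.ofReal_le_ofReal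
          have h1 : N * (2 * Real.pi * (4 * d * δ * g₁ / Y)) =
              (8 * Real.pi * d * g₁ * N * δ) / Y := by ring
          rw [h1, div_le_iff₀ hY0]
          have h2 : 0 ≤ 8 * Real.pi * d * g₁ * δ := by positivity
          nlinarith
  have hsub : {x : ℂ | (ρ₁ ≤ ‖x‖ ∧ ‖x‖ ≤ ρ₂) ∧ c + l * (x⁻¹ * β x) ∈ multibrotSet d} ⊆ E ∪ F := by
    intro x hx
    by_cases hgd : ∃ J : ℕ, (Y / d + δ) * n ≤ d ^ J * (-Real.log ‖x‖) ∧
        d ^ J * (-Real.log ‖x‖) ≤ (Y - δ) * n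
    · left
      rw [hE]
      exact ⟨hx, hgd⟩
    · right
      push Not at hgd
      have hx0 : 0 < ‖x‖ := hρ₁.trans_le hx.1.1
      have h1 := Real.log_le_log hρ₁ hx.1.1
      have h2 := Real.log_le_log hx0 hx.1.2
      obtain ⟨i, hi, h3, h4⟩ := hbad (-Real.log ‖x‖) (by linarith) (by linarith) hgd
      rw [hF]
      refine mem_iUnion₂.2 ⟨i, Finset.mem_range.2 hi, ?_, ?_⟩
      · rw [← Real.lt_log_iff_exp_lt hx0]
        linarith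
      · rw [← Real.log_lt_iff_lt_exp hx0]
        linarith
  refine (measure_mono hsub).trans ((measure_union_le _ _).trans ?_)
  refine (add_le_add hgood hbad2).trans (le_of_eq ?_)
  rw [← ENNReal.ofReal_add (by positivity) (by positivity)]
  congr 1
  ring

/-- the exterior coordinate of the points away from the Multibrot set -/
theorem coord {d : ℕ} (hd : 2 ≤ d) {β : ℂ → ℂ} (hβ : IsBeta d β) {ε R : ℝ} (hε : 0 < ε)
    (hR : 0 < R) : ∃ ρ₁ ρ₂ : ℝ, 0 < ρ₁ ∧ ρ₁ ≤ ρ₂ ∧ ρ₂ < 1 ∧ ∀ κ : ℂ, ‖κ‖ ≤ R →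
      κ ∉ thickening ε (multibrotSet d) → ∃ x : ℂ, (ρ₁ ≤ ‖x‖ ∧ ‖x‖ ≤ ρ₂) ∧ x⁻¹ * β x = κ := by
  have hψ := exteriorMap_of_beta hβ
  obtain ⟨δ, hδ, H⟩ := Pool.Agent.R240.Ext.near_frontier hd hψ
    (f := fun z => infDist z (multibrotSet d)) (continuous_infDist_pt _) (B := 0) (fun c hc => by
      have h1 : c ∈ multibrotSet d :=
        (Pool.Agent.H712R2.isCompact_multibrot hd).isClosed.frontier_subset hc
      rw [infDist_zero_of_mem h1]) hε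
  obtain ⟨p₀, hp₀, hp₁, HP⟩ := P_bounds hd hβ (show (1 / 2 : ℝ) < 1 by norm_num)
  refine ⟨min (1 / 2) (p₀ / R), max (1 / 2) (1 / (1 + δ)), by positivity,
    (min_le_left _ _).trans (le_max_left _ _), max_lt (by norm_num) (by
      rw [div_lt_one (by positivity)]
      linarith), fun κ hκ hκM => ?_⟩
  have hκ' : κ ∉ multibrotSet d := fun h => hκM (self_subset_thickening hε _ h)
  obtain ⟨x, hx, hx0, hxκ⟩ := hβ.surj κ hκ'
  have hxn : 0 < ‖x‖ := norm_pos_iff.2 hx0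
  refine ⟨x, ⟨?_, ?_⟩, hxκ⟩
  · rcases le_total (1 / 2) ‖x‖ with h1 | h1
    · exact (min_le_left _ _).trans h1
    · refine (min_le_right _ _).trans ?_
      have h2 := (HP x hx0 h1 0).1
      rw [zero_add, P_one hd, hxκ, pow_zero, pow_one, ← div_eq_mul_inv, div_le_iff₀ hxn] at h2
      rw [div_le_iff₀ hR]
      calc p₀ ≤ ‖κ‖ * ‖x‖ := h2
        _ ≤ R * ‖x‖ := by gcongr
        _ = _ := mul_comm _ _
  · by_contra hcon
    push Not at hcon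
    have h1 : 1 / (1 + δ) < ‖x‖ := (le_max_right _ _).trans_lt hcon
    have h2 := H x⁻¹ (by
      rw [norm_inv]
      exact (one_lt_inv₀ hxn).2 (by rwa [mem_ball_zero_iff] at hx)) (by
      rw [norm_inv, inv_lt_comm₀ hxn (by positivity), inv_eq_one_div]
      exact h1)
    rw [inv_inv, hxκ, zero_add] at h2
    apply hκM
    rw [mem_thickening_iff_infDist_lt]
    · exact h2
    · exact (Pool.Agent.H712R2.isConnected_multibrot hd).nonempty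

/-- **The area outside of a perfect copy.** -/
theorem thin_k {d : ℕ} (hd : 2 ≤ d) {χ : ℝ} {c₀ : ℂ} (h : Lyap d χ c₀) {ε R η : ℝ} (hε : 0 < ε)
    (hR : 0 < R) (hη : 0 < η) : ∃ δ : ℝ, 0 < δ ∧ ∀ᶠ n : ℕ in atTop, ∀ c l m : ℂ, l ≠ 0 → m ≠ 0 →
      ‖c - c₀‖ ≤ Real.exp (-((χ - δ) * n)) →
      ‖l‖ ≤ Real.exp (-((χ * d / (d - 1) - δ / 4) * n)) →
      Real.exp (-((χ / (d - 1) + δ / 4) * n)) ≤ ‖m‖ →
      ‖m‖ ≤ Real.exp (-((χ / (d - 1) - δ / 4) * n)) →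
      Un d n c l m ((χ / (d - 1) - δ / 4) * n) →
      volume {κ : ℂ | ‖κ‖ ≤ R ∧ κ ∉ thickening ε (multibrotSet d) ∧
        c + l * κ ∈ multibrotSet d} ≤ ENNReal.ofReal η := by
  obtain ⟨β, hβ⟩ := Pool.Agent.H713R2.exists_beta (d := d) hd
  obtain ⟨ρ₁, ρ₂, hρ₁, h12, hρ₂, Hc⟩ := coord hd hβ hε hR
  -- the derivative of the coordinate
  obtain ⟨r₀, hr₀⟩ : ∃ r₀ : ℝ, r₀ = min (ρ₁ / 2) ((1 - ρ₂) / 4) := ⟨_, rfl⟩
  have hr₀0 : 0 < r₀ := by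
    rw [hr₀]
    have : 0 < 1 - ρ₂ := by linarith
    positivity
  have hr₀1 : r₀ ≤ ρ₁ / 2 := by rw [hr₀]; exact min_le_left _ _
  have hr₀2 : r₀ ≤ (1 - ρ₂) / 4 := by rw [hr₀]; exact min_le_right _ _
  obtain ⟨C, hC⟩ : ∃ C : ℝ, C = 2 / (ρ₁ / 2) / (r₀ / 4) := ⟨_, rfl⟩
  have hC0 : 0 < C := by rw [hC]; positivity
  have hdiff : ∀ x : ℂ, ρ₁ ≤ ‖x‖ → ‖x‖ ≤ ρ₂ → DifferentiableAt ℂ (fun x => x⁻¹ * β x) x ∧
      ‖deriv (fun x => x⁻¹ * β x) x‖ ≤ C := by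
    intro x hx1 hx2
    have h1 := near_annulus hβ hρ₁ hρ₂ hr₀1 hr₀2 hx1 hx2
    refine ⟨(h1 x (mem_ball_self hr₀0)).2.2.1, ?_⟩
    rw [hC]
    exact deriv_annulus hr₀0 (fun z hz => ⟨(h1 z hz).2.2.1, (h1 z hz).2.2.2⟩) x
      (mem_ball_self (half_pos hr₀0))
  obtain ⟨δ, hδ, H⟩ := thin_x hd h hβ hρ₁ h12 hρ₂ (show 0 < η / C ^ 2 by positivity)
  refine ⟨δ, hδ, ?_⟩
  filter_upwards [H] with n hn c l m hl hm hc hln hm1 hm2 hU
  have h1 := hn c l m hl hm hc hln hm1 hm2 hU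
  obtain ⟨S, hS⟩ : ∃ S : Set ℂ, S = {x : ℂ | (ρ₁ ≤ ‖x‖ ∧ ‖x‖ ≤ ρ₂) ∧
    c + l * (x⁻¹ * β x) ∈ multibrotSet d} := ⟨_, rfl⟩
  rw [← hS] at h1
  have hSd : ∀ x ∈ S, DifferentiableAt ℂ (fun x => x⁻¹ * β x) x ∧
      ‖deriv (fun x => x⁻¹ * β x) x‖ ≤ C := by
    intro x hx
    rw [hS] at hx
    exact hdiff x hx.1.1 hx.1.2
  have hSm : MeasurableSet S := by
    have hAc : IsClosed {x : ℂ | ρ₁ ≤ ‖x‖ ∧ ‖x‖ ≤ ρ₂} :=
      (isClosed_le continuous_const continuous_norm).inter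
        (isClosed_le continuous_norm continuous_const)
    have h2 : S = {x : ℂ | ρ₁ ≤ ‖x‖ ∧ ‖x‖ ≤ ρ₂} ∩
        (fun x => c + l * (x⁻¹ * β x)) ⁻¹' multibrotSet d := by
      rw [hS]
      rfl
    rw [h2]
    apply IsClosed.measurableSet
    refine ContinuousOn.preimage_isClosed_of_isClosed (fun x hx => ?_) hAc
      (Pool.Agent.H712R2.isCompact_multibrot hd).isClosed
    exact (((hdiff x hx.1 hx.2).1.continuousAt.const_mul l).const_add c).continuousWithinAt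
  have himg : {κ : ℂ | ‖κ‖ ≤ R ∧ κ ∉ thickening ε (multibrotSet d) ∧
      c + l * κ ∈ multibrotSet d} ⊆ (fun x => x⁻¹ * β x) '' S := by
    rintro κ ⟨h2, h3, h4⟩
    obtain ⟨x, h5, rfl⟩ := Hc κ h2 h3
    refine ⟨x, ?_, rfl⟩
    rw [hS]
    exact ⟨h5, h4⟩
  refine (measure_mono himg).trans ?_
  refine (addHaar_image_le_lintegral_abs_det_fderiv (μ := (volume : Measure ℂ)) hSm
    (f := fun x => x⁻¹ * β x) (f' := fun z => (ContinuousLinearMap.toSpanSingleton ℂ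
      (deriv (fun x => x⁻¹ * β x) z)).restrictScalars ℝ) (fun z hz =>
      ((hSd z hz).1.hasDerivAt.hasFDerivAt.restrictScalars ℝ).hasFDerivWithinAt)).trans ?_
  calc ∫⁻ x in S, ENNReal.ofReal |((ContinuousLinearMap.toSpanSingleton ℂ
        (deriv (fun x => x⁻¹ * β x) x)).restrictScalars ℝ).det|
      ≤ ∫⁻ x in S, ENNReal.ofReal (C ^ 2) := by
        refine setLIntegral_mono' hSm fun x hx => ENNReal.ofReal_le_ofReal ?_
        rw [Pool.Agent.H713R2.det_mul_real, abs_of_nonneg (by positivity)]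
        have := (hSd x hx).2
        gcongr
    _ = ENNReal.ofReal (C ^ 2) * volume S := setLIntegral_const _ _
    _ ≤ ENNReal.ofReal (C ^ 2) * ENNReal.ofReal (η / C ^ 2) := by gcongr
    _ = ENNReal.ofReal η := by
        rw [← ENNReal.ofReal_mul (by positivity)]
        congr 1
        field_simp

end Pool.Agent.H206.Thin
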