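import Mathlib

set_option autoImplicit false

/-! # The inverse branch at the fixed point which attracts the second image of the critical point -/

namespace Pool.Agent.H206

open Complex Metric Set Filter Topology

/-- the root of unity -/
noncomputable def om (d : ℕ) : ℂ := exp (2 * Real.pi * I / d)

/-- the principal root -/
noncomputable def rt (d : ℕ) (x : ℂ) : ℂ := exp (log x / d)

section

variable {d : ℕ}

theorem om_pow (hd : 2 ≤ d) : om d ^ d = 1 := by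
  unfold om
  rw [← exp_nat_mul]
  have hd0 : (d : ℂ) ≠ 0 := by exact_mod_cast (by omega : d ≠ 0)
  rw [mul_div_cancel₀ _ hd0]
  exact exp_two_pi_mul_I

theorem norm_om : ‖om d‖ = 1 := by
  unfold om
  have : (2 * Real.pi * I / d : ℂ) = ((2 * Real.pi / d : ℝ) : ℂ) * I := by push_cast; ring
  rw [this, norm_exp_ofReal_mul_I]

theorem sin_low (hd : 2 ≤ d) : 2 / (d : ℝ) ≤ Real.sin (Real.pi / d) := by
  have hdR : (2 : ℝ) ≤ d := by exact_mod_cast hd
  have hpi := Real.pi_pos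
  have h1 := Real.mul_le_sin (x := Real.pi / d) (by positivity) (by
    rw [div_le_div_iff₀ (by linarith) (by norm_num)]
    nlinarith)
  refine le_trans (le_of_eq ?_) h1
  field_simp

theorem om_sub_one : om d - 1 =
    exp ((Real.pi / d : ℝ) * I) * (2 * I * (Real.sin (Real.pi / d) : ℝ)) := by
  obtain ⟨t, ht⟩ : ∃ t : ℝ, t = Real.pi / d := ⟨_, rfl⟩
  have h1 : om d = exp ((t : ℂ) * I) * exp ((t : ℂ) * I) := by
    unfold om
    rw [← exp_add, ht]
    congr 1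
    push_cast
    ring
  have h2 : exp ((t : ℂ) * I) * exp (-((t : ℂ) * I)) = 1 := by
    rw [← exp_add, add_neg_cancel, exp_zero]
  rw [← ht, h1]
  have h3 : ((Real.sin t : ℝ) : ℂ) = (exp (-((t : ℂ) * I)) - exp ((t : ℂ) * I)) * I / 2 := by
    rw [ofReal_sin, Complex.sin]
    rw [neg_mul]
  rw [h3]
  have h4 : (I * I : ℂ) = -1 := I_mul_I
  linear_combination h2 + (-(exp ((t : ℂ) * I) * exp (-((t : ℂ) * I)) -
    exp ((t : ℂ) * I) * exp ((t : ℂ) * I))) * h4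

theorem norm_om_sub (hd : 2 ≤ d) : 4 / (d : ℝ) ≤ ‖om d - 1‖ := by
  rw [om_sub_one, norm_mul, norm_exp_ofReal_mul_I, one_mul, norm_mul, norm_mul, norm_I,
    Complex.norm_real]
  have h1 := sin_low hd
  have h2 : ‖(2 : ℂ)‖ = 2 := by simp
  rw [h2, mul_one, Real.norm_eq_abs]
  have h3 := le_abs_self (Real.sin (Real.pi / d))
  have h4 : 4 / (d : ℝ) = 2 * (2 / d) := by ring
  linarith

theorem norm_om_sub_le : ‖om d - 1‖ ≤ 2 := by
  have := norm_sub_le (om d) 1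
  rw [norm_om, norm_one] at this
  linarith

theorem om_ne (hd : 2 ≤ d) : om d - 1 ≠ 0 := by
  intro h
  have h1 := norm_om_sub hd
  rw [h, norm_zero] at h1
  have : (0 : ℝ) < d := by exact_mod_cast (by omega : 0 < d)
  have : 0 < 4 / (d : ℝ) := by positivity
  linarith

/-- `ω / (ω - 1) = 1 / 2 - i cot (π / d) / 2` -/
theorem q_eq (hd : 2 ≤ d) : om d / (om d - 1) =
    ((1 / 2 : ℝ) : ℂ) - ((Real.cos (Real.pi / d) / (2 * Real.sin (Real.pi / d)) : ℝ) : ℂ) * I := by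
  have hs := sin_low hd
  have hd0 : (0 : ℝ) < d := by exact_mod_cast (by omega : 0 < d)
  have hs0 : 0 < Real.sin (Real.pi / d) := lt_of_lt_of_le (by positivity) hs
  obtain ⟨t, ht⟩ : ∃ t : ℝ, t = Real.pi / d := ⟨_, rfl⟩
  have h1 : om d = exp ((t : ℂ) * I) * exp ((t : ℂ) * I) := by
    unfold om
    rw [← exp_add, ht]
    congr 1
    push_cast
    ring
  rw [div_eq_iff (om_ne hd), om_sub_one, ← ht, h1]
  rw [← ht] at hs0
  have hsc : (Real.sin t : ℂ) ≠ 0 := by exact_mod_cast hs0.ne'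
  have h2 : exp ((t : ℂ) * I) = (Real.cos t : ℂ) + (Real.sin t : ℂ) * I := by
    rw [exp_mul_I, ofReal_cos, ofReal_sin]
  have h4 : (I * I : ℂ) = -1 := I_mul_I
  have h5 : exp ((t : ℂ) * I) * exp ((t : ℂ) * I) = exp ((t : ℂ) * I) *
    ((Real.cos t : ℂ) + (Real.sin t : ℂ) * I) := by rw [← h2]
  have e : ((Real.cos t / (2 * Real.sin t) : ℝ) : ℂ) * (Real.sin t : ℂ) = (Real.cos t : ℂ) / 2 := by
    rw [ofReal_div, ofReal_mul, ofReal_ofNat]
    field_simp
  have e2 : ((1 / 2 : ℝ) : ℂ) = 1 / 2 := by push_cast; ring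
  rw [h5, e2]
  linear_combination (2 * exp ((t : ℂ) * I) * I ^ 2) * e +
    (exp ((t : ℂ) * I) * (Real.cos t : ℂ)) * h4

theorem rt_pow (hd : 2 ≤ d) {x : ℂ} (hx : x ≠ 0) : rt d x ^ d = x := by
  unfold rt
  rw [← exp_nat_mul]
  have hd0 : (d : ℂ) ≠ 0 := by exact_mod_cast (by omega : d ≠ 0)
  rw [mul_div_cancel₀ _ hd0, exp_log hx]

theorem rt_one : rt d 1 = 1 := by
  unfold rt
  rw [log_one, zero_div, exp_zero]

theorem ne_of_re {x : ℂ} (hx : 2 / 5 ≤ x.re) : x ≠ 0 := by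
  rintro rfl
  norm_num at hx

theorem norm_rt (hd : 2 ≤ d) {x : ℂ} (hx : x ≠ 0) : ‖rt d x‖ ^ d = ‖x‖ := by
  rw [← norm_pow, rt_pow hd hx]

theorem norm_rt_ge (hd : 2 ≤ d) {x : ℂ} (hx : 2 / 5 ≤ x.re) : 2 / 5 ≤ ‖rt d x‖ := by
  by_contra hcon
  push Not at hcon
  have h1 := norm_rt hd (ne_of_re hx)
  have h2 : ‖rt d x‖ ^ d ≤ ‖rt d x‖ ^ 1 :=
    pow_le_pow_of_le_one (norm_nonneg _) (by linarith) (by omega)
  have h3 := (re_le_norm x)
  rw [pow_one] at h2
  linarith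

theorem norm_rt_le (hd : 2 ≤ d) {x : ℂ} (hx : x ≠ 0) : ‖rt d x‖ ≤ max 1 ‖x‖ := by
  by_contra hcon
  push Not at hcon
  rw [max_lt_iff] at hcon
  have h1 := norm_rt hd hx
  have h2 : ‖rt d x‖ ^ 1 ≤ ‖rt d x‖ ^ d := pow_le_pow_right₀ hcon.1.le (by omega)
  rw [pow_one] at h2
  linarith [hcon.2]

theorem rt_deriv {x : ℂ} (hx : 2 / 5 ≤ x.re) :
    HasDerivAt (rt d) (rt d x * (x⁻¹ / d)) x := by
  have h1 : HasDerivAt Complex.log x⁻¹ x := hasDerivAt_log (by
    rw [mem_slitPlane_iff]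
    left
    linarith)
  exact (h1.div_const (d : ℂ)).cexp

/-- the root is Lipschitz -/
theorem rt_lip (hd : 2 ≤ d) {x y : ℂ} (hx : 2 / 5 ≤ x.re) (hy : 2 / 5 ≤ y.re) :
    ‖rt d x - rt d y‖ ≤ 5 / 2 / d * ‖x - y‖ := by
  have hd0 : (0 : ℝ) < d := by exact_mod_cast (by omega : 0 < d)
  have hconv : Convex ℝ {z : ℂ | 2 / 5 ≤ z.re} := convex_halfSpace_re_ge _
  refine hconv.norm_image_sub_le_of_norm_hasDerivWithin_le
    (fun z hz => (rt_deriv hz).hasDerivWithinAt) (fun z hz => ?_) hy hx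
  have hz' : 2 / 5 ≤ z.re := hz
  have hz0 := ne_of_re hz'
  have hzn : 2 / 5 ≤ ‖z‖ := hz'.trans (re_le_norm z)
  rw [norm_mul, norm_div, norm_inv, Complex.norm_natCast]
  have h1 := norm_rt_le hd hz0
  have h2 : ‖rt d z‖ * ‖z‖⁻¹ ≤ 5 / 2 := by
    rw [← div_eq_mul_inv, div_le_iff₀ (by linarith)]
    refine h1.trans (max_le ?_ ?_)
    · linarith
    · linarith
  calc ‖rt d z‖ * (‖z‖⁻¹ / d) = (‖rt d z‖ * ‖z‖⁻¹) / d := by ring
    _ ≤ 5 / 2 / d := by gcongr

/-- the real part -/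
theorem re_low (hd : 2 ≤ d) {x : ℂ} (hx : 2 / 5 ≤ x.re) :
    3 / 5 ≤ (1 + om d / (om d - 1) * (rt d x - 1)).re := by
  have hs := sin_low hd
  have hdR : (2 : ℝ) ≤ d := by exact_mod_cast hd
  have hd0 : (0 : ℝ) < d := by linarith
  have hpi := Real.pi_pos
  obtain ⟨t, ht⟩ : ∃ t : ℝ, t = Real.pi / d := ⟨_, rfl⟩
  have ht0 : 0 < t := by rw [ht]; positivity
  have ht2 : t ≤ Real.pi / 2 := by
    rw [ht]
    gcongr
  have hs0 : 0 < Real.sin t := by
    rw [ht]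
    exact lt_of_lt_of_le (by positivity) hs
  -- the polar coordinates
  obtain ⟨φ, hφ⟩ : ∃ φ : ℝ, φ = arg x / d := ⟨_, rfl⟩
  have harg := (abs_arg_lt_pi_div_two_iff).2 (Or.inl (show 0 < x.re by linarith))
  rw [abs_lt] at harg
  have hφ1 : -(t / 2) ≤ φ := by
    have h1 : -(t / 2) = (-(Real.pi / 2)) / d := by rw [ht]; ring
    rw [hφ, h1]
    exact div_le_div_of_nonneg_right harg.1.le hd0.le
  have hφ2 : φ ≤ t / 2 := by
    have h1 : t / 2 = Real.pi / 2 / d := by rw [ht]; ring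
    rw [hφ, h1]
    exact div_le_div_of_nonneg_right harg.2.le hd0.le
  have hx0 := ne_of_re hx
  obtain ⟨ρ, hρ⟩ : ∃ ρ : ℝ, ρ = ‖rt d x‖ := ⟨_, rfl⟩
  have hρ1 : 2 / 5 ≤ ρ := by rw [hρ]; exact norm_rt_ge hd hx
  have hrt : rt d x = (ρ : ℂ) * exp ((φ : ℂ) * I) := by
    have h1 : rt d x = exp (((log x).re / d : ℝ) : ℂ) * exp ((φ : ℂ) * I) := by
      unfold rt
      rw [← exp_add]
      congr 1
      conv_lhs => rw [← re_add_im (log x), log_im]
      rw [hφ]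
      push_cast
      ring
    have h2 : ρ = Real.exp ((log x).re / d) := by
      rw [hρ, h1, norm_mul, norm_exp_ofReal_mul_I, mul_one, norm_exp, ofReal_re]
    rw [h1, h2, ofReal_exp]
  have hre : (rt d x).re = ρ * Real.cos φ := by
    rw [hrt, exp_mul_I, ← ofReal_cos, ← ofReal_sin]
    simp [-ofReal_cos, -ofReal_sin]
  have him : (rt d x).im = ρ * Real.sin φ := by
    rw [hrt, exp_mul_I, ← ofReal_cos, ← ofReal_sin]
    simp [-ofReal_cos, -ofReal_sin]
  have hsin : Real.sin (t / 2) ≤ Real.sin (t + φ) := by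
    have h1 : Real.sin (t + φ) - Real.sin (t / 2) = 2 * Real.sin ((t + φ - t / 2) / 2) *
        Real.cos ((t + φ + t / 2) / 2) := Real.sin_sub_sin _ _
    have h2 : 0 ≤ Real.sin ((t + φ - t / 2) / 2) :=
      Real.sin_nonneg_of_nonneg_of_le_pi (by linarith) (by linarith)
    have h3 : 0 ≤ Real.cos ((t + φ + t / 2) / 2) :=
      Real.cos_nonneg_of_neg_pi_div_two_le_of_le (by linarith) (by linarith)
    have h4 := mul_nonneg h2 h3
    linarith
  have hst : Real.sin t ≤ 2 * Real.sin (t / 2) := by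
    have h1 : Real.sin t = 2 * Real.sin (t / 2) * Real.cos (t / 2) := by
      rw [← Real.sin_two_mul]
      congr 1
      ring
    have h2 := Real.cos_le_one (t / 2)
    have h3 : 0 ≤ Real.sin (t / 2) :=
      Real.sin_nonneg_of_nonneg_of_le_pi (by linarith) (by linarith)
    rw [h1]
    nlinarith
  rw [q_eq hd, ← ht]
  have key : (1 + (((1 / 2 : ℝ) : ℂ) - ((Real.cos t / (2 * Real.sin t) : ℝ) : ℂ) * I) *
      (rt d x - 1)).re = 1 / 2 + ρ / 2 * (Real.sin (t + φ) / Real.sin t) := by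
    simp only [add_re, one_re, mul_re, sub_re, ofReal_re, I_re, mul_zero, ofReal_im, I_im, mul_one,
      sub_im, one_im, zero_sub, mul_im, add_zero]
    rw [hre, him, Real.sin_add]
    field_simp
    ring
  rw [key]
  have h5 : 1 / 2 ≤ Real.sin (t + φ) / Real.sin t := by
    rw [le_div_iff₀ hs0]
    linarith
  nlinarith

/-- the starting point -/
theorem re_zero (hd : 2 ≤ d) : (-(om d - 1)⁻¹ : ℂ).re = 1 / 2 := by
  have h1 : (-(om d - 1)⁻¹ : ℂ) = 1 - om d / (om d - 1) := by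
    field_simp [om_ne hd]
    ring
  rw [h1, q_eq hd]
  simp only [sub_re, one_re, ofReal_re, mul_re, I_re, ofReal_im, I_im]
  norm_num

end

end Pool.Agent.H206
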