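import Pool.Agent.H206.TipA

set_option autoImplicit false

/-! # Preimages of the critical point for perturbed families -/

namespace Pool.Agent.H206

open Complex Metric Set Filter Topology

section

variable {d : ℕ}

/-- a geometric sequence of holomorphic functions -/
theorem hol_lim {Ω : Set ℂ} (hΩ : IsOpen Ω) {V : ℕ → ℂ → ℂ} {C q : ℝ} (hq : q < 1)
    (hV : ∀ k, DifferentiableOn ℂ (V k) Ω)
    (h : ∀ k, ∀ κ ∈ Ω, dist (V k κ) (V (k + 1) κ) ≤ C * q ^ k) (hq0 : 0 ≤ q) :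
    ∃ W : ℂ → ℂ, DifferentiableOn ℂ W Ω ∧
      (∀ κ ∈ Ω, Tendsto (fun k => V k κ) atTop (𝓝 (W κ))) ∧
      ∀ k, ∀ κ ∈ Ω, dist (V k κ) (W κ) ≤ C * q ^ k / (1 - q) := by
  have hlim : ∀ κ ∈ Ω, ∃ w, Tendsto (fun k => V k κ) atTop (𝓝 w) := fun κ hκ =>
    cauchySeq_tendsto_of_complete (cauchySeq_of_le_geometric q C hq (fun k => h k κ hκ))
  choose! W hW using hlim
  have hd : ∀ k, ∀ κ ∈ Ω, dist (V k κ) (W κ) ≤ C * q ^ k / (1 - q) := fun k κ hκ =>
    dist_le_of_le_geometric_of_tendsto q C hq (fun k => h k κ hκ) (hW κ hκ) k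
  refine ⟨W, ?_, hW, hd⟩
  have hu : TendstoUniformlyOn V W atTop Ω := by
    rw [Metric.tendstoUniformlyOn_iff]
    intro ε hε
    have h1 : Tendsto (fun k => C * q ^ k / (1 - q)) atTop (𝓝 0) := by
      have h2 := ((tendsto_pow_atTop_nhds_zero_of_lt_one hq0 hq).const_mul C).div_const (1 - q)
      simpa using h2
    filter_upwards [h1.eventually (gt_mem_nhds hε)] with k hk κ hκ
    rw [dist_comm]
    exact (hd k κ hκ).trans_lt hk
  exact hu.tendstoLocallyUniformlyOn.differentiableOn (Eventually.of_forall hV) hΩ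

/-- the inverse branch -/
noncomputable def Psi (d : ℕ) (a x : ℂ) : ℂ := om d * a * rt d (x / a ^ d)

variable {a : ℂ}

theorem a_ne (hd : 2 ≤ d) (ha : a ^ (d - 1) = om d - 1) : a ≠ 0 := by
  rintro rfl
  rw [zero_pow (by omega)] at ha
  exact om_ne hd ha.symm

theorem a_pow (hd : 2 ≤ d) (ha : a ^ (d - 1) = om d - 1) : a ^ d = a * (om d - 1) := by
  rw [← ha, ← pow_succ', Nat.sub_add_cancel (by omega)]

theorem norm_a_le (hd : 2 ≤ d) (ha : a ^ (d - 1) = om d - 1) : ‖a‖ ≤ 2 := by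
  by_contra hcon
  push Not at hcon
  have h1 : ‖a‖ ^ (d - 1) = ‖om d - 1‖ := by rw [← norm_pow, ha]
  have h2 : ‖a‖ ^ 1 ≤ ‖a‖ ^ (d - 1) := pow_le_pow_right₀ (by linarith) (by omega)
  have h3 := norm_om_sub_le (d := d)
  rw [pow_one] at h2
  linarith

theorem norm_apow_le (hd : 2 ≤ d) (ha : a ^ (d - 1) = om d - 1) : ‖a‖ ^ d ≤ 4 := by
  rw [← norm_pow, a_pow hd ha, norm_mul]
  have h1 := norm_a_le hd ha
  have h2 := norm_om_sub_le (d := d)
  have h3 := norm_nonneg a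
  have h4 := norm_nonneg (om d - 1)
  nlinarith

theorem Psi_pow (hd : 2 ≤ d) (ha : a ^ (d - 1) = om d - 1) {x : ℂ} (hx : x ≠ 0) :
    Psi d a x ^ d = x := by
  have ha0 := a_ne hd ha
  have h1 : x / a ^ d ≠ 0 := div_ne_zero hx (pow_ne_zero _ ha0)
  unfold Psi
  rw [mul_pow, mul_pow, om_pow hd, rt_pow hd h1, one_mul, mul_div_cancel₀ _ (pow_ne_zero _ ha0)]

theorem Psi_lip (hd : 2 ≤ d) (ha : a ^ (d - 1) = om d - 1) {x y : ℂ} (hx : 2 / 5 ≤ (x / a ^ d).re)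
    (hy : 2 / 5 ≤ (y / a ^ d).re) : ‖Psi d a x - Psi d a y‖ ≤ 5 / 8 * ‖x - y‖ := by
  have ha0 := a_ne hd ha
  have han : 0 < ‖a‖ := norm_pos_iff.2 ha0
  have hdR : (0 : ℝ) < d := by exact_mod_cast (by omega : 0 < d)
  have h1 := rt_lip hd hx hy
  have h2 : Psi d a x - Psi d a y = om d * a * (rt d (x / a ^ d) - rt d (y / a ^ d)) := by
    unfold Psi
    ring
  rw [h2, norm_mul, norm_mul, norm_om, one_mul]
  rw [← sub_div, norm_div, norm_pow] at h1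
  have h3 : ‖a‖ ^ d = ‖a‖ * ‖om d - 1‖ := by rw [← norm_pow, a_pow hd ha, norm_mul]
  have h4 := norm_om_sub hd
  have h5 : 0 < ‖om d - 1‖ := lt_of_lt_of_le (by positivity) h4
  calc ‖a‖ * ‖rt d (x / a ^ d) - rt d (y / a ^ d)‖ ≤ ‖a‖ * (5 / 2 / d * (‖x - y‖ / ‖a‖ ^ d)) := by
        gcongr
    _ = (5 / 2 / d / ‖om d - 1‖) * ‖x - y‖ := by
        rw [h3]
        field_simp
    _ ≤ 5 / 8 * ‖x - y‖ := by
        refine mul_le_mul_of_nonneg_right ?_ (norm_nonneg _)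
        have h6 : 4 ≤ d * ‖om d - 1‖ := by
          rw [div_le_iff₀ hdR] at h4
          linarith
        rw [div_div, div_le_iff₀ (by positivity)]
        linarith

theorem Psi_re (hd : 2 ≤ d) (ha : a ^ (d - 1) = om d - 1) {x : ℂ} (hx : 2 / 5 ≤ (x / a ^ d).re) :
    3 / 5 ≤ ((Psi d a x - a) / a ^ d).re := by
  have h1 := re_low hd hx
  have ha0 := a_ne hd ha
  have h2 : (Psi d a x - a) / a ^ d = 1 + om d / (om d - 1) * (rt d (x / a ^ d) - 1) := by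
    unfold Psi
    have h3 := om_ne hd
    rw [a_pow hd ha] at *
    field_simp
    ring
  rw [h2]
  exact h1

theorem zero_re (hd : 2 ≤ d) (ha : a ^ (d - 1) = om d - 1) : ((0 - a) / a ^ d).re = 1 / 2 := by
  have h1 := re_zero hd
  have ha0 := a_ne hd ha
  have h2 : (0 - a) / a ^ d = -(om d - 1)⁻¹ := by
    rw [a_pow hd ha]
    field_simp
    ring
  rw [h2, h1]

theorem Psi_diff {x : ℂ} (hx : 2 / 5 ≤ (x / a ^ d).re) : DifferentiableAt ℂ (Psi d a) x := by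
  unfold Psi
  have h1 : DifferentiableAt ℂ (rt d) (x / a ^ d) := (rt_deriv hx).differentiableAt
  have h2 : DifferentiableAt ℂ (fun x : ℂ => x / a ^ d) x := by fun_prop
  exact (DifferentiableAt.comp x h1 h2).const_mul _

/-- a small perturbation of the family `z ^ d + κ` -/
structure Pert (d : ℕ) (a : ℂ) (e : ℂ → ℂ → ℂ) (δ : ℝ) : Prop where
  diff : Differentiable ℂ (fun p : ℂ × ℂ => e p.1 p.2)
  small : ∀ κ z : ℂ, ‖κ - a‖ ≤ 1 → ‖z‖ ≤ 4 → ‖e κ z‖ ≤ δ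
  δ40 : δ ≤ ‖a‖ ^ d / 40

theorem Pert.diff_z {e : ℂ → ℂ → ℂ} {δ : ℝ} (h : Pert d a e δ) (κ : ℂ) :
    Differentiable ℂ (e κ) := by
  have h1 : Differentiable ℂ (fun z : ℂ => ((κ, z) : ℂ × ℂ)) := by fun_prop
  exact h.diff.comp h1

theorem Pert.deriv_le {e : ℂ → ℂ → ℂ} {δ : ℝ} (h : Pert d a e δ) {κ : ℂ} (hκ : ‖κ - a‖ ≤ 1) {z : ℂ}
    (hz : ‖z‖ ≤ 3) : ‖deriv (e κ) z‖ ≤ δ := by
  have h1 := Complex.norm_deriv_le_of_forall_mem_sphere_norm_le (c := z) (R := 1) (C := δ)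
    (f := e κ) one_pos (h.diff_z κ).diffContOnCl (fun w hw => by
      apply h.small κ w hκ
      rw [mem_sphere, dist_eq_norm] at hw
      have := norm_add_le (w - z) z
      rw [sub_add_cancel] at this
      linarith)
  rwa [div_one] at h1

theorem Pert.lip {e : ℂ → ℂ → ℂ} {δ : ℝ} (h : Pert d a e δ) {κ : ℂ} (hκ : ‖κ - a‖ ≤ 1) {z w : ℂ}
    (hz : ‖z‖ ≤ 3) (hw : ‖w‖ ≤ 3) : ‖e κ z - e κ w‖ ≤ δ * ‖z - w‖ := by
  refine (convex_closedBall (0 : ℂ) 3).norm_image_sub_le_of_norm_deriv_le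
    (fun x _ => (h.diff_z κ).differentiableAt) (fun x hx => h.deriv_le hκ ?_) ?_ ?_
  · simpa using hx
  · simpa using hw
  · simpa using hz

theorem Pert.δ_nonneg {e : ℂ → ℂ → ℂ} {δ : ℝ} (h : Pert d a e δ) : 0 ≤ δ :=
  (norm_nonneg _).trans (h.small a 0 (by simp) (by simp))

/-- the region of the preimages -/
def QQ (d : ℕ) (a : ℂ) : Set ℂ := {z | ‖z‖ ≤ 3 ∧ 1 / 2 ≤ ((z - a) / a ^ d).re}

theorem zero_QQ (hd : 2 ≤ d) (ha : a ^ (d - 1) = om d - 1) : (0 : ℂ) ∈ QQ d a := by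
  refine ⟨by simp, ?_⟩
  rw [zero_re hd ha]

/-- the argument of the inverse branch is in the half plane -/
theorem arg_re (hd : 2 ≤ d) (ha : a ^ (d - 1) = om d - 1) {w κ x : ℂ} (hw : w ∈ QQ d a)
    (hκ : ‖κ - a‖ ≤ ‖a‖ ^ d / 40) (hx : ‖x‖ ≤ ‖a‖ ^ d / 40) :
    2 / 5 ≤ ((w - κ - x) / a ^ d).re := by
  have ha0 := a_ne hd ha
  have han : 0 < ‖a‖ ^ d := by
    have := norm_pos_iff.2 ha0
    positivity
  have h1 : (w - κ - x) / a ^ d = (w - a) / a ^ d - (κ - a + x) / a ^ d := by ring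
  rw [h1, sub_re]
  have h2 : ((κ - a + x) / a ^ d).re ≤ 1 / 20 := by
    refine (re_le_norm _).trans ?_
    rw [norm_div, norm_pow, div_le_iff₀ han]
    have := norm_add_le (κ - a) x
    linarith
  linarith [hw.2]

theorem Psi_mem (hd : 2 ≤ d) (ha : a ^ (d - 1) = om d - 1) {w κ x : ℂ} (hw : w ∈ QQ d a)
    (hκ : ‖κ - a‖ ≤ ‖a‖ ^ d / 40) (hx : ‖x‖ ≤ ‖a‖ ^ d / 40) :
    Psi d a (w - κ - x) ∈ QQ d a := by
  have h1 := arg_re hd ha hw hκ hx
  have h2 := Psi_re hd ha h1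
  refine ⟨?_, by linarith⟩
  have h3 : w - κ - x ≠ 0 := by
    intro h
    rw [h, zero_div] at h1
    norm_num at h1
  have h4 := Psi_pow hd ha h3
  have h5 := norm_a_le hd ha
  have h6 := norm_apow_le hd ha
  by_contra hcon
  push Not at hcon
  have h7 : (3 : ℝ) ^ d ≤ ‖Psi d a (w - κ - x)‖ ^ d := by gcongr
  rw [← norm_pow, h4] at h7
  have h8 : (3 : ℝ) ^ 2 ≤ 3 ^ d := pow_le_pow_right₀ (by norm_num) hd
  have h9 : ‖w - κ - x‖ ≤ ‖w‖ + (‖κ - a‖ + ‖a‖) + ‖x‖ := by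
    have e1 := norm_sub_le (w - κ) x
    have e2 := norm_sub_le w κ
    have e3 := norm_add_le (κ - a) a
    rw [sub_add_cancel] at e3
    linarith
  have h10 := hw.1
  norm_num at h8
  linarith

/-- **The inverse branch for a family.** -/
theorem inv_exists (hd : 2 ≤ d) (ha : a ^ (d - 1) = om d - 1) {e : ℂ → ℂ → ℂ} {δ : ℝ}
    (h : Pert d a e δ) {U : ℂ → ℂ} (hU : DifferentiableOn ℂ U (ball a (‖a‖ ^ d / 40)))
    (hUQ : ∀ κ ∈ ball a (‖a‖ ^ d / 40), U κ ∈ QQ d a) :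
    ∃ V : ℂ → ℂ, DifferentiableOn ℂ V (ball a (‖a‖ ^ d / 40)) ∧
      ∀ κ ∈ ball a (‖a‖ ^ d / 40), V κ ∈ QQ d a ∧ V κ = Psi d a (U κ - κ - e κ (V κ)) := by
  obtain ⟨r, hr⟩ : ∃ r, r = ‖a‖ ^ d / 40 := ⟨_, rfl⟩
  rw [← hr] at hU hUQ ⊢
  have ha4 := norm_apow_le hd ha
  have hr1 : r ≤ 1 / 10 := by rw [hr]; linarith
  have hδr : δ ≤ r := by rw [hr]; exact h.δ40
  have hδ0 := h.δ_nonneg
  have hball : ∀ κ ∈ ball a r, ‖κ - a‖ ≤ r := fun κ hκ => by
    rw [mem_ball, dist_eq_norm] at hκ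
    exact hκ.le
  obtain ⟨T, hT⟩ : ∃ T : (ℂ → ℂ) → ℂ → ℂ, T = fun V κ => Psi d a (U κ - κ - e κ (V κ)) :=
    ⟨_, rfl⟩
  obtain ⟨V, hV⟩ : ∃ V : ℕ → ℂ → ℂ, V = fun k => T^[k] (fun _ => 0) := ⟨_, rfl⟩
  have hV0 : V 0 = fun _ => 0 := by rw [hV]; rfl
  have hVs : ∀ k κ, V (k + 1) κ = Psi d a (U κ - κ - e κ (V k κ)) := by
    intro k κ
    rw [hV]
    show T^[k + 1] (fun _ => 0) κ = _
    rw [Function.iterate_succ_apply', hT]
  have hsm : ∀ κ ∈ ball a r, ∀ z : ℂ, ‖z‖ ≤ 3 → ‖e κ z‖ ≤ ‖a‖ ^ d / 40 := by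
    intro κ hκ z hz
    have := h.small κ z (by linarith [hball κ hκ]) (by linarith)
    rw [← hr]
    linarith
  have hQ : ∀ k, ∀ κ ∈ ball a r, V k κ ∈ QQ d a := by
    intro k
    induction k with
    | zero =>
      intro κ hκ
      rw [hV0]
      exact zero_QQ hd ha
    | succ k ih =>
      intro κ hκ
      rw [hVs]
      exact Psi_mem hd ha (hUQ κ hκ) (by rw [← hr]; exact hball κ hκ) (hsm κ hκ _ (ih κ hκ).1)
  have hdiff : ∀ k, DifferentiableOn ℂ (V k) (ball a r) := by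
    intro k
    induction k with
    | zero =>
      rw [hV0]
      exact differentiableOn_const 0
    | succ k ih =>
      have h1 : DifferentiableOn ℂ (fun κ => U κ - κ - e κ (V k κ)) (ball a r) := by
        have h2 : DifferentiableOn ℂ (fun κ => ((κ, V k κ) : ℂ × ℂ)) (ball a r) :=
          differentiableOn_id.prodMk ih
        exact (hU.sub differentiableOn_id).sub (h.diff.comp_differentiableOn h2)
      intro κ hκ
      have h3 : V (k + 1) = fun κ => Psi d a (U κ - κ - e κ (V k κ)) := funext (hVs k)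
      rw [h3]
      have h4 := arg_re hd ha (hUQ κ hκ) (by rw [← hr]; exact hball κ hκ)
        (hsm κ hκ _ (hQ k κ hκ).1)
      exact DifferentiableAt.comp_differentiableWithinAt (g := Psi d a) κ (Psi_diff h4) (h1 κ hκ)
  have hstep : ∀ κ ∈ ball a r, ∀ z w : ℂ, z ∈ QQ d a → w ∈ QQ d a →
      ‖Psi d a (U κ - κ - e κ z) - Psi d a (U κ - κ - e κ w)‖ ≤ 1 / 2 * ‖z - w‖ := by
    intro κ hκ z w hz hw
    have h1 := Psi_lip hd ha
      (arg_re hd ha (hUQ κ hκ) (by rw [← hr]; exact hball κ hκ) (hsm κ hκ _ hz.1))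
      (arg_re hd ha (hUQ κ hκ) (by rw [← hr]; exact hball κ hκ) (hsm κ hκ _ hw.1))
    have h2 := h.lip (κ := κ) (by linarith [hball κ hκ]) hw.1 hz.1
    have h3 : U κ - κ - e κ z - (U κ - κ - e κ w) = e κ w - e κ z := by ring
    rw [h3] at h1
    rw [norm_sub_rev w z] at h2
    have h4 : δ * ‖z - w‖ ≤ 1 / 10 * ‖z - w‖ := by
      gcongr
      linarith
    linarith [norm_nonneg (z - w)]
  have hgeo : ∀ k, ∀ κ ∈ ball a r, dist (V k κ) (V (k + 1) κ) ≤ 3 * (1 / 2) ^ k := by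
    intro k
    induction k with
    | zero =>
      intro κ hκ
      have h1 := (hQ 1 κ hκ).1
      rw [dist_eq_norm, hV0]
      simpa using h1
    | succ k ih =>
      intro κ hκ
      rw [dist_eq_norm, hVs k, hVs (k + 1)]
      have h1 := hstep κ hκ _ _ (hQ k κ hκ) (hQ (k + 1) κ hκ)
      have h2 := ih κ hκ
      rw [dist_eq_norm] at h2
      calc _ ≤ 1 / 2 * ‖V k κ - V (k + 1) κ‖ := h1
        _ ≤ 1 / 2 * (3 * (1 / 2) ^ k) := by gcongr
        _ = _ := by rw [pow_succ]; ring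
  obtain ⟨W, hW1, hW2, -⟩ := hol_lim isOpen_ball (by norm_num : (1 / 2 : ℝ) < 1) hdiff hgeo
    (by norm_num)
  refine ⟨W, hW1, fun κ hκ => ?_⟩
  have hcl : IsClosed (QQ d a) := by
    refine IsClosed.inter (isClosed_le continuous_norm continuous_const) ?_
    exact isClosed_le continuous_const (Complex.continuous_re.comp
      ((continuous_id.sub continuous_const).div_const _))
  have hWQ : W κ ∈ QQ d a :=
    hcl.mem_of_tendsto (hW2 κ hκ) (Eventually.of_forall fun k => hQ k κ hκ)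
  refine ⟨hWQ, ?_⟩
  have h1 : Tendsto (fun k => V (k + 1) κ) atTop (𝓝 (W κ)) := (hW2 κ hκ).comp (tendsto_add_atTop_nat 1)
  have h2 : Tendsto (fun k => V (k + 1) κ) atTop (𝓝 (Psi d a (U κ - κ - e κ (W κ)))) := by
    rw [tendsto_iff_dist_tendsto_zero]
    have h3 : Tendsto (fun k => 1 / 2 * dist (V k κ) (W κ)) atTop (𝓝 0) := by
      have := (tendsto_iff_dist_tendsto_zero.1 (hW2 κ hκ)).const_mul (1 / 2)
      simpa using this
    refine squeeze_zero (fun _ => dist_nonneg) (fun k => ?_) h3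
    rw [dist_eq_norm, dist_eq_norm, hVs]
    exact hstep κ hκ _ _ (hQ k κ hκ) hWQ
  exact tendsto_nhds_unique h1 h2

end

end Pool.Agent.H206
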