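import Pool.Agent.H206.TipB

set_option autoImplicit false

/-! # Misiurewicz parameters and superattracting parameters near them, for perturbed families -/

namespace Pool.Agent.H206

open Complex Metric Set Filter Topology

section

variable {d : ℕ} {a : ℂ}

/-- zeros from a lower bound on the circle -/
theorem exists_zero {g : ℂ → ℂ} {z₀ : ℂ} {ρ m : ℝ} (hρ : 0 < ρ)
    (hg : ∀ z ∈ closedBall z₀ ρ, DifferentiableAt ℂ g z) (hm : ∀ z ∈ sphere z₀ ρ, m ≤ ‖g z‖)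
    (h0 : ‖g z₀‖ < m) : ∃ z ∈ ball z₀ ρ, g z = 0 := by
  by_contra hcon
  push Not at hcon
  have hm0 : 0 < m := (norm_nonneg _).trans_lt h0
  have hne : ∀ z ∈ closedBall z₀ ρ, g z ≠ 0 := by
    intro z hz
    rcases (mem_closedBall.1 hz).lt_or_eq with h | h
    · exact hcon z h
    · intro h1
      have := hm z h
      rw [h1, norm_zero] at this
      linarith
  have hdiff : DiffContOnCl ℂ (fun z => (g z)⁻¹) (ball z₀ ρ) := by
    have h1 : ∀ z ∈ closedBall z₀ ρ, DifferentiableAt ℂ (fun z => (g z)⁻¹) z := fun z hz =>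
      (hg z hz).inv (hne z hz)
    refine ⟨fun z hz => (h1 z (ball_subset_closedBall hz)).differentiableWithinAt, ?_⟩
    rw [closure_ball _ hρ.ne']
    exact fun z hz => (h1 z hz).continuousAt.continuousWithinAt
  have h2 : ‖(g z₀)⁻¹‖ ≤ m⁻¹ := by
    refine Complex.norm_le_of_forall_mem_frontier_norm_le (f := fun z => (g z)⁻¹)
      isBounded_ball hdiff (fun z hz => ?_) (subset_closure (mem_ball_self hρ))
    rw [frontier_ball _ hρ.ne'] at hz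
    rw [norm_inv]
    exact inv_anti₀ hm0 (hm z hz)
  have h3 : g z₀ ≠ 0 := hne z₀ (mem_closedBall_self hρ.le)
  rw [norm_inv, inv_le_inv₀ (norm_pos_iff.2 h3) hm0] at h2
  linarith

/-- a function which is not locally zero has small circles without zeros -/
theorem good_circle {g : ℂ → ℂ} {Ω : Set ℂ} (hΩ : IsOpen Ω) (hg : DifferentiableOn ℂ g Ω) {z₀ : ℂ}
    (hz₀ : z₀ ∈ Ω) (hne : ¬ ∀ᶠ z in 𝓝 z₀, g z = 0) {ρ : ℝ} (hρ : 0 < ρ) :
    ∃ s c : ℝ, 0 < s ∧ s < ρ ∧ 0 < c ∧ closedBall z₀ s ⊆ Ω ∧ ∀ z ∈ sphere z₀ s, c ≤ ‖g z‖ := by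
  have han : AnalyticAt ℂ g z₀ := (hg.analyticOnNhd hΩ) z₀ hz₀
  have h1 : ∀ᶠ z in 𝓝[≠] z₀, g z ≠ 0 :=
    (han.eventually_eq_zero_or_eventually_ne_zero).resolve_left hne
  rw [eventually_nhdsWithin_iff, Metric.eventually_nhds_iff] at h1
  obtain ⟨r₁, hr₁, H1⟩ := h1
  obtain ⟨r₂, hr₂, H2⟩ := Metric.isOpen_iff.1 hΩ z₀ hz₀
  obtain ⟨s, hs⟩ : ∃ s, s = min (min r₁ r₂) ρ / 2 := ⟨_, rfl⟩
  have hm : 0 < min (min r₁ r₂) ρ := lt_min (lt_min hr₁ hr₂) hρ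
  have hs0 : 0 < s := by rw [hs]; linarith
  have hsm : s < min (min r₁ r₂) ρ := by rw [hs]; linarith
  have hs1 : s < r₁ := hsm.trans_le ((min_le_left _ _).trans (min_le_left _ _))
  have hs2 : s < r₂ := hsm.trans_le ((min_le_left _ _).trans (min_le_right _ _))
  have hs3 : s < ρ := hsm.trans_le (min_le_right _ _)
  have hsub : closedBall z₀ s ⊆ Ω := (closedBall_subset_ball hs2).trans H2
  have hcont : ContinuousOn (fun z => ‖g z‖) (sphere z₀ s) :=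
    (hg.continuousOn.mono (sphere_subset_closedBall.trans hsub)).norm
  have hcomp : IsCompact (sphere z₀ s) := isCompact_sphere _ _
  have hnon : (sphere z₀ s).Nonempty := NormedSpace.sphere_nonempty.2 hs0.le
  obtain ⟨z₁, hz₁, hmin⟩ := hcomp.exists_isMinOn hnon hcont
  have hpos : 0 < ‖g z₁‖ := by
    apply norm_pos_iff.2
    apply H1
    · rw [mem_sphere.1 hz₁]
      exact hs1
    · intro h
      rw [mem_sphere, mem_singleton_iff.1 h, dist_self] at hz₁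
      linarith
  exact ⟨s, ‖g z₁‖, hs0, hs3, hpos, hsub, fun z hz => hmin hz⟩

/-- the sequence of the preimages of `0` and its limit -/
theorem seq_exists (hd : 2 ≤ d) (ha : a ^ (d - 1) = om d - 1) {e : ℂ → ℂ → ℂ} {δ : ℝ}
    (h : Pert d a e δ) : ∃ (y : ℕ → ℂ → ℂ) (β : ℂ → ℂ),
      (∀ i, DifferentiableOn ℂ (y i) (ball a (‖a‖ ^ d / 40))) ∧
      DifferentiableOn ℂ β (ball a (‖a‖ ^ d / 40)) ∧ (∀ κ, y 0 κ = 0) ∧
      (∀ i, ∀ κ ∈ ball a (‖a‖ ^ d / 40), y i κ ∈ QQ d a ∧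
        y (i + 1) κ = Psi d a (y i κ - κ - e κ (y (i + 1) κ))) ∧
      (∀ κ ∈ ball a (‖a‖ ^ d / 40), β κ ∈ QQ d a ∧ β κ = Psi d a (β κ - κ - e κ (β κ))) ∧
      ∀ i, ∀ κ ∈ ball a (‖a‖ ^ d / 40), dist (y i κ) (β κ) ≤ 12 * (3 / 4) ^ i := by
  obtain ⟨r, hr⟩ : ∃ r, r = ‖a‖ ^ d / 40 := ⟨_, rfl⟩
  have ha4 := norm_apow_le hd ha
  have hr1 : r ≤ 1 / 10 := by rw [hr]; linarith
  have hδr : δ ≤ r := by rw [hr]; exact h.δ40
  have hδ0 := h.δ_nonneg
  have hball : ∀ κ ∈ ball a r, ‖κ - a‖ ≤ r := fun κ hκ => by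
    rw [mem_ball, dist_eq_norm] at hκ
    exact hκ.le
  have hsm : ∀ κ ∈ ball a r, ∀ z : ℂ, ‖z‖ ≤ 3 → ‖e κ z‖ ≤ ‖a‖ ^ d / 40 := by
    intro κ hκ z hz
    have := h.small κ z (by linarith [hball κ hκ]) (by linarith)
    rw [← hr]
    linarith
  have hstep : ∀ U : {U : ℂ → ℂ // DifferentiableOn ℂ U (ball a (‖a‖ ^ d / 40)) ∧
      ∀ κ ∈ ball a (‖a‖ ^ d / 40), U κ ∈ QQ d a}, ∃ V : {U : ℂ → ℂ //
      DifferentiableOn ℂ U (ball a (‖a‖ ^ d / 40)) ∧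
      ∀ κ ∈ ball a (‖a‖ ^ d / 40), U κ ∈ QQ d a},
      ∀ κ ∈ ball a (‖a‖ ^ d / 40), V.1 κ = Psi d a (U.1 κ - κ - e κ (V.1 κ)) := by
    rintro ⟨U, hU1, hU2⟩
    obtain ⟨V, hV1, hV2⟩ := inv_exists hd ha h hU1 hU2
    exact ⟨⟨V, hV1, fun κ hκ => (hV2 κ hκ).1⟩, fun κ hκ => (hV2 κ hκ).2⟩
  choose T hT using hstep
  obtain ⟨Y, hY⟩ : ∃ Y : ℕ → {U : ℂ → ℂ // DifferentiableOn ℂ U (ball a (‖a‖ ^ d / 40)) ∧
      ∀ κ ∈ ball a (‖a‖ ^ d / 40), U κ ∈ QQ d a}, Y = fun i =>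
      T^[i] ⟨fun _ => 0, differentiableOn_const 0, fun _ _ => zero_QQ hd ha⟩ := ⟨_, rfl⟩
  have hYs : ∀ i, ∀ κ ∈ ball a (‖a‖ ^ d / 40), (Y (i + 1)).1 κ =
      Psi d a ((Y i).1 κ - κ - e κ ((Y (i + 1)).1 κ)) := by
    intro i κ hκ
    have h1 : Y (i + 1) = T (Y i) := by
      rw [hY]
      exact Function.iterate_succ_apply' _ _ _
    rw [h1]
    exact hT (Y i) κ hκ
  have hlip : ∀ κ ∈ ball a (‖a‖ ^ d / 40), ∀ w w' v v' : ℂ, w ∈ QQ d a → w' ∈ QQ d a →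
      v ∈ QQ d a → v' ∈ QQ d a → v = Psi d a (w - κ - e κ v) → v' = Psi d a (w' - κ - e κ v') →
      ‖v - v'‖ ≤ 3 / 4 * ‖w - w'‖ := by
    intro κ hκ w w' v v' hw hw' hv hv' h1 h2
    rw [← hr] at hκ
    have h3 := Psi_lip hd ha
      (arg_re hd ha hw (by rw [← hr]; exact hball κ hκ) (hsm κ hκ _ hv.1))
      (arg_re hd ha hw' (by rw [← hr]; exact hball κ hκ) (hsm κ hκ _ hv'.1))
    rw [← h1, ← h2] at h3
    have h4 := h.lip (κ := κ) (by linarith [hball κ hκ]) hv.1 hv'.1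
    have h5 : ‖w - κ - e κ v - (w' - κ - e κ v')‖ ≤ ‖w - w'‖ + ‖e κ v - e κ v'‖ := by
      have : w - κ - e κ v - (w' - κ - e κ v') = (w - w') - (e κ v - e κ v') := by ring
      rw [this]
      exact norm_sub_le _ _
    have h6 : δ * ‖v - v'‖ ≤ 1 / 10 * ‖v - v'‖ := by
      gcongr
      linarith
    have h7 := norm_nonneg (v - v')
    have h8 := norm_nonneg (w - w')
    linarith
  have hgeo : ∀ i, ∀ κ ∈ ball a (‖a‖ ^ d / 40), dist ((Y i).1 κ) ((Y (i + 1)).1 κ) ≤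
      3 * (3 / 4) ^ i := by
    intro i
    induction i with
    | zero =>
      intro κ hκ
      have h1 := ((Y 1).2.2 κ hκ).1
      have h0 : (Y 0).1 κ = 0 := by rw [hY]; rfl
      rw [dist_eq_norm, h0]
      simpa using h1
    | succ i ih =>
      intro κ hκ
      rw [dist_eq_norm]
      have h1 := hlip κ hκ _ _ _ _ ((Y i).2.2 κ hκ) ((Y (i + 1)).2.2 κ hκ)
        ((Y (i + 1)).2.2 κ hκ) ((Y (i + 2)).2.2 κ hκ) (hYs i κ hκ) (hYs (i + 1) κ hκ)
      have h2 := ih κ hκ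
      rw [dist_eq_norm] at h2
      calc _ ≤ 3 / 4 * ‖(Y i).1 κ - (Y (i + 1)).1 κ‖ := h1
        _ ≤ 3 / 4 * (3 * (3 / 4) ^ i) := by gcongr
        _ = _ := by rw [pow_succ]; ring
  obtain ⟨W, hW1, hW2, hW3⟩ := hol_lim isOpen_ball (by norm_num : (3 / 4 : ℝ) < 1)
    (fun i => (Y i).2.1) hgeo (by norm_num)
  have hcl : IsClosed (QQ d a) := by
    refine IsClosed.inter (isClosed_le continuous_norm continuous_const) ?_
    exact isClosed_le continuous_const (Complex.continuous_re.comp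
      ((continuous_id.sub continuous_const).div_const _))
  refine ⟨fun i => (Y i).1, W, fun i => (Y i).2.1, hW1, fun κ => by rw [hY]; rfl,
    fun i κ hκ => ⟨(Y i).2.2 κ hκ, hYs i κ hκ⟩, fun κ hκ => ?_, fun i κ hκ => ?_⟩
  · have hWQ : W κ ∈ QQ d a :=
      hcl.mem_of_tendsto (hW2 κ hκ) (Eventually.of_forall fun k => (Y k).2.2 κ hκ)
    refine ⟨hWQ, ?_⟩
    -- the solution for `U = W`
    have hWQ' : ∀ κ ∈ ball a (‖a‖ ^ d / 40), W κ ∈ QQ d a := fun κ hκ =>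
      hcl.mem_of_tendsto (hW2 κ hκ) (Eventually.of_forall fun k => (Y k).2.2 κ hκ)
    obtain ⟨V, -, hV⟩ := inv_exists hd ha h hW1 hWQ'
    obtain ⟨hVQ, hVe⟩ := hV κ hκ
    have h1 : Tendsto (fun k => (Y (k + 1)).1 κ) atTop (𝓝 (W κ)) :=
      (hW2 κ hκ).comp (tendsto_add_atTop_nat 1)
    have h2 : Tendsto (fun k => (Y (k + 1)).1 κ) atTop (𝓝 (V κ)) := by
      rw [tendsto_iff_dist_tendsto_zero]
      have h3 : Tendsto (fun k => 3 / 4 * dist ((Y k).1 κ) (W κ)) atTop (𝓝 0) := by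
        have := (tendsto_iff_dist_tendsto_zero.1 (hW2 κ hκ)).const_mul (3 / 4)
        simpa using this
      refine squeeze_zero (fun _ => dist_nonneg) (fun k => ?_) h3
      rw [dist_eq_norm, dist_eq_norm]
      exact hlip κ hκ _ _ _ _ ((Y k).2.2 κ hκ) hWQ ((Y (k + 1)).2.2 κ hκ) hVQ (hYs k κ hκ) hVe
    have h3 := tendsto_nhds_unique h1 h2
    rw [← h3] at hVe
    exact hVe
  · refine (hW3 i κ hκ).trans (le_of_eq ?_)
    norm_num
    ring

/-- the family -/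
def HH (d : ℕ) (e : ℂ → ℂ → ℂ) (κ z : ℂ) : ℂ := z ^ d + κ + e κ z

theorem pow_diff_le {x y : ℂ} {M : ℝ} (hx : ‖x‖ ≤ M) (hy : ‖y‖ ≤ M) (n : ℕ) :
    ‖x ^ n - y ^ n‖ ≤ n * M ^ (n - 1) * ‖x - y‖ := by
  have hM : 0 ≤ M := (norm_nonneg x).trans hx
  have h1 : x ^ n - y ^ n = (∑ i ∈ Finset.range n, x ^ i * y ^ (n - 1 - i)) * (x - y) :=
    (Commute.geom_sum₂_mul (Commute.all x y) n).symm
  rw [h1, norm_mul]
  refine mul_le_mul_of_nonneg_right ?_ (norm_nonneg _)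
  refine (norm_sum_le _ _).trans ?_
  have h2 : ∀ i ∈ Finset.range n, ‖x ^ i * y ^ (n - 1 - i)‖ ≤ M ^ (n - 1) := by
    intro i hi
    rw [norm_mul, norm_pow, norm_pow]
    have hin := Finset.mem_range.1 hi
    calc ‖x‖ ^ i * ‖y‖ ^ (n - 1 - i) ≤ M ^ i * M ^ (n - 1 - i) := by gcongr
      _ = M ^ (n - 1) := by rw [← pow_add]; congr 1; omega
  refine (Finset.sum_le_sum h2).trans ?_
  rw [Finset.sum_const, Finset.card_range, nsmul_eq_mul]

theorem HH_of_Psi (hd : 2 ≤ d) (ha : a ^ (d - 1) = om d - 1) {e : ℂ → ℂ → ℂ} {κ w v : ℂ}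
    (h1 : 2 / 5 ≤ ((w - κ - e κ v) / a ^ d).re) (h2 : v = Psi d a (w - κ - e κ v)) :
    HH d e κ v = w := by
  have h3 : w - κ - e κ v ≠ 0 := by
    intro h
    rw [h, zero_div] at h1
    norm_num at h1
  have h4 := Psi_pow hd ha h3
  rw [← h2] at h4
  unfold HH
  rw [h4]
  ring

/-- the model: the fixed point at `κ = a` -/
theorem model_fix (hd : 2 ≤ d) (ha : a ^ (d - 1) = om d - 1) {v : ℂ} (hv : v ∈ QQ d a)
    (h : v = Psi d a (v - a)) : v = om d * a := by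
  have ha0 := a_ne hd ha
  have h1 : Psi d a (om d * a - a) = om d * a := by
    unfold Psi
    have h2 : (om d * a - a) / a ^ d = 1 := by
      rw [a_pow hd ha]
      have h3 := om_ne hd
      field_simp
    rw [h2, rt_one, mul_one]
  have h4 := Psi_lip hd ha (x := v - a) (y := om d * a - a) (by linarith [hv.2]) (by
    have h2 : (om d * a - a) / a ^ d = 1 := by
      rw [a_pow hd ha]
      have h3 := om_ne hd
      field_simp
    rw [h2]
    norm_num)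
  rw [← h, h1] at h4
  have h5 : v - a - (om d * a - a) = v - om d * a := by ring
  rw [h5] at h4
  have h6 := norm_nonneg (v - om d * a)
  have h7 : ‖v - om d * a‖ = 0 := by linarith
  exact sub_eq_zero.1 (norm_eq_zero.1 h7)

theorem pert_zero : Pert d a (fun _ _ => 0) 0 :=
  ⟨by fun_prop, fun _ _ _ _ => by simp, by positivity⟩

/-- the equation of the model is not trivial -/
theorem model_ne (hd : 2 ≤ d) (ha : a ^ (d - 1) = om d - 1) {β : ℂ → ℂ}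
    (hβ : ∀ κ ∈ ball a (‖a‖ ^ d / 40), β κ ∈ QQ d a ∧ β κ = Psi d a (β κ - κ - 0)) :
    ¬ ∀ᶠ κ in 𝓝 a, κ ^ d + κ - β κ = 0 := by
  intro hev
  have ha0 := a_ne hd ha
  have han : 0 < ‖a‖ ^ d / 40 := by
    have := norm_pos_iff.2 ha0
    positivity
  have h1 : ∀ᶠ κ in 𝓝 a, (κ ^ d + κ) ^ d - κ ^ d = 0 := by
    filter_upwards [hev, ball_mem_nhds a han] with κ h2 h3
    obtain ⟨h4, h5⟩ := hβ κ h3
    have h6 := HH_of_Psi hd ha (e := fun _ _ => 0) (κ := κ) (arg_re hd ha h4 (by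
      rw [mem_ball, dist_eq_norm] at h3
      exact h3.le) (by rw [norm_zero]; positivity)) h5
    unfold HH at h6
    have h7 : β κ = κ ^ d + κ := (sub_eq_zero.1 h2).symm
    rw [h7] at h6
    linear_combination h6
  have h2 : (fun κ : ℂ => (κ ^ d + κ) ^ d - κ ^ d) = fun _ => 0 := by
    have e1 : AnalyticOnNhd ℂ (fun κ : ℂ => (κ ^ d + κ) ^ d - κ ^ d) univ := by
      have : Differentiable ℂ (fun κ : ℂ => (κ ^ d + κ) ^ d - κ ^ d) := by fun_prop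
      exact this.differentiableOn.analyticOnNhd isOpen_univ
    exact e1.eq_of_eventuallyEq analyticOnNhd_const h1
  have h3 := congrFun h2 1
  simp only [one_pow] at h3
  have h4 : ((2 : ℂ) ^ d) = 1 := by
    linear_combination h3
  have h5 : ((2 : ℝ) ^ d) = 1 := by
    have := congrArg norm h4
    rwa [norm_pow, norm_one, Complex.norm_ofNat] at this
  have h6 : (2 : ℝ) ^ 1 ≤ 2 ^ d := pow_le_pow_right₀ (by norm_num) (by omega)
  linarith

end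

end Pool.Agent.H206
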