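import Pool.Agent.H206.TipC

set_option autoImplicit false

/-! # Misiurewicz parameters and superattracting parameters near them, for perturbed families -/

namespace Pool.Agent.H206

open Complex Metric Set Filter Topology

section

variable {d : ℕ} {a : ℂ}

theorem HH_zero (hd : 2 ≤ d) {e : ℂ → ℂ → ℂ} (κ : ℂ) : HH d e κ 0 = κ + e κ 0 := by
  unfold HH
  rw [zero_pow (by omega), zero_add]

/-- the orbit of a preimage -/
theorem orbit_pre {h : ℂ → ℂ} {y : ℕ → ℂ} (hy : ∀ i, h (y (i + 1)) = y i) (i j : ℕ) :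
    h^[j] (y (i + j)) = y i := by
  induction j with
  | zero => rfl
  | succ j ih =>
    rw [Function.iterate_succ_apply, ← add_assoc, hy, ih]

/-- **Misiurewicz parameters for perturbed families**, and superattracting parameters near them
whose critical orbits stay in the disc of radius `3`. -/
theorem tip (hd : 2 ≤ d) (ha : a ^ (d - 1) = om d - 1) {r : ℝ} (hr : 0 < r) :
    ∃ δ₀ : ℝ, 0 < δ₀ ∧ δ₀ ≤ ‖a‖ ^ d / 40 ∧ ∀ (e : ℂ → ℂ → ℂ) (δ : ℝ), Pert d a e δ → δ ≤ δ₀ →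
      ∃ κb b : ℂ, ‖κb - a‖ < r ∧ ‖κb - a‖ < ‖a‖ ^ d / 40 ∧ ‖b‖ ≤ 3 ∧ HH d e κb b = b ∧
        HH d e κb (HH d e κb 0) = b ∧ 3 / 2 ≤ ‖deriv (HH d e κb) b‖ ∧
        ∀ ρ : ℝ, 0 < ρ → ∃ κ' : ℂ, ‖κ' - κb‖ < ρ ∧ ∃ i : ℕ, 1 ≤ i ∧ (HH d e κ')^[i] 0 = 0 ∧
          ∀ j ≤ i, ‖(HH d e κ')^[j] 0‖ ≤ 3 := by
  have ha0 := a_ne hd ha
  have han0 : 0 < ‖a‖ := norm_pos_iff.2 ha0
  obtain ⟨R, hR⟩ : ∃ R, R = ‖a‖ ^ d / 40 := ⟨_, rfl⟩
  have hR0 : 0 < R := by rw [hR]; positivity
  have ha4 := norm_apow_le hd ha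
  have hR1 : R ≤ 1 / 10 := by rw [hR]; linarith
  have ha2 := norm_a_le hd ha
  -- the model
  obtain ⟨y₀, β₀, -, hβ₀d, -, -, hβ₀, -⟩ := seq_exists hd ha (pert_zero (d := d) (a := a))
  rw [← hR] at hβ₀d hβ₀
  have hF₀d : DifferentiableOn ℂ (fun κ => κ ^ d + κ - β₀ κ) (ball a R) := by
    have h1 : Differentiable ℂ (fun κ : ℂ => κ ^ d + κ) := by fun_prop
    exact h1.differentiableOn.sub hβ₀d
  have hF₀ne := model_ne hd ha (β := β₀) (by
    intro κ hκ
    rw [← hR] at hκ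
    exact hβ₀ κ hκ)
  obtain ⟨s, c, hs0, hsr, hc0, hsub, hcirc⟩ := good_circle isOpen_ball hF₀d (mem_ball_self hR0) hF₀ne
    (lt_min hr hR0)
  have hF₀a : a ^ d + a - β₀ a = 0 := by
    obtain ⟨h1, h2⟩ := hβ₀ a (mem_ball_self hR0)
    rw [sub_zero] at h2
    rw [model_fix hd ha h1 h2, a_pow hd ha]
    ring
  -- the constant
  obtain ⟨C, hC⟩ : ∃ C : ℝ, C = d * 3 ^ (d - 1) + 3 := ⟨_, rfl⟩
  have hC0 : 0 < C := by rw [hC]; positivity
  refine ⟨min (R) (c / (4 * C)), by positivity, by rw [← hR]; exact min_le_left _ _, ?_⟩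
  intro e δ h hδ
  have hδR : δ ≤ R := hδ.trans (min_le_left _ _)
  have hδc : C * δ ≤ c / 4 := by
    have h1 : δ ≤ c / (4 * C) := hδ.trans (min_le_right _ _)
    rw [le_div_iff₀ (by positivity)] at h1
    linarith
  have hδ0 := h.δ_nonneg
  obtain ⟨y, β, hyd, hβd, hy0, hy, hβ, hyβ⟩ := seq_exists hd ha h
  rw [← hR] at hyd hβd hy hβ hyβ
  have hball : ∀ κ ∈ ball a R, ‖κ - a‖ ≤ R := fun κ hκ => by
    rw [mem_ball, dist_eq_norm] at hκ
    exact hκ.le
  have hsm : ∀ κ ∈ ball a R, ∀ z : ℂ, ‖z‖ ≤ 4 → ‖e κ z‖ ≤ δ := by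
    intro κ hκ z hz
    exact h.small κ z (by linarith [hball κ hκ]) hz
  have hκn : ∀ κ ∈ ball a R, ‖κ‖ ≤ 21 / 10 := by
    intro κ hκ
    have h1 := norm_add_le (κ - a) a
    rw [sub_add_cancel] at h1
    linarith [hball κ hκ]
  have hfirst : ∀ κ ∈ ball a R, ‖HH d e κ 0‖ ≤ 3 := by
    intro κ hκ
    rw [HH_zero hd]
    have h1 := norm_add_le κ (e κ 0)
    have h2 := hsm κ hκ 0 (by simp)
    linarith [hκn κ hκ]
  -- the function `G`
  obtain ⟨G, hG⟩ : ∃ G : ℂ → ℂ, G = fun κ => HH d e κ (HH d e κ 0) := ⟨_, rfl⟩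
  have hGd : Differentiable ℂ G := by
    have h1 : Differentiable ℂ (fun κ : ℂ => HH d e κ 0) := by
      have h2 : Differentiable ℂ (fun κ : ℂ => ((κ, 0) : ℂ × ℂ)) := by fun_prop
      have h3 : Differentiable ℂ (fun κ : ℂ => e κ 0) := h.diff.comp h2
      have h4 : (fun κ : ℂ => HH d e κ 0) = fun κ => κ + e κ 0 := funext fun κ => HH_zero hd κ
      rw [h4]
      exact differentiable_id.add h3
    have h2 : Differentiable ℂ (fun κ : ℂ => ((κ, HH d e κ 0) : ℂ × ℂ)) :=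
      differentiable_id.prodMk h1
    have h3 : Differentiable ℂ (fun κ : ℂ => e κ (HH d e κ 0)) := h.diff.comp h2
    rw [hG]
    show Differentiable ℂ (fun κ => (HH d e κ 0) ^ d + κ + e κ (HH d e κ 0))
    exact ((h1.pow d).add differentiable_id).add h3
  have hGm : ∀ κ ∈ ball a R, ‖G κ - (κ ^ d + κ)‖ ≤ (C - 2) * δ := by
    intro κ hκ
    have h1 : G κ - (κ ^ d + κ) = ((HH d e κ 0) ^ d - κ ^ d) + e κ (HH d e κ 0) := by
      rw [hG]
      show (HH d e κ 0) ^ d + κ + e κ (HH d e κ 0) - (κ ^ d + κ) = _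
      ring
    have h2 := pow_diff_le (hfirst κ hκ) (show ‖κ‖ ≤ 3 by linarith [hκn κ hκ]) d
    have h3 : HH d e κ 0 - κ = e κ 0 := by rw [HH_zero hd]; ring
    rw [h3] at h2
    have h4 := hsm κ hκ 0 (by simp)
    have h5 := hsm κ hκ (HH d e κ 0) (by linarith [hfirst κ hκ])
    rw [h1]
    refine (norm_add_le _ _).trans ?_
    have h6 : (d : ℝ) * 3 ^ (d - 1) * ‖e κ 0‖ ≤ d * 3 ^ (d - 1) * δ := by gcongr
    rw [hC]
    linarith
  have hββ : ∀ κ ∈ ball a R, ‖β κ - β₀ κ‖ ≤ 2 * δ := by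
    intro κ hκ
    obtain ⟨h1, h2⟩ := hβ κ hκ
    obtain ⟨h3, h4⟩ := hβ₀ κ hκ
    have h5 := Psi_lip hd ha
      (arg_re hd ha h1 (x := e κ (β κ)) (by rw [← hR]; exact hball κ hκ)
        (by rw [← hR]; exact (hsm κ hκ _ (by linarith [h1.1])).trans hδR))
      (arg_re hd ha h3 (κ := κ) (x := 0) (by rw [← hR]; exact hball κ hκ)
        (by rw [norm_zero]; positivity))
    rw [← h2, ← h4] at h5
    have h6 : β κ - κ - e κ (β κ) - (β₀ κ - κ - 0) = (β κ - β₀ κ) - e κ (β κ) := by ring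
    rw [h6] at h5
    have h7 := norm_sub_le (β κ - β₀ κ) (e κ (β κ))
    have h8 := hsm κ hκ (β κ) (by linarith [h1.1])
    linarith
  -- the function `F`
  have hFd : DifferentiableOn ℂ (fun κ => G κ - β κ) (ball a R) := hGd.differentiableOn.sub hβd
  have hFF : ∀ κ ∈ ball a R, ‖(G κ - β κ) - (κ ^ d + κ - β₀ κ)‖ ≤ c / 4 := by
    intro κ hκ
    have h1 : (G κ - β κ) - (κ ^ d + κ - β₀ κ) = (G κ - (κ ^ d + κ)) - (β κ - β₀ κ) := by ring
    rw [h1]
    have h2 := norm_sub_le (G κ - (κ ^ d + κ)) (β κ - β₀ κ)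
    have h3 := hGm κ hκ
    have h4 := hββ κ hκ
    nlinarith
  have hFs : ∀ κ ∈ sphere a s, c / 2 ≤ ‖G κ - β κ‖ := by
    intro κ hκ
    have h1 := hFF κ (hsub (sphere_subset_closedBall hκ))
    have h2 := hcirc κ hκ
    have h3 := norm_sub_norm_le (κ ^ d + κ - β₀ κ) (G κ - β κ)
    rw [norm_sub_rev (κ ^ d + κ - β₀ κ) (G κ - β κ)] at h3
    linarith
  obtain ⟨κb, hκb, hFb⟩ := exists_zero hs0
    (fun z hz => (hFd z (hsub hz)).differentiableAt (isOpen_ball.mem_nhds (hsub hz))) hFs (by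
      have h1 := hFF a (mem_ball_self hR0)
      rw [hF₀a, sub_zero] at h1
      linarith)
  have hκbR : κb ∈ ball a R := hsub (ball_subset_closedBall hκb)
  have hκbn : ‖κb - a‖ < s := by rwa [mem_ball, dist_eq_norm] at hκb
  obtain ⟨hbQ, hbe⟩ := hβ κb hκbR
  have hbarg := arg_re hd ha hbQ (κ := κb) (x := e κb (β κb)) (by rw [← hR]; exact hball κb hκbR)
    (by rw [← hR]; exact (hsm κb hκbR _ (by linarith [hbQ.1])).trans hδR)
  refine ⟨κb, β κb, hκbn.trans (hsr.trans_le (min_le_left _ _)), ?_, hbQ.1,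
    HH_of_Psi hd ha hbarg hbe, ?_, ?_, ?_⟩
  · rw [← hR]
    exact hκbn.trans (hsr.trans_le (min_le_right _ _))
  · have : G κb = β κb := sub_eq_zero.1 hFb
    rw [hG] at this
    exact this
  · -- the multiplier
    have h1 : deriv (HH d e κb) (β κb) = d * β κb ^ (d - 1) + deriv (e κb) (β κb) := by
      have e1 : HasDerivAt (fun z : ℂ => z ^ d + κb + e κb z)
          (d * β κb ^ (d - 1) + deriv (e κb) (β κb)) (β κb) := by
        have e2 := (hasDerivAt_pow d (β κb)).add_const κb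
        exact e2.add ((h.diff_z κb) (β κb)).hasDerivAt
      exact e1.deriv
    have h2 := h.deriv_le (κ := κb) (by linarith [hball κb hκbR]) hbQ.1
    have h3 : 2 / 5 * ‖a‖ ^ d ≤ ‖β κb‖ ^ d := by
      have e1 := HH_of_Psi hd ha hbarg hbe
      unfold HH at e1
      have e2 : β κb ^ d = β κb - κb - e κb (β κb) := by linear_combination e1
      have e3 := hbarg.trans (re_le_norm _)
      rw [norm_div, norm_pow, le_div_iff₀ (by positivity), ← e2, norm_pow] at e3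
      exact e3
    have h4 : 2 / 5 * ‖a‖ ^ (d - 1) ≤ ‖β κb‖ ^ (d - 1) := by
      rcases le_total ‖a‖ ‖β κb‖ with h5 | h5
      · have h6 : ‖a‖ ^ (d - 1) ≤ ‖β κb‖ ^ (d - 1) := by gcongr
        have h7 : 0 ≤ ‖a‖ ^ (d - 1) := by positivity
        linarith
      · have h6 : ‖β κb‖ ^ d ≤ ‖β κb‖ ^ (d - 1) * ‖a‖ := by
          conv_lhs => rw [← Nat.sub_add_cancel (show 1 ≤ d by omega), pow_succ]
          gcongr
        have h7 : ‖a‖ ^ d = ‖a‖ ^ (d - 1) * ‖a‖ := by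
          conv_lhs => rw [← Nat.sub_add_cancel (show 1 ≤ d by omega), pow_succ]
        rw [h7] at h3
        have h8 : 2 / 5 * ‖a‖ ^ (d - 1) * ‖a‖ ≤ ‖β κb‖ ^ (d - 1) * ‖a‖ := by linarith
        exact le_of_mul_le_mul_right h8 han0
    have h5 : 8 / 5 ≤ d * ‖β κb‖ ^ (d - 1) := by
      have hdR : (0 : ℝ) < d := by exact_mod_cast (by omega : 0 < d)
      have e1 := norm_om_sub hd
      rw [← ha, norm_pow, div_le_iff₀ hdR] at e1
      nlinarith
    rw [h1]
    have h6 := norm_sub_norm_le ((d : ℂ) * β κb ^ (d - 1)) (-(deriv (e κb) (β κb)))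
    rw [sub_neg_eq_add, norm_neg, norm_mul, norm_pow, Complex.norm_natCast] at h6
    linarith
  · -- superattracting parameters
    intro ρ hρ
    have hne : ¬ ∀ᶠ κ in 𝓝 κb, G κ - β κ = 0 := by
      intro hev
      have h1 : EqOn (fun κ => G κ - β κ) (fun _ => 0) (ball a R) :=
        (hFd.analyticOnNhd isOpen_ball).eqOn_of_preconnected_of_eventuallyEq
          analyticOnNhd_const (convex_ball a R).isPreconnected hκbR hev
      obtain ⟨z, hz⟩ := (NormedSpace.sphere_nonempty (x := a) (r := s)).2 hs0.le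
      have h2 := hFs z hz
      have h3 : G z - β z = 0 := h1 (hsub (sphere_subset_closedBall hz))
      rw [h3, norm_zero] at h2
      linarith
    obtain ⟨s', c', hs'0, hs'ρ, hc'0, hsub', hcirc'⟩ := good_circle isOpen_ball hFd hκbR hne hρ
    obtain ⟨i, hi⟩ : ∃ i : ℕ, 12 * (3 / 4 : ℝ) ^ i < c' / 2 := by
      have h1 : Tendsto (fun i : ℕ => 12 * (3 / 4 : ℝ) ^ i) atTop (𝓝 (12 * 0)) :=
        (tendsto_pow_atTop_nhds_zero_of_lt_one (by norm_num) (by norm_num)).const_mul 12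
      rw [mul_zero] at h1
      exact (h1.eventually (gt_mem_nhds (half_pos hc'0))).exists
    have hFi : ∀ κ ∈ ball a R, ‖(G κ - y i κ) - (G κ - β κ)‖ < c' / 2 := by
      intro κ hκ
      have h1 : (G κ - y i κ) - (G κ - β κ) = β κ - y i κ := by ring
      rw [h1, norm_sub_rev, ← dist_eq_norm]
      exact (hyβ i κ hκ).trans_lt hi
    obtain ⟨κ', hκ', hzero⟩ := exists_zero (g := fun κ => G κ - y i κ) (m := c' / 2) hs'0
      (fun z hz => (hGd z).sub ((hyd i z (hsub' hz)).differentiableAt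
        (isOpen_ball.mem_nhds (hsub' hz)))) (fun z hz => by
        have h1 := hFi z (hsub' (sphere_subset_closedBall hz))
        have h2 := hcirc' z hz
        have h3 := norm_sub_norm_le (G z - β z) (G z - y i z)
        rw [norm_sub_rev (G z - β z) (G z - y i z)] at h3
        linarith) (by
        have h1 := hFi κb hκbR
        rw [hFb, sub_zero] at h1
        exact h1)
    have hκ'R : κ' ∈ ball a R := hsub' (ball_subset_closedBall hκ')
    have hGy : G κ' = y i κ' := sub_eq_zero.1 hzero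
    have hstep : ∀ j, HH d e κ' (y (j + 1) κ') = y j κ' := by
      intro j
      obtain ⟨g1, g2⟩ := hy j κ' hκ'R
      obtain ⟨g3, -⟩ := hy (j + 1) κ' hκ'R
      refine HH_of_Psi hd ha (arg_re hd ha g1 (by rw [← hR]; exact hball κ' hκ'R) ?_) g2
      rw [← hR]
      exact (hsm κ' hκ'R _ (by linarith [g3.1])).trans hδR
    have horb : ∀ j k, (HH d e κ')^[k] (y (j + k) κ') = y j κ' := fun j k =>
      orbit_pre (y := fun i => y i κ') hstep j k
    have htwo : (HH d e κ')^[2] 0 = y i κ' := by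
      rw [← hGy, hG]
      rfl
    have hκ'n : ‖κ' - κb‖ < s' := by rwa [mem_ball, dist_eq_norm] at hκ'
    refine ⟨κ', hκ'n.trans hs'ρ, i + 2, by omega, ?_, ?_⟩
    · rw [Function.iterate_add_apply, htwo]
      have := horb 0 i
      rw [zero_add] at this
      rw [this, hy0]
    · intro j hj
      rcases j with _ | _ | j
      · simp
      · rw [zero_add, Function.iterate_one]
        exact hfirst κ' hκ'R
      · rw [show j + 1 + 1 = j + 2 by ring, Function.iterate_add_apply, htwo]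
        have h1 := horb (i - j) j
        rw [Nat.sub_add_cancel (by omega)] at h1
        rw [h1]
        exact (hy (i - j) κ' hκ'R).1.1

end

end Pool.Agent.H206
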